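import Pool.Agent.H15.SC.Smooth

/-!
# SC-06  consequences of a moment bound `∫_{-U}^{U} |F(1/2+it)|² dt ≤ C U^a`, `1 ≤ a < 2`
(project SC, MP_be4568_nt)

`dyadic_moment`: if `φ ≥ 0` and `∫_{-U}^{U} φ ≤ C U^a` for all `U ≥ 1`, `0 < a < 2`, then
`∫ φ(t) (1+t²)⁻¹ min(1, (1+|t|)²/R²) dt ≤ C' R^{a-2}` for all `R ≥ 1` (dyadic blocks `|t| ∈ [R 2^j, R 2^{j+1})`).
`near_smooth`, `near_inc`: `hf_smooth`, `hf_inc` with `K1 + k0/s = F(s)/s - pp(s)` (`P.Kform`), `|s|² ≥ (1+t²)/4`,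
`|1 - e^{s²/W²}| ≤ C min(1, (1+|t|)²/W²)`, `|e^{sv} - 1| ≤ C min(1, (1+|t|) v)`, `|pp| ≤ C/(1+|t|)` (this is the
case `φ = C`, `a = 1`), and `x^{-2} ≥ (2T)^{-2}` on `[T,2T]`.
-/

set_option autoImplicit false

open Complex Filter Topology MeasureTheory Set
open scoped ComplexConjugate

namespace Pool.Agent.H15.SC

variable {D : SelData}

/-- the moment hypothesis -/
def Mom (D : SelData) (a : ℝ) : Prop :=
  ∃ C : ℝ, 0 ≤ C ∧ ∀ U : ℝ, 1 ≤ U → ∫ t in (-U)..U, ‖D.F (ln (1/2) t)‖ ^ 2 ≤ C * U ^ a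

/-- pointwise dyadic majorant of the weight, written as a term bound -/
theorem HFa_weight_le {R : ℝ} (hR : 1 ≤ R) (t : ℝ) :
    ∃ j : ℕ, |t| ≤ R * 2 ^ j ∧
      1 / (1 + t ^ 2) * min 1 ((1 + |t|) ^ 2 / R ^ 2) ≤ 4 / (R * 2 ^ j) ^ 2 := by
  have hR0 : 0 < R := by linarith
  have ht2 : |t| ^ 2 = t ^ 2 := sq_abs t
  have hpos : 0 < 1 + t ^ 2 := by positivity
  by_cases hle : |t| ≤ R
  · refine ⟨0, by simpa using hle, ?_⟩
    have h1 : 1 / (1 + t ^ 2) * min 1 ((1 + |t|) ^ 2 / R ^ 2) ≤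
        1 / (1 + t ^ 2) * ((1 + |t|) ^ 2 / R ^ 2) :=
      mul_le_mul_of_nonneg_left (min_le_right _ _) (by positivity)
    refine h1.trans ?_
    have h2 : (1 + |t|) ^ 2 ≤ 4 * (1 + t ^ 2) := by nlinarith [sq_nonneg (1 - |t|), abs_nonneg t]
    simp only [pow_zero, mul_one]
    rw [div_mul_div_comm, one_mul, div_le_div_iff₀ (by positivity) (by positivity)]
    have hR2 : 0 < R ^ 2 := by positivity
    nlinarith
  · push Not at hle
    -- the least power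
    have hex : ∃ j : ℕ, |t| ≤ R * 2 ^ j := by
      obtain ⟨j, hj⟩ := pow_unbounded_of_one_lt |t| (by norm_num : (1:ℝ) < 2)
      refine ⟨j, hj.le.trans ?_⟩
      have : (0:ℝ) < 2 ^ j := by positivity
      nlinarith
    classical
    set j := Nat.find hex with hjdef
    have hj : |t| ≤ R * 2 ^ j := Nat.find_spec hex
    have hj0 : j ≠ 0 := by
      intro h0
      rw [h0] at hj
      simp only [pow_zero, mul_one] at hj
      linarith
    obtain ⟨i, hi⟩ := Nat.exists_eq_succ_of_ne_zero hj0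
    have hi2 : R * 2 ^ i < |t| := by
      have := Nat.find_min hex (m := i) (by omega)
      push Not at this
      exact this
    refine ⟨j, hj, ?_⟩
    have h1 : 1 / (1 + t ^ 2) * min 1 ((1 + |t|) ^ 2 / R ^ 2) ≤ 1 / (1 + t ^ 2) * 1 :=
      mul_le_mul_of_nonneg_left (min_le_left _ _) (by positivity)
    refine h1.trans ?_
    have h3 : (R * 2 ^ j) ^ 2 = 4 * (R * 2 ^ i) ^ 2 := by
      rw [hi, Nat.succ_eq_add_one, pow_succ]; ring
    rw [h3, mul_one]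
    have h4 : 0 < R * 2 ^ i := by positivity
    have h5 : (R * 2 ^ i) ^ 2 ≤ t ^ 2 := by
      rw [← ht2]
      exact pow_le_pow_left₀ h4.le hi2.le 2
    rw [div_le_div_iff₀ (by positivity) (by positivity)]
    nlinarith

theorem dyadic_moment (φ : ℝ → ℝ) (hφ : Continuous φ) (h0 : ∀ t, 0 ≤ φ t) (a C : ℝ) (ha : 0 < a) (ha2 : a < 2)
    (hC : 0 ≤ C) (h : ∀ U : ℝ, 1 ≤ U → ∫ t in (-U)..U, φ t ≤ C * U ^ a) : ∃ C' : ℝ, 0 ≤ C' ∧ ∀ R : ℝ, 1 ≤ R →
    Integrable (fun t : ℝ => φ t / (1 + t ^ 2) * min 1 ((1 + |t|) ^ 2 / R ^ 2)) ∧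
      ∫ t : ℝ, φ t / (1 + t ^ 2) * min 1 ((1 + |t|) ^ 2 / R ^ 2) ≤ C' * R ^ (a - 2) := by
  set r : ℝ := 2 ^ (a - 2) with hr
  have hr0 : 0 < r := by positivity
  have hr1 : r < 1 := Real.rpow_lt_one_of_one_lt_of_neg (by norm_num) (by linarith)
  refine ⟨4 * C * (1 - r)⁻¹, mul_nonneg (by positivity) (inv_nonneg.2 (by linarith)), ?_⟩
  intro R hR
  have hR0 : 0 < R := by linarith
  set g : ℝ → ℝ := fun t : ℝ => φ t / (1 + t ^ 2) * min 1 ((1 + |t|) ^ 2 / R ^ 2) with hg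
  have hgcont : Continuous g := by
    apply Continuous.mul
    · apply Continuous.div hφ (by fun_prop)
      intro t
      positivity
    · apply Continuous.min continuous_const
      fun_prop
  have hg0 : ∀ t, 0 ≤ g t := by
    intro t
    apply mul_nonneg (div_nonneg (h0 t) (by positivity))
    exact le_min zero_le_one (by positivity)
  have hlint : ∫⁻ t : ℝ, ENNReal.ofReal (g t) ≤ ENNReal.ofReal (4 * C * (1 - r)⁻¹ * R ^ (a - 2)) := by
    have hpt : ∀ t : ℝ, ENNReal.ofReal (g t) ≤ ∑' j : ℕ, (Icc (-(R * 2 ^ j)) (R * 2 ^ j)).indicator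
        (fun t => ENNReal.ofReal (4 / (R * 2 ^ j) ^ 2 * φ t)) t := by
      intro t
      obtain ⟨j, hj1, hj2⟩ := HFa_weight_le hR t
      refine le_trans ?_ (ENNReal.le_tsum j)
      have hmem : t ∈ Icc (-(R * 2 ^ j)) (R * 2 ^ j) := by
        rw [mem_Icc]; exact abs_le.1 hj1
      rw [indicator_of_mem hmem]
      apply ENNReal.ofReal_le_ofReal
      have : g t = (1 / (1 + t ^ 2) * min 1 ((1 + |t|) ^ 2 / R ^ 2)) * φ t := by
        simp only [hg]; ring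
      rw [this]
      exact mul_le_mul_of_nonneg_right hj2 (h0 t)
    have hterm : ∀ j : ℕ, ∫⁻ t : ℝ, (Icc (-(R * 2 ^ j)) (R * 2 ^ j)).indicator
        (fun t => ENNReal.ofReal (4 / (R * 2 ^ j) ^ 2 * φ t)) t ≤
          ENNReal.ofReal (4 * C * R ^ (a - 2) * r ^ j) := by
      intro j
      have hU1 : 1 ≤ R * 2 ^ j := by
        have : (1:ℝ) ≤ 2 ^ j := one_le_pow₀ (by norm_num)
        nlinarith
      have hU0 : 0 < R * 2 ^ j := by linarith
      rw [lintegral_indicator measurableSet_Icc]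
      have hint : IntegrableOn (fun t => 4 / (R * 2 ^ j) ^ 2 * φ t)
          (Icc (-(R * 2 ^ j)) (R * 2 ^ j)) volume :=
        (Continuous.continuousOn (by fun_prop)).integrableOn_Icc
      rw [← ofReal_integral_eq_lintegral_ofReal hint
        (Filter.Eventually.of_forall (fun t => mul_nonneg (by positivity) (h0 t)))]
      apply ENNReal.ofReal_le_ofReal
      rw [integral_const_mul, integral_Icc_eq_integral_Ioc,
        ← intervalIntegral.integral_of_le (by linarith)]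
      have h1 := h (R * 2 ^ j) hU1
      have h2 : 4 / (R * 2 ^ j) ^ 2 * ∫ t in (-(R * 2 ^ j))..(R * 2 ^ j), φ t ≤
          4 / (R * 2 ^ j) ^ 2 * (C * (R * 2 ^ j) ^ a) :=
        mul_le_mul_of_nonneg_left h1 (by positivity)
      refine h2.trans (le_of_eq ?_)
      have h3 : (R * 2 ^ j) ^ (a - 2) = (R * 2 ^ j) ^ a / (R * 2 ^ j) ^ 2 := by
        rw [Real.rpow_sub hU0]
        norm_num
      have h4 : (R * 2 ^ j) ^ (a - 2) = R ^ (a - 2) * r ^ j := by
        rw [Real.mul_rpow hR0.le (by positivity), hr]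
        congr 1
        rw [← Real.rpow_natCast (2:ℝ) j, ← Real.rpow_mul (by norm_num), ← Real.rpow_natCast,
          ← Real.rpow_mul (by norm_num)]
        congr 1
        ring
      calc 4 / (R * 2 ^ j) ^ 2 * (C * (R * 2 ^ j) ^ a)
          = 4 * C * ((R * 2 ^ j) ^ a / (R * 2 ^ j) ^ 2) := by ring
        _ = 4 * C * (R ^ (a - 2) * r ^ j) := by rw [← h3, h4]
        _ = 4 * C * R ^ (a - 2) * r ^ j := by ring
    calc ∫⁻ t : ℝ, ENNReal.ofReal (g t)
        ≤ ∫⁻ t : ℝ, ∑' j : ℕ, (Icc (-(R * 2 ^ j)) (R * 2 ^ j)).indicator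
          (fun t => ENNReal.ofReal (4 / (R * 2 ^ j) ^ 2 * φ t)) t := lintegral_mono hpt
      _ = ∑' j : ℕ, ∫⁻ t : ℝ, (Icc (-(R * 2 ^ j)) (R * 2 ^ j)).indicator
          (fun t => ENNReal.ofReal (4 / (R * 2 ^ j) ^ 2 * φ t)) t := by
          rw [lintegral_tsum]
          intro j
          apply Measurable.aemeasurable
          apply Measurable.indicator _ measurableSet_Icc
          exact ENNReal.measurable_ofReal.comp (by fun_prop : Continuous fun t => 4 / (R * 2 ^ j) ^ 2 * φ t).measurable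
      _ ≤ ∑' j : ℕ, ENNReal.ofReal (4 * C * R ^ (a - 2) * r ^ j) := ENNReal.tsum_le_tsum hterm
      _ = ENNReal.ofReal (∑' j : ℕ, 4 * C * R ^ (a - 2) * r ^ j) := by
          rw [ENNReal.ofReal_tsum_of_nonneg]
          · intro j
            positivity
          · exact (summable_geometric_of_lt_one hr0.le hr1).mul_left _
      _ = ENNReal.ofReal (4 * C * (1 - r)⁻¹ * R ^ (a - 2)) := by
          rw [tsum_mul_left, tsum_geometric_of_lt_one hr0.le hr1]
          congr 1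
          ring
  have hgint : Integrable g := by
    refine ⟨hgcont.aestronglyMeasurable, ?_⟩
    rw [hasFiniteIntegral_iff_ofReal (Filter.Eventually.of_forall hg0)]
    exact hlint.trans_lt ENNReal.ofReal_lt_top
  refine ⟨hgint, ?_⟩
  rw [← ENNReal.ofReal_le_ofReal_iff (mul_nonneg (mul_nonneg (by positivity) (inv_nonneg.2 (by linarith)))
    (by positivity)), ofReal_integral_eq_lintegral_ofReal hgint (Filter.Eventually.of_forall hg0)]
  exact hlint

theorem HFa_line_sq (t : ℝ) : ‖ln (1/2) t‖ ^ 2 = 1 / 4 + t ^ 2 := by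
  rw [← Complex.normSq_eq_norm_sq, Complex.normSq_apply]
  simp only [ln_re, ln_im]
  ring

theorem HFa_line_le (t : ℝ) : ‖ln (1/2) t‖ ≤ 1 + |t| := by
  have h1 := HFa_line_sq t
  have h2 : 0 ≤ ‖ln (1/2) t‖ := norm_nonneg _
  have h3 : |t| ^ 2 = t ^ 2 := sq_abs t
  have h4 := abs_nonneg t
  by_contra hcon
  push Not at hcon
  nlinarith

theorem HFa_line_ne0 (t : ℝ) : ln (1/2) t ≠ 0 := by
  intro h
  have := congrArg Complex.re h
  simp at this

theorem HFa_line_ne1 (t : ℝ) : ln (1/2) t ≠ 1 := by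
  intro h
  have := congrArg Complex.re h
  simp at this

/-- elementary bound -/
theorem HFa_exp_bound {z : ℂ} (hz : z.re ≤ 1/2) : ‖cexp z - 1‖ ≤ 3 * min 1 ‖z‖ := by
  by_cases h : ‖z‖ ≤ 1
  · rw [min_eq_right h]
    have := Complex.norm_exp_sub_one_le h
    have h0 := norm_nonneg z
    linarith
  · push Not at h
    rw [min_eq_left h.le]
    have h1 : ‖cexp z - 1‖ ≤ ‖cexp z‖ + ‖(1:ℂ)‖ := norm_sub_le _ _
    rw [Complex.norm_exp, norm_one] at h1
    have h2 : Real.exp z.re ≤ 2 := by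
      have h3 : Real.exp z.re ≤ Real.exp (1/2) := Real.exp_le_exp.2 hz
      have h4 : Real.exp (1/2) ^ 2 = Real.exp 1 := by
        rw [← Real.exp_nat_mul]
        norm_num
      have h5 := Real.exp_one_lt_d9
      have h6 : 0 < Real.exp (1/2) := Real.exp_pos _
      nlinarith
    linarith

/-- The common estimate: the Mellin side with a factor `m t`, `|m t| ≤ 3 min(1, (1+|t|)/R)`. -/
theorem HFa_mellin_side (P : Core D) (hF : Continuous fun t : ℝ => D.F (ln (1/2) t)) {a : ℝ} (ha1 : 1 ≤ a)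
    (ha2 : a < 2) (hM : Mom D a) : ∃ C : ℝ, 0 ≤ C ∧ ∀ R : ℝ, 1 ≤ R → ∀ m : ℝ → ℂ,
      (∀ t, ‖m t‖ ^ 2 ≤ 9 * min 1 ((1 + |t|) ^ 2 / R ^ 2)) →
      ENNReal.ofReal (1 / (2 * Real.pi)) * ∫⁻ t : ℝ, ENNReal.ofReal
        (‖(P.K1 (ln (1/2) t) + P.k0 / ln (1/2) t) * m t‖ ^ 2) ≤ ENNReal.ofReal (C * R ^ (a - 2)) := by
  obtain ⟨CM, hCM0, hCM⟩ := hM
  obtain ⟨Cp, hCp0, hCp⟩ := P.pp_bound
  set φ : ℝ → ℝ := fun t => 8 * ‖D.F (ln (1/2) t)‖ ^ 2 + 2 * Cp ^ 2 with hφdef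
  have hφc : Continuous φ := by fun_prop
  have hφ0 : ∀ t, 0 ≤ φ t := fun t => by positivity
  have hφm : ∀ U : ℝ, 1 ≤ U → ∫ t in (-U)..U, φ t ≤ (8 * CM + 4 * Cp ^ 2) * U ^ a := by
    intro U hU
    have h1 : ∫ t in (-U)..U, φ t = 8 * (∫ t in (-U)..U, ‖D.F (ln (1/2) t)‖ ^ 2) + (U - -U) * (2 * Cp ^ 2) := by
      simp only [hφdef]
      rw [intervalIntegral.integral_add, intervalIntegral.integral_const_mul,
        intervalIntegral.integral_const, smul_eq_mul]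
      · exact Continuous.intervalIntegrable (by fun_prop) _ _
      · exact Continuous.intervalIntegrable (by fun_prop) _ _
    rw [h1]
    have h2 := hCM U hU
    have h3 : U ≤ U ^ a := by
      calc U = U ^ (1:ℝ) := (Real.rpow_one U).symm
        _ ≤ U ^ a := Real.rpow_le_rpow_of_exponent_le hU ha1
    have h4 : 0 ≤ Cp ^ 2 := by positivity
    nlinarith
  obtain ⟨C', hC'0, hC'⟩ := dyadic_moment φ hφc hφ0 a (8 * CM + 4 * Cp ^ 2) (by linarith) ha2 (by positivity) hφm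
  refine ⟨9 * C', by positivity, ?_⟩
  intro R hR m hm
  obtain ⟨hint, hle⟩ := hC' R hR
  have hpt : ∀ t : ℝ, ‖(P.K1 (ln (1/2) t) + P.k0 / ln (1/2) t) * m t‖ ^ 2 ≤
      9 * (φ t / (1 + t ^ 2) * min 1 ((1 + |t|) ^ 2 / R ^ 2)) := by
    intro t
    rw [norm_mul, mul_pow]
    have hK : ‖P.K1 (ln (1/2) t) + P.k0 / ln (1/2) t‖ ^ 2 ≤ φ t / (1 + t ^ 2) := by
      rw [P.Kform _ (HFa_line_ne0 t) (HFa_line_ne1 t)]
      have h1 : ‖D.F (ln (1/2) t) / ln (1/2) t - P.pp (ln (1/2) t)‖ ≤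
          ‖D.F (ln (1/2) t)‖ / ‖ln (1/2) t‖ + ‖P.pp (ln (1/2) t)‖ := by
        refine (norm_sub_le _ _).trans ?_
        rw [norm_div]
      have h2 : ‖P.pp (ln (1/2) t)‖ ≤ Cp / (1 + |t|) := by
        have := hCp (ln (1/2) t) (by simp)
        simpa using this
      have hs := HFa_line_sq t
      have hs0 : 0 < ‖ln (1/2) t‖ := norm_pos_iff.2 (HFa_line_ne0 t)
      have hA : (‖D.F (ln (1/2) t)‖ / ‖ln (1/2) t‖) ^ 2 ≤ 4 * ‖D.F (ln (1/2) t)‖ ^ 2 / (1 + t ^ 2) := by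
        rw [div_pow, hs, div_le_div_iff₀ (by positivity) (by positivity)]
        have : 0 ≤ ‖D.F (ln (1/2) t)‖ ^ 2 := by positivity
        nlinarith [sq_nonneg t]
      have hB : ‖P.pp (ln (1/2) t)‖ ^ 2 ≤ Cp ^ 2 / (1 + t ^ 2) := by
        have h3 : ‖P.pp (ln (1/2) t)‖ ^ 2 ≤ (Cp / (1 + |t|)) ^ 2 :=
          pow_le_pow_left₀ (norm_nonneg _) h2 2
        refine h3.trans ?_
        rw [div_pow]
        apply div_le_div_of_nonneg_left (by positivity) (by positivity)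
        have : |t| ^ 2 = t ^ 2 := sq_abs t
        nlinarith [abs_nonneg t]
      have h4 : ‖D.F (ln (1/2) t) / ln (1/2) t - P.pp (ln (1/2) t)‖ ^ 2 ≤
          (‖D.F (ln (1/2) t)‖ / ‖ln (1/2) t‖ + ‖P.pp (ln (1/2) t)‖) ^ 2 :=
        pow_le_pow_left₀ (norm_nonneg _) h1 2
      have h5 : (‖D.F (ln (1/2) t)‖ / ‖ln (1/2) t‖ + ‖P.pp (ln (1/2) t)‖) ^ 2 ≤
          2 * (‖D.F (ln (1/2) t)‖ / ‖ln (1/2) t‖) ^ 2 + 2 * ‖P.pp (ln (1/2) t)‖ ^ 2 := by
        nlinarith [sq_nonneg (‖D.F (ln (1/2) t)‖ / ‖ln (1/2) t‖ - ‖P.pp (ln (1/2) t)‖)]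
      have h6 : φ t / (1 + t ^ 2) = 2 * (4 * ‖D.F (ln (1/2) t)‖ ^ 2 / (1 + t ^ 2)) +
          2 * (Cp ^ 2 / (1 + t ^ 2)) := by
        simp only [hφdef]; ring
      rw [h6]
      linarith
    have hm0 : 0 ≤ ‖m t‖ ^ 2 := by positivity
    have hmin0 : 0 ≤ min 1 ((1 + |t|) ^ 2 / R ^ 2) := le_min zero_le_one (by positivity)
    calc ‖P.K1 (ln (1/2) t) + P.k0 / ln (1/2) t‖ ^ 2 * ‖m t‖ ^ 2
        ≤ φ t / (1 + t ^ 2) * (9 * min 1 ((1 + |t|) ^ 2 / R ^ 2)) :=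
          mul_le_mul hK (hm t) hm0 (div_nonneg (hφ0 t) (by positivity))
      _ = _ := by ring
  have hl : ∫⁻ t : ℝ, ENNReal.ofReal (‖(P.K1 (ln (1/2) t) + P.k0 / ln (1/2) t) * m t‖ ^ 2) ≤
      ENNReal.ofReal (9 * (C' * R ^ (a - 2))) := by
    calc _ ≤ ∫⁻ t : ℝ, ENNReal.ofReal (9 * (φ t / (1 + t ^ 2) * min 1 ((1 + |t|) ^ 2 / R ^ 2))) :=
          lintegral_mono (fun t => ENNReal.ofReal_le_ofReal (hpt t))
      _ = ENNReal.ofReal (∫ t : ℝ, 9 * (φ t / (1 + t ^ 2) * min 1 ((1 + |t|) ^ 2 / R ^ 2))) := by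
          rw [ofReal_integral_eq_lintegral_ofReal (hint.const_mul 9)]
          refine Filter.Eventually.of_forall (fun t => ?_)
          have hmin0 : 0 ≤ min 1 ((1 + |t|) ^ 2 / R ^ 2) := le_min zero_le_one (by positivity)
          exact mul_nonneg (by norm_num) (mul_nonneg (div_nonneg (hφ0 t) (by positivity)) hmin0)
      _ ≤ _ := by
          apply ENNReal.ofReal_le_ofReal
          rw [integral_const_mul]
          linarith
  have hpi : 1 / (2 * Real.pi) ≤ 1 := by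
    rw [div_le_one (by positivity)]
    have := Real.pi_gt_three
    linarith
  have hrp : 0 ≤ R ^ (a - 2) := Real.rpow_nonneg (by linarith) _
  calc ENNReal.ofReal (1 / (2 * Real.pi)) * ∫⁻ t : ℝ, ENNReal.ofReal
        (‖(P.K1 (ln (1/2) t) + P.k0 / ln (1/2) t) * m t‖ ^ 2)
      ≤ ENNReal.ofReal 1 * ENNReal.ofReal (9 * (C' * R ^ (a - 2))) :=
        mul_le_mul' (ENNReal.ofReal_le_ofReal hpi) hl
    _ = ENNReal.ofReal (9 * C' * R ^ (a - 2)) := by
        rw [ENNReal.ofReal_one, one_mul]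
        congr 1
        ring

/-- from the weighted integral on `(0,∞)` to `[T,2T]` -/
theorem HFa_restrict {T : ℝ} (hT : 1 ≤ T) (g₁ g₂ : ℝ → ℝ) (hg : ∀ x, T ≤ x → g₁ x = g₂ x)
    (B : ℝ) (hB : 0 ≤ B)
    (h : ∫⁻ x in Ioi (0 : ℝ), ENNReal.ofReal (g₂ x ^ 2 * x ^ (-2 : ℝ)) ≤ ENNReal.ofReal B) :
    ∫⁻ x in Icc T (2 * T), ENNReal.ofReal (g₁ x ^ 2) ≤ ENNReal.ofReal (4 * T ^ 2 * B) := by
  have hT0 : 0 < T := by linarith
  have h1 : ∫⁻ x in Icc T (2 * T), ENNReal.ofReal (g₁ x ^ 2) ≤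
      ∫⁻ x in Icc T (2 * T), ENNReal.ofReal (4 * T ^ 2) * ENNReal.ofReal (g₂ x ^ 2 * x ^ (-2 : ℝ)) := by
    apply setLIntegral_mono' measurableSet_Icc
    intro x hx
    rw [mem_Icc] at hx
    have hx0 : 0 < x := by linarith [hx.1]
    rw [← ENNReal.ofReal_mul (by positivity), hg x hx.1]
    apply ENNReal.ofReal_le_ofReal
    have h2 : x ^ (-2 : ℝ) = 1 / x ^ 2 := by
      rw [Real.rpow_neg hx0.le]
      norm_num
    rw [h2]
    have h3 : 0 ≤ g₂ x ^ 2 := by positivity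
    have h4 : x ^ 2 ≤ 4 * T ^ 2 := by nlinarith [hx.1, hx.2]
    have h5 : 1 ≤ 4 * T ^ 2 * (1 / x ^ 2) := by
      rw [mul_one_div, le_div_iff₀ (by positivity)]
      linarith
    nlinarith
  refine h1.trans ?_
  rw [lintegral_const_mul' _ _ ENNReal.ofReal_ne_top]
  calc ENNReal.ofReal (4 * T ^ 2) * ∫⁻ x in Icc T (2 * T), ENNReal.ofReal (g₂ x ^ 2 * x ^ (-2 : ℝ))
      ≤ ENNReal.ofReal (4 * T ^ 2) * ∫⁻ x in Ioi (0:ℝ), ENNReal.ofReal (g₂ x ^ 2 * x ^ (-2 : ℝ)) := by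
        gcongr
        intro x hx
        rw [mem_Icc] at hx
        exact lt_of_lt_of_le hT0 hx.1
    _ ≤ ENNReal.ofReal (4 * T ^ 2) * ENNReal.ofReal B := by gcongr
    _ = ENNReal.ofReal (4 * T ^ 2 * B) := by rw [← ENNReal.ofReal_mul (by positivity)]

theorem near_smooth (P : Core D) (hF : Continuous fun t : ℝ => D.F (ln (1/2) t)) {a : ℝ} (ha1 : 1 ≤ a)
    (ha2 : a < 2) (hM : Mom D a) : ∃ C : ℝ, 0 ≤ C ∧ ∀ T : ℝ, 1 ≤ T → ∀ W : ℝ, 1 ≤ W →
      IntervalIntegrable (fun x => (D.E x - sm W D.Ep x) ^ 2) volume T (2 * T) ∧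
      ∫ x in T..(2 * T), (D.E x - sm W D.Ep x) ^ 2 ≤ C * T ^ 2 * W ^ (a - 2) := by
  obtain ⟨C, hC0, hC⟩ := HFa_mellin_side P hF ha1 ha2 hM
  refine ⟨4 * C, by positivity, ?_⟩
  intro T hT W hW
  have hT0 : 0 < T := by linarith
  have hW0 : 0 < W := by linarith
  have hrp : 0 ≤ W ^ (a - 2) := Real.rpow_nonneg hW0.le _
  have hm : ∀ t : ℝ, ‖1 - cexp ((ln (1/2) t) ^ 2 / (W : ℂ) ^ 2)‖ ^ 2 ≤
      9 * min 1 ((1 + |t|) ^ 2 / W ^ 2) := by
    intro t
    set z : ℂ := (ln (1/2) t) ^ 2 / (W : ℂ) ^ 2 with hz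
    have hzre : z.re ≤ 1/2 := by
      have h1 : z.re = (1/4 - t ^ 2) / W ^ 2 := by
        have h2 : z = ((ln (1/2) t) ^ 2) / ((W ^ 2 : ℝ) : ℂ) := by rw [hz]; push_cast; ring
        rw [h2, Complex.div_ofReal_re]
        congr 1
        simp [ln, sq]
        ring
      rw [h1, div_le_iff₀ (by positivity)]
      nlinarith [sq_nonneg t]
    have hzn : ‖z‖ ≤ (1 + |t|) ^ 2 / W ^ 2 := by
      rw [hz, norm_div, norm_pow, norm_pow, Complex.norm_real, Real.norm_of_nonneg hW0.le]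
      have := HFa_line_le t
      have h0 := norm_nonneg (ln (1/2) t)
      gcongr
    have h3 := HFa_exp_bound hzre
    rw [norm_sub_rev]
    have hmin : min 1 ‖z‖ ≤ min 1 ((1 + |t|) ^ 2 / W ^ 2) := min_le_min le_rfl hzn
    have hmin0 : 0 ≤ min 1 ((1 + |t|) ^ 2 / W ^ 2) := le_min zero_le_one (by positivity)
    have hmin1 : min 1 ((1 + |t|) ^ 2 / W ^ 2) ≤ 1 := min_le_left _ _
    have h4 : ‖cexp z - 1‖ ≤ 3 * min 1 ((1 + |t|) ^ 2 / W ^ 2) := by linarith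
    have h5 : ‖cexp z - 1‖ ^ 2 ≤ (3 * min 1 ((1 + |t|) ^ 2 / W ^ 2)) ^ 2 :=
      pow_le_pow_left₀ (norm_nonneg _) h4 2
    nlinarith
  have hkey : ∫⁻ x in Icc T (2 * T), ENNReal.ofReal ((D.E x - sm W D.Ep x) ^ 2) ≤
      ENNReal.ofReal (4 * T ^ 2 * (C * W ^ (a - 2))) := by
    apply HFa_restrict hT (fun x => D.E x - sm W D.Ep x) (fun x => D.Ep x - sm W D.Ep x)
    · intro x hx
      have : D.Ep x = D.E x := by
        rw [SelData.Ep, if_pos (hT.trans hx)]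
      simp only [this]
    · positivity
    · exact (hf_smooth P hW).trans (hC W hW _ hm)
  -- measurability
  have hmeas : AEStronglyMeasurable (fun x => (D.E x - sm W D.Ep x) ^ 2) (volume.restrict (Ioc T (2 * T))) := by
    have hsm : Measurable (sm W D.Ep) := by
      have : StronglyMeasurable (fun x : ℝ => ∫ u : ℝ, D.Ep (x * Real.exp (-u)) * gW W u) := by
        apply MeasureTheory.StronglyMeasurable.integral_prod_right
        apply Measurable.stronglyMeasurable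
        have h1 : Measurable (fun p : ℝ × ℝ => D.Ep (p.1 * Real.exp (-p.2))) :=
          P.E_meas.comp (by fun_prop)
        have h2 : Measurable (fun p : ℝ × ℝ => gW W p.2) := by
          unfold gW
          fun_prop
        exact h1.mul h2
      exact this.measurable
    have h1 : Measurable (fun x => (D.Ep x - sm W D.Ep x) ^ 2) := (P.E_meas.sub hsm).pow_const 2
    refine h1.aestronglyMeasurable.congr ?_
    rw [Filter.EventuallyEq, ae_restrict_iff' measurableSet_Ioc]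
    refine Filter.Eventually.of_forall (fun x hx => ?_)
    rw [mem_Ioc] at hx
    have : D.Ep x = D.E x := by
      rw [SelData.Ep, if_pos (hT.trans hx.1.le)]
    simp only [this]
  have hIoc : ∫⁻ x in Ioc T (2 * T), ENNReal.ofReal ((D.E x - sm W D.Ep x) ^ 2) ≤
      ENNReal.ofReal (4 * T ^ 2 * (C * W ^ (a - 2))) :=
    (lintegral_mono_set Ioc_subset_Icc_self).trans hkey
  have hint : IntegrableOn (fun x => (D.E x - sm W D.Ep x) ^ 2) (Ioc T (2 * T)) volume := by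
    refine ⟨hmeas, ?_⟩
    rw [hasFiniteIntegral_iff_ofReal (Filter.Eventually.of_forall (fun x => by positivity))]
    exact hIoc.trans_lt ENNReal.ofReal_lt_top
  have hTT : T ≤ 2 * T := by linarith
  refine ⟨(intervalIntegrable_iff_integrableOn_Ioc_of_le hTT).2 hint, ?_⟩
  rw [intervalIntegral.integral_of_le hTT]
  have hle : ENNReal.ofReal (∫ x in Ioc T (2 * T), (D.E x - sm W D.Ep x) ^ 2) ≤
      ENNReal.ofReal (4 * T ^ 2 * (C * W ^ (a - 2))) := by
    rw [ofReal_integral_eq_lintegral_ofReal hint (Filter.Eventually.of_forall (fun x => by positivity))]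
    exact hIoc
  rw [ENNReal.ofReal_le_ofReal_iff (by positivity)] at hle
  refine hle.trans (le_of_eq (by ring))

theorem near_inc (P : Core D) (hF : Continuous fun t : ℝ => D.F (ln (1/2) t)) {a : ℝ} (ha1 : 1 ≤ a)
    (ha2 : a < 2) (hM : Mom D a) : ∃ C : ℝ, 0 ≤ C ∧ ∀ T : ℝ, 1 ≤ T → ∀ v : ℝ, 0 < v → v ≤ 1 →
      ∫⁻ x in Icc T (2 * T), ENNReal.ofReal ((D.E (x * Real.exp v) - D.E x) ^ 2) ≤
        ENNReal.ofReal (C * T ^ 2 * v ^ (2 - a)) := by
  obtain ⟨C, hC0, hC⟩ := HFa_mellin_side P hF ha1 ha2 hM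
  refine ⟨4 * C, by positivity, ?_⟩
  intro T hT v hv hv1
  have hT0 : 0 < T := by linarith
  have hR : 1 ≤ 1 / v := by rw [le_div_iff₀ hv]; linarith
  have hRpow : (1 / v) ^ (a - 2) = v ^ (2 - a) := by
    rw [one_div, Real.inv_rpow hv.le, ← Real.rpow_neg hv.le]
    congr 1
    ring
  have hrp : 0 ≤ v ^ (2 - a) := Real.rpow_nonneg hv.le _
  have hm : ∀ t : ℝ, ‖cexp (ln (1/2) t * v) - 1‖ ^ 2 ≤ 9 * min 1 ((1 + |t|) ^ 2 / (1 / v) ^ 2) := by
    intro t
    set z : ℂ := ln (1/2) t * v with hz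
    have hzre : z.re ≤ 1/2 := by
      have h1 : z.re = 1/2 * v := by
        rw [hz, Complex.re_mul_ofReal, ln_re]
      rw [h1]
      linarith
    have hzn : ‖z‖ ≤ (1 + |t|) * v := by
      rw [hz, norm_mul, Complex.norm_real, Real.norm_of_nonneg hv.le]
      exact mul_le_mul_of_nonneg_right (HFa_line_le t) hv.le
    have h3 := HFa_exp_bound hzre
    have h6 : (1 + |t|) ^ 2 / (1 / v) ^ 2 = ((1 + |t|) * v) ^ 2 := by
      field_simp
    rw [h6]
    have hy0 : 0 ≤ (1 + |t|) * v := by positivity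
    have h4 : ‖cexp z - 1‖ ≤ 3 * min 1 ((1 + |t|) * v) := by
      have : min 1 ‖z‖ ≤ min 1 ((1 + |t|) * v) := min_le_min le_rfl hzn
      linarith
    have h5 : ‖cexp z - 1‖ ^ 2 ≤ (3 * min 1 ((1 + |t|) * v)) ^ 2 :=
      pow_le_pow_left₀ (norm_nonneg _) h4 2
    refine h5.trans ?_
    rw [mul_pow]
    have h7 : (min 1 ((1 + |t|) * v)) ^ 2 ≤ min 1 (((1 + |t|) * v) ^ 2) := by
      apply le_min
      · have h8 : min 1 ((1 + |t|) * v) ≤ 1 := min_le_left _ _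
        have h9 : 0 ≤ min 1 ((1 + |t|) * v) := le_min zero_le_one hy0
        nlinarith
      · exact pow_le_pow_left₀ (le_min zero_le_one hy0) (min_le_right _ _) 2
    linarith
  have hkey := HFa_restrict hT (fun x => D.E (x * Real.exp v) - D.E x)
    (fun x => D.Ep (x * Real.exp v) - D.Ep x) ?_ (C * (1 / v) ^ (a - 2)) ?_
    ((hf_inc P hv hv1).trans (hC (1 / v) hR _ hm))
  · refine hkey.trans (ENNReal.ofReal_le_ofReal (le_of_eq ?_))
    rw [hRpow]
    ring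
  · intro x hx
    have hx1 : 1 ≤ x := hT.trans hx
    have he : 1 ≤ Real.exp v := Real.one_le_exp hv.le
    have h1 : D.Ep x = D.E x := by rw [SelData.Ep, if_pos hx1]
    have h2 : D.Ep (x * Real.exp v) = D.E (x * Real.exp v) := by
      rw [SelData.Ep, if_pos (by nlinarith)]
    simp only [h1, h2]
  · positivity

end Pool.Agent.H15.SC
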