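import Pool.Agent.H15.SC.Strip

/-!
# SC-10  the residue term and the package `Core`  (project SC, MP_be4568_nt)

With `q(s) = H(s)/s` (analytic near `1`), `h_k = iteratedDeriv k q 1 / k!` (`k < m`):
`res x = re (x ∑_{k<m} h_k (log x)^{m-1-k}/(m-1-k)!)` (Leibniz rule for `iteratedDeriv` of `q(s) x^s`; the sum is real
because of `conj_H`), `pp(s) = ∑_{k<m} h_k/(s-1)^{m-k}`.  Taylor: `q(s) = ∑_{k<m} h_k (s-1)^k + (s-1)^m g(s)`, `g` analytic
off `0` (iterate `dslope`), so `F(s)/s - pp(s) = g(s)` for `s ≠ 0, 1`, with a simple pole at `0`;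
`K1(s) = g(s) - k0/s`, `k0 = F(0)`, removable singularity at `0` (dslope again).
Mellin transform at `re s = 2`: `∫_1^∞ x (log x)^j/j! x^{-s-1} dx = (s-1)^{-j-1}`, and
`∫_1^∞ ∑_{n ≤ x} f(n) x^{-s-1} dx = L(s)/s` (Mathlib: `LSeries_eq_mul_integral` or Fubini).
`growth`: `H_growth` for `|im s| ≥ 1`, compactness otherwise.  `E_cont`: `res_form` and the floor function is locally
constant off the integers.
-/

set_option autoImplicit false

open Complex Filter Topology MeasureTheory Set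
open scoped ComplexConjugate

namespace Pool.Agent.H15.SC

variable {D : SelData} {d : ℝ}

/-- Taylor expansion at `1` with `s` split off and real coefficients -/
theorem res_taylor (H : ℂ → ℂ) (hH : Differentiable ℂ H) (hc : ∀ s, H (conj s) = conj (H s)) (m : ℕ) :
    ∃ (b : ℕ → ℝ) (g : ℂ → ℂ), Differentiable ℂ g ∧ (∀ s, g (conj s) = conj (g s)) ∧
      ∀ s, H s = s * (∑ k ∈ Finset.range m, (b k : ℂ) * (s - 1) ^ k) + (s - 1) ^ m * g s := by
  induction m with
  | zero => exact ⟨0, H, hH, hc, by simp⟩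
  | succ m ih =>
    obtain ⟨b, g, hg, hgc, hrep⟩ := ih
    have hreal : ((g 1).re : ℂ) = g 1 := by
      have h1 := hgc 1
      rw [map_one] at h1
      exact conj_eq_iff_re.1 h1.symm
    set f : ℂ → ℂ := fun s => g s - s * g 1 with hfdef
    have hf : Differentiable ℂ f := by
      rw [hfdef]; fun_prop
    have hf1 : f 1 = 0 := by simp [f]
    have hfc : ∀ s, f (conj s) = conj (f s) := by
      intro s
      simp only [hfdef, map_sub, map_mul, hgc s]
      congr 2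
      rw [← hreal, conj_ofReal]
    have hds : Differentiable ℂ (dslope f 1) := by
      rw [← differentiableOn_univ]
      exact (Complex.differentiableOn_dslope univ_mem).2 hf.differentiableOn
    have hsub : ∀ s, (s - 1) * dslope f 1 s = f s := by
      intro s
      have h1 := sub_smul_dslope f 1 s
      rw [hf1, sub_zero, smul_eq_mul] at h1
      exact h1
    refine ⟨Function.update b m (g 1).re, dslope f 1, hds, ?_, ?_⟩
    · have h1 : (fun s : ℂ => dslope f 1 (conj s)) = fun s => conj (dslope f 1 s) := by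
        refine Continuous.ext_on (dense_compl_singleton (1 : ℂ)) ?_ ?_ ?_
        · exact hds.continuous.comp continuous_conj
        · exact continuous_conj.comp hds.continuous
        · intro s hs
          have hs1 : s - 1 ≠ 0 := sub_ne_zero.2 hs
          have hs2 : conj s - 1 ≠ 0 := by
            intro h0
            apply hs1
            have h2 := congrArg conj h0
            simpa using h2
          have h3 := hsub (conj s)
          have h4 := congrArg conj (hsub s)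
          rw [map_mul, map_sub, map_one] at h4
          rw [hfc s, ← h4] at h3
          exact mul_left_cancel₀ hs2 h3
      intro s
      exact congrFun h1 s
    · intro s
      rw [Finset.sum_range_succ, Function.update_self, hreal]
      have h1 : ∑ x ∈ Finset.range m, ((Function.update b m (g 1).re x : ℝ) : ℂ) * (s - 1) ^ x =
          ∑ k ∈ Finset.range m, (b k : ℂ) * (s - 1) ^ k := by
        refine Finset.sum_congr rfl fun k hk => ?_
        rw [Function.update_of_ne (Finset.mem_range.1 hk).ne]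
      rw [h1, hrep s]
      have h2 := hsub s
      simp only [hfdef] at h2
      have h3 : (s - 1) ^ (m + 1) * dslope f 1 s = (s - 1) ^ m * (g s - s * g 1) := by
        rw [← h2]; ring
      rw [h3]; ring

/-- iterated derivatives of `x ^ s` -/
theorem res_cpow (x : ℝ) (hx : 0 < x) (n : ℕ) :
    iteratedDeriv n (fun s : ℂ => (x : ℂ) ^ s) 1 = (Real.log x : ℂ) ^ n * x := by
  have hx0 : (x : ℂ) ≠ 0 := by exact_mod_cast hx.ne'
  have h1 : (fun s : ℂ => (x : ℂ) ^ s) = fun s => cexp (Real.log x * s) := by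
    funext s
    rw [cpow_def_of_ne_zero hx0, ofReal_log hx.le]
  rw [h1, iteratedDeriv_cexp_const_mul]
  beta_reduce
  rw [mul_one, ← ofReal_exp, Real.exp_log hx]

theorem res_pow (k i : ℕ) : iteratedDeriv i (fun s : ℂ => (s - 1) ^ k) 1 = if i = k then (k.factorial : ℂ) else 0 := by
  have h1 := congrFun (iteratedDeriv_comp_sub_const (𝕜 := ℂ) i (fun z : ℂ => z ^ k) 1) 1
  rw [sub_self] at h1
  rw [h1]
  exact_mod_cast iteratedDeriv_fun_pow_zero (𝕜 := ℂ) (n := i) (m := k)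

/-- the residue in terms of the Taylor coefficients -/
theorem res_eq (D : SelData) (b : ℕ → ℝ) (g : ℂ → ℂ) (hg : Differentiable ℂ g)
    (hrep : ∀ s, D.H s = s * (∑ k ∈ Finset.range D.m, (b k : ℂ) * (s - 1) ^ k) + (s - 1) ^ D.m * g s)
    (x : ℝ) (hx : 0 < x) :
    D.res x = x * ∑ j ∈ Finset.range D.m, b (D.m - 1 - j) / (j.factorial : ℝ) * (Real.log x) ^ j := by
  unfold SelData.res
  by_cases hm : D.m = 0
  · simp [hm]
  rw [if_neg hm]
  obtain ⟨m, hm'⟩ := Nat.exists_eq_succ_of_ne_zero hm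
  rw [hm'] at hrep ⊢
  simp only [Nat.succ_eq_add_one, Nat.add_sub_cancel] at hrep ⊢
  have hx0 : (x : ℂ) ≠ 0 := by exact_mod_cast hx.ne'
  have hcp : ContDiff ℂ m (fun s : ℂ => (x : ℂ) ^ s) := by
    have h1 : (fun s : ℂ => (x : ℂ) ^ s) = fun s => cexp (Real.log x * s) := by
      funext s
      rw [cpow_def_of_ne_zero hx0, ofReal_log hx.le]
    rw [h1]
    fun_prop
  have hgc : ContDiff ℂ m g := hg.contDiff
  -- the function near `1`
  have hev : (fun s : ℂ => D.H s * (x : ℂ) ^ s / s) =ᶠ[𝓝 1] fun s =>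
      (∑ k ∈ Finset.range (m + 1), ((b k : ℂ) * (s - 1) ^ k) * (x : ℂ) ^ s) +
        (s - 1) ^ (m + 1) * (g s * (x : ℂ) ^ s / s) := by
    filter_upwards [isOpen_ne.mem_nhds (one_ne_zero : (1 : ℂ) ≠ 0)] with s hs
    rw [hrep s, ← Finset.sum_mul]
    field_simp
  have hpow : ∀ k : ℕ, ContDiff ℂ m (fun s : ℂ => (s - 1) ^ k) := fun k => by fun_prop
  have hlast : ContDiffAt ℂ m (fun s : ℂ => g s * (x : ℂ) ^ s / s) 1 :=
    (hgc.contDiffAt.mul hcp.contDiffAt).div contDiffAt_id one_ne_zero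
  rw [hev.iteratedDeriv_eq]
  have hsumC : ContDiffAt ℂ m (fun s : ℂ => ∑ k ∈ Finset.range (m + 1), ((b k : ℂ) * (s - 1) ^ k) * (x : ℂ) ^ s) 1 := by
    apply ContDiffAt.sum
    intro k _
    exact ((contDiffAt_const.mul (hpow k).contDiffAt)).mul hcp.contDiffAt
  have hadd := iteratedDeriv_fun_add (n := m) (x := (1 : ℂ)) (f := fun s : ℂ => ∑ k ∈ Finset.range (m + 1), ((b k : ℂ) * (s - 1) ^ k) * (x : ℂ) ^ s)
    (g := fun s : ℂ => (s - 1) ^ (m + 1) * (g s * (x : ℂ) ^ s / s)) hsumC ((hpow (m + 1)).contDiffAt.mul hlast)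
  rw [hadd]
  have hzero : iteratedDeriv m (fun s : ℂ => (s - 1) ^ (m + 1) * (g s * (x : ℂ) ^ s / s)) 1 = 0 := by
    rw [iteratedDeriv_fun_mul (hpow (m + 1)).contDiffAt hlast]
    apply Finset.sum_eq_zero
    intro i hi
    rw [res_pow, if_neg (by have := Finset.mem_range.1 hi; omega)]
    simp
  rw [hzero, add_zero]
  have hsum : iteratedDeriv m (fun s : ℂ => ∑ k ∈ Finset.range (m + 1), ((b k : ℂ) * (s - 1) ^ k) * (x : ℂ) ^ s) 1 =
      ∑ k ∈ Finset.range (m + 1), (m.choose k : ℂ) * (b k * k.factorial) * ((Real.log x : ℂ) ^ (m - k) * x) := by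
    rw [iteratedDeriv_fun_sum]
    · refine Finset.sum_congr rfl fun k hk => ?_
      rw [iteratedDeriv_fun_mul (contDiffAt_const.mul (hpow k).contDiffAt) hcp.contDiffAt,
        Finset.sum_eq_single k]
      · rw [iteratedDeriv_const_mul_field, res_pow, if_pos rfl, res_cpow x hx]
      · intro i _ hik
        rw [iteratedDeriv_const_mul_field, res_pow, if_neg hik]
        simp
      · intro h1; exact absurd hk h1
    · intro k _
      exact ((contDiffAt_const.mul (hpow k).contDiffAt)).mul hcp.contDiffAt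
  rw [hsum, Finset.sum_div, Complex.re_sum, Finset.mul_sum, ← Finset.sum_range_reflect]
  refine Finset.sum_congr rfl fun j hj => ?_
  have hj' : j ≤ m := by have := Finset.mem_range.1 hj; omega
  have h1 : m + 1 - 1 - j = m - j := by omega
  have h2 : m - (m - j) = j := by omega
  rw [h1, h2]
  have h3 : (m.choose (m - j) : ℂ) * ((m - j).factorial : ℂ) * (j.factorial : ℂ) = (m.factorial : ℂ) := by
    have := Nat.choose_mul_factorial_mul_factorial (n := m) (k := m - j) (by omega)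
    rw [h2] at this
    exact_mod_cast this
  have h4 : (m.factorial : ℂ) ≠ 0 := by exact_mod_cast m.factorial_ne_zero
  have h5 : (j.factorial : ℂ) ≠ 0 := by exact_mod_cast j.factorial_ne_zero
  have h6 : (m.choose (m - j) : ℂ) * (b (m - j) * ((m - j).factorial : ℂ)) * ((Real.log x : ℂ) ^ j * x) / (m.factorial : ℂ) =
      ((x * (b (m - j) / (j.factorial : ℝ) * (Real.log x) ^ j) : ℝ) : ℂ) := by
    rw [← h3]
    have h7 : (m.choose (m - j) : ℂ) * ((m - j).factorial : ℂ) ≠ 0 := by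
      intro h0
      rw [h0, zero_mul] at h3
      exact h4 h3.symm
    have h8 : (m.choose (m - j) : ℂ) ≠ 0 := left_ne_zero_of_mul h7
    have h9 : ((m - j).factorial : ℂ) ≠ 0 := right_ne_zero_of_mul h7
    push_cast
    field_simp
  rw [h6, ofReal_re]

/-- the residue term is `x` times a polynomial in `log x` -/
theorem res_form (h : IsSel D d) : ∃ a : ℕ → ℝ, ∀ x : ℝ, 0 < x →
    D.res x = x * ∑ j ∈ Finset.range D.m, a j * (Real.log x) ^ j := by
  obtain ⟨b, g, hg, _, hrep⟩ := res_taylor D.H h.entire (conj_H h) D.m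
  exact ⟨fun j => b (D.m - 1 - j) / (j.factorial : ℝ), fun x hx => res_eq D b g hg hrep x hx⟩

theorem res_log_pow (j : ℕ) (ε : ℝ) (hε : 0 < ε) : ∃ C : ℝ, 0 ≤ C ∧ ∀ x : ℝ, 1 ≤ x →
    (Real.log x) ^ j ≤ C * x ^ ε := by
  set ε' : ℝ := ε / (j + 1) with hε'
  have hj : (0 : ℝ) < (j : ℝ) + 1 := by positivity
  have hε0 : 0 < ε' := div_pos hε hj
  refine ⟨(1 / ε') ^ j, by positivity, fun x hx => ?_⟩
  have hx0 : 0 < x := by linarith
  have h1 : Real.log x ≤ x ^ ε' / ε' := Real.log_le_rpow_div hx0.le hε0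
  have h2 : (Real.log x) ^ j ≤ (x ^ ε' / ε') ^ j := pow_le_pow_left₀ (Real.log_nonneg hx) h1 j
  have h3 : (x ^ ε' / ε') ^ j = (1 / ε') ^ j * x ^ (ε' * j) := by
    rw [div_pow, ← Real.rpow_natCast (x ^ ε') j, ← Real.rpow_mul hx0.le]
    ring
  have h4 : x ^ (ε' * j) ≤ x ^ ε := by
    apply Real.rpow_le_rpow_of_exponent_le hx
    rw [hε', div_mul_eq_mul_div, div_le_iff₀ hj]
    nlinarith
  rw [h3] at h2
  exact h2.trans (mul_le_mul_of_nonneg_left h4 (by positivity))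

/-- sums of `|f n|` over short intervals -/
theorem res_sum_Ioc (h : IsSel D d) (θ : ℝ) (hθ : 0 < θ) : ∃ C : ℝ, 0 ≤ C ∧ ∀ a b : ℕ, a ≤ b → ∀ z : ℝ, (b : ℝ) ≤ z →
    |∑ n ∈ Finset.Ioc a b, D.f n| ≤ C * z ^ θ * ((b : ℝ) - a) := by
  obtain ⟨C, hC⟩ := h.ram θ hθ
  refine ⟨|C|, abs_nonneg _, fun a b hab z hz => ?_⟩
  have hz0 : 0 ≤ z := le_trans (Nat.cast_nonneg b) hz
  have h1 : ∀ n ∈ Finset.Ioc a b, |D.f n| ≤ |C| * z ^ θ := by
    intro n hn
    obtain ⟨hn1, hn2⟩ := Finset.mem_Ioc.1 hn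
    have h2 : (n : ℝ) ^ θ ≤ z ^ θ := by
      apply Real.rpow_le_rpow (Nat.cast_nonneg n) _ hθ.le
      have : (n : ℝ) ≤ b := by exact_mod_cast hn2
      linarith
    calc |D.f n| ≤ C * (n : ℝ) ^ θ := hC n (by omega)
      _ ≤ |C| * (n : ℝ) ^ θ := by
        apply mul_le_mul_of_nonneg_right (le_abs_self C)
        positivity
      _ ≤ |C| * z ^ θ := mul_le_mul_of_nonneg_left h2 (abs_nonneg C)
  calc |∑ n ∈ Finset.Ioc a b, D.f n| ≤ ∑ n ∈ Finset.Ioc a b, |D.f n| := Finset.abs_sum_le_sum_abs _ _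
    _ ≤ (Finset.Ioc a b).card • (|C| * z ^ θ) := Finset.sum_le_card_nsmul _ _ _ h1
    _ = |C| * z ^ θ * ((b : ℝ) - a) := by
      rw [Nat.card_Ioc, nsmul_eq_mul, Nat.cast_sub hab]
      ring

theorem res_logpow_diff (j : ℕ) (θ : ℝ) (hθ : 0 < θ) : ∃ C : ℝ, 0 ≤ C ∧ ∀ x y : ℝ, 1 ≤ x → x ≤ y → y ≤ 2 * x →
    |y * (Real.log y) ^ j - x * (Real.log x) ^ j| ≤ C * x ^ θ * (y - x) := by
  obtain ⟨C1, hC1, h1⟩ := res_log_pow j θ hθ
  obtain ⟨C2, hC2, h2⟩ := res_log_pow (j - 1) θ hθ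
  refine ⟨(C1 + j * C2) * 2 ^ θ, by positivity, fun x y hx hxy hy => ?_⟩
  have hder : ∀ t ∈ Icc x y, HasDerivWithinAt (fun t : ℝ => t * (Real.log t) ^ j)
      (1 * (Real.log t) ^ j + t * ((j : ℝ) * (Real.log t) ^ (j - 1) * t⁻¹)) (Icc x y) t := by
    intro t ht
    have ht0 : t ≠ 0 := by
      have := ht.1
      intro h0
      linarith
    exact ((hasDerivAt_id t).mul ((Real.hasDerivAt_log ht0).pow j)).hasDerivWithinAt
  have hbd : ∀ t ∈ Ico x y, ‖1 * (Real.log t) ^ j + t * ((j : ℝ) * (Real.log t) ^ (j - 1) * t⁻¹)‖ ≤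
      (C1 + j * C2) * 2 ^ θ * x ^ θ := by
    intro t ht
    have ht1 : 1 ≤ t := hx.trans ht.1
    have ht0 : 0 < t := by linarith
    have hl : 0 ≤ Real.log t := Real.log_nonneg ht1
    have h3 : 1 * (Real.log t) ^ j + t * ((j : ℝ) * (Real.log t) ^ (j - 1) * t⁻¹) =
        (Real.log t) ^ j + j * (Real.log t) ^ (j - 1) := by
      field_simp
    rw [h3, Real.norm_of_nonneg (by positivity)]
    have h4 : t ^ θ ≤ 2 ^ θ * x ^ θ := by
      rw [← Real.mul_rpow (by norm_num) (by linarith)]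
      exact Real.rpow_le_rpow ht0.le (by have := ht.2; linarith) hθ.le
    have h5 := h1 t ht1
    have h6 := h2 t ht1
    calc (Real.log t) ^ j + j * (Real.log t) ^ (j - 1) ≤ C1 * t ^ θ + j * (C2 * t ^ θ) := by
          gcongr
      _ = (C1 + j * C2) * t ^ θ := by ring
      _ ≤ (C1 + j * C2) * (2 ^ θ * x ^ θ) := by
          apply mul_le_mul_of_nonneg_left h4; positivity
      _ = (C1 + j * C2) * 2 ^ θ * x ^ θ := by ring
  have h7 := norm_image_sub_le_of_norm_deriv_le_segment' hder hbd y (right_mem_Icc.2 hxy)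
  simpa [Real.norm_eq_abs] using h7

theorem res_diff (h : IsSel D d) (θ : ℝ) (hθ : 0 < θ) : ∃ C : ℝ, 0 ≤ C ∧ ∀ x y : ℝ, 1 ≤ x → x ≤ y → y ≤ 2 * x →
    |D.res y - D.res x| ≤ C * x ^ θ * (y - x) := by
  obtain ⟨a, ha⟩ := res_form h
  choose C hC0 hC using fun j : ℕ => res_logpow_diff j θ hθ
  refine ⟨∑ j ∈ Finset.range D.m, |a j| * C j, Finset.sum_nonneg fun j _ => mul_nonneg (abs_nonneg _) (hC0 j),
    fun x y hx hxy hy => ?_⟩
  rw [ha x (by linarith), ha y (by linarith), Finset.mul_sum, Finset.mul_sum, ← Finset.sum_sub_distrib,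
    Finset.sum_mul, Finset.sum_mul]
  refine (Finset.abs_sum_le_sum_abs _ _).trans (Finset.sum_le_sum fun j _ => ?_)
  have h1 : y * (a j * (Real.log y) ^ j) - x * (a j * (Real.log x) ^ j) =
      a j * (y * (Real.log y) ^ j - x * (Real.log x) ^ j) := by ring
  rw [h1, abs_mul, mul_assoc, mul_assoc]
  apply mul_le_mul_of_nonneg_left _ (abs_nonneg _)
  rw [← mul_assoc]
  exact hC j x y hx hxy hy

/-- short increments of the error term -/
theorem E_small (h : IsSel D d) (θ : ℝ) (hθ : 0 < θ) : ∃ C : ℝ, 0 ≤ C ∧ ∀ x y : ℝ, 1 ≤ x → x ≤ y → y ≤ 2 * x →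
    |D.E y - D.E x| ≤ C * (1 + (y - x)) * x ^ θ := by
  obtain ⟨C1, hC1, h1⟩ := res_sum_Ioc h θ hθ
  obtain ⟨C2, hC2, h2⟩ := res_diff h θ hθ
  refine ⟨C1 * 2 ^ θ + C2, by positivity, fun x y hx hxy hy => ?_⟩
  have hx0 : 0 < x := by linarith
  have hfl : ⌊x⌋₊ ≤ ⌊y⌋₊ := Nat.floor_le_floor hxy
  have hsplit : D.E y - D.E x = ∑ n ∈ Finset.Ioc ⌊x⌋₊ ⌊y⌋₊, D.f n - (D.res y - D.res x) := by
    unfold SelData.E
    have h3 := Finset.sum_Ioc_consecutive D.f (Nat.zero_le ⌊x⌋₊) hfl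
    have h4 : ∀ n : ℕ, Finset.Icc 1 n = Finset.Ioc 0 n := fun n => by
      ext k; simp only [Finset.mem_Icc, Finset.mem_Ioc]; omega
    rw [h4, h4, ← h3]
    ring
  have h5 : (⌊y⌋₊ : ℝ) ≤ 2 * x := (Nat.floor_le (by linarith)).trans hy
  have h6 := h1 _ _ hfl (2 * x) h5
  have h7 := h2 x y hx hxy hy
  have h8 : (⌊y⌋₊ : ℝ) - ⌊x⌋₊ ≤ 1 + (y - x) := by
    have h9 := Nat.floor_le (show 0 ≤ y by linarith)
    have h10 := Nat.lt_floor_add_one x
    linarith
  rw [Real.mul_rpow (by norm_num) hx0.le] at h6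
  have hxθ : 0 ≤ x ^ θ := by positivity
  have h2θ : (0 : ℝ) ≤ 2 ^ θ := by positivity
  calc |D.E y - D.E x| = |∑ n ∈ Finset.Ioc ⌊x⌋₊ ⌊y⌋₊, D.f n - (D.res y - D.res x)| := by rw [hsplit]
    _ ≤ |∑ n ∈ Finset.Ioc ⌊x⌋₊ ⌊y⌋₊, D.f n| + |D.res y - D.res x| := abs_sub _ _
    _ ≤ C1 * (2 ^ θ * x ^ θ) * ((⌊y⌋₊ : ℝ) - ⌊x⌋₊) + C2 * x ^ θ * (y - x) := add_le_add h6 h7
    _ ≤ C1 * (2 ^ θ * x ^ θ) * (1 + (y - x)) + C2 * x ^ θ * (1 + (y - x)) := by
        apply add_le_add
        · exact mul_le_mul_of_nonneg_left h8 (by positivity)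
        · exact mul_le_mul_of_nonneg_left (by linarith) (by positivity)
    _ = (C1 * 2 ^ θ + C2) * (1 + (y - x)) * x ^ θ := by ring

theorem res_log_measurable (a : ℕ → ℝ) (m : ℕ) :
    Measurable fun x : ℝ => x * ∑ j ∈ Finset.range m, a j * (Real.log x) ^ j := by
  refine measurable_id.mul (Finset.measurable_sum _ fun j _ => ?_)
  exact (Real.measurable_log.pow_const j).const_mul (a j)

theorem Ep_measurable (h : IsSel D d) : Measurable D.Ep := by
  obtain ⟨a, ha⟩ := res_form h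
  have h1 : D.Ep = fun x : ℝ => if 1 ≤ x then
      (fun n : ℕ => ∑ k ∈ Finset.Icc 1 n, D.f k) ⌊x⌋₊ - x * ∑ j ∈ Finset.range D.m, a j * (Real.log x) ^ j else 0 := by
    funext x
    unfold SelData.Ep SelData.E
    split_ifs with hx
    · rw [ha x (by linarith)]
    · rfl
  rw [h1]
  refine Measurable.ite measurableSet_Ici ?_ measurable_const
  have h2 : Measurable fun x : ℝ => (fun n : ℕ => ∑ k ∈ Finset.Icc 1 n, D.f k) ⌊x⌋₊ :=
    (measurable_from_nat (f := fun n : ℕ => ∑ k ∈ Finset.Icc 1 n, D.f k)).comp Nat.measurable_floor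
  exact h2.sub (res_log_measurable a D.m)

theorem F_half_cont (h : IsSel D d) : Continuous fun t : ℝ => D.F (ln (1/2) t) := by
  have hln : Continuous fun t : ℝ => ln (1/2) t := by
    unfold ln
    fun_prop
  unfold SelData.F
  refine (h.entire.continuous.comp hln).div ((hln.sub continuous_const).pow D.m) fun t => ?_
  apply pow_ne_zero
  intro h0
  have h1 := congrArg Complex.re h0
  simp at h1
  norm_num at h1

theorem res_E_cont (h : IsSel D d) (x : ℝ) (hx : 1 < x) (hn : ∀ n : ℕ, x ≠ n) : ContinuousAt D.E x := by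
  obtain ⟨a, ha⟩ := res_form h
  have hx0 : x ≠ 0 := by linarith
  have h1 : D.E =ᶠ[𝓝 x] fun y => ∑ n ∈ Finset.Icc 1 ⌊x⌋₊, D.f n - y * ∑ j ∈ Finset.range D.m, a j * (Real.log y) ^ j := by
    have hlo : (⌊x⌋₊ : ℝ) < x := lt_of_le_of_ne (Nat.floor_le (by linarith)) (hn _).symm
    have hup : x < (⌊x⌋₊ : ℝ) + 1 := Nat.lt_floor_add_one x
    filter_upwards [Ioo_mem_nhds hlo hup, Ioi_mem_nhds (show (0 : ℝ) < x by linarith)] with y hy hy0
    unfold SelData.E
    rw [ha y hy0]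
    have h2 : ⌊y⌋₊ = ⌊x⌋₊ := (Nat.floor_eq_iff (le_of_lt hy0)).2 ⟨hy.1.le, hy.2⟩
    rw [h2]
  refine ContinuousAt.congr ?_ h1.symm
  refine continuousAt_const.sub (continuousAt_id.mul ?_)
  refine tendsto_finsetSum _ fun j _ => ?_
  exact (continuousAt_const.mul ((Real.continuousAt_log hx0).pow j))

theorem res_E_bound (h : IsSel D d) : ∃ C : ℝ, 0 ≤ C ∧ ∀ x : ℝ, 1 ≤ x → |D.E x| ≤ C * x ^ ((3 : ℝ) / 2) := by
  obtain ⟨C1, hC1, h1⟩ := res_sum_Ioc h (1/2) (by norm_num)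
  obtain ⟨a, ha⟩ := res_form h
  choose C hC0 hC using fun j : ℕ => res_log_pow j (1/2) (by norm_num)
  have hsum : 0 ≤ ∑ j ∈ Finset.range D.m, |a j| * C j :=
    Finset.sum_nonneg fun j _ => mul_nonneg (abs_nonneg _) (hC0 j)
  refine ⟨C1 + ∑ j ∈ Finset.range D.m, |a j| * C j, by positivity, fun x hx => ?_⟩
  have hx0 : 0 < x := by linarith
  have h32 : x ^ ((3 : ℝ) / 2) = x * x ^ ((1 : ℝ) / 2) := by
    rw [show (3 : ℝ) / 2 = 1 + 1/2 by norm_num, Real.rpow_add hx0, Real.rpow_one]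
  have h2 := h1 0 ⌊x⌋₊ (Nat.zero_le _) x (Nat.floor_le hx0.le)
  have h4 : Finset.Icc 1 ⌊x⌋₊ = Finset.Ioc 0 ⌊x⌋₊ := by
    ext k; simp only [Finset.mem_Icc, Finset.mem_Ioc]; omega
  have h5 : |D.res x| ≤ (∑ j ∈ Finset.range D.m, |a j| * C j) * (x * x ^ ((1 : ℝ) / 2)) := by
    rw [ha x hx0, abs_mul, abs_of_pos hx0, Finset.sum_mul]
    calc x * |∑ j ∈ Finset.range D.m, a j * (Real.log x) ^ j|
        ≤ x * ∑ j ∈ Finset.range D.m, |a j * (Real.log x) ^ j| :=
          mul_le_mul_of_nonneg_left (Finset.abs_sum_le_sum_abs _ _) hx0.le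
      _ = ∑ j ∈ Finset.range D.m, x * |a j * (Real.log x) ^ j| := Finset.mul_sum _ _ _
      _ ≤ ∑ j ∈ Finset.range D.m, |a j| * C j * (x * x ^ ((1 : ℝ) / 2)) := by
          refine Finset.sum_le_sum fun j _ => ?_
          rw [abs_mul, abs_of_nonneg (pow_nonneg (Real.log_nonneg hx) j)]
          have h6 := mul_le_mul_of_nonneg_left (hC j x hx) (mul_nonneg hx0.le (abs_nonneg (a j)))
          calc x * (|a j| * (Real.log x) ^ j) = x * |a j| * (Real.log x) ^ j := by ring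
            _ ≤ x * |a j| * (C j * x ^ ((1 : ℝ) / 2)) := h6
            _ = |a j| * C j * (x * x ^ ((1 : ℝ) / 2)) := by ring
  unfold SelData.E
  rw [h4, h32]
  rw [Nat.cast_zero, sub_zero] at h2
  have h7 : C1 * x ^ ((1 : ℝ) / 2) * (⌊x⌋₊ : ℝ) ≤ C1 * x ^ ((1 : ℝ) / 2) * x :=
    mul_le_mul_of_nonneg_left (Nat.floor_le hx0.le) (by positivity)
  calc |∑ n ∈ Finset.Ioc 0 ⌊x⌋₊, D.f n - D.res x| ≤ |∑ n ∈ Finset.Ioc 0 ⌊x⌋₊, D.f n| + |D.res x| := abs_sub _ _
    _ ≤ C1 * x ^ ((1 : ℝ) / 2) * x + (∑ j ∈ Finset.range D.m, |a j| * C j) * (x * x ^ ((1 : ℝ) / 2)) := by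
        linarith
    _ = (C1 + ∑ j ∈ Finset.range D.m, |a j| * C j) * (x * x ^ ((1 : ℝ) / 2)) := by ring

/-- norms on the half plane `re s ≤ 1/2` -/
theorem res_norm_half (s : ℂ) (hs : s.re ≤ 1/2) : 1/2 ≤ ‖s - 1‖ ∧ (1 + |s.im|) / 4 ≤ ‖s - 1‖ := by
  have h1 := Complex.abs_re_le_norm (s - 1)
  have h2 := Complex.abs_im_le_norm (s - 1)
  simp only [sub_re, one_re, sub_im, one_im, sub_zero] at h1 h2
  have h3 : 1/2 ≤ |s.re - 1| := by
    rw [abs_of_nonpos (by linarith)]; linarith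
  have h4 := abs_nonneg s.im
  constructor <;> linarith

theorem res_pp_bound (b : ℕ → ℝ) (m : ℕ) : ∃ C : ℝ, 0 ≤ C ∧ ∀ s : ℂ, s.re ≤ 1/2 →
    ‖(∑ k ∈ Finset.range m, (b k : ℂ) * (s - 1) ^ k) / (s - 1) ^ m‖ ≤ C / (1 + |s.im|) := by
  refine ⟨∑ k ∈ Finset.range m, |b k| * (2 ^ m * 4), Finset.sum_nonneg fun k _ => by positivity, fun s hs => ?_⟩
  obtain ⟨h1, h2⟩ := res_norm_half s hs
  have hp : 0 < ‖s - 1‖ := by linarith
  have him : 0 < 1 + |s.im| := by positivity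
  rw [Finset.sum_div, Finset.sum_div]
  refine (norm_sum_le _ _).trans (Finset.sum_le_sum fun k hk => ?_)
  have hk' : k < m := Finset.mem_range.1 hk
  rw [norm_div, norm_mul, norm_pow, norm_pow, Complex.norm_real, Real.norm_eq_abs, mul_div_assoc, mul_div_assoc]
  apply mul_le_mul_of_nonneg_left _ (abs_nonneg _)
  obtain ⟨l, rfl⟩ : ∃ l, m = k + (l + 1) := ⟨m - k - 1, by omega⟩
  have h3 : ‖s - 1‖ ^ k / ‖s - 1‖ ^ (k + (l + 1)) = (1 / ‖s - 1‖) ^ l * (1 / ‖s - 1‖) := by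
    rw [pow_add, pow_succ, one_div_pow]
    field_simp
  rw [h3]
  have h4 : (1 : ℝ) / ‖s - 1‖ ≤ 2 := by
    rw [div_le_iff₀ hp]; linarith
  have h5 : (1 : ℝ) / ‖s - 1‖ ≤ 4 / (1 + |s.im|) := by
    rw [div_le_div_iff₀ hp him]; linarith
  have h6 : ((1 : ℝ) / ‖s - 1‖) ^ l ≤ 2 ^ (k + (l + 1)) :=
    (pow_le_pow_left₀ (by positivity) h4 l).trans (pow_le_pow_right₀ (by norm_num) (by omega))
  calc (1 / ‖s - 1‖) ^ l * (1 / ‖s - 1‖) ≤ 2 ^ (k + (l + 1)) * (4 / (1 + |s.im|)) :=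
        mul_le_mul h6 h5 (by positivity) (by positivity)
    _ = 2 ^ (k + (l + 1)) * 4 / (1 + |s.im|) := by ring

theorem res_growth (h : IsSel D d) (b : ℕ → ℝ) (g : ℂ → ℂ)
    (hrep : ∀ s, D.H s = s * (∑ k ∈ Finset.range D.m, (b k : ℂ) * (s - 1) ^ k) + (s - 1) ^ D.m * g s)
    (hK : Differentiable ℂ (dslope g 0)) :
    ∃ A C : ℝ, 0 ≤ A ∧ 0 ≤ C ∧ ∀ s : ℂ, -(3/4) ≤ s.re → s.re ≤ 2 → ‖dslope g 0 s‖ ≤ C * (1 + |s.im|) ^ A := by
  obtain ⟨A, C, hA, hC, hH⟩ := H_growth h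
  obtain ⟨M, hM⟩ := ((isCompact_Icc (a := (-(3/4) : ℝ)) (b := 2)).reProdIm
    (isCompact_Icc (a := (-1 : ℝ)) (b := 1))).exists_bound_of_continuousOn (f := dslope g 0) hK.continuous.continuousOn
  set m := D.m with hm
  set B : ℝ := ∑ k ∈ Finset.range m, |b k| with hB
  have hB0 : 0 ≤ B := Finset.sum_nonneg fun k _ => abs_nonneg _
  refine ⟨A + m, |M| + C + B * 2 ^ m + ‖g 0‖, by positivity, by positivity, fun s hs1 hs2 => ?_⟩
  have hb1 : (1 : ℝ) ≤ 1 + |s.im| := by have := abs_nonneg s.im; linarith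
  have hpA : (1 : ℝ) ≤ (1 + |s.im|) ^ (A + m) := Real.one_le_rpow hb1 (by positivity)
  by_cases him : |s.im| ≤ 1
  · have h1 := hM s (by
      rw [Complex.mem_reProdIm]
      exact ⟨⟨hs1, hs2⟩, abs_le.1 him⟩)
    calc ‖dslope g 0 s‖ ≤ |M| := h1.trans (le_abs_self M)
      _ ≤ |M| + C + B * 2 ^ m + ‖g 0‖ := by
        have : 0 ≤ C + B * 2 ^ m + ‖g 0‖ := by positivity
        linarith
      _ ≤ (|M| + C + B * 2 ^ m + ‖g 0‖) * (1 + |s.im|) ^ (A + m) :=
        le_mul_of_one_le_right (by positivity) hpA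
  · rw [not_le] at him
    have hsn : 1 ≤ ‖s‖ := him.le.trans (Complex.abs_im_le_norm s)
    have hs1n : 1 ≤ ‖s - 1‖ := by
      have h2 := Complex.abs_im_le_norm (s - 1)
      simp only [sub_im, one_im, sub_zero] at h2
      linarith
    have hup : ‖s‖ ≤ 2 * (1 + |s.im|) := by
      have h2 := Complex.norm_le_abs_re_add_abs_im s
      have h3 : |s.re| ≤ 2 := abs_le.2 ⟨by linarith, hs2⟩
      linarith [abs_nonneg s.im]
    have hup1 : ‖s - 1‖ ≤ 2 * (1 + |s.im|) := by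
      have h2 := Complex.norm_le_abs_re_add_abs_im (s - 1)
      simp only [sub_im, one_im, sub_zero, sub_re, one_re] at h2
      have h3 : |s.re - 1| ≤ 2 := abs_le.2 ⟨by linarith, by linarith⟩
      linarith [abs_nonneg s.im]
    -- the bound for `s T(s)`
    have hT : ‖s * (∑ k ∈ Finset.range m, (b k : ℂ) * (s - 1) ^ k)‖ ≤ B * 2 ^ m * (1 + |s.im|) ^ m := by
      rw [Finset.mul_sum, hB, Finset.sum_mul, Finset.sum_mul]
      refine (norm_sum_le _ _).trans (Finset.sum_le_sum fun k hk => ?_)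
      have hk' : k < m := Finset.mem_range.1 hk
      rw [norm_mul, norm_mul, norm_pow, Complex.norm_real, Real.norm_eq_abs]
      have h4 : ‖s‖ * ‖s - 1‖ ^ k ≤ (2 * (1 + |s.im|)) ^ (k + 1) := by
        rw [pow_succ']
        exact mul_le_mul hup (pow_le_pow_left₀ (norm_nonneg _) hup1 k) (by positivity) (by positivity)
      have h5 : (2 * (1 + |s.im|)) ^ (k + 1) ≤ (2 * (1 + |s.im|)) ^ m :=
        pow_le_pow_right₀ (by linarith) (by omega)
      have h6 : ‖s‖ * ‖s - 1‖ ^ k ≤ 2 ^ m * (1 + |s.im|) ^ m := by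
        rw [← mul_pow]; exact h4.trans h5
      calc ‖s‖ * (|b k| * ‖s - 1‖ ^ k) = |b k| * (‖s‖ * ‖s - 1‖ ^ k) := by ring
        _ ≤ |b k| * (2 ^ m * (1 + |s.im|) ^ m) := mul_le_mul_of_nonneg_left h6 (abs_nonneg _)
        _ = |b k| * 2 ^ m * (1 + |s.im|) ^ m := by ring
    have hgs : ‖g s‖ ≤ ‖D.H s‖ + ‖s * (∑ k ∈ Finset.range m, (b k : ℂ) * (s - 1) ^ k)‖ := by
      have h7 : (s - 1) ^ m * g s = D.H s - s * (∑ k ∈ Finset.range m, (b k : ℂ) * (s - 1) ^ k) := by
        rw [hrep s]; ring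
      have h8 : ‖(s - 1) ^ m * g s‖ ≤ ‖D.H s‖ + ‖s * (∑ k ∈ Finset.range m, (b k : ℂ) * (s - 1) ^ k)‖ := by
        rw [h7]; exact norm_sub_le _ _
      rw [norm_mul, norm_pow] at h8
      exact (le_mul_of_one_le_left (norm_nonneg _) (one_le_pow₀ hs1n)).trans h8
    have hds : ‖dslope g 0 s‖ ≤ ‖g s‖ + ‖g 0‖ := by
      have h9 := sub_smul_dslope g 0 s
      rw [sub_zero, smul_eq_mul] at h9
      have h10 : ‖s * dslope g 0 s‖ ≤ ‖g s‖ + ‖g 0‖ := by
        rw [h9]; exact norm_sub_le _ _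
      rw [norm_mul] at h10
      exact (le_mul_of_one_le_left (norm_nonneg _) hsn).trans h10
    have hHs := hH s hs1 hs2
    have hp1 : (1 + |s.im|) ^ A ≤ (1 + |s.im|) ^ (A + m) :=
      Real.rpow_le_rpow_of_exponent_le hb1 (by linarith [(Nat.cast_nonneg m : (0 : ℝ) ≤ m)])
    have hp2 : (1 + |s.im|) ^ m ≤ (1 + |s.im|) ^ (A + m) := by
      rw [← Real.rpow_natCast]
      exact Real.rpow_le_rpow_of_exponent_le hb1 (by linarith)
    set P : ℝ := (1 + |s.im|) ^ (A + m) with hP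
    calc ‖dslope g 0 s‖ ≤ C * (1 + |s.im|) ^ A + B * 2 ^ m * (1 + |s.im|) ^ m + ‖g 0‖ := by linarith
      _ ≤ C * P + B * 2 ^ m * P + ‖g 0‖ * P := by
        have h11 := mul_le_mul_of_nonneg_left hp1 hC
        have h12 := mul_le_mul_of_nonneg_left hp2 (show 0 ≤ B * 2 ^ m by positivity)
        have h13 := le_mul_of_one_le_right (norm_nonneg (g 0)) hpA
        linarith
      _ ≤ |M| * P + (C * P + B * 2 ^ m * P + ‖g 0‖ * P) := by
        have : 0 ≤ |M| * P := mul_nonneg (abs_nonneg _) (by linarith)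
        linarith
      _ = (|M| + C + B * 2 ^ m + ‖g 0‖) * P := by ring

/-- integrability on `(1, ∞)` of functions of growth `x^{3/2}` against `x^{-s-1}`, `re s = 2` -/
theorem res_integrable (u : ℝ → ℝ) (hu : AEStronglyMeasurable u (volume.restrict (Ioi 1))) (C e : ℝ) (he : e < 2)
    (hb : ∀ x : ℝ, 1 ≤ x → |u x| ≤ C * x ^ e) (s : ℂ) (hs : s.re = 2) :
    IntegrableOn (fun x : ℝ => (u x : ℂ) * (x : ℂ) ^ (-s - 1)) (Ioi 1) := by
  have h1 : IntegrableOn (fun x : ℝ => C * x ^ (e - 3)) (Ioi 1) :=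
    (integrableOn_Ioi_rpow_of_lt (by linarith) one_pos).const_mul C
  refine Integrable.mono' h1 ?_ ?_
  · refine (Complex.continuous_ofReal.comp_aestronglyMeasurable hu).mul ?_
    refine ContinuousOn.aestronglyMeasurable ?_ measurableSet_Ioi
    intro x hx
    have hx0 : x ≠ 0 := by
      have : (1 : ℝ) < x := hx
      linarith
    exact (Complex.continuousAt_ofReal_cpow_const x (-s - 1) (Or.inr hx0)).continuousWithinAt
  · rw [ae_restrict_iff' measurableSet_Ioi]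
    refine Eventually.of_forall fun x hx => ?_
    have hx1 : (1 : ℝ) < x := hx
    have hx0 : 0 < x := by linarith
    rw [norm_mul, Complex.norm_real, Complex.norm_cpow_eq_rpow_re_of_pos hx0, Real.norm_eq_abs]
    have h2 : (-s - 1).re = -3 := by
      simp only [sub_re, neg_re, one_re, hs]; norm_num
    rw [h2, show e - 3 = e + (-3) by ring, Real.rpow_add hx0, ← mul_assoc]
    exact mul_le_mul_of_nonneg_right (hb x hx1.le) (by positivity)

theorem res_log_int (j : ℕ) (s : ℂ) (hs : s.re = 2) :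
    IntegrableOn (fun x : ℝ => ((x * (Real.log x) ^ j : ℝ) : ℂ) * (x : ℂ) ^ (-s - 1)) (Ioi 1) := by
  obtain ⟨C, hC0, hC⟩ := res_log_pow j (1/2) (by norm_num)
  refine res_integrable (fun x => x * (Real.log x) ^ j) ?_ C (3/2) (by norm_num) ?_ s hs
  · exact (measurable_id.mul (Real.measurable_log.pow_const j)).aestronglyMeasurable
  · intro x hx
    have hx0 : 0 < x := by linarith
    rw [abs_mul, abs_of_pos hx0, abs_of_nonneg (pow_nonneg (Real.log_nonneg hx) j),
      show (3 : ℝ) / 2 = 1 + 1/2 by norm_num, Real.rpow_add hx0, Real.rpow_one]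
    have := mul_le_mul_of_nonneg_left (hC x hx) hx0.le
    linarith

/-- the Mellin transform of `x (log x)^j` -/
theorem res_log_mellin (s : ℂ) (hs : s.re = 2) (j : ℕ) :
    ∫ x in Ioi (1 : ℝ), ((x * (Real.log x) ^ j : ℝ) : ℂ) * (x : ℂ) ^ (-s - 1) =
      (j.factorial : ℂ) / (s - 1) ^ (j + 1) := by
  have hs1 : s - 1 ≠ 0 := by
    intro h0
    have h1 := congrArg Complex.re h0
    simp only [sub_re, one_re, zero_re, hs] at h1
    norm_num at h1
  have hs2 : -s + 1 ≠ 0 := by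
    intro h0
    apply hs1
    linear_combination -h0
  -- rewriting of the integrand
  have hrw : ∀ (i : ℕ) (x : ℝ), x ∈ Ioi (1 : ℝ) → ((x * (Real.log x) ^ i : ℝ) : ℂ) * (x : ℂ) ^ (-s - 1) =
      (Real.log x : ℂ) ^ i * (x : ℂ) ^ (-s) := by
    intro i x hx
    have hx0 : (x : ℂ) ≠ 0 := by
      have : (1 : ℝ) < x := hx
      exact_mod_cast (by linarith : x ≠ 0)
    have h1 : (x : ℂ) ^ (-s) = x * (x : ℂ) ^ (-s - 1) := by
      rw [Complex.cpow_sub _ _ hx0, Complex.cpow_one]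
      field_simp
    rw [h1]
    push_cast
    ring
  have hIrw : ∀ i : ℕ, ∫ x in Ioi (1 : ℝ), ((x * (Real.log x) ^ i : ℝ) : ℂ) * (x : ℂ) ^ (-s - 1) =
      ∫ x in Ioi (1 : ℝ), (Real.log x : ℂ) ^ i * (x : ℂ) ^ (-s) := fun i =>
    setIntegral_congr_fun measurableSet_Ioi fun x hx => hrw i x hx
  have hInt : ∀ i : ℕ, IntegrableOn (fun x : ℝ => (Real.log x : ℂ) ^ i * (x : ℂ) ^ (-s)) (Ioi 1) := fun i =>
    (res_log_int i s hs).congr_fun (fun x hx => hrw i x hx) measurableSet_Ioi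
  rw [hIrw]
  induction j with
  | zero =>
    have h1 := integral_Ioi_cpow_of_lt (a := -s) (by rw [neg_re, hs]; norm_num) (c := 1) one_pos
    simp only [pow_zero, one_mul, Nat.factorial_zero, Nat.cast_one, zero_add, pow_one]
    rw [h1, Complex.ofReal_one, Complex.one_cpow, neg_div]
    rw [show -s + 1 = -(s - 1) by ring, div_neg, neg_neg]
  | succ j ih =>
    -- antiderivative
    have hder : ∀ x ∈ Ioi (1 : ℝ), HasDerivAt
        (fun x : ℝ => (Real.log x : ℂ) ^ (j + 1) * ((x : ℂ) ^ (-s + 1) / (-s + 1)))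
        ((Real.log x : ℂ) ^ (j + 1) * (x : ℂ) ^ (-s) + ((j + 1 : ℕ) : ℂ) / (-s + 1) * ((Real.log x : ℂ) ^ j * (x : ℂ) ^ (-s))) x := by
      intro x hx
      have hx1 : (1 : ℝ) < x := hx
      have hx0 : x ≠ 0 := by linarith
      have hx0' : (x : ℂ) ≠ 0 := by exact_mod_cast hx0
      have h1 : HasDerivAt (fun x : ℝ => (Real.log x : ℂ)) ((x⁻¹ : ℝ) : ℂ) x := (Real.hasDerivAt_log hx0).ofReal_comp
      have h2 := h1.pow (j + 1)
      have h3 := (hasDerivAt_ofReal_cpow_const hx0 hs2).div_const (-s + 1)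
      have h4 := h2.mul h3
      refine h4.congr_deriv ?_
      have h5 : (x : ℂ) ^ (-s + 1) = x * (x : ℂ) ^ (-s) := by
        rw [Complex.cpow_add _ _ hx0', Complex.cpow_one]; ring
      rw [show -s + 1 - 1 = -s by ring, h5]
      rw [Pi.pow_apply]
      push_cast
      field_simp
      ring
    have hcont : ContinuousWithinAt (fun x : ℝ => (Real.log x : ℂ) ^ (j + 1) * ((x : ℂ) ^ (-s + 1) / (-s + 1))) (Ici 1) 1 := by
      apply ContinuousAt.continuousWithinAt
      refine ContinuousAt.mul ?_ ?_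
      · exact (Complex.continuous_ofReal.continuousAt.comp (Real.continuousAt_log one_ne_zero)).pow (j + 1)
      · exact (Complex.continuousAt_ofReal_cpow_const 1 (-s + 1) (Or.inr one_ne_zero)).div_const _
    have hint : IntegrableOn (fun x : ℝ => (Real.log x : ℂ) ^ (j + 1) * (x : ℂ) ^ (-s) +
        ((j + 1 : ℕ) : ℂ) / (-s + 1) * ((Real.log x : ℂ) ^ j * (x : ℂ) ^ (-s))) (Ioi 1) :=
      (hInt (j + 1)).add ((hInt j).const_mul _)
    have htend : Tendsto (fun x : ℝ => (Real.log x : ℂ) ^ (j + 1) * ((x : ℂ) ^ (-s + 1) / (-s + 1))) atTop (𝓝 0) := by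
      obtain ⟨C, hC0, hC⟩ := res_log_pow (j + 1) (1/2) (by norm_num)
      have h6 : Tendsto (fun x : ℝ => C * x ^ (-(1/2 : ℝ)) / ‖-s + 1‖) atTop (𝓝 0) := by
        have h7 := ((tendsto_rpow_neg_atTop (show (0 : ℝ) < 1/2 by norm_num)).const_mul C).div_const ‖-s + 1‖
        simpa using h7
      refine squeeze_zero_norm' ?_ h6
      filter_upwards [eventually_ge_atTop (1 : ℝ)] with x hx
      have hx0 : 0 < x := by linarith
      rw [norm_mul, norm_div, norm_pow, Complex.norm_real, Real.norm_of_nonneg (Real.log_nonneg hx),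
        Complex.norm_cpow_eq_rpow_re_of_pos hx0, add_re, neg_re, hs, one_re, ← mul_div_assoc]
      apply div_le_div_of_nonneg_right _ (norm_nonneg _)
      have h8 := mul_le_mul_of_nonneg_right (hC x hx) (show 0 ≤ x ^ (-2 + 1 : ℝ) by positivity)
      refine h8.trans (le_of_eq ?_)
      rw [mul_assoc, ← Real.rpow_add hx0]
      norm_num
    have hFTC := integral_Ioi_of_hasDerivAt_of_tendsto hcont hder hint htend
    have h9 : ((Real.log 1 : ℝ) : ℂ) ^ (j + 1) * (((1 : ℝ) : ℂ) ^ (-s + 1) / (-s + 1)) = 0 := by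
      rw [Real.log_one]; simp
    rw [h9, sub_zero, integral_add (hInt (j + 1)) ((hInt j).const_mul _), integral_const_mul, ih] at hFTC
    rw [eq_neg_of_add_eq_zero_left hFTC, Nat.factorial_succ]
    rw [show -s + 1 = -(s - 1) by ring, pow_succ (s - 1) (j + 1)]
    push_cast
    field_simp

theorem res_sum_mellin (h : IsSel D d) (s : ℂ) (hs : s.re = 2) :
    ∫ x in Ioi (1 : ℝ), ((∑ n ∈ Finset.Icc 1 ⌊x⌋₊, D.f n : ℝ) : ℂ) * (x : ℂ) ^ (-s - 1) = D.L s / s := by
  have hs0 : s ≠ 0 := by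
    intro h0
    rw [h0, zero_re] at hs
    norm_num at hs
  obtain ⟨C, hC⟩ := h.ram (1/2) (by norm_num)
  have hO : (fun n : ℕ => ∑ k ∈ Finset.Icc 1 n, ‖((D.f k : ℝ) : ℂ)‖) =O[atTop] fun n : ℕ => ((n : ℝ) ^ (3/2 : ℝ)) := by
    refine Asymptotics.IsBigO.of_bound |C| ?_
    filter_upwards [eventually_ge_atTop 1] with n hn
    have hn0 : (0 : ℝ) < n := by exact_mod_cast hn
    rw [Real.norm_of_nonneg (Finset.sum_nonneg fun k _ => norm_nonneg _), Real.norm_of_nonneg (by positivity)]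
    have h1 : ∀ k ∈ Finset.Icc 1 n, ‖((D.f k : ℝ) : ℂ)‖ ≤ |C| * (n : ℝ) ^ (1/2 : ℝ) := by
      intro k hk
      obtain ⟨hk1, hk2⟩ := Finset.mem_Icc.1 hk
      rw [Complex.norm_real, Real.norm_eq_abs]
      have h2 : (k : ℝ) ^ (1/2 : ℝ) ≤ (n : ℝ) ^ (1/2 : ℝ) :=
        Real.rpow_le_rpow (Nat.cast_nonneg k) (by exact_mod_cast hk2) (by norm_num)
      calc |D.f k| ≤ C * (k : ℝ) ^ (1/2 : ℝ) := hC k hk1
        _ ≤ |C| * (k : ℝ) ^ (1/2 : ℝ) := mul_le_mul_of_nonneg_right (le_abs_self C) (by positivity)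
        _ ≤ |C| * (n : ℝ) ^ (1/2 : ℝ) := mul_le_mul_of_nonneg_left h2 (abs_nonneg C)
    refine (Finset.sum_le_card_nsmul _ _ _ h1).trans (le_of_eq ?_)
    rw [Nat.card_Icc, nsmul_eq_mul, Nat.add_sub_cancel, show (3/2 : ℝ) = 1 + 1/2 by norm_num, Real.rpow_add hn0,
      Real.rpow_one]
    ring
  have h3 := LSeries_eq_mul_integral' (fun n => (D.f n : ℂ)) (r := 3/2) (by norm_num) (s := s)
    (by rw [hs]; norm_num) hO
  have h4 : D.L s = LSeries (fun n => (D.f n : ℂ)) s := rfl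
  rw [h4, h3, mul_div_cancel_left₀ _ hs0]
  refine setIntegral_congr_fun measurableSet_Ioi fun x _ => ?_
  rw [show -s - 1 = -(s + 1) by ring]
  push_cast
  rfl

theorem exists_core (h : IsSel D d) : Nonempty (Core D) := by
  obtain ⟨b, g, hg, _, hrep⟩ := res_taylor D.H h.entire (conj_H h) D.m
  have hK : Differentiable ℂ (dslope g 0) := by
    rw [← differentiableOn_univ]
    exact (Complex.differentiableOn_dslope univ_mem).2 hg.differentiableOn
  have hKg : ∀ s : ℂ, s ≠ 0 → dslope g 0 s + g 0 / s = g s / s := by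
    intro s hs
    have h1 := sub_smul_dslope g 0 s
    rw [sub_zero, smul_eq_mul] at h1
    field_simp
    linear_combination h1
  have hform : ∀ s : ℂ, s ≠ 0 → s ≠ 1 → dslope g 0 s + g 0 / s =
      D.F s / s - (∑ k ∈ Finset.range D.m, (b k : ℂ) * (s - 1) ^ k) / (s - 1) ^ D.m := by
    intro s hs0 hs1
    have h1 : (s - 1) ^ D.m ≠ 0 := pow_ne_zero _ (sub_ne_zero.2 hs1)
    rw [hKg s hs0]
    unfold SelData.F
    rw [hrep s]
    field_simp
    ring
  refine ⟨{ K1 := dslope g 0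
            k0 := g 0
            pp := fun s => (∑ k ∈ Finset.range D.m, (b k : ℂ) * (s - 1) ^ k) / (s - 1) ^ D.m
            K1_diff := hK
            growth := res_growth h b g hrep hK
            E_meas := Ep_measurable h
            E_cont := res_E_cont h
            E_bound := res_E_bound h
            mellin := ?_
            Kform := hform
            pp_cont := ?_
            pp_bound := res_pp_bound b D.m }⟩
  · intro s hs
    have hs0 : s ≠ 0 := by
      intro h0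
      rw [h0, zero_re] at hs
      norm_num at hs
    have hs1 : s ≠ 1 := by
      intro h0
      rw [h0, one_re] at hs
      norm_num at hs
    have hs1' : s - 1 ≠ 0 := sub_ne_zero.2 hs1
    have hF : D.F s = D.L s := by
      unfold SelData.F SelData.L
      rw [h.series s (by rw [hs]; norm_num), mul_div_cancel_left₀ _ (pow_ne_zero _ hs1')]
    rw [hform s hs0 hs1, hF, ← res_sum_mellin h s hs]
    have h2 : ∀ x ∈ Ioi (1 : ℝ), (D.res x : ℂ) * (x : ℂ) ^ (-s - 1) =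
        ∑ j ∈ Finset.range D.m, ((b (D.m - 1 - j) / (j.factorial : ℝ) : ℝ) : ℂ) *
          (((x * (Real.log x) ^ j : ℝ) : ℂ) * (x : ℂ) ^ (-s - 1)) := by
      intro x hx
      have hx1 : (1 : ℝ) < x := hx
      rw [res_eq D b g hg hrep x (by linarith)]
      push_cast
      rw [Finset.mul_sum, Finset.sum_mul]
      refine Finset.sum_congr rfl fun j _ => ?_
      ring
    have hres : ∫ x in Ioi (1 : ℝ), (D.res x : ℂ) * (x : ℂ) ^ (-s - 1) =
        (∑ k ∈ Finset.range D.m, (b k : ℂ) * (s - 1) ^ k) / (s - 1) ^ D.m := by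
      rw [setIntegral_congr_fun measurableSet_Ioi h2, integral_finsetSum]
      · rw [Finset.sum_div,
          ← Finset.sum_range_reflect (fun k => (b k : ℂ) * (s - 1) ^ k / (s - 1) ^ D.m) D.m]
        refine Finset.sum_congr rfl fun j hj => ?_
        have hj' : j < D.m := Finset.mem_range.1 hj
        rw [integral_const_mul, res_log_mellin s hs j]
        have h5 : (j.factorial : ℂ) ≠ 0 := by exact_mod_cast j.factorial_ne_zero
        have h6 : (s - 1) ^ D.m = (s - 1) ^ (D.m - 1 - j) * (s - 1) ^ (j + 1) := by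
          rw [← pow_add]; congr 1; omega
        rw [h6]
        push_cast
        have h7 : (s - 1) ^ (D.m - 1 - j) ≠ 0 := pow_ne_zero _ hs1'
        field_simp
      · intro j _
        exact (res_log_int j s hs).const_mul _
    rw [← hres, ← integral_sub]
    · refine setIntegral_congr_fun measurableSet_Ioi fun x _ => ?_
      unfold SelData.E
      push_cast
      ring
    · obtain ⟨C1, hC1, h1⟩ := res_sum_Ioc h (1/2) (by norm_num)
      refine res_integrable (fun x => (fun n : ℕ => ∑ k ∈ Finset.Icc 1 n, D.f k) ⌊x⌋₊) ?_ C1 (3/2) (by norm_num) ?_ s hs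
      · exact ((measurable_from_nat (f := fun n : ℕ => ∑ k ∈ Finset.Icc 1 n, D.f k)).comp
          Nat.measurable_floor).aestronglyMeasurable
      · intro x hx
        have hx0 : 0 < x := by linarith
        have h4 : Finset.Icc 1 ⌊x⌋₊ = Finset.Ioc 0 ⌊x⌋₊ := by
          ext k; simp only [Finset.mem_Icc, Finset.mem_Ioc]; omega
        have h5 := h1 0 ⌊x⌋₊ (Nat.zero_le _) x (Nat.floor_le hx0.le)
        beta_reduce
        rw [h4, show (3 : ℝ) / 2 = 1 + 1/2 by norm_num, Real.rpow_add hx0, Real.rpow_one]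
        rw [Nat.cast_zero, sub_zero] at h5
        have h7 : C1 * x ^ ((1 : ℝ) / 2) * (⌊x⌋₊ : ℝ) ≤ C1 * x ^ ((1 : ℝ) / 2) * x :=
          mul_le_mul_of_nonneg_left (Nat.floor_le hx0.le) (by positivity)
        linarith
    · have h8 : IntegrableOn (fun x : ℝ => ∑ j ∈ Finset.range D.m, ((b (D.m - 1 - j) / (j.factorial : ℝ) : ℝ) : ℂ) *
          (((x * (Real.log x) ^ j : ℝ) : ℂ) * (x : ℂ) ^ (-s - 1))) (Ioi 1) :=
        integrable_finsetSum _ fun j _ => (res_log_int j s hs).const_mul _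
      exact h8.congr_fun (fun x hx => (h2 x hx).symm) measurableSet_Ioi
  · refine ContinuousOn.div ?_ ?_ ?_
    · fun_prop
    · fun_prop
    · intro s hs
      exact pow_ne_zero _ (sub_ne_zero.2 hs)

end Pool.Agent.H15.SC
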