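import Pool.Agent.H15.SC.MSblk
import Pool.Agent.H15.SC.HFa
import Pool.Agent.H15.SC.Res

/-!
# SC-21  second moment of a degree 2 function on the critical line  (project SC, MP_be4568_nt)

`|F(1/2-it)| = |F(1/2+it)|` (`conj_H`), `∫_{-1}^{1}` is finite (`F_half_cont`), so it is enough to bound
`∫_U^{2U} |F(1/2+it)|² dt ≤ C U^{1+ε}` for `U ≥ 1` and to sum dyadically.  `afe`: `F = lim ∑_{i<K} (AR_i - BL_i)`, the blocks
`[M, 2M)`, `M = 2^i`.  With `2 e ≤ ε`, `e ≤ 1/4`: for `M ≤ U` shift to `c = ±e` (`AR_shift`, `BL_shift`), for `M > U` keep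
`c = 3/4`, `-5/4`; in both cases the mean square of the block is `≤ C U^{1+2e} M^{-e}` (`AR_blk`, `BL_blk`).
Cauchy-Schwarz with the weights `r^i`, `r = 2^{-e/2}` (`geo_interval`); Fatou for the limit `K → ∞` (`fatou_interval`).
-/

set_option autoImplicit false

open Complex Filter Topology MeasureTheory Set
open scoped ComplexConjugate

namespace Pool.Agent.H15.SC

variable {D : SelData}

theorem continuous_ln (c : ℝ) : Continuous (ln c) := by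
  unfold ln; fun_prop

theorem ln_ne_zero {c : ℝ} (hc : c ≠ 0) (v : ℝ) : ln c v ≠ 0 := by
  intro h
  have := congrArg Complex.re h
  simp at this
  exact hc this

theorem norm_ln_le (c v : ℝ) : ‖ln c v‖ ≤ |c| + |v| := by
  have := Complex.norm_le_abs_re_add_abs_im (ln c v)
  simpa using this

theorem norm_gk_le (D : SelData) {U : ℝ} (hU : 1 ≤ U) {c : ℝ} (hc : c ≠ 0) (t v : ℝ) :
    ‖gk D U c t v‖ ≤ ((3 + 2 * |c|) ^ D.m * U ^ c * Real.exp (c ^ 2) / |c|) *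
      ((1 + |v|) ^ (D.m : ℝ) * Real.exp (-(v ^ 2 / (1 : ℝ) ^ 2))) := by
  have hU0 : 0 < U := by linarith
  have hc0 : 0 < |c| := abs_pos.mpr hc
  have h1 : ‖(ln (1/2) t + ln c v - 1) / (ln (1/2) t - 1)‖ ≤ (3 + 2 * |c|) * (1 + |v|) := by
    have hre : (ln (1/2) t - 1).re = -(1/2) := by simp; norm_num
    have hn : (1/2 : ℝ) ≤ ‖ln (1/2) t - 1‖ := by
      have := Complex.abs_re_le_norm (ln (1/2) t - 1)
      rw [hre] at this
      norm_num at this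
      linarith
    have hne : ln (1/2) t - 1 ≠ 0 := by
      intro h0
      rw [h0] at hn; norm_num at hn
    have e1 : (ln (1/2) t + ln c v - 1) / (ln (1/2) t - 1) = 1 + ln c v / (ln (1/2) t - 1) := by
      field_simp
      ring
    rw [e1]
    have h2 : ‖ln c v / (ln (1/2) t - 1)‖ ≤ 2 * (|c| + |v|) := by
      rw [norm_div, div_le_iff₀ (by linarith)]
      have := norm_ln_le c v
      have h3 : 0 ≤ |c| + |v| := by positivity
      nlinarith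
    have h4 := norm_add_le (1 : ℂ) (ln c v / (ln (1/2) t - 1))
    rw [norm_one] at h4
    have h5 : 0 ≤ |c| * |v| := by positivity
    have h6 : 0 ≤ |v| := abs_nonneg v
    nlinarith
  have h2 : ‖(U : ℂ) ^ (ln c v)‖ = U ^ c := by
    rw [Complex.norm_cpow_eq_rpow_re_of_pos hU0, ln_re]
  have h3 : ‖cexp ((ln c v) ^ 2)‖ = Real.exp (c ^ 2) * Real.exp (-(v ^ 2 / (1 : ℝ) ^ 2)) := by
    rw [Complex.norm_exp, ← Real.exp_add]
    congr 1
    simp [ln, sq]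
    ring
  have h4 : |c| ≤ ‖ln c v‖ := by
    have := Complex.abs_re_le_norm (ln c v)
    rwa [ln_re] at this
  unfold gk
  rw [norm_div, norm_mul, norm_mul, norm_pow, h2, h3]
  have h5 : ‖(ln (1/2) t + ln c v - 1) / (ln (1/2) t - 1)‖ ^ D.m ≤
      (3 + 2 * |c|) ^ D.m * (1 + |v|) ^ (D.m : ℝ) := by
    rw [Real.rpow_natCast, ← mul_pow]
    exact pow_le_pow_left₀ (norm_nonneg _) h1 _
  have h6 : 0 < U ^ c := Real.rpow_pos_of_pos hU0 _
  calc _ ≤ ((3 + 2 * |c|) ^ D.m * (1 + |v|) ^ (D.m : ℝ) * U ^ c *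
        (Real.exp (c ^ 2) * Real.exp (-(v ^ 2 / (1 : ℝ) ^ 2)))) / |c| := by
        gcongr
    _ = _ := by ring

theorem gk_continuous (D : SelData) {U : ℝ} (hU : 1 ≤ U) {c : ℝ} (hc : c ≠ 0) (t : ℝ) :
    Continuous fun v => gk D U c t v := by
  have hU0 : (U : ℂ) ≠ 0 := by
    have : U ≠ 0 := by linarith
    exact_mod_cast this
  have h1 := continuous_ln c
  unfold gk
  refine Continuous.div ?_ h1 (fun v => ln_ne_zero hc v)
  refine Continuous.mul (Continuous.mul ?_ ?_) ?_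
  · exact (Continuous.div_const ((continuous_const.add h1).sub continuous_const) _).pow _
  · exact h1.const_cpow (Or.inl hU0)
  · exact Complex.continuous_exp.comp (h1.pow 2)

theorem gk_integrable (D : SelData) {U : ℝ} (hU : 1 ≤ U) {c : ℝ} (hc : c ≠ 0) (t : ℝ) (Ψ : ℝ → ℂ)
    (hΨ : Continuous Ψ) (B p : ℝ) (hb : ∀ v, ‖Ψ v‖ ≤ B * (1 + |v|) ^ p) :
    Integrable (fun v => gk D U c t v * Ψ v) := by
  have hI := integrable_pow_gauss ((D.m : ℝ) + p) (W := 1) one_pos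
  have hI2 := hI.const_mul (((3 + 2 * |c|) ^ D.m * U ^ c * Real.exp (c ^ 2) / |c|) * B)
  refine hI2.mono' ((gk_continuous D hU hc t).mul hΨ).aestronglyMeasurable (Eventually.of_forall fun v => ?_)
  rw [norm_mul]
  have h1 := norm_gk_le D hU hc t v
  have h2 := hb v
  have hv : 0 < 1 + |v| := by positivity
  refine (mul_le_mul h1 h2 (norm_nonneg _) (le_trans (norm_nonneg _) h1)).trans (le_of_eq ?_)
  rw [Real.rpow_add hv]
  ring

theorem sumA_continuous (D : SelData) (c t : ℝ) (S : Finset ℕ) (hS : ∀ n ∈ S, 1 ≤ n) :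
    Continuous fun v : ℝ => ∑ n ∈ S, (D.f n : ℂ) * (n : ℂ) ^ (-(ln (1/2) t + ln c v)) := by
  refine continuous_finsetSum _ (fun n hn => continuous_const.mul ?_)
  have hn0 : (n : ℂ) ≠ 0 := by
    have := hS n hn
    exact_mod_cast (by omega : n ≠ 0)
  exact ((continuous_const.add (continuous_ln c)).neg).const_cpow (Or.inl hn0)

theorem sumA_bound (D : SelData) (c t : ℝ) (S : Finset ℕ) (hS : ∀ n ∈ S, 1 ≤ n) (v : ℝ) :
    ‖∑ n ∈ S, (D.f n : ℂ) * (n : ℂ) ^ (-(ln (1/2) t + ln c v))‖ ≤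
      (∑ n ∈ S, |D.f n| * (n : ℝ) ^ (-(1/2 + c))) * (1 + |v|) ^ (0 : ℝ) := by
  rw [Real.rpow_zero, mul_one]
  refine (norm_sum_le _ _).trans (Finset.sum_le_sum fun n hn => ?_)
  have hn0 : (0 : ℝ) < n := by
    have := hS n hn
    exact_mod_cast this
  have h2 : ‖(n : ℂ) ^ (-(ln (1/2) t + ln c v))‖ = (n : ℝ) ^ (-(1/2 + c)) := by
    have := Complex.norm_cpow_eq_rpow_re_of_pos hn0 (-(ln (1/2) t + ln c v))
    simpa using this
  rw [norm_mul, h2, Complex.norm_real, Real.norm_eq_abs]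

theorem sumB_continuous (D : SelData) (c t : ℝ) (S : Finset ℕ) (hS : ∀ n ∈ S, 1 ≤ n) :
    Continuous fun v : ℝ => ∑ n ∈ S, (D.f n : ℂ) * (n : ℂ) ^ (ln (1/2) t + ln c v - 1) := by
  refine continuous_finsetSum _ (fun n hn => continuous_const.mul ?_)
  have hn0 : (n : ℂ) ≠ 0 := by
    have := hS n hn
    exact_mod_cast (by omega : n ≠ 0)
  exact ((continuous_const.add (continuous_ln c)).sub continuous_const).const_cpow (Or.inl hn0)

theorem sumB_bound (D : SelData) (c t : ℝ) (S : Finset ℕ) (hS : ∀ n ∈ S, 1 ≤ n) (v : ℝ) :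
    ‖∑ n ∈ S, (D.f n : ℂ) * (n : ℂ) ^ (ln (1/2) t + ln c v - 1)‖ ≤
      ∑ n ∈ S, |D.f n| * (n : ℝ) ^ (1/2 + c - 1) := by
  refine (norm_sum_le _ _).trans (Finset.sum_le_sum fun n hn => ?_)
  have hn0 : (0 : ℝ) < n := by
    have := hS n hn
    exact_mod_cast this
  have h2 : ‖(n : ℂ) ^ (ln (1/2) t + ln c v - 1)‖ = (n : ℝ) ^ (1/2 + c - 1) := by
    have := Complex.norm_cpow_eq_rpow_re_of_pos hn0 (ln (1/2) t + ln c v - 1)
    simpa using this
  rw [norm_mul, h2, Complex.norm_real, Real.norm_eq_abs]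

theorem AR_integrable (D : SelData) {U : ℝ} (hU : 1 ≤ U) {c : ℝ} (hc : 0 < c) (S : Finset ℕ)
    (hS : ∀ n ∈ S, 1 ≤ n) (t : ℝ) : Integrable fun v : ℝ => gk D U c t v *
      ∑ n ∈ S, (D.f n : ℂ) * (n : ℂ) ^ (-(ln (1/2) t + ln c v)) :=
  gk_integrable D hU hc.ne' t _ (sumA_continuous D c t S hS) _ 0 (sumA_bound D c t S hS)

theorem BL_integrable (h : IsSel D 2) {U : ℝ} (hU : 1 ≤ U) {c : ℝ} (hc : c < 0) (hc1 : -(5/4) ≤ c) (S : Finset ℕ)
    (hS : ∀ n ∈ S, 1 ≤ n) (t : ℝ) : Integrable fun v : ℝ => gk D U c t v * D.chi (ln (1/2) t + ln c v) *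
      ∑ n ∈ S, (D.f n : ℂ) * (n : ℂ) ^ (ln (1/2) t + ln c v - 1) := by
  obtain ⟨C, hC, hchi⟩ := chi_bound h
  have hcc : Continuous fun v : ℝ => D.chi (ln (1/2) t + ln c v) := by
    have hd := (chi_diff h).continuousOn
    refine hd.comp_continuous (continuous_const.add (continuous_ln c)) (fun v => ?_)
    simp only [mem_ofPred_eq, add_re, ln_re]
    linarith
  have hI := gk_integrable D hU hc.ne t (fun v => D.chi (ln (1/2) t + ln c v) *
      ∑ n ∈ S, (D.f n : ℂ) * (n : ℂ) ^ (ln (1/2) t + ln c v - 1))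
      (hcc.mul (sumB_continuous D c t S hS))
      (C * (1 + |t|) ^ (-(2 * c)) * ∑ n ∈ S, |D.f n| * (n : ℝ) ^ (1/2 + c - 1)) (-(2 * c)) ?_
  · refine hI.congr (Eventually.of_forall fun v => ?_)
    simp only [mul_assoc]
  · intro v
    rw [norm_mul]
    have h1 := hchi (ln (1/2) t + ln c v) (by simp only [add_re, ln_re]; linarith)
      (by simp only [add_re, ln_re]; linarith)
    have h2 := sumB_bound D c t S hS v
    have e1 : (2 : ℝ) * (1/2 - (ln (1/2) t + ln c v).re) = -(2 * c) := by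
      simp only [add_re, ln_re]; ring
    have e2 : (ln (1/2) t + ln c v).im = t + v := by simp
    rw [e1, e2] at h1
    have h3 : (1 + |t + v|) ^ (-(2 * c)) ≤ ((1 + |t|) * (1 + |v|)) ^ (-(2 * c)) := by
      refine Real.rpow_le_rpow (by positivity) ?_ (by linarith)
      have := abs_add_le t v
      have h4 : 0 ≤ |t| * |v| := by positivity
      nlinarith
    rw [Real.mul_rpow (by positivity) (by positivity)] at h3
    have h5 : 0 ≤ ∑ n ∈ S, |D.f n| * (n : ℝ) ^ (1/2 + c - 1) := (norm_nonneg _).trans h2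
    calc _ ≤ (C * ((1 + |t|) ^ (-(2 * c)) * (1 + |v|) ^ (-(2 * c)))) *
          ∑ n ∈ S, |D.f n| * (n : ℝ) ^ (1/2 + c - 1) := by
            refine mul_le_mul (h1.trans (mul_le_mul_of_nonneg_left h3 hC)) h2 (norm_nonneg _) (by positivity)
      _ = _ := by ring

theorem pow_split (K : ℕ) : (1 : ℕ) ≤ 2 ^ K ∧ 2 ^ K ≤ 2 ^ (K + 1) ∧ 2 * 2 ^ K = 2 ^ (K + 1) := by
  refine ⟨Nat.one_le_two_pow, Nat.pow_le_pow_right (by norm_num) (by omega), by ring⟩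

theorem mem_blk {K n : ℕ} (h : n ∈ Finset.Ico (2 ^ K) (2 * 2 ^ K)) : 1 ≤ n :=
  (pow_split K).1.trans (Finset.mem_Ico.mp h).1

theorem AR_sum (D : SelData) {U : ℝ} (hU : 1 ≤ U) {c : ℝ} (hc : 0 < c) (t : ℝ) (K : ℕ) :
    AR D U c (Finset.Ico 1 (2 ^ K)) t = ∑ i ∈ Finset.range K, AR D U c (Finset.Ico (2 ^ i) (2 * 2 ^ i)) t := by
  induction K with
  | zero => simp [AR]
  | succ K ih =>
    rw [Finset.sum_range_succ, ← ih]
    unfold AR
    rw [← mul_add, ← integral_add (AR_integrable D hU hc _ (fun n hn => (Finset.mem_Ico.mp hn).1) t)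
      (AR_integrable D hU hc _ (fun n hn => mem_blk hn) t)]
    congr 1
    refine integral_congr_ae (Eventually.of_forall fun v => ?_)
    simp only
    rw [← mul_add, (pow_split K).2.2, Finset.sum_Ico_consecutive _ (pow_split K).1 (pow_split K).2.1]

theorem BL_sum (h : IsSel D 2) {U : ℝ} (hU : 1 ≤ U) {c : ℝ} (hc : c < 0) (hc1 : -(5/4) ≤ c) (t : ℝ) (K : ℕ) :
    BL D U c (Finset.Ico 1 (2 ^ K)) t = ∑ i ∈ Finset.range K, BL D U c (Finset.Ico (2 ^ i) (2 * 2 ^ i)) t := by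
  induction K with
  | zero => simp [BL]
  | succ K ih =>
    rw [Finset.sum_range_succ, ← ih]
    unfold BL
    rw [← mul_add, ← integral_add (BL_integrable h hU hc hc1 _ (fun n hn => (Finset.mem_Ico.mp hn).1) t)
      (BL_integrable h hU hc hc1 _ (fun n hn => mem_blk hn) t)]
    congr 1
    refine integral_congr_ae (Eventually.of_forall fun v => ?_)
    simp only
    rw [← mul_add, (pow_split K).2.2, Finset.sum_Ico_consecutive _ (pow_split K).1 (pow_split K).2.1]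

/-- Fatou on an interval -/
theorem fatou_interval {a b : ℝ} (hab : a ≤ b) (g : ℕ → ℝ → ℂ) (f : ℝ → ℂ) (hg : ∀ K, Continuous (g K))
    (hf : Continuous f) (hlim : ∀ t, Tendsto (fun K => g K t) atTop (𝓝 (f t))) (B : ℝ)
    (hB : ∀ K, ∫ t in a..b, ‖g K t‖ ^ 2 ≤ B) : ∫ t in a..b, ‖f t‖ ^ 2 ≤ B := by
  have hB0 : 0 ≤ B := le_trans (intervalIntegral.integral_nonneg hab (fun t _ => by positivity)) (hB 0)
  have key : ∀ k : ℝ → ℂ, Continuous k → ENNReal.ofReal (∫ t in a..b, ‖k t‖ ^ 2) =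
      ∫⁻ t in Ioc a b, ENNReal.ofReal (‖k t‖ ^ 2) := by
    intro k hk
    rw [intervalIntegral.integral_of_le hab]
    refine ofReal_integral_eq_lintegral_ofReal ?_ (Eventually.of_forall fun t => by positivity)
    have : Continuous fun t => ‖k t‖ ^ 2 := by fun_prop
    exact (this.integrableOn_Icc).mono_set Ioc_subset_Icc_self
  rw [← ENNReal.ofReal_le_ofReal_iff hB0, key f hf]
  have h1 : ∀ t, ENNReal.ofReal (‖f t‖ ^ 2) = liminf (fun K => ENNReal.ofReal (‖g K t‖ ^ 2)) atTop := by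
    intro t
    refine (Tendsto.liminf_eq ?_).symm
    exact ENNReal.tendsto_ofReal (((hlim t).norm).pow 2)
  simp_rw [h1]
  refine (lintegral_liminf_le fun K => ?_).trans ?_
  · have : Continuous fun t => ‖g K t‖ ^ 2 := by have := hg K; fun_prop
    exact this.measurable.ennreal_ofReal
  · have h2 : ∀ K, ∫⁻ t in Ioc a b, ENNReal.ofReal (‖g K t‖ ^ 2) ≤ ENNReal.ofReal B := by
      intro K
      rw [← key (g K) (hg K)]
      exact ENNReal.ofReal_le_ofReal (hB K)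
    refine (Filter.liminf_le_liminf (Eventually.of_forall h2)).trans ?_
    simp

/-- geometric sums of mean squares -/
theorem geo_interval {a b : ℝ} (hab : a ≤ b) (x : ℕ → ℝ → ℂ) (hx : ∀ i, Continuous (x i)) (A r : ℝ) (hA : 0 ≤ A)
    (hr0 : 0 < r) (hr1 : r < 1) (hb : ∀ i, ∫ t in a..b, ‖x i t‖ ^ 2 ≤ A * (r ^ 2) ^ i) (K : ℕ) :
    ∫ t in a..b, ‖∑ i ∈ Finset.range K, x i t‖ ^ 2 ≤ A / (1 - r) ^ 2 := by
  have hr : 0 < 1 - r := by linarith
  have hgeo : ∀ K : ℕ, ∑ i ∈ Finset.range K, r ^ i ≤ 1 / (1 - r) := by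
    intro K
    rw [le_div_iff₀ hr, ← neg_le_neg_iff]
    have := geom_sum_mul r K
    have h3 : 0 ≤ r ^ K := by positivity
    nlinarith
  have hpt : ∀ t, ‖∑ i ∈ Finset.range K, x i t‖ ^ 2 ≤ 1 / (1 - r) * ∑ i ∈ Finset.range K, ‖x i t‖ ^ 2 / r ^ i := by
    intro t
    have h1 : ‖∑ i ∈ Finset.range K, x i t‖ ^ 2 ≤ (∑ i ∈ Finset.range K, ‖x i t‖) ^ 2 :=
      pow_le_pow_left₀ (norm_nonneg _) (norm_sum_le _ _) 2
    have h2 : (∑ i ∈ Finset.range K, ‖x i t‖) ^ 2 ≤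
        (∑ i ∈ Finset.range K, r ^ i) * ∑ i ∈ Finset.range K, ‖x i t‖ ^ 2 / r ^ i := by
      refine Finset.sum_sq_le_sum_mul_sum_of_sq_le_mul _ (fun i _ => by positivity) (fun i _ => by positivity) ?_
      intro i _
      refine le_of_eq ?_
      have : r ^ i ≠ 0 := by positivity
      field_simp
    refine h1.trans (h2.trans (mul_le_mul_of_nonneg_right (hgeo K) ?_))
    exact Finset.sum_nonneg (fun i _ => by positivity)
  have hci : ∀ i, Continuous fun t => ‖x i t‖ ^ 2 / r ^ i := by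
    intro i
    have := hx i
    fun_prop
  have hcs : Continuous fun t => ‖∑ i ∈ Finset.range K, x i t‖ ^ 2 := by
    have : Continuous fun t => ∑ i ∈ Finset.range K, x i t := continuous_finsetSum _ (fun i _ => hx i)
    fun_prop
  have hcr : Continuous fun t => 1 / (1 - r) * ∑ i ∈ Finset.range K, ‖x i t‖ ^ 2 / r ^ i :=
    continuous_const.mul (continuous_finsetSum _ (fun i _ => hci i))
  refine (intervalIntegral.integral_mono_on hab (hcs.intervalIntegrable _ _) (hcr.intervalIntegrable _ _)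
    (fun t _ => hpt t)).trans ?_
  rw [intervalIntegral.integral_const_mul, intervalIntegral.integral_finsetSum
    (fun i _ => (hci i).intervalIntegrable _ _)]
  have h4 : ∀ i ∈ Finset.range K, ∫ t in a..b, ‖x i t‖ ^ 2 / r ^ i ≤ A * r ^ i := by
    intro i _
    rw [intervalIntegral.integral_div, div_le_iff₀ (by positivity)]
    refine (hb i).trans (le_of_eq ?_)
    rw [← pow_mul]
    ring
  have h5 : ∑ i ∈ Finset.range K, ∫ t in a..b, ‖x i t‖ ^ 2 / r ^ i ≤ A * (1 / (1 - r)) := by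
    refine (Finset.sum_le_sum h4).trans ?_
    rw [← Finset.mul_sum]
    exact mul_le_mul_of_nonneg_left (hgeo K) hA
  calc _ ≤ 1 / (1 - r) * (A * (1 / (1 - r))) := mul_le_mul_of_nonneg_left h5 (by positivity)
    _ = _ := by
      field_simp

theorem num_small {U M e : ℝ} (hM : 1 ≤ M) (hMU : M ≤ U) :
    U ^ (2 * e) * (U + M) * M ^ (-(2 * e) + e) ≤ 2 * U ^ (1 + 2 * e) * M ^ (-e) := by
  have hM0 : 0 < M := by linarith
  have hU0 : 0 < U := by linarith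
  have e1 : -(2 * e) + e = -e := by ring
  rw [e1, Real.rpow_add hU0, Real.rpow_one]
  have h1 : 0 < U ^ (2 * e) := Real.rpow_pos_of_pos hU0 _
  have h2 : 0 < M ^ (-e) := Real.rpow_pos_of_pos hM0 _
  have h3 : U ^ (2 * e) * (U + M) ≤ 2 * (U * U ^ (2 * e)) := by nlinarith
  exact mul_le_mul_of_nonneg_right h3 h2.le

theorem num_large {U M e κ : ℝ} (hU : 1 ≤ U) (hMU : U ≤ M) (hκ : 0 ≤ 2 * κ - 1 - 2 * e) :
    U ^ (2 * κ) * (U + M) * M ^ (-(2 * κ) + e) ≤ 2 * U ^ (1 + 2 * e) * M ^ (-e) := by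
  have hM0 : 0 < M := by linarith
  have hU0 : 0 < U := by linarith
  have e1 : U ^ (2 * κ) = U ^ (1 + 2 * e) * U ^ (2 * κ - 1 - 2 * e) := by
    rw [← Real.rpow_add hU0]; congr 1; ring
  have h1 : U ^ (2 * κ - 1 - 2 * e) ≤ M ^ (2 * κ - 1 - 2 * e) := Real.rpow_le_rpow hU0.le hMU hκ
  have e2 : M ^ (2 * κ - 1 - 2 * e) * M * M ^ (-(2 * κ) + e) = M ^ (-e) := by
    rw [← Real.rpow_add_one hM0.ne', ← Real.rpow_add hM0]; congr 1; ring
  have h2 : 0 < U ^ (1 + 2 * e) := Real.rpow_pos_of_pos hU0 _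
  have h3 : 0 < M ^ (-(2 * κ) + e) := Real.rpow_pos_of_pos hM0 _
  have h4 : 0 < M ^ (2 * κ - 1 - 2 * e) := Real.rpow_pos_of_pos hM0 _
  calc U ^ (2 * κ) * (U + M) * M ^ (-(2 * κ) + e)
      ≤ (U ^ (1 + 2 * e) * M ^ (2 * κ - 1 - 2 * e)) * (2 * M) * M ^ (-(2 * κ) + e) := by
        rw [e1]
        gcongr
        linarith
    _ = 2 * U ^ (1 + 2 * e) * (M ^ (2 * κ - 1 - 2 * e) * M * M ^ (-(2 * κ) + e)) := by ring
    _ = _ := by rw [e2]

theorem AR_blk (h : IsSel D 2) {e : ℝ} (he : 0 < e) (he4 : e ≤ 1/4) : ∃ C : ℝ, 0 ≤ C ∧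
    ∀ U : ℝ, 1 ≤ U → ∀ i : ℕ,
    ∫ t in U..(2 * U), ‖AR D U (3/4) (Finset.Ico (2 ^ i) (2 * 2 ^ i)) t‖ ^ 2 ≤
      C * U ^ (1 + 2 * e) * ((2 ^ i : ℕ) : ℝ) ^ (-e) := by
  obtain ⟨C1, hC1, h1⟩ := AR_block h e he he (by linarith : e ≤ 3/4)
  obtain ⟨C2, hC2, h2⟩ := AR_block h e he (by norm_num : (0 : ℝ) < 3/4) le_rfl
  refine ⟨2 * C1 + 2 * C2, by positivity, fun U hU i => ?_⟩
  have hU0 : 0 < U := by linarith
  have hM1 : (1 : ℝ) ≤ ((2 ^ i : ℕ) : ℝ) := by exact_mod_cast (pow_split i).1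
  have hMn : 1 ≤ 2 ^ i := (pow_split i).1
  have hpos : 0 ≤ U ^ (1 + 2 * e) * ((2 ^ i : ℕ) : ℝ) ^ (-e) := by positivity
  rcases le_total ((2 ^ i : ℕ) : ℝ) U with hMU | hMU
  · have e1 : ∀ t, AR D U (3/4) (Finset.Ico (2 ^ i) (2 * 2 ^ i)) t =
        AR D U e (Finset.Ico (2 ^ i) (2 * 2 ^ i)) t := fun t =>
      AR_shift hU he (by linarith) _ (fun n hn => mem_blk hn) t
    simp_rw [e1]
    refine (h1 U hU (2 ^ i) hMn).trans ?_
    have h3 := num_small (e := e) hM1 hMU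
    have h4 : C1 * U ^ (2 * e) * (U + ((2 ^ i : ℕ) : ℝ)) * ((2 ^ i : ℕ) : ℝ) ^ (-(2 * e) + e) ≤
        C1 * (2 * U ^ (1 + 2 * e) * ((2 ^ i : ℕ) : ℝ) ^ (-e)) := by
      calc _ = C1 * (U ^ (2 * e) * (U + ((2 ^ i : ℕ) : ℝ)) * ((2 ^ i : ℕ) : ℝ) ^ (-(2 * e) + e)) := by ring
        _ ≤ _ := mul_le_mul_of_nonneg_left h3 hC1
    refine h4.trans ?_
    nlinarith
  · refine (h2 U hU (2 ^ i) hMn).trans ?_
    have h3 := num_large (e := e) (κ := 3/4) hU hMU (by linarith)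
    have h4 : C2 * U ^ (2 * (3/4 : ℝ)) * (U + ((2 ^ i : ℕ) : ℝ)) * ((2 ^ i : ℕ) : ℝ) ^ (-(2 * (3/4 : ℝ)) + e) ≤
        C2 * (2 * U ^ (1 + 2 * e) * ((2 ^ i : ℕ) : ℝ) ^ (-e)) := by
      calc _ = C2 * (U ^ (2 * (3/4 : ℝ)) * (U + ((2 ^ i : ℕ) : ℝ)) *
            ((2 ^ i : ℕ) : ℝ) ^ (-(2 * (3/4 : ℝ)) + e)) := by ring
        _ ≤ _ := mul_le_mul_of_nonneg_left h3 hC2
    refine h4.trans ?_
    nlinarith

theorem BL_blk (h : IsSel D 2) {e : ℝ} (he : 0 < e) (he4 : e ≤ 1/4) : ∃ C : ℝ, 0 ≤ C ∧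
    ∀ U : ℝ, 1 ≤ U → ∀ i : ℕ,
    ∫ t in U..(2 * U), ‖BL D U (-(5/4)) (Finset.Ico (2 ^ i) (2 * 2 ^ i)) t‖ ^ 2 ≤
      C * U ^ (1 + 2 * e) * ((2 ^ i : ℕ) : ℝ) ^ (-e) := by
  obtain ⟨C1, hC1, h1⟩ := BL_block h e he (by linarith : -e < 0) (by linarith)
  obtain ⟨C2, hC2, h2⟩ := BL_block h e he (by norm_num : (-(5/4) : ℝ) < 0) le_rfl
  refine ⟨2 * C1 + 2 * C2, by positivity, fun U hU i => ?_⟩
  have hU0 : 0 < U := by linarith
  have hM1 : (1 : ℝ) ≤ ((2 ^ i : ℕ) : ℝ) := by exact_mod_cast (pow_split i).1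
  have hMn : 1 ≤ 2 ^ i := (pow_split i).1
  have hpos : 0 ≤ U ^ (1 + 2 * e) * ((2 ^ i : ℕ) : ℝ) ^ (-e) := by positivity
  rcases le_total ((2 ^ i : ℕ) : ℝ) U with hMU | hMU
  · have e1 : ∀ t, BL D U (-(5/4)) (Finset.Ico (2 ^ i) (2 * 2 ^ i)) t =
        BL D U (-e) (Finset.Ico (2 ^ i) (2 * 2 ^ i)) t := fun t =>
      BL_shift h hU (by linarith) (by linarith) _ (fun n hn => mem_blk hn) t
    simp_rw [e1]
    refine (h1 U hU (2 ^ i) hMn).trans ?_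
    have h3 := num_small (e := e) hM1 hMU
    have h4 : C1 * U ^ (-(2 * -e)) * (U + ((2 ^ i : ℕ) : ℝ)) * ((2 ^ i : ℕ) : ℝ) ^ (2 * -e + e) ≤
        C1 * (2 * U ^ (1 + 2 * e) * ((2 ^ i : ℕ) : ℝ) ^ (-e)) := by
      have e5 : -(2 * -e) = 2 * e := by ring
      have e6 : 2 * -e + e = -(2 * e) + e := by ring
      rw [e5, e6]
      calc _ = C1 * (U ^ (2 * e) * (U + ((2 ^ i : ℕ) : ℝ)) * ((2 ^ i : ℕ) : ℝ) ^ (-(2 * e) + e)) := by ring
        _ ≤ _ := mul_le_mul_of_nonneg_left h3 hC1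
    refine h4.trans ?_
    nlinarith
  · refine (h2 U hU (2 ^ i) hMn).trans ?_
    have h3 := num_large (e := e) (κ := 5/4) hU hMU (by linarith)
    have h4 : C2 * U ^ (-(2 * (-(5/4) : ℝ))) * (U + ((2 ^ i : ℕ) : ℝ)) *
          ((2 ^ i : ℕ) : ℝ) ^ (2 * (-(5/4) : ℝ) + e) ≤
        C2 * (2 * U ^ (1 + 2 * e) * ((2 ^ i : ℕ) : ℝ) ^ (-e)) := by
      have e5 : -(2 * (-(5/4) : ℝ)) = 2 * (5/4) := by ring
      have e6 : 2 * (-(5/4) : ℝ) + e = -(2 * (5/4)) + e := by ring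
      rw [e5, e6]
      calc _ = C2 * (U ^ (2 * (5/4 : ℝ)) * (U + ((2 ^ i : ℕ) : ℝ)) *
            ((2 ^ i : ℕ) : ℝ) ^ (-(2 * (5/4 : ℝ)) + e)) := by ring
        _ ≤ _ := mul_le_mul_of_nonneg_left h3 hC2
    refine h4.trans ?_
    nlinarith

theorem mom_two_dyadic (h : IsSel D 2) (ε : ℝ) (hε : 0 < ε) : ∃ C : ℝ, 0 ≤ C ∧ ∀ U : ℝ, 1 ≤ U →
    ∫ t in U..(2 * U), ‖D.F (ln (1/2) t)‖ ^ 2 ≤ C * U ^ (1 + ε) := by
  obtain ⟨e, he, he4, heε⟩ : ∃ e : ℝ, 0 < e ∧ e ≤ 1/4 ∧ 2 * e ≤ ε :=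
    ⟨min (ε/2) (1/4), by positivity, min_le_right _ _, by linarith [min_le_left (ε/2) (1/4)]⟩
  obtain ⟨C1, hC1, h1⟩ := AR_blk h he he4
  obtain ⟨C2, hC2, h2⟩ := BL_blk h he he4
  obtain ⟨r, hr⟩ : ∃ r : ℝ, r = (2 : ℝ) ^ (-(e/2)) := ⟨_, rfl⟩
  have hr0 : 0 < r := by rw [hr]; positivity
  have hr1 : r < 1 := by rw [hr]; exact Real.rpow_lt_one_of_one_lt_of_neg (by norm_num) (by linarith)
  have hrM : ∀ i : ℕ, ((2 ^ i : ℕ) : ℝ) ^ (-e) = (r ^ 2) ^ i := by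
    intro i
    rw [hr, ← Real.rpow_natCast (_ ^ (-(e/2))) 2, ← Real.rpow_mul (by norm_num : (0 : ℝ) ≤ 2),
      ← Real.rpow_natCast, ← Real.rpow_mul (by norm_num : (0 : ℝ) ≤ 2)]
    push_cast
    rw [← Real.rpow_natCast, ← Real.rpow_mul (by norm_num : (0 : ℝ) ≤ 2)]
    congr 1
    ring
  refine ⟨(2 * C1 + 2 * C2) / (1 - r) ^ 2, by positivity, fun U hU => ?_⟩
  have hU0 : 0 < U := by linarith
  have hab : U ≤ 2 * U := by linarith
  have hcA : ∀ i, Continuous (AR D U (3/4) (Finset.Ico (2 ^ i) (2 * 2 ^ i))) := fun i =>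
    AR_continuous h hU (by norm_num) le_rfl _ (fun n hn => mem_blk hn)
  have hcB : ∀ i, Continuous (BL D U (-(5/4)) (Finset.Ico (2 ^ i) (2 * 2 ^ i))) := fun i =>
    BL_continuous h hU (by norm_num) le_rfl _ (fun n hn => mem_blk hn)
  have hx : ∀ i, Continuous fun t => AR D U (3/4) (Finset.Ico (2 ^ i) (2 * 2 ^ i)) t -
      BL D U (-(5/4)) (Finset.Ico (2 ^ i) (2 * 2 ^ i)) t := fun i => (hcA i).sub (hcB i)
  have hxb : ∀ i, ∫ t in U..(2 * U), ‖AR D U (3/4) (Finset.Ico (2 ^ i) (2 * 2 ^ i)) t -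
      BL D U (-(5/4)) (Finset.Ico (2 ^ i) (2 * 2 ^ i)) t‖ ^ 2 ≤
      ((2 * C1 + 2 * C2) * U ^ (1 + 2 * e)) * (r ^ 2) ^ i := by
    intro i
    have hA := h1 U hU i
    have hB := h2 U hU i
    rw [hrM] at hA hB
    have c1 : Continuous fun t => 2 * ‖AR D U (3/4) (Finset.Ico (2 ^ i) (2 * 2 ^ i)) t‖ ^ 2 := by
      have := hcA i; fun_prop
    have c2 : Continuous fun t => 2 * ‖BL D U (-(5/4)) (Finset.Ico (2 ^ i) (2 * 2 ^ i)) t‖ ^ 2 := by
      have := hcB i; fun_prop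
    have c3 : Continuous fun t => ‖AR D U (3/4) (Finset.Ico (2 ^ i) (2 * 2 ^ i)) t -
      BL D U (-(5/4)) (Finset.Ico (2 ^ i) (2 * 2 ^ i)) t‖ ^ 2 := (hx i).norm.pow 2
    have h3 : ∫ t in U..(2 * U), ‖AR D U (3/4) (Finset.Ico (2 ^ i) (2 * 2 ^ i)) t -
      BL D U (-(5/4)) (Finset.Ico (2 ^ i) (2 * 2 ^ i)) t‖ ^ 2 ≤
        ∫ t in U..(2 * U), (2 * ‖AR D U (3/4) (Finset.Ico (2 ^ i) (2 * 2 ^ i)) t‖ ^ 2 +
          2 * ‖BL D U (-(5/4)) (Finset.Ico (2 ^ i) (2 * 2 ^ i)) t‖ ^ 2) := by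
      refine intervalIntegral.integral_mono_on hab (c3.intervalIntegrable _ _) ((c1.add c2).intervalIntegrable _ _)
        (fun t _ => ?_)
      have h4 := norm_sub_le (AR D U (3/4) (Finset.Ico (2 ^ i) (2 * 2 ^ i)) t)
        (BL D U (-(5/4)) (Finset.Ico (2 ^ i) (2 * 2 ^ i)) t)
      have h5 := norm_nonneg (AR D U (3/4) (Finset.Ico (2 ^ i) (2 * 2 ^ i)) t -
        BL D U (-(5/4)) (Finset.Ico (2 ^ i) (2 * 2 ^ i)) t)
      have h6 := sq_nonneg (‖AR D U (3/4) (Finset.Ico (2 ^ i) (2 * 2 ^ i)) t‖ -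
        ‖BL D U (-(5/4)) (Finset.Ico (2 ^ i) (2 * 2 ^ i)) t‖)
      nlinarith
    refine h3.trans ?_
    rw [intervalIntegral.integral_add (c1.intervalIntegrable _ _) (c2.intervalIntegrable _ _),
      intervalIntegral.integral_const_mul, intervalIntegral.integral_const_mul]
    nlinarith
  have hmain : ∫ t in U..(2 * U), ‖D.F (ln (1/2) t)‖ ^ 2 ≤
      ((2 * C1 + 2 * C2) * U ^ (1 + 2 * e)) / (1 - r) ^ 2 := by
    refine fatou_interval hab (fun K t => ∑ i ∈ Finset.range K, (AR D U (3/4) (Finset.Ico (2 ^ i) (2 * 2 ^ i)) t -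
      BL D U (-(5/4)) (Finset.Ico (2 ^ i) (2 * 2 ^ i)) t)) _ ?_ (F_half_cont h) ?_ _ ?_
    · intro K
      exact continuous_finsetSum _ (fun i _ => hx i)
    · intro t
      refine (afe h hU t).congr (fun K => ?_)
      rw [AR_sum D hU (by norm_num) t K, BL_sum h hU (by norm_num) le_rfl t K, Finset.sum_sub_distrib]
    · intro K
      exact geo_interval hab _ hx _ r (by positivity) hr0 hr1 hxb K
  refine hmain.trans ?_
  have h7 : U ^ (1 + 2 * e) ≤ U ^ (1 + ε) := Real.rpow_le_rpow_of_exponent_le hU (by linarith)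
  have h8 : 0 < (1 - r) ^ 2 := by
    have : 0 < 1 - r := by linarith
    positivity
  rw [div_mul_eq_mul_div]
  gcongr

theorem norm_F_neg {d : ℝ} (h : IsSel D d) (t : ℝ) : ‖D.F (ln (1/2) (-t))‖ = ‖D.F (ln (1/2) t)‖ := by
  have e1 : ln (1/2) (-t) = conj (ln (1/2) t) := by
    apply Complex.ext <;> simp
  have e2 : D.F (conj (ln (1/2) t)) = conj (D.F (ln (1/2) t)) := by
    unfold SelData.F
    rw [conj_H h, map_div₀, map_pow, map_sub, map_one]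
  rw [e1, e2, Complex.norm_conj]

theorem mom_two (h : IsSel D 2) (ε : ℝ) (hε : 0 < ε) : Mom D (1 + ε) := by
  obtain ⟨C, hC, hd⟩ := mom_two_dyadic h ε hε
  have hcont : Continuous fun t : ℝ => ‖D.F (ln (1/2) t)‖ ^ 2 := (F_half_cont h).norm.pow 2
  have hint : ∀ a b : ℝ, IntervalIntegrable (fun t : ℝ => ‖D.F (ln (1/2) t)‖ ^ 2) volume a b :=
    fun a b => hcont.intervalIntegrable a b
  obtain ⟨x, hx⟩ : ∃ x : ℝ, x = (2 : ℝ) ^ (1 + ε) := ⟨_, rfl⟩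
  have hx2 : 2 ≤ x := by
    rw [hx]
    calc (2 : ℝ) = 2 ^ (1 : ℝ) := (Real.rpow_one 2).symm
      _ ≤ _ := Real.rpow_le_rpow_of_exponent_le (by norm_num) (by linarith)
  obtain ⟨P, hP⟩ : ∃ P : ℝ, P = ∫ t in (0 : ℝ)..1, ‖D.F (ln (1/2) t)‖ ^ 2 := ⟨_, rfl⟩
  have hP0 : 0 ≤ P := by
    rw [hP]; exact intervalIntegral.integral_nonneg zero_le_one (fun t _ => by positivity)
  have hpow : ∀ n : ℕ, ((2 : ℝ) ^ n) ^ (1 + ε) = x ^ n := by
    intro n
    rw [hx, ← Real.rpow_natCast, ← Real.rpow_natCast, ← Real.rpow_mul (by norm_num), ← Real.rpow_mul (by norm_num),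
      mul_comm]
  have hstep : ∀ n : ℕ, ∫ t in (0 : ℝ)..(2 ^ n), ‖D.F (ln (1/2) t)‖ ^ 2 ≤ P + 2 * C * x ^ n := by
    intro n
    induction n with
    | zero =>
      rw [pow_zero, pow_zero, ← hP]
      linarith
    | succ n ih =>
      have h1 := hd (2 ^ n) (one_le_pow₀ (by norm_num))
      rw [hpow] at h1
      have e1 : (2 : ℝ) * 2 ^ n = 2 ^ (n + 1) := by ring
      rw [e1] at h1
      rw [← intervalIntegral.integral_add_adjacent_intervals (hint 0 (2 ^ n)) (hint (2 ^ n) (2 ^ (n + 1)))]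
      have h2 : 0 ≤ C * x ^ n := by positivity
      have h3 : x ^ (n + 1) = x * x ^ n := by ring
      rw [h3]
      nlinarith
  refine ⟨2 * P + 4 * C * 2 ^ (1 + ε), by positivity, fun U hU => ?_⟩
  have hU0 : 0 < U := by linarith
  obtain ⟨n, hn1, hn2⟩ := exists_nat_pow_near hU (by norm_num : (1 : ℝ) < 2)
  have h1 : ∫ t in (0 : ℝ)..U, ‖D.F (ln (1/2) t)‖ ^ 2 ≤ P + 2 * C * (2 * U) ^ (1 + ε) := by
    have h2 : ∫ t in (0 : ℝ)..U, ‖D.F (ln (1/2) t)‖ ^ 2 ≤ ∫ t in (0 : ℝ)..(2 ^ (n + 1)), ‖D.F (ln (1/2) t)‖ ^ 2 := by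
      rw [← intervalIntegral.integral_add_adjacent_intervals (hint 0 U) (hint U (2 ^ (n + 1)))]
      have := intervalIntegral.integral_nonneg (μ := volume) (f := fun t : ℝ => ‖D.F (ln (1/2) t)‖ ^ 2) hn2.le
        (fun t _ => by positivity)
      linarith
    have h3 : x ^ (n + 1) ≤ (2 * U) ^ (1 + ε) := by
      rw [← hpow]
      refine Real.rpow_le_rpow (by positivity) ?_ (by linarith)
      rw [pow_succ]; linarith
    have h4 := hstep (n + 1)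
    have h5 : 2 * C * x ^ (n + 1) ≤ 2 * C * (2 * U) ^ (1 + ε) := mul_le_mul_of_nonneg_left h3 (by positivity)
    linarith
  have h6 : ∫ t in (-U)..(0 : ℝ), ‖D.F (ln (1/2) t)‖ ^ 2 = ∫ t in (0 : ℝ)..U, ‖D.F (ln (1/2) t)‖ ^ 2 := by
    have := intervalIntegral.integral_comp_neg (a := 0) (b := U) (fun t : ℝ => ‖D.F (ln (1/2) t)‖ ^ 2)
    rw [neg_zero] at this
    rw [← this]
    refine intervalIntegral.integral_congr (fun t _ => ?_)
    rw [norm_F_neg h]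
  rw [← intervalIntegral.integral_add_adjacent_intervals (hint (-U) 0) (hint 0 U), h6]
  have h7 : 1 ≤ U ^ (1 + ε) := Real.one_le_rpow hU (by linarith)
  have h8 : (2 * U) ^ (1 + ε) = 2 ^ (1 + ε) * U ^ (1 + ε) := Real.mul_rpow (by norm_num) hU0.le
  rw [h8] at h1
  nlinarith

end Pool.Agent.H15.SC
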