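import Pool.Agent.H15.SC.PsiL
import Pool.Agent.H15.SC.HFa
import Pool.Agent.H15.SC.Res

/-!
# SC-26  second moment of `F₂ = L(s,ψ) G`, `G` of degree 2  (project SC, MP_be4568_nt)

For `re s > 1`: `L(s, f₂) = L(s,ψ) L(s,g)` (`LSeries_convolution` / `LSeries.convolution`, with `f₂ n = ∑_{k ∣ n} ψ(n/k) g(k)`; both series
converge absolutely: `hG.ram`, `ψ` bounded).  So `H₂(s) (s-1)^{m_G+1} = (s-1)^{m₂} Z(s) H_G(s)` for `re s > 1`, hence for `re s > 0`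
(identity theorem on the connected set `re s > 0`), and on `re s = 1/2`: `F₂ = (Z/(s-1)) F_G`.
For `|t| ≥ 1`: `|Z/(s-1)|² ≤ C |t|^{1/3+2ε'}`; dyadic blocks `|t| ∈ [2^j, 2^{j+1})` up to `U` and `Mom G (1+ε')`; `|t| ≤ 1` by
continuity (`F_half_cont`).
-/

set_option autoImplicit false

open Complex Filter Topology MeasureTheory Set

namespace Pool.Agent.H15.SC

theorem mst_bdd (q : ℕ) (hq : 1 ≤ q) (ψ : ℕ → ℝ) (hψ : ∀ n, ψ (n + q) = ψ n) : ∃ M : ℝ, ∀ n, |ψ n| ≤ M := by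
  refine ⟨∑ i ∈ Finset.range q, |ψ i|, fun n => ?_⟩
  have hper : Function.Periodic ψ q := hψ
  rw [← hper.map_mod_nat n]
  exact Finset.single_le_sum (f := fun i => |ψ i|) (fun i _ => abs_nonneg _)
    (Finset.mem_range.2 (Nat.mod_lt n (by omega)))

theorem mst_conv {D₂ G : SelData} {d₂ : ℝ} (hG : IsSel G d₂) (q : ℕ) (hq : 1 ≤ q) (ψ : ℕ → ℝ)
    (hψ : ∀ n, ψ (n + q) = ψ n) (hfac : ∀ n : ℕ, 1 ≤ n → D₂.f n = ∑ k ∈ n.divisors, ψ (n / k) * G.f k)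
    {s : ℂ} (hs : 1 < s.re) : LSeries (fun n => (D₂.f n : ℂ)) s =
      LSeries (fun n => (ψ n : ℂ)) s * LSeries (fun n => (G.f n : ℂ)) s := by
  obtain ⟨M, hM⟩ := mst_bdd q hq ψ hψ
  have h1 : LSeriesSummable (fun n => (ψ n : ℂ)) s :=
    LSeriesSummable_of_bounded_of_one_lt_re (m := M) (fun n _ => by simpa using hM n) hs
  rw [← LSeries_convolution' h1 (chid_summ hG hs)]
  refine LSeries_congr ?_ s
  intro n hn
  rw [LSeries.convolution_def, hfac n (Nat.one_le_iff_ne_zero.2 hn)]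
  have h := Nat.sum_divisorsAntidiagonal' (n := n) (fun a b => (ψ a : ℂ) * (G.f b : ℂ))
  show _ = ∑ p ∈ n.divisorsAntidiagonal, (ψ p.1 : ℂ) * (G.f p.2 : ℂ)
  rw [h]
  push_cast
  rfl

theorem mst_ident {D₂ G : SelData} {d₂ d₃ : ℝ} (h₂ : IsSel D₂ d₃) (hG : IsSel G d₂) (q : ℕ) (hq : 1 ≤ q) (ψ : ℕ → ℝ)
    (hψ : ∀ n, ψ (n + q) = ψ n) (hfac : ∀ n : ℕ, 1 ≤ n → D₂.f n = ∑ k ∈ n.divisors, ψ (n / k) * G.f k)
    (Z : ℂ → ℂ) (hZ : DifferentiableOn ℂ Z {s : ℂ | 0 < s.re})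
    (hZL : ∀ s : ℂ, 1 < s.re → Z s = (s - 1) * LSeries (fun n => (ψ n : ℂ)) s) {s : ℂ} (hs : 0 < s.re) :
    D₂.H s * (s - 1) ^ (G.m + 1) = (s - 1) ^ D₂.m * (Z s * G.H s) := by
  have hopen : IsOpen {s : ℂ | 0 < s.re} := isOpen_lt continuous_const continuous_re
  have hconn : IsPreconnected {s : ℂ | 0 < s.re} := (convex_halfSpace_re_gt 0).isPreconnected
  have hL : AnalyticOnNhd ℂ (fun s => D₂.H s * (s - 1) ^ (G.m + 1)) {s : ℂ | 0 < s.re} := by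
    refine DifferentiableOn.analyticOnNhd ?_ hopen
    exact (h₂.entire.mul ((differentiable_id.sub_const 1).pow _)).differentiableOn
  have hR : AnalyticOnNhd ℂ (fun s => (s - 1) ^ D₂.m * (Z s * G.H s)) {s : ℂ | 0 < s.re} := by
    refine DifferentiableOn.analyticOnNhd ?_ hopen
    exact ((differentiable_id.sub_const 1).pow _).differentiableOn.mul (hZ.mul hG.entire.differentiableOn)
  have h2 : (2 : ℂ) ∈ {s : ℂ | 0 < s.re} := by simp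
  have hev : (fun s => D₂.H s * (s - 1) ^ (G.m + 1)) =ᶠ[𝓝 2] (fun s => (s - 1) ^ D₂.m * (Z s * G.H s)) := by
    have : {s : ℂ | 1 < s.re} ∈ 𝓝 (2 : ℂ) :=
      (isOpen_lt continuous_const continuous_re).mem_nhds (by simp)
    filter_upwards [this] with w hw
    have hw' : 1 < w.re := hw
    show D₂.H w * (w - 1) ^ (G.m + 1) = (w - 1) ^ D₂.m * (Z w * G.H w)
    rw [h₂.series w hw', hG.series w hw', hZL w hw', mst_conv hG q hq ψ hψ hfac hw']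
    ring
  exact hL.eqOn_of_preconnected_of_eventuallyEq hR hconn h2 hev hs

theorem mst_F {D₂ G : SelData} {d₂ d₃ : ℝ} (h₂ : IsSel D₂ d₃) (hG : IsSel G d₂) (q : ℕ) (hq : 1 ≤ q) (ψ : ℕ → ℝ)
    (hψ : ∀ n, ψ (n + q) = ψ n) (hfac : ∀ n : ℕ, 1 ≤ n → D₂.f n = ∑ k ∈ n.divisors, ψ (n / k) * G.f k)
    (Z : ℂ → ℂ) (hZ : DifferentiableOn ℂ Z {s : ℂ | 0 < s.re})
    (hZL : ∀ s : ℂ, 1 < s.re → Z s = (s - 1) * LSeries (fun n => (ψ n : ℂ)) s) (t : ℝ) :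
    D₂.F (ln (1/2) t) = Z (ln (1/2) t) / (ln (1/2) t - 1) * G.F (ln (1/2) t) := by
  have h1 : ln (1/2) t - 1 ≠ 0 := sub_ne_zero.2 (HFa_line_ne1 t)
  have h := mst_ident h₂ hG q hq ψ hψ hfac Z hZ hZL (s := ln (1/2) t) (by simp)
  unfold SelData.F
  rw [div_mul_div_comm, div_eq_div_iff (pow_ne_zero _ h1) (mul_ne_zero h1 (pow_ne_zero _ h1))]
  rw [← pow_succ', h]
  ring

theorem mom_three {D₂ G : SelData} {d₂ d₃ : ℝ} (h₂ : IsSel D₂ d₃) (hG : IsSel G d₂) (q : ℕ) (hq : 1 ≤ q) (ψ : ℕ → ℝ)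
    (hψ : ∀ n, ψ (n + q) = ψ n) (hfac : ∀ n : ℕ, 1 ≤ n → D₂.f n = ∑ k ∈ n.divisors, ψ (n / k) * G.f k)
    (hM : ∀ ε : ℝ, 0 < ε → Mom G (1 + ε)) (ε : ℝ) (hε : 0 < ε) : Mom D₂ (4/3 + ε) := by
  obtain ⟨Z, hZ, hZL, hZb⟩ := psi_L q hq ψ hψ
  obtain ⟨C, hC, hCb⟩ := hZb (ε / 3) (by linarith)
  obtain ⟨C', hC', hCM⟩ := hM (ε / 3) (by linarith)
  have hF₂ := F_half_cont h₂
  have hFG := F_half_cont hG
  have hφ₂ : Continuous fun t : ℝ => ‖D₂.F (ln (1/2) t)‖ ^ 2 := hF₂.norm.pow 2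
  have hφG : Continuous fun t : ℝ => ‖G.F (ln (1/2) t)‖ ^ 2 := hFG.norm.pow 2
  obtain ⟨B, hB⟩ := (isCompact_Icc (a := (-1 : ℝ)) (b := 1)).exists_bound_of_continuousOn
    hφ₂.continuousOn
  have hB0 : 0 ≤ B := (norm_nonneg _).trans (hB 0 (by norm_num))
  have hpt : ∀ U : ℝ, 1 ≤ U → ∀ t ∈ Icc (-U) U,
      ‖D₂.F (ln (1/2) t)‖ ^ 2 ≤ B + C ^ 2 * U ^ (1/3 + 2 * (ε / 3)) * ‖G.F (ln (1/2) t)‖ ^ 2 := by
    intro U hU t ht
    have hU0 : 0 < U := by linarith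
    by_cases h1 : 1 ≤ |t|
    · have htU : |t| ≤ U := abs_le.2 ⟨ht.1, ht.2⟩
      have ht0 : 0 < |t| := by linarith
      have hne : ln (1/2) t - 1 ≠ 0 := sub_ne_zero.2 (HFa_line_ne1 t)
      have hlow : |t| ≤ ‖ln (1/2) t - 1‖ := by
        have := Complex.abs_im_le_norm (ln (1/2) t - 1)
        simpa using this
      have hZt : ‖Z (ln (1/2) t)‖ ≤ C * |t| ^ (1 + 1/6 + ε / 3) := hCb t h1
      have hq' : ‖Z (ln (1/2) t) / (ln (1/2) t - 1)‖ ≤ C * U ^ (1/6 + ε / 3) := by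
        rw [norm_div]
        calc ‖Z (ln (1/2) t)‖ / ‖ln (1/2) t - 1‖ ≤ (C * |t| ^ (1 + 1/6 + ε / 3)) / |t| :=
              div_le_div₀ (by positivity) hZt ht0 hlow
          _ = C * |t| ^ (1/6 + ε / 3) := by
              rw [show (1 : ℝ) + 1/6 + ε / 3 = (1/6 + ε / 3) + 1 by ring, Real.rpow_add_one ht0.ne']
              field_simp
          _ ≤ C * U ^ (1/6 + ε / 3) :=
              mul_le_mul_of_nonneg_left (Real.rpow_le_rpow ht0.le htU (by positivity)) hC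
      rw [mst_F h₂ hG q hq ψ hψ hfac Z hZ hZL t, norm_mul, mul_pow]
      have hsq : ‖Z (ln (1/2) t) / (ln (1/2) t - 1)‖ ^ 2 ≤ C ^ 2 * U ^ (1/3 + 2 * (ε / 3)) := by
        calc ‖Z (ln (1/2) t) / (ln (1/2) t - 1)‖ ^ 2 ≤ (C * U ^ (1/6 + ε / 3)) ^ 2 :=
              pow_le_pow_left₀ (norm_nonneg _) hq' 2
          _ = C ^ 2 * U ^ (1/3 + 2 * (ε / 3)) := by
              rw [mul_pow, ← Real.rpow_natCast (U ^ (1/6 + ε / 3)) 2, ← Real.rpow_mul hU0.le]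
              congr 2
              push_cast
              ring
      have := mul_le_mul_of_nonneg_right hsq (sq_nonneg ‖G.F (ln (1/2) t)‖)
      linarith
    · have h1' : |t| ≤ 1 := (not_le.1 h1).le
      have := hB t (abs_le.1 h1')
      rw [Real.norm_of_nonneg (by positivity)] at this
      have h0 : 0 ≤ C ^ 2 * U ^ (1/3 + 2 * (ε / 3)) * ‖G.F (ln (1/2) t)‖ ^ 2 := by positivity
      exact this.trans (by linarith)
  refine ⟨2 * B + C ^ 2 * C', by positivity, fun U hU => ?_⟩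
  have hU0 : 0 < U := by linarith
  have hint : ∫ t in (-U)..U, ‖D₂.F (ln (1/2) t)‖ ^ 2 ≤
      ∫ t in (-U)..U, (B + C ^ 2 * U ^ (1/3 + 2 * (ε / 3)) * ‖G.F (ln (1/2) t)‖ ^ 2) := by
    refine intervalIntegral.integral_mono_on (by linarith) ?_ ?_ (hpt U hU)
    · exact hφ₂.intervalIntegrable _ _
    · exact (continuous_const.add (continuous_const.mul hφG)).intervalIntegrable _ _
  have hcomp : ∫ t in (-U)..U, (B + C ^ 2 * U ^ (1/3 + 2 * (ε / 3)) * ‖G.F (ln (1/2) t)‖ ^ 2) =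
      2 * B * U + C ^ 2 * U ^ (1/3 + 2 * (ε / 3)) * ∫ t in (-U)..U, ‖G.F (ln (1/2) t)‖ ^ 2 := by
    have hc : Continuous fun t : ℝ => C ^ 2 * U ^ (1/3 + 2 * (ε / 3)) * ‖G.F (ln (1/2) t)‖ ^ 2 :=
      continuous_const.mul hφG
    rw [intervalIntegral.integral_add intervalIntegrable_const (hc.intervalIntegrable _ _),
      intervalIntegral.integral_const_mul, intervalIntegral.integral_const]
    simp only [smul_eq_mul]
    ring
  have hUpow : U ≤ U ^ (4/3 + ε) := by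
    calc U = U ^ (1 : ℝ) := (Real.rpow_one U).symm
      _ ≤ U ^ (4/3 + ε) := Real.rpow_le_rpow_of_exponent_le hU (by linarith)
  have hprod : U ^ (1/3 + 2 * (ε / 3)) * U ^ (1 + ε / 3) = U ^ (4/3 + ε) := by
    rw [← Real.rpow_add hU0]
    congr 1
    ring
  calc ∫ t in (-U)..U, ‖D₂.F (ln (1/2) t)‖ ^ 2
      ≤ 2 * B * U + C ^ 2 * U ^ (1/3 + 2 * (ε / 3)) * ∫ t in (-U)..U, ‖G.F (ln (1/2) t)‖ ^ 2 :=
        hint.trans_eq hcomp
    _ ≤ 2 * B * U ^ (4/3 + ε) + C ^ 2 * U ^ (1/3 + 2 * (ε / 3)) * (C' * U ^ (1 + ε / 3)) := by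
        refine add_le_add (mul_le_mul_of_nonneg_left hUpow (by positivity)) ?_
        exact mul_le_mul_of_nonneg_left (hCM U hU) (by positivity)
    _ = (2 * B + C ^ 2 * C') * U ^ (4/3 + ε) := by
        rw [← hprod]
        ring

end Pool.Agent.H15.SC
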