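import Pool.Agent.H15.SC.Osc

/-!
# SC-29, SC-30  signs of a product of two functions approximated in mean square by trigonometric sums
(project SC, MP_be4568_nt)

`G₂`, `G₃` with `Approx G d η c a`.  Write `g₂ = TP 2 .. N`, `g₃ = TP 3 .. N` (the same large `N`), `c* = |a 1| |b 1|`.

`corr_zero`: `(1/T) ∫ g₂ g₃ → 0`: expand `2 re A · 2 re B = AB + A B̄ + Ā B + Ā B̄`; every exponential has the phase
`± (η₂ log x + c₂ (n x)^{1/2}) ± (η₃ log x + c₃ (m x)^{1/3})`, the coefficient of `x^{1/2}` is `± c₂ n^{1/2} ≠ 0`: `osc_int`.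
`corr_one`: `(1/T) ∫ g₂ g₃ e^{-i(η₂ log x + c₂ x^{1/2})} e^{-i(η₃ log x + c₃ x^{1/3})} → a 1 · b 1`: the coefficient of `x^{1/2}` is
`c₂ (± n^{1/2} - 1)`, zero only for `+`, `n = 1`; then the coefficient of `x^{1/3}` is `c₃ (± m^{1/3} - 1)`, zero only for `+`, `m = 1`.

`sign_pos`: mean squares: `∫ G_i² ≤ C_G T` (Approx with `ε = 1` and one fixed `N`; `|TP| ≤ 2 ∑ |a n|`).  For small `ε` take `N` with
`∫ (G_i - g_i)² ≤ ε T` (`T ≥ T_N`): `∫ |G₂G₃ - g₂g₃| ≤ ∫ |G₂ - g₂| |G₃| + |g₂| |G₃ - g₃| ≤ C √ε T` (Cauchy-Schwarz, constant independent of `N`).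
So for `P = G₂ G₃`: `|∫ P| ≤ c* T/8` and `∫ |P| ≥ |∫ P e^{..}| ≥ 7 c* T/8`; hence `∫ (ε' P)⁺ ≥ 3 c* T/8` for both signs `ε'`.
`A = {ε' P ≥ c*/8}`: `∫_A |P| ≥ c* T/4`, and `∫_A |P| ≤ (∫_A G₂²)^{1/2} (C_G T)^{1/2}`, so `∫_A G₂² ≥ c' T`; with `g₂` bounded by
`B = B(N)`: `∫_A G₂² ≤ 2 B² |A| + 2 ε T`, so `|A| ≥ c'' T` (choose `ε ≤ c'/4`; `c'` does not depend on `N`).  Finally remove
`{|G_i| > K}`, of measure `≤ C_G T/K²`, `K` large.
-/

set_option autoImplicit false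

open Complex Filter Topology MeasureTheory Set

namespace Pool.Agent.H15.SC

/-- trigonometric polynomial in `x^{1/d}` -/
noncomputable def TP (d : ℕ) (η c : ℝ) (a : ℕ → ℂ) (N : ℕ) (x : ℝ) : ℝ :=
  ∑ n ∈ Finset.Icc 1 N, 2 * (a n * cexp (I * ((η * Real.log x + c * (n * x) ^ ((1 : ℝ) / d) : ℝ) : ℂ))).re

/-- `G` is approximated in mean square -/
def Approx (G : ℝ → ℝ) (d : ℕ) (η c : ℝ) (a : ℕ → ℂ) : Prop :=
  ∀ ε : ℝ, 0 < ε → ∃ N₀ : ℕ, ∀ N : ℕ, N₀ ≤ N → ∃ T₀ : ℝ, 1 ≤ T₀ ∧ ∀ T : ℝ, T₀ ≤ T →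
    ∫ x in T..(2 * T), (G x - TP d η c a N x) ^ 2 ≤ ε * T

/-! ### exponentials -/

/-- exponential of the phase -/
noncomputable def E1 (η γ δ x : ℝ) : ℂ :=
  cexp (I * ((η * Real.log x + γ * x ^ ((1 : ℝ) / 2) + δ * x ^ ((1 : ℝ) / 3) : ℝ) : ℂ))

theorem E1_mul (η γ δ η' γ' δ' x : ℝ) :
    E1 η γ δ x * E1 η' γ' δ' x = E1 (η + η') (γ + γ') (δ + δ') x := by
  rw [E1, E1, E1, ← Complex.exp_add]
  congr 1
  push_cast
  ring

theorem E1_int (η γ δ T : ℝ) (hT : 1 ≤ T) : IntervalIntegrable (E1 η γ δ) volume T (2 * T) := by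
  apply ContinuousOn.intervalIntegrable
  intro x hx
  rw [uIcc_of_le (by linarith)] at hx
  have hx0 : x ≠ 0 := by
    have := hx.1
    intro h
    rw [h] at this
    linarith
  apply ContinuousAt.continuousWithinAt
  unfold E1
  have h1 : ContinuousAt (fun x : ℝ => Real.log x) x := Real.continuousAt_log hx0
  have h2 : ContinuousAt (fun x : ℝ => x ^ ((1 : ℝ) / 2)) x := Real.continuousAt_rpow_const _ _ (Or.inl hx0)
  have h3 : ContinuousAt (fun x : ℝ => x ^ ((1 : ℝ) / 3)) x := Real.continuousAt_rpow_const _ _ (Or.inl hx0)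
  have h4 : ContinuousAt (fun x : ℝ => η * Real.log x + γ * x ^ ((1 : ℝ) / 2) + δ * x ^ ((1 : ℝ) / 3)) x :=
    ((h1.const_mul η).add (h2.const_mul γ)).add (h3.const_mul δ)
  exact Complex.continuous_exp.continuousAt.comp
    (ContinuousAt.mul continuousAt_const (Complex.continuous_ofReal.continuousAt.comp h4))

theorem sum_osc {ι : Type*} (s : Finset ι) (k : ι → ℂ) (η γ δ : ι → ℝ) (h : ∀ i ∈ s, γ i ≠ 0 ∨ δ i ≠ 0) :
    ∀ ε : ℝ, 0 < ε → ∃ T₀ : ℝ, 1 ≤ T₀ ∧ ∀ T : ℝ, T₀ ≤ T →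
      ‖∫ x in T..(2 * T), ∑ i ∈ s, k i * E1 (η i) (γ i) (δ i) x‖ ≤ ε * T := by
  classical
  induction s using Finset.induction_on with
  | empty =>
    intro ε hε
    refine ⟨1, le_refl _, fun T hT => ?_⟩
    simp only [Finset.sum_empty, intervalIntegral.integral_zero, norm_zero]
    positivity
  | insert a s ha ih =>
    intro ε hε
    obtain ⟨T₁, hT₁, h₁⟩ := ih (fun i hi => h i (Finset.mem_insert_of_mem hi)) (ε / 2) (by positivity)
    obtain ⟨T₂, hT₂, h₂⟩ := osc_int (η a) (γ a) (δ a) (h a (Finset.mem_insert_self a s))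
      (ε / 2 / (1 + ‖k a‖)) (by positivity)
    refine ⟨max T₁ T₂, le_max_of_le_left hT₁, fun T hT => ?_⟩
    have hT1 : 1 ≤ T := hT₁.trans ((le_max_left _ _).trans hT)
    have hk : 0 < 1 + ‖k a‖ := by positivity
    have e1 : (∫ x in T..(2 * T), ∑ i ∈ insert a s, k i * E1 (η i) (γ i) (δ i) x) =
        k a * (∫ x in T..(2 * T), E1 (η a) (γ a) (δ a) x) +
          ∫ x in T..(2 * T), ∑ i ∈ s, k i * E1 (η i) (γ i) (δ i) x := by
      rw [← intervalIntegral.integral_const_mul, ← intervalIntegral.integral_add]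
      · apply intervalIntegral.integral_congr
        intro x _
        simp only [Finset.sum_insert ha]
      · exact (E1_int _ _ _ _ hT1).const_mul _
      · have := IntervalIntegrable.sum s (f := fun i x => k i * E1 (η i) (γ i) (δ i) x) (μ := volume)
          (a := T) (b := 2 * T) (fun i _ => (E1_int _ _ _ _ hT1).const_mul _)
        have h' : (∑ i ∈ s, fun x => k i * E1 (η i) (γ i) (δ i) x) =
            fun x => ∑ i ∈ s, k i * E1 (η i) (γ i) (δ i) x := by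
          ext x
          simp only [Finset.sum_apply]
        rwa [h'] at this
    rw [e1]
    have b1 := h₁ T ((le_max_left _ _).trans hT)
    have b2 : ‖∫ x in T..(2 * T), E1 (η a) (γ a) (δ a) x‖ ≤ ε / 2 / (1 + ‖k a‖) * T :=
      h₂ T ((le_max_right _ _).trans hT)
    have b3 : ‖k a * (∫ x in T..(2 * T), E1 (η a) (γ a) (δ a) x)‖ ≤ ε / 2 * T := by
      rw [norm_mul]
      have c1 : ‖k a‖ * ‖∫ x in T..(2 * T), E1 (η a) (γ a) (δ a) x‖ ≤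
          (1 + ‖k a‖) * (ε / 2 / (1 + ‖k a‖) * T) :=
        mul_le_mul (by linarith) b2 (norm_nonneg _) hk.le
      have c2 : (1 + ‖k a‖) * (ε / 2 / (1 + ‖k a‖) * T) = ε / 2 * T := by
        field_simp
      linarith
    have b4 := norm_add_le (k a * (∫ x in T..(2 * T), E1 (η a) (γ a) (δ a) x))
      (∫ x in T..(2 * T), ∑ i ∈ s, k i * E1 (η i) (γ i) (δ i) x)
    linarith

/-! ### expansion of the products -/

/-- sign -/
noncomputable def sg (s : Bool) : ℝ := if s then 1 else -1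

/-- conjugate if the sign is negative -/
noncomputable def cj (s : Bool) (z : ℂ) : ℂ := if s then z else (starRingEnd ℂ) z

theorem two_re (z : ℂ) (θ : ℝ) : ((2 * (z * cexp (I * (θ : ℂ))).re : ℝ) : ℂ) =
    ∑ s : Bool, cj s z * cexp (I * ((sg s * θ : ℝ) : ℂ)) := by
  rw [Fintype.sum_bool, ← Complex.add_conj, map_mul, ← Complex.exp_conj]
  simp [cj, sg]

theorem TP_two (η c : ℝ) (a : ℕ → ℂ) (N : ℕ) (x : ℝ) (hx : 0 ≤ x) : ((TP 2 η c a N x : ℝ) : ℂ) =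
    ∑ p ∈ Finset.Icc 1 N ×ˢ (Finset.univ : Finset Bool),
      cj p.2 (a p.1) * E1 (sg p.2 * η) (sg p.2 * (c * (p.1 : ℝ) ^ ((1 : ℝ) / 2))) 0 x := by
  rw [TP, Finset.sum_product, Complex.ofReal_sum]
  refine Finset.sum_congr rfl fun n _ => ?_
  rw [two_re]
  refine Finset.sum_congr rfl fun s _ => ?_
  rw [E1, Real.mul_rpow (Nat.cast_nonneg n) hx]
  congr 3
  push_cast
  ring

theorem TP_three (η c : ℝ) (a : ℕ → ℂ) (N : ℕ) (x : ℝ) (hx : 0 ≤ x) : ((TP 3 η c a N x : ℝ) : ℂ) =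
    ∑ p ∈ Finset.Icc 1 N ×ˢ (Finset.univ : Finset Bool),
      cj p.2 (a p.1) * E1 (sg p.2 * η) 0 (sg p.2 * (c * (p.1 : ℝ) ^ ((1 : ℝ) / 3))) x := by
  rw [TP, Finset.sum_product, Complex.ofReal_sum]
  refine Finset.sum_congr rfl fun n _ => ?_
  rw [two_re]
  refine Finset.sum_congr rfl fun s _ => ?_
  rw [E1, Real.mul_rpow (Nat.cast_nonneg n) hx]
  congr 3
  push_cast
  ring

/-- the index set of the pairs of exponentials -/
noncomputable def JJ (N : ℕ) : Finset ((ℕ × Bool) × (ℕ × Bool)) :=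
  (Finset.Icc 1 N ×ˢ (Finset.univ : Finset Bool)) ×ˢ (Finset.Icc 1 N ×ˢ (Finset.univ : Finset Bool))

theorem prod_exp (η₂ c₂ η₃ c₃ η₀ γ₀ δ₀ : ℝ) (a b : ℕ → ℂ) (N : ℕ) (x : ℝ) (hx : 0 ≤ x) :
    ((TP 2 η₂ c₂ a N x * TP 3 η₃ c₃ b N x : ℝ) : ℂ) * E1 η₀ γ₀ δ₀ x =
      ∑ q ∈ JJ N, cj q.1.2 (a q.1.1) * cj q.2.2 (b q.2.1) *
        E1 (sg q.1.2 * η₂ + sg q.2.2 * η₃ + η₀) (sg q.1.2 * (c₂ * (q.1.1 : ℝ) ^ ((1 : ℝ) / 2)) + γ₀)
          (sg q.2.2 * (c₃ * (q.2.1 : ℝ) ^ ((1 : ℝ) / 3)) + δ₀) x := by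
  rw [Complex.ofReal_mul, TP_two _ _ _ _ _ hx, TP_three _ _ _ _ _ hx]
  unfold JJ
  generalize Finset.Icc 1 N ×ˢ (Finset.univ : Finset Bool) = S
  rw [Finset.sum_product, Finset.sum_mul_sum, Finset.sum_mul]
  refine Finset.sum_congr rfl fun p _ => ?_
  rw [Finset.sum_mul]
  refine Finset.sum_congr rfl fun q _ => ?_
  have h := E1_mul (sg p.2 * η₂) (sg p.2 * (c₂ * (p.1 : ℝ) ^ ((1 : ℝ) / 2))) 0
    (sg q.2 * η₃) 0 (sg q.2 * (c₃ * (q.1 : ℝ) ^ ((1 : ℝ) / 3))) x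
  have h' := E1_mul (sg p.2 * η₂ + sg q.2 * η₃) (sg p.2 * (c₂ * (p.1 : ℝ) ^ ((1 : ℝ) / 2)) + 0)
    (0 + sg q.2 * (c₃ * (q.1 : ℝ) ^ ((1 : ℝ) / 3))) η₀ γ₀ δ₀ x
  rw [add_zero] at h h'
  rw [zero_add] at h h'
  rw [← h', ← h]
  ring

theorem corr_zero (η₂ c₂ η₃ c₃ : ℝ) (hc₂ : 0 < c₂) (hc₃ : 0 < c₃) (a b : ℕ → ℂ) (N : ℕ) (ε : ℝ) (hε : 0 < ε) :
    ∃ T₀ : ℝ, 1 ≤ T₀ ∧ ∀ T : ℝ, T₀ ≤ T → |∫ x in T..(2 * T), TP 2 η₂ c₂ a N x * TP 3 η₃ c₃ b N x| ≤ ε * T := by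
  obtain ⟨T₀, hT₀, h⟩ := sum_osc (JJ N) (fun q => cj q.1.2 (a q.1.1) * cj q.2.2 (b q.2.1))
    (fun q => sg q.1.2 * η₂ + sg q.2.2 * η₃ + 0)
    (fun q => sg q.1.2 * (c₂ * (q.1.1 : ℝ) ^ ((1 : ℝ) / 2)) + 0)
    (fun q => sg q.2.2 * (c₃ * (q.2.1 : ℝ) ^ ((1 : ℝ) / 3)) + 0) (by
      intro q hq
      left
      simp only [JJ, Finset.mem_product, Finset.mem_Icc] at hq
      have h1 : (0 : ℝ) < (q.1.1 : ℝ) ^ ((1 : ℝ) / 2) :=
        Real.rpow_pos_of_pos (by exact_mod_cast hq.1.1.1) _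
      have h2 : sg q.1.2 ≠ 0 := by
        unfold sg
        split_ifs <;> norm_num
      rw [add_zero]
      positivity) ε hε
  refine ⟨T₀, hT₀, fun T hT => ?_⟩
  have hT1 : 1 ≤ T := hT₀.trans hT
  rw [← Real.norm_eq_abs, ← Complex.norm_real, ← intervalIntegral.integral_ofReal]
  have e : (∫ x in T..(2 * T), ((TP 2 η₂ c₂ a N x * TP 3 η₃ c₃ b N x : ℝ) : ℂ)) =
      ∫ x in T..(2 * T), ∑ q ∈ JJ N, cj q.1.2 (a q.1.1) * cj q.2.2 (b q.2.1) *
        E1 (sg q.1.2 * η₂ + sg q.2.2 * η₃ + 0) (sg q.1.2 * (c₂ * (q.1.1 : ℝ) ^ ((1 : ℝ) / 2)) + 0)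
          (sg q.2.2 * (c₃ * (q.2.1 : ℝ) ^ ((1 : ℝ) / 3)) + 0) x := by
    apply intervalIntegral.integral_congr
    intro x hx
    rw [uIcc_of_le (by linarith)] at hx
    have hx0 : 0 ≤ x := by linarith [hx.1]
    beta_reduce
    rw [← prod_exp _ _ _ _ _ _ _ _ _ _ _ hx0]
    simp [E1]
  rw [e]
  exact h T hT

theorem corr_one (η₂ c₂ η₃ c₃ : ℝ) (hc₂ : 0 < c₂) (hc₃ : 0 < c₃) (a b : ℕ → ℂ) (N : ℕ) (hN : 1 ≤ N) (ε : ℝ)
    (hε : 0 < ε) : ∃ T₀ : ℝ, 1 ≤ T₀ ∧ ∀ T : ℝ, T₀ ≤ T →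
      ‖(∫ x in T..(2 * T), ((TP 2 η₂ c₂ a N x * TP 3 η₃ c₃ b N x : ℝ) : ℂ) *
        cexp (-(I * (((η₂ + η₃) * Real.log x + c₂ * x ^ ((1 : ℝ) / 2) + c₃ * x ^ ((1 : ℝ) / 3) : ℝ) : ℂ)))) -
          a 1 * b 1 * T‖ ≤ ε * T := by
  classical
  set q0 : (ℕ × Bool) × (ℕ × Bool) := ((1, true), (1, true)) with hq0
  have hq0m : q0 ∈ JJ N := by
    simp only [JJ, Finset.mem_product, Finset.mem_Icc, Finset.mem_univ, and_true]
    exact ⟨⟨le_refl _, hN⟩, le_refl _, hN⟩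
  obtain ⟨T₀, hT₀, h⟩ := sum_osc ((JJ N).erase q0) (fun q => cj q.1.2 (a q.1.1) * cj q.2.2 (b q.2.1))
    (fun q => sg q.1.2 * η₂ + sg q.2.2 * η₃ + -(η₂ + η₃))
    (fun q => sg q.1.2 * (c₂ * (q.1.1 : ℝ) ^ ((1 : ℝ) / 2)) + -c₂)
    (fun q => sg q.2.2 * (c₃ * (q.2.1 : ℝ) ^ ((1 : ℝ) / 3)) + -c₃) (by
      rintro ⟨⟨n, s⟩, ⟨m, t⟩⟩ hq
      simp only [JJ, Finset.mem_erase, Finset.mem_product, Finset.mem_Icc, Finset.mem_univ, and_true, hq0] at hq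
      obtain ⟨hne, ⟨hn1, hn2⟩, hm1, hm2⟩ := hq
      have key : ∀ (s : Bool) (n : ℕ) (c r : ℝ), 0 < c → 0 < r → 1 ≤ n →
          sg s * (c * (n : ℝ) ^ r) + -c = 0 → n = 1 ∧ s = true := by
        intro s n c r hc hr hn heq
        have hn' : (1 : ℝ) ≤ n := by exact_mod_cast hn
        have h1 : (1 : ℝ) ≤ (n : ℝ) ^ r := Real.one_le_rpow hn' hr.le
        cases s with
        | false =>
          simp only [sg] at heq
          exfalso
          simp only [Bool.false_eq_true, if_false] at heq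
          nlinarith
        | true =>
          simp only [sg, if_true, one_mul] at heq
          refine ⟨?_, rfl⟩
          by_contra hcon
          have hn2 : (1 : ℝ) < n := by
            have : 1 < n := by omega
            exact_mod_cast this
          have h2 : (1 : ℝ) < (n : ℝ) ^ r := Real.one_lt_rpow hn2 hr
          nlinarith
      by_contra hcon
      push Not at hcon
      obtain ⟨h1, h2⟩ := hcon
      obtain ⟨rfl, rfl⟩ := key s n c₂ _ hc₂ (by norm_num) hn1 h1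
      obtain ⟨rfl, rfl⟩ := key t m c₃ _ hc₃ (by norm_num) hm1 h2
      exact hne rfl) ε hε
  refine ⟨T₀, hT₀, fun T hT => ?_⟩
  have hT1 : 1 ≤ T := hT₀.trans hT
  have e : (∫ x in T..(2 * T), ((TP 2 η₂ c₂ a N x * TP 3 η₃ c₃ b N x : ℝ) : ℂ) *
        cexp (-(I * (((η₂ + η₃) * Real.log x + c₂ * x ^ ((1 : ℝ) / 2) + c₃ * x ^ ((1 : ℝ) / 3) : ℝ) : ℂ)))) =
      ∫ x in T..(2 * T), (a 1 * b 1 + ∑ q ∈ (JJ N).erase q0, cj q.1.2 (a q.1.1) * cj q.2.2 (b q.2.1) *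
        E1 (sg q.1.2 * η₂ + sg q.2.2 * η₃ + -(η₂ + η₃))
          (sg q.1.2 * (c₂ * (q.1.1 : ℝ) ^ ((1 : ℝ) / 2)) + -c₂)
          (sg q.2.2 * (c₃ * (q.2.1 : ℝ) ^ ((1 : ℝ) / 3)) + -c₃) x) := by
    apply intervalIntegral.integral_congr
    intro x hx
    rw [uIcc_of_le (by linarith)] at hx
    have hx0 : 0 ≤ x := by linarith [hx.1]
    beta_reduce
    have e1 : cexp (-(I * (((η₂ + η₃) * Real.log x + c₂ * x ^ ((1 : ℝ) / 2) + c₃ * x ^ ((1 : ℝ) / 3) : ℝ) : ℂ))) =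
        E1 (-(η₂ + η₃)) (-c₂) (-c₃) x := by
      rw [E1]
      congr 1
      push_cast
      ring
    rw [e1, prod_exp _ _ _ _ _ _ _ _ _ _ _ hx0, ← Finset.add_sum_erase _ _ hq0m]
    congr 1
    have e2 : E1 (sg q0.1.2 * η₂ + sg q0.2.2 * η₃ + -(η₂ + η₃))
          (sg q0.1.2 * (c₂ * (q0.1.1 : ℝ) ^ ((1 : ℝ) / 2)) + -c₂)
          (sg q0.2.2 * (c₃ * (q0.2.1 : ℝ) ^ ((1 : ℝ) / 3)) + -c₃) x = 1 := by
      simp [E1, hq0, sg]
    rw [e2]
    simp [hq0, cj]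
  rw [e, intervalIntegral.integral_add]
  · rw [intervalIntegral.integral_const]
    have e3 : (2 * T - T) • (a 1 * b 1) = a 1 * b 1 * (T : ℂ) := by
      rw [show 2 * T - T = T by ring, Complex.real_smul]
      ring
    rw [e3, add_sub_cancel_left]
    exact h T hT
  · exact intervalIntegrable_const
  · have := IntervalIntegrable.sum ((JJ N).erase q0) (f := fun q x => cj q.1.2 (a q.1.1) * cj q.2.2 (b q.2.1) *
        E1 (sg q.1.2 * η₂ + sg q.2.2 * η₃ + -(η₂ + η₃))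
          (sg q.1.2 * (c₂ * (q.1.1 : ℝ) ^ ((1 : ℝ) / 2)) + -c₂)
          (sg q.2.2 * (c₃ * (q.2.1 : ℝ) ^ ((1 : ℝ) / 3)) + -c₃) x) (μ := volume)
          (a := T) (b := 2 * T) (fun i _ => (E1_int _ _ _ _ hT1).const_mul _)
    rw [Finset.sum_fn] at this
    exact this

/-! ### bounded measurable functions -/

/-- measurable and bounded on the interval -/
def BM (T : ℝ) (f : ℝ → ℝ) : Prop := Measurable f ∧ ∃ B : ℝ, ∀ x ∈ Icc T (2 * T), |f x| ≤ B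

theorem ii_bdd {E : Type*} [NormedAddCommGroup E] {T : ℝ} (hT : 1 ≤ T) (f : ℝ → E)
    (hf : AEStronglyMeasurable f volume) (B : ℝ) (h : ∀ x ∈ Icc T (2 * T), ‖f x‖ ≤ B) :
    IntervalIntegrable f volume T (2 * T) := by
  rw [intervalIntegrable_iff_integrableOn_Icc_of_le (by linarith)]
  refine MeasureTheory.Measure.integrableOn_of_bounded (M := B) ?_ hf ?_
  · rw [Real.volume_Icc]
    exact ENNReal.ofReal_ne_top
  · exact (ae_restrict_mem measurableSet_Icc).mono h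

theorem BM.int {T : ℝ} {f : ℝ → ℝ} (h : BM T f) (hT : 1 ≤ T) : IntervalIntegrable f volume T (2 * T) := by
  obtain ⟨hm, B, hB⟩ := h
  exact ii_bdd hT f hm.aestronglyMeasurable B (by simpa using hB)

theorem BM.add {T : ℝ} {f g : ℝ → ℝ} (hf : BM T f) (hg : BM T g) : BM T (fun x => f x + g x) := by
  obtain ⟨hm, B, hB⟩ := hf
  obtain ⟨hm', B', hB'⟩ := hg
  refine ⟨hm.add hm', B + B', fun x hx => ?_⟩
  exact (abs_add_le _ _).trans (add_le_add (hB x hx) (hB' x hx))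

theorem BM.sub {T : ℝ} {f g : ℝ → ℝ} (hf : BM T f) (hg : BM T g) : BM T (fun x => f x - g x) := by
  obtain ⟨hm, B, hB⟩ := hf
  obtain ⟨hm', B', hB'⟩ := hg
  refine ⟨hm.sub hm', B + B', fun x hx => ?_⟩
  exact (abs_sub _ _).trans (add_le_add (hB x hx) (hB' x hx))

theorem BM.mul {T : ℝ} {f g : ℝ → ℝ} (hf : BM T f) (hg : BM T g) : BM T (fun x => f x * g x) := by
  obtain ⟨hm, B, hB⟩ := hf
  obtain ⟨hm', B', hB'⟩ := hg
  refine ⟨hm.mul hm', B * B', fun x hx => ?_⟩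
  rw [abs_mul]
  exact mul_le_mul (hB x hx) (hB' x hx) (abs_nonneg _) ((abs_nonneg _).trans (hB x hx))

theorem BM.abs {T : ℝ} {f : ℝ → ℝ} (hf : BM T f) : BM T (fun x => |f x|) := by
  obtain ⟨hm, B, hB⟩ := hf
  refine ⟨hm.abs, B, fun x hx => ?_⟩
  rw [abs_abs]
  exact hB x hx

theorem BM.const {T : ℝ} (r : ℝ) : BM T (fun _ => r) := ⟨measurable_const, |r|, fun _ _ => le_refl _⟩

theorem BM.sq {T : ℝ} {f : ℝ → ℝ} (hf : BM T f) : BM T (fun x => f x ^ 2) := by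
  simpa only [pow_two] using hf.mul hf

theorem TP_meas (d : ℕ) (η c : ℝ) (a : ℕ → ℂ) (N : ℕ) : Measurable (TP d η c a N) := by
  unfold TP
  fun_prop

theorem TP_bdd (d : ℕ) (η c : ℝ) (a : ℕ → ℂ) (N : ℕ) : ∃ B : ℝ, 1 ≤ B ∧ ∀ x, |TP d η c a N x| ≤ B := by
  refine ⟨1 + ∑ n ∈ Finset.Icc 1 N, 2 * ‖a n‖, ?_, fun x => ?_⟩
  · have : 0 ≤ ∑ n ∈ Finset.Icc 1 N, 2 * ‖a n‖ := Finset.sum_nonneg fun n _ => by positivity
    linarith
  · rw [TP]
    refine (Finset.abs_sum_le_sum_abs _ _).trans ?_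
    have : ∑ n ∈ Finset.Icc 1 N, |2 * (a n * cexp (I * ((η * Real.log x + c * (n * x) ^ ((1 : ℝ) / d) : ℝ) : ℂ))).re| ≤
        ∑ n ∈ Finset.Icc 1 N, 2 * ‖a n‖ := by
      refine Finset.sum_le_sum fun n _ => ?_
      rw [abs_mul, abs_two]
      have h1 := Complex.abs_re_le_norm (a n * cexp (I * ((η * Real.log x + c * (n * x) ^ ((1 : ℝ) / d) : ℝ) : ℂ)))
      rw [norm_mul, Complex.norm_exp_I_mul_ofReal, mul_one] at h1
      linarith
    linarith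

theorem BM_TP (T : ℝ) (d : ℕ) (η c : ℝ) (a : ℕ → ℂ) (N : ℕ) : BM T (TP d η c a N) := by
  obtain ⟨B, _, hB⟩ := TP_bdd d η c a N
  exact ⟨TP_meas d η c a N, B, fun x _ => hB x⟩

theorem msq (G : ℝ → ℝ) (hm : Measurable G) (hb : ∀ T : ℝ, 1 ≤ T → ∃ B : ℝ, ∀ x ∈ Icc T (2 * T), |G x| ≤ B)
    (d : ℕ) (η c : ℝ) (a : ℕ → ℂ) (h : Approx G d η c a) :
    ∃ C T₁ : ℝ, 1 ≤ C ∧ 1 ≤ T₁ ∧ ∀ T : ℝ, T₁ ≤ T → ∫ x in T..(2 * T), G x ^ 2 ≤ C * T := by
  obtain ⟨N, hN⟩ := h 1 one_pos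
  obtain ⟨T₀, hT₀, h0⟩ := hN N (le_refl _)
  obtain ⟨B, hB1, hB⟩ := TP_bdd d η c a N
  refine ⟨2 + 2 * B ^ 2, T₀, by nlinarith [sq_nonneg B], hT₀, fun T hT => ?_⟩
  have hT1 : 1 ≤ T := hT₀.trans hT
  have hG : BM T G := ⟨hm, hb T hT1⟩
  have hg := BM_TP T d η c a N
  have i1 : BM T (fun x => (G x - TP d η c a N x) ^ 2) := (hG.sub hg).sq
  have e : ∫ x in T..(2 * T), (2 * (G x - TP d η c a N x) ^ 2 + 2 * B ^ 2) =
      2 * (∫ x in T..(2 * T), (G x - TP d η c a N x) ^ 2) + 2 * B ^ 2 * T := by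
    rw [intervalIntegral.integral_add ((i1.int hT1).const_mul 2) intervalIntegrable_const,
      intervalIntegral.integral_const_mul, intervalIntegral.integral_const, smul_eq_mul]
    ring
  have le : ∫ x in T..(2 * T), G x ^ 2 ≤ ∫ x in T..(2 * T), (2 * (G x - TP d η c a N x) ^ 2 + 2 * B ^ 2) := by
    apply intervalIntegral.integral_mono_on (by linarith) (hG.sq.int hT1)
      (((i1.int hT1).const_mul 2).add intervalIntegrable_const)
    intro x _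
    have h1 := hB x
    have h2 : TP d η c a N x ^ 2 ≤ B ^ 2 := by
      rw [← sq_abs]
      exact pow_le_pow_left₀ (abs_nonneg _) h1 2
    nlinarith [sq_nonneg (G x - 2 * TP d η c a N x)]
  have := h0 T hT
  nlinarith

/-! ### two pointwise inequalities -/

theorem pt_one (κ u v p q : ℝ) (hκ : 0 < κ) (hκ1 : κ ≤ 1) :
    |u * v - p * q| ≤ κ / 2 * (u ^ 2 + v ^ 2) + 1 / κ * ((u - p) ^ 2 + (v - q) ^ 2) := by
  set x := 1 / κ with hx
  have hκx : κ * x = 1 := by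
    rw [hx]
    field_simp
  have hx1 : 1 ≤ x := by
    rw [hx]
    exact (one_le_div hκ).mpr hκ1
  have y : ∀ s t : ℝ, |s * t| ≤ κ / 2 * t ^ 2 + x / 2 * s ^ 2 := by
    intro s t
    rw [abs_le]
    have h1 : 0 ≤ κ * (t - x * s) ^ 2 := by positivity
    have h2 : 0 ≤ κ * (t + x * s) ^ 2 := by positivity
    have e1 : κ * (t - x * s) ^ 2 = κ * t ^ 2 - 2 * (κ * x) * (s * t) + (κ * x) * x * s ^ 2 := by ring
    have e2 : κ * (t + x * s) ^ 2 = κ * t ^ 2 + 2 * (κ * x) * (s * t) + (κ * x) * x * s ^ 2 := by ring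
    rw [hκx] at e1 e2
    constructor <;> nlinarith
  have h1 := y (u - p) v
  have h2 := y (v - q) u
  have h3 : |(u - p) * (v - q)| ≤ 1 / 2 * ((u - p) ^ 2 + (v - q) ^ 2) := by
    rw [abs_le]
    constructor <;> nlinarith [sq_nonneg (u - p - (v - q)), sq_nonneg (u - p + (v - q))]
  have e : u * v - p * q = (u - p) * v + (v - q) * u - (u - p) * (v - q) := by ring
  rw [e]
  have h4 := abs_sub ((u - p) * v + (v - q) * u) ((u - p) * (v - q))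
  have h5 := abs_add_le ((u - p) * v) ((v - q) * u)
  nlinarith [sq_nonneg (u - p), sq_nonneg (v - q)]

open Classical in
theorem pt_two (σ κ c₀ K B u v p : ℝ) (hσ : σ = 1 ∨ σ = -1) (hκ : 0 < κ) (hc₀ : 0 < c₀) (hK : 0 < K)
    (hB : |p| ≤ B) :
    1 / 2 * (|u * v| + σ * (u * v)) ≤ c₀ + κ / 2 * v ^ 2 + 1 / κ * (u - p) ^ 2 +
      B ^ 2 / κ / K ^ 2 * (u ^ 2 + v ^ 2) +
        B ^ 2 / κ * (if c₀ ≤ σ * (u * v) ∧ |u| ≤ K ∧ |v| ≤ K then 1 else 0) := by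
  have hB0 : 0 ≤ B := (abs_nonneg _).trans hB
  have habs : |σ * (u * v)| = |u * v| := by
    rcases hσ with rfl | rfl <;> simp
  have n1 : 0 ≤ κ / 2 * v ^ 2 := by positivity
  have n2 : 0 ≤ 1 / κ * (u - p) ^ 2 := by positivity
  have n3 : 0 ≤ B ^ 2 / κ / K ^ 2 * (u ^ 2 + v ^ 2) := by positivity
  have n4 : 0 ≤ B ^ 2 / κ := by positivity
  by_cases hc : c₀ ≤ σ * (u * v)
  · have a1 : 1 / 2 * (|u * v| + σ * (u * v)) ≤ |u * v| := by
      have := le_abs_self (σ * (u * v))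
      rw [habs] at this
      linarith
    have a2 : |u * v| ≤ κ / 2 * v ^ 2 + 1 / (2 * κ) * u ^ 2 := by
      have hκx : κ * (1 / κ) = 1 := by field_simp
      set x := 1 / κ with hx
      have e0 : 1 / (2 * κ) = x / 2 := by
        rw [hx]
        field_simp
      rw [e0, abs_le]
      have h1 : 0 ≤ κ * (v - x * u) ^ 2 := by positivity
      have h2 : 0 ≤ κ * (v + x * u) ^ 2 := by positivity
      have e1 : κ * (v - x * u) ^ 2 = κ * v ^ 2 - 2 * (κ * x) * (u * v) + (κ * x) * x * u ^ 2 := by ring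
      have e2 : κ * (v + x * u) ^ 2 = κ * v ^ 2 + 2 * (κ * x) * (u * v) + (κ * x) * x * u ^ 2 := by ring
      rw [hκx] at e1 e2
      constructor <;> nlinarith
    have a3 : u ^ 2 ≤ 2 * B ^ 2 + 2 * (u - p) ^ 2 := by
      have : p ^ 2 ≤ B ^ 2 := by
        rw [← sq_abs]
        exact pow_le_pow_left₀ (abs_nonneg _) hB 2
      nlinarith [sq_nonneg (u - 2 * p)]
    have a4 : 1 / (2 * κ) * u ^ 2 ≤ B ^ 2 / κ + 1 / κ * (u - p) ^ 2 := by
      have : 1 / (2 * κ) * u ^ 2 ≤ 1 / (2 * κ) * (2 * B ^ 2 + 2 * (u - p) ^ 2) :=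
        mul_le_mul_of_nonneg_left a3 (by positivity)
      refine this.trans (le_of_eq ?_)
      field_simp
    by_cases hs : |u| ≤ K ∧ |v| ≤ K
    · rw [if_pos ⟨hc, hs⟩]
      linarith
    · rw [if_neg (fun h => hs h.2)]
      have a5 : K ^ 2 ≤ u ^ 2 + v ^ 2 := by
        rw [not_and_or] at hs
        rcases hs with h | h
        · push Not at h
          have : K ^ 2 ≤ |u| ^ 2 := pow_le_pow_left₀ hK.le h.le 2
          rw [sq_abs] at this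
          nlinarith [sq_nonneg v]
        · push Not at h
          have : K ^ 2 ≤ |v| ^ 2 := pow_le_pow_left₀ hK.le h.le 2
          rw [sq_abs] at this
          nlinarith [sq_nonneg u]
      have a6 : B ^ 2 / κ ≤ B ^ 2 / κ / K ^ 2 * (u ^ 2 + v ^ 2) := by
        have : B ^ 2 / κ / K ^ 2 * K ^ 2 ≤ B ^ 2 / κ / K ^ 2 * (u ^ 2 + v ^ 2) :=
          mul_le_mul_of_nonneg_left a5 (by positivity)
        have e0 : B ^ 2 / κ / K ^ 2 * K ^ 2 = B ^ 2 / κ := by field_simp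
        linarith
      linarith
  · rw [if_neg (fun h => hc h.1), mul_zero, add_zero]
    push Not at hc
    have a1 : 1 / 2 * (|u * v| + σ * (u * v)) ≤ c₀ := by
      rw [← habs]
      rcases le_total 0 (σ * (u * v)) with h | h
      · rw [abs_of_nonneg h]
        linarith
      · rw [abs_of_nonpos h]
        linarith
    linarith

/-! ### signs -/

theorem prod_close (G₂ G₃ g₂ g₃ : ℝ → ℝ) (T κ ε C : ℝ) (hT : 1 ≤ T) (hκ : 0 < κ) (hκ1 : κ ≤ 1)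
    (hG₂ : BM T G₂) (hG₃ : BM T G₃) (hg₂ : BM T g₂) (hg₃ : BM T g₃)
    (m₂ : ∫ x in T..(2 * T), G₂ x ^ 2 ≤ C * T) (m₃ : ∫ x in T..(2 * T), G₃ x ^ 2 ≤ C * T)
    (d₂ : ∫ x in T..(2 * T), (G₂ x - g₂ x) ^ 2 ≤ ε * T) (d₃ : ∫ x in T..(2 * T), (G₃ x - g₃ x) ^ 2 ≤ ε * T) :
    ∫ x in T..(2 * T), |G₂ x * G₃ x - g₂ x * g₃ x| ≤ (κ * C + 2 * ε / κ) * T := by
  have i1 := hG₂.sq
  have i2 := hG₃.sq
  have i3 := (hG₂.sub hg₂).sq
  have i4 := (hG₃.sub hg₃).sq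
  have i5 := ((hG₂.mul hG₃).sub (hg₂.mul hg₃)).abs
  have j1 : IntervalIntegrable (fun x => κ / 2 * (G₂ x ^ 2 + G₃ x ^ 2)) volume T (2 * T) :=
    ((i1.add i2).int hT).const_mul _
  have j2 : IntervalIntegrable (fun x => 1 / κ * ((G₂ x - g₂ x) ^ 2 + (G₃ x - g₃ x) ^ 2)) volume T (2 * T) :=
    ((i3.add i4).int hT).const_mul _
  have le : ∫ x in T..(2 * T), |G₂ x * G₃ x - g₂ x * g₃ x| ≤
      ∫ x in T..(2 * T), (κ / 2 * (G₂ x ^ 2 + G₃ x ^ 2) + 1 / κ * ((G₂ x - g₂ x) ^ 2 + (G₃ x - g₃ x) ^ 2)) := by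
    apply intervalIntegral.integral_mono_on (by linarith) (i5.int hT) (j1.add j2)
    intro x _
    exact pt_one κ _ _ _ _ hκ hκ1
  rw [intervalIntegral.integral_add j1 j2, intervalIntegral.integral_const_mul,
    intervalIntegral.integral_const_mul, intervalIntegral.integral_add (i1.int hT) (i2.int hT),
    intervalIntegral.integral_add (i3.int hT) (i4.int hT)] at le
  have b1 : κ / 2 * ((∫ x in T..(2 * T), G₂ x ^ 2) + ∫ x in T..(2 * T), G₃ x ^ 2) ≤ κ / 2 * (C * T + C * T) :=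
    mul_le_mul_of_nonneg_left (by linarith) (by positivity)
  have b2 : 1 / κ * ((∫ x in T..(2 * T), (G₂ x - g₂ x) ^ 2) + ∫ x in T..(2 * T), (G₃ x - g₃ x) ^ 2) ≤
      1 / κ * (ε * T + ε * T) :=
    mul_le_mul_of_nonneg_left (by linarith) (by positivity)
  have e : κ / 2 * (C * T + C * T) + 1 / κ * (ε * T + ε * T) = (κ * C + 2 * ε / κ) * T := by
    field_simp
    ring
  linarith

theorem ind_int (T : ℝ) (hT : 1 ≤ T) (A : Set ℝ) (hA : MeasurableSet A) (r : ℝ)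
    (h : r ≤ ∫ x in T..(2 * T), A.indicator (fun _ => (1 : ℝ)) x) :
    ENNReal.ofReal r ≤ volume (Icc T (2 * T) ∩ A) := by
  rw [intervalIntegral.integral_of_le (by linarith), integral_indicator hA, Measure.restrict_restrict hA,
    setIntegral_const, smul_eq_mul, mul_one] at h
  have fin : volume (Icc T (2 * T) ∩ A) ≠ ⊤ := by
    refine ne_top_of_le_ne_top ?_ (measure_mono inter_subset_left)
    rw [Real.volume_Icc]
    exact ENNReal.ofReal_ne_top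
  refine ENNReal.ofReal_le_of_le_toReal (h.trans ?_)
  refine ENNReal.toReal_mono fin (measure_mono ?_)
  rintro x ⟨h1, h2⟩
  exact ⟨Ioc_subset_Icc_self h2, h1⟩

theorem sign_pos (G₂ G₃ : ℝ → ℝ) (hm₂ : Measurable G₂) (hm₃ : Measurable G₃)
    (hb₂ : ∀ T : ℝ, 1 ≤ T → ∃ B : ℝ, ∀ x ∈ Icc T (2 * T), |G₂ x| ≤ B)
    (hb₃ : ∀ T : ℝ, 1 ≤ T → ∃ B : ℝ, ∀ x ∈ Icc T (2 * T), |G₃ x| ≤ B)
    (η₂ c₂ η₃ c₃ : ℝ) (hc₂ : 0 < c₂) (hc₃ : 0 < c₃) (a b : ℕ → ℂ) (ha : a 1 ≠ 0) (hb : b 1 ≠ 0)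
    (h₂ : Approx G₂ 2 η₂ c₂ a) (h₃ : Approx G₃ 3 η₃ c₃ b) :
    ∃ c₀ K c₁ T₀ : ℝ, 0 < c₀ ∧ 0 < K ∧ 0 < c₁ ∧ 1 ≤ T₀ ∧ ∀ T : ℝ, T₀ ≤ T → ∀ ε : ℝ, (ε = 1 ∨ ε = -1) →
      ENNReal.ofReal (c₁ * T) ≤
        volume {x : ℝ | x ∈ Icc T (2 * T) ∧ c₀ ≤ ε * (G₂ x * G₃ x) ∧ |G₂ x| ≤ K ∧ |G₃ x| ≤ K} := by
  classical
  set cs : ℝ := ‖a 1‖ * ‖b 1‖ with hcs
  have cs0 : 0 < cs := mul_pos (norm_pos_iff.mpr ha) (norm_pos_iff.mpr hb)
  obtain ⟨C₂, T₂, hC₂, hT₂, M₂⟩ := msq G₂ hm₂ hb₂ 2 η₂ c₂ a h₂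
  obtain ⟨C₃, T₃, hC₃, hT₃, M₃⟩ := msq G₃ hm₃ hb₃ 3 η₃ c₃ b h₃
  set C : ℝ := max C₂ C₃ with hC
  have C1 : 1 ≤ C := hC₂.trans (le_max_left _ _)
  set κ : ℝ := min 1 (cs / (64 * C)) with hκd
  have hκ : 0 < κ := lt_min one_pos (by positivity)
  have hκ1 : κ ≤ 1 := min_le_left _ _
  have hκC : κ * C ≤ cs / 64 := by
    have : κ ≤ cs / (64 * C) := min_le_right _ _
    calc κ * C ≤ cs / (64 * C) * C := mul_le_mul_of_nonneg_right this (by linarith)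
      _ = cs / 64 := by field_simp
  set e : ℝ := κ * cs / 128 with hed
  have he : 0 < e := by positivity
  obtain ⟨N₂, hN₂⟩ := h₂ e he
  obtain ⟨N₃, hN₃⟩ := h₃ e he
  set N : ℕ := max 1 (max N₂ N₃) with hN
  have hN1 : 1 ≤ N := le_max_left _ _
  obtain ⟨S₂, hS₂, D₂⟩ := hN₂ N ((le_max_left _ _).trans (le_max_right _ _))
  obtain ⟨S₃, hS₃, D₃⟩ := hN₃ N ((le_max_right _ _).trans (le_max_right _ _))
  obtain ⟨U₀, hU₀, Z₀⟩ := corr_zero η₂ c₂ η₃ c₃ hc₂ hc₃ a b N (cs / 32) (by positivity)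
  obtain ⟨U₁, hU₁, Z₁⟩ := corr_one η₂ c₂ η₃ c₃ hc₂ hc₃ a b N hN1 (cs / 32) (by positivity)
  obtain ⟨B, hB1, hB⟩ := TP_bdd 2 η₂ c₂ a N
  set K : ℝ := 1 + 32 * B ^ 2 * C / (κ * cs) with hKd
  have hKx : 0 ≤ 32 * B ^ 2 * C / (κ * cs) := by positivity
  have hK1 : 1 ≤ K := by linarith
  have hK : 0 < K := by linarith
  have hK2 : B ^ 2 / κ / K ^ 2 * (2 * C) ≤ cs / 16 := by
    have h1 : 32 * B ^ 2 * C / (κ * cs) ≤ K ^ 2 := by nlinarith
    have h2 : 32 * B ^ 2 * C ≤ K ^ 2 * (κ * cs) := by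
      rwa [div_le_iff₀ (by positivity)] at h1
    have e1 : B ^ 2 / κ / K ^ 2 * (2 * C) = 2 * B ^ 2 * C / (κ * K ^ 2) := by
      field_simp
    rw [e1, div_le_iff₀ (by positivity)]
    nlinarith
  set c₁ : ℝ := κ * cs / (4 * B ^ 2) with hc₁d
  have hB0 : 0 < B := by linarith
  refine ⟨cs / 16, K, c₁, max (max T₂ T₃) (max (max S₂ S₃) (max U₀ U₁)), by positivity, hK, by positivity,
    le_max_of_le_left (le_max_of_le_left hT₂), fun T hT σ hσ => ?_⟩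
  simp only [max_le_iff] at hT
  obtain ⟨⟨t2, t3⟩, ⟨s2, s3⟩, u0, u1⟩ := hT
  have hT1 : 1 ≤ T := hT₂.trans t2
  have hG₂ : BM T G₂ := ⟨hm₂, hb₂ T hT1⟩
  have hG₃ : BM T G₃ := ⟨hm₃, hb₃ T hT1⟩
  set g₂ : ℝ → ℝ := TP 2 η₂ c₂ a N with hg₂d
  set g₃ : ℝ → ℝ := TP 3 η₃ c₃ b N with hg₃d
  have hg₂ : BM T g₂ := BM_TP T 2 η₂ c₂ a N
  have hg₃ : BM T g₃ := BM_TP T 3 η₃ c₃ b N
  have m₂ : ∫ x in T..(2 * T), G₂ x ^ 2 ≤ C * T :=
    (M₂ T t2).trans (mul_le_mul_of_nonneg_right (le_max_left _ _) (by linarith))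
  have m₃ : ∫ x in T..(2 * T), G₃ x ^ 2 ≤ C * T :=
    (M₃ T t3).trans (mul_le_mul_of_nonneg_right (le_max_right _ _) (by linarith))
  have d₂ : ∫ x in T..(2 * T), (G₂ x - g₂ x) ^ 2 ≤ e * T := D₂ T s2
  have d₃ : ∫ x in T..(2 * T), (G₃ x - g₃ x) ^ 2 ≤ e * T := D₃ T s3
  have hP : BM T (fun x => G₂ x * G₃ x) := hG₂.mul hG₃
  have hp : BM T (fun x => g₂ x * g₃ x) := hg₂.mul hg₃
  have hR : ∫ x in T..(2 * T), |G₂ x * G₃ x - g₂ x * g₃ x| ≤ cs / 32 * T := by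
    have h1 := prod_close G₂ G₃ g₂ g₃ T κ e C hT1 hκ hκ1 hG₂ hG₃ hg₂ hg₃ m₂ m₃ d₂ d₃
    have e1 : 2 * e / κ = cs / 64 := by
      rw [hed]
      field_simp
      norm_num
    rw [e1] at h1
    nlinarith
  -- the integral of the product is small
  have z0 : |∫ x in T..(2 * T), G₂ x * G₃ x| ≤ cs / 16 * T := by
    have h1 := Z₀ T u0
    have h2 : (∫ x in T..(2 * T), G₂ x * G₃ x) =
        (∫ x in T..(2 * T), (G₂ x * G₃ x - g₂ x * g₃ x)) + ∫ x in T..(2 * T), g₂ x * g₃ x := by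
      rw [← intervalIntegral.integral_add ((hP.sub hp).int hT1) (hp.int hT1)]
      apply intervalIntegral.integral_congr
      intro x _
      ring
    have h3 : |∫ x in T..(2 * T), (G₂ x * G₃ x - g₂ x * g₃ x)| ≤
        ∫ x in T..(2 * T), |G₂ x * G₃ x - g₂ x * g₃ x| :=
      intervalIntegral.abs_integral_le_integral_abs (by linarith)
    have h4 := abs_add_le (∫ x in T..(2 * T), (G₂ x * G₃ x - g₂ x * g₃ x)) (∫ x in T..(2 * T), g₂ x * g₃ x)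
    rw [h2]
    have h5 : |∫ x in T..(2 * T), g₂ x * g₃ x| ≤ cs / 32 * T := h1
    linarith
  -- the integral of its absolute value is large
  have z1 : 15 / 16 * cs * T ≤ ∫ x in T..(2 * T), |G₂ x * G₃ x| := by
    set w : ℝ → ℂ := fun x =>
      cexp (-(I * (((η₂ + η₃) * Real.log x + c₂ * x ^ ((1 : ℝ) / 2) + c₃ * x ^ ((1 : ℝ) / 3) : ℝ) : ℂ))) with hw
    have hw1 : ∀ x, ‖w x‖ = 1 := by
      intro x
      rw [hw]
      beta_reduce
      rw [← mul_neg, ← Complex.ofReal_neg, Complex.norm_exp_I_mul_ofReal]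
    have hwm : Measurable w := by
      rw [hw]
      fun_prop
    have cint : ∀ f : ℝ → ℝ, BM T f → IntervalIntegrable (fun x => (f x : ℂ) * w x) volume T (2 * T) := by
      intro f hf
      obtain ⟨hfm, Bf, hBf⟩ := hf
      refine ii_bdd hT1 _ ((Complex.measurable_ofReal.comp hfm).mul hwm).aestronglyMeasurable Bf ?_
      intro x hx
      rw [norm_mul, hw1, mul_one, Complex.norm_real, Real.norm_eq_abs]
      exact hBf x hx
    have h1 := Z₁ T u1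
    have h2 : (∫ x in T..(2 * T), ((G₂ x * G₃ x : ℝ) : ℂ) * w x) =
        (∫ x in T..(2 * T), ((G₂ x * G₃ x - g₂ x * g₃ x : ℝ) : ℂ) * w x) +
          ∫ x in T..(2 * T), ((g₂ x * g₃ x : ℝ) : ℂ) * w x := by
      rw [← intervalIntegral.integral_add (cint _ (hP.sub hp)) (cint _ hp)]
      apply intervalIntegral.integral_congr
      intro x _
      beta_reduce
      push_cast
      ring
    have h3 : ‖∫ x in T..(2 * T), ((G₂ x * G₃ x - g₂ x * g₃ x : ℝ) : ℂ) * w x‖ ≤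
        ∫ x in T..(2 * T), |G₂ x * G₃ x - g₂ x * g₃ x| := by
      refine (intervalIntegral.norm_integral_le_integral_norm (by linarith)).trans (le_of_eq ?_)
      apply intervalIntegral.integral_congr
      intro x _
      beta_reduce
      rw [norm_mul, hw1, mul_one, Complex.norm_real, Real.norm_eq_abs]
    have h4 : ‖∫ x in T..(2 * T), ((G₂ x * G₃ x : ℝ) : ℂ) * w x‖ ≤ ∫ x in T..(2 * T), |G₂ x * G₃ x| := by
      refine (intervalIntegral.norm_integral_le_integral_norm (by linarith)).trans (le_of_eq ?_)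
      apply intervalIntegral.integral_congr
      intro x _
      beta_reduce
      rw [norm_mul, hw1, mul_one, Complex.norm_real, Real.norm_eq_abs]
    set X := ∫ x in T..(2 * T), ((G₂ x * G₃ x - g₂ x * g₃ x : ℝ) : ℂ) * w x
    set Y := ∫ x in T..(2 * T), ((g₂ x * g₃ x : ℝ) : ℂ) * w x
    have h5 : ‖Y - a 1 * b 1 * T‖ ≤ cs / 32 * T := h1
    have h6 : ‖a 1 * b 1 * (T : ℂ)‖ = cs * T := by
      rw [norm_mul, norm_mul, Complex.norm_real, Real.norm_eq_abs, abs_of_nonneg (by linarith)]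
    have h7 : ‖a 1 * b 1 * (T : ℂ)‖ ≤ ‖X + Y‖ + ‖X‖ + ‖Y - a 1 * b 1 * T‖ := by
      have h8 : a 1 * b 1 * (T : ℂ) = (X + Y) - X - (Y - a 1 * b 1 * T) := by ring
      calc ‖a 1 * b 1 * (T : ℂ)‖ = ‖(X + Y) - X - (Y - a 1 * b 1 * T)‖ := by rw [← h8]
        _ ≤ ‖(X + Y) - X‖ + ‖Y - a 1 * b 1 * T‖ := norm_sub_le _ _
        _ ≤ ‖X + Y‖ + ‖X‖ + ‖Y - a 1 * b 1 * T‖ := by
          have := norm_sub_le (X + Y) X
          linarith
    rw [← h2] at h7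
    rw [h6] at h7
    linarith
  -- the integrated pointwise inequality
  set A : Set ℝ := {x | cs / 16 ≤ σ * (G₂ x * G₃ x) ∧ |G₂ x| ≤ K ∧ |G₃ x| ≤ K} with hA
  have hAm : MeasurableSet A := by
    rw [hA]
    refine (measurableSet_le measurable_const ((hm₂.mul hm₃).const_mul σ)).inter ?_
    exact (measurableSet_le hm₂.abs measurable_const).inter (measurableSet_le hm₃.abs measurable_const)
  have hI : BM T (A.indicator (fun _ => (1 : ℝ))) := by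
    refine ⟨measurable_const.indicator hAm, 1, fun x _ => ?_⟩
    by_cases hx : x ∈ A
    · rw [indicator_of_mem hx, abs_one]
    · rw [indicator_of_notMem hx, abs_zero]
      exact zero_le_one
  have i1 : IntervalIntegrable (fun x => 1 / 2 * (|G₂ x * G₃ x| + σ * (G₂ x * G₃ x))) volume T (2 * T) :=
    ((hP.abs.add ((BM.const σ).mul hP)).int hT1).const_mul _
  have j1 : IntervalIntegrable (fun _ : ℝ => cs / 16) volume T (2 * T) := intervalIntegrable_const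
  have j2 : IntervalIntegrable (fun x => κ / 2 * G₃ x ^ 2) volume T (2 * T) := (hG₃.sq.int hT1).const_mul _
  have j3 : IntervalIntegrable (fun x => 1 / κ * (G₂ x - g₂ x) ^ 2) volume T (2 * T) :=
    ((hG₂.sub hg₂).sq.int hT1).const_mul _
  have j4 : IntervalIntegrable (fun x => B ^ 2 / κ / K ^ 2 * (G₂ x ^ 2 + G₃ x ^ 2)) volume T (2 * T) :=
    ((hG₂.sq.add hG₃.sq).int hT1).const_mul _
  have j5 : IntervalIntegrable (fun x => B ^ 2 / κ * A.indicator (fun _ => (1 : ℝ)) x) volume T (2 * T) :=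
    (hI.int hT1).const_mul _
  have main : ∫ x in T..(2 * T), 1 / 2 * (|G₂ x * G₃ x| + σ * (G₂ x * G₃ x)) ≤
      ∫ x in T..(2 * T), (cs / 16 + κ / 2 * G₃ x ^ 2 + 1 / κ * (G₂ x - g₂ x) ^ 2 +
        B ^ 2 / κ / K ^ 2 * (G₂ x ^ 2 + G₃ x ^ 2) + B ^ 2 / κ * A.indicator (fun _ => (1 : ℝ)) x) := by
    apply intervalIntegral.integral_mono_on (by linarith) i1 ((((j1.add j2).add j3).add j4).add j5)
    intro x _
    have := pt_two σ κ (cs / 16) K B (G₂ x) (G₃ x) (g₂ x) hσ hκ (by positivity) hK (hB x)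
    by_cases hx : x ∈ A
    · rw [if_pos (show cs / 16 ≤ σ * (G₂ x * G₃ x) ∧ |G₂ x| ≤ K ∧ |G₃ x| ≤ K from hx)] at this
      rwa [indicator_of_mem hx]
    · have hx' : ¬(cs / 16 ≤ σ * (G₂ x * G₃ x) ∧ |G₂ x| ≤ K ∧ |G₃ x| ≤ K) := hx
      rw [if_neg hx'] at this
      rwa [indicator_of_notMem hx]
  rw [intervalIntegral.integral_add (((j1.add j2).add j3).add j4) j5,
    intervalIntegral.integral_add ((j1.add j2).add j3) j4,
    intervalIntegral.integral_add (j1.add j2) j3, intervalIntegral.integral_add j1 j2,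
    intervalIntegral.integral_const_mul, intervalIntegral.integral_const_mul,
    intervalIntegral.integral_const_mul, intervalIntegral.integral_const_mul,
    intervalIntegral.integral_const_mul, intervalIntegral.integral_const,
    intervalIntegral.integral_add (hP.abs.int hT1) (((BM.const σ).mul hP).int hT1),
    intervalIntegral.integral_const_mul, intervalIntegral.integral_add (hG₂.sq.int hT1) (hG₃.sq.int hT1),
    smul_eq_mul] at main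
  have hσz : -(cs / 16 * T) ≤ σ * ∫ x in T..(2 * T), G₂ x * G₃ x := by
    have h1 := abs_le.mp z0
    rcases hσ with rfl | rfl
    · linarith [h1.1]
    · linarith [h1.2]
  have f1 : κ / 2 * (∫ x in T..(2 * T), G₃ x ^ 2) ≤ cs / 128 * T := by
    have : κ / 2 * (∫ x in T..(2 * T), G₃ x ^ 2) ≤ κ / 2 * (C * T) :=
      mul_le_mul_of_nonneg_left m₃ (by positivity)
    have h2 : κ * C * T ≤ cs / 64 * T := mul_le_mul_of_nonneg_right hκC (by linarith)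
    linarith
  have f2 : 1 / κ * (∫ x in T..(2 * T), (G₂ x - g₂ x) ^ 2) ≤ cs / 128 * T := by
    have : 1 / κ * (∫ x in T..(2 * T), (G₂ x - g₂ x) ^ 2) ≤ 1 / κ * (e * T) :=
      mul_le_mul_of_nonneg_left d₂ (by positivity)
    have e1 : 1 / κ * (e * T) = cs / 128 * T := by
      rw [hed]
      field_simp
    linarith
  have f3 : B ^ 2 / κ / K ^ 2 * ((∫ x in T..(2 * T), G₂ x ^ 2) + ∫ x in T..(2 * T), G₃ x ^ 2) ≤ cs / 16 * T := by
    have h1 : B ^ 2 / κ / K ^ 2 * ((∫ x in T..(2 * T), G₂ x ^ 2) + ∫ x in T..(2 * T), G₃ x ^ 2) ≤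
        B ^ 2 / κ / K ^ 2 * (C * T + C * T) :=
      mul_le_mul_of_nonneg_left (by linarith) (by positivity)
    have h2 : B ^ 2 / κ / K ^ 2 * (2 * C) * T ≤ cs / 16 * T := mul_le_mul_of_nonneg_right hK2 (by linarith)
    linarith
  have fin : c₁ * T ≤ ∫ x in T..(2 * T), A.indicator (fun _ => (1 : ℝ)) x := by
    set W := ∫ x in T..(2 * T), A.indicator (fun _ => (1 : ℝ)) x
    have h1 : cs / 4 * T ≤ B ^ 2 / κ * W := by
      have hcT : 0 < cs * T := by positivity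
      linarith
    have h2 : c₁ * T = κ / B ^ 2 * (cs / 4 * T) := by
      rw [hc₁d]
      field_simp
    have h3 : κ / B ^ 2 * (B ^ 2 / κ * W) = W := by
      field_simp
    rw [h2, ← h3]
    exact mul_le_mul_of_nonneg_left h1 (by positivity)
  exact ind_int T hT1 A hAm (c₁ * T) fin

end Pool.Agent.H15.SC
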