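import Pool.Agent.H15.SC.Vthm
import Pool.Agent.H15.SC.Sign

/-!
# SC-31  normalised error terms  (project SC, MP_be4568_nt)

`G(x) = Ep x / x^{(d-1)/(2d)}`, `a n = κ f(n)/n · n^β`, `β = (d-1)/(2d) + iη`:
`(f n/n) eE(n x) = a n · x^β e^{i c (n x)^{1/d}} = x^{(d-1)/(2d)} a n e^{i (η log x + c (n x)^{1/d})}` for `x > 0`, `n ≥ 1`, so
`trg N x = x^{(d-1)/(2d)} TP d η c a N x`; `vthm` with `x^{-(d-1)/d} ≤ T^{-(d-1)/d}` on `[T,2T]` and `T^{2-1/d-(d-1)/d} = T`.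
`a 1 = κ ≠ 0`.  `near_inc` is `h2` of `sup_control`, `E_small` is `h1` (for `Ep`, equal to `E` on `[1,∞)`).
-/

set_option autoImplicit false

open Complex Filter Topology MeasureTheory Set

namespace Pool.Agent.H15.SC

variable {D : SelData}

/-- the normalised error term -/
noncomputable def nG (D : SelData) (d : ℕ) (x : ℝ) : ℝ := D.Ep x / x ^ (((d : ℝ) - 1) / (2 * d))

private theorem nrm_r_nonneg (d : ℕ) : 0 ≤ ((d : ℝ) - 1) / (2 * d) := by
  rcases Nat.eq_zero_or_pos d with h | h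
  · subst h; simp
  · have h1 : (1 : ℝ) ≤ d := by exact_mod_cast h
    exact div_nonneg (by linarith) (by linarith)

theorem nG_meas {d : ℕ} (h : IsSel D d) : Measurable (nG D d) := by
  obtain ⟨P⟩ := exists_core h
  exact P.E_meas.div (measurable_id.pow_const _)

theorem nG_bdd {d : ℕ} (h : IsSel D d) (T : ℝ) (hT : 1 ≤ T) : ∃ B : ℝ, ∀ x ∈ Icc T (2 * T), |nG D d x| ≤ B := by
  obtain ⟨P⟩ := exists_core h
  obtain ⟨C, hC, hb⟩ := P.E_bound
  refine ⟨C * (2 * T) ^ ((3 : ℝ) / 2), fun x hx => ?_⟩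
  have hx1 : 1 ≤ x := hT.trans hx.1
  have hx0 : 0 < x := by linarith
  have hr := nrm_r_nonneg d
  have hp : 1 ≤ x ^ (((d : ℝ) - 1) / (2 * d)) := Real.one_le_rpow hx1 hr
  unfold nG SelData.Ep
  rw [if_pos hx1, abs_div, abs_of_pos (show 0 < x ^ (((d : ℝ) - 1) / (2 * d)) by linarith)]
  refine (div_le_self (abs_nonneg _) hp).trans ((hb x hx1).trans ?_)
  exact mul_le_mul_of_nonneg_left (Real.rpow_le_rpow hx0.le hx.2 (by norm_num)) hC

private theorem nrm_TP_meas (d : ℕ) (η c : ℝ) (a : ℕ → ℂ) (N : ℕ) : Measurable (TP d η c a N) := by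
  unfold TP
  refine Finset.measurable_fun_sum _ fun n _ => ?_
  have h1 : Measurable fun x : ℝ => η * Real.log x + c * (n * x) ^ ((1 : ℝ) / d) :=
    (Real.measurable_log.const_mul _).add ((((measurable_id.const_mul _)).pow_const _).const_mul _)
  have h2 : Measurable fun x : ℝ => ((η * Real.log x + c * (n * x) ^ ((1 : ℝ) / d) : ℝ) : ℂ) :=
    Complex.measurable_ofReal.comp h1
  exact (Complex.measurable_re.comp (((Complex.measurable_exp.comp (h2.const_mul I))).const_mul (a n))).const_mul 2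

private theorem nrm_TP_bdd (d : ℕ) (η c : ℝ) (a : ℕ → ℂ) (N : ℕ) (x : ℝ) :
    |TP d η c a N x| ≤ ∑ n ∈ Finset.Icc 1 N, 2 * ‖a n‖ := by
  unfold TP
  refine (Finset.abs_sum_le_sum_abs _ _).trans (Finset.sum_le_sum fun n _ => ?_)
  rw [abs_mul, abs_two]
  refine mul_le_mul_of_nonneg_left ?_ zero_le_two
  refine (Complex.abs_re_le_norm _).trans ?_
  rw [norm_mul, mul_comm I, Complex.norm_exp_ofReal_mul_I, mul_one]

theorem nrm_trg {d : ℕ} (O : OscData D d) (N : ℕ) (x : ℝ) (hx : 0 < x) :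
    trg D O N x = x ^ (((d : ℝ) - 1) / (2 * d)) *
      TP d O.η O.c (fun n => O.κ * ((D.f n / n : ℝ) : ℂ) * (n : ℂ) ^ (bet d O.η)) N x := by
  unfold trg TP
  rw [Finset.mul_sum]
  refine Finset.sum_congr rfl fun n hn => ?_
  have hn1 : 1 ≤ n := (Finset.mem_Icc.1 hn).1
  have hn0 : (0 : ℝ) < n := by exact_mod_cast hn1
  have hpow : (((n * x : ℝ)) : ℂ) ^ (bet d O.η) = (n : ℂ) ^ (bet d O.η) *
      (((x ^ (((d : ℝ) - 1) / (2 * d)) : ℝ) : ℂ) * cexp (I * ((O.η * Real.log x : ℝ) : ℂ))) := by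
    have e1 : (((n * x : ℝ)) : ℂ) ^ (bet d O.η) = (((n : ℝ) : ℂ)) ^ (bet d O.η) * ((x : ℂ)) ^ (bet d O.η) := by
      rw [Complex.ofReal_mul, Complex.mul_cpow_ofReal_nonneg hn0.le hx.le]
    have e2 : ((x : ℂ)) ^ (bet d O.η) =
        (((x ^ (((d : ℝ) - 1) / (2 * d)) : ℝ) : ℂ) * cexp (I * ((O.η * Real.log x : ℝ) : ℂ))) := by
      have hxc : (x : ℂ) ≠ 0 := by exact_mod_cast hx.ne'
      unfold bet
      rw [Complex.cpow_add _ _ hxc, Complex.ofReal_cpow hx.le, Complex.cpow_def_of_ne_zero hxc (↑O.η * I),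
        ← Complex.ofReal_log hx.le]
      congr 2
      push_cast
      ring
    rw [e1, e2, Complex.ofReal_natCast]
  have key : ((D.f n / n : ℝ) : ℂ) * eE d O.κ (bet d O.η) O.c (n * x) =
      ((x ^ (((d : ℝ) - 1) / (2 * d)) : ℝ) : ℂ) *
        (O.κ * ((D.f n / n : ℝ) : ℂ) * (n : ℂ) ^ (bet d O.η) *
          cexp (I * ((O.η * Real.log x + O.c * (n * x) ^ ((1 : ℝ) / d) : ℝ) : ℂ))) := by
    unfold eE
    rw [hpow]
    have e3 : cexp (I * ((O.η * Real.log x + O.c * (n * x) ^ ((1 : ℝ) / d) : ℝ) : ℂ)) =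
        cexp (I * ((O.η * Real.log x : ℝ) : ℂ)) * cexp (I * ((O.c * (n * x) ^ ((1 : ℝ) / d) : ℝ) : ℂ)) := by
      rw [← Complex.exp_add]
      congr 1
      push_cast
      ring
    rw [e3]
    ring
  rw [key, Complex.re_ofReal_mul]
  ring

theorem nG_approx {d : ℕ} (hd : d = 2 ∨ d = 3) (h : IsSel D d) {a : ℝ} (ha1 : 1 ≤ a) (ha2 : a < 3/2)
    (hM : Mom D a) : ∃ (η c : ℝ) (b : ℕ → ℂ), 0 < c ∧ b 1 ≠ 0 ∧ Approx (nG D d) d η c b := by
  obtain ⟨P⟩ := exists_core h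
  obtain ⟨O⟩ := exists_osc (d := d) (by omega) h
  refine ⟨O.η, O.c, fun n => O.κ * ((D.f n / n : ℝ) : ℂ) * (n : ℂ) ^ (bet d O.η), O.c_pos, ?_, ?_⟩
  · simpa [h.one] using O.κ_ne
  intro ε hε
  obtain ⟨N₀, hN₀⟩ := vthm hd h P O ha1 ha2 hM ε hε
  refine ⟨N₀, fun N hN => ?_⟩
  obtain ⟨T₀, hT₀, hT⟩ := hN₀ N hN
  refine ⟨T₀, hT₀, fun T hTT => ?_⟩
  have hT1 : 1 ≤ T := hT₀.trans hTT
  have hT0 : 0 < T := by linarith
  have hd0 : (d : ℝ) ≠ 0 := by rcases hd with rfl | rfl <;> norm_num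
  set r : ℝ := ((d : ℝ) - 1) / (2 * d) with hr
  have hr0 : 0 ≤ r := nrm_r_nonneg d
  set b : ℕ → ℂ := fun n => O.κ * ((D.f n / n : ℝ) : ℂ) * (n : ℂ) ^ (bet d O.η) with hb
  have hTP := nrm_TP_meas d O.η O.c b N
  obtain ⟨B, hB⟩ := nG_bdd h T hT1
  have hum : Measurable fun x => nG D d x - TP d O.η O.c b N x := (nG_meas h).sub hTP
  have hub : ∀ x ∈ Icc T (2 * T), |nG D d x - TP d O.η O.c b N x| ≤ B + ∑ n ∈ Finset.Icc 1 N, 2 * ‖b n‖ :=
    fun x hx => (abs_sub _ _).trans (add_le_add (hB x hx) (nrm_TP_bdd d O.η O.c b N x))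
  set M : ℝ := B + ∑ n ∈ Finset.Icc 1 N, 2 * ‖b n‖ with hMdef
  have hle : T ≤ 2 * T := by linarith
  have hint1 : IntervalIntegrable (fun x => (nG D d x - TP d O.η O.c b N x) ^ 2) volume T (2 * T) := by
    rw [intervalIntegrable_iff_integrableOn_Icc_of_le hle]
    refine MeasureTheory.Measure.integrableOn_of_bounded (M := M ^ 2) (by simp) (hum.pow_const 2).aestronglyMeasurable ?_
    refine (ae_restrict_iff' measurableSet_Icc).2 (Filter.Eventually.of_forall fun x hx => ?_)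
    rw [Real.norm_eq_abs, abs_pow]
    exact pow_le_pow_left₀ (abs_nonneg _) (hub x hx) 2
  have hint2 : IntervalIntegrable (fun x => T ^ (-(2 * r)) * (x ^ r * (nG D d x - TP d O.η O.c b N x)) ^ 2)
      volume T (2 * T) := by
    refine IntervalIntegrable.const_mul ?_ _
    rw [intervalIntegrable_iff_integrableOn_Icc_of_le hle]
    refine MeasureTheory.Measure.integrableOn_of_bounded (M := ((2 * T) ^ r * M) ^ 2) (by simp)
      (((measurable_id.pow_const r).mul hum).pow_const 2).aestronglyMeasurable ?_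
    refine (ae_restrict_iff' measurableSet_Icc).2 (Filter.Eventually.of_forall fun x hx => ?_)
    have hx0 : 0 < x := by linarith [hx.1]
    show ‖(x ^ r * (nG D d x - TP d O.η O.c b N x)) ^ 2‖ ≤ _
    rw [Real.norm_eq_abs, abs_pow, abs_mul, abs_of_pos (Real.rpow_pos_of_pos hx0 r)]
    refine pow_le_pow_left₀ (mul_nonneg (Real.rpow_pos_of_pos hx0 r).le (abs_nonneg _)) ?_ 2
    exact mul_le_mul (Real.rpow_le_rpow hx0.le hx.2 hr0) (hub x hx) (abs_nonneg _)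
      (Real.rpow_nonneg (by linarith) r)
  have hmono : ∫ x in T..(2 * T), (nG D d x - TP d O.η O.c b N x) ^ 2 ≤
      ∫ x in T..(2 * T), T ^ (-(2 * r)) * (x ^ r * (nG D d x - TP d O.η O.c b N x)) ^ 2 := by
    refine intervalIntegral.integral_mono_on hle hint1 hint2 fun x hx => ?_
    have hx0 : 0 < x := by linarith [hx.1]
    rw [mul_pow, ← mul_assoc]
    refine le_mul_of_one_le_left (sq_nonneg _) ?_
    rw [Real.rpow_neg hT0.le, inv_mul_eq_div, one_le_div (Real.rpow_pos_of_pos hT0 _)]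
    rw [mul_comm 2 r, Real.rpow_mul hT0.le]
    have e : T ^ r ≤ x ^ r := Real.rpow_le_rpow hT0.le hx.1 hr0
    have e2 : (T ^ r) ^ (2 : ℝ) = (T ^ r) ^ 2 := by
      rw [show (2 : ℝ) = ((2 : ℕ) : ℝ) by norm_num, Real.rpow_natCast]
    rw [e2]
    exact pow_le_pow_left₀ (Real.rpow_nonneg hT0.le r) e 2
  refine hmono.trans ?_
  have hcongr : ∫ x in T..(2 * T), T ^ (-(2 * r)) * (x ^ r * (nG D d x - TP d O.η O.c b N x)) ^ 2 =
      T ^ (-(2 * r)) * ∫ x in T..(2 * T), (D.E x - trg D O N x) ^ 2 := by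
    rw [← intervalIntegral.integral_const_mul]
    refine intervalIntegral.integral_congr fun x hx => ?_
    rw [uIcc_of_le hle] at hx
    have hx0 : 0 < x := by linarith [hx.1]
    have hx1 : 1 ≤ x := hT1.trans hx.1
    have e1 : x ^ r * (nG D d x - TP d O.η O.c b N x) = D.E x - trg D O N x := by
      rw [nrm_trg O N x hx0, mul_sub]
      congr 1
      unfold nG SelData.Ep
      rw [if_pos hx1, mul_div_assoc', mul_comm, mul_div_assoc, div_self (Real.rpow_pos_of_pos hx0 _).ne', mul_one]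
    show T ^ (-(2 * r)) * (x ^ r * (nG D d x - TP d O.η O.c b N x)) ^ 2 = T ^ (-(2 * r)) * (D.E x - trg D O N x) ^ 2
    rw [e1]
  rw [hcongr]
  calc T ^ (-(2 * r)) * ∫ x in T..(2 * T), (D.E x - trg D O N x) ^ 2
      ≤ T ^ (-(2 * r)) * (ε * T ^ (2 - 1 / (d : ℝ))) :=
        mul_le_mul_of_nonneg_left (hT T hTT) (Real.rpow_nonneg hT0.le _)
    _ = ε * (T ^ (-(2 * r)) * T ^ (2 - 1 / (d : ℝ))) := by ring
    _ = ε * T := by
        rw [← Real.rpow_add hT0]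
        have : -(2 * r) + (2 - 1 / (d : ℝ)) = 1 := by
          rw [hr]; field_simp; ring
        rw [this, Real.rpow_one]

end Pool.Agent.H15.SC
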