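import Mathlib

/-!
# SC-27  sup control on short intervals by dyadic chaining  (project SC, MP_be4568_nt)

Choose `λ < β` close to `β`, `θ, ρ > 0` small: `λ + θ < β - 2ρ` and `δ + (1-λ)(a-1) + 3ρ < 2β`.  `v = T^{λ-1}`, `K` with
`2^{K-1} v < 2 T^{δ-1} ≤ 2^K v` (if `2T^{δ-1} ≤ v` take `K = 0`); `K ≤ C log T`.
For `y = x + u ∈ [x, x + T^δ]`: `log (y/x) ≤ T^{δ-1}`, `y = x e^{k v + w}` with `0 ≤ w < v`, `k ≤ 2^K`, and
`|E y - E (x e^{kv})| ≤ C (1 + 4 T^λ) (4T)^θ ≤ T^{β-ρ}/4` by `h1`.  Binary chain from `0` to `k`: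
`|E (x e^{kv}) - E x| ≤ ∑_{j≤K} max_{m < 2^{K-j}} |D_j (x e^{m 2^j v})|`, `D_j(y) = E (y e^{2^j v}) - E y`.
`ψ(x) = (K+1) ∑_{j≤K} ∑_{m<2^{K-j}} |D_j (x e^{m 2^j v})|²` is measurable and `∫_T^{2T} ψ ≤ (K+1) ∑_j 2^{K-j} · 2 C (2T)² (2^j v)^{2-a}
≤ C' (K+1)² T² (2^K v) v^{1-a} ≤ C'' (K+1)² T^{1 + max(δ,λ) + (1-λ)(a-1)}` (substitute `y = x e^{m 2^j v}`, `[T,4T] = [T,2T] ∪ [2T,4T]`, `a ≥ 1`).
Markov: the set is contained in `{ψ ≥ T^{2β-2ρ}/4}`.  (`λ < δ` may be assumed or treat `max`: `λ + (1-λ)(a-1) < 2β` also holds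
because `λ < β` and `(1-β)(a-1) < 2β - δ`; choose the parameters so that both exponents are `< 2β - 3ρ`; note
`β + (1-β)(a-1) < 2β` is needed for that: if `δ < β` enlarge `δ` to a number in `(max(δ, ..), 2β-(1-β)(a-1))`, which only enlarges
the set; hypothesis `hβ` guarantees `β < 2β - (1-β)(a-1)`.)
NOTE: `δ < 1` is needed (for `a > 1` the statement fails for some `δ > 1`).
-/

set_option autoImplicit false

open Filter Topology MeasureTheory Set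

namespace Pool.Agent.H15.SC

private theorem spc_chain (g : ℕ → ℝ) (K k : ℕ) (hk : k < 2 ^ K) :
    (g k - g 0) ^ 2 ≤ K * ∑ j ∈ Finset.range K, ∑ m ∈ Finset.range (2 ^ (K - j)),
      (g ((m + 1) * 2 ^ j) - g (m * 2 ^ j)) ^ 2 := by
  have h0 : g k - g 0 = ∑ j ∈ Finset.range K,
      (g (k / 2 ^ j * 2 ^ j) - g (k / 2 ^ (j + 1) * 2 ^ (j + 1))) := by
    rw [Finset.sum_range_sub' (fun j => g (k / 2 ^ j * 2 ^ j))]
    simp [Nat.div_eq_of_lt hk]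
  rw [h0]
  refine (sq_sum_le_card_mul_sum_sq).trans ?_
  rw [Finset.card_range]
  refine mul_le_mul_of_nonneg_left (Finset.sum_le_sum fun j hj => ?_) (Nat.cast_nonneg _)
  have hjK : j < K := Finset.mem_range.1 hj
  obtain ⟨q, hq⟩ : ∃ q, q = k / 2 ^ (j + 1) := ⟨_, rfl⟩
  have e1 : k / 2 ^ j = 2 * q ∨ k / 2 ^ j = 2 * q + 1 := by
    have : q = k / 2 ^ j / 2 := by rw [hq, pow_succ, Nat.div_div_eq_div_mul]
    omega
  have e2 : q * 2 ^ (j + 1) = (2 * q) * 2 ^ j := by ring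
  rw [← hq]
  rcases e1 with e1 | e1
  · rw [e1, e2, sub_self]
    simp only [ne_eq, OfNat.ofNat_ne_zero, not_false_eq_true, zero_pow]
    exact Finset.sum_nonneg fun _ _ => sq_nonneg _
  · rw [e1, e2]
    have hm : 2 * q ∈ Finset.range (2 ^ (K - j)) := by
      rw [Finset.mem_range]
      have : k / 2 ^ j < 2 ^ (K - j) := by
        rw [Nat.div_lt_iff_lt_mul (by positivity), ← pow_add, Nat.sub_add_cancel hjK.le]
        exact hk
      omega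
    exact Finset.single_le_sum (f := fun m => (g ((m + 1) * 2 ^ j) - g (m * 2 ^ j)) ^ 2)
      (fun _ _ => sq_nonneg _) hm

private theorem spc_scale (F : ℝ → ENNReal) (hF : Measurable F) (T c : ℝ) (hT : 0 < T) (hc1 : 1 ≤ c)
    (hc2 : c ≤ 2) :
    ∫⁻ x in Icc T (2 * T), F (c * x) ≤ ∫⁻ y in Icc T (4 * T), F y := by
  have h1 : ∫⁻ x in Icc T (2 * T), F (c * x) ≤ ∫⁻ x, (Icc T (4 * T)).indicator F (c * x) := by
    rw [← lintegral_indicator measurableSet_Icc]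
    refine lintegral_mono fun x => ?_
    by_cases hx : x ∈ Icc T (2 * T)
    · have : c * x ∈ Icc T (4 * T) := ⟨by nlinarith [hx.1], by nlinarith [hx.1, hx.2]⟩
      simp only [indicator_of_mem hx, indicator_of_mem this]
      exact le_rfl
    · simp only [indicator_of_notMem hx]
      exact zero_le
  refine h1.trans ?_
  have h2 : ∫⁻ x, (Icc T (4 * T)).indicator F (c * x) =
      ∫⁻ y, (Icc T (4 * T)).indicator F y ∂(Measure.map (c * ·) volume) := by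
    rw [lintegral_map (hF.indicator measurableSet_Icc) (measurable_const_mul c)]
  have hc0 : (0 : ℝ) < c := by linarith
  rw [h2, Real.map_volume_mul_left hc0.ne', lintegral_smul_measure, lintegral_indicator measurableSet_Icc,
    smul_eq_mul]
  refine mul_le_of_le_one_left zero_le ?_
  rw [← ENNReal.ofReal_one]
  refine ENNReal.ofReal_le_ofReal ?_
  rw [abs_of_pos (inv_pos.2 hc0)]
  exact inv_le_one_of_one_le₀ hc1

/-- the mean square of one increment, base point moved by the factor `c` -/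
private theorem spc_inc (E : ℝ → ℝ) (hm : Measurable E) (a C : ℝ) (hC : 0 ≤ C)
    (h2 : ∀ T : ℝ, 1 ≤ T → ∀ v : ℝ, 0 < v → v ≤ 1 →
      ∫⁻ x in Icc T (2 * T), ENNReal.ofReal ((E (x * Real.exp v) - E x) ^ 2) ≤
        ENNReal.ofReal (C * T ^ 2 * v ^ (2 - a)))
    (T : ℝ) (hT : 1 ≤ T) (c w : ℝ) (hc1 : 1 ≤ c) (hc2 : c ≤ 2) (hw : 0 < w) (hw1 : w ≤ 1) :
    ∫⁻ x in Icc T (2 * T), ENNReal.ofReal ((E (c * x * Real.exp w) - E (c * x)) ^ 2) ≤
      ENNReal.ofReal (5 * C * T ^ 2 * w ^ (2 - a)) := by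
  have hF : Measurable fun y : ℝ => ENNReal.ofReal ((E (y * Real.exp w) - E y) ^ 2) :=
    (((hm.comp (measurable_id.mul_const _)).sub hm).pow_const 2).ennreal_ofReal
  refine (spc_scale _ hF T c (by linarith) hc1 hc2).trans ?_
  have hsub : Icc T (4 * T) ⊆ Icc T (2 * T) ∪ Icc (2 * T) (2 * (2 * T)) := by
    intro x hx
    rcases le_total x (2 * T) with h | h
    · exact Or.inl ⟨hx.1, h⟩
    · exact Or.inr ⟨h, by linarith [hx.2]⟩
  refine (lintegral_mono_set hsub).trans ((lintegral_union_le _ _ _).trans ?_)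
  refine (add_le_add (h2 T hT w hw hw1) (h2 (2 * T) (by linarith) w hw hw1)).trans ?_
  have hw0 : 0 ≤ w ^ (2 - a) := Real.rpow_nonneg hw.le _
  rw [← ENNReal.ofReal_add (by positivity) (by positivity)]
  refine ENNReal.ofReal_le_ofReal (le_of_eq ?_)
  ring

private theorem spc_exp_le_two {t : ℝ} (ht : t ≤ 1 / 2) : Real.exp t ≤ 2 := by
  have h : t ≤ Real.log 2 := by
    have := Real.log_two_gt_d9
    linarith
  calc Real.exp t ≤ Real.exp (Real.log 2) := Real.exp_le_exp.2 h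
    _ = 2 := Real.exp_log two_pos

/-- the integral of the chaining sum -/
private theorem spc_total (E : ℝ → ℝ) (hm : Measurable E) (a C : ℝ) (ha1 : 1 ≤ a) (hC : 0 ≤ C)
    (h2 : ∀ T : ℝ, 1 ≤ T → ∀ v : ℝ, 0 < v → v ≤ 1 →
      ∫⁻ x in Icc T (2 * T), ENNReal.ofReal ((E (x * Real.exp v) - E x) ^ 2) ≤
        ENNReal.ofReal (C * T ^ 2 * v ^ (2 - a)))
    (T : ℝ) (hT : 1 ≤ T) (K : ℕ) (v : ℝ) (hv : 0 < v) (hV : 2 ^ K * v ≤ 1 / 2) :
    ∫⁻ x in Icc T (2 * T), ((K : ENNReal) * ∑ j ∈ Finset.range K, ∑ m ∈ Finset.range (2 ^ (K - j)),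
      ENNReal.ofReal ((E (x * Real.exp ((((m + 1) * 2 ^ j : ℕ) : ℝ) * v)) -
        E (x * Real.exp (((m * 2 ^ j : ℕ) : ℝ) * v))) ^ 2)) ≤
      ENNReal.ofReal (5 * C * T ^ 2 * K ^ 2 * (2 ^ K * v) * v ^ (1 - a)) := by
  have hmeas : ∀ s : ℝ, Measurable fun x : ℝ => E (x * s) := fun s =>
    hm.comp (measurable_id.mul_const _)
  have hDm : ∀ s r : ℝ, Measurable fun x : ℝ => ENNReal.ofReal ((E (x * s) - E (x * r)) ^ 2) := fun s r =>
    (((hmeas s).sub (hmeas r)).pow_const 2).ennreal_ofReal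
  rw [lintegral_const_mul _ (Finset.measurable_fun_sum _ fun j _ => Finset.measurable_fun_sum _ fun m _ =>
    hDm _ _)]
  rw [lintegral_finsetSum _ (fun j _ => Finset.measurable_fun_sum _ fun m _ => hDm _ _)]
  have hj : ∀ j ∈ Finset.range K, ∫⁻ x in Icc T (2 * T), ∑ m ∈ Finset.range (2 ^ (K - j)),
      ENNReal.ofReal ((E (x * Real.exp ((((m + 1) * 2 ^ j : ℕ) : ℝ) * v)) -
        E (x * Real.exp (((m * 2 ^ j : ℕ) : ℝ) * v))) ^ 2) ≤
      ENNReal.ofReal (5 * C * T ^ 2 * (2 ^ K * v) * v ^ (1 - a)) := by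
    intro j hj
    have hjK : j < K := Finset.mem_range.1 hj
    have hjv : (2 : ℝ) ^ j * v ≤ 1 / 2 := by
      refine le_trans ?_ hV
      exact mul_le_mul_of_nonneg_right (pow_le_pow_right₀ one_le_two hjK.le) hv.le
    rw [lintegral_finsetSum _ (fun m _ => hDm _ _)]
    have hm1 : ∀ m ∈ Finset.range (2 ^ (K - j)), ∫⁻ x in Icc T (2 * T),
        ENNReal.ofReal ((E (x * Real.exp ((((m + 1) * 2 ^ j : ℕ) : ℝ) * v)) -
          E (x * Real.exp (((m * 2 ^ j : ℕ) : ℝ) * v))) ^ 2) ≤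
        ENNReal.ofReal (5 * C * T ^ 2 * (2 ^ j * v) ^ (2 - a)) := by
      intro m hm'
      have hmK : m * 2 ^ j ≤ 2 ^ K := by
        have h1 : m ≤ 2 ^ (K - j) := (Finset.mem_range.1 hm').le
        calc m * 2 ^ j ≤ 2 ^ (K - j) * 2 ^ j := Nat.mul_le_mul_right _ h1
          _ = 2 ^ K := by rw [← pow_add, Nat.sub_add_cancel hjK.le]
      have hmK' : (((m * 2 ^ j : ℕ) : ℝ)) ≤ 2 ^ K := by exact_mod_cast hmK
      have e : ∀ x : ℝ, x * Real.exp ((((m + 1) * 2 ^ j : ℕ) : ℝ) * v) =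
          Real.exp (((m * 2 ^ j : ℕ) : ℝ) * v) * x * Real.exp (2 ^ j * v) := by
        intro x
        have : (((m + 1) * 2 ^ j : ℕ) : ℝ) * v = ((m * 2 ^ j : ℕ) : ℝ) * v + 2 ^ j * v := by
          push_cast
          ring
        rw [this, Real.exp_add]
        ring
      have e' : ∀ x : ℝ, x * Real.exp (((m * 2 ^ j : ℕ) : ℝ) * v) =
          Real.exp (((m * 2 ^ j : ℕ) : ℝ) * v) * x := fun x => mul_comm _ _
      simp only [e, e']
      refine spc_inc E hm a C hC h2 T hT _ _ (Real.one_le_exp (by positivity)) (spc_exp_le_two ?_)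
        (by positivity) (by linarith)
      exact le_trans (mul_le_mul_of_nonneg_right hmK' hv.le) hV
    refine (Finset.sum_le_sum hm1).trans ?_
    rw [Finset.sum_const, Finset.card_range, nsmul_eq_mul]
    have e1 : (((2 ^ (K - j) : ℕ)) : ENNReal) = ENNReal.ofReal (2 ^ (K - j)) := by
      rw [← ENNReal.ofReal_natCast]
      push_cast
      rfl
    rw [e1, ← ENNReal.ofReal_mul (by positivity)]
    refine ENNReal.ofReal_le_ofReal ?_
    have h3 : ((2 : ℝ) ^ j * v) ^ (2 - a) = 2 ^ j * v * ((2 : ℝ) ^ j * v) ^ (1 - a) := by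
      have hp : (0 : ℝ) < 2 ^ j * v := by positivity
      rw [show (2 - a : ℝ) = 1 + (1 - a) by ring, Real.rpow_add hp, Real.rpow_one]
    have h4 : ((2 : ℝ) ^ j * v) ^ (1 - a) ≤ v ^ (1 - a) := by
      refine Real.rpow_le_rpow_of_nonpos hv ?_ (by linarith)
      have : (1 : ℝ) ≤ 2 ^ j := one_le_pow₀ one_le_two
      nlinarith
    have h5 : (2 : ℝ) ^ (K - j) * 2 ^ j = 2 ^ K := by rw [← pow_add, Nat.sub_add_cancel hjK.le]
    rw [h3]
    calc (2 : ℝ) ^ (K - j) * (5 * C * T ^ 2 * (2 ^ j * v * ((2 : ℝ) ^ j * v) ^ (1 - a)))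
        = 5 * C * T ^ 2 * ((2 : ℝ) ^ (K - j) * 2 ^ j * v) * ((2 : ℝ) ^ j * v) ^ (1 - a) := by ring
      _ = 5 * C * T ^ 2 * (2 ^ K * v) * ((2 : ℝ) ^ j * v) ^ (1 - a) := by rw [h5]
      _ ≤ 5 * C * T ^ 2 * (2 ^ K * v) * v ^ (1 - a) :=
          mul_le_mul_of_nonneg_left h4 (by positivity)
  refine (mul_le_mul_right (Finset.sum_le_sum hj) _).trans ?_
  rw [Finset.sum_const, Finset.card_range, nsmul_eq_mul]
  have e2 : ((K : ℕ) : ENNReal) = ENNReal.ofReal K := by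
    rw [ENNReal.ofReal_natCast]
  have hva : 0 ≤ v ^ (1 - a) := Real.rpow_nonneg hv.le _
  rw [e2, ← ENNReal.ofReal_mul (by positivity), ← ENNReal.ofReal_mul (by positivity)]
  refine ENNReal.ofReal_le_ofReal (le_of_eq ?_)
  ring

/-- the version with `β ≤ δ` -/
private theorem spc_aux (E : ℝ → ℝ) (hm : Measurable E) (β a δ : ℝ) (hβ0 : 0 < β) (hβ1 : β < 1) (ha1 : 1 ≤ a)
    (ha2 : a < 2) (hδβ : β ≤ δ) (hδ : δ < 2 * β - (1 - β) * (a - 1)) (hδ1 : δ < 1)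
    (h1 : ∀ θ : ℝ, 0 < θ → ∃ C : ℝ, 0 ≤ C ∧ ∀ x y : ℝ, 1 ≤ x → x ≤ y → y ≤ 2 * x →
      |E y - E x| ≤ C * (1 + (y - x)) * x ^ θ)
    (h2 : ∃ C : ℝ, 0 ≤ C ∧ ∀ T : ℝ, 1 ≤ T → ∀ v : ℝ, 0 < v → v ≤ 1 →
      ∫⁻ x in Icc T (2 * T), ENNReal.ofReal ((E (x * Real.exp v) - E x) ^ 2) ≤
        ENNReal.ofReal (C * T ^ 2 * v ^ (2 - a))) :
    ∃ ρ : ℝ, 0 < ρ ∧ ∃ T₀ : ℝ, 1 ≤ T₀ ∧ ∀ T : ℝ, T₀ ≤ T →
      volume {x : ℝ | x ∈ Icc T (2 * T) ∧ ∃ u ∈ Icc (0 : ℝ) (T ^ δ), T ^ (β - ρ) < |E (x + u) - E x|} ≤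
        ENNReal.ofReal (T ^ (1 - ρ)) := by
  obtain ⟨C₂, hC₂, h2⟩ := h2
  obtain ⟨κ, hκ⟩ : ∃ κ, κ = 2 * β - (1 - β) * (a - 1) - δ := ⟨_, rfl⟩
  have hκ0 : 0 < κ := by rw [hκ]; linarith
  obtain ⟨ρ, hρ⟩ : ∃ ρ, ρ = min (κ / 8) (β / 3) := ⟨_, rfl⟩
  have hρ0 : 0 < ρ := by rw [hρ]; exact lt_min (by linarith) (by linarith)
  have hρκ : 8 * ρ ≤ κ := by
    have : ρ ≤ κ / 8 := by rw [hρ]; exact min_le_left _ _
    linarith
  have hρβ : 3 * ρ ≤ β := by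
    have : ρ ≤ β / 3 := by rw [hρ]; exact min_le_right _ _
    linarith
  obtain ⟨C₁, hC₁, h1⟩ := h1 ρ hρ0
  obtain ⟨lam, hlam⟩ : ∃ lam, lam = β - 3 * ρ := ⟨_, rfl⟩
  have ev : ∀ᶠ T : ℝ in atTop, (1 ≤ T ∧ 4 ≤ T ^ (1 - δ)) ∧ (42 * C₁ ≤ T ^ ρ ∧ 5120 * C₂ / ρ ^ 2 ≤ T ^ ρ) := by
    have t1 := tendsto_rpow_atTop hρ0
    have t2 := tendsto_rpow_atTop (show 0 < 1 - δ by linarith)
    exact ((eventually_ge_atTop 1).and (t2.eventually_ge_atTop _)).and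
      ((t1.eventually_ge_atTop _).and (t1.eventually_ge_atTop _))
  obtain ⟨T₀, hT₀⟩ := eventually_atTop.1 ev
  refine ⟨ρ, hρ0, max T₀ 1, le_max_right _ _, fun T hT => ?_⟩
  obtain ⟨⟨hT1, hT4⟩, hTC, hTA⟩ := hT₀ T ((le_max_left _ _).trans hT)
  have hT0 : 0 < T := by linarith
  have hTd : T ^ (1 - δ) * T ^ (δ - 1) = 1 := by
    rw [← Real.rpow_add hT0]
    simp
  have hTδ0 : 0 < T ^ (δ - 1) := Real.rpow_pos_of_pos hT0 _
  have hV0 : 2 * T ^ (δ - 1) ≤ 1 / 2 := by nlinarith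
  have hx : (1 : ℝ) ≤ 2 * T ^ (δ - lam) := by
    have := Real.one_le_rpow hT1 (show 0 ≤ δ - lam by linarith)
    linarith
  obtain ⟨n, hn1, hn2⟩ := exists_nat_pow_near hx (one_lt_two)
  obtain ⟨v, hvd⟩ : ∃ v, v = 2 * T ^ (δ - 1) / 2 ^ (n + 1) := ⟨_, rfl⟩
  have h2n : (0 : ℝ) < 2 ^ (n + 1) := by positivity
  have hv : 0 < v := by rw [hvd]; positivity
  have hVv : 2 ^ (n + 1) * v = 2 * T ^ (δ - 1) := by
    rw [hvd]
    field_simp
  have hTl0 : 0 < T ^ (δ - lam) := Real.rpow_pos_of_pos hT0 _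
  have hTl1 : 0 < T ^ (lam - 1) := Real.rpow_pos_of_pos hT0 _
  have hTll : T ^ (δ - 1) = T ^ (δ - lam) * T ^ (lam - 1) := by
    rw [← Real.rpow_add hT0]
    congr 1
    ring
  have hv1 : v ≤ T ^ (lam - 1) := by
    rw [hvd, div_le_iff₀ h2n, hTll]
    nlinarith
  have hv2 : T ^ (lam - 1) / 2 ≤ v := by
    rw [hvd, le_div_iff₀ h2n, hTll, pow_succ]
    nlinarith
  have hV : 2 ^ (n + 1) * v ≤ 1 / 2 := by rw [hVv]; exact hV0
  have hv12 : v ≤ 1 / 2 := by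
    have : (1 : ℝ) ≤ 2 ^ (n + 1) := one_le_pow₀ one_le_two
    nlinarith
  obtain ⟨Ψ, hΨ⟩ : ∃ Ψ : ℝ → ENNReal, Ψ = fun x : ℝ => (((n + 1 : ℕ) : ENNReal) *
      ∑ j ∈ Finset.range (n + 1), ∑ m ∈ Finset.range (2 ^ (n + 1 - j)),
      ENNReal.ofReal ((E (x * Real.exp ((((m + 1) * 2 ^ j : ℕ) : ℝ) * v)) -
        E (x * Real.exp (((m * 2 ^ j : ℕ) : ℝ) * v))) ^ 2)) := ⟨_, rfl⟩
  have hmeas : ∀ s : ℝ, Measurable fun x : ℝ => E (x * s) := fun s =>
    hm.comp (measurable_id.mul_const _)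
  have hDm : ∀ s r : ℝ, Measurable fun x : ℝ => ENNReal.ofReal ((E (x * s) - E (x * r)) ^ 2) := fun s r =>
    (((hmeas s).sub (hmeas r)).pow_const 2).ennreal_ofReal
  have hΨm : Measurable Ψ := by
    rw [hΨ]
    exact (Finset.measurable_fun_sum _ fun j _ => Finset.measurable_fun_sum _ fun m _ => hDm _ _).const_mul _
  have hint : ∫⁻ x in Icc T (2 * T), Ψ x ≤
      ENNReal.ofReal (5 * C₂ * T ^ 2 * ((n + 1 : ℕ) : ℝ) ^ 2 * (2 ^ (n + 1) * v) * v ^ (1 - a)) := by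
    rw [hΨ]
    exact spc_total E hm a C₂ ha1 hC₂ h2 T hT1 (n + 1) v hv hV
  obtain ⟨th, hth⟩ : ∃ th, th = (T ^ (β - ρ) / 2) ^ 2 := ⟨_, rfl⟩
  have hTβ : 0 < T ^ (β - ρ) := Real.rpow_pos_of_pos hT0 _
  have hth0 : 0 < th := by rw [hth]; positivity
  have hsub : {x : ℝ | x ∈ Icc T (2 * T) ∧ ∃ u ∈ Icc (0 : ℝ) (T ^ δ), T ^ (β - ρ) < |E (x + u) - E x|} ⊆
      {x : ℝ | ENNReal.ofReal th ≤ Ψ x} ∩ Icc T (2 * T) := by
    rintro x ⟨hxI, u, hu, hbig⟩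
    refine ⟨?_, hxI⟩
    have hx0 : 0 < x := by linarith [hxI.1]
    have hxu : 0 < x + u := by linarith [hu.1]
    obtain ⟨t, ht⟩ : ∃ t, t = Real.log ((x + u) / x) := ⟨_, rfl⟩
    have hrat : 1 ≤ (x + u) / x := by
      rw [le_div_iff₀ hx0]
      linarith [hu.1]
    have ht0 : 0 ≤ t := by rw [ht]; exact Real.log_nonneg hrat
    have hexp : x * Real.exp t = x + u := by
      rw [ht, Real.exp_log (by linarith)]
      field_simp
    have hTδ : T ^ δ = T * T ^ (δ - 1) := by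
      rw [Real.rpow_sub_one hT0.ne']
      field_simp
    have ht1 : t ≤ T ^ (δ - 1) := by
      have q1 : t ≤ (x + u) / x - 1 := by rw [ht]; exact Real.log_le_sub_one_of_pos (by linarith)
      have q2 : (x + u) / x - 1 = u / x := by field_simp; ring
      have q3 : u / x ≤ T ^ (δ - 1) := by
        rw [div_le_iff₀ hx0]
        calc u ≤ T ^ δ := hu.2
          _ = T * T ^ (δ - 1) := hTδ
          _ ≤ T ^ (δ - 1) * x := by nlinarith [hxI.1]
      linarith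
    obtain ⟨k, hk⟩ : ∃ k, k = ⌊t / v⌋₊ := ⟨_, rfl⟩
    have hk1 : (k : ℝ) * v ≤ t := by
      have := Nat.floor_le (div_nonneg ht0 hv.le)
      rw [← hk, le_div_iff₀ hv] at this
      exact this
    have hk2 : t < (k + 1) * v := by
      have := Nat.lt_floor_add_one (t / v)
      rw [← hk, div_lt_iff₀ hv] at this
      exact this
    have hk3 : k < 2 ^ (n + 1) := by
      have : (k : ℝ) < 2 ^ (n + 1) := by
        have q : (k : ℝ) * v < 2 ^ (n + 1) * v := by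
          rw [hVv]
          linarith
        exact lt_of_mul_lt_mul_right q hv.le
      exact_mod_cast this
    obtain ⟨z, hz⟩ : ∃ z, z = x * Real.exp (k * v) := ⟨_, rfl⟩
    have hzx : x ≤ z := by
      rw [hz]
      have : 1 ≤ Real.exp (k * v) := Real.one_le_exp (by positivity)
      nlinarith
    have hzy : z ≤ x + u := by
      rw [hz, ← hexp]
      exact mul_le_mul_of_nonneg_left (Real.exp_le_exp.2 hk1) hx0.le
    have hyz : x + u ≤ z * Real.exp v := by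
      rw [hz, ← hexp, mul_assoc, ← Real.exp_add]
      refine mul_le_mul_of_nonneg_left (Real.exp_le_exp.2 ?_) hx0.le
      linarith
    have hz0 : 0 < z := by linarith
    have hev : Real.exp v ≤ 2 := spc_exp_le_two hv12
    have hev1 : Real.exp v - 1 ≤ 2 * v := by
      have q1 : 1 - v ≤ Real.exp (-v) := by
        have := Real.add_one_le_exp (-v)
        linarith
      have q2 : Real.exp (-v) * Real.exp v = 1 := by rw [← Real.exp_add]; simp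
      have q3 : 0 < Real.exp v := Real.exp_pos v
      nlinarith
    have hTδT : T ^ δ ≤ T := by
      calc T ^ δ ≤ T ^ (1 : ℝ) := Real.rpow_le_rpow_of_exponent_le hT1 hδ1.le
        _ = T := Real.rpow_one T
    have hz3 : z ≤ 3 * T := by linarith [hxI.2, hu.2]
    have hTlam : T ^ lam = T * T ^ (lam - 1) := by
      rw [Real.rpow_sub_one hT0.ne']
      field_simp
    have hTlam1 : 1 ≤ T ^ lam := Real.one_le_rpow hT1 (by linarith)
    have hdiff : x + u - z ≤ 6 * T ^ lam := by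
      have q1 : x + u - z ≤ z * (2 * v) := by nlinarith
      have q2 : z * (2 * v) ≤ (3 * T) * (2 * T ^ (lam - 1)) := by
        refine mul_le_mul hz3 (by linarith) (by positivity) (by positivity)
      rw [hTlam]
      linarith
    have hstep : |E (x + u) - E z| ≤ T ^ (β - ρ) / 2 := by
      have q0 := h1 z (x + u) (by linarith [hxI.1]) hzy (by nlinarith)
      have q1 : C₁ * (1 + (x + u - z)) * z ^ ρ ≤ C₁ * (7 * T ^ lam) * (3 * T ^ ρ) := by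
        have r1 : z ^ ρ ≤ 3 * T ^ ρ := by
          calc z ^ ρ ≤ (3 * T) ^ ρ := Real.rpow_le_rpow hz0.le hz3 hρ0.le
            _ = 3 ^ ρ * T ^ ρ := Real.mul_rpow (by norm_num) hT0.le
            _ ≤ 3 ^ (1 : ℝ) * T ^ ρ := mul_le_mul_of_nonneg_right
                (Real.rpow_le_rpow_of_exponent_le (by norm_num) (by linarith)) (Real.rpow_nonneg hT0.le _)
            _ = 3 * T ^ ρ := by rw [Real.rpow_one]
        refine mul_le_mul (mul_le_mul_of_nonneg_left (by linarith) hC₁) r1 (Real.rpow_nonneg hz0.le _) ?_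
        positivity
      have q2 : T ^ lam * T ^ ρ * T ^ ρ = T ^ (β - ρ) := by
        rw [← Real.rpow_add hT0, ← Real.rpow_add hT0]
        congr 1
        rw [hlam]
        ring
      have q3 : 0 < T ^ lam * T ^ ρ := by positivity
      have q4 : C₁ * (7 * T ^ lam) * (3 * T ^ ρ) ≤ T ^ (β - ρ) / 2 := by
        rw [← q2]
        nlinarith
      linarith
    have hbig2 : T ^ (β - ρ) / 2 ≤ |E z - E x| := by
      have q : |E (x + u) - E x| ≤ |E (x + u) - E z| + |E z - E x| := by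
        have := abs_add_le (E (x + u) - E z) (E z - E x)
        rwa [sub_add_sub_cancel] at this
      linarith
    have hsq : th ≤ (E z - E x) ^ 2 := by
      rw [hth, ← sq_abs (E z - E x)]
      exact pow_le_pow_left₀ (by positivity) hbig2 2
    have hchain := spc_chain (fun i : ℕ => E (x * Real.exp ((i : ℝ) * v))) (n + 1) k hk3
    simp only [Nat.cast_zero, zero_mul, Real.exp_zero, mul_one] at hchain
    rw [← hz] at hchain
    change ENNReal.ofReal th ≤ Ψ x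
    refine (ENNReal.ofReal_le_ofReal (hsq.trans hchain)).trans (le_of_eq ?_)
    rw [hΨ, ENNReal.ofReal_mul (Nat.cast_nonneg _), ENNReal.ofReal_natCast,
      ENNReal.ofReal_sum_of_nonneg (fun j _ => Finset.sum_nonneg fun m _ => sq_nonneg _)]
    congr 1
    refine Finset.sum_congr rfl fun j _ => ?_
    rw [ENNReal.ofReal_sum_of_nonneg (fun m _ => sq_nonneg _)]
  refine (measure_mono hsub).trans ((Measure.le_restrict_apply _ _).trans ?_)
  have hmar := mul_meas_ge_le_lintegral (μ := volume.restrict (Icc T (2 * T))) hΨm (ENNReal.ofReal th)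
  have hle : volume.restrict (Icc T (2 * T)) {x : ℝ | ENNReal.ofReal th ≤ Ψ x} ≤
      ENNReal.ofReal (5 * C₂ * T ^ 2 * ((n + 1 : ℕ) : ℝ) ^ 2 * (2 ^ (n + 1) * v) * v ^ (1 - a)) /
        ENNReal.ofReal th := by
    rw [ENNReal.le_div_iff_mul_le (Or.inl (by simpa using hth0)) (Or.inl ENNReal.ofReal_ne_top), mul_comm]
    exact hmar.trans hint
  refine hle.trans ?_
  rw [← ENNReal.ofReal_div_of_pos hth0]
  refine ENNReal.ofReal_le_ofReal ?_
  rw [div_le_iff₀ hth0]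
  -- bound for the number of levels
  have hK : ((n + 1 : ℕ) : ℝ) ^ 2 ≤ 64 / ρ ^ 2 * T ^ ρ := by
    have q1 : (2 : ℝ) ^ (n + 1) ≤ 4 * T := by
      have r1 : T ^ (δ - lam) ≤ T := by
        calc T ^ (δ - lam) ≤ T ^ (1 : ℝ) := Real.rpow_le_rpow_of_exponent_le hT1 (by linarith)
          _ = T := Real.rpow_one T
      rw [pow_succ]
      linarith
    have q2 : ((n + 1 : ℕ) : ℝ) * Real.log 2 ≤ Real.log (4 * T) := by
      rw [← Real.log_pow]
      exact Real.log_le_log h2n q1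
    have q3 : Real.log (4 * T) ≤ (4 * T) ^ (ρ / 2) / (ρ / 2) :=
      Real.log_le_rpow_div (by linarith) (by linarith)
    have q4 : (1 : ℝ) / 2 ≤ Real.log 2 := by
      have := Real.log_two_gt_d9
      linarith
    have q5 : ((n + 1 : ℕ) : ℝ) ≤ 4 / ρ * (4 * T) ^ (ρ / 2) := by
      have r1 : ((n + 1 : ℕ) : ℝ) * (1 / 2) ≤ (4 * T) ^ (ρ / 2) / (ρ / 2) := by
        refine le_trans ?_ (q2.trans q3)
        exact mul_le_mul_of_nonneg_left q4 (Nat.cast_nonneg _)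
      have r2 : (4 * T) ^ (ρ / 2) / (ρ / 2) = 2 / ρ * (4 * T) ^ (ρ / 2) := by
        field_simp
      rw [r2] at r1
      have r3 : 4 / ρ * (4 * T) ^ (ρ / 2) = 2 * (2 / ρ * (4 * T) ^ (ρ / 2)) := by ring
      rw [r3]
      linarith
    calc ((n + 1 : ℕ) : ℝ) ^ 2 ≤ (4 / ρ * (4 * T) ^ (ρ / 2)) ^ 2 :=
          pow_le_pow_left₀ (Nat.cast_nonneg _) q5 2
      _ = 16 / ρ ^ 2 * (4 * T) ^ ρ := by
          rw [mul_pow, ← Real.rpow_natCast ((4 * T) ^ (ρ / 2)) 2, ← Real.rpow_mul (by positivity)]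
          have : ρ / 2 * ((2 : ℕ) : ℝ) = ρ := by push_cast; ring
          rw [this]
          ring
      _ ≤ 16 / ρ ^ 2 * (4 * T ^ ρ) := by
          refine mul_le_mul_of_nonneg_left ?_ (by positivity)
          rw [Real.mul_rpow (by norm_num) hT0.le]
          refine mul_le_mul_of_nonneg_right ?_ (Real.rpow_nonneg hT0.le _)
          calc (4 : ℝ) ^ ρ ≤ 4 ^ (1 : ℝ) := Real.rpow_le_rpow_of_exponent_le (by norm_num) (by linarith)
            _ = 4 := Real.rpow_one 4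
      _ = 64 / ρ ^ 2 * T ^ ρ := by ring
  have hva : v ^ (1 - a) ≤ 2 * T ^ ((1 - lam) * (a - 1)) := by
    calc v ^ (1 - a) ≤ (T ^ (lam - 1) / 2) ^ (1 - a) :=
          Real.rpow_le_rpow_of_nonpos (by positivity) hv2 (by linarith)
      _ = T ^ ((1 - lam) * (a - 1)) * 2 ^ (a - 1) := by
          rw [Real.div_rpow hTl1.le (by norm_num), ← Real.rpow_mul hT0.le, div_eq_mul_inv,
            ← Real.rpow_neg (by norm_num)]
          congr 2 <;> ring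
      _ ≤ T ^ ((1 - lam) * (a - 1)) * 2 := by
          refine mul_le_mul_of_nonneg_left ?_ (Real.rpow_nonneg hT0.le _)
          calc (2 : ℝ) ^ (a - 1) ≤ 2 ^ (1 : ℝ) :=
                Real.rpow_le_rpow_of_exponent_le (by norm_num) (by linarith)
            _ = 2 := Real.rpow_one 2
      _ = 2 * T ^ ((1 - lam) * (a - 1)) := by ring
  have hva0 : 0 ≤ v ^ (1 - a) := Real.rpow_nonneg hv.le _
  rw [hVv]
  have hTρ : 0 < T ^ ρ := Real.rpow_pos_of_pos hT0 _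
  have hTe : 0 < T ^ ((1 - lam) * (a - 1)) := Real.rpow_pos_of_pos hT0 _
  have s1 : 5 * C₂ * T ^ 2 * ((n + 1 : ℕ) : ℝ) ^ 2 * (2 * T ^ (δ - 1)) * v ^ (1 - a) ≤
      5 * C₂ * T ^ 2 * (64 / ρ ^ 2 * T ^ ρ) * (2 * T ^ (δ - 1)) * (2 * T ^ ((1 - lam) * (a - 1))) := by
    have w1 : 5 * C₂ * T ^ 2 * ((n + 1 : ℕ) : ℝ) ^ 2 ≤ 5 * C₂ * T ^ 2 * (64 / ρ ^ 2 * T ^ ρ) :=
      mul_le_mul_of_nonneg_left hK (by positivity)
    have w2 : 5 * C₂ * T ^ 2 * ((n + 1 : ℕ) : ℝ) ^ 2 * (2 * T ^ (δ - 1)) ≤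
        5 * C₂ * T ^ 2 * (64 / ρ ^ 2 * T ^ ρ) * (2 * T ^ (δ - 1)) :=
      mul_le_mul_of_nonneg_right w1 (by positivity)
    exact mul_le_mul w2 hva hva0 (by positivity)
  refine s1.trans ?_
  have s2 : 5 * C₂ * T ^ 2 * (64 / ρ ^ 2 * T ^ ρ) * (2 * T ^ (δ - 1)) * (2 * T ^ ((1 - lam) * (a - 1))) =
      5120 * C₂ / ρ ^ 2 * (T ^ 2 * T ^ ρ * T ^ (δ - 1) * T ^ ((1 - lam) * (a - 1))) / 4 := by
    ring
  rw [s2]
  have s3 : T ^ 2 * T ^ ρ * T ^ (δ - 1) * T ^ ((1 - lam) * (a - 1)) =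
      T ^ (2 + ρ + (δ - 1) + (1 - lam) * (a - 1)) := by
    rw [← Real.rpow_natCast T 2, ← Real.rpow_add hT0, ← Real.rpow_add hT0, ← Real.rpow_add hT0]
    norm_num
  rw [s3]
  have s4 : T ^ (1 - ρ) * th = T ^ (1 - ρ + (β - ρ) + (β - ρ)) / 4 := by
    rw [hth, Real.rpow_add hT0, Real.rpow_add hT0]
    ring
  rw [s4]
  refine div_le_div_of_nonneg_right ?_ (by norm_num)
  calc 5120 * C₂ / ρ ^ 2 * T ^ (2 + ρ + (δ - 1) + (1 - lam) * (a - 1))
      ≤ T ^ ρ * T ^ (2 + ρ + (δ - 1) + (1 - lam) * (a - 1)) :=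
        mul_le_mul_of_nonneg_right hTA (Real.rpow_nonneg hT0.le _)
    _ = T ^ (ρ + (2 + ρ + (δ - 1) + (1 - lam) * (a - 1))) := by rw [← Real.rpow_add hT0]
    _ ≤ T ^ (1 - ρ + (β - ρ) + (β - ρ)) := by
        refine Real.rpow_le_rpow_of_exponent_le hT1 ?_
        rw [hlam]
        nlinarith

theorem sup_control (E : ℝ → ℝ) (hm : Measurable E) (β a δ : ℝ) (hβ0 : 0 < β) (hβ1 : β < 1) (ha1 : 1 ≤ a) (ha2 : a < 2)
    (hβ : (1 - β) * (a - 1) < β) (_hδ0 : 0 < δ) (hδ : δ < 2 * β - (1 - β) * (a - 1)) (hδ1 : δ < 1)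
    (h1 : ∀ θ : ℝ, 0 < θ → ∃ C : ℝ, 0 ≤ C ∧ ∀ x y : ℝ, 1 ≤ x → x ≤ y → y ≤ 2 * x →
      |E y - E x| ≤ C * (1 + (y - x)) * x ^ θ)
    (h2 : ∃ C : ℝ, 0 ≤ C ∧ ∀ T : ℝ, 1 ≤ T → ∀ v : ℝ, 0 < v → v ≤ 1 →
      ∫⁻ x in Icc T (2 * T), ENNReal.ofReal ((E (x * Real.exp v) - E x) ^ 2) ≤
        ENNReal.ofReal (C * T ^ 2 * v ^ (2 - a))) :
    ∃ ρ : ℝ, 0 < ρ ∧ ∃ T₀ : ℝ, 1 ≤ T₀ ∧ ∀ T : ℝ, T₀ ≤ T →
      volume {x : ℝ | x ∈ Icc T (2 * T) ∧ ∃ u ∈ Icc (0 : ℝ) (T ^ δ), T ^ (β - ρ) < |E (x + u) - E x|} ≤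
        ENNReal.ofReal (T ^ (1 - ρ)) := by
  obtain ⟨ρ, hρ, T₀, hT₀, h⟩ := spc_aux E hm β a (max δ β) hβ0 hβ1 ha1 ha2 (le_max_right _ _)
    (max_lt hδ (by linarith)) (max_lt hδ1 hβ1) h1 h2
  refine ⟨ρ, hρ, T₀, hT₀, fun T hT => (measure_mono ?_).trans (h T hT)⟩
  rintro x ⟨hx, u, hu, hb⟩
  exact ⟨hx, u, ⟨hu.1, hu.2.trans (Real.rpow_le_rpow_of_exponent_le (hT₀.trans hT) (le_max_left _ _))⟩, hb⟩

end Pool.Agent.H15.SC
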