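import Pool.Agent.H15.SC.Asm
import Pool.Agent.H15.SC.Norm
import Pool.Agent.H15.SC.SupC
import Pool.Agent.H15.SC.MSfin
import Pool.Agent.H15.SC.MSthr

/-!
# The final theorem  (project SC, MP_be4568_nt)
-/

set_option autoImplicit false

open Filter Topology MeasureTheory Set

namespace Pool.Agent.H15.SC

theorem Ep_eq {D : SelData} {x : ℝ} (hx : 1 ≤ x) : D.Ep x = D.E x := by
  unfold SelData.Ep
  rw [if_pos hx]

/-- sup control for the error terms -/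
theorem sup_E {D : SelData} {d : ℕ} (h : IsSel D d) {a : ℝ} (ha1 : 1 ≤ a) (ha2 : a < 2) (hM : Mom D a)
    (β δ : ℝ) (hβ0 : 0 < β) (hβ1 : β < 1) (hβ : (1 - β) * (a - 1) < β) (hδ0 : 0 < δ)
    (hδ : δ < 2 * β - (1 - β) * (a - 1)) (hδ1 : δ < 1) :
    ∃ ρ : ℝ, 0 < ρ ∧ ∃ T₀ : ℝ, 1 ≤ T₀ ∧ ∀ T : ℝ, T₀ ≤ T →
      volume {x : ℝ | x ∈ Icc T (2 * T) ∧ ∃ u ∈ Icc (0 : ℝ) (T ^ δ), T ^ (β - ρ) < |D.Ep (x + u) - D.Ep x|} ≤
        ENNReal.ofReal (T ^ (1 - ρ)) := by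
  obtain ⟨P⟩ := exists_core h
  refine sup_control D.Ep P.E_meas β a δ hβ0 hβ1 ha1 ha2 hβ hδ0 hδ hδ1 ?_ ?_
  · intro θ hθ
    obtain ⟨C, hC, hE⟩ := E_small h θ hθ
    refine ⟨C, hC, fun x y hx hxy hy => ?_⟩
    rw [Ep_eq hx, Ep_eq (hx.trans hxy)]
    exact hE x y hx hxy hy
  · obtain ⟨C, hC, hE⟩ := near_inc P (F_half_cont h) ha1 ha2 hM
    refine ⟨C, hC, fun T hT v hv hv1 => ?_⟩
    refine le_trans (le_of_eq ?_) (hE T hT v hv hv1)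
    refine setLIntegral_congr_fun measurableSet_Icc ?_
    intro x hx
    have hx1 : 1 ≤ x := hT.trans hx.1
    have hx2 : 1 ≤ x * Real.exp v := by
      have : 1 ≤ Real.exp v := Real.one_le_exp hv.le
      nlinarith
    simp only
    rw [Ep_eq hx1, Ep_eq hx2]

/-- general form: a moment bound for the degree 3 function -/
theorem propA_gen {D₁ D₂ : SelData} (h₁ : IsSel D₁ 2) (h₂ : IsSel D₂ 3) {a : ℝ} (ha1 : 1 ≤ a) (ha2 : a < 3/2)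
    (hM : Mom D₂ a) (δ : ℝ) (hδ0 : 0 < δ) (hδ1 : δ < 1/2) (hδ2 : δ < 2/3 - 2/3 * (a - 1)) :
    PropA (fun x => D₁.E x * D₂.E x) (7/12) δ := by
  have h₁' : IsSel D₁ ((2 : ℕ) : ℝ) := by exact_mod_cast h₁
  have h₂' : IsSel D₂ ((3 : ℕ) : ℝ) := by exact_mod_cast h₂
  set e : ℝ := (1/2 - δ) / 2 with he
  have he0 : 0 < e := by rw [he]; linarith
  have he1 : e ≤ 1/4 := by rw [he]; linarith
  have hM₁ : Mom D₁ (1 + e) := mom_two h₁ e he0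
  obtain ⟨η₂, c₂, b₂, hc₂, hb₂, hA₂⟩ := nG_approx (Or.inl rfl) h₁' (by linarith) (by linarith) hM₁
  obtain ⟨η₃, c₃, b₃, hc₃, hb₃, hA₃⟩ := nG_approx (Or.inr rfl) h₂' ha1 ha2 hM
  have hs := sign_pos (nG D₁ 2) (nG D₂ 3) (nG_meas h₁') (nG_meas h₂') (nG_bdd h₁') (nG_bdd h₂')
    η₂ c₂ η₃ c₃ hc₂ hc₃ b₂ b₃ hb₂ hb₃ hA₂ hA₃
  have s₁ := sup_E h₁' (a := 1 + e) (by linarith) (by linarith) hM₁ (1/4) δ (by norm_num) (by norm_num)
    (by linarith) hδ0 (by rw [he]; linarith) (by linarith)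
  have s₂ := sup_E h₂' ha1 (by linarith) hM (1/3) δ (by norm_num) (by norm_num)
    (by linarith) hδ0 (by linarith) (by linarith)
  have e2 : (((2 : ℕ) : ℝ) - 1) / (2 * ((2 : ℕ) : ℝ)) = 1/4 := by norm_num
  have e3 : (((3 : ℕ) : ℝ) - 1) / (2 * ((3 : ℕ) : ℝ)) = 1/3 := by norm_num
  have n2 : nG D₁ 2 = fun x => D₁.Ep x / x ^ ((1 : ℝ)/4) := by
    funext x
    unfold nG
    rw [e2]
  have n3 : nG D₂ 3 = fun x => D₂.Ep x / x ^ ((1 : ℝ)/3) := by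
    funext x
    unfold nG
    rw [e3]
  rw [n2, n3] at hs
  have hP := propA_of D₁.Ep D₂.Ep (1/4) (1/3) (7/12) δ (by norm_num) (by norm_num) (by norm_num) (by norm_num)
    (by norm_num) (by linarith) hs s₁ s₂
  obtain ⟨c, C, T₀, hc, hC, hT₀, hP⟩ := hP
  refine ⟨c, C, max T₀ 1, hc, hC, lt_max_of_lt_left hT₀, fun T hT ε hε => ?_⟩
  have hT1 : 1 ≤ T := (le_max_right _ _).trans hT
  obtain ⟨S, h1, h2, h3⟩ := hP T ((le_max_left _ _).trans hT) ε hε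
  refine ⟨S, h1, fun p hp => ?_, h3⟩
  obtain ⟨q1, q2, q3, q4⟩ := h2 p hp
  refine ⟨q1, q2, q3, fun x hx => ?_⟩
  have hx1 : 1 ≤ x := hT1.trans (q1.trans hx.1)
  have := q4 x hx
  simp only at this
  rw [Ep_eq hx1, Ep_eq hx1] at this
  exact this

/-- MAIN THEOREM -/
theorem propA_main {D₁ D₂ G : SelData} (h₁ : IsSel D₁ 2) (h₂ : IsSel D₂ 3) (hG : IsSel G 2)
    (q : ℕ) (hq : 1 ≤ q) (ψ : ℕ → ℝ) (hψ : ∀ n, ψ (n + q) = ψ n)
    (hfac : ∀ n : ℕ, 1 ≤ n → D₂.f n = ∑ k ∈ n.divisors, ψ (n / k) * G.f k)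
    (δ : ℝ) (hδ0 : 0 < δ) (hδ1 : δ < 4/9) :
    PropA (fun x => D₁.E x * D₂.E x) (7/12) δ := by
  set e : ℝ := min (1/12) (4/9 - δ) with he
  have he0 : 0 < e := by
    rw [he]
    exact lt_min (by norm_num) (by linarith)
  have he1 : e ≤ 1/12 := min_le_left _ _
  have he2 : e ≤ 4/9 - δ := min_le_right _ _
  have hM : Mom D₂ (4/3 + e) := mom_three h₂ hG q hq ψ hψ hfac (fun ε hε => mom_two hG ε hε) e he0
  exact propA_gen h₁ h₂ (by linarith) (by linarith) hM δ hδ0 (by linarith) (by linarith)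

end Pool.Agent.H15.SC
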