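import Pool.Agent.H15.SC.Defs
import Pool.Agent.PairCorr.Growth
import Pool.Agent.H14.PT.Div

/-!
# SC-33  the powers of the Riemann zeta function are instances of `IsSel`  (project SC, MP_be4568_nt)

`H s = ((s-1) ζ(s))^k` (`riemannZeta₁`, entire: `differentiable_riemannZeta₁`), `f = 1 * ... * 1` (`k` factors, the `k`-fold divisor
function), `Q = π^{-k/2}`, `lam j = 1/2`, `mu j = 0`: `Phi s = (π^{-s/2} Γ(s/2) ζ(s))^k`, functional equation from
`completedRiemannZeta_one_sub`, `riemannZeta_def_of_ne_zero` and reality (`completedRiemannZeta` of the conjugate).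
`order`: `re s ≥ -6`: `Pool.Agent.PairCorr.zeta1_growth` (`Pool/Agent/PairCorr/Growth.lean`); `re s ≤ 0`: `riemannZeta_one_sub` and
`|Γ(z)| ≤ Γ(re z) ≤ exp(C (1+|z|)^2)` for `re z ≥ 1`, `|cos z| ≤ e^{|im z|}`.
`ram`: `d_k(n) ≤ C n^ε` (`d_2`: Mathlib or `Pool/Agent` divisor bounds; induct on `k`: `d_{k+1}(n) = ∑_{m ∣ n} d_k(m) ≤ d(n) C n^ε`).
`series`: `LSeries` of a Dirichlet convolution power (`ArithmeticFunction.LSeries_mul`, `LSeries_zeta_eq_riemannZeta`).
-/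

set_option autoImplicit false

open Complex Filter Topology
open scoped ComplexConjugate

namespace Pool.Agent.H15.SC

/-- the data of `ζ^k` -/
noncomputable def zetaD (k : ℕ) : SelData where
  f := fun n => (((ArithmeticFunction.zeta : ArithmeticFunction ℕ) ^ k) n : ℝ)
  m := k
  H := fun s => riemannZeta₁ s ^ k
  Q := Real.pi ^ (-(k : ℝ) / 2)
  ω := 1
  r := k
  lam := fun _ => 1 / 2
  mu := fun _ => 0

theorem zin_one (k : ℕ) : ((ArithmeticFunction.zeta : ArithmeticFunction ℕ) ^ k) 1 = 1 := by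
  induction k with
  | zero => simp
  | succ k ih =>
    rw [pow_succ, ArithmeticFunction.mul_zeta_apply]
    simp [ih]

theorem zin_ram (k : ℕ) : ∀ ε : ℝ, 0 < ε → ∃ C : ℝ, 0 ≤ C ∧ ∀ n : ℕ, 1 ≤ n →
    (((ArithmeticFunction.zeta : ArithmeticFunction ℕ) ^ k) n : ℝ) ≤ C * (n : ℝ) ^ ε := by
  induction k with
  | zero =>
    intro ε hε
    refine ⟨1, zero_le_one, fun n hn => ?_⟩
    have hn' : (1 : ℝ) ≤ n := by exact_mod_cast hn
    have h1 : (1 : ℝ) ≤ (n : ℝ) ^ ε := Real.one_le_rpow hn' hε.le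
    rw [pow_zero, ArithmeticFunction.one_apply]
    split_ifs
    · simpa using h1
    · simp; positivity
  | succ k ih =>
    intro ε hε
    obtain ⟨C, hC, hC'⟩ := ih (ε / 2) (by positivity)
    obtain ⟨C2, hC2, hC2'⟩ := Pool.Agent.H14.PT.divisor_bound (ε / 2) (by positivity)
    refine ⟨C2 * C, by positivity, fun n hn => ?_⟩
    have hn' : (1 : ℝ) ≤ n := by exact_mod_cast hn
    have hn0 : (0 : ℝ) < n := by linarith
    rw [pow_succ, ArithmeticFunction.mul_zeta_apply]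
    push_cast
    calc ∑ i ∈ n.divisors, (((ArithmeticFunction.zeta : ArithmeticFunction ℕ) ^ k) i : ℝ)
        ≤ ∑ i ∈ n.divisors, C * (n : ℝ) ^ (ε / 2) := by
          refine Finset.sum_le_sum fun i hi => ?_
          have hi1 : 1 ≤ i := Nat.pos_of_mem_divisors hi
          have hi2 : i ≤ n := Nat.divisor_le hi
          refine (hC' i hi1).trans ?_
          refine mul_le_mul_of_nonneg_left ?_ hC
          exact Real.rpow_le_rpow (Nat.cast_nonneg i) (by exact_mod_cast hi2) (by positivity)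
      _ = (n.divisors.card : ℝ) * (C * (n : ℝ) ^ (ε / 2)) := by
          rw [Finset.sum_const, nsmul_eq_mul]
      _ ≤ (C2 * (n : ℝ) ^ (ε / 2)) * (C * (n : ℝ) ^ (ε / 2)) := by
          refine mul_le_mul_of_nonneg_right (hC2' n (by omega)) ?_
          positivity
      _ = C2 * C * ((n : ℝ) ^ (ε / 2) * (n : ℝ) ^ (ε / 2)) := by ring
      _ = C2 * C * (n : ℝ) ^ ε := by
          rw [← Real.rpow_add hn0]
          congr 2
          ring

theorem zin_Gamma {x : ℝ} (hx : 2 ≤ x) : Real.Gamma x ≤ Real.exp ((x + 2) ^ 2) := by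
  have h1 : x ≤ (⌈x⌉₊ : ℝ) + 1 := by linarith [Nat.le_ceil x]
  have h2 : Real.Gamma x ≤ Real.Gamma ((⌈x⌉₊ : ℝ) + 1) :=
    Real.Gamma_strictMonoOn_Ici.monotoneOn (by simpa using hx)
      (by simpa using hx.trans h1) h1
  rw [Real.Gamma_nat_eq_factorial] at h2
  refine h2.trans ?_
  have h3 : ((⌈x⌉₊.factorial : ℕ) : ℝ) ≤ ((⌈x⌉₊ : ℝ)) ^ (⌈x⌉₊ : ℕ) := by
    exact_mod_cast Nat.factorial_le_pow ⌈x⌉₊
  have h4 : (⌈x⌉₊ : ℝ) ≤ x + 1 := (Nat.ceil_lt_add_one (by linarith)).le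
  have h5 : (⌈x⌉₊ : ℝ) ≤ Real.exp (x + 1) := by
    have := Real.add_one_le_exp (x + 1)
    linarith
  calc ((⌈x⌉₊.factorial : ℕ) : ℝ) ≤ ((⌈x⌉₊ : ℝ)) ^ (⌈x⌉₊ : ℕ) := h3
    _ ≤ (Real.exp (x + 1)) ^ (⌈x⌉₊ : ℕ) := pow_le_pow_left₀ (Nat.cast_nonneg _) h5 _
    _ = Real.exp ((⌈x⌉₊ : ℝ) * (x + 1)) := by rw [← Real.exp_nat_mul]
    _ ≤ Real.exp ((x + 2) ^ 2) := by
        apply Real.exp_le_exp.2
        nlinarith

theorem zin_right : ∃ C : ℝ, 0 ≤ C ∧ ∀ z : ℂ, -6 ≤ z.re →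
    ‖riemannZeta₁ z‖ ≤ Real.exp (C * (1 + ‖z‖) ^ 2) := by
  obtain ⟨C, hC, h⟩ := Pool.Agent.PairCorr.zeta1_growth
  refine ⟨C + 10, by linarith, fun z hz => (h z hz).trans ?_⟩
  have hz0 := norm_nonneg z
  have h1 : C ≤ Real.exp C := by linarith [Real.add_one_le_exp C]
  have h2 : (2 + ‖z‖) ≤ Real.exp (1 + ‖z‖) := by linarith [Real.add_one_le_exp (1 + ‖z‖)]
  calc C * (2 + ‖z‖) ^ 10 ≤ Real.exp C * (Real.exp (1 + ‖z‖)) ^ 10 := by
        refine mul_le_mul h1 (pow_le_pow_left₀ (by linarith) h2 10) (by positivity)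
          (Real.exp_pos _).le
    _ = Real.exp (C + 10 * (1 + ‖z‖)) := by
        rw [← Real.exp_nat_mul, ← Real.exp_add]
        norm_num
    _ ≤ Real.exp ((C + 10) * (1 + ‖z‖) ^ 2) := by
        apply Real.exp_le_exp.2
        have h3 : 1 ≤ (1 + ‖z‖) ^ 2 := by nlinarith
        have h4 : 1 + ‖z‖ ≤ (1 + ‖z‖) ^ 2 := by nlinarith
        nlinarith

theorem zin_left : ∃ C : ℝ, 0 ≤ C ∧ ∀ z : ℂ, z.re < -6 →
    ‖riemannZeta₁ z‖ ≤ Real.exp (C * (1 + ‖z‖) ^ 2) := by
  obtain ⟨C, hC, h⟩ := zin_right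
  refine ⟨4 * (C + 14), by linarith, fun z hz => ?_⟩
  set w : ℂ := 1 - z with hw
  have hwre : 7 < w.re := by
    rw [hw, Complex.sub_re, Complex.one_re]; linarith
  have hw0 := norm_nonneg w
  have hz0 := norm_nonneg z
  have hw1 : ‖w‖ ≤ 1 + ‖z‖ := by
    rw [hw]
    exact (norm_sub_le _ _).trans (by simp)
  have hwre' : w.re ≤ ‖w‖ := Complex.re_le_norm w
  have hz1 : z = 1 - w := by rw [hw]; ring
  have hzne : z ≠ 1 := by
    intro h1
    rw [h1] at hz
    norm_num at hz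
  have hwne : w ≠ 1 := by
    intro h1
    rw [h1] at hwre
    norm_num at hwre
  have hwn : ∀ n : ℕ, w ≠ -n := by
    intro n h1
    rw [h1] at hwre
    simp at hwre
    have : (0 : ℝ) ≤ n := Nat.cast_nonneg n
    linarith
  have h1 : riemannZeta₁ z = (z - 1) * riemannZeta z := by
    rw [riemannZeta_eq_inv_sub_mul hzne]
    field_simp [sub_ne_zero.2 hzne]
  have h2 := riemannZeta_one_sub hwn hwne
  rw [← hz1] at h2
  have h3 : ‖riemannZeta w‖ ≤ Real.exp (C * (1 + ‖w‖) ^ 2) := by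
    rw [riemannZeta_eq_inv_sub_mul hwne, norm_mul, norm_inv]
    have h4 : 1 ≤ ‖w - 1‖ := by
      have h5 : (w - 1).re ≤ ‖w - 1‖ := Complex.re_le_norm _
      rw [Complex.sub_re, Complex.one_re] at h5
      linarith
    have h6 : ‖w - 1‖⁻¹ ≤ 1 := inv_le_one_of_one_le₀ h4
    calc ‖w - 1‖⁻¹ * ‖riemannZeta₁ w‖ ≤ 1 * ‖riemannZeta₁ w‖ :=
          mul_le_mul_of_nonneg_right h6 (norm_nonneg _)
      _ ≤ _ := by rw [one_mul]; exact h w (by linarith)
  have h4 : ‖Complex.Gamma w‖ ≤ Real.exp ((1 + ‖w‖) ^ 2 * 4) := by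
    have h5 : (w.re : ℂ) + w.im * I = w := Complex.re_add_im w
    have h6 := Pool.Agent.PairCorr.norm_Gamma_le (x := w.re) (by linarith) w.im
    rw [h5] at h6
    refine h6.trans ((zin_Gamma (by linarith)).trans ?_)
    apply Real.exp_le_exp.2
    nlinarith
  have h5 : ‖Complex.cos (Real.pi * w / 2)‖ ≤ Real.exp (2 * (1 + ‖w‖)) := by
    refine (Pool.Agent.PairCorr.norm_cos_le _).trans ?_
    apply Real.exp_le_exp.2
    have h6 : ((Real.pi : ℂ) * w / 2).im = Real.pi * w.im / 2 := by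
      have : (Real.pi : ℂ) * w / 2 = ((Real.pi / 2 : ℝ) : ℂ) * w := by push_cast; ring
      rw [this, Complex.im_ofReal_mul]
      ring
    rw [h6]
    have h7 : |w.im| ≤ ‖w‖ := Complex.abs_im_le_norm w
    have h8 := Real.pi_pos
    have h9 := Real.pi_le_four
    rw [abs_div, abs_mul, abs_of_pos h8, abs_of_pos (by norm_num : (0 : ℝ) < 2)]
    have h10 : Real.pi * |w.im| ≤ 4 * ‖w‖ := mul_le_mul h9 h7 (abs_nonneg _) (by norm_num)
    linarith
  have h6 : ‖((2 : ℂ) * Real.pi) ^ (-w)‖ ≤ 1 := by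
    have h7 : ((2 : ℂ) * Real.pi) = ((2 * Real.pi : ℝ) : ℂ) := by push_cast; ring
    rw [h7, Complex.norm_cpow_eq_rpow_re_of_pos (by positivity)]
    apply Real.rpow_le_one_of_one_le_of_nonpos
    · linarith [Real.pi_gt_three]
    · rw [Complex.neg_re]; linarith
  have h7 : ‖z - 1‖ ≤ Real.exp (1 + ‖w‖) := by
    have h8 : z - 1 = -w := by rw [hw]; ring
    rw [h8, norm_neg]
    linarith [Real.add_one_le_exp (1 + ‖w‖)]
  have h8 : (2 : ℝ) ≤ Real.exp 1 := by linarith [Real.add_one_le_exp (1 : ℝ)]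
  rw [h1, h2, norm_mul, norm_mul, norm_mul, norm_mul, norm_mul]
  have h9 : ‖(2 : ℂ)‖ = 2 := by simp
  rw [h9]
  calc ‖z - 1‖ * (2 * ‖((2 : ℂ) * Real.pi) ^ (-w)‖ * ‖Complex.Gamma w‖ *
        ‖Complex.cos (Real.pi * w / 2)‖ * ‖riemannZeta w‖)
      ≤ Real.exp (1 + ‖w‖) * (Real.exp 1 * 1 * Real.exp ((1 + ‖w‖) ^ 2 * 4) *
        Real.exp (2 * (1 + ‖w‖)) * Real.exp (C * (1 + ‖w‖) ^ 2)) := by gcongr
    _ = Real.exp ((1 + ‖w‖) + (1 + (1 + ‖w‖) ^ 2 * 4 + 2 * (1 + ‖w‖) + C * (1 + ‖w‖) ^ 2)) := by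
        rw [mul_one, ← Real.exp_add, ← Real.exp_add, ← Real.exp_add, ← Real.exp_add]
    _ ≤ Real.exp (4 * (C + 14) * (1 + ‖z‖) ^ 2) := by
        apply Real.exp_le_exp.2
        have h10 : 1 + ‖w‖ ≤ 2 * (1 + ‖z‖) := by linarith
        have h11 : (1 + ‖w‖) ^ 2 ≤ 4 * (1 + ‖z‖) ^ 2 := by nlinarith
        have h12 : 1 + ‖w‖ ≤ (1 + ‖w‖) ^ 2 := by nlinarith
        have h13 : 1 ≤ (1 + ‖w‖) ^ 2 := by nlinarith
        nlinarith

theorem zin_order (k : ℕ) : ∃ A C : ℝ, ∀ s : ℂ, ‖riemannZeta₁ s ^ k‖ ≤ Real.exp (C * (1 + ‖s‖) ^ A) := by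
  obtain ⟨C, hC, h⟩ := zin_right
  obtain ⟨C', hC', h'⟩ := zin_left
  refine ⟨2, k * (C + C'), fun s => ?_⟩
  have h1 : ‖riemannZeta₁ s‖ ≤ Real.exp ((C + C') * (1 + ‖s‖) ^ 2) := by
    have h0 : 0 ≤ (1 + ‖s‖) ^ 2 := by positivity
    rcases le_or_gt (-6) s.re with h2 | h2
    · refine (h s h2).trans (Real.exp_le_exp.2 ?_)
      nlinarith [mul_nonneg hC' h0]
    · refine (h' s h2).trans (Real.exp_le_exp.2 ?_)
      nlinarith [mul_nonneg hC h0]
  have h2 : (1 + ‖s‖) ^ (2 : ℝ) = (1 + ‖s‖) ^ 2 := by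
    rw [← Real.rpow_natCast]; norm_num
  rw [norm_pow, h2]
  calc ‖riemannZeta₁ s‖ ^ k ≤ (Real.exp ((C + C') * (1 + ‖s‖) ^ 2)) ^ k :=
        pow_le_pow_left₀ (norm_nonneg _) h1 k
    _ = Real.exp (k * ((C + C') * (1 + ‖s‖) ^ 2)) := by rw [← Real.exp_nat_mul]
    _ = _ := by rw [mul_assoc]

theorem zin_series (k : ℕ) {s : ℂ} (hs : 1 < s.re) :
    LSeriesSummable (fun n => (((((ArithmeticFunction.zeta : ArithmeticFunction ℕ) ^ k) n : ℕ)) : ℂ)) s ∧
      LSeries (fun n => (((((ArithmeticFunction.zeta : ArithmeticFunction ℕ) ^ k) n : ℕ)) : ℂ)) s =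
        riemannZeta s ^ k := by
  induction k with
  | zero =>
    have h1 : (fun n => (((((ArithmeticFunction.zeta : ArithmeticFunction ℕ) ^ 0) n : ℕ)) : ℂ)) =
        LSeries.delta := by
      ext n
      rw [pow_zero, ArithmeticFunction.one_apply]
      unfold LSeries.delta
      split_ifs <;> simp
    rw [h1]
    constructor
    · refine summable_of_ne_finset_zero (s := {1}) ?_
      intro n hn
      have hn1 : n ≠ 1 := by simpa using hn
      rw [LSeries.term_delta]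
      simp [Pi.single_apply, hn1]
    · rw [LSeries_delta, pow_zero]; rfl
  | succ k ih =>
    obtain ⟨ih1, ih2⟩ := ih
    have hz1 : LSeriesSummable (fun n => ((ArithmeticFunction.zeta n : ℕ) : ℂ)) s :=
      ArithmeticFunction.LSeriesSummable_zeta_iff.2 hs
    have hz2 : LSeries (fun n => ((ArithmeticFunction.zeta n : ℕ) : ℂ)) s = riemannZeta s :=
      ArithmeticFunction.LSeries_zeta_eq_riemannZeta hs
    set F : ArithmeticFunction ℂ := (((ArithmeticFunction.zeta : ArithmeticFunction ℕ) ^ k :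
      ArithmeticFunction ℕ) : ArithmeticFunction ℂ) with hF
    set G : ArithmeticFunction ℂ := ((ArithmeticFunction.zeta : ArithmeticFunction ℕ) :
      ArithmeticFunction ℂ) with hG
    have hF1 : LSeriesSummable (fun n => F n) s := ih1
    have hG1 : LSeriesSummable (fun n => G n) s := hz1
    have h3 : (fun n => (((((ArithmeticFunction.zeta : ArithmeticFunction ℕ) ^ (k + 1)) n : ℕ)) : ℂ)) =
        fun n => (F * G) n := by
      ext n
      rw [hF, hG, ← ArithmeticFunction.natCoe_mul, ← pow_succ, ArithmeticFunction.natCoe_apply]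
    rw [h3]
    constructor
    · exact ArithmeticFunction.LSeriesSummable_mul hF1 hG1
    · rw [ArithmeticFunction.LSeries_mul' hF1 hG1, pow_succ]
      exact congrArg₂ _ ih2 hz2

theorem zin_Gammaℝ_conj (s : ℂ) : conj (Complex.Gammaℝ (conj s)) = Complex.Gammaℝ s := by
  rw [Complex.Gammaℝ_def, Complex.Gammaℝ_def, map_mul, ← Complex.Gamma_conj]
  congr 1
  · have h1 : (-(conj s) / 2) = conj (-s / 2) := by
      rw [map_div₀, map_neg, Complex.conj_ofNat]
    rw [h1, Complex.cpow_conj _ _ (by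
      rw [Complex.arg_ofReal_of_nonneg Real.pi_pos.le]; exact Real.pi_pos.ne)]
    simp
  · congr 1
    rw [map_div₀, Complex.conj_conj, Complex.conj_ofNat]

theorem zin_Phi (k : ℕ) {s : ℂ} (h0 : 0 < s.re) (h1 : s ≠ 1) :
    (zetaD k).Phi s = completedRiemannZeta s ^ k := by
  have hs0 : s ≠ 0 := by
    rintro rfl
    simp at h0
  have hG := Complex.Gammaℝ_ne_zero_of_re_pos h0
  have h2 : completedRiemannZeta s = Complex.Gammaℝ s * riemannZeta s := by
    rw [riemannZeta_def_of_ne_zero hs0]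
    field_simp
  have h3 : (zetaD k).F s = riemannZeta s ^ k := by
    show riemannZeta₁ s ^ k / (s - 1) ^ k = _
    rw [riemannZeta_eq_inv_sub_mul h1, mul_pow, inv_pow]
    ring
  have h4 : (((zetaD k).Q : ℝ) : ℂ) ^ s = ((Real.pi : ℂ) ^ (-s / 2)) ^ k := by
    show ((Real.pi ^ (-(k : ℝ) / 2) : ℝ) : ℂ) ^ s = _
    have hp := Real.pi_pos
    have hp' : (Real.pi : ℂ) ≠ 0 := by exact_mod_cast hp.ne'
    have hq : 0 < Real.pi ^ (-(k : ℝ) / 2) := Real.rpow_pos_of_pos hp _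
    rw [Complex.cpow_def_of_ne_zero (by exact_mod_cast hq.ne'), ← Complex.ofReal_log hq.le,
      Real.log_rpow hp, Complex.cpow_def_of_ne_zero hp', ← Complex.ofReal_log hp.le,
      ← Complex.exp_nat_mul]
    congr 1
    push_cast
    ring
  unfold SelData.Phi
  rw [h3, h4]
  have h5 : (∏ j : Fin (zetaD k).r, Complex.Gamma ((((zetaD k).lam j : ℝ) : ℂ) * s + (zetaD k).mu j)) =
      Complex.Gamma (s / 2) ^ k := by
    show (∏ j : Fin k, Complex.Gamma (((1 / 2 : ℝ) : ℂ) * s + 0)) = _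
    rw [Finset.prod_const, Finset.card_univ, Fintype.card_fin]
    congr 2
    push_cast
    ring
  rw [h5, h2, Complex.Gammaℝ_def, ← mul_pow, ← mul_pow]

theorem zin_completed_conj {s : ℂ} (h0 : 0 < s.re) :
    conj (completedRiemannZeta (conj s)) = completedRiemannZeta s := by
  have hs0 : s ≠ 0 := by
    rintro rfl
    simp at h0
  have hs0' : conj s ≠ 0 := by simpa using hs0
  have hG := Complex.Gammaℝ_ne_zero_of_re_pos h0
  have hG' := Complex.Gammaℝ_ne_zero_of_re_pos (s := conj s) (by simpa using h0)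
  have h2 : completedRiemannZeta s = Complex.Gammaℝ s * riemannZeta s := by
    rw [riemannZeta_def_of_ne_zero hs0]
    field_simp
  have h3 : completedRiemannZeta (conj s) = Complex.Gammaℝ (conj s) * riemannZeta (conj s) := by
    rw [riemannZeta_def_of_ne_zero hs0']
    field_simp
  rw [h3, h2, map_mul, zin_Gammaℝ_conj, riemannZeta_conj, Complex.conj_conj]

theorem zetaD_isSel (k : ℕ) : IsSel (zetaD k) k where
  one := by
    show ((((ArithmeticFunction.zeta : ArithmeticFunction ℕ) ^ k) 1 : ℕ) : ℝ) = 1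
    rw [zin_one]; simp
  ram := by
    intro ε hε
    obtain ⟨C, hC, h⟩ := zin_ram k ε hε
    refine ⟨C, fun n hn => ?_⟩
    show |((((ArithmeticFunction.zeta : ArithmeticFunction ℕ) ^ k) n : ℕ) : ℝ)| ≤ _
    rw [abs_of_nonneg (Nat.cast_nonneg _)]
    exact h n hn
  entire := differentiable_riemannZeta₁.pow k
  order := zin_order k
  series := by
    intro s hs
    have h1 : s ≠ 1 := by
      rintro rfl
      simp at hs
    have h2 := (zin_series k hs).2
    have h3 : (fun n => (((zetaD k).f n : ℝ) : ℂ)) =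
        (fun n => (((((ArithmeticFunction.zeta : ArithmeticFunction ℕ) ^ k) n : ℕ)) : ℂ)) := by
      ext n
      show (((((((ArithmeticFunction.zeta : ArithmeticFunction ℕ) ^ k) n : ℕ)) : ℝ)) : ℂ) = _
      push_cast
      rfl
    rw [h3, h2]
    show riemannZeta₁ s ^ k = (s - 1) ^ k * riemannZeta s ^ k
    rw [riemannZeta_eq_inv_sub_mul h1, ← mul_pow, mul_inv_cancel_left₀ (sub_ne_zero.2 h1)]
  Qpos := Real.rpow_pos_of_pos Real.pi_pos _
  ωnorm := norm_one
  lampos := fun _ => by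
    show (0 : ℝ) < 1 / 2
    norm_num
  mure := fun _ => le_refl (0 : ℝ)
  func := by
    intro s h0 h1
    have hs1 : s ≠ 1 := by
      rintro rfl
      simp at h1
    have h2 : 0 < (1 - conj s).re := by
      simp
      exact h1
    have h3 : 1 - conj s ≠ 1 := by
      intro h
      have h4 := congrArg Complex.re h
      simp at h4
      linarith
    rw [zin_Phi k h0 hs1, zin_Phi k h2 h3, map_pow]
    have h4 : (1 : ℂ) - conj s = conj (1 - s) := by simp
    have h5 : 0 < (1 - s).re := by simpa using h1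
    rw [h4, zin_completed_conj h5, completedRiemannZeta_one_sub]
    show _ = 1 * _
    rw [one_mul]
  deg := by
    show (k : ℝ) = 2 * ∑ j : Fin k, (1 / 2 : ℝ)
    rw [Finset.sum_const, Finset.card_univ, Fintype.card_fin, nsmul_eq_mul]
    ring

/-- `d_3 = 1 * d_2` -/
theorem zetaD_conv (n : ℕ) (hn : 1 ≤ n) :
    (zetaD 3).f n = ∑ k ∈ n.divisors, (fun _ : ℕ => (1 : ℝ)) (n / k) * (zetaD 2).f k := by
  show ((((ArithmeticFunction.zeta : ArithmeticFunction ℕ) ^ 3) n : ℕ) : ℝ) =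
    ∑ k ∈ n.divisors, (fun _ : ℕ => (1 : ℝ)) (n / k) *
      ((((ArithmeticFunction.zeta : ArithmeticFunction ℕ) ^ 2) k : ℕ) : ℝ)
  rw [pow_succ, ArithmeticFunction.mul_zeta_apply]
  push_cast
  simp

end Pool.Agent.H15.SC
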