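import Pool.Agent.H15.SC.Core

/-!
# SC-07  complex Stirling formula with error `O(1/|im z|)`  (project SC, MP_be4568_nt)

`S(z) = Γ(z) exp (-((z - 1/2) log z - z))`.  For `|im z| ≥ 2`:
`S(z)/S(z+1) = exp ((z + 1/2) log (1 + 1/z) - 1) = exp (O(1/|z|²))` (`log (z+1) - log z = log (1 + 1/z)` holds off the
real axis, both logarithms have imaginary parts of the sign of `im z`; `|1/z| ≤ 1/2`).
`∑_j 1/|z+j|² ≤ C/|im z|`.  `S(z+n) → √(2π)`: `Complex.GammaSeq_tendsto_Gamma` gives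
`Γ(z) z(z+1)...(z+n) / (n^z n!) → 1`, hence `Γ(z+n+1) ~ n^z n!`, and real Stirling
(`Stirling.tendsto_stirlingSeq_sqrt_pi`) with `(z+n+1/2) log (z+n+1) - (z+n+1) = (n+1/2) log n - n + z log n + o(1)`.
`gamma_ratio` of `Pool/Agent/H74/ZS/GamR.lean` shows the same technique.
`gamma_lin`: insert `log (a s + b) = log |a| + log s - [a<0] iπ + b/(a s) + O(1/|s|²)` for `im s ≥ t0`.
-/

set_option autoImplicit false

open Complex Filter Topology MeasureTheory Set
open scoped ComplexConjugate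

namespace Pool.Agent.H15.SC

/-- no branch jump when both imaginary parts have the same sign -/
theorem log_div_of_same {w v : ℂ} (h : (0 < w.im ∧ 0 < v.im) ∨ (w.im < 0 ∧ v.im < 0)) :
    Complex.log (v / w) = Complex.log v - Complex.log w := by
  have hw : w ≠ 0 := by rintro rfl; simp at h
  have hv : v ≠ 0 := by rintro rfl; simp at h
  have e : cexp (Complex.log v - Complex.log w) = v / w := by
    rw [Complex.exp_sub, Complex.exp_log hv, Complex.exp_log hw]
  rw [← e]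
  refine Complex.log_exp ?_ ?_
  · rw [Complex.sub_im, Complex.log_im, Complex.log_im]
    rcases h with ⟨h1, h2⟩ | ⟨h1, h2⟩
    · have a1 := Complex.arg_nonneg_iff.mpr h2.le
      have a2 := Complex.arg_lt_pi_iff.mpr (Or.inr h1.ne')
      linarith
    · have a1 := Complex.arg_neg_iff.mpr h1
      have a2 := Complex.neg_pi_lt_arg v
      linarith
  · rw [Complex.sub_im, Complex.log_im, Complex.log_im]
    rcases h with ⟨h1, h2⟩ | ⟨h1, h2⟩
    · have a1 := Complex.arg_nonneg_iff.mpr h1.le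
      have a2 := Complex.arg_le_pi v
      linarith
    · have a1 := Complex.arg_neg_iff.mpr h2
      have a2 := Complex.neg_pi_lt_arg w
      linarith

theorem log_one_add_inv' {w : ℂ} (hw : w.im ≠ 0) :
    Complex.log (1 + 1 / w) = Complex.log (w + 1) - Complex.log w := by
  have hw0 : w ≠ 0 := by rintro rfl; simp at hw
  have h1 : 1 + 1 / w = (w + 1) / w := by field_simp
  rw [h1]
  refine log_div_of_same ?_
  have : (w + 1).im = w.im := by simp
  rw [this]
  rcases lt_or_gt_of_ne hw with h | h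
  · exact Or.inr ⟨h, h⟩
  · exact Or.inl ⟨h, h⟩

theorem log_bd (u : ℂ) (hu : ‖u‖ ≤ 1 / 2) : ‖Complex.log (1 + u) - u‖ ≤ ‖u‖ ^ 2 := by
  have h1 := Complex.norm_log_one_add_sub_self_le (z := u) (by linarith)
  refine h1.trans ?_
  have h2 : (1 - ‖u‖)⁻¹ ≤ 2 := by
    rw [inv_le_comm₀ (by linarith) (by norm_num)]
    linarith
  have h3 : 0 ≤ ‖u‖ ^ 2 := by positivity
  calc ‖u‖ ^ 2 * (1 - ‖u‖)⁻¹ / 2 ≤ ‖u‖ ^ 2 * 2 / 2 := by gcongr
    _ = ‖u‖ ^ 2 := by ring

theorem log_bd2 (u : ℂ) (hu : ‖u‖ ≤ 1 / 2) : ‖Complex.log (1 + u) - (u - u ^ 2 / 2)‖ ≤ ‖u‖ ^ 3 := by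
  have h1 := Complex.norm_log_sub_logTaylor_le 2 (z := u) (by linarith)
  have h0 : Complex.logTaylor (2 + 1) u = u - u ^ 2 / 2 := by
    simp only [Complex.logTaylor, Finset.sum_range_succ, Finset.sum_range_zero]
    push_cast
    ring
  rw [h0] at h1
  refine h1.trans ?_
  have h2 : (1 - ‖u‖)⁻¹ ≤ 2 := by
    rw [inv_le_comm₀ (by linarith) (by norm_num)]
    linarith
  have h3 : 0 ≤ ‖u‖ ^ 3 := by positivity
  push_cast
  calc ‖u‖ ^ (2 + 1) * (1 - ‖u‖)⁻¹ / (2 + 1) ≤ ‖u‖ ^ 3 * 2 / 3 := by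
        have : ‖u‖ ^ (2 + 1) * (1 - ‖u‖)⁻¹ ≤ ‖u‖ ^ 3 * 2 := by gcongr
        linarith
    _ ≤ ‖u‖ ^ 3 := by linarith

/-- the summand of the Binet type series -/
noncomputable def aj (z : ℂ) (j : ℕ) : ℂ := (z + j + 1/2) * Complex.log (1 + 1 / (z + j)) - 1

theorem aj_bound (w : ℂ) (hw : 2 ≤ ‖w‖) : ‖(w + 1/2) * Complex.log (1 + 1 / w) - 1‖ ≤ 2 / ‖w‖ ^ 2 := by
  have hw0 : w ≠ 0 := by rw [← norm_pos_iff]; linarith
  have hu : ‖1 / w‖ ≤ 1 / 2 := by
    rw [norm_div, norm_one]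
    exact one_div_le_one_div_of_le (by norm_num) hw
  have h := log_bd2 (1 / w) hu
  set r : ℂ := Complex.log (1 + 1 / w) - (1 / w - (1 / w) ^ 2 / 2) with hr
  have e : (w + 1/2) * Complex.log (1 + 1 / w) - 1 = -(1 / w) ^ 2 / 4 + (w + 1 / 2) * r := by
    have : Complex.log (1 + 1 / w) = r + (1 / w - (1 / w) ^ 2 / 2) := by rw [hr]; ring
    rw [this]
    field_simp
    ring
  rw [e]
  have hn : ‖1 / w‖ = 1 / ‖w‖ := by rw [norm_div, norm_one]
  have hwp : 0 < ‖w‖ := by linarith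
  have h2 : ‖(w + 1 / 2) * r‖ ≤ (5/4) * (1 / ‖w‖ ^ 2) := by
    rw [norm_mul]
    have h3 : ‖w + 1 / 2‖ ≤ (5/4) * ‖w‖ := by
      refine (norm_add_le _ _).trans ?_
      have : ‖(1 / 2 : ℂ)‖ = 1 / 2 := by norm_num
      rw [this]
      linarith
    calc ‖w + 1 / 2‖ * ‖r‖ ≤ ((5/4) * ‖w‖) * (1 / ‖w‖) ^ 3 := by
          rw [hn] at h
          exact mul_le_mul h3 h (norm_nonneg _) (by positivity)
      _ = _ := by field_simp
  have h4 : ‖-(1 / w) ^ 2 / 4‖ = (1/4) * (1 / ‖w‖ ^ 2) := by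
    rw [norm_div, norm_neg, norm_pow, hn]
    have : ‖(4 : ℂ)‖ = 4 := by norm_num
    rw [this]
    ring
  calc ‖-(1 / w) ^ 2 / 4 + (w + 1 / 2) * r‖ ≤ ‖-(1 / w) ^ 2 / 4‖ + ‖(w + 1 / 2) * r‖ := norm_add_le _ _
    _ ≤ (1/4) * (1 / ‖w‖ ^ 2) + (5/4) * (1 / ‖w‖ ^ 2) := by rw [h4]; linarith
    _ ≤ 2 / ‖w‖ ^ 2 := by
        have : 0 ≤ 1 / ‖w‖ ^ 2 := by positivity
        have e2 : 2 / ‖w‖ ^ 2 = 2 * (1 / ‖w‖ ^ 2) := by ring
        rw [e2]
        linarith

/-- the telescoping comparison function -/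
noncomputable def gt (a t : ℝ) : ℝ := t / (|t| + a)

theorem gt_le {a : ℝ} (ha : 0 < a) (t : ℝ) : |gt a t| ≤ 1 := by
  rw [gt, abs_div, abs_of_pos (by positivity : 0 < |t| + a), div_le_one (by positivity)]
  linarith

theorem gt_step {a : ℝ} (ha : 2 ≤ a) (t : ℝ) : 1 / (t ^ 2 + a ^ 2) ≤ (3 / a) * (gt a (t + 1) - gt a t) := by
  have ha0 : 0 < a := by linarith
  have hp : 0 < t ^ 2 + a ^ 2 := by positivity
  rcases le_or_gt 0 t with h | h
  · have e : gt a (t + 1) - gt a t = a / ((t + 1 + a) * (t + a)) := by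
      rw [gt, gt, abs_of_nonneg h, abs_of_nonneg (by linarith : 0 ≤ t + 1)]
      field_simp
      ring
    rw [e, show (3 / a) * (a / ((t + 1 + a) * (t + a))) = 3 / ((t + 1 + a) * (t + a)) by field_simp,
      div_le_div_iff₀ hp (by positivity)]
    nlinarith [sq_nonneg (t - a)]
  · rcases le_or_gt (t + 1) 0 with h' | h'
    · have e : gt a (t + 1) - gt a t = a / ((-t + a) * (-t - 1 + a)) := by
        rw [gt, gt, abs_of_nonpos h', abs_of_neg h]
        have h1 : -(t + 1) + a ≠ 0 := by linarith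
        have h2 : -t + a ≠ 0 := by linarith
        have h3 : -t - 1 + a ≠ 0 := by linarith
        field_simp
        ring
      have q1 : 0 < -t + a := by linarith
      have q2 : 0 < -t - 1 + a := by linarith
      rw [e, show (3 / a) * (a / ((-t + a) * (-t - 1 + a))) = 3 / ((-t + a) * (-t - 1 + a)) by field_simp,
        div_le_div_iff₀ hp (by positivity)]
      nlinarith [sq_nonneg (t + a)]
    · have e : gt a (t + 1) - gt a t = (t + 1) / (t + 1 + a) + (-t) / (-t + a) := by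
        rw [gt, gt, abs_of_pos h', abs_of_neg h]
        ring
      have q1 : 0 < -t + a := by linarith
      have q2 : 0 < t + 1 + a := by linarith
      have l1 : (t + 1) / (1 + a) ≤ (t + 1) / (t + 1 + a) :=
        div_le_div_of_nonneg_left h'.le q2 (by linarith)
      have l2 : (-t) / (1 + a) ≤ (-t) / (-t + a) :=
        div_le_div_of_nonneg_left (by linarith) q1 (by linarith)
      have l3 : 1 / (1 + a) ≤ gt a (t + 1) - gt a t := by
        rw [e]
        calc 1 / (1 + a) = (t + 1) / (1 + a) + (-t) / (1 + a) := by rw [← add_div]; ring_nf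
          _ ≤ _ := add_le_add l1 l2
      calc 1 / (t ^ 2 + a ^ 2) ≤ 1 / a ^ 2 := one_div_le_one_div_of_le (by positivity) (by nlinarith)
        _ ≤ (3 / a) * (1 / (1 + a)) := by
            rw [show (3 / a) * (1 / (1 + a)) = 3 / (a * (1 + a)) by field_simp,
              div_le_div_iff₀ (by positivity) (by positivity)]
            nlinarith
        _ ≤ _ := by gcongr

theorem sum_inv_le {a : ℝ} (ha : 2 ≤ a) (x : ℝ) (n : ℕ) :
    ∑ j ∈ Finset.range n, 1 / ((x + j) ^ 2 + a ^ 2) ≤ 6 / a := by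
  have ha0 : 0 < a := by linarith
  have h1 : ∑ j ∈ Finset.range n, 1 / ((x + j) ^ 2 + a ^ 2) ≤
      ∑ j ∈ Finset.range n, ((3 / a) * gt a (x + (j + 1 : ℕ)) - (3 / a) * gt a (x + j)) := by
    refine Finset.sum_le_sum (fun j _ => ?_)
    have := gt_step ha (x + j)
    rw [show x + (j + 1 : ℕ) = x + j + 1 by push_cast; ring, ← mul_sub]
    exact this
  rw [Finset.sum_range_sub (fun j : ℕ => (3 / a) * gt a (x + j))] at h1
  refine h1.trans ?_
  have g1 := abs_le.mp (gt_le ha0 (x + n))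
  have g2 := abs_le.mp (gt_le ha0 (x + (0 : ℕ)))
  rw [← mul_sub]
  calc (3 / a) * (gt a (x + n) - gt a (x + (0 : ℕ))) ≤ (3 / a) * 2 := by
        gcongr
        linarith [g1.2, g2.1]
    _ = 6 / a := by ring

theorem aj_norm_le {z : ℂ} (hz : 2 ≤ |z.im|) (j : ℕ) :
    ‖aj z j‖ ≤ 2 * (1 / ((z.re + j) ^ 2 + |z.im| ^ 2)) := by
  have hn : ‖z + j‖ ^ 2 = (z.re + j) ^ 2 + |z.im| ^ 2 := by
    rw [Complex.sq_norm, Complex.normSq_apply, sq_abs]
    simp only [Complex.add_re, Complex.natCast_re, Complex.add_im, Complex.natCast_im, add_zero]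
    ring
  have h2 : 2 ≤ ‖z + j‖ := hz.trans (by
    have := Complex.abs_im_le_norm (z + j)
    simpa using this)
  have := aj_bound (z + j) h2
  rw [hn] at this
  rw [mul_one_div]
  exact this

theorem aj_sum_le {z : ℂ} (hz : 2 ≤ |z.im|) (n : ℕ) :
    ∑ j ∈ Finset.range n, ‖aj z j‖ ≤ 12 / |z.im| := by
  calc ∑ j ∈ Finset.range n, ‖aj z j‖ ≤ ∑ j ∈ Finset.range n, 2 * (1 / ((z.re + j) ^ 2 + |z.im| ^ 2)) :=
        Finset.sum_le_sum (fun j _ => aj_norm_le hz j)
    _ = 2 * ∑ j ∈ Finset.range n, 1 / ((z.re + j) ^ 2 + |z.im| ^ 2) := by rw [Finset.mul_sum]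
    _ ≤ 2 * (6 / |z.im|) := by
        gcongr
        exact sum_inv_le hz z.re n
    _ = 12 / |z.im| := by ring

theorem aj_summable {z : ℂ} (hz : 2 ≤ |z.im|) : Summable (aj z) :=
  Summable.of_norm (summable_of_sum_range_le (fun _ => norm_nonneg _) (aj_sum_le hz))

theorem aj_tsum_le {z : ℂ} (hz : 2 ≤ |z.im|) : ‖∑' j, aj z j‖ ≤ 12 / |z.im| := by
  refine le_of_tendsto ((aj_summable hz).hasSum.tendsto_sum_nat.norm) (Filter.Eventually.of_forall (fun n => ?_))
  exact (norm_sum_le _ _).trans (aj_sum_le hz n)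

theorem aj_telescope {z : ℂ} (hz : z.im ≠ 0) (n : ℕ) :
    ∑ j ∈ Finset.range n, aj z j = (z + n - 1/2) * Complex.log (z + n) - (z - 1/2) * Complex.log z
      - ∑ j ∈ Finset.range n, Complex.log (z + j) - n := by
  induction n with
  | zero => simp
  | succ n ih =>
    have h0 : (z + n).im ≠ 0 := by simpa using hz
    rw [Finset.sum_range_succ, Finset.sum_range_succ, ih, aj, log_one_add_inv' h0]
    push_cast
    rw [show z + (n : ℂ) + 1 = z + ((n : ℂ) + 1) by ring]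
    ring

theorem gammaSeq_eq {z : ℂ} (hz : z.im ≠ 0) {n : ℕ} (hn : n ≠ 0) :
    Complex.GammaSeq z n = ((Stirling.stirlingSeq n : ℝ) : ℂ) * (Real.sqrt 2 : ℂ) *
      cexp ((z - 1/2) * Complex.log z + ∑ j ∈ Finset.range (n + 1), aj z j + 1
        - (z + n + 1/2) * Complex.log (1 + (z + 1) / n)) := by
  have hn0 : (0 : ℝ) < n := by exact_mod_cast Nat.pos_of_ne_zero hn
  have hnc : (n : ℂ) ≠ 0 := by exact_mod_cast hn
  have hj : ∀ j : ℕ, z + j ≠ 0 := by
    intro j h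
    apply hz
    have := congrArg Complex.im h
    simpa using this
  -- the product
  have hprod : ∏ j ∈ Finset.range (n + 1), (z + j) = cexp (∑ j ∈ Finset.range (n + 1), Complex.log (z + j)) := by
    rw [Complex.exp_sum]
    exact Finset.prod_congr rfl (fun j _ => (Complex.exp_log (hj j)).symm)
  -- the factorial
  have hfac : ((n.factorial : ℕ) : ℂ) = ((Stirling.stirlingSeq n : ℝ) : ℂ) * (Real.sqrt 2 : ℂ) *
      cexp ((n + 1/2) * (Real.log n : ℝ) - n) := by
    have h1 : ((n.factorial : ℕ) : ℝ) = Stirling.stirlingSeq n * Real.sqrt 2 *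
        Real.exp ((n + 1/2) * Real.log n - n) := by
      rw [Stirling.stirlingSeq]
      have e1 : Real.sqrt (2 * n) = Real.sqrt 2 * Real.exp (1/2 * Real.log n) := by
        rw [Real.sqrt_mul (by norm_num), Real.sqrt_eq_rpow (n : ℝ), Real.rpow_def_of_pos hn0]
        ring_nf
      have e2 : ((n : ℝ) / Real.exp 1) ^ n = Real.exp (n * Real.log n - n) := by
        rw [div_pow, ← Real.exp_nat_mul, mul_one, Real.exp_sub, Real.exp_nat_mul, Real.exp_log hn0]
      rw [e1, e2, mul_assoc (Real.sqrt 2), ← Real.exp_add]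
      have e3 : 1/2 * Real.log n + (n * Real.log n - n) = (n + 1/2) * Real.log n - n := by ring
      rw [e3]
      have := Real.exp_pos ((n + 1/2) * Real.log n - n)
      have h2 : (0 : ℝ) < Real.sqrt 2 := by positivity
      field_simp
    have h2 := congrArg (fun x : ℝ => (x : ℂ)) h1
    push_cast at h2 ⊢
    exact h2
  have hpow : (n : ℂ) ^ z = cexp (z * (Real.log n : ℝ)) := by
    rw [Complex.cpow_def_of_ne_zero hnc, ← Complex.natCast_log, mul_comm]
  have hlog : Complex.log (z + (n + 1 : ℕ)) = (Real.log n : ℝ) + Complex.log (1 + (z + 1) / n) := by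
    have h1 : z + (n + 1 : ℕ) = ((n : ℝ) : ℂ) * (1 + (z + 1) / n) := by
      push_cast
      field_simp
      ring
    have h2 : (1 + (z + 1) / n : ℂ) ≠ 0 := by
      intro h
      rw [h, mul_zero] at h1
      exact hj _ h1
    rw [h1, Complex.log_ofReal_mul hn0 h2]
  have htel := aj_telescope hz (n + 1)
  rw [Complex.GammaSeq, hprod, hfac, hpow]
  have hs : ∑ j ∈ Finset.range (n + 1), Complex.log (z + j) = (z + (n + 1 : ℕ) - 1/2) * Complex.log (z + (n + 1 : ℕ))
      - (z - 1/2) * Complex.log z - (n + 1 : ℕ) - ∑ j ∈ Finset.range (n + 1), aj z j := by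
    rw [htel]; ring
  rw [hs, hlog, mul_comm (cexp _) _, mul_assoc, ← Complex.exp_add, mul_div_assoc, ← Complex.exp_sub]
  congr 2
  push_cast
  ring

theorem tendsto_corr (z : ℂ) : Tendsto (fun n : ℕ => (z + n + 1/2) * Complex.log (1 + (z + 1) / n)) atTop (𝓝 (z + 1)) := by
  have h0 : Tendsto (fun n : ℕ => (n : ℂ) * ((z + 1) / n)) atTop (𝓝 (z + 1)) := by
    refine tendsto_const_nhds.congr' ?_
    filter_upwards [eventually_ne_atTop 0] with n hn
    have hnc : (n : ℂ) ≠ 0 := by exact_mod_cast hn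
    field_simp
  have h1 := Complex.tendsto_nat_mul_log_one_add_of_tendsto h0
  have h2 : Tendsto (fun n : ℕ => (z + 1) / (n : ℂ)) atTop (𝓝 0) :=
    _root_.tendsto_const_div_atTop_nhds_zero_nat (z + 1)
  have h3 : Tendsto (fun n : ℕ => Complex.log (1 + (z + 1) / (n : ℂ))) atTop (𝓝 0) := by
    have h4 : Tendsto (fun n : ℕ => 1 + (z + 1) / (n : ℂ)) atTop (𝓝 (1 + 0)) := h2.const_add 1
    rw [add_zero] at h4
    have h5 := (continuousAt_clog (x := 1) (by simp)).tendsto.comp h4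
    rw [Complex.log_one] at h5
    exact h5
  have h6 := h1.add (h3.const_mul (z + 1/2))
  rw [mul_zero, add_zero] at h6
  refine h6.congr (fun n => ?_)
  ring

theorem stirling : ∃ C : ℝ, 0 ≤ C ∧ ∀ z : ℂ, 2 ≤ |z.im| → ∃ E : ℂ, ‖E‖ ≤ C / |z.im| ∧
    Complex.Gamma z = (Real.sqrt (2 * Real.pi) : ℂ) * cexp ((z - 1/2) * Complex.log z - z + E) := by
  refine ⟨12, by norm_num, fun z hz => ⟨∑' j, aj z j, aj_tsum_le hz, ?_⟩⟩
  have hz0 : z.im ≠ 0 := by
    intro h
    rw [h, abs_zero] at hz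
    norm_num at hz
  have h1 := Complex.GammaSeq_tendsto_Gamma z
  have h2 : Tendsto (fun n : ℕ => ((Stirling.stirlingSeq n : ℝ) : ℂ) * (Real.sqrt 2 : ℂ) *
      cexp ((z - 1/2) * Complex.log z + ∑ j ∈ Finset.range (n + 1), aj z j + 1
        - (z + n + 1/2) * Complex.log (1 + (z + 1) / n))) atTop
      (𝓝 (((Real.sqrt Real.pi : ℝ) : ℂ) * (Real.sqrt 2 : ℂ) *
        cexp ((z - 1/2) * Complex.log z + ∑' j, aj z j + 1 - (z + 1)))) := by
    refine Tendsto.mul ?_ ?_
    · refine Tendsto.mul ?_ tendsto_const_nhds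
      exact (Complex.continuous_ofReal.tendsto _).comp Stirling.tendsto_stirlingSeq_sqrt_pi
    · refine (Complex.continuous_exp.tendsto _).comp ?_
      refine Tendsto.sub ?_ (tendsto_corr z)
      refine Tendsto.add ?_ tendsto_const_nhds
      refine Tendsto.add tendsto_const_nhds ?_
      exact (aj_summable hz).hasSum.tendsto_sum_nat.comp (tendsto_add_atTop_nat 1)
  have h3 : Tendsto (fun n : ℕ => Complex.GammaSeq z n) atTop
      (𝓝 (((Real.sqrt Real.pi : ℝ) : ℂ) * (Real.sqrt 2 : ℂ) *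
        cexp ((z - 1/2) * Complex.log z + ∑' j, aj z j + 1 - (z + 1)))) := by
    refine h2.congr' ?_
    filter_upwards [eventually_ne_atTop 0] with n hn
    exact (gammaSeq_eq hz0 hn).symm
  have h4 := tendsto_nhds_unique h1 h3
  rw [h4, mul_comm 2 Real.pi, Real.sqrt_mul Real.pi_pos.le]
  push_cast
  congr 2
  ring

theorem log_real_mul {a : ℝ} (ha : a ≠ 0) {s : ℂ} (hs : 0 < s.im) :
    Complex.log (a * s) = (Real.log |a| : ℝ) + Complex.log s - (if a < 0 then (Real.pi : ℂ) * I else 0) := by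
  have hs0 : s ≠ 0 := by rintro rfl; simp at hs
  rcases lt_or_gt_of_ne ha with h | h
  · rw [if_pos h]
    have e : (a : ℂ) * s = ((|a| : ℝ) : ℂ) * (-s) := by
      rw [abs_of_neg h]
      push_cast
      ring
    rw [e, Complex.log_ofReal_mul (abs_pos.mpr ha) (neg_ne_zero.mpr hs0)]
    have h2 : Complex.log (-s) = Complex.log s - (Real.pi : ℂ) * I := by
      rw [Complex.log, Complex.log, Complex.arg_neg_eq_arg_sub_pi_of_im_pos hs, norm_neg]
      push_cast
      ring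
    rw [h2]
    ring
  · rw [if_neg (not_lt.mpr h.le), abs_of_pos h, Complex.log_ofReal_mul h hs0, sub_zero]

/-- `Γ(a s + b)` for `im s` large, `a ≠ 0` real, `|re s| ≤ 2` -/
theorem gamma_lin (a : ℝ) (ha : a ≠ 0) (b : ℂ) : ∃ C t₀ : ℝ, 0 ≤ C ∧ 1 ≤ t₀ ∧ ∀ s : ℂ, |s.re| ≤ 2 → t₀ ≤ s.im →
    ∃ E : ℂ, ‖E‖ ≤ C / s.im ∧ Complex.Gamma (a * s + b) = (Real.sqrt (2 * Real.pi) : ℂ) *
      cexp ((a * s + b - 1/2) * ((Real.log |a| : ℝ) + Complex.log s - (if a < 0 then (Real.pi : ℂ) * I else 0))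
        - a * s + E) := by
  obtain ⟨C0, hC0, hS⟩ := stirling
  have hap : 0 < |a| := abs_pos.mpr ha
  refine ⟨(2 * C0 + ‖b‖ ^ 2 + 2 * ‖b - 1/2‖ * ‖b‖) / |a|, 1 + 4 / |a| + 2 * ‖b‖ / |a|, by positivity, ?_, ?_⟩
  · have h1 : 0 ≤ 4 / |a| := by positivity
    have h2 : 0 ≤ 2 * ‖b‖ / |a| := by positivity
    linarith
  intro s _ hst
  have k1 : 0 ≤ 4 / |a| := by positivity
  have k2 : 0 ≤ 2 * ‖b‖ / |a| := by positivity
  have hs : 0 < s.im := by linarith
  have hs0 : s ≠ 0 := by rintro rfl; simp at hs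
  have hac : (a : ℂ) ≠ 0 := by exact_mod_cast ha
  have q1 : 4 ≤ |a| * s.im := by
    have : 4 / |a| ≤ s.im := by linarith
    rw [div_le_iff₀ hap] at this
    linarith
  have q2 : 2 * ‖b‖ ≤ |a| * s.im := by
    have : 2 * ‖b‖ / |a| ≤ s.im := by linarith
    rw [div_le_iff₀ hap] at this
    linarith
  have hsn : s.im ≤ ‖s‖ := (le_abs_self _).trans (Complex.abs_im_le_norm s)
  have hsnp : 0 < ‖s‖ := by linarith
  have hasn : ‖(a : ℂ) * s‖ = |a| * ‖s‖ := by rw [norm_mul, Complex.norm_real, Real.norm_eq_abs]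
  set z : ℂ := a * s + b with hz
  set u : ℂ := b / (a * s) with hu
  have hbi := abs_le.mp (Complex.abs_im_le_norm b)
  have him : z.im = a * s.im + b.im := by
    rw [hz, Complex.add_im, Complex.im_ofReal_mul]
  have hasim : ((a : ℂ) * s).im = a * s.im := by rw [Complex.im_ofReal_mul]
  have hsame : (0 < ((a : ℂ) * s).im ∧ 0 < z.im) ∨ (((a : ℂ) * s).im < 0 ∧ z.im < 0) := by
    rw [him, hasim]
    rcases lt_or_gt_of_ne ha with h | h
    · right
      rw [abs_of_neg h] at q1 q2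
      constructor <;> nlinarith
    · left
      rw [abs_of_pos h] at q1 q2
      constructor <;> nlinarith
  have hzim : |a| / 2 * s.im ≤ |z.im| := by
    rw [him]
    have h1 : |a * s.im| = |a| * s.im := by rw [abs_mul, abs_of_pos hs]
    have h2 := abs_sub_abs_le_abs_sub (a * s.im) (-b.im)
    rw [h1, abs_neg, sub_neg_eq_add] at h2
    have h3 := Complex.abs_im_le_norm b
    linarith
  have hz2 : 2 ≤ |z.im| := by linarith
  obtain ⟨E0, hE0, hG⟩ := hS z hz2
  have hun : ‖u‖ = ‖b‖ / (|a| * ‖s‖) := by rw [hu, norm_div, hasn]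
  have hule : ‖u‖ ≤ ‖b‖ / (|a| * s.im) := by
    rw [hun]
    gcongr
  have hu2 : ‖u‖ ≤ 1 / 2 := by
    refine hule.trans ?_
    rw [div_le_iff₀ (by positivity)]
    linarith
  have hlog : Complex.log z = (Real.log |a| : ℝ) + Complex.log s - (if a < 0 then (Real.pi : ℂ) * I else 0)
      + Complex.log (1 + u) := by
    have e1 : 1 + u = z / (a * s) := by
      rw [hu, hz]
      field_simp
    rw [e1, log_div_of_same hsame, log_real_mul ha hs]
    ring
  have hub : (a : ℂ) * s * u = b := by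
    rw [hu]
    field_simp
  have hb1 := log_bd u hu2
  refine ⟨E0 + (a * s) * (Complex.log (1 + u) - u) + (b - 1/2) * Complex.log (1 + u), ?_, ?_⟩
  · have h1 : ‖E0‖ ≤ (2 * C0) / |a| / s.im := by
      refine hE0.trans ?_
      calc C0 / |z.im| ≤ C0 / (|a| / 2 * s.im) := by gcongr
        _ = (2 * C0) / |a| / s.im := by field_simp
    have h2 : ‖(a * s) * (Complex.log (1 + u) - u)‖ ≤ ‖b‖ ^ 2 / |a| / s.im := by
      rw [norm_mul, hasn]
      calc |a| * ‖s‖ * ‖Complex.log (1 + u) - u‖ ≤ |a| * ‖s‖ * ‖u‖ ^ 2 := by gcongr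
        _ = ‖b‖ ^ 2 / |a| / ‖s‖ := by
            rw [hun]
            field_simp
        _ ≤ ‖b‖ ^ 2 / |a| / s.im := by gcongr
    have h3 : ‖(b - 1/2) * Complex.log (1 + u)‖ ≤ (2 * ‖b - 1/2‖ * ‖b‖) / |a| / s.im := by
      rw [norm_mul]
      have h4 : ‖Complex.log (1 + u)‖ ≤ 2 * ‖u‖ := by
        have h5 : Complex.log (1 + u) = (Complex.log (1 + u) - u) + u := by ring
        rw [h5]
        refine (norm_add_le _ _).trans ?_
        nlinarith [norm_nonneg u]
      calc ‖b - 1/2‖ * ‖Complex.log (1 + u)‖ ≤ ‖b - 1/2‖ * (2 * (‖b‖ / (|a| * s.im))) := by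
            gcongr
            exact h4.trans (by linarith)
        _ = (2 * ‖b - 1/2‖ * ‖b‖) / |a| / s.im := by field_simp
    calc _ ≤ ‖E0‖ + ‖(a * s) * (Complex.log (1 + u) - u)‖ + ‖(b - 1/2) * Complex.log (1 + u)‖ := norm_add₃_le
      _ ≤ (2 * C0) / |a| / s.im + ‖b‖ ^ 2 / |a| / s.im + (2 * ‖b - 1/2‖ * ‖b‖) / |a| / s.im := by
          linarith
      _ = _ := by ring
  · rw [hG, hlog]
    congr 2
    have e2 : z = a * s + b := hz
    generalize Complex.log (1 + u) = l at *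
    generalize ((Real.log |a| : ℝ) : ℂ) + Complex.log s - (if a < 0 then (Real.pi : ℂ) * I else 0) = L at *
    have e3 : (a : ℂ) * s * (l - u) = a * s * l - b := by rw [mul_sub, hub]
    rw [e3, e2]
    ring

end Pool.Agent.H15.SC
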