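import Pool.Agent.H15.SC.Core

/-!
# SC-04  shifting vertical lines  (project SC, MP_be4568_nt)

Rectangle theorem (`Complex.integral_boundary_rect_eq_zero_of_differentiableOn`) on `[a,b] × [-R,R]`, `R → ∞`.
(`Pool.Agent.RAux.ls_horiz` in `Pool/Agent/RAux/LineShift.lean` is the same for horizontal lines and may be copied.)
-/

set_option autoImplicit false

open Complex Filter Topology MeasureTheory Set
open scoped ComplexConjugate

namespace Pool.Agent.H15.SC

theorem vs_int : Integrable (fun p : ℝ => Real.exp (-|p|)) := by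
  rw [← integrableOn_univ, ← Set.Iic_union_Ioi (a := (0 : ℝ))]
  refine IntegrableOn.union ?_ ?_
  · refine (integrableOn_exp_mul_Iic (zero_lt_one) 0).congr_fun (fun p hp => ?_) measurableSet_Iic
    have hp' : p ≤ 0 := hp
    simp [abs_of_nonpos hp']
  · refine (integrableOn_exp_mul_Ioi (neg_neg_of_pos zero_lt_one) 0).congr_fun (fun p hp => ?_)
      measurableSet_Ioi
    have hp' : 0 < p := hp
    simp [abs_of_pos hp']

theorem vshift (G : ℂ → ℂ) (a b C : ℝ) (hab : a ≤ b)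
    (hG : DifferentiableOn ℂ G {z : ℂ | a ≤ z.re ∧ z.re ≤ b})
    (hb : ∀ z : ℂ, a ≤ z.re → z.re ≤ b → ‖G z‖ ≤ C * Real.exp (-|z.im|)) :
    ∫ t : ℝ, G (ln a t) = ∫ t : ℝ, G (ln b t) := by
  have hInt : ∀ q : ℝ, a ≤ q → q ≤ b → Integrable (fun t : ℝ => G (ln q t)) := by
    intro q hq1 hq2
    have hcont : Continuous (fun t : ℝ => G (ln q t)) := by
      refine hG.continuousOn.comp_continuous (by unfold ln; fun_prop) (fun p => ?_)
      simpa using ⟨hq1, hq2⟩
    have h1 : Integrable (fun p : ℝ => C * Real.exp (-|p|)) := vs_int.const_mul C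
    refine h1.mono' hcont.aestronglyMeasurable (Filter.Eventually.of_forall fun p => ?_)
    have := hb (ln q p) (by simpa using hq1) (by simpa using hq2)
    simpa using this
  have hV : ∀ T : ℝ, ‖∫ x in a..b, G ((x : ℂ) + (T : ℂ) * I)‖ ≤
      C * Real.exp (-|T|) * |b - a| := by
    intro T
    refine intervalIntegral.norm_integral_le_of_norm_le_const fun y hy => ?_
    have hy' : y ∈ Set.Ioc a b := by rwa [Set.uIoc_of_le hab] at hy
    have h1 := hb ((y : ℂ) + (T : ℂ) * I) (by simpa using hy'.1.le) (by simpa using hy'.2)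
    simpa using h1
  have hlim0 : Tendsto (fun T : ℝ => C * Real.exp (-|T|) * |b - a|) atTop (𝓝 0) := by
    have h1 : Tendsto (fun T : ℝ => -|T|) atTop atBot :=
      tendsto_neg_atTop_atBot.comp tendsto_abs_atTop_atTop
    have h2 := (Real.tendsto_exp_atBot.comp h1).const_mul C |>.mul_const |b - a|
    simpa using h2
  have hV1 : Tendsto (fun T : ℝ => ∫ x in a..b, G ((x : ℂ) + (T : ℂ) * I)) atTop (𝓝 0) :=
    squeeze_zero_norm hV hlim0
  have hV2 : Tendsto (fun T : ℝ => ∫ x in a..b, G ((x : ℂ) + ((-T : ℝ) : ℂ) * I)) atTop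
      (𝓝 0) := by
    refine squeeze_zero_norm (fun T => ?_) hlim0
    have := hV (-T)
    rwa [abs_neg] at this
  have hH : ∀ q : ℝ, a ≤ q → q ≤ b → Tendsto (fun T : ℝ => ∫ t in (-T)..T, G (ln q t)) atTop
      (𝓝 (∫ t : ℝ, G (ln q t))) := fun q hq1 hq2 =>
    intervalIntegral_tendsto_integral (hInt q hq1 hq2) tendsto_neg_atTop_atBot tendsto_id
  have hR : ∀ T : ℝ, (∫ x in a..b, G ((x : ℂ) + ((-T : ℝ) : ℂ) * I)) -
      (∫ x in a..b, G ((x : ℂ) + (T : ℂ) * I)) +
      I • (∫ y in (-T)..T, G (ln b y)) -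
      I • (∫ y in (-T)..T, G (ln a y)) = 0 := by
    intro T
    have h := Complex.integral_boundary_rect_eq_zero_of_differentiableOn G
      (⟨a, -T⟩ : ℂ) (⟨b, T⟩ : ℂ) (hG.mono (fun z hz => by
        have h1 := (Complex.mem_reProdIm.1 hz).1
        simp only at h1
        rw [Set.uIcc_of_le hab] at h1
        exact ⟨h1.1, h1.2⟩))
    exact h
  have hfin : Tendsto (fun T : ℝ => (∫ x in a..b, G ((x : ℂ) + ((-T : ℝ) : ℂ) * I)) -
      (∫ x in a..b, G ((x : ℂ) + (T : ℂ) * I)) +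
      I • (∫ y in (-T)..T, G (ln b y)) -
      I • (∫ y in (-T)..T, G (ln a y))) atTop
      (𝓝 ((0 : ℂ) - 0 + I • (∫ t : ℝ, G (ln b t)) - I • (∫ t : ℝ, G (ln a t)))) :=
    ((hV2.sub hV1).add ((hH b hab le_rfl).const_smul _)).sub ((hH a le_rfl hab).const_smul _)
  simp_rw [hR] at hfin
  have h0 := tendsto_nhds_unique hfin tendsto_const_nhds
  simp only [smul_eq_mul, sub_zero, zero_add] at h0
  have h1 : I * (∫ t : ℝ, G (ln b t)) = I * (∫ t : ℝ, G (ln a t)) := sub_eq_zero.1 h0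
  exact (mul_left_cancel₀ I_ne_zero h1).symm

/-- the same for `vint`: `G` analytic with `‖G z‖ ≤ C e^{-|im z|}` in the strip -/
theorem vint_shift (G : ℂ → ℂ) (a b C : ℝ) (hab : a ≤ b)
    (hG : DifferentiableOn ℂ G {z : ℂ | a ≤ z.re ∧ z.re ≤ b})
    (hb : ∀ z : ℂ, a ≤ z.re → z.re ≤ b → ‖G z‖ ≤ C * Real.exp (-|z.im|)) (x : ℝ) (hx : 0 < x) :
    vint (fun t => G (ln a t)) a x = vint (fun t => G (ln b t)) b x := by
  have hx0 : (x : ℂ) ≠ 0 := by exact_mod_cast hx.ne'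
  unfold vint
  congr 1
  refine vshift (fun z => G z * (x : ℂ) ^ z) a b (C * (x ^ a + x ^ b)) hab ?_ ?_
  · refine hG.mul ?_
    intro z _
    exact ((differentiableAt_id.const_cpow (Or.inl hx0))).differentiableWithinAt
  · intro z h1 h2
    have h3 := hb z h1 h2
    have h4 : ‖(x : ℂ) ^ z‖ ≤ x ^ a + x ^ b := by
      rw [Complex.norm_cpow_eq_rpow_re_of_pos hx]
      have ha := Real.rpow_pos_of_pos hx a
      have hb' := Real.rpow_pos_of_pos hx b
      rcases le_total 1 x with hx1 | hx1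
      · have := Real.rpow_le_rpow_of_exponent_le hx1 h2
        linarith
      · have := Real.rpow_le_rpow_of_exponent_ge hx hx1 h1
        linarith
    have h5 : 0 ≤ C * Real.exp (-|z.im|) := (norm_nonneg _).trans h3
    rw [norm_mul]
    calc ‖G z‖ * ‖(x : ℂ) ^ z‖ ≤ (C * Real.exp (-|z.im|)) * (x ^ a + x ^ b) :=
          mul_le_mul h3 h4 (norm_nonneg _) h5
      _ = C * (x ^ a + x ^ b) * Real.exp (-|z.im|) := by ring

/-- a polynomial times `e^{-t²/W²}` is `≤ C e^{-|t|}` -/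
theorem poly_gauss_le (p : ℝ) {W : ℝ} (hW : 0 < W) : ∃ C : ℝ, 0 ≤ C ∧ ∀ t : ℝ,
    (1 + |t|) ^ p * Real.exp (-(t ^ 2 / W ^ 2)) ≤ C * Real.exp (-|t|) := by
  refine ⟨Real.exp ((|p| + 1) ^ 2 * W ^ 2 / 4), (Real.exp_pos _).le, fun t => ?_⟩
  have h1 : 0 < 1 + |t| := by positivity
  have h2 : Real.log (1 + |t|) ≤ |t| := by
    have := Real.log_le_sub_one_of_pos h1
    linarith
  have h3 : 0 ≤ Real.log (1 + |t|) := Real.log_nonneg (by linarith [abs_nonneg t])
  have h4 : Real.log (1 + |t|) * p ≤ |p| * |t| := by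
    calc Real.log (1 + |t|) * p ≤ Real.log (1 + |t|) * |p| :=
          mul_le_mul_of_nonneg_left (le_abs_self p) h3
      _ ≤ |t| * |p| := mul_le_mul_of_nonneg_right h2 (abs_nonneg p)
      _ = |p| * |t| := mul_comm _ _
  rw [Real.rpow_def_of_pos h1, ← Real.exp_add, ← Real.exp_add]
  refine Real.exp_le_exp.2 ?_
  have h5 : (|p| + 1) * |t| - t ^ 2 / W ^ 2 ≤ (|p| + 1) ^ 2 * W ^ 2 / 4 := by
    have h6 : (|p| + 1) ^ 2 * W ^ 2 / 4 - ((|p| + 1) * |t| - t ^ 2 / W ^ 2) =
        (|t| / W - (|p| + 1) * W / 2) ^ 2 := by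
      have hW' : W ≠ 0 := hW.ne'
      rw [← sq_abs t]
      field_simp
      ring
    have h7 := sq_nonneg (|t| / W - (|p| + 1) * W / 2)
    linarith
  linarith

end Pool.Agent.H15.SC
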