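import Pool.Agent.H15.SC.ChiD

/-!
# SC-09  polynomial growth in vertical strips  (project SC, MP_be4568_nt)

Phragmén–Lindelöf (`PhragmenLindelof.vertical_strip`) for `H(s) / (s + 3)^k`, `k` a large natural number, on
`-3/4 ≤ re s ≤ 2`.  Edge `re s = 2`: `H = (s-1)^m L`, `|L(2+it)| ≤ ∑ |f n| n^{-2}`.  Edge `re s = -3/4`:
`H(s) = (s-1)^m chi(s) L(1-s)` by `F_left`, `chi_bound`.  Inside: `h.order` (finite order) gives
`O(exp (exp (c |im|)))` for every `c > 0`.
-/

set_option autoImplicit false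

open Complex Filter Topology MeasureTheory Set
open scoped ComplexConjugate

namespace Pool.Agent.H15.SC

variable {D : SelData} {d : ℝ}

/-- `L` is bounded on `re s ≥ 5/4` (absolute convergence) -/
theorem L_bound (h : IsSel D d) : ∃ C : ℝ, 0 ≤ C ∧ ∀ s : ℂ, 5/4 ≤ s.re → ‖D.L s‖ ≤ C := by
  have hsum : LSeriesSummable (fun n => (D.f n : ℂ)) ((5/4 : ℝ) : ℂ) :=
    chid_summ h (by rw [ofReal_re]; norm_num)
  have hn : Summable fun n => ‖LSeries.term (fun n => (D.f n : ℂ)) ((5/4 : ℝ) : ℂ) n‖ := hsum.norm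
  refine ⟨∑' n, ‖LSeries.term (fun n => (D.f n : ℂ)) ((5/4 : ℝ) : ℂ) n‖,
    tsum_nonneg fun n => norm_nonneg _, ?_⟩
  intro s hs
  have hle : ∀ n, ‖LSeries.term (fun n => (D.f n : ℂ)) s n‖ ≤
      ‖LSeries.term (fun n => (D.f n : ℂ)) ((5/4 : ℝ) : ℂ) n‖ := fun n =>
    LSeries.norm_term_le_of_re_le_re _ (by rw [ofReal_re]; exact hs) n
  have hs1 : Summable fun n => ‖LSeries.term (fun n => (D.f n : ℂ)) s n‖ :=
    hn.of_nonneg_of_le (fun _ => norm_nonneg _) hle
  unfold SelData.L LSeries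
  exact (norm_tsum_le_tsum_norm hs1).trans (hs1.tsum_le_tsum hle hn)

/-- finite order gives double exponential growth of small type on the strip -/
theorem strip_order (h : IsSel D d) : ∃ B : ℝ, 0 ≤ B ∧ ∀ s : ℂ, -(3/4) ≤ s.re → s.re ≤ 2 →
    ‖D.H s‖ ≤ Real.exp (B * Real.exp (1 * |s.im|)) := by
  obtain ⟨A, C, hAC⟩ := h.order
  obtain ⟨N, hN⟩ := exists_nat_ge A
  refine ⟨|C| * ((N.factorial : ℝ) * Real.exp 3), by positivity, ?_⟩
  intro s h1 h2
  refine (hAC s).trans (Real.exp_le_exp.2 ?_)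
  have hre : |s.re| ≤ 2 := abs_le.2 ⟨by linarith, h2⟩
  have hs : ‖s‖ ≤ 2 + |s.im| := by
    have := Complex.norm_le_abs_re_add_abs_im s
    linarith
  have h0 : (1 : ℝ) ≤ 1 + ‖s‖ := by linarith [norm_nonneg s]
  have h3 : (1 + ‖s‖) ^ A ≤ (3 + |s.im|) ^ N := by
    calc (1 + ‖s‖) ^ A ≤ (1 + ‖s‖) ^ (N : ℝ) := Real.rpow_le_rpow_of_exponent_le h0 hN
      _ = (1 + ‖s‖) ^ N := Real.rpow_natCast _ _
      _ ≤ (3 + |s.im|) ^ N := by
          apply pow_le_pow_left₀ (by linarith)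
          linarith
  have h4 : (3 + |s.im|) ^ N ≤ (N.factorial : ℝ) * Real.exp (3 + |s.im|) := by
    have h5 := Real.pow_div_factorial_le_exp (x := 3 + |s.im|) (by positivity) N
    rw [div_le_iff₀ (by positivity)] at h5
    linarith
  have h6 : 0 ≤ (1 + ‖s‖) ^ A := Real.rpow_nonneg (by linarith) _
  calc C * (1 + ‖s‖) ^ A ≤ |C| * (1 + ‖s‖) ^ A :=
        mul_le_mul_of_nonneg_right (le_abs_self C) h6
    _ ≤ |C| * ((N.factorial : ℝ) * Real.exp (3 + |s.im|)) :=
        mul_le_mul_of_nonneg_left (h3.trans h4) (abs_nonneg C)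
    _ = |C| * ((N.factorial : ℝ) * Real.exp 3) * Real.exp (1 * |s.im|) := by
        rw [Real.exp_add, one_mul]; ring

/-- the two edges -/
theorem strip_edges (h : IsSel D d) : ∃ (k : ℕ) (C : ℝ), 0 ≤ C ∧ ∀ s : ℂ, (s.re = -(3/4) ∨ s.re = 2) →
    ‖D.H s‖ ≤ C * (1 + |s.im|) ^ k := by
  obtain ⟨C1, hC1, hL⟩ := L_bound h
  obtain ⟨C2, hC2, hchi⟩ := chi_bound h
  obtain ⟨N, hN⟩ := exists_nat_ge (d * (1/2 - (-(3/4))))
  refine ⟨D.m + N, 2 ^ D.m * C2 * C1 + C1, by positivity, ?_⟩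
  intro s hs
  have ht : (1 : ℝ) ≤ 1 + |s.im| := by linarith [abs_nonneg s.im]
  rcases hs with hs | hs
  · have hF := F_left h s (by rw [hs]; norm_num)
    have hs1 : s - 1 ≠ 0 := by
      intro h'
      rw [sub_eq_zero] at h'
      rw [h'] at hs
      simp at hs
      linarith
    have hH : D.H s = (s - 1) ^ D.m * (D.chi s * D.L (1 - s)) := by
      rw [← hF]
      unfold SelData.F
      rw [mul_div_cancel₀ _ (pow_ne_zero _ hs1)]
    have e1 : ‖s - 1‖ ≤ 2 * (1 + |s.im|) := by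
      have := Complex.norm_le_abs_re_add_abs_im (s - 1)
      simp only [sub_re, one_re, sub_im, one_im, sub_zero, hs] at this
      have e : |(-(3/4) - 1 : ℝ)| = 7/4 := by
        rw [abs_of_neg (by norm_num)]; norm_num
      rw [e] at this
      linarith
    have e2 : ‖D.L (1 - s)‖ ≤ C1 := hL _ (by simp [hs]; norm_num)
    have e3 : ‖D.chi s‖ ≤ C2 * (1 + |s.im|) ^ N := by
      refine (hchi s (by rw [hs]) (by rw [hs]; norm_num)).trans ?_
      apply mul_le_mul_of_nonneg_left _ hC2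
      rw [← Real.rpow_natCast, hs]
      exact Real.rpow_le_rpow_of_exponent_le ht hN
    rw [hH, norm_mul, norm_pow, norm_mul]
    calc ‖s - 1‖ ^ D.m * (‖D.chi s‖ * ‖D.L (1 - s)‖)
        ≤ (2 * (1 + |s.im|)) ^ D.m * ((C2 * (1 + |s.im|) ^ N) * C1) := by gcongr
      _ = (2 ^ D.m * C2 * C1) * (1 + |s.im|) ^ (D.m + N) := by
          rw [mul_pow, pow_add]; ring
      _ ≤ (2 ^ D.m * C2 * C1 + C1) * (1 + |s.im|) ^ (D.m + N) := by
          apply mul_le_mul_of_nonneg_right _ (by positivity)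
          linarith
  · have hH := h.series s (by rw [hs]; norm_num)
    have e2 : ‖LSeries (fun n => (D.f n : ℂ)) s‖ ≤ C1 := hL s (by rw [hs]; norm_num)
    have e1 : ‖s - 1‖ ≤ 1 + |s.im| := by
      have := Complex.norm_le_abs_re_add_abs_im (s - 1)
      simp only [sub_re, one_re, sub_im, one_im, sub_zero, hs] at this
      have e : |(2 - 1 : ℝ)| = 1 := by norm_num
      rw [e] at this
      exact this
    rw [hH, norm_mul, norm_pow]
    calc ‖s - 1‖ ^ D.m * ‖LSeries (fun n => (D.f n : ℂ)) s‖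
        ≤ (1 + |s.im|) ^ D.m * C1 := by gcongr
      _ ≤ (1 + |s.im|) ^ (D.m + N) * C1 := by
          apply mul_le_mul_of_nonneg_right _ hC1
          exact pow_le_pow_right₀ ht (Nat.le_add_right _ _)
      _ = C1 * (1 + |s.im|) ^ (D.m + N) := mul_comm _ _
      _ ≤ (2 ^ D.m * C2 * C1 + C1) * (1 + |s.im|) ^ (D.m + N) := by
          apply mul_le_mul_of_nonneg_right _ (by positivity)
          have : 0 ≤ 2 ^ D.m * C2 * C1 := by positivity
          linarith

theorem H_growth (h : IsSel D d) : ∃ A C : ℝ, 0 ≤ A ∧ 0 ≤ C ∧ ∀ s : ℂ, -(3/4) ≤ s.re → s.re ≤ 2 →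
    ‖D.H s‖ ≤ C * (1 + |s.im|) ^ A := by
  obtain ⟨k, C, hC, hedge⟩ := strip_edges h
  obtain ⟨B, hB, hord⟩ := strip_order h
  have hlow : ∀ s : ℂ, -(3/4) ≤ s.re → (1 + |s.im|) / 2 ≤ ‖s + 3‖ := by
    intro s hs
    have h1 : |(s + 3).re| ≤ ‖s + 3‖ := Complex.abs_re_le_norm _
    have h2 : |(s + 3).im| ≤ ‖s + 3‖ := Complex.abs_im_le_norm _
    have h3 : (s + 3).re = s.re + 3 := by simp
    have h4 : (s + 3).im = s.im := by simp
    rw [h3] at h1
    rw [h4] at h2
    have h5 := le_abs_self (s.re + 3)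
    linarith
  have hlow1 : ∀ s : ℂ, -(3/4) ≤ s.re → 1 ≤ ‖s + 3‖ := by
    intro s hs
    have h1 : |(s + 3).re| ≤ ‖s + 3‖ := Complex.abs_re_le_norm _
    have h3 : (s + 3).re = s.re + 3 := by simp
    rw [h3] at h1
    have h5 := le_abs_self (s.re + 3)
    linarith
  set g : ℂ → ℂ := fun s => D.H s / (s + 3) ^ k with hg
  have hcl : closure (re ⁻¹' Ioo (-(3/4) : ℝ) 2) ⊆ {s : ℂ | -(3/4) ≤ s.re} := by
    refine closure_minimal ?_ (isClosed_le continuous_const continuous_re)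
    intro s hs
    exact hs.1.le
  have hne : ∀ s : ℂ, -(3/4) ≤ s.re → (s + 3) ^ k ≠ 0 := by
    intro s hs
    apply pow_ne_zero
    intro h0
    have := hlow1 s hs
    rw [h0, norm_zero] at this
    linarith
  have hdiff : DiffContOnCl ℂ g (re ⁻¹' Ioo (-(3/4) : ℝ) 2) := by
    apply DifferentiableOn.diffContOnCl
    intro s hs
    exact ((h.entire s).div (((differentiableAt_id).add_const 3).pow k)
      (hne s (hcl hs))).differentiableWithinAt
  have hgH : ∀ s : ℂ, -(3/4) ≤ s.re → ‖g s‖ ≤ ‖D.H s‖ := by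
    intro s hs
    rw [hg]
    simp only [norm_div, norm_pow]
    exact div_le_self (norm_nonneg _) (one_le_pow₀ (hlow1 s hs))
  have hkey : ∀ s : ℂ, -(3/4) ≤ s.re → s.re ≤ 2 → ‖g s‖ ≤ 2 ^ k * C := by
    intro s hs1 hs2
    have hedge' : ∀ z : ℂ, (z.re = -(3/4) ∨ z.re = 2) → ‖g z‖ ≤ 2 ^ k * C := by
      intro z hz
      have hz1 : -(3/4) ≤ z.re := by
        rcases hz with hz | hz <;> rw [hz]
        norm_num
      rw [hg]
      simp only [norm_div, norm_pow]
      have hpos : 0 < ‖z + 3‖ ^ k := pow_pos (by linarith [hlow1 z hz1]) k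
      rw [div_le_iff₀ hpos]
      calc ‖D.H z‖ ≤ C * (1 + |z.im|) ^ k := hedge z hz
        _ = 2 ^ k * C * ((1 + |z.im|) / 2) ^ k := by
            rw [div_pow]; field_simp
        _ ≤ 2 ^ k * C * ‖z + 3‖ ^ k := by
            apply mul_le_mul_of_nonneg_left _ (by positivity)
            exact pow_le_pow_left₀ (by positivity) (hlow z hz1) k
    refine PhragmenLindelof.vertical_strip hdiff ⟨1, ?_, B, ?_⟩
      (fun z hz => hedge' z (Or.inl hz)) (fun z hz => hedge' z (Or.inr hz)) hs1 hs2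
    · have := Real.pi_gt_three
      rw [lt_div_iff₀ (by norm_num)]
      norm_num
      linarith
    · refine Asymptotics.IsBigO.of_bound 1 ?_
      refine mem_inf_of_right ?_
      intro z hz
      have hz' : -(3/4) < z.re ∧ z.re < 2 := hz
      show ‖g z‖ ≤ 1 * ‖Real.exp (B * Real.exp (1 * |z.im|))‖
      rw [one_mul, Real.norm_eq_abs, Real.abs_exp]
      exact (hgH z hz'.1.le).trans (hord z hz'.1.le hz'.2.le)
  refine ⟨k, 2 ^ k * C * 5 ^ k, by positivity, by positivity, ?_⟩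
  intro s hs1 hs2
  have h1 := hkey s hs1 hs2
  rw [hg] at h1
  simp only [norm_div, norm_pow] at h1
  have hpos : 0 < ‖s + 3‖ ^ k := pow_pos (by linarith [hlow1 s hs1]) k
  rw [div_le_iff₀ hpos] at h1
  refine h1.trans ?_
  rw [Real.rpow_natCast, mul_assoc (2 ^ k * C), ← mul_pow]
  apply mul_le_mul_of_nonneg_left _ (by positivity)
  apply pow_le_pow_left₀ (norm_nonneg _)
  have h2 := Complex.norm_le_abs_re_add_abs_im (s + 3)
  have h3 : (s + 3).re = s.re + 3 := by simp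
  have h4 : (s + 3).im = s.im := by simp
  rw [h3, h4, abs_of_nonneg (by linarith)] at h2
  have := abs_nonneg s.im
  linarith

end Pool.Agent.H15.SC
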