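import Pool.Agent.H15.SC.Gauss
import Pool.Agent.H15.SC.Shift
import Pool.Agent.H15.SC.Strip

/-!
# SC-19  smooth approximate functional equation (degree 2)  (project SC, MP_be4568_nt)

`s = 1/2 + it`, `w = c + iv`.  `G(w) = H(s+w)/(s-1)^m U^w e^{w²}/w` is analytic except for a simple pole at `w = 0` with
residue `F(s)`; growth by `H_growth` (`re (s+w) ∈ [-3/4, 5/4]` for `re w ∈ [-5/4, 3/4]`).  So
`(1/2π) ∫ G(3/4+iv) dv - (1/2π) ∫ G(-5/4+iv) dv = F(s)`: apply `vshift` to `(G(w) w - F(s) U^w e^{w²})/w` (removable,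
`dslope`) and to `U^w e^{w²}/w` (there: `∫ U^w e^{w²}/w` on the lines `c > 0` and `-c'`: the difference is `2π`; e.g. from
the derivative in `log U` and `gW_fourier`, or the residue theorem on a rectangle).  On `re w = 3/4` expand
`H(s+w) = (s+w-1)^m ∑ f(n) n^{-s-w}` (`h.series`), on `re w = -5/4` use `F_left`:
`H(s+w) = (s+w-1)^m chi(s+w) ∑ f(n) n^{s+w-1}`; dominated convergence (`h.ram`, `chi_bound`).
`AR_shift`, `BL_shift`: `vshift` for a finite sum (`chi` is analytic for `re < 1`, `1/w` has no pole there).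
-/

set_option autoImplicit false

open Complex Filter Topology MeasureTheory Set
open scoped ComplexConjugate

namespace Pool.Agent.H15.SC

variable {D : SelData}

/-- the kernel `((s+w-1)/(s-1))^m U^w e^{w²}/w`, `s = 1/2+it`, `w = c+iv` -/
noncomputable def gk (D : SelData) (U c t v : ℝ) : ℂ :=
  ((ln (1/2) t + ln c v - 1) / (ln (1/2) t - 1)) ^ D.m * (U : ℂ) ^ (ln c v) * cexp ((ln c v) ^ 2) / ln c v

/-- right part -/
noncomputable def AR (D : SelData) (U c : ℝ) (S : Finset ℕ) (t : ℝ) : ℂ :=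
  (1 / (2 * Real.pi) : ℝ) * ∫ v : ℝ, gk D U c t v *
    ∑ n ∈ S, (D.f n : ℂ) * (n : ℂ) ^ (-(ln (1/2) t + ln c v))

/-- left part -/
noncomputable def BL (D : SelData) (U c : ℝ) (S : Finset ℕ) (t : ℝ) : ℂ :=
  (1 / (2 * Real.pi) : ℝ) * ∫ v : ℝ, gk D U c t v * D.chi (ln (1/2) t + ln c v) *
    ∑ n ∈ S, (D.f n : ℂ) * (n : ℂ) ^ (ln (1/2) t + ln c v - 1)

/-! ### auxiliary facts -/

namespace MSrep

/-- polynomial growth in a strip -/
def PB (a b : ℝ) (f : ℂ → ℂ) : Prop := ∃ A C : ℝ, 0 ≤ A ∧ 0 ≤ C ∧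
  ∀ w : ℂ, a ≤ w.re → w.re ≤ b → ‖f w‖ ≤ C * (1 + |w.im|) ^ A

theorem PB.mul {a b : ℝ} {f g : ℂ → ℂ} (hf : PB a b f) (hg : PB a b g) :
    PB a b (fun w => f w * g w) := by
  obtain ⟨A, C, hA, hC, h1⟩ := hf
  obtain ⟨A', C', hA', hC', h2⟩ := hg
  refine ⟨A + A', C * C', by positivity, by positivity, fun w ha hb => ?_⟩
  rw [norm_mul, Real.rpow_add (by positivity)]
  calc ‖f w‖ * ‖g w‖ ≤ (C * (1 + |w.im|) ^ A) * (C' * (1 + |w.im|) ^ A') :=
        mul_le_mul (h1 w ha hb) (h2 w ha hb) (norm_nonneg _) (by positivity)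
    _ = _ := by ring

theorem PB.of_bdd {a b : ℝ} {f : ℂ → ℂ} (C : ℝ) (h : ∀ w : ℂ, a ≤ w.re → w.re ≤ b → ‖f w‖ ≤ C) :
    PB a b f := by
  refine ⟨0, max C 0, le_rfl, le_max_right _ _, fun w ha hb => ?_⟩
  rw [Real.rpow_zero, mul_one]
  exact (h w ha hb).trans (le_max_left _ _)

theorem PB.const (a b : ℝ) (c : ℂ) : PB a b (fun _ => c) := PB.of_bdd ‖c‖ fun _ _ _ => le_rfl

theorem PB.pow {a b : ℝ} {f : ℂ → ℂ} (hf : PB a b f) (n : ℕ) : PB a b (fun w => f w ^ n) := by
  induction n with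
  | zero => simpa using PB.const a b 1
  | succ n ih => simpa only [pow_succ] using ih.mul hf

theorem PB.add {a b : ℝ} {f g : ℂ → ℂ} (hf : PB a b f) (hg : PB a b g) :
    PB a b (fun w => f w + g w) := by
  obtain ⟨A, C, hA, hC, h1⟩ := hf
  obtain ⟨A', C', hA', hC', h2⟩ := hg
  refine ⟨max A A', C + C', le_max_of_le_left hA, by positivity, fun w ha hb => ?_⟩
  have h3 : (1 + |w.im|) ^ A ≤ (1 + |w.im|) ^ (max A A') :=
    Real.rpow_le_rpow_of_exponent_le (by linarith [abs_nonneg w.im]) (le_max_left _ _)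
  have h4 : (1 + |w.im|) ^ A' ≤ (1 + |w.im|) ^ (max A A') :=
    Real.rpow_le_rpow_of_exponent_le (by linarith [abs_nonneg w.im]) (le_max_right _ _)
  calc ‖f w + g w‖ ≤ ‖f w‖ + ‖g w‖ := norm_add_le _ _
    _ ≤ C * (1 + |w.im|) ^ A + C' * (1 + |w.im|) ^ A' := add_le_add (h1 w ha hb) (h2 w ha hb)
    _ ≤ C * (1 + |w.im|) ^ (max A A') + C' * (1 + |w.im|) ^ (max A A') :=
        add_le_add (mul_le_mul_of_nonneg_left h3 hC) (mul_le_mul_of_nonneg_left h4 hC')
    _ = _ := by ring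

theorem PB.id (a b : ℝ) : PB a b (fun w => w) := by
  refine ⟨1, 1 + |a| + |b|, zero_le_one, by positivity, fun w ha hb => ?_⟩
  rw [Real.rpow_one]
  have h1 : |w.re| ≤ |a| + |b| := by
    rw [abs_le]
    constructor
    · linarith [neg_abs_le a, abs_nonneg b]
    · linarith [le_abs_self b, abs_nonneg a]
  have h2 := norm_le_abs_re_add_abs_im w
  nlinarith [abs_nonneg w.im, abs_nonneg a, abs_nonneg b,
    mul_nonneg (abs_nonneg a) (abs_nonneg w.im), mul_nonneg (abs_nonneg b) (abs_nonneg w.im)]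

theorem PB.cpow {a b x : ℝ} (hx : 1 ≤ x) {g : ℂ → ℂ} {B : ℝ}
    (hB : ∀ w : ℂ, a ≤ w.re → w.re ≤ b → (g w).re ≤ B) : PB a b (fun w => (x : ℂ) ^ (g w)) := by
  refine PB.of_bdd (x ^ B) fun w ha hb => ?_
  rw [norm_cpow_eq_rpow_re_of_pos (by linarith)]
  exact Real.rpow_le_rpow_of_exponent_le hx (hB w ha hb)

theorem PB.sum {a b : ℝ} {ι : Type*} (S : Finset ι) {f : ι → ℂ → ℂ} (h : ∀ i ∈ S, PB a b (f i)) :
    PB a b (fun w => ∑ i ∈ S, f i w) := by
  classical
  induction S using Finset.induction_on with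
  | empty => simpa using PB.const a b 0
  | insert i S hi ih =>
    simp only [Finset.sum_insert hi]
    exact (h i (Finset.mem_insert_self _ _)).add (ih fun j hj => h j (Finset.mem_insert_of_mem hj))

/-- multiplication by `e^{w²}` makes it decay -/
theorem PB.gauss {a b : ℝ} {f : ℂ → ℂ} (hf : PB a b f) : ∃ C : ℝ, 0 ≤ C ∧
    ∀ w : ℂ, a ≤ w.re → w.re ≤ b → ‖f w * cexp (w ^ 2)‖ ≤ C * Real.exp (-|w.im|) := by
  obtain ⟨A, C, hA, hC, h1⟩ := hf
  obtain ⟨C2, hC2, h2⟩ := poly_gauss_le A (W := 1) one_pos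
  refine ⟨C * Real.exp ((|a| + |b|) ^ 2) * C2, by positivity, fun w ha hb => ?_⟩
  have h3 : ‖cexp (w ^ 2)‖ ≤ Real.exp ((|a| + |b|) ^ 2) * Real.exp (-(w.im ^ 2 / 1 ^ 2)) := by
    rw [Complex.norm_exp, ← Real.exp_add]
    refine Real.exp_le_exp.2 ?_
    have e : (w ^ 2).re = w.re ^ 2 - w.im ^ 2 := by
      rw [sq, mul_re]; ring
    have h4 : |w.re| ≤ |a| + |b| := by
      rw [abs_le]
      constructor
      · linarith [neg_abs_le a, abs_nonneg b]
      · linarith [le_abs_self b, abs_nonneg a]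
    have h5 : w.re ^ 2 ≤ (|a| + |b|) ^ 2 := by
      rw [← sq_abs w.re]
      exact pow_le_pow_left₀ (abs_nonneg _) h4 2
    rw [e]
    linarith
  rw [norm_mul]
  calc ‖f w‖ * ‖cexp (w ^ 2)‖
      ≤ (C * (1 + |w.im|) ^ A) * (Real.exp ((|a| + |b|) ^ 2) * Real.exp (-(w.im ^ 2 / 1 ^ 2))) :=
        mul_le_mul (h1 w ha hb) h3 (norm_nonneg _) (by positivity)
    _ = C * Real.exp ((|a| + |b|) ^ 2) * ((1 + |w.im|) ^ A * Real.exp (-(w.im ^ 2 / 1 ^ 2))) := by
        ring
    _ ≤ C * Real.exp ((|a| + |b|) ^ 2) * (C2 * Real.exp (-|w.im|)) :=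
        mul_le_mul_of_nonneg_left (h2 _) (by positivity)
    _ = _ := by ring

theorem integrable_exp_abs : Integrable (fun v : ℝ => Real.exp (-|v|)) := by
  refine Integrable.mono' (g := fun v : ℝ => 2 * (1 + v ^ 2)⁻¹)
    (integrable_inv_one_add_sq.const_mul 2) (by fun_prop) ?_
  refine Filter.Eventually.of_forall fun v => ?_
  rw [Real.norm_of_nonneg (Real.exp_pos _).le, Real.exp_neg]
  have h1 := Real.quadratic_le_exp_of_nonneg (abs_nonneg v)
  rw [sq_abs] at h1
  have h2 : (1 + v ^ 2) / 2 ≤ Real.exp |v| := by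
    have := abs_nonneg v
    linarith
  calc (Real.exp |v|)⁻¹ ≤ ((1 + v ^ 2) / 2)⁻¹ := inv_anti₀ (by positivity) h2
    _ = 2 * (1 + v ^ 2)⁻¹ := by rw [inv_div, div_eq_mul_inv]

theorem ln_continuous (c : ℝ) : Continuous (fun v : ℝ => ln c v) := by
  unfold ln
  fun_prop

theorem ln_ne {c : ℝ} (hc : c ≠ 0) (v : ℝ) : ln c v ≠ 0 := by
  intro h
  have := congrArg Complex.re h
  simp at this
  exact hc this

/-- integrability on a vertical line -/
theorem PB.integrable {c : ℝ} (hc : c ≠ 0) {f : ℂ → ℂ} (hf : PB c c f)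
    (hcont : Continuous fun v : ℝ => f (ln c v)) :
    Integrable (fun v : ℝ => f (ln c v) * cexp ((ln c v) ^ 2) / ln c v) := by
  obtain ⟨C, hC, h1⟩ := hf.gauss
  refine Integrable.mono' (g := fun v : ℝ => C / |c| * Real.exp (-|v|))
    (integrable_exp_abs.const_mul _) ?_ ?_
  · refine Continuous.aestronglyMeasurable ?_
    exact (hcont.mul (by have := ln_continuous c; fun_prop)).div (ln_continuous c) (ln_ne hc)
  · refine Filter.Eventually.of_forall fun v => ?_
    have h2 := h1 (ln c v) (by simp) (by simp)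
    rw [ln_im] at h2
    have h3 : |c| ≤ ‖ln c v‖ := by
      have := abs_re_le_norm (ln c v)
      rwa [ln_re] at this
    rw [norm_div, div_mul_eq_mul_div]
    exact div_le_div₀ (by positivity) h2 (abs_pos.2 hc) h3

/-- `∫ e^{w²}/w` on the line `re w = c > 0` -/
theorem int_pos {c : ℝ} (hc : 0 < c) :
    ∫ v : ℝ, cexp ((ln c v) ^ 2) / ln c v = Real.pi := by
  -- `1/w = ∫_0^∞ e^{-wu} du`
  have h1 : ∀ v : ℝ, cexp ((ln c v) ^ 2) / ln c v =
      ∫ u in Ioi (0 : ℝ), cexp ((ln c v) ^ 2) * cexp (-(ln c v) * u) := by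
    intro v
    rw [integral_const_mul, integral_exp_mul_complex_Ioi (by simpa using hc)]
    simp [div_eq_mul_inv]
  have hint : Integrable (Function.uncurry fun (v u : ℝ) =>
      cexp ((ln c v) ^ 2) * cexp (-(ln c v) * u)) (volume.prod (volume.restrict (Ioi (0 : ℝ)))) := by
    have hg : Integrable (fun p : ℝ × ℝ => (Real.exp (c ^ 2) * Real.exp (-p.1 ^ 2)) * Real.exp (-c * p.2))
        (volume.prod (volume.restrict (Ioi (0 : ℝ)))) := by
      refine Integrable.mul_prod (f := fun v : ℝ => Real.exp (c ^ 2) * Real.exp (-v ^ 2))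
        (g := fun u : ℝ => Real.exp (-c * u)) ?_ ?_
      · have := integrable_exp_neg_mul_sq (b := 1) one_pos
        simp only [neg_mul, one_mul] at this
        exact this.const_mul _
      · have := integrableOn_exp_mul_Ioi (a := -c) (by linarith) 0
        exact this
    refine hg.mono' ?_ ?_
    · refine Continuous.aestronglyMeasurable ?_
      have := ln_continuous c
      simp only [Function.uncurry_def]
      fun_prop
    · refine Filter.Eventually.of_forall fun p => ?_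
      rw [Function.uncurry_apply_pair, norm_mul, Complex.norm_exp, Complex.norm_exp,
        ← Real.exp_add, ← Real.exp_add, ← Real.exp_add]
      refine Real.exp_le_exp.2 (le_of_eq ?_)
      have e : ((ln c p.1) ^ 2).re = c ^ 2 - p.1 ^ 2 := by
        rw [sq, mul_re, ln_re, ln_im]; ring
      rw [e]
      simp
      ring
  simp_rw [h1]
  rw [integral_integral_swap hint]
  have h2 : ∀ u : ℝ, ∫ v : ℝ, cexp ((ln c v) ^ 2) * cexp (-(ln c v) * u) =
      ((2 * Real.pi * gW 1 u : ℝ) : ℂ) := by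
    intro u
    have h3 := (gW_fourier (W := 1) one_pos c (-u)).2
    have h4 : gW 1 (-u) = gW 1 u := by
      unfold gW
      rw [show (1 * -u / 2) ^ 2 = (1 * u / 2) ^ 2 by ring]
    rw [h4] at h3
    push_cast
    rw [← h3]
    refine integral_congr_ae (Filter.Eventually.of_forall fun v => ?_)
    simp only
    push_cast
    rw [one_pow, div_one, neg_mul, mul_neg]
  simp_rw [h2]
  rw [integral_complex_ofReal]
  congr 1
  rw [integral_const_mul]
  have h5 : ∫ u in Ioi (0 : ℝ), gW 1 u = 1 / 2 := by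
    have h6 := integral_gaussian_Ioi (1/4)
    have h7 : ∀ u : ℝ, gW 1 u = 1 / (2 * Real.sqrt Real.pi) * Real.exp (-(1/4) * u ^ 2) := by
      intro u
      unfold gW
      congr 2
      ring
    simp_rw [h7]
    rw [integral_const_mul, h6]
    have h8 : Real.sqrt (Real.pi / (1/4)) = 2 * Real.sqrt Real.pi := by
      have : Real.pi / (1/4) = 2 ^ 2 * Real.pi := by ring
      rw [this, Real.sqrt_mul (by positivity), Real.sqrt_sq (by norm_num)]
    rw [h8]
    have : Real.sqrt Real.pi ≠ 0 := by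
      rw [Real.sqrt_ne_zero']; exact Real.pi_pos
    field_simp
  rw [h5]
  ring

theorem int_neg {c : ℝ} (hc : 0 < c) :
    ∫ v : ℝ, cexp ((ln (-c) v) ^ 2) / ln (-c) v = -Real.pi := by
  rw [← int_pos hc, ← integral_neg_eq_self, ← integral_neg]
  refine integral_congr_ae (Filter.Eventually.of_forall fun v => ?_)
  have h : ln (-c) (-v) = -ln c v := by
    unfold ln
    push_cast
    ring
  simp only
  rw [h, neg_sq, div_neg]

/-- the residue formula -/
theorem residue_formula (N : ℂ → ℂ) (hN : Differentiable ℂ N) {a b : ℝ} (ha : a < 0) (hb : 0 < b)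
    (hP : PB a b N) :
    (∫ v : ℝ, N (ln b v) * cexp ((ln b v) ^ 2) / ln b v) -
      (∫ v : ℝ, N (ln a v) * cexp ((ln a v) ^ 2) / ln a v) = 2 * Real.pi * N 0 := by
  let M : ℂ → ℂ := fun w => (N w - N 0) * cexp (w ^ 2)
  have hM : Differentiable ℂ M := (hN.sub_const _).mul (by fun_prop)
  have hM0 : M 0 = 0 := by simp [M]
  have hds : Differentiable ℂ (dslope M 0) := by
    rw [← differentiableOn_univ, differentiableOn_dslope Filter.univ_mem, differentiableOn_univ]
    exact hM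
  have hd : ∀ w : ℂ, w ≠ 0 → dslope M 0 w = M w / w := by
    intro w hw
    rw [dslope_of_ne _ hw, slope_def_field, hM0, sub_zero, sub_zero]
  have hPM : PB a b (fun w => N w - N 0) := by
    have := hP.add (PB.const a b (-N 0))
    simpa only [← sub_eq_add_neg] using this
  obtain ⟨C, hC, h1⟩ := hPM.gauss
  obtain ⟨B, hB⟩ : ∃ B : ℝ, ∀ w ∈ (Icc a b) ×ℂ (Icc (-1) 1), ‖dslope M 0 w‖ ≤ B :=
    IsCompact.exists_bound_of_continuousOn (isCompact_Icc.reProdIm isCompact_Icc)
      hds.continuous.continuousOn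
  have hb1 : ∀ w : ℂ, a ≤ w.re → w.re ≤ b →
      ‖dslope M 0 w‖ ≤ (C + max B 0 * Real.exp 1) * Real.exp (-|w.im|) := by
    intro w h2 h3
    rcases le_total |w.im| 1 with h4 | h4
    · have h5 : ‖dslope M 0 w‖ ≤ max B 0 :=
        (hB w (mem_reProdIm.2 ⟨⟨h2, h3⟩, abs_le.1 h4⟩)).trans (le_max_left _ _)
      have h6 : (1 : ℝ) ≤ Real.exp 1 * Real.exp (-|w.im|) := by
        rw [← Real.exp_add, Real.one_le_exp_iff]
        linarith
      calc ‖dslope M 0 w‖ ≤ max B 0 * 1 := by rw [mul_one]; exact h5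
        _ ≤ max B 0 * (Real.exp 1 * Real.exp (-|w.im|)) :=
            mul_le_mul_of_nonneg_left h6 (le_max_right _ _)
        _ ≤ _ := by
            have := mul_nonneg hC (Real.exp_pos (-|w.im|)).le
            linarith
    · have hw : 1 ≤ ‖w‖ := h4.trans (abs_im_le_norm w)
      have hw0 : w ≠ 0 := by
        intro h; rw [h, norm_zero] at hw; linarith
      rw [hd w hw0, norm_div]
      calc ‖M w‖ / ‖w‖ ≤ ‖M w‖ := div_le_self (norm_nonneg _) hw
        _ ≤ C * Real.exp (-|w.im|) := h1 w h2 h3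
        _ ≤ _ := by
            have := mul_nonneg (mul_nonneg (le_max_right B 0) (Real.exp_pos 1).le)
              (Real.exp_pos (-|w.im|)).le
            linarith
  have hsh := vshift (dslope M 0) a b _ (by linarith) hds.differentiableOn hb1
  have hline : ∀ c : ℝ, a ≤ c → c ≤ b → c ≠ 0 → ∫ v : ℝ, dslope M 0 (ln c v) =
      (∫ v : ℝ, N (ln c v) * cexp ((ln c v) ^ 2) / ln c v) -
        N 0 * ∫ v : ℝ, cexp ((ln c v) ^ 2) / ln c v := by
    intro c hac hcb hc
    have hPc : PB c c N := by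
      obtain ⟨A, C, hA, hC, h⟩ := hP
      exact ⟨A, C, hA, hC, fun w h1 h2 => h w (hac.trans h1) (h2.trans hcb)⟩
    have i1 := hPc.integrable hc (hN.continuous.comp (ln_continuous c))
    have i2 : Integrable (fun v : ℝ => cexp ((ln c v) ^ 2) / ln c v) := by
      have := (PB.const c c 1).integrable hc continuous_const
      simpa only [one_mul] using this
    rw [← integral_const_mul, ← integral_sub i1 (i2.const_mul _)]
    refine integral_congr_ae (Filter.Eventually.of_forall fun v => ?_)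
    simp only
    rw [hd _ (ln_ne hc v)]
    simp only [M]
    ring
  rw [hline a le_rfl (by linarith) ha.ne, hline b (by linarith) le_rfl hb.ne', int_pos hb] at hsh
  have hna : ∫ v : ℝ, cexp ((ln a v) ^ 2) / ln a v = -Real.pi := by
    have := int_neg (c := -a) (by linarith)
    rwa [neg_neg] at this
  rw [hna] at hsh
  linear_combination -hsh

/-- shifting a line, away from `re w = 0` -/
theorem PB.vshift {a b : ℝ} (hab : a ≤ b) (h0 : 0 < a ∨ b < 0) {P : ℂ → ℂ} (hP : PB a b P)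
    (hd : ∀ w : ℂ, a ≤ w.re → w.re ≤ b → DifferentiableAt ℂ P w) :
    ∫ v : ℝ, P (ln a v) * cexp ((ln a v) ^ 2) / ln a v =
      ∫ v : ℝ, P (ln b v) * cexp ((ln b v) ^ 2) / ln b v := by
  obtain ⟨C, hC, h1⟩ := hP.gauss
  obtain ⟨δ, hδ, h2⟩ : ∃ δ : ℝ, 0 < δ ∧ ∀ w : ℂ, a ≤ w.re → w.re ≤ b → δ ≤ ‖w‖ := by
    rcases h0 with h | h
    · exact ⟨a, h, fun w h3 _ => h3.trans ((le_abs_self _).trans (abs_re_le_norm w))⟩
    · exact ⟨-b, by linarith, fun w _ h3 => by
        have := (neg_le_abs _).trans (abs_re_le_norm w)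
        linarith⟩
  refine Pool.Agent.H15.SC.vshift (fun w => P w * cexp (w ^ 2) / w) a b (C / δ) hab ?_ ?_
  · rintro w ⟨h3, h4⟩
    have hw : w ≠ 0 := by
      intro h
      have := h2 w h3 h4
      rw [h, norm_zero] at this
      linarith
    exact (((hd w h3 h4).mul (by fun_prop)).div differentiableAt_id hw).differentiableWithinAt
  · intro w h3 h4
    rw [norm_div, div_mul_eq_mul_div]
    exact div_le_div₀ (by positivity) (h1 w h3 h4) hδ (h2 w h3 h4)

theorem dir_tendsto {d : ℝ} (h : IsSel D d) {s : ℂ} (hs : 1 < s.re) :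
    Tendsto (fun K : ℕ => ∑ n ∈ Finset.Ico 1 (2 ^ K), (D.f n : ℂ) * (n : ℂ) ^ (-s)) atTop
      (𝓝 (D.L s)) := by
  have h1 : Tendsto (fun N : ℕ => ∑ n ∈ Finset.range N, LSeries.term (fun n => (D.f n : ℂ)) s n)
      atTop (𝓝 (D.L s)) := (chid_summ h hs).hasSum.tendsto_sum_nat
  have h2 : Tendsto (fun K : ℕ => 2 ^ K) atTop atTop :=
    tendsto_pow_atTop_atTop_of_one_lt (by norm_num : (1 : ℕ) < 2)
  refine (h1.comp h2).congr fun K => ?_
  simp only [Function.comp_apply]
  rw [Finset.range_eq_Ico, Finset.sum_eq_sum_Ico_succ_bot (by positivity), LSeries.term_zero,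
    zero_add]
  refine Finset.sum_congr rfl fun n hn => ?_
  have hn0 : n ≠ 0 := by
    have := (Finset.mem_Ico.1 hn).1
    omega
  rw [LSeries.term_of_ne_zero hn0, div_eq_mul_inv, cpow_neg]

theorem dir_bound {d : ℝ} (h : IsSel D d) {σ : ℝ} (hσ : 1 < σ) : ∃ B : ℝ, 0 ≤ B ∧
    ∀ s : ℂ, s.re = σ → ∀ K : ℕ,
      ‖∑ n ∈ Finset.Ico 1 (2 ^ K), (D.f n : ℂ) * (n : ℂ) ^ (-s)‖ ≤ B := by
  have h1 : Summable fun n => ‖LSeries.term (fun n => (D.f n : ℂ)) (σ : ℂ) n‖ :=
    (chid_summ h (s := (σ : ℂ)) (by simpa using hσ)).norm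
  refine ⟨∑' n, ‖LSeries.term (fun n => (D.f n : ℂ)) (σ : ℂ) n‖, tsum_nonneg fun _ => norm_nonneg _,
    fun s hs K => ?_⟩
  refine (norm_sum_le _ _).trans ?_
  refine le_trans (Finset.sum_le_sum fun n hn => ?_)
    (h1.sum_le_tsum (Finset.Ico 1 (2 ^ K)) fun _ _ => norm_nonneg _)
  have hn0 : n ≠ 0 := by
    have := (Finset.mem_Ico.1 hn).1
    omega
  rw [LSeries.term_of_ne_zero hn0, norm_mul, norm_div,
    norm_natCast_cpow_of_pos (Nat.pos_of_ne_zero hn0),
    norm_natCast_cpow_of_pos (Nat.pos_of_ne_zero hn0), neg_re, hs, ofReal_re,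
    Real.rpow_neg (Nat.cast_nonneg n), div_eq_mul_inv]

/-- the limit of the truncated Dirichlet series on a line -/
theorem lim_line {d : ℝ} (h : IsSel D d) {c : ℝ} (hc : c ≠ 0) {P : ℂ → ℂ} (hP : PB c c P)
    (hcont : Continuous fun v : ℝ => P (ln c v)) {g : ℂ → ℂ}
    (hg : Continuous fun v : ℝ => g (ln c v)) {σ : ℝ} (hσ : 1 < σ)
    (hre : ∀ v, (g (ln c v)).re = σ) :
    Tendsto (fun K : ℕ => ∫ v : ℝ, P (ln c v) * cexp ((ln c v) ^ 2) / ln c v *
      ∑ n ∈ Finset.Ico 1 (2 ^ K), (D.f n : ℂ) * (n : ℂ) ^ (-(g (ln c v)))) atTop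
      (𝓝 (∫ v : ℝ, P (ln c v) * cexp ((ln c v) ^ 2) / ln c v * D.L (g (ln c v)))) := by
  obtain ⟨B, hB, h1⟩ := dir_bound h hσ
  have hi := hP.integrable hc hcont
  refine tendsto_integral_of_dominated_convergence
    (fun v => ‖P (ln c v) * cexp ((ln c v) ^ 2) / ln c v‖ * B) ?_ ?_ ?_ ?_
  · intro K
    refine hi.aestronglyMeasurable.mul (Continuous.aestronglyMeasurable ?_)
    refine continuous_finsetSum _ fun n hn => ?_
    have hn0 : (n : ℂ) ≠ 0 := by
      have := (Finset.mem_Ico.1 hn).1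
      have : n ≠ 0 := by omega
      exact_mod_cast this
    exact continuous_const.mul (hg.neg.const_cpow (Or.inl hn0))
  · exact hi.norm.mul_const B
  · intro K
    refine Filter.Eventually.of_forall fun v => ?_
    rw [norm_mul]
    exact mul_le_mul_of_nonneg_left (h1 _ (hre v) K) (norm_nonneg _)
  · refine Filter.Eventually.of_forall fun v => ?_
    exact (dir_tendsto h (by rw [hre]; exact hσ)).const_mul _

/-- the polynomial part of the kernel -/
noncomputable def kerW (D : SelData) (s : ℂ) (U : ℝ) (w : ℂ) : ℂ :=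
  ((s + w - 1) / (s - 1)) ^ D.m * (U : ℂ) ^ w

theorem gk_eq (U c t v : ℝ) : gk D U c t v =
    kerW D (ln (1/2) t) U (ln c v) * cexp ((ln c v) ^ 2) / ln c v := rfl

theorem kerW_PB (s : ℂ) {U : ℝ} (hU : 1 ≤ U) (a b : ℝ) : PB a b (kerW D s U) := by
  refine PB.mul (PB.pow ?_ D.m) (PB.cpow hU (B := b) fun w _ h => h)
  have h1 : (fun w : ℂ => (s + w - 1) / (s - 1)) = fun w => (w + (s - 1)) * (s - 1)⁻¹ := by
    funext w
    rw [div_eq_mul_inv]
    ring
  rw [h1]
  exact ((PB.id a b).add (PB.const a b _)).mul (PB.const a b _)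

theorem kerW_diff (s : ℂ) {U : ℝ} (hU : 1 ≤ U) : Differentiable ℂ (kerW D s U) := by
  have hU0 : (U : ℂ) ≠ 0 := by
    have : U ≠ 0 := by linarith
    exact_mod_cast this
  refine Differentiable.mul (Differentiable.pow (by fun_prop) D.m) ?_
  intro w
  exact DifferentiableAt.const_cpow differentiableAt_id (Or.inl hU0)

theorem sm1_ne (t : ℝ) : ln (1/2) t - 1 ≠ 0 := by
  intro h
  have := congrArg Complex.re h
  simp at this
  norm_num at this

theorem chi_PB (h : IsSel D 2) (t : ℝ) {a b : ℝ} (ha : -(5/4) ≤ a) (hb : b ≤ 0) :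
    PB a b fun w => D.chi (ln (1/2) t + w) := by
  obtain ⟨C, hC, h1⟩ := chi_bound h
  refine ⟨5/2, C * (1 + |t|) ^ (5/2 : ℝ), by norm_num, by positivity, fun w h2 h3 => ?_⟩
  refine (h1 _ ?_ ?_).trans ?_
  · rw [add_re, ln_re]; linarith
  · rw [add_re, ln_re]; linarith
  · rw [add_im, ln_im, mul_assoc, ← Real.mul_rpow (by positivity) (by positivity), add_re, ln_re]
    refine mul_le_mul_of_nonneg_left ?_ hC
    refine (Real.rpow_le_rpow_of_exponent_le (by linarith [abs_nonneg (t + w.im)])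
      (by linarith : (2 : ℝ) * (1/2 - (1/2 + w.re)) ≤ 5/2)).trans ?_
    refine Real.rpow_le_rpow (by positivity) ?_ (by norm_num)
    have h2 := abs_add_le t w.im
    have h3 := mul_nonneg (abs_nonneg t) (abs_nonneg w.im)
    linarith [h2, h3, show (1 + |t|) * (1 + |w.im|) = 1 + |t| + |w.im| + |t| * |w.im| by ring]

end MSrep

open MSrep

theorem afe (h : IsSel D 2) {U : ℝ} (hU : 1 ≤ U) (t : ℝ) :
    Tendsto (fun K : ℕ => AR D U (3/4) (Finset.Ico 1 (2 ^ K)) t - BL D U (-(5/4)) (Finset.Ico 1 (2 ^ K)) t) atTop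
      (𝓝 (D.F (ln (1/2) t))) := by
  have hU0 : (U : ℂ) ≠ 0 := by
    have : U ≠ 0 := by linarith
    exact_mod_cast this
  have hs1 := pow_ne_zero D.m (sm1_ne t)
  let N : ℂ → ℂ := fun w => D.H (ln (1/2) t + w) * ((ln (1/2) t - 1) ^ D.m)⁻¹ * (U : ℂ) ^ w
  have hN : Differentiable ℂ N := by
    refine Differentiable.mul (Differentiable.mul ?_ (differentiable_const _)) ?_
    · exact h.entire.comp (by fun_prop : Differentiable ℂ fun w : ℂ => ln (1/2) t + w)
    · intro w
      exact DifferentiableAt.const_cpow differentiableAt_id (Or.inl hU0)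
  have hNP : PB (-(5/4)) (3/4) N := by
    refine PB.mul (PB.mul ?_ (PB.const _ _ _)) (PB.cpow hU (B := 3/4) fun w _ h => h)
    obtain ⟨A, C, hA, hC, h1⟩ := H_growth h
    refine ⟨A, C * (1 + |t|) ^ A, hA, by positivity, fun w ha hb => ?_⟩
    refine (h1 _ ?_ ?_).trans ?_
    · rw [add_re, ln_re]; linarith
    · rw [add_re, ln_re]; linarith
    · rw [add_im, ln_im, mul_assoc, ← Real.mul_rpow (by positivity) (by positivity)]
      refine mul_le_mul_of_nonneg_left (Real.rpow_le_rpow (by positivity) ?_ hA) hC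
      have h2 := abs_add_le t w.im
      have h3 := mul_nonneg (abs_nonneg t) (abs_nonneg w.im)
      linarith [h2, h3, show (1 + |t|) * (1 + |w.im|) = 1 + |t| + |w.im| + |t| * |w.im| by ring]
  have hres := residue_formula N hN (by norm_num : (-(5/4) : ℝ) < 0) (by norm_num : (0 : ℝ) < 3/4) hNP
  have hN0 : N 0 = D.F (ln (1/2) t) := by
    simp only [N, add_zero, cpow_zero, mul_one]
    exact (div_eq_mul_inv _ _).symm
  -- the right line
  have hR := lim_line h (c := 3/4) (by norm_num) (kerW_PB (D := D) (ln (1/2) t) hU _ _)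
    ((kerW_diff _ hU).continuous.comp (ln_continuous _)) (g := fun w => ln (1/2) t + w)
    (by have := ln_continuous (3/4); fun_prop) (σ := 5/4) (by norm_num)
    (fun v => by rw [add_re, ln_re, ln_re]; norm_num)
  have hR2 : (∫ v : ℝ, kerW D (ln (1/2) t) U (ln (3/4) v) * cexp ((ln (3/4) v) ^ 2) / ln (3/4) v *
      D.L (ln (1/2) t + ln (3/4) v)) =
      ∫ v : ℝ, N (ln (3/4) v) * cexp ((ln (3/4) v) ^ 2) / ln (3/4) v := by
    refine integral_congr_ae (Filter.Eventually.of_forall fun v => ?_)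
    have h1 := h.series (ln (1/2) t + ln (3/4) v) (by rw [add_re, ln_re, ln_re]; norm_num)
    change D.H _ = _ * D.L _ at h1
    simp only [N, kerW]
    rw [h1, div_pow]
    field_simp
  -- the left line
  have hchi : Continuous fun v : ℝ => D.chi (ln (1/2) t + ln (-(5/4)) v) := by
    have h1 : ContinuousOn D.chi {s : ℂ | s.re < 1} := (chi_diff h).continuousOn
    refine h1.comp_continuous (by have := ln_continuous (-(5/4)); fun_prop) fun v => ?_
    rw [mem_ofPred_eq, add_re, ln_re, ln_re]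
    norm_num
  have hL := lim_line h (c := -(5/4)) (by norm_num)
    ((kerW_PB (D := D) (ln (1/2) t) hU _ _).mul (chi_PB h t le_rfl (by norm_num)))
    (((kerW_diff _ hU).continuous.comp (ln_continuous _)).mul hchi)
    (g := fun w => 1 - (ln (1/2) t + w))
    (by have := ln_continuous (-(5/4)); fun_prop) (σ := 7/4) (by norm_num)
    (fun v => by rw [sub_re, add_re, ln_re, ln_re, one_re]; norm_num)
  have hL2 : (∫ v : ℝ, (kerW D (ln (1/2) t) U (ln (-(5/4)) v) *
      D.chi (ln (1/2) t + ln (-(5/4)) v)) * cexp ((ln (-(5/4)) v) ^ 2) / ln (-(5/4)) v *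
      D.L (1 - (ln (1/2) t + ln (-(5/4)) v))) =
      ∫ v : ℝ, N (ln (-(5/4)) v) * cexp ((ln (-(5/4)) v) ^ 2) / ln (-(5/4)) v := by
    refine integral_congr_ae (Filter.Eventually.of_forall fun v => ?_)
    have h1 := F_left h (ln (1/2) t + ln (-(5/4)) v) (by rw [add_re, ln_re, ln_re]; norm_num)
    have h2 : ln (1/2) t + ln (-(5/4)) v - 1 ≠ 0 := by
      intro h0
      have := congrArg Complex.re h0
      simp at this
      norm_num at this
    have h3 := pow_ne_zero D.m h2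
    unfold SelData.F at h1
    rw [div_eq_iff h3] at h1
    simp only [N, kerW]
    rw [h1, div_pow]
    field_simp
  rw [hR2] at hR
  rw [hL2] at hL
  have hfin := (hR.const_mul ((1 / (2 * Real.pi) : ℝ) : ℂ)).sub
    (hL.const_mul ((1 / (2 * Real.pi) : ℝ) : ℂ))
  rw [← mul_sub, hres, hN0] at hfin
  have hpi : ((1 / (2 * Real.pi) : ℝ) : ℂ) * (2 * Real.pi * D.F (ln (1/2) t)) =
      D.F (ln (1/2) t) := by
    have : (Real.pi : ℂ) ≠ 0 := by exact_mod_cast Real.pi_ne_zero
    push_cast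
    field_simp
  rw [hpi] at hfin
  refine hfin.congr fun K => ?_
  unfold AR BL
  congr 2
  refine integral_congr_ae (Filter.Eventually.of_forall fun v => ?_)
  simp only [gk_eq]
  have h4 : ∀ n : ℕ, (n : ℂ) ^ (-(1 - (ln (1/2) t + ln (-(5/4)) v))) =
      (n : ℂ) ^ (ln (1/2) t + ln (-(5/4)) v - 1) := by
    intro n
    congr 1
    ring
  simp only [h4]
  ring

theorem AR_shift {U : ℝ} (hU : 1 ≤ U) {c : ℝ} (hc : 0 < c) (hc1 : c ≤ 3/4) (S : Finset ℕ)
    (hS : ∀ n ∈ S, 1 ≤ n) (t : ℝ) : AR D U (3/4) S t = AR D U c S t := by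
  let P : ℂ → ℂ := fun w => kerW D (ln (1/2) t) U w *
    ∑ n ∈ S, (D.f n : ℂ) * (n : ℂ) ^ (-(ln (1/2) t + w))
  have hP : PB c (3/4) P := by
    refine (kerW_PB _ hU _ _).mul (PB.sum S fun n hn => (PB.const _ _ _).mul ?_)
    have := PB.cpow (a := c) (b := 3/4) (x := (n : ℝ)) (by exact_mod_cast hS n hn)
      (g := fun w => -(ln (1/2) t + w)) (B := 0) (fun w h1 _ => by
        rw [neg_re, add_re, ln_re]; linarith)
    simpa using this
  have hd : Differentiable ℂ P := by
    refine (kerW_diff _ hU).mul ?_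
    refine Differentiable.fun_sum fun n hn => ?_
    have hn0 : (n : ℂ) ≠ 0 := by
      have := hS n hn
      have : n ≠ 0 := by omega
      exact_mod_cast this
    intro w
    exact (differentiableAt_const _).mul
      (DifferentiableAt.const_cpow (by fun_prop) (Or.inl hn0))
  have key := hP.vshift hc1 (Or.inl hc) fun w _ _ => hd w
  unfold AR
  congr 1
  have e : ∀ c' : ℝ, (∫ v : ℝ, gk D U c' t v *
      ∑ n ∈ S, (D.f n : ℂ) * (n : ℂ) ^ (-(ln (1/2) t + ln c' v))) =
      ∫ v : ℝ, P (ln c' v) * cexp ((ln c' v) ^ 2) / ln c' v := by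
    intro c'
    refine integral_congr_ae (Filter.Eventually.of_forall fun v => ?_)
    simp only [gk_eq, P]
    ring
  rw [e, e, key]

theorem BL_shift (h : IsSel D 2) {U : ℝ} (hU : 1 ≤ U) {c : ℝ} (hc : c < 0) (hc1 : -(5/4) ≤ c) (S : Finset ℕ)
    (hS : ∀ n ∈ S, 1 ≤ n) (t : ℝ) : BL D U (-(5/4)) S t = BL D U c S t := by
  let P : ℂ → ℂ := fun w => kerW D (ln (1/2) t) U w * D.chi (ln (1/2) t + w) *
    ∑ n ∈ S, (D.f n : ℂ) * (n : ℂ) ^ (ln (1/2) t + w - 1)
  have hP : PB (-(5/4)) c P := by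
    refine ((kerW_PB _ hU _ _).mul (chi_PB h t le_rfl hc.le)).mul
      (PB.sum S fun n hn => (PB.const _ _ _).mul ?_)
    have := PB.cpow (a := -(5/4)) (b := c) (x := (n : ℝ)) (by exact_mod_cast hS n hn)
      (g := fun w => ln (1/2) t + w - 1) (B := 0) (fun w _ h1 => by
        rw [sub_re, add_re, ln_re, one_re]; linarith)
    simpa using this
  have hd : ∀ w : ℂ, -(5/4) ≤ w.re → w.re ≤ c → DifferentiableAt ℂ P w := by
    intro w _ hw
    refine DifferentiableAt.mul (DifferentiableAt.mul (kerW_diff _ hU w) ?_) ?_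
    · have h1 : DifferentiableAt ℂ D.chi (ln (1/2) t + w) := by
        refine (chi_diff h _ ?_).differentiableAt (chid_half_open.mem_nhds ?_) <;>
        · rw [mem_ofPred_eq, add_re, ln_re]
          linarith
      exact h1.comp w (by fun_prop)
    · refine DifferentiableAt.fun_sum fun n hn => ?_
      have hn0 : (n : ℂ) ≠ 0 := by
        have := hS n hn
        have : n ≠ 0 := by omega
        exact_mod_cast this
      exact (differentiableAt_const _).mul
        (DifferentiableAt.const_cpow (by fun_prop) (Or.inl hn0))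
  have key := hP.vshift hc1 (Or.inr hc) hd
  unfold BL
  congr 1
  have e : ∀ c' : ℝ, (∫ v : ℝ, gk D U c' t v * D.chi (ln (1/2) t + ln c' v) *
      ∑ n ∈ S, (D.f n : ℂ) * (n : ℂ) ^ (ln (1/2) t + ln c' v - 1)) =
      ∫ v : ℝ, P (ln c' v) * cexp ((ln c' v) ^ 2) / ln c' v := by
    intro c'
    refine integral_congr_ae (Filter.Eventually.of_forall fun v => ?_)
    simp only [gk_eq, P]
    ring
  rw [e, e, key]

end Pool.Agent.H15.SC
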