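import Pool.Agent.H15.SC.LogSum

/-!
# SC-25  `(s-1) L(s,ψ)` for a periodic `ψ`: continuation to `re s > 0`, Weyl bound on `re s = 1/2`
(project SC, MP_be4568_nt)

`S(x) = ∑_{1≤n≤x} ψ n`, `κ = (1/q) ∑_{n=1}^q ψ n`, `r(x) = S(x) - κ x` is bounded, `r(N) = 0` if `q ∣ N`.
`Z s = κ s + s (s-1) ∫_1^∞ r(x) x^{-s-1} dx` (the same as `(s-1) L(s,ψ)` for `re s > 1`, `LSeries_eq_mul_integral` or Abel
summation), analytic for `re s > 0` (see `differentiableAt_fractInt` in `Pool/Agent/PairCorr/ZetaBasic.lean` for the method).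
For `q ∣ N`, `re s > 0`: `Z s = (s-1) ∑_{n≤N} ψ(n) n^{-s} + κ N^{1-s} + s (s-1) ∫_N^∞ r(x) x^{-s-1} dx` (both sides analytic, equal for
`re s > 1`; or integrate by parts on `[1,N]`).
Take `N = q 2^K`, `t²/2 < 2^K ≤ t²` (`|t| ≥ 2`; `1 ≤ |t| ≤ 2` by continuity): `|κ N^{1/2}| ≤ C |t|`, the integral is
`≤ C |s|² N^{-1/2} ≤ C |t|`.  The sum: `n = q m + a`, `1 ≤ a ≤ q`, `m < 2^K`; `m = 0` gives `O(1)`, the blocks `m ∈ [M, 2M)`
give `q^{-s} ∑_{j<M} (M + a/q + j)^{-s}`: `log_block_half` (`L = M + a/q ≤ 2M ≤ 2^K ≤ t²`), `K ≤ C log |t|` blocks.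
-/

set_option autoImplicit false

open Complex Filter Topology MeasureTheory Set

namespace Pool.Agent.H15.SC

/-- partial sums -/
noncomputable def PLS (ψ : ℕ → ℝ) (n : ℕ) : ℝ := ∑ k ∈ Finset.Icc 1 n, ψ k

theorem PLS_succ (ψ : ℕ → ℝ) (n : ℕ) : PLS ψ (n + 1) = PLS ψ n + ψ (n + 1) := by
  unfold PLS
  rw [Finset.sum_Icc_succ_top (by omega)]

theorem PLS_add (q : ℕ) (ψ : ℕ → ℝ) (hψ : ∀ n, ψ (n + q) = ψ n) (n : ℕ) :
    PLS ψ (n + q) = PLS ψ n + PLS ψ q := by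
  induction n with
  | zero => simp [PLS]
  | succ n ih =>
    rw [show n + 1 + q = (n + q) + 1 by ring, PLS_succ, ih, PLS_succ, show n + q + 1 = (n + 1) + q by ring,
      hψ]
    ring

/-- remainder -/
noncomputable def PLr (ψ : ℕ → ℝ) (κ x : ℝ) : ℝ := PLS ψ ⌊x⌋₊ - κ * x

theorem PL_bdd (q : ℕ) (hq : 1 ≤ q) (ψ : ℕ → ℝ) (hψ : ∀ n, ψ (n + q) = ψ n) :
    ∃ B : ℝ, 0 ≤ B ∧ (∀ x : ℝ, 0 ≤ x → |PLr ψ (PLS ψ q / q) x| ≤ B) ∧
      (∀ j : ℕ, PLS ψ (q * j) = (PLS ψ q / q) * ((q * j : ℕ) : ℝ)) ∧ (∀ n, |ψ n| ≤ B) := by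
  set κ : ℝ := PLS ψ q / q with hκ
  have hq0 : (q : ℝ) ≠ 0 := by positivity
  have hκq : κ * q = PLS ψ q := by rw [hκ]; field_simp
  set d : ℕ → ℝ := fun n => PLS ψ n - κ * n with hd
  have hper : Function.Periodic d q := by
    intro n
    simp only [hd]
    rw [PLS_add q ψ hψ]
    push_cast
    linear_combination -hκq
  have hψper : Function.Periodic ψ q := hψ
  have hb : ∀ n, |d n| ≤ ∑ k ∈ Finset.range q, |d k| := by
    intro n
    rw [← hper.map_mod_nat n]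
    exact Finset.single_le_sum (f := fun k => |d k|) (fun i _ => abs_nonneg _)
      (Finset.mem_range.2 (Nat.mod_lt _ (by omega)))
  have hψb : ∀ n, |ψ n| ≤ ∑ k ∈ Finset.range q, |ψ k| := by
    intro n
    rw [← hψper.map_mod_nat n]
    exact Finset.single_le_sum (f := fun k => |ψ k|) (fun i _ => abs_nonneg _)
      (Finset.mem_range.2 (Nat.mod_lt _ (by omega)))
  have hs1 : 0 ≤ ∑ k ∈ Finset.range q, |d k| := Finset.sum_nonneg (fun _ _ => abs_nonneg _)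
  have hs2 : 0 ≤ ∑ k ∈ Finset.range q, |ψ k| := Finset.sum_nonneg (fun _ _ => abs_nonneg _)
  refine ⟨∑ k ∈ Finset.range q, |d k| + |κ| + ∑ k ∈ Finset.range q, |ψ k|, by positivity, ?_, ?_, ?_⟩
  · intro x hx
    have h1 : PLr ψ κ x = d ⌊x⌋₊ + κ * (⌊x⌋₊ - x) := by
      simp only [PLr, hd]; ring
    rw [h1]
    have h2 : |(⌊x⌋₊ : ℝ) - x| ≤ 1 := by
      have h3 := Nat.floor_le hx
      have h4 := Nat.lt_floor_add_one x
      rw [abs_le]
      constructor <;> linarith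
    calc |d ⌊x⌋₊ + κ * (⌊x⌋₊ - x)| ≤ |d ⌊x⌋₊| + |κ * (⌊x⌋₊ - x)| := abs_add_le _ _
      _ ≤ ∑ k ∈ Finset.range q, |d k| + |κ| * 1 := by
          rw [abs_mul]
          exact add_le_add (hb _) (mul_le_mul_of_nonneg_left h2 (abs_nonneg _))
      _ ≤ _ := by linarith
  · intro j
    have h1 : d (q * j) = 0 := by
      have := hper.nat_mul_eq j
      induction j with
      | zero => simp [hd, PLS]
      | succ j ih =>
        have h2 := hper (q * j)
        rw [show q * (j + 1) = q * j + q by ring, h2]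
        exact ih (hper.nat_mul_eq j)
    simp only [hd] at h1
    linarith
  · intro n
    have := hψb n
    have h0 := abs_nonneg κ
    linarith

theorem PLr_meas (ψ : ℕ → ℝ) (κ : ℝ) : Measurable (PLr ψ κ) := by
  unfold PLr
  have h1 : Measurable (fun x : ℝ => PLS ψ ⌊x⌋₊) :=
    (measurable_from_nat (f := PLS ψ)).comp Nat.measurable_floor
  exact h1.sub (measurable_const.mul measurable_id)

/-- the remainder integral -/
noncomputable def PLI (ψ : ℕ → ℝ) (κ : ℝ) (N : ℕ) (s : ℂ) : ℂ :=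
  ∫ x in Ioi (N : ℝ), ((PLr ψ κ x : ℝ) : ℂ) * (x : ℂ) ^ (-s - 1)

theorem PLI_diff (ψ : ℕ → ℝ) (κ B : ℝ) (hB0 : 0 ≤ B) (hB : ∀ x : ℝ, 0 ≤ x → |PLr ψ κ x| ≤ B) (N : ℕ)
    (hN : 1 ≤ N) {s : ℂ} (hs : 0 < s.re) : DifferentiableAt ℂ (PLI ψ κ N) s := by
  have hN1 : (1 : ℝ) ≤ N := by exact_mod_cast hN
  set f : ℝ → ℂ := fun x => indicator (Ioi (N : ℝ)) (fun x => ((PLr ψ κ x : ℝ) : ℂ)) x with hf
  have h1 : PLI ψ κ N = fun s => mellin f (-s) := by
    funext s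
    rw [PLI, mellin]
    simp only [smul_eq_mul]
    have : ∀ t : ℝ, (t : ℂ) ^ (-s - 1) * f t = indicator (Ioi (N : ℝ))
        (fun x : ℝ => ((PLr ψ κ x : ℝ) : ℂ) * (x : ℂ) ^ (-s - 1)) t := by
      intro t
      by_cases ht : t ∈ Ioi (N : ℝ)
      · simp only [hf, indicator_of_mem ht]; ring
      · simp only [hf, indicator_of_notMem ht]; ring
    simp_rw [this]
    rw [setIntegral_indicator measurableSet_Ioi]
    congr 2
    ext x
    simp only [mem_Ioi, mem_inter_iff]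
    constructor
    · intro h
      exact ⟨by linarith, h⟩
    · exact fun h => h.2
  have hfb : ∀ x, ‖f x‖ ≤ B := by
    intro x
    by_cases hx : x ∈ Ioi (N : ℝ)
    · simp only [hf, indicator_of_mem hx]
      rw [Complex.norm_real, Real.norm_eq_abs]
      rw [mem_Ioi] at hx
      exact hB x (by linarith)
    · simp only [hf, indicator_of_notMem hx, norm_zero]; exact hB0
  have hfm : Measurable f :=
    (measurable_ofReal.comp (PLr_meas ψ κ)).indicator measurableSet_Ioi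
  rw [h1]
  have h2 : DifferentiableAt ℂ (mellin f) (-s) := by
    refine mellin_differentiableAt_of_isBigO_rpow (a := 0) (b := (-s).re - 1) ?_ ?_ ?_ ?_ ?_
    · refine (locallyIntegrable_const (B : ℝ)).locallyIntegrableOn _ |>.mono hfm.aestronglyMeasurable ?_
      exact Eventually.of_forall fun x => by
        rw [Real.norm_of_nonneg hB0]; exact hfb x
    · refine Asymptotics.IsBigO.of_bound B (Eventually.of_forall fun x => ?_)
      simpa using hfb x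
    · simpa using hs
    · refine Asymptotics.IsBigO.of_bound 1 ?_
      filter_upwards [Ioo_mem_nhdsGT (zero_lt_one' ℝ)] with x hx
      have : x ∉ Ioi (N : ℝ) := by simp only [mem_Ioi, not_lt]; exact hx.2.le.trans hN1
      simp only [hf, indicator_of_notMem this, norm_zero]
      positivity
    · linarith
  exact h2.comp s differentiableAt_id.neg

theorem PLI_norm (ψ : ℕ → ℝ) (κ B : ℝ) (_hB0 : 0 ≤ B) (hB : ∀ x : ℝ, 0 ≤ x → |PLr ψ κ x| ≤ B) (N : ℕ)
    (hN : 1 ≤ N) {s : ℂ} (hs : 0 < s.re) : ‖PLI ψ κ N s‖ ≤ B * (N : ℝ) ^ (-s.re) / s.re := by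
  have hN0 : (0 : ℝ) < N := by exact_mod_cast hN
  rw [PLI]
  have h1 : ∀ x ∈ Ioi (N : ℝ), ‖((PLr ψ κ x : ℝ) : ℂ) * (x : ℂ) ^ (-s - 1)‖ ≤
      B * x ^ (-s.re - 1) := by
    intro x hx
    rw [mem_Ioi] at hx
    have hx0 : (0 : ℝ) < x := lt_trans hN0 hx
    rw [norm_mul, Complex.norm_real, Real.norm_eq_abs,
      Complex.norm_cpow_eq_rpow_re_of_pos hx0]
    have : (-s - 1).re = -s.re - 1 := by simp
    rw [this]
    exact mul_le_mul_of_nonneg_right (hB x hx0.le) (by positivity)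
  have h2 : IntegrableOn (fun x : ℝ => B * x ^ (-s.re - 1)) (Ioi (N : ℝ)) :=
    (integrableOn_Ioi_rpow_of_lt (by linarith) hN0).const_mul B
  calc ‖∫ x in Ioi (N : ℝ), ((PLr ψ κ x : ℝ) : ℂ) * (x : ℂ) ^ (-s - 1)‖
      ≤ ∫ x in Ioi (N : ℝ), B * x ^ (-s.re - 1) := by
        refine norm_integral_le_of_norm_le h2 ?_
        rw [ae_restrict_iff' measurableSet_Ioi]
        exact Eventually.of_forall h1
    _ = B * (N : ℝ) ^ (-s.re) / s.re := by
        rw [integral_const_mul, integral_Ioi_rpow_of_lt (by linarith) hN0]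
        have : -s.re - 1 + 1 = -s.re := by ring
        rw [this]
        field_simp

/-- the approximate formula -/
noncomputable def PLZ (ψ : ℕ → ℝ) (κ : ℝ) (N : ℕ) (s : ℂ) : ℂ :=
  (s - 1) * ∑ n ∈ Finset.Icc 1 N, (ψ n : ℂ) * (n : ℂ) ^ (-s) + κ * (N : ℂ) ^ (1 - s) +
    s * (s - 1) * PLI ψ κ N s

theorem PLZ_diff (ψ : ℕ → ℝ) (κ B : ℝ) (hB0 : 0 ≤ B) (hB : ∀ x : ℝ, 0 ≤ x → |PLr ψ κ x| ≤ B) (N : ℕ)
    (hN : 1 ≤ N) {s : ℂ} (hs : 0 < s.re) : DifferentiableAt ℂ (PLZ ψ κ N) s := by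
  have h1 := PLI_diff ψ κ B hB0 hB N hN hs
  have hN0 : (N : ℂ) ≠ 0 := by
    have : N ≠ 0 := by omega
    exact_mod_cast this
  unfold PLZ
  refine ((DifferentiableAt.mul (by fun_prop) ?_).add (DifferentiableAt.mul (by fun_prop) ?_)).add
    (DifferentiableAt.mul (by fun_prop) h1)
  · apply DifferentiableAt.fun_sum
    intro n hn
    rw [Finset.mem_Icc] at hn
    have hn0 : (n : ℂ) ≠ 0 := by
      have : n ≠ 0 := by omega
      exact_mod_cast this
    exact DifferentiableAt.mul (by fun_prop) (DifferentiableAt.const_cpow (by fun_prop) (Or.inl hn0))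
  · exact DifferentiableAt.const_cpow (by fun_prop) (Or.inl hN0)

theorem PLZ_series (ψ : ℕ → ℝ) (κ B : ℝ) (hB0 : 0 ≤ B) (hB : ∀ x : ℝ, 0 ≤ x → |PLr ψ κ x| ≤ B)
    (hψB : ∀ n, |ψ n| ≤ B) (N : ℕ)
    (hN : 1 ≤ N) (hSN : PLS ψ N = κ * N) {s : ℂ} (hs : 1 < s.re) :
    PLZ ψ κ N s = (s - 1) * LSeries (fun n => (ψ n : ℂ)) s := by
  have h0 : 0 < s.re := by linarith
  have hN0 : (0 : ℝ) < N := by exact_mod_cast hN
  have hs1 : s - 1 ≠ 0 := by
    intro h
    have : s = 1 := by linear_combination h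
    rw [this] at hs
    simp at hs
  have hs0 : s ≠ 0 := by
    intro h
    rw [h] at h0
    simp at h0
  set f : ℕ → ℂ := fun n => if n ≤ N then 0 else (ψ n : ℂ) with hf
  set g : ℕ → ℂ := fun n => if n ≤ N then (ψ n : ℂ) else 0 with hg
  have hfb : ∀ n, ‖f n‖ ≤ B := by
    intro n
    simp only [hf]
    split_ifs
    · simpa using hB0
    · rw [Complex.norm_real, Real.norm_eq_abs]; exact hψB n
  have hgb : ∀ n, ‖g n‖ ≤ B := by
    intro n
    simp only [hg]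
    split_ifs
    · rw [Complex.norm_real, Real.norm_eq_abs]; exact hψB n
    · simpa using hB0
  have hfs : LSeriesSummable f s := LSeriesSummable_of_bounded_of_one_lt_re (fun n _ => hfb n) hs
  have hgs : LSeriesSummable g s := LSeriesSummable_of_bounded_of_one_lt_re (fun n _ => hgb n) hs
  have hsplit : LSeries (fun n => (ψ n : ℂ)) s = LSeries g s + LSeries f s := by
    rw [← LSeries_add hgs hfs]
    congr 1
    funext n
    simp only [Pi.add_apply, hf, hg]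
    split_ifs <;> simp
  have hgsum : LSeries g s = ∑ n ∈ Finset.Icc 1 N, (ψ n : ℂ) * (n : ℂ) ^ (-s) := by
    unfold LSeries
    rw [tsum_eq_sum (s := Finset.Icc 1 N)]
    · apply Finset.sum_congr rfl
      intro n hn
      rw [Finset.mem_Icc] at hn
      rw [LSeries.term_of_ne_zero (by omega), Complex.cpow_neg]
      simp only [hg, if_pos hn.2]
      rfl
    · intro n hn
      rw [Finset.mem_Icc, not_and_or] at hn
      rcases Nat.eq_zero_or_pos n with h | h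
      · rw [h]; simp
      · have h3 : ¬ n ≤ N := by
          rcases hn with hn | hn
          · omega
          · exact hn
        rw [LSeries.term_of_ne_zero (by omega)]
        simp only [hg, if_neg h3, zero_div]
  have hfO : (fun n : ℕ ↦ ∑ k ∈ Finset.Icc 1 n, f k) =O[atTop] fun n ↦ (n : ℝ) ^ (1 : ℝ) := by
    refine Asymptotics.IsBigO.of_bound B (Eventually.of_forall fun n => ?_)
    refine (norm_sum_le _ _).trans ?_
    refine (Finset.sum_le_card_nsmul _ _ B (fun k _ => hfb k)).trans ?_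
    rw [Nat.card_Icc, nsmul_eq_mul, Real.rpow_one, Real.norm_of_nonneg (by positivity)]
    simp only [Nat.add_sub_cancel]
    linarith
  have hmain := LSeries_eq_mul_integral f (r := 1) zero_le_one (s := s) hs hfs hfO
  have hfsum : ∀ m : ℕ, N ≤ m → ∑ k ∈ Finset.Icc 1 m, f k = ((PLS ψ m - κ * N : ℝ) : ℂ) := by
    intro m hm
    induction m, hm using Nat.le_induction with
    | base =>
      rw [hSN, sub_self, Complex.ofReal_zero]
      apply Finset.sum_eq_zero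
      intro k hk
      rw [Finset.mem_Icc] at hk
      simp only [hf, if_pos hk.2]
    | succ m hm ih =>
      rw [Finset.sum_Icc_succ_top (by omega), ih, PLS_succ]
      simp only [hf, if_neg (show ¬ (m + 1 ≤ N) by omega)]
      push_cast
      ring
  have hfsum0 : ∀ m : ℕ, m ≤ N → ∑ k ∈ Finset.Icc 1 m, f k = 0 := by
    intro m hm
    apply Finset.sum_eq_zero
    intro k hk
    rw [Finset.mem_Icc] at hk
    simp only [hf, if_pos (hk.2.trans hm)]
  have hI1 : ∫ t in Ioi (1 : ℝ), (∑ k ∈ Finset.Icc 1 ⌊t⌋₊, f k) * (t : ℂ) ^ (-(s + 1)) =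
      ∫ t in Ioi (N : ℝ), (∑ k ∈ Finset.Icc 1 ⌊t⌋₊, f k) * (t : ℂ) ^ (-(s + 1)) := by
    apply setIntegral_eq_of_subset_of_forall_sdiff_eq_zero measurableSet_Ioi
    · intro x hx
      rw [mem_Ioi] at hx ⊢
      have : (1 : ℝ) ≤ N := by exact_mod_cast hN
      linarith
    · intro x hx
      simp only [Set.mem_sdiff, mem_Ioi, not_lt] at hx
      rw [hfsum0 _ (Nat.floor_le_of_le (by exact_mod_cast hx.2)), zero_mul]
  have hI2 : ∫ t in Ioi (N : ℝ), (∑ k ∈ Finset.Icc 1 ⌊t⌋₊, f k) * (t : ℂ) ^ (-(s + 1)) =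
      ∫ t in Ioi (N : ℝ), ((κ : ℂ) * (t : ℂ) ^ (-s) - (κ * N : ℂ) * (t : ℂ) ^ (-s - 1) +
        ((PLr ψ κ t : ℝ) : ℂ) * (t : ℂ) ^ (-s - 1)) := by
    refine setIntegral_congr_fun measurableSet_Ioi fun t ht => ?_
    rw [mem_Ioi] at ht
    have ht0 : (0 : ℝ) < t := lt_trans hN0 ht
    have htc : (t : ℂ) ≠ 0 := by exact_mod_cast ht0.ne'
    rw [hfsum _ (Nat.le_floor ht.le)]
    have h4 : (t : ℂ) ^ (-s) = (t : ℂ) * (t : ℂ) ^ (-s - 1) := by
      rw [sub_eq_add_neg, Complex.cpow_add _ _ htc, Complex.cpow_neg_one]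
      field_simp
    rw [h4, show -(s + 1) = -s - 1 by ring, PLr]
    push_cast
    ring
  have hint1 : IntegrableOn (fun x : ℝ => (x : ℂ) ^ (-s)) (Ioi (N : ℝ)) :=
    integrableOn_Ioi_cpow_of_lt (by simpa using hs) hN0
  have hint2 : IntegrableOn (fun x : ℝ => (x : ℂ) ^ (-s - 1)) (Ioi (N : ℝ)) :=
    integrableOn_Ioi_cpow_of_lt (by simp; linarith) hN0
  have hint3 : IntegrableOn (fun x : ℝ => ((PLr ψ κ x : ℝ) : ℂ) * (x : ℂ) ^ (-s - 1)) (Ioi (N : ℝ)) := by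
    refine Integrable.bdd_mul (c := B) hint2 ?_ ?_
    · exact (measurable_ofReal.comp (PLr_meas ψ κ)).aestronglyMeasurable
    · rw [ae_restrict_iff' measurableSet_Ioi]
      refine Eventually.of_forall fun x hx => ?_
      rw [mem_Ioi] at hx
      rw [Complex.norm_real, Real.norm_eq_abs]
      exact hB x (by linarith)
  have hI3 : ∫ t in Ioi (N : ℝ), ((κ : ℂ) * (t : ℂ) ^ (-s) - (κ * N : ℂ) * (t : ℂ) ^ (-s - 1) +
        ((PLr ψ κ t : ℝ) : ℂ) * (t : ℂ) ^ (-s - 1)) =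
      κ * (-(N : ℂ) ^ (-s + 1) / (-s + 1)) - κ * N * (-(N : ℂ) ^ (-s - 1 + 1) / (-s - 1 + 1)) +
        PLI ψ κ N s := by
    have hA : IntegrableOn (fun t : ℝ => (κ : ℂ) * (t : ℂ) ^ (-s) - (κ * N : ℂ) * (t : ℂ) ^ (-s - 1))
        (Ioi (N : ℝ)) := (hint1.const_mul _).sub (hint2.const_mul _)
    rw [integral_add hA hint3,
      integral_sub (hint1.const_mul _) (hint2.const_mul _), integral_const_mul, integral_const_mul,
      integral_Ioi_cpow_of_lt (by simpa using hs) hN0,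
      integral_Ioi_cpow_of_lt (by simp; linarith) hN0]
    simp only [Complex.ofReal_natCast]
    rfl
  rw [hI1, hI2, hI3] at hmain
  rw [hsplit, hgsum, hmain, PLZ]
  have hNc : (N : ℂ) ≠ 0 := by
    have : N ≠ 0 := by omega
    exact_mod_cast this
  have e1 : (N : ℂ) ^ (-s + 1) = (N : ℂ) ^ (1 - s) := by congr 1; ring
  have e2 : (N : ℂ) ^ (-s - 1 + 1) = (N : ℂ) ^ (-s) := by congr 1; ring
  have e3 : (N : ℂ) ^ (1 - s) = N * (N : ℂ) ^ (-s) := by
    rw [sub_eq_add_neg, Complex.cpow_add _ _ hNc, Complex.cpow_one]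
  have e4 : -s + 1 ≠ 0 := by
    intro h; apply hs1; linear_combination -h
  have e5 : -s - 1 + 1 = -s := by ring
  rw [e1, e2, e5, e3]
  field_simp
  ring

theorem PLZ_eq (ψ : ℕ → ℝ) (κ B : ℝ) (hB0 : 0 ≤ B) (hB : ∀ x : ℝ, 0 ≤ x → |PLr ψ κ x| ≤ B)
    (hψB : ∀ n, |ψ n| ≤ B) (N N' : ℕ) (hN : 1 ≤ N) (hN' : 1 ≤ N') (hSN : PLS ψ N = κ * N)
    (hSN' : PLS ψ N' = κ * N') {s : ℂ} (hs : 0 < s.re) : PLZ ψ κ N s = PLZ ψ κ N' s := by
  have hopen : IsOpen {z : ℂ | 0 < z.re} := isOpen_lt continuous_const continuous_re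
  have hconv : IsPreconnected {z : ℂ | 0 < z.re} := (convex_halfSpace_re_gt 0).isPreconnected
  have hL : AnalyticOnNhd ℂ (PLZ ψ κ N) {z : ℂ | 0 < z.re} :=
    DifferentiableOn.analyticOnNhd (fun z hz => (PLZ_diff ψ κ B hB0 hB N hN hz).differentiableWithinAt) hopen
  have hR : AnalyticOnNhd ℂ (PLZ ψ κ N') {z : ℂ | 0 < z.re} :=
    DifferentiableOn.analyticOnNhd (fun z hz => (PLZ_diff ψ κ B hB0 hB N' hN' hz).differentiableWithinAt) hopen
  have h2 : (2 : ℂ) ∈ {z : ℂ | 0 < z.re} := by simp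
  have hev : PLZ ψ κ N =ᶠ[𝓝 (2 : ℂ)] PLZ ψ κ N' := by
    have hmem : {z : ℂ | 1 < z.re} ∈ 𝓝 (2 : ℂ) :=
      (isOpen_lt continuous_const continuous_re).mem_nhds (by simp)
    filter_upwards [hmem] with z hz
    rw [PLZ_series ψ κ B hB0 hB hψB N hN hSN hz, PLZ_series ψ κ B hB0 hB hψB N' hN' hSN' hz]
  exact hL.eqOn_of_preconnected_of_eventuallyEq hR hconv h2 hev hs

/-- reindexing `n = q m + a + 1` -/
theorem PL_reindex (q M : ℕ) (g : ℕ → ℂ) :
    ∑ n ∈ Finset.Icc 1 (q * M), g n = ∑ a ∈ Finset.range q, ∑ m ∈ Finset.range M, g (q * m + a + 1) := by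
  have h1 : ∑ n ∈ Finset.Icc 1 (q * M), g n = ∑ i ∈ Finset.range (q * M), g (i + 1) := by
    rw [Finset.range_eq_Ico, Finset.sum_Ico_add' (fun n => g n) 0 (q * M) 1]
    congr 1
  rw [h1, Finset.sum_comm]
  clear h1
  induction M with
  | zero => simp
  | succ M ih =>
    rw [Nat.mul_succ, Finset.sum_range_add, ih, Finset.sum_range_succ]

/-- dyadic decomposition of `[0, 2^K)` -/
theorem PL_dyadic (K : ℕ) (h : ℕ → ℂ) (A : ℝ) (hA : ∀ k < K, ‖∑ j ∈ Finset.range (2 ^ k), h (2 ^ k + j)‖ ≤ A) :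
    ‖∑ m ∈ Finset.range (2 ^ K), h m‖ ≤ ‖h 0‖ + K * A := by
  induction K with
  | zero => simp
  | succ K ih =>
    rw [show 2 ^ (K + 1) = 2 ^ K + 2 ^ K by ring, Finset.sum_range_add]
    refine (norm_add_le _ _).trans ?_
    have h1 := ih (fun k hk => hA k (by omega))
    have h2 := hA K (by omega)
    push_cast
    linarith

theorem psi_L (q : ℕ) (hq : 1 ≤ q) (ψ : ℕ → ℝ) (hψ : ∀ n, ψ (n + q) = ψ n) : ∃ Z : ℂ → ℂ,
    DifferentiableOn ℂ Z {s : ℂ | 0 < s.re} ∧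
    (∀ s : ℂ, 1 < s.re → Z s = (s - 1) * LSeries (fun n => (ψ n : ℂ)) s) ∧
    ∀ ε : ℝ, 0 < ε → ∃ C : ℝ, 0 ≤ C ∧ ∀ t : ℝ, 1 ≤ |t| →
      ‖Z ((1/2 : ℝ) + t * I)‖ ≤ C * |t| ^ (1 + 1/6 + ε) := by
  obtain ⟨B, hB0, hB, hmult, hψB⟩ := PL_bdd q hq ψ hψ
  set κ : ℝ := PLS ψ q / q with hκ
  have hqpos : (0 : ℝ) < q := by exact_mod_cast hq
  have hSq : PLS ψ q = κ * q := by
    have := hmult 1
    simpa using this
  refine ⟨PLZ ψ κ q, fun s hs => (PLZ_diff ψ κ B hB0 hB q hq hs).differentiableWithinAt,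
    fun s hs => PLZ_series ψ κ B hB0 hB hψB q hq hSq hs, ?_⟩
  intro ε hε
  obtain ⟨CL, hCL1, hCL⟩ := log_block_half
  have hCL0 : 0 ≤ CL := by linarith
  -- the constants
  set C1 : ℝ := 2 * (q * B * (q + 4 / ε * CL)) with hC1
  set C2 : ℝ := |κ| * q with hC2
  set C3 : ℝ := 2 * (B * 4) with hC3
  have hC10 : 0 ≤ C1 := by rw [hC1]; positivity
  have hC20 : 0 ≤ C2 := by rw [hC2]; positivity
  have hC30 : 0 ≤ C3 := by rw [hC3]; positivity
  refine ⟨C1 + C2 + C3, by positivity, ?_⟩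
  intro t ht
  have ht0 : 0 < |t| := by linarith
  have htsq : |t| ^ 2 = t ^ 2 := sq_abs t
  have ht2 : 1 ≤ t ^ 2 := by nlinarith
  set s : ℂ := ((1/2 : ℝ) : ℂ) + t * I with hs
  have hsre : s.re = 1/2 := by simp [hs]
  have hsim : s.im = t := by simp [hs]
  have hs0 : 0 < s.re := by rw [hsre]; norm_num
  -- choice of `K`
  obtain ⟨K, hK1, hK2⟩ : ∃ K : ℕ, (2 : ℝ) ^ K ≤ t ^ 2 ∧ t ^ 2 < 2 ^ (K + 1) :=
    exists_nat_pow_near ht2 (by norm_num)
  have h2K : (1 : ℝ) ≤ 2 ^ K := one_le_pow₀ (by norm_num)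
  set N : ℕ := q * 2 ^ K with hN
  have hN1 : 1 ≤ N := Nat.one_le_iff_ne_zero.2 (by positivity)
  have hNr : (N : ℝ) = q * 2 ^ K := by rw [hN]; push_cast; ring
  have hNpos : (0 : ℝ) < N := by rw [hNr]; positivity
  have hq1 : (1 : ℝ) ≤ q := by exact_mod_cast hq
  rw [PLZ_eq ψ κ B hB0 hB hψB q N hq hN1 hSq (hmult (2 ^ K)) hs0, PLZ]
  -- norms of `s`
  have hnorm1 : ‖s - 1‖ ≤ 2 * |t| := by
    have h1 : ‖s - 1‖ ^ 2 = 1/4 + t ^ 2 := by
      rw [← Complex.normSq_eq_norm_sq, Complex.normSq_apply]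
      simp only [Complex.sub_re, Complex.sub_im, hsre, hsim, Complex.one_re, Complex.one_im]
      ring
    have h2 := norm_nonneg (s - 1)
    nlinarith
  have hnorm0 : ‖s‖ * ‖s - 1‖ ≤ 2 * t ^ 2 := by
    have h1 : ‖s - 1‖ ^ 2 = 1/4 + t ^ 2 := by
      rw [← Complex.normSq_eq_norm_sq, Complex.normSq_apply]
      simp only [Complex.sub_re, Complex.sub_im, hsre, hsim, Complex.one_re, Complex.one_im]
      ring
    have h2 : ‖s‖ ^ 2 = 1/4 + t ^ 2 := by
      rw [← Complex.normSq_eq_norm_sq, Complex.normSq_apply, hsre, hsim]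
      ring
    nlinarith [sq_nonneg (‖s‖ - ‖s - 1‖)]
  -- the three pieces
  have hlogK : (K : ℝ) ≤ 4 / ε * |t| ^ ε := by
    have h1 : (K : ℝ) * Real.log 2 ≤ 2 * Real.log |t| := by
      have h2 : Real.log ((2 : ℝ) ^ K) ≤ Real.log (t ^ 2) := Real.log_le_log (by positivity) hK1
      rw [Real.log_pow, ← htsq, Real.log_pow] at h2
      exact_mod_cast h2
    have h3 := Real.log_le_rpow_div (abs_nonneg t) hε
    have h4 : (1 : ℝ) / 2 ≤ Real.log 2 := by
      have := Real.log_two_gt_d9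
      linarith
    have h5 : 0 ≤ |t| ^ ε / ε := by positivity
    have h6 : (K : ℝ) * (1 / 2) ≤ K * Real.log 2 := mul_le_mul_of_nonneg_left h4 (by positivity)
    have h7 : 4 / ε * |t| ^ ε = 4 * (|t| ^ ε / ε) := by ring
    rw [h7]
    linarith
  have hsum : ‖∑ n ∈ Finset.Icc 1 N, (ψ n : ℂ) * (n : ℂ) ^ (-s)‖ ≤
      q * B * (q + 4 / ε * CL) * |t| ^ (1/6 + ε) := by
    rw [hN, PL_reindex]
    have hinner : ∀ a ∈ Finset.range q, ‖∑ m ∈ Finset.range (2 ^ K),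
        (ψ (q * m + a + 1) : ℂ) * ((q * m + a + 1 : ℕ) : ℂ) ^ (-s)‖ ≤ B * (q + 4 / ε * CL) * |t| ^ (1/6 + ε) := by
      intro a ha
      rw [Finset.mem_range] at ha
      set α : ℝ := (a + 1) / q with hα
      have hα0 : 0 < α := by rw [hα]; positivity
      have hα1 : α ≤ 1 := by
        rw [hα, div_le_one hqpos]
        exact_mod_cast ha
      have hαq : 1 / (q : ℝ) ≤ α := by
        rw [hα, div_le_div_iff_of_pos_right hqpos]
        have : (0 : ℝ) ≤ a := by positivity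
        linarith
      have hψm : ∀ m : ℕ, ψ (q * m + a + 1) = ψ (a + 1) := by
        intro m
        induction m with
        | zero => simp
        | succ m ih =>
          rw [show q * (m + 1) + a + 1 = (q * m + a + 1) + q by ring, hψ, ih]
      have hterm : ∀ m : ℕ, (ψ (q * m + a + 1) : ℂ) * ((q * m + a + 1 : ℕ) : ℂ) ^ (-s) =
          ((ψ (a + 1) : ℂ) * (q : ℂ) ^ (-s)) * (((m : ℝ) + α : ℝ) : ℂ) ^ (-s) := by
        intro m
        rw [hψm]
        have h1 : ((q * m + a + 1 : ℕ) : ℂ) = ((q : ℝ) : ℂ) * (((m : ℝ) + α : ℝ) : ℂ) := by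
          rw [← Complex.ofReal_mul, ← Complex.ofReal_natCast]
          congr 1
          rw [hα]
          push_cast
          field_simp
          ring
        rw [h1, Complex.mul_cpow_ofReal_nonneg (by positivity) (by positivity), Complex.ofReal_natCast]
        ring
      simp_rw [hterm]
      rw [← Finset.mul_sum, norm_mul, norm_mul]
      have hψn : ‖(ψ (a + 1) : ℂ)‖ ≤ B := by
        rw [Complex.norm_real, Real.norm_eq_abs]; exact hψB _
      have hqn : ‖(q : ℂ) ^ (-s)‖ ≤ 1 := by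
        rw [Complex.norm_natCast_cpow_of_pos (by omega)]
        apply Real.rpow_le_one_of_one_le_of_nonpos hq1
        rw [Complex.neg_re, hsre]; norm_num
      have hd := PL_dyadic K (fun m => (((m : ℝ) + α : ℝ) : ℂ) ^ (-s)) (CL * |t| ^ ((1 : ℝ) / 6)) (by
        intro k hk
        have hk2 : (2 : ℝ) ^ (k + 1) ≤ 2 ^ K := pow_le_pow_right₀ (by norm_num) (by omega)
        have hk1 : (1 : ℝ) ≤ 2 ^ k := one_le_pow₀ (by norm_num)
        have := hCL (2 ^ k + α) t (by linarith) ht (by rw [pow_succ] at hk2; linarith) (2 ^ k)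
          (by push_cast; linarith)
        refine le_trans (le_of_eq ?_) this
        congr 1
        apply Finset.sum_congr rfl
        intro j _
        have e1 : -s = -(1/2 + t * I) := by rw [hs]; push_cast; ring
        have e2 : (((2 ^ k + j : ℕ) : ℝ) + α : ℝ) = 2 ^ k + α + j := by push_cast; ring
        rw [e1, e2])
      have h00 : ‖(((((0 : ℕ) : ℝ) + α : ℝ) : ℂ)) ^ (-s)‖ ≤ q := by
        rw [Complex.norm_cpow_eq_rpow_re_of_pos (by simpa using hα0), Complex.neg_re, hsre]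
        simp only [Nat.cast_zero, zero_add]
        have h1 : α ^ (-(1/2) : ℝ) ≤ (1 / (q : ℝ)) ^ (-(1/2) : ℝ) :=
          Real.rpow_le_rpow_of_nonpos (by positivity) hαq (by norm_num)
        refine h1.trans ?_
        rw [one_div, Real.inv_rpow hqpos.le, ← Real.rpow_neg hqpos.le, neg_neg]
        calc (q : ℝ) ^ (1/2 : ℝ) ≤ (q : ℝ) ^ (1 : ℝ) := Real.rpow_le_rpow_of_exponent_le hq1 (by norm_num)
          _ = q := Real.rpow_one _
      have hpow1 : 1 ≤ |t| ^ (1/6 + ε) := Real.one_le_rpow ht (by positivity)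
      have hpow2 : |t| ^ ε * |t| ^ ((1 : ℝ) / 6) = |t| ^ (1/6 + ε) := by
        rw [← Real.rpow_add ht0]
        congr 1
        ring
      have hp6 : 0 ≤ |t| ^ ((1 : ℝ) / 6) := by positivity
      have hd2 : ‖∑ m ∈ Finset.range (2 ^ K), (((m : ℝ) + α : ℝ) : ℂ) ^ (-s)‖ ≤
          (q + 4 / ε * CL) * |t| ^ (1/6 + ε) := by
        refine hd.trans ?_
        have h1 : (K : ℝ) * (CL * |t| ^ ((1 : ℝ) / 6)) ≤ 4 / ε * CL * |t| ^ (1/6 + ε) := by
          calc (K : ℝ) * (CL * |t| ^ ((1 : ℝ) / 6)) ≤ (4 / ε * |t| ^ ε) * (CL * |t| ^ ((1 : ℝ) / 6)) :=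
                mul_le_mul_of_nonneg_right hlogK (by positivity)
            _ = 4 / ε * CL * (|t| ^ ε * |t| ^ ((1 : ℝ) / 6)) := by ring
            _ = _ := by rw [hpow2]
        have h2 : (q : ℝ) ≤ q * |t| ^ (1/6 + ε) := by nlinarith
        have h3 := h00
        calc _ ≤ (q : ℝ) + K * (CL * |t| ^ ((1 : ℝ) / 6)) := by
                exact add_le_add h3 le_rfl
          _ ≤ q * |t| ^ (1/6 + ε) + 4 / ε * CL * |t| ^ (1/6 + ε) := add_le_add h2 h1
          _ = _ := by ring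
      calc ‖(ψ (a + 1) : ℂ)‖ * ‖(q : ℂ) ^ (-s)‖ * ‖∑ m ∈ Finset.range (2 ^ K), (((m : ℝ) + α : ℝ) : ℂ) ^ (-s)‖
          ≤ B * 1 * ((q + 4 / ε * CL) * |t| ^ (1/6 + ε)) := by
            gcongr
        _ = _ := by ring
    refine (norm_sum_le _ _).trans ?_
    refine (Finset.sum_le_card_nsmul _ _ _ hinner).trans ?_
    rw [Finset.card_range, nsmul_eq_mul]
    apply le_of_eq
    ring
  have hp2 : ‖(κ : ℂ) * (N : ℂ) ^ (1 - s)‖ ≤ C2 * |t| := by
    rw [norm_mul, Complex.norm_real, Real.norm_eq_abs, Complex.norm_natCast_cpow_of_pos (by omega)]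
    have h1 : (1 - s).re = 1/2 := by rw [Complex.sub_re, hsre, Complex.one_re]; norm_num
    rw [h1]
    have h2 : (N : ℝ) ^ (1/2 : ℝ) ≤ q * |t| := by
      rw [← Real.sqrt_eq_rpow, Real.sqrt_le_left (by positivity), hNr, mul_pow, htsq]
      nlinarith
    calc |κ| * (N : ℝ) ^ (1/2 : ℝ) ≤ |κ| * (q * |t|) := mul_le_mul_of_nonneg_left h2 (abs_nonneg _)
      _ = C2 * |t| := by rw [hC2]; ring
  have hp3 : ‖s * (s - 1) * PLI ψ κ N s‖ ≤ C3 * |t| := by
    rw [norm_mul, norm_mul]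
    have h1 := PLI_norm ψ κ B hB0 hB N hN1 hs0
    rw [hsre] at h1
    have h2 : (N : ℝ) ^ (-(1/2) : ℝ) ≤ 2 / |t| := by
      rw [Real.rpow_neg hNpos.le, ← Real.sqrt_eq_rpow, ← one_div, div_le_div_iff₀ (by positivity) ht0, one_mul]
      have h3 : |t| / 2 ≤ Real.sqrt N := by
        apply Real.le_sqrt_of_sq_le
        rw [div_pow, htsq, hNr]
        have h4 : (2 : ℝ) ^ (K + 1) = 2 * 2 ^ K := by ring
        rw [h4] at hK2
        nlinarith
      linarith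
    calc ‖s‖ * ‖s - 1‖ * ‖PLI ψ κ N s‖ ≤ 2 * t ^ 2 * (B * (2 / |t|) / (1/2)) := by
          refine mul_le_mul hnorm0 (h1.trans ?_) (norm_nonneg _) (by positivity)
          gcongr
      _ = C3 * |t| := by
          rw [← htsq, hC3]
          field_simp
          ring
  have hp1 : ‖(s - 1) * ∑ n ∈ Finset.Icc 1 N, (ψ n : ℂ) * (n : ℂ) ^ (-s)‖ ≤ C1 * |t| ^ (1 + 1/6 + ε) := by
    rw [norm_mul]
    have e : |t| * |t| ^ (1/6 + ε) = |t| ^ (1 + 1/6 + ε) := by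
      rw [show (1 + 1/6 + ε : ℝ) = 1 + (1/6 + ε) by ring, Real.rpow_add ht0 1 (1/6 + ε), Real.rpow_one]
    calc ‖s - 1‖ * ‖∑ n ∈ Finset.Icc 1 N, (ψ n : ℂ) * (n : ℂ) ^ (-s)‖
        ≤ (2 * |t|) * (q * B * (q + 4 / ε * CL) * |t| ^ (1/6 + ε)) :=
          mul_le_mul hnorm1 hsum (norm_nonneg _) (by positivity)
      _ = C1 * (|t| * |t| ^ (1/6 + ε)) := by rw [hC1]; ring
      _ = _ := by rw [e]
  have htle : |t| ≤ |t| ^ (1 + 1/6 + ε) := by
    calc |t| = |t| ^ (1 : ℝ) := (Real.rpow_one _).symm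
      _ ≤ _ := Real.rpow_le_rpow_of_exponent_le ht (by linarith)
  calc _ ≤ ‖(s - 1) * ∑ n ∈ Finset.Icc 1 N, (ψ n : ℂ) * (n : ℂ) ^ (-s)‖ + ‖(κ : ℂ) * (N : ℂ) ^ (1 - s)‖ +
        ‖s * (s - 1) * PLI ψ κ N s‖ := (norm_add_le _ _).trans (add_le_add (norm_add_le _ _) le_rfl)
    _ ≤ C1 * |t| ^ (1 + 1/6 + ε) + C2 * |t| + C3 * |t| := add_le_add (add_le_add hp1 hp2) hp3
    _ ≤ C1 * |t| ^ (1 + 1/6 + ε) + C2 * |t| ^ (1 + 1/6 + ε) + C3 * |t| ^ (1 + 1/6 + ε) := by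
        gcongr
    _ = _ := by ring

end Pool.Agent.H15.SC
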