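import Mathlib

/-!
# SC-32  many separated points in a set of positive measure  (project SC, MP_be4568_nt)

Cells `[T + k h, T + (k+1) h)`, `k < ⌈T/h⌉ + 1`.  The cells that meet `A` cover `A`, each has measure `h`, so at least `μ/h` cells
meet `A` (outer measure is enough: `measure_biUnion_finset_le`).  Drop the last two cells and keep the cells with `k` of the more
frequent parity: at least `μ/(2h) - 2` cells; choose a point of `A` in each.  Two chosen points `x < y` lie in cells `k`, `k' ≥ k+2`, so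
`y ≥ T + (k+2) h > x + h`; and `x + h ≤ 2T`.
-/

set_option autoImplicit false

open MeasureTheory Set

namespace Pool.Agent.H15.SC

theorem cells (A : Set ℝ) (T h μ : ℝ) (hT : 0 < T) (hh : 0 < h) (hA : A ⊆ Icc T (2 * T))
    (hμ : ENNReal.ofReal μ ≤ volume A) : ∃ S : Finset ℝ, μ / (2 * h) - 3 ≤ (S.card : ℝ) ∧
      (∀ x ∈ S, x ∈ A ∧ x + h ≤ 2 * T) ∧ (∀ x ∈ S, ∀ y ∈ S, x < y → x + h < y) := by
  classical
  set idx : ℝ → ℕ := fun x => ⌊(x - T) / h⌋₊ with hidx
  set N : ℕ := ⌊T / h⌋₊ with hN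
  have hlo : ∀ x, T ≤ x → T + (idx x : ℝ) * h ≤ x := by
    intro x hx
    have h1 : ((⌊(x - T) / h⌋₊ : ℕ) : ℝ) ≤ (x - T) / h :=
      Nat.floor_le (div_nonneg (by linarith) hh.le)
    have h2 : ((⌊(x - T) / h⌋₊ : ℕ) : ℝ) * h ≤ x - T := by
      rwa [le_div_iff₀ hh] at h1
    simp only [hidx]
    linarith
  have hhi : ∀ x, x < T + ((idx x : ℝ) + 1) * h := by
    intro x
    have h1 : (x - T) / h < ((⌊(x - T) / h⌋₊ : ℕ) : ℝ) + 1 := Nat.lt_floor_add_one _
    have h2 : x - T < (((⌊(x - T) / h⌋₊ : ℕ) : ℝ) + 1) * h := by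
      rwa [div_lt_iff₀ hh] at h1
    simp only [hidx]
    linarith
  have hidxN : ∀ x ∈ A, idx x ≤ N := by
    intro x hx
    apply Nat.floor_le_floor
    have := (hA hx).2
    exact div_le_div_of_nonneg_right (by linarith) hh.le
  have hNT : (N : ℝ) * h ≤ T := by
    have h1 : ((⌊T / h⌋₊ : ℕ) : ℝ) ≤ T / h := Nat.floor_le (div_nonneg hT.le hh.le)
    rwa [le_div_iff₀ hh] at h1
  set K : Finset ℕ := (Finset.range (N + 1)).filter (fun k => ∃ x ∈ A, idx x = k) with hK
  have hcov : A ⊆ ⋃ k ∈ K, Ico (T + (k : ℝ) * h) (T + ((k : ℝ) + 1) * h) := by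
    intro x hx
    simp only [mem_iUnion, exists_prop]
    refine ⟨idx x, ?_, hlo x (hA hx).1, hhi x⟩
    rw [hK, Finset.mem_filter, Finset.mem_range]
    exact ⟨Nat.lt_succ_of_le (hidxN x hx), x, hx, rfl⟩
  have hvol : ENNReal.ofReal μ ≤ ENNReal.ofReal ((K.card : ℝ) * h) := by
    refine hμ.trans ((measure_mono hcov).trans ((measure_biUnion_finset_le K _).trans ?_))
    have hs : ∀ k ∈ K, volume (Ico (T + (k : ℝ) * h) (T + ((k : ℝ) + 1) * h))
        = ENNReal.ofReal h := by
      intro k _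
      rw [Real.volume_Ico]
      congr 1
      ring
    rw [Finset.sum_congr rfl hs, Finset.sum_const, nsmul_eq_mul,
      ENNReal.ofReal_mul (Nat.cast_nonneg _), ENNReal.ofReal_natCast]
  have hcard : μ ≤ (K.card : ℝ) * h := by
    exact (ENNReal.ofReal_le_ofReal_iff (mul_nonneg (Nat.cast_nonneg _) hh.le)).1 hvol
  set K' : Finset ℕ := K.filter (fun k => k + 2 ≤ N) with hK'
  have hK'card : K.card ≤ K'.card + 2 := by
    have hsub : K ⊆ K' ∪ ({N - 1, N} : Finset ℕ) := by
      intro k hk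
      have hkN : k < N + 1 := by
        rw [hK, Finset.mem_filter, Finset.mem_range] at hk
        exact hk.1
      by_cases h2 : k + 2 ≤ N
      · exact Finset.mem_union_left _ (Finset.mem_filter.2 ⟨hk, h2⟩)
      · apply Finset.mem_union_right
        rw [Finset.mem_insert, Finset.mem_singleton]
        omega
    calc K.card ≤ (K' ∪ ({N - 1, N} : Finset ℕ)).card := Finset.card_le_card hsub
      _ ≤ K'.card + ({N - 1, N} : Finset ℕ).card := Finset.card_union_le _ _
      _ ≤ K'.card + 2 := by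
        have := Finset.card_le_two (a := N - 1) (b := N)
        omega
  -- the two parity classes
  have hpar : ∃ r : ℕ, K'.card ≤ 2 * (K'.filter (fun k => k % 2 = r)).card := by
    have hsum : K'.card = (K'.filter (fun k => k % 2 = 0)).card
        + (K'.filter (fun k => k % 2 = 1)).card := by
      rw [← Finset.card_filter_add_card_filter_not (s := K') (fun k => k % 2 = 0)]
      congr 2
      apply Finset.filter_congr
      intro k _
      omega
    by_cases hc : (K'.filter (fun k => k % 2 = 0)).card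
        ≤ (K'.filter (fun k => k % 2 = 1)).card
    · exact ⟨1, by omega⟩
    · exact ⟨0, by omega⟩
  obtain ⟨r, hr⟩ := hpar
  set P : Finset ℕ := K'.filter (fun k => k % 2 = r) with hP
  have hPA : ∀ k ∈ P, ∃ x ∈ A, idx x = k := by
    intro k hk
    have h1 : k ∈ K' := (Finset.mem_filter.1 hk).1
    have h2 : k ∈ K := (Finset.mem_filter.1 h1).1
    exact (Finset.mem_filter.1 h2).2
  have hPN : ∀ k ∈ P, k + 2 ≤ N := fun k hk =>
    (Finset.mem_filter.1 (Finset.mem_filter.1 hk).1).2
  choose! f hfA hfi using hPA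
  refine ⟨P.image f, ?_, ?_, ?_⟩
  · have hinj : Set.InjOn f (P : Set ℕ) := by
      intro a ha b hb hab
      rw [← hfi a (Finset.mem_coe.1 ha), ← hfi b (Finset.mem_coe.1 hb), hab]
    rw [Finset.card_image_of_injOn hinj]
    have h1 : K.card ≤ 2 * P.card + 2 := by omega
    have h2 : (K.card : ℝ) ≤ 2 * (P.card : ℝ) + 2 := by exact_mod_cast h1
    have h3 : μ ≤ (2 * (P.card : ℝ) + 2) * h :=
      hcard.trans (mul_le_mul_of_nonneg_right h2 hh.le)
    have h4 : μ / (2 * h) ≤ (P.card : ℝ) + 1 := by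
      rw [div_le_iff₀ (by positivity)]
      linarith
    linarith
  · intro x hx
    obtain ⟨k, hk, rfl⟩ := Finset.mem_image.1 hx
    refine ⟨hfA k hk, ?_⟩
    have h1 := hhi (f k)
    rw [hfi k hk] at h1
    have h2 : ((k : ℝ) + 2) ≤ N := by exact_mod_cast hPN k hk
    have h3 : ((k : ℝ) + 2) * h ≤ (N : ℝ) * h := mul_le_mul_of_nonneg_right h2 hh.le
    linarith
  · intro x hx y hy hxy
    obtain ⟨k, hk, rfl⟩ := Finset.mem_image.1 hx
    obtain ⟨l, hl, rfl⟩ := Finset.mem_image.1 hy
    have hne : k ≠ l := by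
      rintro rfl
      exact lt_irrefl _ hxy
    have hle : k ≤ l := by
      rw [← hfi k hk, ← hfi l hl]
      exact Nat.floor_le_floor (div_le_div_of_nonneg_right (by linarith) hh.le)
    have hkr : k % 2 = r := (Finset.mem_filter.1 hk).2
    have hlr : l % 2 = r := (Finset.mem_filter.1 hl).2
    have h2 : k + 2 ≤ l := by omega
    have h3 : ((k : ℝ) + 2) ≤ l := by exact_mod_cast h2
    have h4 : ((k : ℝ) + 2) * h ≤ (l : ℝ) * h := mul_le_mul_of_nonneg_right h3 hh.le
    have h5 := hhi (f k)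
    rw [hfi k hk] at h5
    have h6 := hlo (f l) (hA (hfA l hl)).1
    rw [hfi l hl] at h6
    linarith

end Pool.Agent.H15.SC
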