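import Pool.Agent.H15.SC.Defs
import Pool.Agent.H15.SC.Cells

/-!
# Assembly: property `(A_δ)` from the positive measure set and the sup control  (project SC, MP_be4568_nt)
-/

set_option autoImplicit false

open Filter Topology MeasureTheory Set

namespace Pool.Agent.H15.SC

/-- `T^(-ρ) → 0` in usable form -/
theorem pow_small (ρ ε : ℝ) (hρ : 0 < ρ) (hε : 0 < ε) : ∃ T₀ : ℝ, 1 ≤ T₀ ∧ ∀ T : ℝ, T₀ ≤ T → T ^ (-ρ) ≤ ε := by
  have h := tendsto_rpow_neg_atTop hρ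
  have h2 : ∀ᶠ T : ℝ in atTop, T ^ (-ρ) < ε := h.eventually (gt_mem_nhds hε)
  obtain ⟨T₀, hT₀⟩ := eventually_atTop.mp h2
  exact ⟨max 1 T₀, le_max_left _ _, fun T hT => (hT₀ T ((le_max_right _ _).trans hT)).le⟩

theorem propA_of (E₁ E₂ : ℝ → ℝ) (β₁ β₂ σ δ : ℝ) (hβ₁ : 0 < β₁) (hβ₁' : β₁ < 1) (hβ₂ : 0 < β₂) (hβ₂' : β₂ < 1)
    (hσ : σ = β₁ + β₂) (hδ1 : δ < 1)
    (hs : ∃ c₀ K c₁ T₀ : ℝ, 0 < c₀ ∧ 0 < K ∧ 0 < c₁ ∧ 1 ≤ T₀ ∧ ∀ T : ℝ, T₀ ≤ T → ∀ ε : ℝ, (ε = 1 ∨ ε = -1) →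
      ENNReal.ofReal (c₁ * T) ≤
        volume {x : ℝ | x ∈ Icc T (2 * T) ∧ c₀ ≤ ε * (E₁ x / x ^ β₁ * (E₂ x / x ^ β₂)) ∧
          |E₁ x / x ^ β₁| ≤ K ∧ |E₂ x / x ^ β₂| ≤ K})
    (h₁ : ∃ ρ : ℝ, 0 < ρ ∧ ∃ T₀ : ℝ, 1 ≤ T₀ ∧ ∀ T : ℝ, T₀ ≤ T →
      volume {x : ℝ | x ∈ Icc T (2 * T) ∧ ∃ u ∈ Icc (0 : ℝ) (T ^ δ), T ^ (β₁ - ρ) < |E₁ (x + u) - E₁ x|} ≤
        ENNReal.ofReal (T ^ (1 - ρ)))
    (h₂ : ∃ ρ : ℝ, 0 < ρ ∧ ∃ T₀ : ℝ, 1 ≤ T₀ ∧ ∀ T : ℝ, T₀ ≤ T →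
      volume {x : ℝ | x ∈ Icc T (2 * T) ∧ ∃ u ∈ Icc (0 : ℝ) (T ^ δ), T ^ (β₂ - ρ) < |E₂ (x + u) - E₂ x|} ≤
        ENNReal.ofReal (T ^ (1 - ρ))) :
    PropA (fun x => E₁ x * E₂ x) σ δ := by
  obtain ⟨c₀, K, c₁, T₁, hc₀, hK, hc₁, hT₁, hs⟩ := hs
  obtain ⟨ρ₁, hρ₁, T₂, hT₂, h₁⟩ := h₁
  obtain ⟨ρ₂, hρ₂, T₃, hT₃, h₂⟩ := h₂
  -- smallness
  set e₁ : ℝ := min (c₁ / 4) (min (c₀ / (32 * K)) (min (c₀ / 8) 1)) with he₁
  have he₁0 : 0 < e₁ := by positivity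
  have he₁a : e₁ ≤ c₁ / 4 := min_le_left _ _
  have he₁b : e₁ ≤ c₀ / (32 * K) := (min_le_right _ _).trans (min_le_left _ _)
  have he₁c : e₁ ≤ c₀ / 8 := (min_le_right _ _).trans ((min_le_right _ _).trans (min_le_left _ _))
  have he₁d : e₁ ≤ 1 := (min_le_right _ _).trans ((min_le_right _ _).trans (min_le_right _ _))
  obtain ⟨T₄, hT₄, h4⟩ := pow_small ρ₁ e₁ hρ₁ he₁0
  obtain ⟨T₅, hT₅, h5⟩ := pow_small ρ₂ e₁ hρ₂ he₁0
  set c₃ : ℝ := min 1 (c₁ / 16) with hc₃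
  have hc₃0 : 0 < c₃ := by positivity
  have hc₃1 : c₃ ≤ 1 := min_le_left _ _
  have hc₃2 : c₃ ≤ c₁ / 16 := min_le_right _ _
  refine ⟨c₀ / 2, c₃, max T₁ (max T₂ (max T₃ (max T₄ T₅))), by positivity, hc₃0, by positivity, ?_⟩
  intro T hT ε hε
  have hTT₁ : T₁ ≤ T := (le_max_left _ _).trans hT
  have hTT₂ : T₂ ≤ T := ((le_max_left _ _).trans (le_max_right _ _)).trans hT
  have hTT₃ : T₃ ≤ T := ((le_max_left _ _).trans ((le_max_right _ _).trans (le_max_right _ _))).trans hT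
  have hTT₄ : T₄ ≤ T :=
    ((le_max_left _ _).trans ((le_max_right _ _).trans ((le_max_right _ _).trans (le_max_right _ _)))).trans hT
  have hTT₅ : T₅ ≤ T :=
    ((le_max_right _ _).trans ((le_max_right _ _).trans ((le_max_right _ _).trans (le_max_right _ _)))).trans hT
  have hT1 : 1 ≤ T := hT₁.trans hTT₁
  have hT0 : 0 < T := by linarith
  set G : Set ℝ := {x : ℝ | x ∈ Icc T (2 * T) ∧ c₀ ≤ ε * (E₁ x / x ^ β₁ * (E₂ x / x ^ β₂)) ∧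
          |E₁ x / x ^ β₁| ≤ K ∧ |E₂ x / x ^ β₂| ≤ K} with hG
  set B₁ : Set ℝ :=
    {x : ℝ | x ∈ Icc T (2 * T) ∧ ∃ u ∈ Icc (0 : ℝ) (T ^ δ), T ^ (β₁ - ρ₁) < |E₁ (x + u) - E₁ x|} with hB₁
  set B₂ : Set ℝ :=
    {x : ℝ | x ∈ Icc T (2 * T) ∧ ∃ u ∈ Icc (0 : ℝ) (T ^ δ), T ^ (β₂ - ρ₂) < |E₂ (x + u) - E₂ x|} with hB₂
  have hGv := hs T hTT₁ ε hε
  have hB₁v := h₁ T hTT₂
  have hB₂v := h₂ T hTT₃
  rw [← hG] at hGv
  rw [← hB₁] at hB₁v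
  rw [← hB₂] at hB₂v
  have hsm : ∀ ρ : ℝ, T ^ (-ρ) ≤ e₁ → T ^ (1 - ρ) ≤ c₁ / 4 * T := by
    intro ρ hρ
    have e : T ^ (1 - ρ) = T * T ^ (-ρ) := by
      rw [sub_eq_add_neg, Real.rpow_add hT0, Real.rpow_one]
    rw [e, mul_comm]
    exact mul_le_mul_of_nonneg_right (hρ.trans he₁a) hT0.le
  set A : Set ℝ := G \ (B₁ ∪ B₂) with hA
  have hAv : ENNReal.ofReal (c₁ / 2 * T) ≤ volume A := by
    have h1 : volume G ≤ volume A + volume (B₁ ∪ B₂) := by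
      refine (measure_mono ?_).trans (measure_union_le A (B₁ ∪ B₂))
      intro x hx
      by_cases h : x ∈ B₁ ∪ B₂
      · exact Or.inr h
      · exact Or.inl ⟨hx, h⟩
    have h2 : volume (B₁ ∪ B₂) ≤ ENNReal.ofReal (c₁ / 2 * T) := by
      refine (measure_union_le _ _).trans ((add_le_add hB₁v hB₂v).trans ?_)
      rw [← ENNReal.ofReal_add (by positivity) (by positivity)]
      apply ENNReal.ofReal_le_ofReal
      have a1 := hsm ρ₁ (h4 T hTT₄)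
      have a2 := hsm ρ₂ (h5 T hTT₅)
      linarith
    have h3 : ENNReal.ofReal (c₁ / 2 * T) + ENNReal.ofReal (c₁ / 2 * T) ≤ volume A + ENNReal.ofReal (c₁ / 2 * T) := by
      rw [← ENNReal.ofReal_add (by positivity) (by positivity)]
      have e : c₁ / 2 * T + c₁ / 2 * T = c₁ * T := by ring
      rw [e]
      exact hGv.trans (h1.trans (add_le_add_right h2 _))
    exact (ENNReal.add_le_add_iff_right ENNReal.ofReal_ne_top).mp h3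
  set h : ℝ := c₃ * T ^ δ with hh
  have hTδ : 0 < T ^ δ := Real.rpow_pos_of_pos hT0 _
  have hh0 : 0 < h := by positivity
  have hAsub : A ⊆ Icc T (2 * T) := fun x hx => hx.1.1
  obtain ⟨S, hScard, hS1, hS2⟩ := cells A T h (c₁ / 2 * T) hT0 hh0 hAsub hAv
  -- the pointwise estimate
  have hT1β : 1 ≤ T := hT1
  have main : ∀ x ∈ A, ∀ u ∈ Icc (0 : ℝ) h, c₀ / 2 * T ^ σ < ε * (E₁ (x + u) * E₂ (x + u)) := by
    intro x hx u hu
    obtain ⟨⟨hxI, hx1, hx2, hx3⟩, hxB⟩ := hx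
    have hx0 : 0 < x := lt_of_lt_of_le hT0 hxI.1
    have hu' : u ∈ Icc (0 : ℝ) (T ^ δ) := ⟨hu.1, hu.2.trans (by
      rw [hh]
      calc c₃ * T ^ δ ≤ 1 * T ^ δ := mul_le_mul_of_nonneg_right hc₃1 hTδ.le
        _ = T ^ δ := one_mul _)⟩
    have d1 : |E₁ (x + u) - E₁ x| ≤ T ^ (β₁ - ρ₁) := by
      by_contra hcon
      push Not at hcon
      exact hxB (Or.inl ⟨hxI, u, hu', hcon⟩)
    have d2 : |E₂ (x + u) - E₂ x| ≤ T ^ (β₂ - ρ₂) := by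
      by_contra hcon
      push Not at hcon
      exact hxB (Or.inr ⟨hxI, u, hu', hcon⟩)
    have d1' : |E₁ (x + u) - E₁ x| ≤ e₁ * T ^ β₁ := by
      refine d1.trans ?_
      rw [sub_eq_add_neg, Real.rpow_add hT0, mul_comm]
      exact mul_le_mul_of_nonneg_right (h4 T hTT₄) (Real.rpow_nonneg hT0.le _)
    have d2' : |E₂ (x + u) - E₂ x| ≤ e₁ * T ^ β₂ := by
      refine d2.trans ?_
      rw [sub_eq_add_neg, Real.rpow_add hT0, mul_comm]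
      exact mul_le_mul_of_nonneg_right (h5 T hTT₅) (Real.rpow_nonneg hT0.le _)
    have hxβ : ∀ β : ℝ, 0 < β → β < 1 → T ^ β ≤ x ^ β ∧ x ^ β ≤ 2 * T ^ β := by
      intro β hβ hβ1
      refine ⟨Real.rpow_le_rpow hT0.le hxI.1 hβ.le, ?_⟩
      have h1 : x ^ β ≤ (2 * T) ^ β := Real.rpow_le_rpow hx0.le hxI.2 hβ.le
      rw [Real.mul_rpow (by norm_num) hT0.le] at h1
      refine h1.trans (mul_le_mul_of_nonneg_right ?_ (Real.rpow_nonneg hT0.le _))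
      calc (2 : ℝ) ^ β ≤ 2 ^ (1 : ℝ) := Real.rpow_le_rpow_of_exponent_le (by norm_num) hβ1.le
        _ = 2 := Real.rpow_one _
    obtain ⟨b1, b1'⟩ := hxβ β₁ hβ₁ hβ₁'
    obtain ⟨b2, b2'⟩ := hxβ β₂ hβ₂ hβ₂'
    have t1 : 0 < T ^ β₁ := Real.rpow_pos_of_pos hT0 _
    have t2 : 0 < T ^ β₂ := Real.rpow_pos_of_pos hT0 _
    have x1 : 0 < x ^ β₁ := Real.rpow_pos_of_pos hx0 _
    have x2 : 0 < x ^ β₂ := Real.rpow_pos_of_pos hx0 _
    have m1 : |E₁ x| ≤ 2 * K * T ^ β₁ := by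
      rw [abs_div, abs_of_pos x1, div_le_iff₀ x1] at hx2
      calc |E₁ x| ≤ K * x ^ β₁ := hx2
        _ ≤ K * (2 * T ^ β₁) := mul_le_mul_of_nonneg_left b1' hK.le
        _ = _ := by ring
    have m2 : |E₂ x| ≤ 2 * K * T ^ β₂ := by
      rw [abs_div, abs_of_pos x2, div_le_iff₀ x2] at hx3
      calc |E₂ x| ≤ K * x ^ β₂ := hx3
        _ ≤ K * (2 * T ^ β₂) := mul_le_mul_of_nonneg_left b2' hK.le
        _ = _ := by ring
    have hσT : T ^ σ = T ^ β₁ * T ^ β₂ := by rw [hσ, Real.rpow_add hT0]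
    -- lower bound at x
    have low : c₀ * (T ^ β₁ * T ^ β₂) ≤ ε * (E₁ x * E₂ x) := by
      have e : E₁ x / x ^ β₁ * (E₂ x / x ^ β₂) = (E₁ x * E₂ x) / (x ^ β₁ * x ^ β₂) := by
        rw [div_mul_div_comm]
      rw [e, ← mul_div_assoc, le_div_iff₀ (by positivity)] at hx1
      refine le_trans ?_ hx1
      apply mul_le_mul_of_nonneg_left _ hc₀.le
      exact mul_le_mul b1 b2 t2.le x1.le
    -- the difference
    have dif : |E₁ (x + u) * E₂ (x + u) - E₁ x * E₂ x| ≤ (4 * K * e₁ + e₁ * e₁) * (T ^ β₁ * T ^ β₂) := by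
      have e : E₁ (x + u) * E₂ (x + u) - E₁ x * E₂ x
          = E₁ x * (E₂ (x + u) - E₂ x) + (E₁ (x + u) - E₁ x) * E₂ x
            + (E₁ (x + u) - E₁ x) * (E₂ (x + u) - E₂ x) := by ring
      rw [e]
      refine (abs_add_le _ _).trans ?_
      refine (add_le_add_left (abs_add_le _ _) _).trans ?_
      rw [abs_mul, abs_mul, abs_mul]
      have p1 : |E₁ x| * |E₂ (x + u) - E₂ x| ≤ 2 * K * T ^ β₁ * (e₁ * T ^ β₂) :=
        mul_le_mul m1 d2' (abs_nonneg _) (by positivity)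
      have p2 : |E₁ (x + u) - E₁ x| * |E₂ x| ≤ e₁ * T ^ β₁ * (2 * K * T ^ β₂) :=
        mul_le_mul d1' m2 (abs_nonneg _) (by positivity)
      have p3 : |E₁ (x + u) - E₁ x| * |E₂ (x + u) - E₂ x| ≤ e₁ * T ^ β₁ * (e₁ * T ^ β₂) :=
        mul_le_mul d1' d2' (abs_nonneg _) (by positivity)
      nlinarith [p1, p2, p3]
    have hcoef : 4 * K * e₁ + e₁ * e₁ < c₀ / 2 := by
      have q1 : K * e₁ ≤ c₀ / 32 := by
        calc K * e₁ ≤ K * (c₀ / (32 * K)) := mul_le_mul_of_nonneg_left he₁b hK.le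
          _ = c₀ / 32 := by field_simp
      have q2 : e₁ * e₁ ≤ c₀ / 8 := by
        calc e₁ * e₁ ≤ e₁ * 1 := mul_le_mul_of_nonneg_left he₁d he₁0.le
          _ ≤ c₀ / 8 := by rw [mul_one]; exact he₁c
      linarith
    have hεabs : |ε| = 1 := by rcases hε with rfl | rfl <;> simp
    have hfin : ε * (E₁ (x + u) * E₂ (x + u)) ≥ ε * (E₁ x * E₂ x)
        - |E₁ (x + u) * E₂ (x + u) - E₁ x * E₂ x| := by
      have q : |ε * (E₁ (x + u) * E₂ (x + u) - E₁ x * E₂ x)| = |E₁ (x + u) * E₂ (x + u) - E₁ x * E₂ x| := by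
        rw [abs_mul, hεabs, one_mul]
      have q2 := neg_abs_le (ε * (E₁ (x + u) * E₂ (x + u) - E₁ x * E₂ x))
      rw [q] at q2
      have q3 : ε * (E₁ (x + u) * E₂ (x + u) - E₁ x * E₂ x)
          = ε * (E₁ (x + u) * E₂ (x + u)) - ε * (E₁ x * E₂ x) := by ring
      linarith
    have hpos : 0 < T ^ β₁ * T ^ β₂ := by positivity
    have q5 : (4 * K * e₁ + e₁ * e₁) * (T ^ β₁ * T ^ β₂) < c₀ / 2 * (T ^ β₁ * T ^ β₂) :=
      mul_lt_mul_of_pos_right hcoef hpos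
    rw [hσT]
    linarith
  -- the family of intervals
  have hinj : Function.Injective (fun x : ℝ => ((x, x + h) : ℝ × ℝ)) := by
    intro x y hxy
    exact (Prod.mk.inj hxy).1
  refine ⟨S.image (fun x : ℝ => ((x, x + h) : ℝ × ℝ)), ?_, ?_, ?_⟩
  · rw [Finset.card_image_of_injective _ hinj]
    refine le_trans ?_ hScard
    have hTd : 1 ≤ T ^ (1 - δ) := Real.one_le_rpow hT1 (by linarith)
    have e : c₁ / 2 * T / (2 * h) = c₁ / (4 * c₃) * T ^ (1 - δ) := by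
      rw [hh, Real.rpow_sub hT0, Real.rpow_one]
      field_simp
      ring
    rw [e]
    have q : 4 ≤ c₁ / (4 * c₃) := by
      rw [le_div_iff₀ (by positivity)]
      linarith
    have q2 : 4 * T ^ (1 - δ) ≤ c₁ / (4 * c₃) * T ^ (1 - δ) := mul_le_mul_of_nonneg_right q (by linarith)
    linarith
  · intro p hp
    obtain ⟨x, hxS, rfl⟩ := Finset.mem_image.mp hp
    obtain ⟨hxA, hx2⟩ := hS1 x hxS
    refine ⟨(hAsub hxA).1, hx2, ?_, ?_⟩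
    · have : x + h - x = h := by ring
      simp only
      rw [this]
    · intro y hy
      simp only at hy
      have := main x hxA (y - x) ⟨by linarith [hy.1], by linarith [hy.2]⟩
      have e : x + (y - x) = y := by ring
      rw [e] at this
      exact this
  · intro p hp q hq hpq
    obtain ⟨x, hxS, rfl⟩ := Finset.mem_image.mp hp
    obtain ⟨y, hyS, rfl⟩ := Finset.mem_image.mp hq
    have hxy : x ≠ y := by
      rintro rfl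
      exact hpq rfl
    simp only
    rw [Set.disjoint_left]
    intro z hz1 hz2
    rcases lt_or_gt_of_ne hxy with hlt | hlt
    · have := hS2 x hxS y hyS hlt
      linarith [hz1.2, hz2.1]
    · have := hS2 y hyS x hxS hlt
      linarith [hz2.2, hz1.1]

end Pool.Agent.H15.SC
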