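import Pool.Agent.H15.SC.Stir

/-!
# SC-08  the factor `chi`: analyticity, size, functional equation  (project SC, MP_be4568_nt)

`chi_diff`: `Γ(lam (1-s) + conj mu)` has positive real part of the argument for `re s < 1`; `1/Γ` is entire
(`Complex.differentiable_one_div_Gamma`).
`chi_bound`: for `im s ≥ t0` insert `gamma_lin` for all factors (the numerator with `a = -lam`, `b = lam + conj mu`,
the denominator with `a = lam`, `b = mu`) and take norms; for `im s ≤ -t0` use
`conj (chi (conj s)) = ` the same expression with `ω, mu` replaced by their conjugates (prove the bound for general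
parameters); for `|im s| ≤ t0` compactness.
`conj_H`: `H (conj s) = conj (H s)` (both entire, equal for real `s > 1`).
`F_left`: `H(s) (-s)^m = (s-1)^m chi(s) H(1-s)` holds on `0 < re s < 1` by `func` and `conj_H`, hence on `re s < 1`
(identity theorem), and for `re s < 0` `H(1-s) = (-s)^m L(1-s)`.
-/

set_option autoImplicit false

open Complex Filter Topology MeasureTheory Set
open scoped ComplexConjugate

namespace Pool.Agent.H15.SC

variable {D : SelData} {d : ℝ}

theorem chid_summ (h : IsSel D d) {s : ℂ} (hs : 1 < s.re) :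
    LSeriesSummable (fun n => (D.f n : ℂ)) s := by
  obtain ⟨C, hC⟩ := h.ram ((s.re - 1) / 2) (by linarith)
  refine LSeriesSummable_of_le_const_mul_rpow (x := 1 + (s.re - 1) / 2) (by linarith) ⟨C, ?_⟩
  intro n hn
  have := hC n (Nat.one_le_iff_ne_zero.2 hn)
  simpa using this

theorem chid_conj_L (D : SelData) (s : ℂ) : D.L (conj s) = conj (D.L s) := by
  unfold SelData.L LSeries
  rw [conj_tsum]
  refine tsum_congr fun n => ?_
  rcases eq_or_ne n 0 with rfl | hn
  · simp
  · rw [LSeries.term_of_ne_zero hn, LSeries.term_of_ne_zero hn, map_div₀, conj_ofReal]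
    congr 1
    rw [cpow_conj _ _ (by rw [natCast_arg]; exact Real.pi_pos.ne)]
    simp

theorem chid_H_conj_diff (h : IsSel D d) : Differentiable ℂ (fun s => conj (D.H (conj s))) := by
  intro s
  have h1 : DifferentiableAt ℂ D.H (conj s) := h.entire _
  have h2 := (differentiableAt_conj_conj_iff (f := D.H) (x := s)).2 h1
  exact h2

theorem conj_H (h : IsSel D d) (s : ℂ) : D.H (conj s) = conj (D.H s) := by
  have key : (fun s => conj (D.H (conj s))) = D.H := by
    refine AnalyticOnNhd.eq_of_eventuallyEq (𝕜 := ℂ) (z₀ := (2 : ℂ)) ?_ ?_ ?_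
    · intro z _; exact (chid_H_conj_diff h).analyticAt z
    · intro z _; exact h.entire.analyticAt z
    · have ho : {s : ℂ | 1 < s.re} ∈ 𝓝 (2 : ℂ) :=
        (isOpen_lt continuous_const continuous_re).mem_nhds (by simp)
      filter_upwards [ho] with s hs
      have hs' : 1 < (conj s).re := by simpa using hs
      rw [h.series _ hs', h.series _ hs]
      have := chid_conj_L D s
      unfold SelData.L at this
      rw [this]
      simp
  have := congrFun key s
  rw [← this]; simp

theorem chid_L_ne (h : IsSel D d) : ∃ x : ℝ, 1 < x ∧ D.L x ≠ 0 := by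
  have ha : LSeries.abscissaOfAbsConv (fun n => (D.f n : ℂ)) < ⊤ := by
    refine lt_of_le_of_lt (LSeries.abscissaOfAbsConv_le_of_forall_lt_LSeriesSummable (x := 1) ?_)
      (EReal.coe_lt_top 1)
    intro y hy
    exact chid_summ h (by simpa using hy)
  have ht := LSeries.tendsto_atTop ha
  simp only [h.one] at ht
  have h1 : ∀ᶠ x : ℝ in atTop, LSeries (fun n => (D.f n : ℂ)) x ≠ 0 :=
    ht.eventually_ne (by simp)
  obtain ⟨x, hx1, hx2⟩ := (h1.and (eventually_gt_atTop 1)).exists
  exact ⟨x, hx2, hx1⟩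

theorem chid_half_open : IsOpen {s : ℂ | s.re < 1} := isOpen_lt continuous_re continuous_const

theorem chid_half_conn : IsPreconnected {s : ℂ | s.re < 1} :=
  (convex_halfSpace_re_lt 1).isPreconnected

theorem chi_diff (h : IsSel D d) : DifferentiableOn ℂ D.chi {s : ℂ | s.re < 1} := by
  intro s hs
  refine DifferentiableAt.differentiableWithinAt ?_
  have hs : s.re < 1 := hs
  have hQ : (D.Q : ℂ) ≠ 0 := by exact_mod_cast h.Qpos.ne'
  have e : D.chi = fun s : ℂ => D.ω * (D.Q : ℂ) ^ (1 - 2 * s) *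
    ∏ j, (Complex.Gamma ((D.lam j : ℂ) * (1 - s) + conj (D.mu j)) *
      (Complex.Gamma ((D.lam j : ℂ) * s + D.mu j))⁻¹) := by
    funext s; simp only [SelData.chi, div_eq_mul_inv]
  rw [e]
  refine DifferentiableAt.mul (DifferentiableAt.mul (differentiableAt_const _) ?_) ?_
  · exact DifferentiableAt.const_cpow (by fun_prop) (Or.inl hQ)
  · refine DifferentiableAt.fun_finsetProd fun j _ => ?_
    refine DifferentiableAt.mul ?_ ?_
    · refine DifferentiableAt.comp (𝕜 := ℂ) s (g := Complex.Gamma)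
        (f := fun s : ℂ => (D.lam j : ℂ) * (1 - s) + conj (D.mu j)) ?_ (by fun_prop)
      refine differentiableAt_Gamma _ fun m hm => ?_
      have h1 : 0 < ((D.lam j : ℂ) * (1 - s) + conj (D.mu j)).re := by
        simp only [add_re, mul_re, ofReal_re, ofReal_im, sub_re, one_re, conj_re, zero_mul, sub_zero]
        have := mul_pos (h.lampos j) (by linarith : 0 < 1 - s.re)
        have := h.mure j
        linarith
      rw [hm] at h1
      simp at h1
      have : (0 : ℝ) ≤ m := Nat.cast_nonneg m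
      linarith
    · exact DifferentiableAt.comp (𝕜 := ℂ) s (g := fun z => (Complex.Gamma z)⁻¹)
        (f := fun s : ℂ => (D.lam j : ℂ) * s + D.mu j) (differentiable_one_div_Gamma _) (by fun_prop)

/-- `F(s) = chi(s) F(1-s)` in the form without poles -/
theorem H_func (h : IsSel D d) (s : ℂ) (hs : s.re < 1) :
    D.H s * (-s) ^ D.m = (s - 1) ^ D.m * D.chi s * D.H (1 - s) := by
  have key : EqOn (fun s => D.H s * (-s) ^ D.m) (fun s => (s - 1) ^ D.m * D.chi s * D.H (1 - s))
      {s : ℂ | s.re < 1} := by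
    refine AnalyticOnNhd.eqOn_of_preconnected_of_eventuallyEq (𝕜 := ℂ) (z₀ := (1/2 : ℂ)) ?_ ?_
      chid_half_conn (by norm_num) ?_
    · refine DifferentiableOn.analyticOnNhd (fun s _ => ?_) chid_half_open
      exact ((h.entire s).mul (by fun_prop)).differentiableWithinAt
    · refine DifferentiableOn.analyticOnNhd ?_ chid_half_open
      refine DifferentiableOn.mul (DifferentiableOn.mul (by fun_prop) (chi_diff h)) ?_
      exact (h.entire.comp (by fun_prop : Differentiable ℂ fun s : ℂ => 1 - s)).differentiableOn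
    · have ho : {s : ℂ | 0 < s.re ∧ s.re < 1} ∈ 𝓝 (1/2 : ℂ) :=
        ((isOpen_lt continuous_const continuous_re).inter
          (isOpen_lt continuous_re continuous_const)).mem_nhds (by norm_num)
      filter_upwards [ho] with s hs
      obtain ⟨h0, h1⟩ := hs
      have hf := h.func s h0 h1
      have e1 : conj (D.H (1 - conj s)) = D.H (1 - s) := by
        rw [← conj_H h]; simp
      have hs1 : s - 1 ≠ 0 := by
        intro h'; rw [sub_eq_zero] at h'; rw [h'] at h1; simp at h1
      have hs0 : -s ≠ 0 := by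
        intro h'; rw [neg_eq_zero] at h'; rw [h'] at h0; simp at h0
      have hQ : (D.Q : ℂ) ≠ 0 := by exact_mod_cast h.Qpos.ne'
      have hG : (∏ j, Complex.Gamma ((D.lam j : ℂ) * s + D.mu j)) ≠ 0 := by
        refine Finset.prod_ne_zero_iff.2 fun j _ => ?_
        refine Complex.Gamma_ne_zero_of_re_pos ?_
        simp only [add_re, mul_re, ofReal_re, ofReal_im, zero_mul, sub_zero]
        have := mul_pos (h.lampos j) h0
        have := h.mure j
        linarith
      have e2 : conj (D.Phi (1 - conj s)) = (D.Q : ℂ) ^ (1 - s) *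
          (∏ j, Complex.Gamma ((D.lam j : ℂ) * (1 - s) + conj (D.mu j))) *
            (D.H (1 - s) / (-s) ^ D.m) := by
        unfold SelData.Phi SelData.F
        rw [map_mul, map_mul, map_prod, map_div₀, e1]
        have e3 : conj ((D.Q : ℂ) ^ (1 - conj s)) = (D.Q : ℂ) ^ (1 - s) := by
          have h2 : (1 - conj s : ℂ) = conj (1 - s) := by simp
          rw [h2, cpow_conj _ _ (by rw [arg_ofReal_of_nonneg h.Qpos.le]; exact Real.pi_pos.ne)]
          simp
        have e4 : ∀ j, conj (Complex.Gamma ((D.lam j : ℂ) * (1 - conj s) + D.mu j)) =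
            Complex.Gamma ((D.lam j : ℂ) * (1 - s) + conj (D.mu j)) := by
          intro j; rw [← Complex.Gamma_conj]; simp
        have e5 : conj ((1 - conj s - 1) ^ D.m) = (-s) ^ D.m := by
          rw [map_pow]; congr 1; simp
        rw [e3, e5]; simp only [e4]
      rw [e2] at hf
      unfold SelData.Phi SelData.F at hf
      have e6 : D.chi s * ((D.Q : ℂ) ^ s * (∏ j, Complex.Gamma ((D.lam j : ℂ) * s + D.mu j))) =
          D.ω * ((D.Q : ℂ) ^ (1 - s) *
            (∏ j, Complex.Gamma ((D.lam j : ℂ) * (1 - s) + conj (D.mu j)))) := by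
        unfold SelData.chi
        rw [Finset.prod_div_distrib]
        have e7 : (D.Q : ℂ) ^ (1 - s) = (D.Q : ℂ) ^ (1 - 2 * s) * (D.Q : ℂ) ^ s := by
          rw [← cpow_add _ _ hQ]; congr 1; ring
        rw [e7]
        generalize (∏ j, Complex.Gamma ((D.lam j : ℂ) * s + D.mu j)) = P at hG ⊢
        generalize (∏ j, Complex.Gamma ((D.lam j : ℂ) * (1 - s) + conj (D.mu j))) = P'
        field_simp
      have hQs : (D.Q : ℂ) ^ s ≠ 0 := by
        rw [cpow_def_of_ne_zero hQ]; exact Complex.exp_ne_zero _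
      have hm1 : (s - 1) ^ D.m ≠ 0 := pow_ne_zero _ hs1
      have hm0 : (-s) ^ D.m ≠ 0 := pow_ne_zero _ hs0
      have hf' : ((D.Q : ℂ) ^ s * (∏ j, Complex.Gamma ((D.lam j : ℂ) * s + D.mu j))) *
          (D.H s * (-s) ^ D.m) = ((D.Q : ℂ) ^ s * (∏ j, Complex.Gamma ((D.lam j : ℂ) * s + D.mu j))) *
          ((s - 1) ^ D.m * D.chi s * D.H (1 - s)) := by
        have e8 : ((D.Q : ℂ) ^ s * (∏ j, Complex.Gamma ((D.lam j : ℂ) * s + D.mu j))) *
          ((s - 1) ^ D.m * D.chi s * D.H (1 - s)) = (s - 1) ^ D.m * D.H (1 - s) *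
            (D.chi s * ((D.Q : ℂ) ^ s * (∏ j, Complex.Gamma ((D.lam j : ℂ) * s + D.mu j)))) := by ring
        rw [e8, e6]
        generalize (∏ j, Complex.Gamma ((D.lam j : ℂ) * s + D.mu j)) = P at hf ⊢
        generalize (∏ j, Complex.Gamma ((D.lam j : ℂ) * (1 - s) + conj (D.mu j))) = P' at hf ⊢
        generalize (s - 1) ^ D.m = A at hf hm1 ⊢
        generalize (-s) ^ D.m = B at hf hm0 ⊢
        have e9 : (D.Q : ℂ) ^ s * P * (D.H s / A) * (A * B) =
          D.ω * ((D.Q : ℂ) ^ (1 - s) * P' * (D.H (1 - s) / B)) * (A * B) := by rw [hf]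
        have e10 : (D.Q : ℂ) ^ s * P * (D.H s / A) * (A * B) = (D.Q : ℂ) ^ s * P * (D.H s * B) := by
          field_simp
        have e11 : D.ω * ((D.Q : ℂ) ^ (1 - s) * P' * (D.H (1 - s) / B)) * (A * B) =
            D.ω * ((D.Q : ℂ) ^ (1 - s) * P' * D.H (1 - s)) * A := by
          field_simp
        rw [← e10, e9, e11]; ring
      exact mul_left_cancel₀ (mul_ne_zero hQs hG) hf'
  exact key hs

theorem F_left (h : IsSel D d) (s : ℂ) (hs : s.re < 0) : D.F s = D.chi s * D.L (1 - s) := by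
  have h1 := H_func h s (by linarith)
  have hs1 : s - 1 ≠ 0 := by
    intro h'; rw [sub_eq_zero] at h'; rw [h'] at hs; simp at hs; linarith
  have hs0 : -s ≠ 0 := by
    intro h'; rw [neg_eq_zero] at h'; rw [h'] at hs; simp at hs
  have h2 := h.series (1 - s) (by simp; linarith)
  have hm1 : (s - 1) ^ D.m ≠ 0 := pow_ne_zero _ hs1
  have hm0 : (-s) ^ D.m ≠ 0 := pow_ne_zero _ hs0
  have e : (1 - s - 1 : ℂ) = -s := by ring
  rw [h2, e] at h1
  unfold SelData.F SelData.L
  rw [div_eq_iff hm1]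
  refine mul_right_cancel₀ hm0 ?_
  rw [h1]; ring

theorem conj_chi (h : IsSel D d) (s : ℂ) (hs : s.re < 1) : D.chi (conj s) = conj (D.chi s) := by
  obtain ⟨x, hx1, hx⟩ := chid_L_ne h
  have hcd : DifferentiableOn ℂ (fun s => conj (D.chi (conj s))) {s : ℂ | s.re < 1} := by
    intro z hz
    have hz : z.re < 1 := hz
    have h1 : DifferentiableAt ℂ D.chi (conj z) :=
      (chi_diff h _ (by simpa using hz)).differentiableAt
        (chid_half_open.mem_nhds (by simpa using hz))
    exact ((differentiableAt_conj_conj_iff (f := D.chi) (x := z)).2 h1).differentiableWithinAt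
  have key : EqOn (fun s => conj (D.chi (conj s))) D.chi {s : ℂ | s.re < 1} := by
    refine AnalyticOnNhd.eqOn_of_preconnected_of_eventuallyEq (𝕜 := ℂ) (z₀ := ((1 - x : ℝ) : ℂ)) ?_ ?_
      chid_half_conn (by simp; linarith) ?_
    · exact hcd.analyticOnNhd chid_half_open
    · exact (chi_diff h).analyticOnNhd chid_half_open
    · have hL : D.H (1 - ((1 - x : ℝ) : ℂ)) ≠ 0 := by
        have e : (1 - ((1 - x : ℝ) : ℂ)) = (x : ℂ) := by push_cast; ring
        rw [e, h.series _ (by simpa using hx1)]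
        refine mul_ne_zero (pow_ne_zero _ ?_) hx
        have : ((x - 1 : ℝ) : ℂ) ≠ 0 := by
          rw [Ne, ofReal_eq_zero]; linarith
        simpa using this
      have hc : Continuous fun s : ℂ => D.H (1 - s) :=
        (h.entire.comp (by fun_prop : Differentiable ℂ fun s : ℂ => 1 - s)).continuous
      have ho1 : ∀ᶠ s in 𝓝 ((1 - x : ℝ) : ℂ), D.H (1 - s) ≠ 0 := hc.continuousAt.eventually_ne hL
      have ho2 : {s : ℂ | s.re < 0} ∈ 𝓝 ((1 - x : ℝ) : ℂ) :=
        (isOpen_lt continuous_re continuous_const).mem_nhds (by simp; linarith)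
      filter_upwards [ho1, ho2] with s hs1 hs2
      have hs2 : s.re < 0 := hs2
      have h1 := H_func h s (by linarith)
      have h2 := H_func h (conj s) (by simp; linarith)
      have h3 := congrArg conj h2
      simp only [map_mul, map_pow, map_neg, map_sub, conj_conj, map_one] at h3
      have e1 : conj (D.H (1 - conj s)) = D.H (1 - s) := by
        rw [← conj_H h]; simp
      have e2 : conj (D.H (conj s)) = D.H s := by
        rw [← conj_H h]; simp
      rw [e1, e2, h1] at h3
      have hs1' : s - 1 ≠ 0 := by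
        intro h'; rw [sub_eq_zero] at h'; rw [h'] at hs2; simp at hs2; linarith
      have hm1 : (s - 1) ^ D.m ≠ 0 := pow_ne_zero _ hs1'
      have h4 := mul_right_cancel₀ hs1 h3
      exact (mul_left_cancel₀ hm1 h4).symm
  have h5 := key hs
  simp only at h5
  rw [← h5]; simp

theorem chid_arg (s : ℂ) (hs : 0 < s.im) : |s.im * (2 * s.arg - Real.pi)| ≤ Real.pi * |s.re| ∧
    |2 * s.arg - Real.pi| ≤ Real.pi := by
  have hn : 0 < ‖s‖ := norm_pos_iff.2 (by intro h; rw [h] at hs; simp at hs)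
  have h1 : s.arg = Real.pi / 2 - Real.arcsin (s.re / ‖s‖) := by
    rw [arg_of_im_pos hs, Real.arccos_eq_pi_div_two_sub_arcsin]
  have h2 : 2 * s.arg - Real.pi = -(2 * Real.arcsin (s.re / ‖s‖)) := by rw [h1]; ring
  have him : s.im ≤ ‖s‖ := (le_abs_self _).trans (abs_im_le_norm s)
  have key : ∀ x : ℝ, |x| ≤ 1 → 2 * |Real.arcsin x| ≤ Real.pi * |x| := by
    have base : ∀ x : ℝ, 0 ≤ x → x ≤ 1 → 2 * Real.arcsin x ≤ Real.pi * x := by
      intro x h0 h1
      have ha : 0 ≤ Real.arcsin x := Real.arcsin_nonneg.2 h0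
      have hb : Real.arcsin x ≤ Real.pi / 2 := Real.arcsin_le_pi_div_two x
      have h3 := Real.mul_le_sin ha hb
      rw [Real.sin_arcsin (by linarith) h1] at h3
      have hp := Real.pi_pos
      have h4 : 2 / Real.pi * Real.arcsin x * Real.pi ≤ x * Real.pi :=
        mul_le_mul_of_nonneg_right h3 hp.le
      have h5 : 2 / Real.pi * Real.arcsin x * Real.pi = 2 * Real.arcsin x := by field_simp
      linarith
    intro x hx
    rcases le_total 0 x with h0 | h0
    · rw [abs_of_nonneg h0] at hx ⊢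
      rw [abs_of_nonneg (Real.arcsin_nonneg.2 h0)]
      exact base x h0 hx
    · rw [abs_of_nonpos h0] at hx ⊢
      have h6 : |Real.arcsin x| = Real.arcsin (-x) := by
        rw [Real.arcsin_neg, abs_of_nonpos (Real.arcsin_nonpos.2 h0)]
      rw [h6]
      exact base (-x) (by linarith) hx
  have hx : |s.re / ‖s‖| ≤ 1 := by
    rw [abs_div, abs_of_pos hn]
    exact (div_le_one hn).2 (abs_re_le_norm s)
  have h3 := key _ hx
  have h4 : |2 * s.arg - Real.pi| = 2 * |Real.arcsin (s.re / ‖s‖)| := by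
    rw [h2, abs_neg, abs_mul, abs_of_pos (by norm_num : (0:ℝ) < 2)]
  constructor
  · rw [abs_mul, h4, abs_of_pos hs]
    calc s.im * (2 * |Real.arcsin (s.re / ‖s‖)|) ≤ s.im * (Real.pi * |s.re / ‖s‖|) :=
          mul_le_mul_of_nonneg_left h3 hs.le
      _ = Real.pi * |s.re| * (s.im / ‖s‖) := by
          rw [abs_div, abs_of_pos hn]; ring
      _ ≤ Real.pi * |s.re| * 1 :=
          mul_le_mul_of_nonneg_left ((div_le_one hn).2 him)
            (mul_nonneg Real.pi_pos.le (abs_nonneg _))
      _ = Real.pi * |s.re| := mul_one _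
  · rw [h4]
    refine h3.trans ?_
    calc Real.pi * |s.re / ‖s‖| ≤ Real.pi * 1 := mul_le_mul_of_nonneg_left hx Real.pi_pos.le
      _ = Real.pi := mul_one _

theorem chid_log (s : ℂ) (h1 : |s.re| ≤ 3/4) (h2 : 1 ≤ s.im) :
    |Real.log ‖s‖ - Real.log (1 + s.im)| ≤ Real.log 2 := by
  have hn1 : ‖s‖ ≤ 1 + s.im := by
    refine (norm_le_abs_re_add_abs_im s).trans ?_
    rw [abs_of_pos (by linarith : 0 < s.im)]; linarith
  have hn2 : (1 + s.im) / 2 ≤ ‖s‖ := by
    have : s.im ≤ ‖s‖ := (le_abs_self _).trans (abs_im_le_norm s)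
    linarith
  have hn : 0 < ‖s‖ := by linarith
  have h3 : Real.log ‖s‖ ≤ Real.log (1 + s.im) := Real.log_le_log hn hn1
  have h4 : Real.log ((1 + s.im) / 2) ≤ Real.log ‖s‖ := Real.log_le_log (by linarith) hn2
  rw [Real.log_div (by linarith) (by norm_num)] at h4
  have h5 : 0 < Real.log 2 := Real.log_pos (by norm_num)
  rw [abs_le]; constructor <;> linarith

theorem chid_ratio (a : ℝ) (ha : 0 < a) (b : ℂ) : ∃ C t₀ : ℝ, 0 ≤ C ∧ 1 ≤ t₀ ∧
    ∀ s : ℂ, |s.re| ≤ 3/4 → t₀ ≤ s.im →
      ‖Complex.Gamma ((a : ℂ) * (1 - s) + conj b) / Complex.Gamma ((a : ℂ) * s + b)‖ ≤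
        C * (1 + s.im) ^ (a * (1 - 2 * s.re)) := by
  obtain ⟨C1, t1, hC1, ht1, H1⟩ := gamma_lin (-a) (by linarith) (a + conj b)
  obtain ⟨C2, t2, hC2, ht2, H2⟩ := gamma_lin a ha.ne' b
  refine ⟨Real.exp (a * (5/2) * (|Real.log a| + Real.log 2) + a * Real.pi + |b.im| * Real.pi
    + 2 * a + C1 + C2), max t1 t2, (Real.exp_pos _).le, ht1.trans (le_max_left _ _), ?_⟩
  intro s hs ht
  have hst1 : t1 ≤ s.im := (le_max_left _ _).trans ht
  have hst2 : t2 ≤ s.im := (le_max_right _ _).trans ht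
  have ht1' : 1 ≤ s.im := ht1.trans hst1
  obtain ⟨E1, hE1, e1⟩ := H1 s (by linarith) hst1
  obtain ⟨E2, hE2, e2⟩ := H2 s (by linarith) hst2
  have f1 : ((a : ℂ) * (1 - s) + conj b) = ((-a : ℝ) : ℂ) * s + (a + conj b) := by
    push_cast; ring
  have hsq : Real.sqrt (2 * Real.pi) ≠ 0 := by
    rw [Real.sqrt_ne_zero (by positivity)]; positivity
  rw [f1, e1, e2, if_pos (by linarith : -a < 0), if_neg (by linarith : ¬ a < 0),
    mul_div_mul_left _ _ (by exact_mod_cast hsq), ← Complex.exp_sub, Complex.norm_exp]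
  rw [Real.rpow_def_of_pos (by linarith), ← Real.exp_add]
  refine Real.exp_le_exp.2 ?_
  have hre : ((((-a : ℝ) : ℂ) * s + (a + conj b) - 1 / 2) *
      ((Real.log |(-a)| : ℝ) + Complex.log s - (Real.pi : ℂ) * I) - ((-a : ℝ) : ℂ) * s + E1 -
      (((a : ℂ) * s + b - 1 / 2) * ((Real.log |a| : ℝ) + Complex.log s - 0) - (a : ℂ) * s + E2)).re =
      a * (1 - 2 * s.re) * (Real.log a + Real.log ‖s‖) + a * (s.im * (2 * s.arg - Real.pi)) +
        b.im * (2 * s.arg - Real.pi) + 2 * a * s.re + E1.re - E2.re := by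
    rw [abs_neg, abs_of_pos ha]
    simp only [sub_re, add_re, mul_re, add_im, sub_im, mul_im, ofReal_re, ofReal_im, conj_re,
      conj_im, one_re, one_im, div_re, div_im, log_re, log_im, I_re, I_im, zero_re, zero_im,
      Complex.re_ofNat, Complex.im_ofNat, Complex.normSq_ofNat]
    ring
  rw [hre]
  obtain ⟨g1, g2⟩ := chid_arg s (by linarith)
  have g3 := chid_log s hs ht1'
  have g4 : E1.re ≤ C1 := (le_abs_self _).trans ((abs_re_le_norm _).trans (hE1.trans
    (div_le_self hC1 ht1')))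
  have g5 : -E2.re ≤ C2 := (neg_le_abs _).trans ((abs_re_le_norm _).trans (hE2.trans
    (div_le_self hC2 ht1')))
  have g6 : a * (s.im * (2 * s.arg - Real.pi)) ≤ a * Real.pi := by
    refine mul_le_mul_of_nonneg_left ((le_abs_self _).trans (g1.trans ?_)) ha.le
    nlinarith [Real.pi_pos]
  have g7 : b.im * (2 * s.arg - Real.pi) ≤ |b.im| * Real.pi := by
    refine (le_abs_self _).trans ?_
    rw [abs_mul]
    exact mul_le_mul_of_nonneg_left g2 (abs_nonneg _)
  have g8 : 2 * a * s.re ≤ 2 * a := by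
    have := (abs_le.1 hs).2
    nlinarith
  have g9 : a * (1 - 2 * s.re) * (Real.log a + Real.log ‖s‖) ≤
      a * (5/2) * (|Real.log a| + Real.log 2) + Real.log (1 + s.im) * (a * (1 - 2 * s.re)) := by
    have e : a * (1 - 2 * s.re) * (Real.log a + Real.log ‖s‖) =
        a * ((1 - 2 * s.re) * (Real.log a + (Real.log ‖s‖ - Real.log (1 + s.im)))) +
          Real.log (1 + s.im) * (a * (1 - 2 * s.re)) := by ring
    rw [e]
    have h5 : (1 - 2 * s.re) * (Real.log a + (Real.log ‖s‖ - Real.log (1 + s.im))) ≤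
        5/2 * (|Real.log a| + Real.log 2) := by
      refine (le_abs_self _).trans ?_
      rw [abs_mul]
      have q1 : |1 - 2 * s.re| ≤ 5/2 := by
        have := abs_le.1 hs
        rw [abs_le]; constructor <;> linarith
      have q2 : |Real.log a + (Real.log ‖s‖ - Real.log (1 + s.im))| ≤ |Real.log a| + Real.log 2 :=
        (abs_add_le _ _).trans (by linarith)
      exact mul_le_mul q1 q2 (abs_nonneg _) (by norm_num)
    have := mul_le_mul_of_nonneg_left h5 ha.le
    linarith
  linarith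

theorem chi_bound (h : IsSel D d) : ∃ C : ℝ, 0 ≤ C ∧ ∀ s : ℂ, -(3/4) ≤ s.re → s.re ≤ 3/4 →
    ‖D.chi s‖ ≤ C * (1 + |s.im|) ^ (d * (1/2 - s.re)) := by
  choose Cj tj hCj htj Hj using fun j => chid_ratio (D.lam j) (h.lampos j) (D.mu j)
  set T : ℝ := 1 + ∑ j, tj j with hT
  have htj0 : ∀ j, 0 ≤ tj j := fun j => by linarith [htj j]
  have hT1 : 1 ≤ T := by
    have := Finset.sum_nonneg (fun j (_ : j ∈ Finset.univ) => htj0 j)
    linarith
  have hjT : ∀ j, tj j ≤ T := fun j => by
    have := Finset.single_le_sum (fun i (_ : i ∈ Finset.univ) => htj0 i) (Finset.mem_univ j)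
    linarith
  set P : ℝ := ∏ j, Cj j with hP
  have hP0 : 0 ≤ P := Finset.prod_nonneg fun j _ => hCj j
  set A : ℝ := Real.exp (|Real.log D.Q| * (5/2)) with hA
  have hA0 : 0 < A := Real.exp_pos _
  have hdsum : ∀ x : ℝ, d * (1/2 - x) = ∑ j, D.lam j * (1 - 2 * x) := by
    intro x; rw [← Finset.sum_mul, h.deg]; ring
  -- upper half
  have hup : ∀ s : ℂ, -(3/4) ≤ s.re → s.re ≤ 3/4 → T ≤ s.im →
      ‖D.chi s‖ ≤ (A * P) * (1 + |s.im|) ^ (d * (1/2 - s.re)) := by
    intro s h1 h2 h3
    have him : 0 < s.im := by linarith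
    rw [abs_of_pos him]
    unfold SelData.chi
    rw [norm_mul, norm_mul, h.ωnorm, one_mul, norm_prod, mul_assoc]
    have hq : ‖(D.Q : ℂ) ^ (1 - 2 * s)‖ ≤ A := by
      rw [norm_cpow_eq_rpow_re_of_pos h.Qpos, Real.rpow_def_of_pos h.Qpos, hA]
      refine Real.exp_le_exp.2 ((le_abs_self _).trans ?_)
      rw [abs_mul]
      refine mul_le_mul_of_nonneg_left ?_ (abs_nonneg _)
      simp only [sub_re, one_re, mul_re, re_ofNat, im_ofNat, zero_mul, sub_zero]
      rw [abs_le]; constructor <;> linarith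
    have hp : ∏ j, ‖Complex.Gamma ((D.lam j : ℂ) * (1 - s) + conj (D.mu j)) /
        Complex.Gamma ((D.lam j : ℂ) * s + D.mu j)‖ ≤ P * (1 + s.im) ^ (d * (1/2 - s.re)) := by
      rw [hdsum, Real.rpow_sum_of_pos (by linarith), hP, ← Finset.prod_mul_distrib]
      refine Finset.prod_le_prod (fun j _ => norm_nonneg _) fun j _ => ?_
      exact Hj j s (abs_le.2 ⟨by linarith, h2⟩) ((hjT j).trans h3)
    exact mul_le_mul hq hp (Finset.prod_nonneg fun j _ => norm_nonneg _) hA0.le
  -- compact part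
  obtain ⟨B, hB⟩ : ∃ B : ℝ, ∀ s ∈ (Icc (-(3/4) : ℝ) (3/4)) ×ℂ (Icc (-T) T), ‖D.chi s‖ ≤ B := by
    refine IsCompact.exists_bound_of_continuousOn (isCompact_Icc.reProdIm isCompact_Icc) ?_
    refine (chi_diff h).continuousOn.mono fun s hs => ?_
    have := (mem_reProdIm.1 hs).1.2
    show s.re < 1
    linarith
  set B' : ℝ := max B 0 with hB'
  set Z : ℝ := B' * (1 + T) ^ (|d| * (5/4)) with hZ
  have hZ0 : 0 ≤ Z := mul_nonneg (le_max_right _ _) (Real.rpow_nonneg (by linarith) _)
  have hcomp : ∀ s : ℂ, -(3/4) ≤ s.re → s.re ≤ 3/4 → |s.im| ≤ T →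
      ‖D.chi s‖ ≤ Z * (1 + |s.im|) ^ (d * (1/2 - s.re)) := by
    intro s h1 h2 h3
    have hb : ‖D.chi s‖ ≤ B' :=
      (hB s (mem_reProdIm.2 ⟨⟨h1, h2⟩, abs_le.1 h3⟩)).trans (le_max_left _ _)
    refine hb.trans ?_
    have hpos : 0 < 1 + |s.im| := by positivity
    have e1 : (1 + |s.im|) ^ (-(|d| * (5/4))) ≤ (1 + |s.im|) ^ (d * (1/2 - s.re)) := by
      refine Real.rpow_le_rpow_of_exponent_le (by linarith [abs_nonneg s.im]) ?_
      have : |d * (1/2 - s.re)| ≤ |d| * (5/4) := by
        rw [abs_mul]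
        refine mul_le_mul_of_nonneg_left ?_ (abs_nonneg _)
        rw [abs_le]; constructor <;> linarith
      linarith [neg_abs_le (d * (1/2 - s.re))]
    have e2 : 1 ≤ (1 + T) ^ (|d| * (5/4)) * (1 + |s.im|) ^ (-(|d| * (5/4))) := by
      rw [Real.rpow_neg hpos.le, ← div_eq_mul_inv, one_le_div (Real.rpow_pos_of_pos hpos _)]
      exact Real.rpow_le_rpow hpos.le (by linarith) (by positivity)
    calc B' = B' * 1 := (mul_one _).symm
      _ ≤ B' * ((1 + T) ^ (|d| * (5/4)) * (1 + |s.im|) ^ (-(|d| * (5/4)))) :=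
          mul_le_mul_of_nonneg_left e2 (le_max_right _ _)
      _ = Z * (1 + |s.im|) ^ (-(|d| * (5/4))) := by rw [hZ]; ring
      _ ≤ Z * (1 + |s.im|) ^ (d * (1/2 - s.re)) := mul_le_mul_of_nonneg_left e1 hZ0
  refine ⟨A * P + Z, by positivity, ?_⟩
  intro s h1 h2
  have hr : 0 ≤ (1 + |s.im|) ^ (d * (1/2 - s.re)) := Real.rpow_nonneg (by positivity) _
  have hAP : 0 ≤ A * P := by positivity
  rcases le_or_gt |s.im| T with h3 | h3
  · refine (hcomp s h1 h2 h3).trans ?_
    exact mul_le_mul_of_nonneg_right (by linarith) hr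
  · have hfin : ‖D.chi s‖ ≤ (A * P) * (1 + |s.im|) ^ (d * (1/2 - s.re)) := by
      rcases le_total 0 s.im with h4 | h4
      · refine hup s h1 h2 ?_
        rw [abs_of_nonneg h4] at h3
        exact h3.le
      · have h5 := hup (conj s) (by simpa using h1) (by simpa using h2) (by
          rw [abs_of_nonpos h4] at h3
          simpa using h3.le)
        rw [conj_chi h s (by linarith)] at h5
        simpa using h5
    refine hfin.trans ?_
    exact mul_le_mul_of_nonneg_right (by linarith) hr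

end Pool.Agent.H15.SC
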