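import Pool.Agent.H15.SC.Core

/-!
# SC-13  Gaussian mean value theorem  (project SC, MP_be4568_nt)

`∫ |∑ b_n n^{it}|² e^{-t²/(4U²)} dt = ∑_{m,n} b_m conj(b_n) 2U√π exp (-U² log²(m/n))`; for `m, n ∈ [M, 2M)`
`|log (m/n)| ≥ |m-n|/(2M)`, and `∑_{k ∈ ℤ} exp (-U² k²/(4M²)) ≤ 1 + C M/U`; Schur's test
(`2|b_m b_n| ≤ |b_m|² + |b_n|²`).
-/

set_option autoImplicit false

open Complex Filter Topology MeasureTheory Set
open scoped ComplexConjugate

namespace Pool.Agent.H15.SC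

/-- `∫ e^{i θ t} e^{-t²/(4U²)} dt = 2 U √π e^{-U² θ²}` -/
theorem mv_ft (U : ℝ) (hU : 0 < U) (θ : ℝ) :
    ∫ t : ℝ, cexp (I * θ * t) * ((Real.exp (-(t ^ 2 / (4 * U ^ 2))) : ℝ) : ℂ) =
      ((2 * U * √Real.pi * Real.exp (-(U ^ 2 * θ ^ 2)) : ℝ) : ℂ) := by
  have hb : (0:ℝ) < ((1 / (4 * U ^ 2) : ℝ) : ℂ).re := by
    rw [Complex.ofReal_re]; positivity
  have h := fourierIntegral_gaussian hb (θ : ℂ)
  have e1 : ∀ t : ℝ, cexp (I * θ * t) * ((Real.exp (-(t ^ 2 / (4 * U ^ 2))) : ℝ) : ℂ) =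
      cexp (I * θ * t) * cexp (-((1 / (4 * U ^ 2) : ℝ) : ℂ) * (t : ℂ) ^ 2) := by
    intro t
    rw [Complex.ofReal_exp]
    congr 2
    push_cast
    ring
  simp_rw [e1]
  rw [h]
  have e2 : ((Real.pi : ℂ) / ((1 / (4 * U ^ 2) : ℝ) : ℂ)) ^ (1 / 2 : ℂ) = ((2 * U * √Real.pi : ℝ) : ℂ) := by
    have e3 : ((Real.pi : ℂ) / ((1 / (4 * U ^ 2) : ℝ) : ℂ)) = (((2 * U) ^ 2 * Real.pi : ℝ) : ℂ) := by
      have : (U : ℂ) ≠ 0 := by exact_mod_cast hU.ne'
      push_cast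
      field_simp
      ring
    have e4 : (1 / 2 : ℂ) = ((1 / 2 : ℝ) : ℂ) := by push_cast; ring
    rw [e3, e4, ← Complex.ofReal_cpow (by positivity)]
    congr 1
    rw [← Real.sqrt_eq_rpow, Real.sqrt_mul (by positivity), Real.sqrt_sq (by positivity)]
  rw [e2]
  push_cast
  congr 2
  have : (U : ℂ) ≠ 0 := by exact_mod_cast hU.ne'
  field_simp

theorem mv_int (U : ℝ) (hU : 0 < U) : Integrable (fun t : ℝ => Real.exp (-(t ^ 2 / (4 * U ^ 2)))) := by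
  have := integrable_exp_neg_mul_sq (b := 1 / (4 * U ^ 2)) (by positivity)
  refine this.congr (Filter.Eventually.of_forall fun t => ?_)
  dsimp
  congr 1
  field_simp

/-- `n^{it}` as an exponential -/
theorem mv_cpow (n : ℕ) (hn : n ≠ 0) (t : ℝ) : (n : ℂ) ^ ((t : ℂ) * I) = cexp (I * Real.log n * t) := by
  rw [Complex.cpow_def_of_ne_zero (by exact_mod_cast hn), ← Complex.natCast_log]
  congr 1
  ring

/-- `|log m - log n| ≥ |m - n| / (2M)` -/
theorem mv_log (M m n : ℕ) (hn1 : M ≤ n) (hmn : n ≤ m) (hm : m < 2 * M) :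
    (((m - n : ℕ) : ℝ) / (2 * M)) ^ 2 ≤ (Real.log m - Real.log n) ^ 2 := by
  have hM : 0 < M := by omega
  have hn : (0:ℝ) < n := by exact_mod_cast (by omega : 0 < n)
  have hm' : (0:ℝ) < m := by exact_mod_cast (by omega : 0 < m)
  have hM' : (0:ℝ) < M := by exact_mod_cast hM
  have h1 := Real.one_sub_inv_le_log_of_pos (div_pos hm' hn)
  rw [Real.log_div hm'.ne' hn.ne', inv_div] at h1
  have h2 : ((m - n : ℕ) : ℝ) / (2 * M) ≤ 1 - (n : ℝ) / m := by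
    rw [Nat.cast_sub hmn, one_sub_div hm'.ne']
    apply div_le_div_of_nonneg_left
    · rw [sub_nonneg]; exact_mod_cast hmn
    · exact hm'
    · exact_mod_cast hm.le
  have h0 : (0:ℝ) ≤ ((m - n : ℕ) : ℝ) / (2 * M) := by positivity
  exact pow_le_pow_left₀ h0 (h2.trans h1) 2

/-- `∑_{k<N} e^{-(s k)²} ≤ 1 + 2/s` -/
theorem mv_sum (s : ℝ) (hs : 0 < s) (N : ℕ) :
    ∑ k ∈ Finset.range N, Real.exp (-(s * k) ^ 2) ≤ 1 + 2 / s := by
  have key : ∀ k : ℕ, Real.exp (-(s * (k + 1 : ℕ)) ^ 2) ≤ (2 / s) * (1 / (1 + s * k) - 1 / (1 + s * (k + 1 : ℕ))) := by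
    intro k
    have hk : (0:ℝ) ≤ k := Nat.cast_nonneg k
    set x : ℝ := s * (k + 1 : ℕ) with hx
    have hx' : x = s * k + s := by rw [hx]; push_cast; ring
    have hx0 : 0 < x := by positivity
    have h1 : Real.exp (-x ^ 2) ≤ 1 / (1 + x ^ 2) := by
      rw [Real.exp_neg, ← one_div]
      apply one_div_le_one_div_of_le (by positivity)
      linarith [Real.add_one_le_exp (x ^ 2)]
    have h2 : (2 / s) * (1 / (1 + s * k) - 1 / (1 + x)) = 2 / ((1 + s * k) * (1 + x)) := by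
      have : (1 + s * k) ≠ 0 := by positivity
      have : (1 + x) ≠ 0 := by positivity
      field_simp
      rw [hx']; ring
    rw [h2]
    refine h1.trans ?_
    rw [div_le_div_iff₀ (by positivity) (by positivity)]
    have h3 : (1 + s * k) * (1 + x) ≤ (1 + x) * (1 + x) := by
      apply mul_le_mul_of_nonneg_right _ (by positivity)
      linarith
    nlinarith [sq_nonneg (x - 1)]
  rcases Nat.eq_zero_or_pos N with rfl | hN
  · simp; positivity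
  · obtain ⟨K, rfl⟩ : ∃ K, N = K + 1 := ⟨N - 1, by omega⟩
    rw [Finset.sum_range_succ']
    have h2 : ∑ k ∈ Finset.range K, Real.exp (-(s * (k + 1 : ℕ)) ^ 2) ≤ 2 / s := by
      refine (Finset.sum_le_sum fun k _ => key k).trans ?_
      rw [← Finset.mul_sum, Finset.sum_range_sub' (fun k : ℕ => 1 / (1 + s * (k : ℝ)))]
      have : (0:ℝ) ≤ 1 / (1 + s * K) := by positivity
      have h3 : (0:ℝ) < 2 / s := by positivity
      simp only [Nat.cast_zero, mul_zero, add_zero, div_one]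
      nlinarith
    simp only [Nat.cast_zero, mul_zero]
    have : Real.exp (-(0:ℝ) ^ 2) = 1 := by simp
    rw [this]
    linarith

/-- Schur bound for the kernel `exp (-U² log²(m/n))` on `[M, 2M)` -/
theorem mv_schur (M : ℕ) (U : ℝ) (hU : 0 < U) (n : ℕ) (hn : n ∈ Finset.Ico M (2 * M)) :
    ∑ m ∈ Finset.Ico M (2 * M), Real.exp (-(U ^ 2 * (Real.log m - Real.log n) ^ 2)) ≤ 2 * (1 + 4 * M / U) := by
  rw [Finset.mem_Ico] at hn
  have hM : 0 < M := by omega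
  have hM' : (0:ℝ) < M := by exact_mod_cast hM
  set s : ℝ := U / (2 * M) with hs
  have hs0 : 0 < s := by positivity
  have hs2 : 2 / s = 4 * M / U := by rw [hs]; field_simp; ring
  have hk : ∀ k : ℕ, ∀ L : ℝ, (((k : ℕ) : ℝ) / (2 * M)) ^ 2 ≤ L ^ 2 →
      Real.exp (-(U ^ 2 * L ^ 2)) ≤ Real.exp (-(s * k) ^ 2) := by
    intro k L h
    apply Real.exp_le_exp.2
    have : (s * k) ^ 2 = U ^ 2 * ((((k : ℕ) : ℝ) / (2 * M)) ^ 2) := by rw [hs]; ring
    rw [this]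
    have := mul_le_mul_of_nonneg_left h (sq_nonneg U)
    linarith
  rw [← Finset.sum_Ico_consecutive _ hn.1 hn.2.le]
  have h1 : ∑ m ∈ Finset.Ico n (2 * M), Real.exp (-(U ^ 2 * (Real.log m - Real.log n) ^ 2)) ≤ 1 + 2 / s := by
    refine le_trans (Finset.sum_le_sum (g := fun m => Real.exp (-(s * ((m - n : ℕ) : ℝ)) ^ 2)) fun m hm => ?_) ?_
    · rw [Finset.mem_Ico] at hm
      exact hk (m - n) _ (mv_log M m n hn.1 hm.1 hm.2)
    · rw [Finset.sum_Ico_eq_sum_range]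
      simp only [Nat.add_sub_cancel_left]
      exact mv_sum s hs0 _
  have h2 : ∑ m ∈ Finset.Ico M n, Real.exp (-(U ^ 2 * (Real.log m - Real.log n) ^ 2)) ≤ 1 + 2 / s := by
    refine le_trans (Finset.sum_le_sum (g := fun m => Real.exp (-(s * ((n - m : ℕ) : ℝ)) ^ 2)) fun m hm => ?_) ?_
    · rw [Finset.mem_Ico] at hm
      refine hk (n - m) _ ?_
      have := mv_log M n m hm.1 hm.2.le hn.2
      calc _ ≤ _ := this
        _ = _ := by ring
    · rw [Finset.sum_Ico_eq_sum_range]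
      have e1 : ∀ i ∈ Finset.range (n - M), Real.exp (-(s * ((n - (M + i) : ℕ) : ℝ)) ^ 2) =
          (fun j : ℕ => Real.exp (-(s * ((j + 1 : ℕ) : ℝ)) ^ 2)) (n - M - 1 - i) := by
        intro i hi
        rw [Finset.mem_range] at hi
        have : n - (M + i) = n - M - 1 - i + 1 := by omega
        simp only [this]
      rw [Finset.sum_congr rfl e1,
        Finset.sum_range_reflect (fun j : ℕ => Real.exp (-(s * ((j + 1 : ℕ) : ℝ)) ^ 2)) (n - M)]
      refine le_trans ?_ (mv_sum s hs0 (n - M + 1))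
      rw [Finset.sum_range_succ' (fun k : ℕ => Real.exp (-(s * (k : ℝ)) ^ 2))]
      have : 0 ≤ Real.exp (-(s * ((0 : ℕ) : ℝ)) ^ 2) := (Real.exp_pos _).le
      linarith
  rw [← hs2]
  linarith

theorem mv_cont (s : Finset ℕ) (hs : ∀ n ∈ s, n ≠ 0) (b : ℕ → ℂ) (w : ℝ → ℂ) (hw : Continuous w) :
    Continuous fun t : ℝ => ∑ n ∈ s, b n * (n : ℂ) ^ (w t) := by
  refine continuous_finsetSum _ fun n hn => continuous_const.mul ?_
  exact hw.const_cpow (Or.inl (by exact_mod_cast hs n hn))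

/-- the integral identity -/
theorem mv_expand (M : ℕ) (_hM : 1 ≤ M) (U : ℝ) (hU : 0 < U) (b : ℕ → ℂ) :
    ((∫ t : ℝ, ‖∑ n ∈ Finset.Ico M (2 * M), b n * (n : ℂ) ^ ((t : ℂ) * I)‖ ^ 2 *
      Real.exp (-(t ^ 2 / (4 * U ^ 2))) : ℝ) : ℂ) =
    ∑ m ∈ Finset.Ico M (2 * M), ∑ n ∈ Finset.Ico M (2 * M), b m * conj (b n) *
      ((2 * U * √Real.pi * Real.exp (-(U ^ 2 * (Real.log m - Real.log n) ^ 2)) : ℝ) : ℂ) := by
  have hn0 : ∀ n ∈ Finset.Ico M (2 * M), n ≠ 0 := by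
    intro n hn; rw [Finset.mem_Ico] at hn; omega
  rw [← integral_complex_ofReal]
  have e1 : ∀ t : ℝ, ((‖∑ n ∈ Finset.Ico M (2 * M), b n * (n : ℂ) ^ ((t : ℂ) * I)‖ ^ 2 *
      Real.exp (-(t ^ 2 / (4 * U ^ 2))) : ℝ) : ℂ) =
      ∑ m ∈ Finset.Ico M (2 * M), ∑ n ∈ Finset.Ico M (2 * M), b m * conj (b n) *
        (cexp (I * ((Real.log m - Real.log n : ℝ) : ℂ) * t) * ((Real.exp (-(t ^ 2 / (4 * U ^ 2))) : ℝ) : ℂ)) := by
    intro t
    rw [Complex.ofReal_mul, Complex.ofReal_pow, ← Complex.mul_conj', map_sum, Finset.sum_mul_sum,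
      Finset.sum_mul]
    refine Finset.sum_congr rfl fun m hm => ?_
    rw [Finset.sum_mul]
    refine Finset.sum_congr rfl fun n hn => ?_
    rw [mv_cpow m (hn0 m hm), mv_cpow n (hn0 n hn), map_mul, ← Complex.exp_conj]
    have : cexp (I * ((Real.log m - Real.log n : ℝ) : ℂ) * t) =
        cexp (I * Real.log m * t) * cexp (conj (I * Real.log n * t)) := by
      rw [← Complex.exp_add]
      congr 1
      simp only [map_mul, Complex.conj_I, Complex.conj_ofReal]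
      push_cast
      ring
    rw [this]
    ring
  simp_rw [e1]
  have hint : ∀ m n : ℕ, Integrable (fun t : ℝ => b m * conj (b n) *
        (cexp (I * ((Real.log m - Real.log n : ℝ) : ℂ) * t) * ((Real.exp (-(t ^ 2 / (4 * U ^ 2))) : ℝ) : ℂ))) := by
    intro m n
    apply Integrable.const_mul
    refine (mv_int U hU).mono' ?_ (Filter.Eventually.of_forall fun t => ?_)
    · exact (by fun_prop : Continuous _).aestronglyMeasurable
    · rw [norm_mul]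
      have : ‖cexp (I * ((Real.log m - Real.log n : ℝ) : ℂ) * t)‖ = 1 := by
        rw [show I * ((Real.log m - Real.log n : ℝ) : ℂ) * t =
          (((Real.log m - Real.log n) * t : ℝ) : ℂ) * I by push_cast; ring]
        exact Complex.norm_exp_ofReal_mul_I _
      rw [this, one_mul, Complex.norm_real, Real.norm_of_nonneg (Real.exp_pos _).le]
  rw [integral_finsetSum _ fun m _ => integrable_finsetSum _ fun n _ => hint m n]
  refine Finset.sum_congr rfl fun m _ => ?_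
  rw [integral_finsetSum _ fun n _ => hint m n]
  refine Finset.sum_congr rfl fun n _ => ?_
  rw [integral_const_mul, mv_ft U hU]

theorem gauss_mv : ∃ C : ℝ, 0 ≤ C ∧ ∀ M : ℕ, 1 ≤ M → ∀ U : ℝ, 1 ≤ U → ∀ b : ℕ → ℂ,
    ∫ t : ℝ, ‖∑ n ∈ Finset.Ico M (2 * M), b n * (n : ℂ) ^ ((t : ℂ) * I)‖ ^ 2 * Real.exp (-(t ^ 2 / (4 * U ^ 2))) ≤
      C * (U + M) * ∑ n ∈ Finset.Ico M (2 * M), ‖b n‖ ^ 2 := by
  refine ⟨16 * √Real.pi, by positivity, fun M hM U hU1 b => ?_⟩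
  have hU : 0 < U := by linarith
  have h := mv_expand M hM U hU b
  set J : ℝ := ∫ t : ℝ, ‖∑ n ∈ Finset.Ico M (2 * M), b n * (n : ℂ) ^ ((t : ℂ) * I)‖ ^ 2 *
      Real.exp (-(t ^ 2 / (4 * U ^ 2))) with hJ
  have h1 : J ≤ ∑ m ∈ Finset.Ico M (2 * M), ∑ n ∈ Finset.Ico M (2 * M), ‖b m‖ * ‖b n‖ *
      (2 * U * √Real.pi * Real.exp (-(U ^ 2 * (Real.log m - Real.log n) ^ 2))) := by
    calc J ≤ |J| := le_abs_self J
      _ = ‖(J : ℂ)‖ := by rw [Complex.norm_real, Real.norm_eq_abs]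
      _ ≤ _ := by
        rw [h]
        refine (norm_sum_le _ _).trans (Finset.sum_le_sum fun m _ => (norm_sum_le _ _).trans
          (Finset.sum_le_sum fun n _ => ?_))
        rw [norm_mul, norm_mul, RCLike.norm_conj, Complex.norm_real, Real.norm_of_nonneg (by positivity)]
  have h2 : ∀ m n : ℕ, ‖b m‖ * ‖b n‖ *
      (2 * U * √Real.pi * Real.exp (-(U ^ 2 * (Real.log m - Real.log n) ^ 2))) ≤
      U * √Real.pi * (‖b m‖ ^ 2 * Real.exp (-(U ^ 2 * (Real.log n - Real.log m) ^ 2)) +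
        ‖b n‖ ^ 2 * Real.exp (-(U ^ 2 * (Real.log m - Real.log n) ^ 2))) := by
    intro m n
    have e : (Real.log n - Real.log m) ^ 2 = (Real.log m - Real.log n) ^ 2 := by ring
    rw [e]
    have := mul_nonneg (mul_nonneg (mul_nonneg hU.le (Real.sqrt_nonneg Real.pi))
      (Real.exp_pos (-(U ^ 2 * (Real.log m - Real.log n) ^ 2))).le) (sq_nonneg (‖b m‖ - ‖b n‖))
    nlinarith
  refine h1.trans ((Finset.sum_le_sum fun m _ => Finset.sum_le_sum fun n _ => h2 m n).trans ?_)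
  simp only [mul_add, Finset.sum_add_distrib]
  have h3 : ∑ m ∈ Finset.Ico M (2 * M), ∑ n ∈ Finset.Ico M (2 * M),
      U * √Real.pi * (‖b m‖ ^ 2 * Real.exp (-(U ^ 2 * (Real.log n - Real.log m) ^ 2))) ≤
      U * √Real.pi * (2 * (1 + 4 * M / U)) * ∑ n ∈ Finset.Ico M (2 * M), ‖b n‖ ^ 2 := by
    rw [Finset.mul_sum]
    refine Finset.sum_le_sum fun m hm => ?_
    rw [← Finset.mul_sum, ← Finset.mul_sum]
    have := mv_schur M U hU m hm
    have h4 := mul_le_mul_of_nonneg_left this (mul_nonneg (mul_nonneg hU.le (Real.sqrt_nonneg Real.pi))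
      (sq_nonneg ‖b m‖))
    linarith
  have h5 : ∑ m ∈ Finset.Ico M (2 * M), ∑ n ∈ Finset.Ico M (2 * M),
      U * √Real.pi * (‖b n‖ ^ 2 * Real.exp (-(U ^ 2 * (Real.log m - Real.log n) ^ 2))) ≤
      U * √Real.pi * (2 * (1 + 4 * M / U)) * ∑ n ∈ Finset.Ico M (2 * M), ‖b n‖ ^ 2 := by
    rw [Finset.sum_comm]
    exact h3
  refine (add_le_add h3 h5).trans ?_
  rw [← add_mul]
  apply mul_le_mul_of_nonneg_right _ (Finset.sum_nonneg fun n _ => sq_nonneg _)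
  have e : U * √Real.pi * (2 * (1 + 4 * M / U)) + U * √Real.pi * (2 * (1 + 4 * M / U)) =
      √Real.pi * (4 * U + 16 * M) := by
    field_simp
    ring
  rw [e]
  nlinarith [Real.sqrt_nonneg Real.pi]

/-- the same with the exponents `w + it`, any complex `w`: coefficients `b n * n^w` -/
theorem gauss_mv' : ∃ C : ℝ, 0 ≤ C ∧ ∀ M : ℕ, 1 ≤ M → ∀ U : ℝ, 1 ≤ U → ∀ b : ℕ → ℂ, ∀ σ : ℝ,
    ∫ t : ℝ, ‖∑ n ∈ Finset.Ico M (2 * M), b n * (n : ℂ) ^ (ln σ t)‖ ^ 2 * Real.exp (-(t ^ 2 / (4 * U ^ 2))) ≤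
      C * (U + M) * ∑ n ∈ Finset.Ico M (2 * M), ‖b n‖ ^ 2 * (n : ℝ) ^ (2 * σ) := by
  obtain ⟨C, hC, h⟩ := gauss_mv
  refine ⟨C, hC, fun M hM U hU b σ => ?_⟩
  have h1 := h M hM U hU (fun n => b n * (n : ℂ) ^ (σ : ℂ))
  have hn0 : ∀ n ∈ Finset.Ico M (2 * M), n ≠ 0 := by
    intro n hn; rw [Finset.mem_Ico] at hn; omega
  have e1 : ∀ t : ℝ, ∑ n ∈ Finset.Ico M (2 * M), b n * (n : ℂ) ^ (ln σ t) =
      ∑ n ∈ Finset.Ico M (2 * M), b n * (n : ℂ) ^ (σ : ℂ) * (n : ℂ) ^ ((t : ℂ) * I) := by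
    intro t
    refine Finset.sum_congr rfl fun n hn => ?_
    rw [ln, Complex.cpow_add _ _ (by exact_mod_cast hn0 n hn), mul_assoc]
  have e2 : ∑ n ∈ Finset.Ico M (2 * M), ‖b n * (n : ℂ) ^ (σ : ℂ)‖ ^ 2 =
      ∑ n ∈ Finset.Ico M (2 * M), ‖b n‖ ^ 2 * (n : ℝ) ^ (2 * σ) := by
    refine Finset.sum_congr rfl fun n hn => ?_
    have hn' : (0:ℝ) < n := by exact_mod_cast Nat.pos_of_ne_zero (hn0 n hn)
    rw [norm_mul, mul_pow, Complex.norm_natCast_cpow_of_pos (Nat.pos_of_ne_zero (hn0 n hn)), Complex.ofReal_re,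
      two_mul, Real.rpow_add hn', sq ((n : ℝ) ^ σ)]
  simp_rw [e1]
  rw [← e2]
  exact h1

/-- unweighted form on `[t₀ - U, t₀ + U]` -/
theorem mv_interval : ∃ C : ℝ, 0 ≤ C ∧ ∀ M : ℕ, 1 ≤ M → ∀ U : ℝ, 1 ≤ U → ∀ b : ℕ → ℂ, ∀ σ t₀ : ℝ,
    ∫ t in (t₀ - U)..(t₀ + U), ‖∑ n ∈ Finset.Ico M (2 * M), b n * (n : ℂ) ^ (ln σ t)‖ ^ 2 ≤
      C * (U + M) * ∑ n ∈ Finset.Ico M (2 * M), ‖b n‖ ^ 2 * (n : ℝ) ^ (2 * σ) := by
  obtain ⟨C, hC, h⟩ := gauss_mv'
  refine ⟨C * Real.exp (1 / 4), by positivity, fun M hM U hU1 b σ t₀ => ?_⟩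
  have hU : 0 < U := by linarith
  have hn0 : ∀ n ∈ Finset.Ico M (2 * M), n ≠ 0 := by
    intro n hn; rw [Finset.mem_Ico] at hn; omega
  have h1 := h M hM U hU1 (fun n => b n * (n : ℂ) ^ ((t₀ : ℂ) * I)) σ
  have e2 : ∑ n ∈ Finset.Ico M (2 * M), ‖b n * (n : ℂ) ^ ((t₀ : ℂ) * I)‖ ^ 2 * (n : ℝ) ^ (2 * σ) =
      ∑ n ∈ Finset.Ico M (2 * M), ‖b n‖ ^ 2 * (n : ℝ) ^ (2 * σ) := by
    refine Finset.sum_congr rfl fun n hn => ?_
    rw [norm_mul, Complex.norm_natCast_cpow_of_pos (Nat.pos_of_ne_zero (hn0 n hn))]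
    simp
  rw [e2] at h1
  set S : ℝ → ℂ := fun u => ∑ n ∈ Finset.Ico M (2 * M), b n * (n : ℂ) ^ ((t₀ : ℂ) * I) * (n : ℂ) ^ (ln σ u) with hS
  have hSc : Continuous S := by
    refine mv_cont _ hn0 (fun n => b n * (n : ℂ) ^ ((t₀ : ℂ) * I)) (fun t => ln σ t) ?_
    unfold ln
    fun_prop
  have e3 : ∫ t in (t₀ - U)..(t₀ + U), ‖∑ n ∈ Finset.Ico M (2 * M), b n * (n : ℂ) ^ (ln σ t)‖ ^ 2 =
      ∫ u in (-U)..U, ‖S u‖ ^ 2 := by
    have := intervalIntegral.integral_comp_add_left (a := -U) (b := U)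
      (fun t => ‖∑ n ∈ Finset.Ico M (2 * M), b n * (n : ℂ) ^ (ln σ t)‖ ^ 2) t₀
    rw [show t₀ + -U = t₀ - U by ring] at this
    rw [← this]
    congr 1
    funext u
    congr 2
    refine Finset.sum_congr rfl fun n hn => ?_
    rw [mul_assoc, ← Complex.cpow_add _ _ (by exact_mod_cast hn0 n hn)]
    congr 2
    unfold ln
    push_cast
    ring
  rw [e3, intervalIntegral.integral_of_le (by linarith)]
  have hb : ∀ u, ‖S u‖ ≤ ∑ n ∈ Finset.Ico M (2 * M), ‖b n‖ * (n : ℝ) ^ σ := by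
    intro u
    refine (norm_sum_le _ _).trans (Finset.sum_le_sum fun n hn => ?_)
    rw [norm_mul, norm_mul, Complex.norm_natCast_cpow_of_pos (Nat.pos_of_ne_zero (hn0 n hn)),
      Complex.norm_natCast_cpow_of_pos (Nat.pos_of_ne_zero (hn0 n hn))]
    simp
  have hint : Integrable (fun t : ℝ => ‖S t‖ ^ 2 * Real.exp (-(t ^ 2 / (4 * U ^ 2)))) := by
    refine ((mv_int U hU).const_mul ((∑ n ∈ Finset.Ico M (2 * M), ‖b n‖ * (n : ℝ) ^ σ) ^ 2)).mono' ?_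
      (Filter.Eventually.of_forall fun t => ?_)
    · exact (by fun_prop : Continuous _).aestronglyMeasurable
    · rw [Real.norm_of_nonneg (by positivity)]
      exact mul_le_mul_of_nonneg_right (pow_le_pow_left₀ (norm_nonneg _) (hb t) 2) (Real.exp_pos _).le
  calc ∫ u in Ioc (-U) U, ‖S u‖ ^ 2
      ≤ ∫ u in Ioc (-U) U, Real.exp (1 / 4) * (‖S u‖ ^ 2 * Real.exp (-(u ^ 2 / (4 * U ^ 2)))) := by
        refine setIntegral_mono_on ?_ ?_ measurableSet_Ioc fun u hu => ?_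
        · exact ((by fun_prop : Continuous fun u => ‖S u‖ ^ 2).integrableOn_Icc).mono_set Ioc_subset_Icc_self
        · exact (hint.const_mul _).integrableOn
        · have hu2 : u ^ 2 ≤ U ^ 2 := by
            apply sq_le_sq'
            · exact hu.1.le
            · exact hu.2
          have : 1 ≤ Real.exp (1 / 4) * Real.exp (-(u ^ 2 / (4 * U ^ 2))) := by
            rw [← Real.exp_add]
            apply Real.one_le_exp
            have : u ^ 2 / (4 * U ^ 2) ≤ 1 / 4 := by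
              rw [div_le_div_iff₀ (by positivity) (by norm_num)]
              linarith
            linarith
          calc ‖S u‖ ^ 2 = ‖S u‖ ^ 2 * 1 := by ring
            _ ≤ ‖S u‖ ^ 2 * (Real.exp (1 / 4) * Real.exp (-(u ^ 2 / (4 * U ^ 2)))) :=
              mul_le_mul_of_nonneg_left this (sq_nonneg _)
            _ = _ := by ring
    _ ≤ ∫ u : ℝ, Real.exp (1 / 4) * (‖S u‖ ^ 2 * Real.exp (-(u ^ 2 / (4 * U ^ 2)))) := by
        refine setIntegral_le_integral (hint.const_mul _) (Filter.Eventually.of_forall fun u => ?_)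
        dsimp
        positivity
    _ = Real.exp (1 / 4) * ∫ u : ℝ, ‖S u‖ ^ 2 * Real.exp (-(u ^ 2 / (4 * U ^ 2))) := integral_const_mul _ _
    _ ≤ Real.exp (1 / 4) * (C * (U + M) * ∑ n ∈ Finset.Ico M (2 * M), ‖b n‖ ^ 2 * (n : ℝ) ^ (2 * σ)) :=
        mul_le_mul_of_nonneg_left h1 (Real.exp_pos _).le
    _ = _ := by ring

end Pool.Agent.H15.SC
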