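import Pool.Agent.H15.SC.Core

/-!
# SC-03  Plancherel for inverse Mellin integrals  (project SC, MP_be4568_nt)

`vint Φ σ x = (1/2π) ∫ Φ(t) x^{σ+it} dt`.  With `x = e^u`: `e^{-σu} vint Φ σ (e^u) = (1/2π) ∫ Φ(t) e^{itu} dt` is an
inverse Fourier transform (scaled), and `dx x^{-1-2σ} |vint|² = du |..|²`.  Plancherel for `L¹ ∩ L²`: look in
`Mathlib.Analysis.Fourier` (Plancherel for `Lp`, `Inversion`) or prove it with Gaussians:
`∫ |f|² e^{-ε u²}` by Fubini, monotone convergence and `Φ * gaussian → Φ` in `L¹`/pointwise (continuity).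
Only the inequality `≤` is needed.
-/

set_option autoImplicit false

open Complex Filter Topology MeasureTheory Set
open scoped ComplexConjugate

namespace Pool.Agent.H15.SC

open scoped FourierTransform SchwartzMap

private theorem planch_ae (Φ : ℝ → ℂ) (h1 : Integrable Φ) (hM : MemLp Φ 2) :
    ((𝓕 (hM.toLp Φ) : Lp ℂ 2 (volume : Measure ℝ)) : ℝ → ℂ) =ᵐ[volume] 𝓕 Φ := by
  set G : Lp ℂ 2 (volume : Measure ℝ) := 𝓕 (hM.toLp Φ) with hG
  have hcont : Continuous (𝓕 Φ) :=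
    VectorFourier.fourierIntegral_continuous Real.continuous_fourierChar continuous_inner h1
  have hGl : LocallyIntegrable (G : ℝ → ℂ) := (Lp.memLp G).locallyIntegrable (by norm_num)
  refine ae_eq_of_integral_contDiff_smul_eq hGl hcont.locallyIntegrable ?_
  intro g hg hgs
  -- the Schwartz function
  have hgs' : HasCompactSupport (fun x => (g x : ℂ)) := hgs.comp_left (g := fun r : ℝ => (r : ℂ)) (by simp)
  have hg' : ContDiff ℝ (⊤ : ℕ∞) (fun x => (g x : ℂ)) := Complex.ofRealCLM.contDiff.comp hg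
  set φ : 𝓢(ℝ, ℂ) := hgs'.toSchwartzMap hg' with hφ
  have hφv : ∀ x, φ x = (g x : ℂ) := fun x => rfl
  have e1 : ∫ x, g x • (G x) = (G : 𝓢'(ℝ, ℂ)) φ := by
    rw [Lp.toTemperedDistribution_apply]
    refine integral_congr_ae (Eventually.of_forall fun x => ?_)
    simp [hφv]
  have e2 : (G : 𝓢'(ℝ, ℂ)) φ = ((hM.toLp Φ : Lp ℂ 2 (volume : Measure ℝ)) : 𝓢'(ℝ, ℂ)) (𝓕 φ) := by
    rw [hG, ← Lp.fourier_toTemperedDistribution_eq, TemperedDistribution.fourier_apply]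
  have e3 : ((hM.toLp Φ : Lp ℂ 2 (volume : Measure ℝ)) : 𝓢'(ℝ, ℂ)) (𝓕 φ) = ∫ x, (𝓕 (φ : ℝ → ℂ)) x • Φ x := by
    rw [Lp.toTemperedDistribution_apply]
    refine integral_congr_ae ?_
    filter_upwards [hM.coeFn_toLp] with x hx
    rw [hx, SchwartzMap.fourier_coe]
  have e4 : ∫ x, (𝓕 (φ : ℝ → ℂ)) x • Φ x = ∫ x, (φ x) • (𝓕 Φ) x := by
    have := VectorFourier.integral_fourierIntegral_smul_eq_flip (L := innerₗ ℝ) (μ := (volume : Measure ℝ))
      (ν := (volume : Measure ℝ)) Real.continuous_fourierChar continuous_inner φ.integrable h1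
    simpa using! this
  rw [e1, e2, e3, e4]
  refine integral_congr_ae (Eventually.of_forall fun x => ?_)
  simp [hφv]

private theorem planch_lint (Φ : ℝ → ℂ) (h1 : Integrable Φ) (h2 : Integrable (fun t => ‖Φ t‖ ^ 2)) :
    ∫⁻ w, ENNReal.ofReal (‖(𝓕 Φ) w‖ ^ 2) = ENNReal.ofReal (∫ t, ‖Φ t‖ ^ 2) := by
  have hM : MemLp Φ 2 := (memLp_two_iff_integrable_sq_norm h1.aestronglyMeasurable).2 h2
  have hae := planch_ae Φ h1 hM
  have hn : ‖(𝓕 (hM.toLp Φ) : Lp ℂ 2 (volume : Measure ℝ))‖ = ‖hM.toLp Φ‖ := Lp.norm_fourier_eq _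
  have hM' : MemLp (𝓕 Φ) 2 := (memLp_congr_ae hae).1 (Lp.memLp _)
  have e1 : ‖(𝓕 (hM.toLp Φ) : Lp ℂ 2 (volume : Measure ℝ))‖ ^ 2 = ∫ w, ‖(𝓕 Φ) w‖ ^ 2 := by
    rw [Lp.norm_def, eLpNorm_congr_ae hae]
    have := hM'.eLpNorm_eq_integral_rpow_norm (by norm_num) (by norm_num)
    rw [this, ENNReal.toReal_ofReal (by positivity)]
    rw [← Real.rpow_natCast, ← Real.rpow_mul (by positivity)]
    simp
  have e2 : ‖hM.toLp Φ‖ ^ 2 = ∫ w, ‖Φ w‖ ^ 2 := by
    rw [Lp.norm_toLp]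
    have := hM.eLpNorm_eq_integral_rpow_norm (by norm_num) (by norm_num)
    rw [this, ENNReal.toReal_ofReal (by positivity)]
    rw [← Real.rpow_natCast, ← Real.rpow_mul (by positivity)]
    simp
  have e3 : ∫ w, ‖(𝓕 Φ) w‖ ^ 2 = ∫ w, ‖Φ w‖ ^ 2 := by rw [← e1, ← e2, hn]
  have hi : Integrable (fun w => ‖(𝓕 Φ) w‖ ^ 2) :=
    (memLp_two_iff_integrable_sq_norm hM'.aestronglyMeasurable).1 hM'
  rw [← e3, ofReal_integral_eq_lintegral_ofReal hi (Eventually.of_forall fun w => by positivity)]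

private theorem vint_eq_fourier (Φ : ℝ → ℂ) (σ x : ℝ) (hx : 0 < x) :
    vint Φ σ x = ((1 / (2 * Real.pi) * x ^ σ : ℝ) : ℂ) * (𝓕 Φ) (-(Real.log x) / (2 * Real.pi)) := by
  have hpi := Real.pi_pos
  unfold vint
  rw [Real.fourier_real_eq_integral_exp_smul]
  rw [ofReal_mul, mul_assoc]
  congr 1
  rw [← MeasureTheory.integral_const_mul]
  refine integral_congr_ae (Eventually.of_forall fun t => ?_)
  have hx0 : (x : ℂ) ≠ 0 := by exact_mod_cast hx.ne'
  simp only [smul_eq_mul]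
  unfold ln
  rw [Complex.cpow_add _ _ hx0, Complex.ofReal_cpow hx.le, Complex.cpow_def_of_ne_zero hx0 ((t : ℂ) * I),
    ← Complex.ofReal_log hx.le]
  have : (Real.log x : ℂ) * (t * I) = ((-2 * Real.pi * t * (-(Real.log x) / (2 * Real.pi)) : ℝ) : ℂ) * I := by
    push_cast
    field_simp
  rw [this]
  ring

private theorem norm_sq_vint (Φ : ℝ → ℂ) (σ x : ℝ) (hx : 0 < x) :
    ‖vint Φ σ x‖ ^ 2 * x ^ (-1 - 2 * σ) =
      (1 / (4 * Real.pi ^ 2)) * x⁻¹ * ‖(𝓕 Φ) (-(Real.log x) / (2 * Real.pi))‖ ^ 2 := by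
  have hpi := Real.pi_pos
  rw [vint_eq_fourier Φ σ x hx, norm_mul, Complex.norm_real, Real.norm_eq_abs, abs_of_nonneg (by positivity), mul_pow,
    mul_pow]
  have : x ^ (-1 - 2 * σ) * (x ^ σ) ^ 2 = x⁻¹ := by
    rw [← Real.rpow_natCast, ← Real.rpow_mul hx.le, ← Real.rpow_add hx, ← Real.rpow_neg_one]
    congr 1
    push_cast
    ring
  rw [← this]
  ring

private theorem cont_fourier (Φ : ℝ → ℂ) (h1 : Integrable Φ) : Continuous (𝓕 Φ) :=
  VectorFourier.fourierIntegral_continuous Real.continuous_fourierChar continuous_inner h1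

/-- Plancherel inequality -/
theorem vint_planch (Φ : ℝ → ℂ) (hc : Continuous Φ) (h1 : Integrable Φ)
    (h2 : Integrable (fun t => ‖Φ t‖ ^ 2)) (σ : ℝ) :
    ∫⁻ x in Ioi (0 : ℝ), ENNReal.ofReal (‖vint Φ σ x‖ ^ 2 * x ^ (-1 - 2 * σ)) ≤
      ENNReal.ofReal ((1 / (2 * Real.pi)) * ∫ t, ‖Φ t‖ ^ 2) := by
  have hpi := Real.pi_pos
  have himg : (fun w : ℝ => Real.exp (-(2 * Real.pi * w))) '' univ = Ioi 0 := by
    ext y
    simp only [image_univ, mem_range, mem_Ioi]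
    constructor
    · rintro ⟨w, rfl⟩
      exact Real.exp_pos _
    · intro hy
      refine ⟨-(Real.log y) / (2 * Real.pi), ?_⟩
      rw [show -(2 * Real.pi * (-(Real.log y) / (2 * Real.pi))) = Real.log y by field_simp]
      exact Real.exp_log hy
  have hder : ∀ w ∈ (univ : Set ℝ), HasDerivWithinAt (fun w : ℝ => Real.exp (-(2 * Real.pi * w)))
      (Real.exp (-(2 * Real.pi * w)) * (-(2 * Real.pi * 1))) univ w := by
    intro w _
    exact (((hasDerivAt_id w).const_mul (2 * Real.pi)).neg.exp).hasDerivWithinAt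
  have hinj : InjOn (fun w : ℝ => Real.exp (-(2 * Real.pi * w))) univ := by
    intro a _ b _ hab
    have := Real.exp_injective hab
    have h3 : 2 * Real.pi * a = 2 * Real.pi * b := by linarith
    exact mul_left_cancel₀ (by positivity) h3
  rw [← himg, lintegral_image_eq_lintegral_abs_deriv_mul MeasurableSet.univ hder hinj]
  have : ∀ w : ℝ, ENNReal.ofReal |Real.exp (-(2 * Real.pi * w)) * (-(2 * Real.pi * 1))| *
      ENNReal.ofReal (‖vint Φ σ (Real.exp (-(2 * Real.pi * w)))‖ ^ 2 *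
        (Real.exp (-(2 * Real.pi * w))) ^ (-1 - 2 * σ)) =
      ENNReal.ofReal (1 / (2 * Real.pi)) * ENNReal.ofReal (‖(𝓕 Φ) w‖ ^ 2) := by
    intro w
    rw [norm_sq_vint _ _ _ (Real.exp_pos _), ← ENNReal.ofReal_mul (abs_nonneg _), ← ENNReal.ofReal_mul (by positivity),
      Real.log_exp, show -(-(2 * Real.pi * w)) / (2 * Real.pi) = w by field_simp,
      abs_mul, abs_neg, abs_of_pos (Real.exp_pos _), abs_of_pos (by positivity : (0 : ℝ) < 2 * Real.pi * 1)]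
    congr 1
    have he : Real.exp (-(2 * Real.pi * w)) ≠ 0 := (Real.exp_pos _).ne'
    field_simp
    ring
  simp only [this]
  rw [Measure.restrict_univ, lintegral_const_mul' _ _ ENNReal.ofReal_ne_top, planch_lint Φ h1 h2,
    ← ENNReal.ofReal_mul (by positivity)]

/-- `vint Φ σ` is continuous on `(0, ∞)` -/
theorem vint_continuousOn (Φ : ℝ → ℂ) (hc : Continuous Φ) (h1 : Integrable Φ) (σ : ℝ) :
    ContinuousOn (vint Φ σ) (Ioi (0 : ℝ)) := by
  have h : ContinuousOn (fun x : ℝ => ((1 / (2 * Real.pi) * x ^ σ : ℝ) : ℂ) *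
      (𝓕 Φ) (-(Real.log x) / (2 * Real.pi))) (Ioi 0) := by
    refine ContinuousOn.mul ?_ ?_
    · refine continuous_ofReal.comp_continuousOn (continuousOn_const.mul ?_)
      exact fun x hx => (Real.continuousAt_rpow_const x σ (Or.inl (ne_of_gt hx))).continuousWithinAt
    · refine (cont_fourier Φ h1).comp_continuousOn ?_
      exact ((Real.continuousOn_log.mono (fun x hx => ne_of_gt hx)).neg).div_const _
  exact h.congr fun x hx => vint_eq_fourier Φ σ x hx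

/-- localised form -/
theorem vint_loc (Φ : ℝ → ℂ) (hc : Continuous Φ) (h1 : Integrable Φ)
    (h2 : Integrable (fun t => ‖Φ t‖ ^ 2)) (σ : ℝ) (hσ : |σ| ≤ 3/4) (T : ℝ) (hT : 0 < T) :
    ∫ x in T..(2 * T), ‖vint Φ σ x‖ ^ 2 ≤ T ^ (1 + 2 * σ) * ∫ t, ‖Φ t‖ ^ 2 := by
  have hpi := Real.pi_pos
  have hTT : T ≤ 2 * T := by linarith
  have hσ1 : -(3/4) ≤ σ := (abs_le.1 hσ).1
  have hσ2 : σ ≤ 3/4 := (abs_le.1 hσ).2
  have hcont : ContinuousOn (fun x => ‖vint Φ σ x‖ ^ 2) (uIcc T (2 * T)) := by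
    refine ((vint_continuousOn Φ hc h1 σ).mono ?_).norm.pow 2
    rw [uIcc_of_le hTT]
    intro x hx
    exact lt_of_lt_of_le hT hx.1
  have hcont2 : ContinuousOn (fun x : ℝ => x ^ (-1 - 2 * σ)) (uIcc T (2 * T)) := by
    rw [uIcc_of_le hTT]
    intro x hx
    exact (Real.continuousAt_rpow_const x _ (Or.inl (ne_of_gt (lt_of_lt_of_le hT hx.1)))).continuousWithinAt
  set C : ℝ := 6 * T ^ (1 + 2 * σ) with hC
  have hC0 : 0 < C := by positivity
  have hint : IntervalIntegrable (fun x => ‖vint Φ σ x‖ ^ 2 * x ^ (-1 - 2 * σ)) volume T (2 * T) :=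
    (hcont.mul hcont2).intervalIntegrable
  -- pointwise bound
  have hpt : ∀ x ∈ Icc T (2 * T), ‖vint Φ σ x‖ ^ 2 ≤ C * (‖vint Φ σ x‖ ^ 2 * x ^ (-1 - 2 * σ)) := by
    intro x hx
    have hx0 : 0 < x := lt_of_lt_of_le hT hx.1
    have h1 : 1 ≤ C * x ^ (-1 - 2 * σ) := by
      have e : x ^ (-1 - 2 * σ) = (x ^ (1 + 2 * σ))⁻¹ := by
        rw [← Real.rpow_neg hx0.le]; congr 1; ring
      rw [e, ← div_eq_mul_inv, le_div_iff₀ (by positivity), one_mul, hC]
      rcases le_total 0 (1 + 2 * σ) with h | h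
      · calc x ^ (1 + 2 * σ) ≤ (2 * T) ^ (1 + 2 * σ) := Real.rpow_le_rpow hx0.le hx.2 h
          _ = 2 ^ (1 + 2 * σ) * T ^ (1 + 2 * σ) := Real.mul_rpow (by norm_num) hT.le
          _ ≤ 6 * T ^ (1 + 2 * σ) := by
            refine mul_le_mul_of_nonneg_right ?_ (by positivity)
            calc (2 : ℝ) ^ (1 + 2 * σ) ≤ 2 ^ ((5 : ℝ) / 2) :=
                  Real.rpow_le_rpow_of_exponent_le (by norm_num) (by linarith)
              _ ≤ 6 := by
                  rw [show (5 : ℝ) / 2 = 5 * (1 / 2) by norm_num, Real.rpow_mul (by norm_num), ← Real.sqrt_eq_rpow]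
                  rw [Real.sqrt_le_left (by norm_num)]
                  norm_num
      · calc x ^ (1 + 2 * σ) ≤ T ^ (1 + 2 * σ) := Real.rpow_le_rpow_of_nonpos hT hx.1 h
          _ ≤ 6 * T ^ (1 + 2 * σ) := by nlinarith [Real.rpow_pos_of_pos hT (1 + 2 * σ)]
    nlinarith [sq_nonneg ‖vint Φ σ x‖]
  have hle : ∫ x in T..(2 * T), ‖vint Φ σ x‖ ^ 2 ≤
      ∫ x in T..(2 * T), C * (‖vint Φ σ x‖ ^ 2 * x ^ (-1 - 2 * σ)) :=
    intervalIntegral.integral_mono_on hTT hcont.intervalIntegrable (hint.const_mul C) hpt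
  rw [intervalIntegral.integral_const_mul] at hle
  have hb : ∫ x in T..(2 * T), ‖vint Φ σ x‖ ^ 2 * x ^ (-1 - 2 * σ) ≤ (1 / (2 * Real.pi)) * ∫ t, ‖Φ t‖ ^ 2 := by
    rw [intervalIntegral.integral_of_le hTT, integral_eq_lintegral_of_nonneg_ae]
    · refine ENNReal.toReal_le_of_le_ofReal (by positivity) ?_
      refine le_trans ?_ (vint_planch Φ hc h1 h2 σ)
      refine lintegral_mono_set ?_
      intro x hx
      exact lt_trans hT hx.1
    · refine (ae_restrict_iff' measurableSet_Ioc).2 (Eventually.of_forall fun x hx => ?_)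
      have : 0 < x := lt_trans hT hx.1
      simp only [Pi.zero_apply]
      positivity
    · exact hint.1.aestronglyMeasurable
  have hI : 0 ≤ ∫ t, ‖Φ t‖ ^ 2 := integral_nonneg fun t => by positivity
  calc ∫ x in T..(2 * T), ‖vint Φ σ x‖ ^ 2 ≤ C * ((1 / (2 * Real.pi)) * ∫ t, ‖Φ t‖ ^ 2) :=
        hle.trans (mul_le_mul_of_nonneg_left hb hC0.le)
    _ = (6 / (2 * Real.pi)) * (T ^ (1 + 2 * σ) * ∫ t, ‖Φ t‖ ^ 2) := by rw [hC]; ring
    _ ≤ 1 * (T ^ (1 + 2 * σ) * ∫ t, ‖Φ t‖ ^ 2) := by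
        refine mul_le_mul_of_nonneg_right ?_ (by positivity)
        rw [div_le_one (by positivity)]
        nlinarith [Real.pi_gt_three]
    _ = _ := one_mul _

end Pool.Agent.H15.SC
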