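import Pool.Agent.H15.SC.Core

/-!
# SC-02  the weight `vq W V s = (e^{s²/W²} - e^{s²/V²}) / s`  (project SC, MP_be4568_nt)

`vq W V` is the difference quotient at `0` of the entire even function `e^{s²/W²} - e^{s²/V²}`; the bounds follow from
the mean value inequality for `u ↦ e^{u s²}` on `[1/W², 1/V²]`, and `|e^{u s²}| = e^{u (σ² - t²)}`.
-/

set_option autoImplicit false

open Complex Filter Topology MeasureTheory Set
open scoped ComplexConjugate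

namespace Pool.Agent.H15.SC

theorem vq_differentiable (W V : ℝ) : Differentiable ℂ (vq W V) := by
  set f : ℂ → ℂ := fun s => cexp (s ^ 2 / (W : ℂ) ^ 2) - cexp (s ^ 2 / (V : ℂ) ^ 2) with hf
  have hfd : Differentiable ℂ f := by
    rw [hf]; fun_prop
  have hf0 : f 0 = 0 := by simp [hf]
  have hder : deriv f 0 = 0 := by
    have h1 : ∀ U : ℝ, HasDerivAt (fun s : ℂ => cexp (s ^ 2 / (U : ℂ) ^ 2)) 0 0 := by
      intro U
      have h2 : HasDerivAt (fun s : ℂ => s ^ 2 / (U : ℂ) ^ 2) 0 0 := by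
        have h3 := ((hasDerivAt_id (0 : ℂ)).pow 2).div_const ((U : ℂ) ^ 2)
        simpa using h3
      have h4 := h2.cexp
      simpa using h4
    have h5 := (h1 W).sub (h1 V)
    rw [sub_zero] at h5
    exact h5.deriv
  have heq : vq W V = dslope f 0 := by
    funext s
    by_cases hs : s = 0
    · rw [hs, dslope_same, hder]
      simp [vq]
    · rw [dslope_of_ne _ hs, slope_def_field, hf0, sub_zero, sub_zero]
      rfl
  rw [heq, ← differentiableOn_univ]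
  exact (Complex.differentiableOn_dslope univ_mem).2 hfd.differentiableOn

theorem vq_zero (W V : ℝ) : vq W V 0 = 0 := by
  simp [vq]

theorem vq_telescope (J : ℕ) (s : ℂ) :
    vq (2 ^ J) 1 s = ∑ j ∈ Finset.range J, vq (2 ^ (j + 1)) (2 ^ j) s := by
  unfold vq
  rw [← Finset.sum_div, Finset.sum_range_sub (fun j : ℕ => cexp (s ^ 2 / (((2 : ℝ) ^ j : ℝ) : ℂ) ^ 2))]
  simp

/-- mean value inequality for `u ↦ e^{u s²}` -/
theorem vq_mvt (a b : ℝ) (hab : a ≤ b) (s : ℂ) :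
    ‖cexp ((b : ℂ) * s ^ 2) - cexp ((a : ℂ) * s ^ 2)‖ ≤
      ‖s‖ ^ 2 * (Real.exp (b * s.re ^ 2) * Real.exp (-(a * s.im ^ 2))) * (b - a) := by
  have hre : ∀ u : ℝ, ((u : ℂ) * s ^ 2).re = u * s.re ^ 2 - u * s.im ^ 2 := by
    intro u
    rw [Complex.re_ofReal_mul, sq, Complex.mul_re]
    ring
  have hder : ∀ u ∈ Icc a b, HasDerivWithinAt (fun u : ℝ => cexp ((u : ℂ) * s ^ 2))
      (cexp ((u : ℂ) * s ^ 2) * s ^ 2) (Icc a b) u := by
    intro u _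
    have h1 : HasDerivAt (fun u : ℝ => (u : ℂ) * s ^ 2) (1 * s ^ 2) u := (Complex.ofRealCLM.hasDerivAt).mul_const _
    rw [one_mul] at h1
    exact h1.cexp.hasDerivWithinAt
  have hbd : ∀ u ∈ Ico a b, ‖cexp ((u : ℂ) * s ^ 2) * s ^ 2‖ ≤
      ‖s‖ ^ 2 * (Real.exp (b * s.re ^ 2) * Real.exp (-(a * s.im ^ 2))) := by
    intro u hu
    rw [norm_mul, norm_pow, Complex.norm_exp, hre, mul_comm]
    apply mul_le_mul_of_nonneg_left _ (by positivity)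
    rw [← Real.exp_add]
    apply Real.exp_le_exp.2
    have h1 : u * s.re ^ 2 ≤ b * s.re ^ 2 := mul_le_mul_of_nonneg_right hu.2.le (sq_nonneg _)
    have h2 : a * s.im ^ 2 ≤ u * s.im ^ 2 := mul_le_mul_of_nonneg_right hu.1 (sq_nonneg _)
    linarith
  exact norm_image_sub_le_of_norm_deriv_le_segment' hder hbd b (right_mem_Icc.2 hab)

/-- the basic bound: `V ≤ W` -/
theorem vq_norm_le (W V : ℝ) (hV : 0 < V) (hVW : V ≤ W) (s : ℂ) :
    ‖vq W V s‖ ≤ ‖s‖ * (Real.exp (s.re ^ 2 / V ^ 2) * Real.exp (-(s.im ^ 2 / W ^ 2))) * (1 / V ^ 2 - 1 / W ^ 2) := by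
  have hW : 0 < W := lt_of_lt_of_le hV hVW
  by_cases hs : s = 0
  · rw [hs, vq_zero, norm_zero, zero_mul, zero_mul]
  have hs0 : 0 < ‖s‖ := norm_pos_iff.2 hs
  have hab : 1 / W ^ 2 ≤ 1 / V ^ 2 := by
    apply one_div_le_one_div_of_le (by positivity)
    exact pow_le_pow_left₀ hV.le hVW 2
  have h1 := vq_mvt (1 / W ^ 2) (1 / V ^ 2) hab s
  have h2 : vq W V s = -((cexp (((1 / V ^ 2 : ℝ) : ℂ) * s ^ 2) - cexp (((1 / W ^ 2 : ℝ) : ℂ) * s ^ 2)) / s) := by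
    unfold vq
    push_cast
    rw [show (1 : ℂ) / (V : ℂ) ^ 2 * s ^ 2 = s ^ 2 / (V : ℂ) ^ 2 by ring,
      show (1 : ℂ) / (W : ℂ) ^ 2 * s ^ 2 = s ^ 2 / (W : ℂ) ^ 2 by ring]
    ring
  rw [h2, norm_neg, norm_div, div_le_iff₀ hs0]
  refine h1.trans (le_of_eq ?_)
  rw [show 1 / V ^ 2 * s.re ^ 2 = s.re ^ 2 / V ^ 2 by ring, show 1 / W ^ 2 * s.im ^ 2 = s.im ^ 2 / W ^ 2 by ring]
  ring

theorem vq_block : ∃ C : ℝ, 0 ≤ C ∧ ∀ U : ℝ, 1 ≤ U → ∀ s : ℂ, |s.re| ≤ 3/4 →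
    ‖vq (2 * U) U s‖ ≤ C * (1 + |s.im|) / U ^ 2 * Real.exp (-(s.im ^ 2 / (4 * U ^ 2))) := by
  refine ⟨Real.exp 1, (Real.exp_pos 1).le, fun U hU s hs => ?_⟩
  have hU0 : 0 < U := by linarith
  have h1 := vq_norm_le (2 * U) U hU0 (by linarith) s
  have hn : ‖s‖ ≤ 1 + |s.im| := by
    have := Complex.norm_le_abs_re_add_abs_im s
    linarith
  have h2 : Real.exp (s.re ^ 2 / U ^ 2) ≤ Real.exp 1 := by
    apply Real.exp_le_exp.2
    rw [div_le_one (by positivity)]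
    have h3 : s.re ^ 2 ≤ 1 := by
      rw [← sq_abs]
      nlinarith [abs_nonneg s.re]
    have h4 : 1 ≤ U ^ 2 := one_le_pow₀ hU
    linarith
  have h5 : 1 / U ^ 2 - 1 / (2 * U) ^ 2 ≤ 1 / U ^ 2 := by
    have : 0 ≤ 1 / (2 * U) ^ 2 := by positivity
    linarith
  have h6 : 0 ≤ 1 / U ^ 2 - 1 / (2 * U) ^ 2 := by
    have : 1 / (2 * U) ^ 2 ≤ 1 / U ^ 2 := by
      apply one_div_le_one_div_of_le (by positivity)
      exact pow_le_pow_left₀ hU0.le (by linarith) 2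
    linarith
  have hE : Real.exp (-(s.im ^ 2 / (2 * U) ^ 2)) = Real.exp (-(s.im ^ 2 / (4 * U ^ 2))) := by
    congr 2
    ring
  rw [hE] at h1
  set X : ℝ := Real.exp (-(s.im ^ 2 / (4 * U ^ 2))) with hX
  have hX0 : 0 ≤ X := (Real.exp_pos _).le
  calc ‖vq (2 * U) U s‖ ≤ ‖s‖ * (Real.exp (s.re ^ 2 / U ^ 2) * X) * (1 / U ^ 2 - 1 / (2 * U) ^ 2) := h1
    _ ≤ (1 + |s.im|) * (Real.exp 1 * X) * (1 / U ^ 2) := by
        apply mul_le_mul _ h5 h6 (by positivity)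
        apply mul_le_mul hn _ (by positivity) (by positivity)
        exact mul_le_mul_of_nonneg_right h2 hX0
    _ = Real.exp 1 * (1 + |s.im|) / U ^ 2 * X := by ring

theorem vq_bound : ∃ C : ℝ, 0 ≤ C ∧ ∀ W : ℝ, 1 ≤ W → ∀ s : ℂ, |s.re| ≤ 2 →
    ‖vq W 1 s‖ ≤ C * (1 + |s.im|) * Real.exp (-(s.im ^ 2 / W ^ 2)) := by
  refine ⟨2 * Real.exp 4, by positivity, fun W hW s hs => ?_⟩
  have h1 := vq_norm_le W 1 one_pos hW s
  have hn : ‖s‖ ≤ 2 * (1 + |s.im|) := by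
    have := Complex.norm_le_abs_re_add_abs_im s
    have := abs_nonneg s.im
    linarith
  have h2 : Real.exp (s.re ^ 2 / 1 ^ 2) ≤ Real.exp 4 := by
    apply Real.exp_le_exp.2
    have h3 : s.re ^ 2 ≤ 4 := by
      rw [← sq_abs]
      nlinarith [abs_nonneg s.re]
    simpa using h3
  have hW0 : 0 < W := by linarith
  have h5 : 1 / (1 : ℝ) ^ 2 - 1 / W ^ 2 ≤ 1 := by
    have : 0 ≤ 1 / W ^ 2 := by positivity
    norm_num
    positivity
  have h6 : 0 ≤ 1 / (1 : ℝ) ^ 2 - 1 / W ^ 2 := by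
    have : 1 / W ^ 2 ≤ 1 / (1 : ℝ) ^ 2 := by
      apply one_div_le_one_div_of_le (by positivity)
      exact pow_le_pow_left₀ (by norm_num) hW 2
    linarith
  set X : ℝ := Real.exp (-(s.im ^ 2 / W ^ 2)) with hX
  have hX0 : 0 ≤ X := (Real.exp_pos _).le
  calc ‖vq W 1 s‖ ≤ ‖s‖ * (Real.exp (s.re ^ 2 / 1 ^ 2) * X) * (1 / 1 ^ 2 - 1 / W ^ 2) := h1
    _ ≤ (2 * (1 + |s.im|)) * (Real.exp 4 * X) * 1 := by
        apply mul_le_mul _ h5 h6 (by positivity)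
        apply mul_le_mul hn _ (by positivity) (by positivity)
        exact mul_le_mul_of_nonneg_right h2 hX0
    _ = 2 * Real.exp 4 * (1 + |s.im|) * X := by ring

theorem vq_bound' : ∃ C : ℝ, 0 ≤ C ∧ ∀ W : ℝ, 1 ≤ W → ∀ s : ℂ, |s.re| ≤ 2 →
    ‖s * vq W 1 s‖ ≤ C := by
  refine ⟨2 * Real.exp 4, by positivity, fun W hW s hs => ?_⟩
  by_cases hs0 : s = 0
  · rw [hs0, zero_mul, norm_zero]; positivity
  have hW0 : 0 < W := by linarith
  have h3 : s.re ^ 2 ≤ 4 := by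
    rw [← sq_abs]
    nlinarith [abs_nonneg s.re]
  have hU : ∀ U : ℝ, 1 ≤ U → ‖cexp (s ^ 2 / (U : ℂ) ^ 2)‖ ≤ Real.exp 4 := by
    intro U hU
    have hU0 : 0 < U := by linarith
    rw [Complex.norm_exp]
    apply Real.exp_le_exp.2
    have h4 : (s ^ 2 / (U : ℂ) ^ 2).re = (s.re ^ 2 - s.im ^ 2) / U ^ 2 := by
      rw [← Complex.ofReal_pow, Complex.div_ofReal_re, sq, Complex.mul_re]
      ring
    rw [h4, div_le_iff₀ (by positivity)]
    have h5 : 1 ≤ U ^ 2 := one_le_pow₀ hU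
    nlinarith [sq_nonneg s.im]
  have h6 : s * vq W 1 s = cexp (s ^ 2 / (W : ℂ) ^ 2) - cexp (s ^ 2 / ((1 : ℝ) : ℂ) ^ 2) := by
    unfold vq
    field_simp
  rw [h6]
  calc ‖cexp (s ^ 2 / (W : ℂ) ^ 2) - cexp (s ^ 2 / ((1 : ℝ) : ℂ) ^ 2)‖
      ≤ ‖cexp (s ^ 2 / (W : ℂ) ^ 2)‖ + ‖cexp (s ^ 2 / ((1 : ℝ) : ℂ) ^ 2)‖ := norm_sub_le _ _
    _ ≤ Real.exp 4 + Real.exp 4 := add_le_add (hU W hW) (hU 1 le_rfl)
    _ = 2 * Real.exp 4 := by ring

end Pool.Agent.H15.SC
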