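import Pool.Agent.H15.SC.Gauss
import Pool.Agent.H15.SC.Planch
import Pool.Agent.H15.SC.Shift
import Pool.Agent.H15.SC.Vq
import Pool.Agent.H15.SC.MV
import Pool.Agent.H15.SC.ChiD

/-!
# SC-14  the block estimate  (project SC, MP_be4568_nt)

`cB D U y = (1/2πi) ∫_{(-3/4)} chi(s) vq(2U, U)(s) y^s ds`; the same on the line `3/4` (`vint_shift`; `chi` analytic for
`re s < 1`, `chi_bound`, `vq_block`, `poly_gauss_le`).
`∑_{n ∈ S} (f n/n) cB (n x) = vint Φ σ x`, `Φ(t) = chi(s) vq(s) ∑_{n ∈ S} (f n/n) n^s`, `σ = ±3/4`.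
`|chi(s) vq(s)|² ≤ C U^{d(1-2σ)-2} e^{-t²/(4U²)}` (`pow_mul_gauss` with `p = 2d(1/2-σ) + 2 ≥ 0`), `gauss_mv'` (with
`b n = 0` off `S`), `∑_{n ∈ [M,2M)} f(n)² n^{2σ-2} ≤ C M^{2σ-1+θ}` (`h.ram`), `vint_loc`.
-/

set_option autoImplicit false

open Complex Filter Topology MeasureTheory Set
open scoped ComplexConjugate

namespace Pool.Agent.H15.SC

variable {D : SelData}

/-- block kernel -/
noncomputable def cB (D : SelData) (U y : ℝ) : ℂ :=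
  vint (fun t => D.chi (ln (-(3/4)) t) * vq (2 * U) U (ln (-(3/4)) t)) (-(3/4)) y

/-- the integrand `G = chi * vq (2U) U` decays in the strip -/
theorem blk_bound {d : ℝ} (h : IsSel D d) {W V : ℝ} (hv : ∃ C : ℝ, 0 ≤ C ∧ ∀ s : ℂ, |s.re| ≤ 3/4 →
    ‖vq W V s‖ ≤ C * (1 + |s.im|) * Real.exp (-(s.im ^ 2 / W ^ 2))) (hW : 0 < W) :
    ∃ C : ℝ, 0 ≤ C ∧ ∀ z : ℂ, -(3/4) ≤ z.re → z.re ≤ 3/4 →
      ‖D.chi z * vq W V z‖ ≤ C * Real.exp (-|z.im|) := by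
  obtain ⟨C1, hC1, h1⟩ := chi_bound h
  obtain ⟨C2, hC2, h2⟩ := hv
  obtain ⟨C3, hC3, h3⟩ := poly_gauss_le (d * (5/4) + 1) hW
  have hd : 0 ≤ d := by
    rw [h.deg]
    exact mul_nonneg (by norm_num) (Finset.sum_nonneg fun j _ => (h.lampos j).le)
  refine ⟨C1 * C2 * C3, by positivity, fun z hz1 hz2 => ?_⟩
  have ht : 1 ≤ 1 + |z.im| := by linarith [abs_nonneg z.im]
  have ht0 : 0 < 1 + |z.im| := by linarith
  have e1 : ‖D.chi z‖ ≤ C1 * (1 + |z.im|) ^ (d * (5/4)) := by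
    refine (h1 z hz1 hz2).trans (mul_le_mul_of_nonneg_left ?_ hC1)
    refine Real.rpow_le_rpow_of_exponent_le ht ?_
    exact mul_le_mul_of_nonneg_left (by linarith) hd
  have e2 := h2 z (abs_le.mpr ⟨hz1, hz2⟩)
  have e3 := h3 z.im
  rw [norm_mul]
  calc ‖D.chi z‖ * ‖vq W V z‖
      ≤ (C1 * (1 + |z.im|) ^ (d * (5/4))) * (C2 * (1 + |z.im|) * Real.exp (-(z.im ^ 2 / W ^ 2))) :=
        mul_le_mul e1 e2 (norm_nonneg _) (by positivity)
    _ = C1 * C2 * ((1 + |z.im|) ^ (d * (5/4) + 1) * Real.exp (-(z.im ^ 2 / W ^ 2))) := by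
        rw [Real.rpow_add ht0, Real.rpow_one]
        ring
    _ ≤ C1 * C2 * (C3 * Real.exp (-|z.im|)) := mul_le_mul_of_nonneg_left e3 (by positivity)
    _ = _ := by ring

theorem blk_vq {U : ℝ} (hU : 1 ≤ U) : ∃ C : ℝ, 0 ≤ C ∧ ∀ s : ℂ, |s.re| ≤ 3/4 →
    ‖vq (2 * U) U s‖ ≤ C * (1 + |s.im|) * Real.exp (-(s.im ^ 2 / (2 * U) ^ 2)) := by
  obtain ⟨C, hC, hb⟩ := vq_block
  refine ⟨C, hC, fun s hs => (hb U hU s hs).trans ?_⟩
  have e : (2 * U) ^ 2 = 4 * U ^ 2 := by ring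
  rw [e]
  refine mul_le_mul_of_nonneg_right ?_ (Real.exp_pos _).le
  have h1 : 0 ≤ C * (1 + |s.im|) := mul_nonneg hC (by positivity)
  exact div_le_self h1 (one_le_pow₀ hU)

theorem blk_G_diff {d : ℝ} (h : IsSel D d) (W V : ℝ) :
    DifferentiableOn ℂ (fun z => D.chi z * vq W V z) {z : ℂ | z.re < 1} :=
  (chi_diff h).mul (vq_differentiable W V).differentiableOn

theorem blk_ln_cont (σ : ℝ) : Continuous (fun t : ℝ => ln σ t) := by
  unfold ln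
  fun_prop

theorem blk_G_cont {d : ℝ} (h : IsSel D d) (W V σ : ℝ) (hσ : σ < 1) :
    Continuous (fun t : ℝ => D.chi (ln σ t) * vq W V (ln σ t)) := by
  have h1 : ContinuousOn (fun z => D.chi z * vq W V z) {z : ℂ | z.re < 1} := (blk_G_diff h W V).continuousOn
  exact h1.comp_continuous (blk_ln_cont σ) fun t => by simpa using hσ

theorem blk_exp_int : Integrable (fun t : ℝ => Real.exp (-|t|)) := by
  have h1 : IntegrableOn (fun t : ℝ => Real.exp (-|t|)) (Ioi 0) := by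
    refine (integrableOn_exp_neg_Ioi 0).congr_fun (fun t ht => ?_) measurableSet_Ioi
    simp only [abs_of_pos (mem_Ioi.mp ht)]
  have h2 : IntegrableOn (fun t : ℝ => Real.exp (-|t|)) (Iic 0) := by
    refine (integrableOn_exp_Iic 0).congr_fun (fun t ht => ?_) measurableSet_Iic
    simp only [abs_of_nonpos (mem_Iic.mp ht), neg_neg]
  rw [← integrableOn_univ, ← Iic_union_Ioi (a := (0 : ℝ))]
  exact h2.union h1

theorem blk_G_int {d : ℝ} (h : IsSel D d) {W V : ℝ} (hv : ∃ C : ℝ, 0 ≤ C ∧ ∀ s : ℂ, |s.re| ≤ 3/4 →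
    ‖vq W V s‖ ≤ C * (1 + |s.im|) * Real.exp (-(s.im ^ 2 / W ^ 2))) (hW : 0 < W)
    {σ : ℝ} (hσ : |σ| ≤ 3/4) :
    Integrable (fun t : ℝ => D.chi (ln σ t) * vq W V (ln σ t)) := by
  obtain ⟨C, hC, hb⟩ := blk_bound h hv hW
  have hσ' := abs_le.mp hσ
  refine (blk_exp_int.const_mul C).mono' (blk_G_cont h W V σ (by linarith)).aestronglyMeasurable
    (Eventually.of_forall fun t => ?_)
  have := hb (ln σ t) (by simpa using hσ'.1) (by simpa using hσ'.2)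
  simpa using this

theorem blk_cpow_norm {y : ℝ} (hy : 0 < y) (σ t : ℝ) : ‖(y : ℂ) ^ (ln σ t)‖ = y ^ σ := by
  rw [Complex.norm_cpow_eq_rpow_re_of_pos hy, ln_re]

theorem blk_cpow_cont {y : ℝ} (hy : 0 < y) (σ : ℝ) : Continuous (fun t : ℝ => (y : ℂ) ^ (ln σ t)) := by
  refine Continuous.const_cpow (blk_ln_cont σ) (Or.inl ?_)
  exact_mod_cast hy.ne'

theorem blk_mul_int {Φ : ℝ → ℂ} (hΦ : Integrable Φ) {y : ℝ} (hy : 0 < y) (σ : ℝ) :
    Integrable (fun t : ℝ => Φ t * (y : ℂ) ^ (ln σ t)) := by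
  refine hΦ.mul_bdd (c := y ^ σ) (blk_cpow_cont hy σ).aestronglyMeasurable
    (Eventually.of_forall fun t => ?_)
  exact (blk_cpow_norm hy σ t).le

theorem cB_shift {d : ℝ} (h : IsSel D d) {U : ℝ} (hU : 1 ≤ U) {y : ℝ} (hy : 0 < y) :
    cB D U y = vint (fun t => D.chi (ln (3/4) t) * vq (2 * U) U (ln (3/4) t)) (3/4) y := by
  obtain ⟨C, hC, hb⟩ := blk_bound h (blk_vq hU) (by linarith : (0:ℝ) < 2 * U)
  have := vint_shift (fun z => D.chi z * vq (2 * U) U z) (-(3/4)) (3/4) C (by norm_num)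
    ((blk_G_diff h (2 * U) U).mono fun z hz => by
      have := hz.2
      show z.re < 1
      linarith) hb y hy
  exact this

theorem blk_vq_one (J : ℕ) : ∃ C : ℝ, 0 ≤ C ∧ ∀ s : ℂ, |s.re| ≤ 3/4 →
    ‖vq (2 ^ (J + 1)) (2 ^ J) s‖ ≤ C * (1 + |s.im|) * Real.exp (-(s.im ^ 2 / (2 ^ (J + 1)) ^ 2)) := by
  have h1 : (1 : ℝ) ≤ 2 ^ J := one_le_pow₀ (by norm_num)
  have := blk_vq h1
  have e : (2 : ℝ) * 2 ^ J = 2 ^ (J + 1) := by ring
  rw [e] at this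
  exact this

theorem cW_eq_sum {d : ℝ} (h : IsSel D d) (J : ℕ) {y : ℝ} (hy : 0 < y) :
    cW D (2 ^ J) y = ∑ j ∈ Finset.range J, cB D (2 ^ j) y := by
  unfold cW cB vint
  rw [← Finset.mul_sum, ← integral_finsetSum]
  · congr 1
    refine integral_congr_ae (Eventually.of_forall fun t => ?_)
    simp only
    rw [vq_telescope, Finset.mul_sum, Finset.sum_mul]
    refine Finset.sum_congr rfl fun j _ => ?_
    have e : (2 : ℝ) * 2 ^ j = 2 ^ (j + 1) := by ring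
    rw [e]
  · intro j _
    have e : (2 : ℝ) * 2 ^ j = 2 ^ (j + 1) := by ring
    rw [e]
    refine blk_mul_int (blk_G_int h (blk_vq_one j) (by positivity) ?_) hy _
    rw [abs_neg, abs_of_pos (by norm_num)]

theorem cB_continuousOn {d : ℝ} (h : IsSel D d) {U : ℝ} (hU : 1 ≤ U) : ContinuousOn (cB D U) (Ioi 0) := by
  refine vint_continuousOn _ (blk_G_cont h _ _ _ (by norm_num)) (blk_G_int h (blk_vq hU) (by linarith) ?_) _
  rw [abs_neg, abs_of_pos (by norm_num)]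

/-- `cB` on the line `σ = ±3/4` -/
theorem cB_line {d : ℝ} (h : IsSel D d) {U : ℝ} (hU : 1 ≤ U) {y : ℝ} (hy : 0 < y) {σ : ℝ}
    (hσ : σ = 3/4 ∨ σ = -(3/4)) :
    cB D U y = vint (fun t => D.chi (ln σ t) * vq (2 * U) U (ln σ t)) σ y := by
  rcases hσ with rfl | rfl
  · exact cB_shift h hU hy
  · rfl

theorem blk_sum_vint {d : ℝ} (h : IsSel D d) {U : ℝ} (hU : 1 ≤ U) (S : Finset ℕ) (hS : ∀ n ∈ S, 1 ≤ n)
    (a : ℕ → ℂ) {σ : ℝ} (hσ : σ = 3/4 ∨ σ = -(3/4)) {x : ℝ} (hx : 0 < x) :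
    ∑ n ∈ S, a n * cB D U (n * x) =
      vint (fun t => (D.chi (ln σ t) * vq (2 * U) U (ln σ t)) * ∑ n ∈ S, a n * (n : ℂ) ^ (ln σ t)) σ x := by
  have hσ' : |σ| ≤ 3/4 := by
    rcases hσ with rfl | rfl
    · rw [abs_of_pos (by norm_num)]
    · rw [abs_neg, abs_of_pos (by norm_num)]
  have hG := blk_G_int h (blk_vq hU) (by linarith : (0:ℝ) < 2 * U) hσ'
  have e1 : ∀ n ∈ S, a n * cB D U (n * x) = ((1 / (2 * Real.pi) : ℝ) : ℂ) *
      ∫ t : ℝ, (D.chi (ln σ t) * vq (2 * U) U (ln σ t)) * (a n * (n : ℂ) ^ (ln σ t)) * (x : ℂ) ^ (ln σ t) := by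
    intro n hn
    have hn1 : (0 : ℝ) < n := by exact_mod_cast hS n hn
    rw [cB_line h hU (mul_pos hn1 hx) hσ, vint, mul_left_comm, ← integral_const_mul]
    congr 1
    refine integral_congr_ae (Eventually.of_forall fun t => ?_)
    simp only
    have e2 : (((n : ℝ) * x : ℝ) : ℂ) ^ (ln σ t) = (n : ℂ) ^ (ln σ t) * (x : ℂ) ^ (ln σ t) := by
      rw [Complex.ofReal_mul, Complex.mul_cpow_ofReal_nonneg hn1.le hx.le, Complex.ofReal_natCast]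
    rw [e2]
    ring
  rw [Finset.sum_congr rfl e1, ← Finset.mul_sum, ← integral_finsetSum]
  · unfold vint
    congr 1
    refine integral_congr_ae (Eventually.of_forall fun t => ?_)
    simp only
    rw [Finset.mul_sum, Finset.sum_mul]
  · intro n hn
    have hn1 : (0 : ℝ) < n := by exact_mod_cast hS n hn
    have h3 := ((blk_mul_int (blk_mul_int hG hn1 σ) hx σ)).const_mul (a n)
    refine h3.congr (Eventually.of_forall fun t => ?_)
    simp only [Complex.ofReal_natCast]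
    ring

/-- the size of the kernel on the line `σ` -/
theorem blk_sq {d : ℝ} (h : IsSel D d) {σ : ℝ} (hσ : |σ| ≤ 3/4) (hp : 0 ≤ d * (1 - 2 * σ) + 2) :
    ∃ C : ℝ, 0 ≤ C ∧ ∀ U : ℝ, 1 ≤ U → ∀ t : ℝ,
      ‖D.chi (ln σ t) * vq (2 * U) U (ln σ t)‖ ^ 2 ≤
        C * U ^ (d * (1 - 2 * σ) - 2) * Real.exp (-(t ^ 2 / (4 * U ^ 2))) := by
  obtain ⟨C1, hC1, h1⟩ := chi_bound h
  obtain ⟨C2, hC2, h2⟩ := vq_block
  obtain ⟨C3, hC3, h3⟩ := pow_mul_gauss (d * (1 - 2 * σ) + 2) hp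
  have hσ' := abs_le.mp hσ
  refine ⟨C1 ^ 2 * C2 ^ 2 * C3, by positivity, fun U hU t => ?_⟩
  have hU0 : 0 < U := by linarith
  have ht0 : 0 < 1 + |t| := by positivity
  have e1 := h1 (ln σ t) (by simpa using hσ'.1) (by simpa using hσ'.2)
  have e2 := h2 U hU (ln σ t) (by simpa using hσ)
  rw [ln_re, ln_im] at e1
  rw [ln_im] at e2
  have e3 := h3 U hU t
  rw [norm_mul, mul_pow]
  calc ‖D.chi (ln σ t)‖ ^ 2 * ‖vq (2 * U) U (ln σ t)‖ ^ 2
      ≤ (C1 * (1 + |t|) ^ (d * (1/2 - σ))) ^ 2 *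
        (C2 * (1 + |t|) / U ^ 2 * Real.exp (-(t ^ 2 / (4 * U ^ 2)))) ^ 2 := by gcongr
    _ = C1 ^ 2 * C2 ^ 2 / U ^ 4 * ((1 + |t|) ^ (d * (1 - 2 * σ) + 2) * Real.exp (-(t ^ 2 / (2 * U ^ 2)))) := by
        have a1 : ((1 + |t|) ^ (d * (1/2 - σ))) ^ 2 * (1 + |t|) ^ 2 = (1 + |t|) ^ (d * (1 - 2 * σ) + 2) := by
          rw [← Real.rpow_natCast, ← Real.rpow_mul ht0.le, ← Real.rpow_natCast, ← Real.rpow_add ht0]
          congr 1
          push_cast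
          ring
        have a2 : Real.exp (-(t ^ 2 / (4 * U ^ 2))) ^ 2 = Real.exp (-(t ^ 2 / (2 * U ^ 2))) := by
          rw [← Real.exp_nat_mul]
          congr 1
          field_simp
          ring
        rw [← a1, ← a2]
        field_simp
    _ ≤ C1 ^ 2 * C2 ^ 2 / U ^ 4 * (C3 * U ^ (d * (1 - 2 * σ) + 2) * Real.exp (-(t ^ 2 / (4 * U ^ 2)))) := by
        gcongr
    _ = C1 ^ 2 * C2 ^ 2 * C3 * U ^ (d * (1 - 2 * σ) - 2) * Real.exp (-(t ^ 2 / (4 * U ^ 2))) := by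
        have a3 : U ^ (d * (1 - 2 * σ) + 2) = U ^ (d * (1 - 2 * σ) - 2) * U ^ 4 := by
          rw [← Real.rpow_natCast, ← Real.rpow_add hU0]
          congr 1
          push_cast
          ring
        rw [a3]
        field_simp

/-- the block estimate with the sum of squares of the coefficients -/
theorem block_core {d : ℝ} (h : IsSel D d) {σ : ℝ} (hσ : σ = 3/4 ∨ σ = -(3/4))
    (hp : 0 ≤ d * (1 - 2 * σ) + 2) : ∃ C : ℝ, 0 ≤ C ∧
    ∀ M : ℕ, 1 ≤ M → ∀ U : ℝ, 1 ≤ U → ∀ T : ℝ, 1 ≤ T → ∀ S ⊆ Finset.Ico M (2 * M),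
    ∫ x in T..(2 * T), ‖∑ n ∈ S, ((D.f n / n : ℝ) : ℂ) * cB D U (n * x)‖ ^ 2 ≤
      C * T ^ (1 + 2 * σ) * U ^ (d * (1 - 2 * σ) - 2) * (U + M) *
        ∑ n ∈ Finset.Ico M (2 * M), D.f n ^ 2 * (n : ℝ) ^ (2 * σ - 2) := by
  have hσ' : |σ| ≤ 3/4 := by
    rcases hσ with rfl | rfl
    · rw [abs_of_pos (by norm_num)]
    · rw [abs_neg, abs_of_pos (by norm_num)]
  obtain ⟨K, hK, hKb⟩ := blk_sq h hσ' hp
  obtain ⟨C3, hC3, h3⟩ := gauss_mv'
  refine ⟨K * C3, by positivity, fun M hM U hU T hT S hS => ?_⟩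
  have hU0 : 0 < U := by linarith
  have hT0 : 0 < T := by linarith
  have hS1 : ∀ n ∈ S, 1 ≤ n := fun n hn => le_trans hM (Finset.mem_Ico.mp (hS hn)).1
  set b : ℕ → ℂ := fun n => if n ∈ S then ((D.f n / n : ℝ) : ℂ) else 0 with hb
  set A : ℝ → ℂ := fun t => ∑ n ∈ S, ((D.f n / n : ℝ) : ℂ) * (n : ℂ) ^ (ln σ t) with hA
  set G : ℝ → ℂ := fun t => D.chi (ln σ t) * vq (2 * U) U (ln σ t) with hGdef
  have hAeq : ∀ t, A t = ∑ n ∈ Finset.Ico M (2 * M), b n * (n : ℂ) ^ (ln σ t) := by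
    intro t
    rw [hA, hb]
    simp only [ite_mul, zero_mul]
    rw [← Finset.sum_filter]
    congr 1
    ext n
    rw [Finset.mem_filter]
    exact ⟨fun hn => ⟨hS hn, hn⟩, fun hn => hn.2⟩
  have hAc : Continuous A := by
    refine continuous_finsetSum _ fun n hn => continuous_const.mul ?_
    have hn1 : (0 : ℝ) < n := by exact_mod_cast hS1 n hn
    have := blk_cpow_cont hn1 σ
    simpa using this
  have hAb : ∃ B : ℝ, ∀ t, ‖A t‖ ≤ B := by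
    refine ⟨∑ n ∈ S, ‖((D.f n / n : ℝ) : ℂ)‖ * (n : ℝ) ^ σ, fun t => ?_⟩
    refine (norm_sum_le _ _).trans (Finset.sum_le_sum fun n hn => ?_)
    have hn1 : (0 : ℝ) < n := by exact_mod_cast hS1 n hn
    rw [norm_mul]
    have := blk_cpow_norm hn1 σ t
    rw [Complex.ofReal_natCast] at this
    rw [this]
  obtain ⟨B, hB⟩ := hAb
  have hB0 : 0 ≤ B := (norm_nonneg _).trans (hB 0)
  have hGc : Continuous G := blk_G_cont h _ _ _ (by linarith [(abs_le.mp hσ').2])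
  have hGi : Integrable G := blk_G_int h (blk_vq hU) (by linarith) hσ'
  have hΦc : Continuous (fun t => G t * A t) := hGc.mul hAc
  have hΦi : Integrable (fun t => G t * A t) :=
    hGi.mul_bdd (c := B) hAc.aestronglyMeasurable (Eventually.of_forall hB)
  have hexp : Integrable (fun t : ℝ => Real.exp (-(t ^ 2 / (4 * U ^ 2)))) := mv_int U hU0
  have hpt : ∀ t, ‖G t * A t‖ ^ 2 ≤ K * U ^ (d * (1 - 2 * σ) - 2) *
      (‖A t‖ ^ 2 * Real.exp (-(t ^ 2 / (4 * U ^ 2)))) := by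
    intro t
    rw [norm_mul, mul_pow]
    have := hKb U hU t
    calc ‖G t‖ ^ 2 * ‖A t‖ ^ 2 ≤ (K * U ^ (d * (1 - 2 * σ) - 2) * Real.exp (-(t ^ 2 / (4 * U ^ 2)))) *
          ‖A t‖ ^ 2 := mul_le_mul_of_nonneg_right this (by positivity)
      _ = _ := by ring
  have hAexp : Integrable (fun t => ‖A t‖ ^ 2 * Real.exp (-(t ^ 2 / (4 * U ^ 2)))) := by
    refine hexp.bdd_mul (c := B ^ 2) (hAc.norm.pow 2).aestronglyMeasurable (Eventually.of_forall fun t => ?_)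
    rw [Real.norm_eq_abs, abs_of_nonneg (by positivity)]
    have := hB t
    gcongr
  have hΦ2 : Integrable (fun t => ‖G t * A t‖ ^ 2) := by
    refine (hAexp.const_mul (K * U ^ (d * (1 - 2 * σ) - 2))).mono' (hΦc.norm.pow 2).aestronglyMeasurable
      (Eventually.of_forall fun t => ?_)
    rw [Real.norm_eq_abs, abs_of_nonneg (by positivity)]
    exact hpt t
  have hI : ∫ t, ‖G t * A t‖ ^ 2 ≤ K * U ^ (d * (1 - 2 * σ) - 2) *
      (C3 * (U + M) * ∑ n ∈ Finset.Ico M (2 * M), D.f n ^ 2 * (n : ℝ) ^ (2 * σ - 2)) := by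
    refine (integral_mono hΦ2 (hAexp.const_mul _) hpt).trans ?_
    rw [integral_const_mul]
    refine mul_le_mul_of_nonneg_left ?_ (by positivity)
    have h4 := h3 M hM U hU b σ
    simp_rw [← hAeq] at h4
    refine h4.trans (mul_le_mul_of_nonneg_left ?_ (by positivity))
    refine Finset.sum_le_sum fun n hn => ?_
    have hn1 : 1 ≤ n := le_trans hM (Finset.mem_Ico.mp hn).1
    have hn0 : (0 : ℝ) < n := by exact_mod_cast hn1
    have e5 : (n : ℝ) ^ (2 * σ - 2) = (n : ℝ) ^ (2 * σ) / (n : ℝ) ^ 2 := by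
      rw [Real.rpow_sub hn0]
      norm_num
    rw [e5, hb]
    by_cases hnS : n ∈ S
    · simp only [hnS, if_true]
      rw [Complex.norm_real, Real.norm_eq_abs, sq_abs, div_pow]
      apply le_of_eq
      ring
    · simp only [hnS, if_false, norm_zero]
      have : 0 ≤ D.f n ^ 2 * ((n : ℝ) ^ (2 * σ) / (n : ℝ) ^ 2) := by positivity
      simpa using this
  have hloc := vint_loc (fun t => G t * A t) hΦc hΦi hΦ2 σ hσ' T hT0
  have hTT : T ≤ 2 * T := by linarith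
  have hcongr : ∫ x in T..(2 * T), ‖∑ n ∈ S, ((D.f n / n : ℝ) : ℂ) * cB D U (n * x)‖ ^ 2 =
      ∫ x in T..(2 * T), ‖vint (fun t => G t * A t) σ x‖ ^ 2 := by
    refine intervalIntegral.integral_congr fun x hx => ?_
    rw [uIcc_of_le hTT] at hx
    have hx0 : 0 < x := lt_of_lt_of_le hT0 hx.1
    rw [blk_sum_vint h hU S hS1 (fun n => ((D.f n / n : ℝ) : ℂ)) hσ hx0]
  rw [hcongr]
  refine hloc.trans ?_
  calc T ^ (1 + 2 * σ) * ∫ t, ‖G t * A t‖ ^ 2 ≤ T ^ (1 + 2 * σ) * (K * U ^ (d * (1 - 2 * σ) - 2) *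
      (C3 * (U + M) * ∑ n ∈ Finset.Ico M (2 * M), D.f n ^ 2 * (n : ℝ) ^ (2 * σ - 2))) :=
        mul_le_mul_of_nonneg_left hI (by positivity)
    _ = _ := by ring

theorem blk_rpow_dyadic {M n : ℕ} (hM : 1 ≤ M) (h1 : M ≤ n) (h2 : n < 2 * M) (e : ℝ) :
    (n : ℝ) ^ e ≤ 2 ^ |e| * (M : ℝ) ^ e := by
  have hM0 : (0 : ℝ) < M := by exact_mod_cast hM
  have hn0 : (0 : ℝ) < n := by exact_mod_cast le_trans hM h1
  have h1' : (M : ℝ) ≤ n := by exact_mod_cast h1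
  have h2' : (n : ℝ) ≤ 2 * M := by exact_mod_cast h2.le
  have hq1 : 1 ≤ (n : ℝ) / M := by rw [le_div_iff₀ hM0]; linarith
  have hq2 : (n : ℝ) / M ≤ 2 := by rw [div_le_iff₀ hM0]; linarith
  have e1 : (n : ℝ) ^ e = ((n : ℝ) / M) ^ e * (M : ℝ) ^ e := by
    rw [← Real.mul_rpow (by positivity) hM0.le]
    congr 1
    field_simp
  rw [e1]
  refine mul_le_mul_of_nonneg_right ?_ (by positivity)
  calc ((n : ℝ) / M) ^ e ≤ ((n : ℝ) / M) ^ |e| := Real.rpow_le_rpow_of_exponent_le hq1 (le_abs_self e)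
    _ ≤ 2 ^ |e| := Real.rpow_le_rpow (by positivity) hq2 (abs_nonneg e)

/-- powers of `T`, `M`, `U` -/
theorem blk_powers {T U : ℝ} {M : ℕ} (hT : 0 < T) (hU : 0 < U) (hM : 1 ≤ M) (d : ℕ) (σ a : ℝ) :
    T ^ (1 + 2 * σ) * U ^ ((d : ℝ) * (1 - 2 * σ) - 2) * (M : ℝ) ^ (a + 2 * σ) =
      T * U ^ ((d : ℝ) - 2) * (M : ℝ) ^ a * (T * M / U ^ d) ^ (2 * σ) := by
  have hM0 : (0 : ℝ) < M := by exact_mod_cast hM
  rw [Real.div_rpow (by positivity) (by positivity), Real.mul_rpow hT.le hM0.le, Real.rpow_add hT, Real.rpow_one,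
    Real.rpow_add hM0, ← Real.rpow_natCast U d, ← Real.rpow_mul hU.le]
  have e1 : U ^ ((d : ℝ) * (1 - 2 * σ) - 2) = U ^ ((d : ℝ) - 2) / U ^ ((d : ℝ) * (2 * σ)) := by
    rw [← Real.rpow_sub hU]
    congr 1
    ring
  rw [e1]
  ring

theorem block {d : ℕ} (hd : d = 2 ∨ d = 3) (h : IsSel D d) (θ : ℝ) (hθ : 0 < θ) : ∃ C : ℝ, 0 ≤ C ∧
    ∀ M : ℕ, 1 ≤ M → ∀ U : ℝ, 1 ≤ U → ∀ T : ℝ, 1 ≤ T → ∀ S ⊆ Finset.Ico M (2 * M),
    ∀ σ : ℝ, (σ = 3/4 ∨ σ = -(3/4)) →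
    ∫ x in T..(2 * T), ‖∑ n ∈ S, ((D.f n / n : ℝ) : ℂ) * cB D U (n * x)‖ ^ 2 ≤
      C * T * U ^ ((d : ℝ) - 2) * (U + M) * (M : ℝ) ^ (θ - 1) * (T * M / U ^ d) ^ (2 * σ) := by
  have key : ∀ σ : ℝ, (σ = 3/4 ∨ σ = -(3/4)) → ∃ C : ℝ, 0 ≤ C ∧
      ∀ M : ℕ, 1 ≤ M → ∀ U : ℝ, 1 ≤ U → ∀ T : ℝ, 1 ≤ T → ∀ S ⊆ Finset.Ico M (2 * M),
      ∫ x in T..(2 * T), ‖∑ n ∈ S, ((D.f n / n : ℝ) : ℂ) * cB D U (n * x)‖ ^ 2 ≤
        C * T * U ^ ((d : ℝ) - 2) * (U + M) * (M : ℝ) ^ (θ - 1) * (T * M / U ^ d) ^ (2 * σ) := by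
    intro σ hσ
    have hp : 0 ≤ (d : ℝ) * (1 - 2 * σ) + 2 := by
      rcases hd with rfl | rfl <;> rcases hσ with rfl | rfl <;> norm_num
    obtain ⟨C1, hC1, h1⟩ := block_core h hσ hp
    obtain ⟨C2, h2⟩ := h.ram (θ / 2) (by linarith)
    set e : ℝ := θ + 2 * σ - 2 with he
    refine ⟨C1 * (C2 ^ 2 * 2 ^ |e|), by positivity, fun M hM U hU T hT S hS => ?_⟩
    have hU0 : 0 < U := by linarith
    have hT0 : 0 < T := by linarith
    have hM0 : (0 : ℝ) < M := by exact_mod_cast hM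
    have hsum : ∑ n ∈ Finset.Ico M (2 * M), D.f n ^ 2 * (n : ℝ) ^ (2 * σ - 2) ≤
        C2 ^ 2 * 2 ^ |e| * (M : ℝ) ^ ((θ - 1) + 2 * σ) := by
      have hterm : ∀ n ∈ Finset.Ico M (2 * M), D.f n ^ 2 * (n : ℝ) ^ (2 * σ - 2) ≤
          C2 ^ 2 * 2 ^ |e| * (M : ℝ) ^ e := by
        intro n hn
        rw [Finset.mem_Ico] at hn
        have hn1 : 1 ≤ n := le_trans hM hn.1
        have hn0 : (0 : ℝ) < n := by exact_mod_cast hn1
        have a1 : D.f n ^ 2 ≤ C2 ^ 2 * (n : ℝ) ^ θ := by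
          have := h2 n hn1
          calc D.f n ^ 2 = |D.f n| ^ 2 := (sq_abs _).symm
            _ ≤ (C2 * (n : ℝ) ^ (θ / 2)) ^ 2 := by gcongr
            _ = C2 ^ 2 * (n : ℝ) ^ θ := by
                rw [mul_pow, ← Real.rpow_natCast ((n : ℝ) ^ (θ / 2)), ← Real.rpow_mul hn0.le]
                congr 2
                push_cast
                ring
        calc D.f n ^ 2 * (n : ℝ) ^ (2 * σ - 2) ≤ (C2 ^ 2 * (n : ℝ) ^ θ) * (n : ℝ) ^ (2 * σ - 2) :=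
              mul_le_mul_of_nonneg_right a1 (by positivity)
          _ = C2 ^ 2 * (n : ℝ) ^ e := by
              rw [mul_assoc, ← Real.rpow_add hn0]
              congr 2
              rw [he]
              ring
          _ ≤ C2 ^ 2 * (2 ^ |e| * (M : ℝ) ^ e) :=
              mul_le_mul_of_nonneg_left (blk_rpow_dyadic hM hn.1 hn.2 e) (by positivity)
          _ = _ := by ring
      refine (Finset.sum_le_card_nsmul _ _ _ hterm).trans ?_
      rw [Nat.card_Ico, nsmul_eq_mul]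
      have e2 : ((2 * M - M : ℕ) : ℝ) = M := by
        congr 1
        omega
      have e3 : (M : ℝ) ^ ((θ - 1) + 2 * σ) = (M : ℝ) * (M : ℝ) ^ e := by
        have a2 : (θ - 1) + 2 * σ = 1 + e := by
          rw [he]
          ring
        rw [a2, Real.rpow_add hM0, Real.rpow_one]
      rw [e2, e3]
      apply le_of_eq
      ring
    refine (h1 M hM U hU T hT S hS).trans ?_
    have hpw := blk_powers hT0 hU0 hM d σ (θ - 1)
    calc C1 * T ^ (1 + 2 * σ) * U ^ ((d : ℝ) * (1 - 2 * σ) - 2) * (U + M) *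
          ∑ n ∈ Finset.Ico M (2 * M), D.f n ^ 2 * (n : ℝ) ^ (2 * σ - 2)
        ≤ C1 * T ^ (1 + 2 * σ) * U ^ ((d : ℝ) * (1 - 2 * σ) - 2) * (U + M) *
          (C2 ^ 2 * 2 ^ |e| * (M : ℝ) ^ ((θ - 1) + 2 * σ)) := by
          refine mul_le_mul_of_nonneg_left hsum (by positivity)
      _ = C1 * (C2 ^ 2 * 2 ^ |e|) * (U + M) *
          (T ^ (1 + 2 * σ) * U ^ ((d : ℝ) * (1 - 2 * σ) - 2) * (M : ℝ) ^ ((θ - 1) + 2 * σ)) := by ring
      _ = _ := by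
          rw [hpw]
          ring
  obtain ⟨C1, hC1, h1⟩ := key (3/4) (Or.inl rfl)
  obtain ⟨C2, hC2, h2⟩ := key (-(3/4)) (Or.inr rfl)
  refine ⟨C1 + C2, by positivity, fun M hM U hU T hT S hS σ hσ => ?_⟩
  have hU0 : 0 < U := by linarith
  have hT0 : 0 < T := by linarith
  have hM0 : (0 : ℝ) < M := by exact_mod_cast hM
  rcases hσ with rfl | rfl
  · refine (h1 M hM U hU T hT S hS).trans ?_
    have : 0 ≤ C2 * T * U ^ ((d : ℝ) - 2) * (U + M) * (M : ℝ) ^ (θ - 1) * (T * M / U ^ d) ^ (2 * (3/4 : ℝ)) := by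
      positivity
    linarith [this]
  · refine (h2 M hM U hU T hT S hS).trans ?_
    have : 0 ≤ C1 * T * U ^ ((d : ℝ) - 2) * (U + M) * (M : ℝ) ^ (θ - 1) * (T * M / U ^ d) ^ (2 * (-(3/4) : ℝ)) := by
      positivity
    linarith [this]

end Pool.Agent.H15.SC
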