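import Pool.Agent.H15.SC.ChiD

/-!
# SC-11  asymptotic comparison of `chi(s)/s` with the explicit kernels  (project SC, MP_be4568_nt)

For `im s ≥ t0` (`log s` principal): with `gamma_lin`,
`chi(s) = exp (-d s log s + d s + s (iπd/2 - 2 log Q - 2 ∑ lam log lam) + (d/2 - 2i ∑ im mu) log s + const + O(1/t))`,
`s Kp(s) = exp (-d s log s + d s + s (-d log d + iπd/2 + d log c) + (dβ + 1/2) log s + const' + O(1/t))`,
`β = (d-1)/(2d) + iη`.  So choose `η = -(2/d) ∑ im mu`, `log c = log d - (2 log Q + 2 ∑ lam log lam)/d`,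
`κ` with equal constants.  Then `chi(s)/s - Kp(s) = Kp(s) (exp(O(1/t)) - 1)`, and
`|Kp(s)| ≤ C t^{d(1/2-σ)-1}` (norm of the formula), `Km` is exponentially small for `im s → +∞`
(`|Γ(d(conj β - s))| ≤ C e^{-πdt/2} t^A`, `|(i c)^{..}| ≤ C e^{-πdt/2}`).  For `im s ≤ -t0` conjugate (`conj_chi`).
For `1 ≤ |im s| ≤ t0` compactness (`re s ≤ 1/8 < re β`, the Gamma factor of `Kp` is analytic there).
-/

set_option autoImplicit false

open Complex Filter Topology MeasureTheory Set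
open scoped ComplexConjugate

namespace Pool.Agent.H15.SC

variable {D : SelData}

/-- `|Γ(z)| ≤ Γ(re z)` -/
theorem norm_Gamma_le_re {z : ℂ} (hz : 0 < z.re) : ‖Complex.Gamma z‖ ≤ Real.Gamma z.re := by
  rw [Complex.Gamma_eq_integral hz, Real.Gamma_eq_integral hz, Complex.GammaIntegral]
  refine (norm_integral_le_integral_norm _).trans (le_of_eq ?_)
  refine setIntegral_congr_fun measurableSet_Ioi (fun x hx => ?_)
  have hx' : (0 : ℝ) < x := hx
  simp only [norm_mul, Complex.norm_cpow_eq_rpow_re_of_pos hx', Complex.norm_real, Real.norm_eq_abs,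
    abs_of_pos (Real.exp_pos _), sub_re, one_re]

/-- the exponent belonging to one Gamma quotient -/
noncomputable def expA (l : ℝ) (μ : ℂ) (s : ℂ) : ℂ :=
  (-(l : ℂ) * s + (l + conj μ) - 1/2) * ((Real.log l : ℝ) + Complex.log s - (Real.pi : ℂ) * I)
    - ((l : ℂ) * s + μ - 1/2) * ((Real.log l : ℝ) + Complex.log s) + 2 * l * s

theorem ratio_one (l : ℝ) (hl : 0 < l) (μ : ℂ) : ∃ C t₀ : ℝ, 0 ≤ C ∧ 1 ≤ t₀ ∧ ∀ s : ℂ, |s.re| ≤ 2 → t₀ ≤ s.im →
    ∃ E : ℂ, ‖E‖ ≤ C / s.im ∧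
      Complex.Gamma ((l : ℂ) * (1 - s) + conj μ) / Complex.Gamma ((l : ℂ) * s + μ) = cexp (expA l μ s + E) := by
  obtain ⟨C1, t1, hC1, ht1, h1⟩ := gamma_lin (-l) (neg_ne_zero.mpr hl.ne') (l + conj μ)
  obtain ⟨C2, t2, hC2, ht2, h2⟩ := gamma_lin l hl.ne' μ
  refine ⟨C1 + C2, max t1 t2, add_nonneg hC1 hC2, le_max_of_le_left ht1, fun s hs ht => ?_⟩
  have hp : 0 < s.im := lt_of_lt_of_le (lt_of_lt_of_le one_pos ht1) ((le_max_left _ _).trans ht)
  obtain ⟨E1, hE1, e1⟩ := h1 s hs ((le_max_left _ _).trans ht)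
  obtain ⟨E2, hE2, e2⟩ := h2 s hs ((le_max_right _ _).trans ht)
  refine ⟨E1 - E2, ?_, ?_⟩
  · rw [add_div]; exact (norm_sub_le _ _).trans (add_le_add hE1 hE2)
  · have harg : (l : ℂ) * (1 - s) + conj μ = ((-l : ℝ) : ℂ) * s + (l + conj μ) := by push_cast; ring
    have hs2 : (Real.sqrt (2 * Real.pi) : ℂ) ≠ 0 := by
      rw [Ne, Complex.ofReal_eq_zero]
      exact (Real.sqrt_pos.mpr (by positivity)).ne'
    rw [harg, e1, e2, mul_div_mul_left _ _ hs2, ← Complex.exp_sub]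
    congr 1
    rw [if_pos (neg_lt_zero.mpr hl), if_neg (not_lt.mpr hl.le), abs_neg, abs_of_pos hl, expA]
    push_cast
    ring


theorem ratio_prod (r : ℕ) (lam : Fin r → ℝ) (hl : ∀ j, 0 < lam j) (mu : Fin r → ℂ) :
    ∃ C t₀ : ℝ, 0 ≤ C ∧ 1 ≤ t₀ ∧ ∀ s : ℂ, |s.re| ≤ 2 → t₀ ≤ s.im →
    ∃ E : ℂ, ‖E‖ ≤ C / s.im ∧
      ∏ j, (Complex.Gamma ((lam j : ℂ) * (1 - s) + conj (mu j)) / Complex.Gamma ((lam j : ℂ) * s + mu j)) =
        cexp (∑ j, expA (lam j) (mu j) s + E) := by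
  have H := fun j => ratio_one (lam j) (hl j) (mu j)
  choose C t₀ hC ht h using H
  refine ⟨∑ j, C j, 1 + ∑ j, t₀ j, Finset.sum_nonneg (fun j _ => hC j), ?_, fun s hs hts => ?_⟩
  · have : 0 ≤ ∑ j, t₀ j := Finset.sum_nonneg (fun j _ => zero_le_one.trans (ht j))
    linarith
  · have ht' : ∀ j, t₀ j ≤ s.im := by
      intro j
      have : t₀ j ≤ ∑ j, t₀ j :=
        Finset.single_le_sum (f := t₀) (fun i _ => zero_le_one.trans (ht i)) (Finset.mem_univ j)
      linarith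
    have H2 := fun j => h j s hs (ht' j)
    choose E hE e using H2
    refine ⟨∑ j, E j, ?_, ?_⟩
    · refine (norm_sum_le _ _).trans ?_
      rw [Finset.sum_div]
      exact Finset.sum_le_sum (fun j _ => hE j)
    · rw [← Finset.sum_add_distrib, Complex.exp_sum]
      exact Finset.prod_congr rfl (fun j _ => e j)

/-- the constants -/
noncomputable def LL (D : SelData) : ℝ := ∑ j, D.lam j * Real.log (D.lam j)
noncomputable def MM (D : SelData) : ℝ := ∑ j, (D.mu j).im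
noncomputable def cc (D : SelData) (d : ℕ) : ℝ :=
  Real.exp (Real.log d - (2 * Real.log D.Q + 2 * LL D) / d)
noncomputable def et (D : SelData) (d : ℕ) : ℝ := -(2 / d) * MM D
noncomputable def cst (l : ℝ) (μ : ℂ) : ℂ :=
  ((l : ℂ) - 2 * μ.im * I) * (Real.log l : ℝ) - Real.pi * I * (l + conj μ - 1/2)

theorem expA_eq (l : ℝ) (μ : ℂ) (s : ℂ) :
    expA l μ s = (l : ℂ) * (-2 * s * Complex.log s + Complex.log s + Real.pi * I * s + 2 * s)
      + ((l * Real.log l : ℝ) : ℂ) * (-2 * s) + (μ.im : ℂ) * (-2 * I * Complex.log s) + cst l μ := by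
  have hm : (μ.im : ℂ) * (2 * I) = μ - conj μ := by
    rw [Complex.sub_conj]; push_cast; ring
  have e1 : (μ.im : ℂ) * (-2 * I * Complex.log s) = -(μ - conj μ) * Complex.log s := by
    rw [← hm]; ring
  have e2 : cst l μ = ((l : ℂ) - (μ - conj μ)) * (Real.log l : ℝ) - Real.pi * I * (l + conj μ - 1/2) := by
    rw [← hm, cst]; ring
  rw [e1, e2, expA]
  push_cast
  ring

theorem sum_expA (D : SelData) (s : ℂ) :
    ∑ j, expA (D.lam j) (D.mu j) s =
      ((∑ j, D.lam j : ℝ) : ℂ) * (-2 * s * Complex.log s + Complex.log s + Real.pi * I * s + 2 * s)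
      + ((LL D : ℝ) : ℂ) * (-2 * s) + (MM D : ℂ) * (-2 * I * Complex.log s)
      + ∑ j, cst (D.lam j) (D.mu j) := by
  simp only [expA_eq, Finset.sum_add_distrib, ← Finset.sum_mul, LL, MM, Complex.ofReal_sum]

/-- the exponent of the kernel -/
noncomputable def expB (d : ℕ) (β : ℂ) (c : ℝ) (s : ℂ) : ℂ :=
  (-(d : ℂ) * s + d * β - 1/2) * ((Real.log d : ℝ) + Complex.log s - (Real.pi : ℂ) * I) + d * s
    + ((Real.log c : ℝ) - Real.pi / 2 * I) * (-(d * (β - s)))

theorem log_negI {c : ℝ} (hc : 0 < c) : Complex.log (-(I * c)) = (Real.log c : ℝ) - Real.pi / 2 * I := by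
  have h1 : -(I * (c : ℂ)) = (c : ℂ) * (-I) := by ring
  rw [h1, Complex.log_ofReal_mul hc (neg_ne_zero.mpr I_ne_zero), Complex.log_neg_I]
  ring

theorem Kp_asymp (d : ℕ) (hd : 2 ≤ d) (κ β : ℂ) (c : ℝ) (hc : 0 < c) : ∃ C t₀ : ℝ, 0 ≤ C ∧ 1 ≤ t₀ ∧
    ∀ s : ℂ, |s.re| ≤ 2 → t₀ ≤ s.im → ∃ E : ℂ, ‖E‖ ≤ C / s.im ∧
      Kp d κ β c s = κ * d * (Real.sqrt (2 * Real.pi) : ℂ) * cexp (expB d β c s + E) := by
  have hd0 : (0 : ℝ) < d := by have : (2 : ℝ) ≤ d := by exact_mod_cast hd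
                               linarith
  obtain ⟨C, t0, hC, ht, h⟩ := gamma_lin (-(d : ℝ)) (neg_ne_zero.mpr hd0.ne') (d * β)
  refine ⟨C, t0, hC, ht, fun s hs hts => ?_⟩
  obtain ⟨E, hE, e⟩ := h s hs hts
  refine ⟨E, hE, ?_⟩
  have harg : (d : ℂ) * (β - s) = ((-(d : ℝ) : ℝ) : ℂ) * s + d * β := by push_cast; ring
  have hne : (-(I * (c : ℂ))) ≠ 0 := neg_ne_zero.mpr (mul_ne_zero I_ne_zero (by exact_mod_cast hc.ne'))
  rw [Kp, Complex.cpow_def_of_ne_zero hne, log_negI hc]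
  rw [show Complex.Gamma ((d : ℂ) * (β - s)) = Complex.Gamma (((-(d : ℝ) : ℝ) : ℂ) * s + d * β) by rw [harg], e]
  rw [if_pos (neg_lt_zero.mpr hd0), abs_neg, abs_of_pos hd0]
  rw [show ∀ a b x y z : ℂ, a * b * (x * cexp y) * cexp z = a * b * x * (cexp y * cexp z) from
    fun a b x y z => by ring, ← Complex.exp_add]
  congr 2
  rw [expB]
  push_cast
  ring

/-- the constant of the exponent -/
noncomputable def K0 (D : SelData) (d : ℕ) : ℂ :=
  (Real.log D.Q : ℝ) + ∑ j, cst (D.lam j) (D.mu j)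
    - (((d : ℂ) * bet d (et D d) - 1/2) * ((Real.log d : ℝ) - (Real.pi : ℂ) * I)
      - d * bet d (et D d) * ((Real.log (cc D d) : ℝ) - Real.pi / 2 * I))

theorem const_match (D : SelData) (d : ℕ) (hd : 2 ≤ d) (hdeg : (d : ℝ) = 2 * ∑ j, D.lam j) (s : ℂ) :
    (Real.log D.Q : ℝ) * (1 - 2 * s) + ∑ j, expA (D.lam j) (D.mu j) s - Complex.log s =
      K0 D d + expB d (bet d (et D d)) (cc D d) s := by
  have hd0 : (0 : ℝ) < d := by have : (2 : ℝ) ≤ d := by exact_mod_cast hd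
                               linarith
  have hd0' : (d : ℂ) ≠ 0 := by exact_mod_cast hd0.ne'
  have hlc : Real.log (cc D d) = Real.log d - (2 * Real.log D.Q + 2 * LL D) / d := by
    rw [cc, Real.log_exp]
  have h1 : (d : ℂ) * (Real.log (cc D d) : ℝ) =
      d * (Real.log d : ℝ) - (2 * (Real.log D.Q : ℝ) + 2 * (LL D : ℝ)) := by
    rw [hlc]; push_cast; field_simp
  have h2 : (d : ℂ) * bet d (et D d) = (d - 1) / 2 - 2 * (MM D : ℝ) * I := by
    rw [bet, et]; push_cast; field_simp; ring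
  have h3 : ((∑ j, D.lam j : ℝ) : ℂ) = d / 2 := by
    have : (∑ j, D.lam j : ℝ) = d / 2 := by linarith
    rw [this]; push_cast; ring
  rw [sum_expA, h3, K0, expB]
  linear_combination (-s) * h1 - Complex.log s * h2

theorem chi_asymp (D : SelData) (d : ℕ) (hd : 2 ≤ d) (h : IsSel D d) : ∃ C t₀ : ℝ, 0 ≤ C ∧ 1 ≤ t₀ ∧
    ∀ s : ℂ, |s.re| ≤ 2 → t₀ ≤ s.im → ∃ E : ℂ, ‖E‖ ≤ C / s.im ∧
      D.chi s / s = D.ω * cexp (K0 D d + expB d (bet d (et D d)) (cc D d) s + E) := by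
  obtain ⟨C, t0, hC, ht, H⟩ := ratio_prod D.r D.lam h.lampos D.mu
  refine ⟨C, t0, hC, ht, fun s hs hts => ?_⟩
  obtain ⟨E, hE, e⟩ := H s hs hts
  refine ⟨E, hE, ?_⟩
  have him : 0 < s.im := lt_of_lt_of_le (lt_of_lt_of_le one_pos ht) hts
  have hs0 : s ≠ 0 := by rintro rfl; simp at him
  have hQ : (D.Q : ℂ) ≠ 0 := by exact_mod_cast h.Qpos.ne'
  have hinv : (1 : ℂ) / s = cexp (-Complex.log s) := by
    rw [Complex.exp_neg, Complex.exp_log hs0, one_div]
  rw [SelData.chi, e, Complex.cpow_def_of_ne_zero hQ, ← Complex.ofReal_log h.Qpos.le,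
    ← const_match D d hd h.deg s, div_eq_mul_one_div, hinv]
  rw [show ∀ a x y z : ℂ, a * cexp x * cexp y * cexp z = a * (cexp x * cexp y * cexp z) from
    fun a x y z => by ring, ← Complex.exp_add, ← Complex.exp_add]
  congr 2
  ring

/-- the constant `κ` -/
noncomputable def kap (D : SelData) (d : ℕ) : ℂ :=
  D.ω * cexp (K0 D d) / (d * (Real.sqrt (2 * Real.pi) : ℂ))

theorem upper (D : SelData) (d : ℕ) (hd : 2 ≤ d) (h : IsSel D d) : ∃ C t₀ : ℝ, 0 ≤ C ∧ 1 ≤ t₀ ∧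
    ∀ s : ℂ, -(3/4) ≤ s.re → s.re ≤ 1/8 → t₀ ≤ s.im →
      ‖D.chi s / s - Kp d (kap D d) (bet d (et D d)) (cc D d) s‖ ≤
        C * s.im ^ ((d : ℝ) * (1/2 - s.re) - 2) := by
  have hd2 : (2 : ℝ) ≤ d := by exact_mod_cast hd
  have hd0 : (0 : ℝ) < d := by linarith
  have hc : 0 < cc D d := Real.exp_pos _
  obtain ⟨C1, t1, hC1, ht1, H1⟩ := chi_asymp D d hd h
  obtain ⟨C2, t2, hC2, ht2, H2⟩ := Kp_asymp d hd (kap D d) (bet d (et D d)) (cc D d) hc
  obtain ⟨C3, hC3, H3⟩ := chi_bound h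
  refine ⟨C3 * 2 ^ ((d : ℝ) * (5/4)) * (2 * (C1 + C2)), max (max t1 t2) (max 1 (C1 + C2)),
    by positivity, le_max_of_le_left (le_max_of_le_left ht1), fun s hs1 hs2 ht => ?_⟩
  have h1 : t1 ≤ s.im := (le_max_left t1 t2).trans ((le_max_left _ _).trans ht)
  have h2 : t2 ≤ s.im := (le_max_right t1 t2).trans ((le_max_left _ _).trans ht)
  have h3 : 1 ≤ s.im := ht1.trans h1
  have h4 : C1 + C2 ≤ s.im := (le_max_right 1 (C1 + C2)).trans ((le_max_right _ _).trans ht)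
  have him : 0 < s.im := by linarith
  have hre : |s.re| ≤ 2 := by rw [abs_le]; constructor <;> linarith
  have hs0 : s ≠ 0 := by rintro rfl; simp at him
  obtain ⟨E1, hE1, e1⟩ := H1 s hre h1
  obtain ⟨E2, hE2, e2⟩ := H2 s hre h2
  have hsq : (Real.sqrt (2 * Real.pi) : ℂ) ≠ 0 := by
    rw [Ne, Complex.ofReal_eq_zero]
    exact (Real.sqrt_pos.mpr (by positivity)).ne'
  have hdc : (d : ℂ) ≠ 0 := by exact_mod_cast hd0.ne'
  have e3 : Kp d (kap D d) (bet d (et D d)) (cc D d) s = D.chi s / s * cexp (E2 - E1) := by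
    rw [e1, e2, kap]
    rw [show D.ω * cexp (K0 D d) / (d * (Real.sqrt (2 * Real.pi) : ℂ)) * d * (Real.sqrt (2 * Real.pi) : ℂ)
      = D.ω * cexp (K0 D d) by field_simp, mul_assoc, mul_assoc, ← Complex.exp_add, ← Complex.exp_add]
    congr 2
    ring
  have e4 : D.chi s / s - Kp d (kap D d) (bet d (et D d)) (cc D d) s =
      -(D.chi s / s * (cexp (E2 - E1) - 1)) := by rw [e3]; ring
  have hEE : ‖E2 - E1‖ ≤ (C1 + C2) / s.im := by
    refine (norm_sub_le _ _).trans ?_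
    rw [add_div, add_comm (C1 / s.im)]
    exact add_le_add hE2 hE1
  have hEE1 : ‖E2 - E1‖ ≤ 1 := hEE.trans ((div_le_one him).mpr h4)
  have hexp : ‖cexp (E2 - E1) - 1‖ ≤ 2 * ((C1 + C2) / s.im) :=
    (Complex.norm_exp_sub_one_le hEE1).trans (by linarith)
  have hchi : ‖D.chi s / s‖ ≤ C3 * (1 + s.im) ^ ((d : ℝ) * (1/2 - s.re)) / s.im := by
    rw [norm_div]
    have hn : s.im ≤ ‖s‖ := (le_abs_self _).trans (Complex.abs_im_le_norm s)
    have := H3 s hs1 (by linarith)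
    rw [abs_of_pos him] at this
    exact div_le_div₀ (by positivity) this him hn
  have hpow : (1 + s.im) ^ ((d : ℝ) * (1/2 - s.re)) ≤ 2 ^ ((d : ℝ) * (5/4)) * s.im ^ ((d : ℝ) * (1/2 - s.re)) := by
    have hp0 : 0 ≤ (d : ℝ) * (1/2 - s.re) := mul_nonneg hd0.le (by linarith)
    calc (1 + s.im) ^ ((d : ℝ) * (1/2 - s.re)) ≤ (2 * s.im) ^ ((d : ℝ) * (1/2 - s.re)) :=
          Real.rpow_le_rpow (by linarith) (by linarith) hp0
      _ = 2 ^ ((d : ℝ) * (1/2 - s.re)) * s.im ^ ((d : ℝ) * (1/2 - s.re)) :=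
          Real.mul_rpow (by norm_num) him.le
      _ ≤ _ := by
          refine mul_le_mul_of_nonneg_right ?_ (Real.rpow_nonneg him.le _)
          refine Real.rpow_le_rpow_of_exponent_le (by norm_num) ?_
          refine mul_le_mul_of_nonneg_left (by linarith) hd0.le
  rw [e4, norm_neg, norm_mul]
  have hsplit : s.im ^ ((d : ℝ) * (1/2 - s.re) - 2) = s.im ^ ((d : ℝ) * (1/2 - s.re)) / s.im / s.im := by
    rw [Real.rpow_sub him, Real.rpow_two, div_div, sq]
  rw [hsplit]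
  calc ‖D.chi s / s‖ * ‖cexp (E2 - E1) - 1‖
      ≤ (C3 * (1 + s.im) ^ ((d : ℝ) * (1/2 - s.re)) / s.im) * (2 * ((C1 + C2) / s.im)) :=
        mul_le_mul hchi hexp (norm_nonneg _) (by positivity)
    _ ≤ (C3 * (2 ^ ((d : ℝ) * (5/4)) * s.im ^ ((d : ℝ) * (1/2 - s.re))) / s.im) * (2 * ((C1 + C2) / s.im)) := by
        gcongr
    _ = _ := by field_simp

theorem gamma_bdd (a b : ℝ) (ha : 0 < a) (hab : a ≤ b) : ∃ G : ℝ, 0 ≤ G ∧ ∀ x : ℝ, a ≤ x → x ≤ b → Real.Gamma x ≤ G := by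
  have hcont : ContinuousOn Real.Gamma (Icc a b) := fun x hx =>
    (Real.differentiableAt_Gamma (fun m => by
      have : 0 < x := ha.trans_le hx.1
      intro hh
      have : (0 : ℝ) ≤ m := Nat.cast_nonneg m
      linarith)).continuousAt.continuousWithinAt
  obtain ⟨x0, hx0, hmax⟩ := isCompact_Icc.exists_isMaxOn ⟨a, left_mem_Icc.mpr hab⟩ hcont
  exact ⟨Real.Gamma x0, (Real.Gamma_pos_of_pos (ha.trans_le hx0.1)).le, fun x h1 h2 => hmax ⟨h1, h2⟩⟩

theorem bet_re (d : ℕ) (η : ℝ) : (bet d η).re = ((d : ℝ) - 1) / (2 * d) := by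
  rw [bet, Complex.add_re, Complex.ofReal_re, Complex.re_ofReal_mul, Complex.I_re, mul_zero, add_zero]

theorem bet_im (d : ℕ) (η : ℝ) : (bet d η).im = η := by
  rw [bet, Complex.add_im, Complex.ofReal_im, Complex.im_ofReal_mul, Complex.I_im, mul_one, zero_add]

theorem lower (d : ℕ) (hd : 2 ≤ d) (κ : ℂ) (η c : ℝ) (hc : 0 < c) : ∃ C : ℝ, 0 ≤ C ∧
    ∀ s : ℂ, -(3/4) ≤ s.re → s.re ≤ 1/8 → 1 ≤ s.im →
      ‖Km d κ (bet d η) c s‖ ≤ C * s.im ^ ((d : ℝ) * (1/2 - s.re) - 2) := by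
  have hd2 : (2 : ℝ) ≤ d := by exact_mod_cast hd
  have hd0 : (0 : ℝ) < d := by linarith
  have hdc : (d : ℂ) ≠ 0 := by exact_mod_cast hd0.ne'
  obtain ⟨G, hG, hGb⟩ := gamma_bdd (1/4) (2 * d) (by norm_num) (by linarith)
  refine ⟨‖κ‖ * d * G * Real.exp (|Real.log c| * (2 * d) + Real.pi * d * |η|) * 2, by positivity,
    fun s hs1 hs2 ht => ?_⟩
  have him : 0 < s.im := by linarith
  have hre : ((d : ℂ) * (bet d η - conj s)).re = d * (((d : ℝ) - 1) / (2 * d) - s.re) := by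
    rw [show (d : ℂ) = ((d : ℝ) : ℂ) by push_cast; rfl, Complex.re_ofReal_mul]
    simp [bet_re]
  have himm : ((d : ℂ) * (bet d η - conj s)).im = d * (η + s.im) := by
    rw [show (d : ℂ) = ((d : ℝ) : ℂ) by push_cast; rfl, Complex.im_ofReal_mul]
    simp [bet_im]
  have hre2 : (d : ℝ) * (((d : ℝ) - 1) / (2 * d) - s.re) = (d - 1) / 2 - d * s.re := by
    field_simp
  have hlow : 1/4 ≤ (d : ℝ) * (((d : ℝ) - 1) / (2 * d) - s.re) := by
    rw [hre2]; nlinarith
  have hup : (d : ℝ) * (((d : ℝ) - 1) / (2 * d) - s.re) ≤ 2 * d := by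
    rw [hre2]; nlinarith
  have hg : ‖Complex.Gamma ((d : ℂ) * (bet d η - conj s))‖ ≤ G := by
    refine (norm_Gamma_le_re (by rw [hre]; linarith)).trans ?_
    rw [hre]
    exact hGb _ hlow hup
  have hne : (-(I * (c : ℂ))) ≠ 0 := neg_ne_zero.mpr (mul_ne_zero I_ne_zero (by exact_mod_cast hc.ne'))
  have hpow : ‖(-(I * (c : ℂ))) ^ (-((d : ℂ) * (bet d η - conj s)))‖ ≤
      Real.exp (|Real.log c| * (2 * d) + Real.pi * d * |η|) * Real.exp (-(2 * s.im)) := by
    rw [Complex.cpow_def_of_ne_zero hne, log_negI hc, Complex.norm_exp, ← Real.exp_add]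
    refine Real.exp_le_exp.mpr ?_
    have hr : (((Real.log c : ℝ) - Real.pi / 2 * I) * (-((d : ℂ) * (bet d η - conj s)))).re =
        -(Real.log c * (d * (((d : ℝ) - 1) / (2 * d) - s.re))) - Real.pi / 2 * (d * (η + s.im)) := by
      rw [Complex.mul_re, Complex.neg_re, Complex.neg_im, hre, himm]
      have a1 : (((Real.log c : ℝ) : ℂ) - Real.pi / 2 * I).re = Real.log c := by simp
      have a2 : (((Real.log c : ℝ) : ℂ) - Real.pi / 2 * I).im = -(Real.pi / 2) := by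
        simp
      rw [a1, a2]
      ring
    rw [hr]
    have b1 : -(Real.log c * (d * (((d : ℝ) - 1) / (2 * d) - s.re))) ≤ |Real.log c| * (2 * d) := by
      refine (neg_le_abs _).trans ?_
      rw [abs_mul, abs_of_nonneg (by linarith : 0 ≤ (d : ℝ) * (((d : ℝ) - 1) / (2 * d) - s.re))]
      exact mul_le_mul_of_nonneg_left hup (abs_nonneg _)
    have hpi := Real.pi_gt_three
    have b2 : -(Real.pi / 2 * (d * η)) ≤ Real.pi * d * |η| := by
      have := neg_abs_le η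
      have hpd : 0 ≤ Real.pi / 2 * d := by positivity
      have : -(η) ≤ |η| := by linarith
      calc -(Real.pi / 2 * (d * η)) = Real.pi / 2 * d * (-η) := by ring
        _ ≤ Real.pi / 2 * d * |η| := mul_le_mul_of_nonneg_left this hpd
        _ ≤ Real.pi * d * |η| := by
            have : 0 ≤ Real.pi * d * |η| := by positivity
            nlinarith
    have b3 : 2 * s.im ≤ Real.pi / 2 * (d * s.im) := by
      have : 2 ≤ Real.pi / 2 * d := by nlinarith
      calc 2 * s.im ≤ Real.pi / 2 * d * s.im := mul_le_mul_of_nonneg_right this him.le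
        _ = _ := by ring
    nlinarith
  have hexp : Real.exp (-(2 * s.im)) ≤ 2 * s.im ^ ((d : ℝ) * (1/2 - s.re) - 2) := by
    have q1 : Real.exp (-(2 * s.im)) ≤ 2 / s.im ^ 2 := by
      rw [Real.exp_neg, inv_eq_one_div, div_le_div_iff₀ (Real.exp_pos _) (by positivity)]
      have := Real.quadratic_le_exp_of_nonneg (x := 2 * s.im) (by positivity)
      nlinarith
    have q2 : 1 / s.im ^ 2 ≤ s.im ^ ((d : ℝ) * (1/2 - s.re) - 2) := by
      rw [one_div, ← Real.rpow_two, ← Real.rpow_neg him.le]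
      refine Real.rpow_le_rpow_of_exponent_le ht ?_
      have : 0 ≤ (d : ℝ) * (1/2 - s.re) := mul_nonneg hd0.le (by linarith)
      linarith
    calc Real.exp (-(2 * s.im)) ≤ 2 / s.im ^ 2 := q1
      _ = 2 * (1 / s.im ^ 2) := by ring
      _ ≤ _ := by linarith
  rw [Km, Complex.norm_conj, Kp, norm_mul, norm_mul, norm_mul, Complex.norm_natCast]
  calc ‖κ‖ * d * ‖Complex.Gamma ((d : ℂ) * (bet d η - conj s))‖ *
        ‖(-(I * (c : ℂ))) ^ (-((d : ℂ) * (bet d η - conj s)))‖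
      ≤ ‖κ‖ * d * G * (Real.exp (|Real.log c| * (2 * d) + Real.pi * d * |η|) * Real.exp (-(2 * s.im))) := by
        gcongr
    _ ≤ ‖κ‖ * d * G * (Real.exp (|Real.log c| * (2 * d) + Real.pi * d * |η|) *
          (2 * s.im ^ ((d : ℝ) * (1/2 - s.re) - 2))) := by
        gcongr
    _ = _ := by ring

/-- the difference -/
noncomputable def dif (D : SelData) (d : ℕ) (κ : ℂ) (η c : ℝ) (s : ℂ) : ℂ :=
  D.chi s / s - Kp d κ (bet d η) c s - Km d κ (bet d η) c s

theorem Kp_cont (d : ℕ) (hd : 2 ≤ d) (κ : ℂ) (η c : ℝ) (hc : 0 < c) :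
    ContinuousOn (Kp d κ (bet d η) c) {s : ℂ | s.re ≤ 1/8} := by
  have hd2 : (2 : ℝ) ≤ d := by exact_mod_cast hd
  have hd0 : (0 : ℝ) < d := by linarith
  have hne : (-(I * (c : ℂ))) ≠ 0 := neg_ne_zero.mpr (mul_ne_zero I_ne_zero (by exact_mod_cast hc.ne'))
  intro s hs
  have hs' : s.re ≤ 1/8 := hs
  have hre : 0 < ((d : ℂ) * (bet d η - s)).re := by
    rw [show (d : ℂ) = ((d : ℝ) : ℂ) by push_cast; rfl, Complex.re_ofReal_mul]
    simp only [sub_re, bet_re]
    have : (d : ℝ) * (((d : ℝ) - 1) / (2 * d) - s.re) = (d - 1) / 2 - d * s.re := by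
      field_simp
    rw [this]
    nlinarith
  refine ContinuousAt.continuousWithinAt ?_
  have g1 : ContinuousAt (fun s : ℂ => (d : ℂ) * (bet d η - s)) s := by fun_prop
  have g2 : ContinuousAt Complex.Gamma ((d : ℂ) * (bet d η - s)) := by
    refine (Complex.differentiableAt_Gamma _ (fun m hm => ?_)).continuousAt
    rw [hm] at hre
    simp at hre
    have : (0 : ℝ) ≤ m := Nat.cast_nonneg m
    linarith
  have g3 : ContinuousAt (fun s : ℂ => (-(I * (c : ℂ))) ^ (-((d : ℂ) * (bet d η - s)))) s := by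
    refine ContinuousAt.const_cpow (by fun_prop) (Or.inl hne)
  have g4 : ContinuousAt (fun s : ℂ => Complex.Gamma ((d : ℂ) * (bet d η - s))) s :=
    ContinuousAt.comp (f := fun s : ℂ => (d : ℂ) * (bet d η - s)) g2 g1
  exact (continuousAt_const.mul g4).mul g3

theorem exists_osc {d : ℕ} (hd : 2 ≤ d) (h : IsSel D d) : Nonempty (OscData D d) := by
  have hd2 : (2 : ℝ) ≤ d := by exact_mod_cast hd
  have hd0 : (0 : ℝ) < d := by linarith
  have hc : 0 < cc D d := Real.exp_pos _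
  have hκ : kap D d ≠ 0 := by
    have hω : D.ω ≠ 0 := by
      intro h0
      have := h.ωnorm
      rw [h0] at this
      simp at this
    have hsq : (Real.sqrt (2 * Real.pi) : ℂ) ≠ 0 := by
      rw [Ne, Complex.ofReal_eq_zero]
      exact (Real.sqrt_pos.mpr (by positivity)).ne'
    have hdc : (d : ℂ) ≠ 0 := by exact_mod_cast hd0.ne'
    exact div_ne_zero (mul_ne_zero hω (Complex.exp_ne_zero _)) (mul_ne_zero hdc hsq)
  obtain ⟨C1, t1, hC1, ht1, H1⟩ := upper D d hd h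
  obtain ⟨C2, hC2, H2⟩ := lower d hd (kap D d) (et D d) (cc D d) hc
  -- the compact part
  set K : Set ℂ := {s : ℂ | -(3/4) ≤ s.re ∧ s.re ≤ 1/8 ∧ 1 ≤ s.im ∧ s.im ≤ t1} with hK
  have hKc : IsCompact K := by
    have : K = (Icc (-(3/4) : ℝ) (1/8)) ×ℂ (Icc (1 : ℝ) t1) := by
      ext s
      simp only [hK, Set.mem_ofPred_eq, Complex.mem_reProdIm, mem_Icc]
      tauto
    rw [this]
    exact isCompact_Icc.reProdIm isCompact_Icc
  have hcont : ContinuousOn (dif D d (kap D d) (et D d) (cc D d)) K := by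
    have k1 : ContinuousOn (fun s : ℂ => D.chi s / s) K := by
      refine ContinuousOn.div ((chi_diff h).continuousOn.mono fun s hs => ?_) continuousOn_id (fun s hs => ?_)
      · have := hs.2.1
        show s.re < 1
        linarith
      · intro h0
        have := hs.2.2.1
        rw [h0] at this
        simp at this
        linarith
    have k2 : ContinuousOn (Kp d (kap D d) (bet d (et D d)) (cc D d)) K :=
      (Kp_cont d hd _ _ _ hc).mono fun s hs => hs.2.1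
    have k3 : ContinuousOn (Km d (kap D d) (bet d (et D d)) (cc D d)) K := by
      refine Complex.continuous_conj.comp_continuousOn ?_
      refine (Kp_cont d hd _ _ _ hc).comp Complex.continuous_conj.continuousOn (fun s hs => ?_)
      show (conj s).re ≤ 1/8
      rw [Complex.conj_re]
      exact hs.2.1
    exact (k1.sub k2).sub k3
  obtain ⟨M, hM⟩ := hKc.exists_bound_of_continuousOn hcont
  -- the upper half plane
  have hup : ∀ s : ℂ, -(3/4) ≤ s.re → s.re ≤ 1/8 → 1 ≤ s.im →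
      ‖dif D d (kap D d) (et D d) (cc D d) s‖ ≤ (C1 + C2 + |M| * t1 ^ 2) * s.im ^ ((d : ℝ) * (1/2 - s.re) - 2) := by
    intro s a b ht
    have him : 0 < s.im := by linarith
    have hp : 0 ≤ s.im ^ ((d : ℝ) * (1/2 - s.re) - 2) := Real.rpow_nonneg him.le _
    have hMt : 0 ≤ |M| * t1 ^ 2 := by positivity
    by_cases hts : t1 ≤ s.im
    · have u := H1 s a b hts
      have v := H2 s a b ht
      calc ‖dif D d (kap D d) (et D d) (cc D d) s‖ ≤
            ‖D.chi s / s - Kp d (kap D d) (bet d (et D d)) (cc D d) s‖ +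
            ‖Km d (kap D d) (bet d (et D d)) (cc D d) s‖ := norm_sub_le _ _
        _ ≤ C1 * s.im ^ ((d : ℝ) * (1/2 - s.re) - 2) + C2 * s.im ^ ((d : ℝ) * (1/2 - s.re) - 2) :=
            add_le_add u v
        _ ≤ _ := by nlinarith
    · have hts' : s.im ≤ t1 := (not_le.mp hts).le
      have u := hM s ⟨a, b, ht, hts'⟩
      have q2 : 1 / t1 ^ 2 ≤ s.im ^ ((d : ℝ) * (1/2 - s.re) - 2) := by
        have : 1 / s.im ^ 2 ≤ s.im ^ ((d : ℝ) * (1/2 - s.re) - 2) := by
          rw [one_div, ← Real.rpow_two, ← Real.rpow_neg him.le]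
          refine Real.rpow_le_rpow_of_exponent_le ht ?_
          have : 0 ≤ (d : ℝ) * (1/2 - s.re) := mul_nonneg hd0.le (by linarith)
          linarith
        refine le_trans ?_ this
        have : s.im ^ 2 ≤ t1 ^ 2 := pow_le_pow_left₀ him.le hts' 2
        exact one_div_le_one_div_of_le (by positivity) this
      have ht1p : 0 < t1 := by linarith
      calc ‖dif D d (kap D d) (et D d) (cc D d) s‖ ≤ M := u
        _ ≤ |M| := le_abs_self _
        _ = |M| * t1 ^ 2 * (1 / t1 ^ 2) := by field_simp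
        _ ≤ |M| * t1 ^ 2 * s.im ^ ((d : ℝ) * (1/2 - s.re) - 2) := mul_le_mul_of_nonneg_left q2 hMt
        _ ≤ _ := by nlinarith
  refine ⟨⟨kap D d, et D d, cc D d, hκ, hc, C1 + C2 + |M| * t1 ^ 2, by positivity, fun s a b ht => ?_⟩⟩
  rcases le_abs.mp ht with ht' | ht'
  · have := hup s a b ht'
    rw [abs_of_pos (by linarith : 0 < s.im)]
    exact this
  · have him : s.im < 0 := by linarith
    have hcs := hup (conj s) (by rw [conj_re]; exact a) (by rw [conj_re]; exact b) (by rw [conj_im]; exact ht')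
    rw [conj_re, conj_im] at hcs
    rw [abs_of_neg him]
    have hd' : D.chi s / s - Kp d (kap D d) (bet d (et D d)) (cc D d) s - Km d (kap D d) (bet d (et D d)) (cc D d) s =
        conj (dif D d (kap D d) (et D d) (cc D d) (conj s)) := by
      rw [dif, conj_chi h s (by linarith), Km, Km, Complex.conj_conj]
      simp only [map_sub, map_div₀, Complex.conj_conj]
      ring
    rw [hd', Complex.norm_conj]
    exact hcs

end Pool.Agent.H15.SC
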