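import Pool.Agent.H15.SC.Defs

/-!
# The analytic package extracted from Selberg class data  (project SC)

`SelData.chi`: the factor of the functional equation `F(s) = chi(s) F(1-s)`.
`Core D`: the entire function `K1`, the constant `k0`, the principal part `pp`; `K1 s + k0 / s` is the Mellin
transform of the error term, and it is `F(s)/s - pp(s)`.
`Kp`, `Km`: explicit kernels; `OscData`: `chi(s)/s = Kp + Km + small`.
-/

set_option autoImplicit false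

open Complex Filter Topology MeasureTheory Set
open scoped ComplexConjugate

namespace Pool.Agent.H15.SC

/-- the factor of the functional equation `F(s) = chi(s) F(1-s)` (real coefficients) -/
noncomputable def SelData.chi (D : SelData) (s : ℂ) : ℂ :=
  D.ω * (D.Q : ℂ) ^ (1 - 2 * s) *
    ∏ j, (Complex.Gamma ((D.lam j : ℂ) * (1 - s) + conj (D.mu j)) / Complex.Gamma ((D.lam j : ℂ) * s + D.mu j))

/-- the Dirichlet series -/
noncomputable def SelData.L (D : SelData) (s : ℂ) : ℂ := LSeries (fun n => (D.f n : ℂ)) s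

/-- the error term set to `0` on `x < 1` -/
noncomputable def SelData.Ep (D : SelData) (x : ℝ) : ℝ := if 1 ≤ x then D.E x else 0

/-- the analytic package -/
structure Core (D : SelData) where
  K1 : ℂ → ℂ
  k0 : ℂ
  pp : ℂ → ℂ
  K1_diff : Differentiable ℂ K1
  growth : ∃ A C : ℝ, 0 ≤ A ∧ 0 ≤ C ∧ ∀ s : ℂ, -(3/4) ≤ s.re → s.re ≤ 2 → ‖K1 s‖ ≤ C * (1 + |s.im|) ^ A
  E_meas : Measurable D.Ep
  E_cont : ∀ x : ℝ, 1 < x → (∀ n : ℕ, x ≠ n) → ContinuousAt D.E x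
  E_bound : ∃ C : ℝ, 0 ≤ C ∧ ∀ x : ℝ, 1 ≤ x → |D.E x| ≤ C * x ^ ((3 : ℝ) / 2)
  mellin : ∀ s : ℂ, s.re = 2 → ∫ x in Ioi (1 : ℝ), (D.E x : ℂ) * (x : ℂ) ^ (-s - 1) = K1 s + k0 / s
  Kform : ∀ s : ℂ, s ≠ 0 → s ≠ 1 → K1 s + k0 / s = D.F s / s - pp s
  pp_cont : ContinuousOn pp {s : ℂ | s ≠ 1}
  pp_bound : ∃ C : ℝ, 0 ≤ C ∧ ∀ s : ℂ, s.re ≤ 1/2 → ‖pp s‖ ≤ C / (1 + |s.im|)

/-- the explicit kernel `κ d Γ(d (β - s)) (-i c)^(-d (β - s))`, the Mellin transform of `κ y^β e^{i c y^{1/d}}` -/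
noncomputable def Kp (d : ℕ) (κ β : ℂ) (c : ℝ) (s : ℂ) : ℂ :=
  κ * d * Complex.Gamma (d * (β - s)) * (-(I * c)) ^ (-(d * (β - s)))

/-- the conjugate kernel -/
noncomputable def Km (d : ℕ) (κ β : ℂ) (c : ℝ) (s : ℂ) : ℂ := conj (Kp d κ β c (conj s))

/-- the exponent `β = (d-1)/(2d) + i η` -/
noncomputable def bet (d : ℕ) (η : ℝ) : ℂ := (((((d : ℝ) - 1) / (2 * d)) : ℝ) : ℂ) + η * I

/-- `chi(s)/s = Kp + Km + O(|t|^{d(1/2-σ)-2})` on the strip `-3/4 ≤ σ ≤ 1/8` (away from `s = 0`) -/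
structure OscData (D : SelData) (d : ℕ) where
  κ : ℂ
  η : ℝ
  c : ℝ
  κ_ne : κ ≠ 0
  c_pos : 0 < c
  asymp : ∃ C : ℝ, 0 ≤ C ∧ ∀ s : ℂ, -(3/4) ≤ s.re → s.re ≤ 1/8 → 1 ≤ |s.im| →
    ‖D.chi s / s - Kp d κ (bet d η) c s - Km d κ (bet d η) c s‖ ≤
      C * |s.im| ^ ((d : ℝ) * (1/2 - s.re) - 2)

/-- the explicit function `κ y^β e^{i c y^{1/d}}` -/
noncomputable def eE (d : ℕ) (κ β : ℂ) (c y : ℝ) : ℂ :=
  κ * (y : ℂ) ^ β * cexp (I * (c * y ^ ((1 : ℝ) / d) : ℝ))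

/-- the point `σ + i t` -/
noncomputable def ln (σ t : ℝ) : ℂ := (σ : ℂ) + t * I

@[simp] theorem ln_re (σ t : ℝ) : (ln σ t).re = σ := by simp [ln]
@[simp] theorem ln_im (σ t : ℝ) : (ln σ t).im = t := by simp [ln]

/-- inverse Mellin integral on the line `σ` -/
noncomputable def vint (Φ : ℝ → ℂ) (σ x : ℝ) : ℂ :=
  (1 / (2 * Real.pi) : ℝ) * ∫ t : ℝ, Φ t * (x : ℂ) ^ (ln σ t)

/-- Gaussian in the logarithm: `∫ gW W u e^{-su} du = e^{s²/W²}` -/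
noncomputable def gW (W u : ℝ) : ℝ := W / (2 * Real.sqrt Real.pi) * Real.exp (-((W * u / 2) ^ 2))

/-- smoothing -/
noncomputable def sm (W : ℝ) (g : ℝ → ℝ) (x : ℝ) : ℝ := ∫ u : ℝ, g (x * Real.exp (-u)) * gW W u

/-- complex smoothing -/
noncomputable def smC (W : ℝ) (g : ℝ → ℂ) (x : ℝ) : ℂ := ∫ u : ℝ, g (x * Real.exp (-u)) * (gW W u : ℂ)

/-- the weight `(e^{s²/W²} - e^{s²/V²}) / s`, an entire function (value `0` at `0`) -/
noncomputable def vq (W V : ℝ) (s : ℂ) : ℂ := (cexp (s ^ 2 / (W : ℂ) ^ 2) - cexp (s ^ 2 / (V : ℂ) ^ 2)) / s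

/-- the dual kernel `(1/2πi) ∫_{(-3/4)} chi(s) s⁻¹ (e^{s²/W²} - e^{s²}) y^s ds` -/
noncomputable def cW (D : SelData) (W y : ℝ) : ℂ :=
  vint (fun t => D.chi (ln (-(3/4)) t) * vq W 1 (ln (-(3/4)) t)) (-(3/4)) y

end Pool.Agent.H15.SC
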