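import Mathlib

/-!
# Selberg class data, error terms, property (A_delta)   (project SC, MP_be4568_nt)

`SelData` carries the data, `IsSel D d` says that `D` satisfies the axioms of the Selberg class with real
coefficients and degree `d`; the Euler product is not required (so the class is larger than the class of the problem).
-/

set_option autoImplicit false

open Complex Filter Topology MeasureTheory
open scoped ComplexConjugate

namespace Pool.Agent.H15.SC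

/-- Data: coefficients `f n`, the order `m` of the factor `(s - 1) ^ m`, the entire function `H s = (s-1)^m L_f(s)`,
and the ingredients `Q, ω, lam, mu` of the functional equation. -/
structure SelData where
  f : ℕ → ℝ
  m : ℕ
  H : ℂ → ℂ
  Q : ℝ
  ω : ℂ
  r : ℕ
  lam : Fin r → ℝ
  mu : Fin r → ℂ

/-- the continued Dirichlet series `L_f(s) = H s / (s-1)^m` -/
noncomputable def SelData.F (D : SelData) (s : ℂ) : ℂ := D.H s / (s - 1) ^ D.m

/-- the completed function `Q^s ∏ Γ(lam_j s + mu_j) L_f(s)` -/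
noncomputable def SelData.Phi (D : SelData) (s : ℂ) : ℂ :=
  (D.Q : ℂ) ^ s * (∏ j, Complex.Gamma ((D.lam j : ℂ) * s + D.mu j)) * D.F s

/-- The axioms: real coefficients (built in), `f 1 = 1`, `f n = O(n^ε)`, `(s-1)^m L_f(s)` entire of finite order,
functional equation, degree `d = 2 ∑ lam_j`.  (Requiring the functional equation only in the critical strip is no
restriction; the Euler product is not required.) -/
structure IsSel (D : SelData) (d : ℝ) : Prop where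
  one : D.f 1 = 1
  ram : ∀ ε : ℝ, 0 < ε → ∃ C : ℝ, ∀ n : ℕ, 1 ≤ n → |D.f n| ≤ C * (n : ℝ) ^ ε
  entire : Differentiable ℂ D.H
  order : ∃ A C : ℝ, ∀ s : ℂ, ‖D.H s‖ ≤ Real.exp (C * (1 + ‖s‖) ^ A)
  series : ∀ s : ℂ, 1 < s.re → D.H s = (s - 1) ^ D.m * LSeries (fun n => (D.f n : ℂ)) s
  Qpos : 0 < D.Q
  ωnorm : ‖D.ω‖ = 1
  lampos : ∀ j, 0 < D.lam j
  mure : ∀ j, 0 ≤ (D.mu j).re
  func : ∀ s : ℂ, 0 < s.re → s.re < 1 → D.Phi s = D.ω * conj (D.Phi (1 - conj s))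
  deg : d = 2 * ∑ j, D.lam j

/-- `Res_{s=1} (L_f(s) x^s / s)` -/
noncomputable def SelData.res (D : SelData) (x : ℝ) : ℝ :=
  if D.m = 0 then 0 else
    (iteratedDeriv (D.m - 1) (fun s : ℂ => D.H s * (x : ℂ) ^ s / s) 1 / ((D.m - 1).factorial : ℂ)).re

/-- the error term `E_f(x) = ∑_{n ≤ x} f(n) - Res_{s=1} (L_f(s) x^s / s)` -/
noncomputable def SelData.E (D : SelData) (x : ℝ) : ℝ :=
  ∑ n ∈ Finset.Icc 1 ⌊x⌋₊, D.f n - D.res x

/-- property `(A_δ)` for the function `P` and the exponent `σ` -/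
def PropA (P : ℝ → ℝ) (σ δ : ℝ) : Prop :=
  ∃ c C T₀ : ℝ, 0 < c ∧ 0 < C ∧ 0 < T₀ ∧ ∀ T : ℝ, T₀ ≤ T → ∀ ε : ℝ, (ε = 1 ∨ ε = -1) →
    ∃ S : Finset (ℝ × ℝ), T ^ (1 - δ) ≤ (S.card : ℝ) ∧
      (∀ p ∈ S, T ≤ p.1 ∧ p.2 ≤ 2 * T ∧ C * T ^ δ ≤ p.2 - p.1 ∧
        ∀ x ∈ Set.Icc p.1 p.2, c * T ^ σ < ε * P x) ∧
      (∀ p ∈ S, ∀ q ∈ S, p ≠ q → Disjoint (Set.Icc p.1 p.2) (Set.Icc q.1 q.2))

end Pool.Agent.H15.SC
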