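import Pool.Agent.H15.SC.Core

/-!
# SC-01  Gaussian kernel facts  (project SC, MP_be4568_nt)

`gW W u = W/(2√π) exp(-(W u/2)²)`.  Use Mathlib's Gaussian integrals (`integral_gaussian`,
`integral_cexp_quadratic`, `fourierIntegral_gaussian`, `GaussianFourier...`) and for the moments
`exp (A|u|) ≤ exp (A² ·4) exp (u²/16)` style bounds (`W ≥ 1`) and scaling `u = v / W`.
-/

set_option autoImplicit false

open Complex Filter Topology MeasureTheory Set
open scoped ComplexConjugate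

namespace Pool.Agent.H15.SC

theorem gW_nonneg {W : ℝ} (hW : 0 ≤ W) (u : ℝ) : 0 ≤ gW W u := by
  unfold gW
  positivity

theorem gW_continuous (W : ℝ) : Continuous (gW W) := by
  unfold gW
  fun_prop

theorem gW_eq (W u : ℝ) : gW W u = W / (2 * Real.sqrt Real.pi) * Real.exp (-(W ^ 2 / 4) * u ^ 2) := by
  unfold gW
  congr 2
  ring

theorem gW_integral {W : ℝ} (hW : 0 < W) : Integrable (gW W) ∧ ∫ u : ℝ, gW W u = 1 := by
  have hb : 0 < W ^ 2 / 4 := by positivity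
  have e : gW W = fun u : ℝ => W / (2 * Real.sqrt Real.pi) * Real.exp (-(W ^ 2 / 4) * u ^ 2) :=
    funext (gW_eq W)
  constructor
  · rw [e]
    exact (integrable_exp_neg_mul_sq hb).const_mul _
  · rw [e, integral_const_mul, integral_gaussian]
    have h1 : Real.pi / (W ^ 2 / 4) = Real.pi * (2 / W) ^ 2 := by
      field_simp
      ring
    rw [h1, Real.sqrt_mul Real.pi_pos.le, Real.sqrt_sq (by positivity)]
    have h2 : Real.sqrt Real.pi ≠ 0 := (Real.sqrt_pos.mpr Real.pi_pos).ne'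
    field_simp

theorem cpow_half_sq {x : ℝ} (hx : 0 ≤ x) : ((Real.pi * x ^ 2 : ℝ) : ℂ) ^ (1 / 2 : ℂ) =
    ((Real.sqrt Real.pi * x : ℝ) : ℂ) := by
  have h1 : (1 / 2 : ℂ) = ((1 / 2 : ℝ) : ℂ) := by push_cast; rfl
  rw [h1, ← Complex.ofReal_cpow (by positivity), ← Real.sqrt_eq_rpow, Real.sqrt_mul Real.pi_pos.le,
    Real.sqrt_sq hx]

theorem gW_laplace {W : ℝ} (hW : 0 < W) (s : ℂ) :
    Integrable (fun u : ℝ => (gW W u : ℂ) * cexp (-(s * u))) ∧
      ∫ u : ℝ, (gW W u : ℂ) * cexp (-(s * u)) = cexp (s ^ 2 / (W : ℂ) ^ 2) := by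
  have hWc : (W : ℂ) ≠ 0 := by exact_mod_cast hW.ne'
  have e : (fun u : ℝ => (gW W u : ℂ) * cexp (-(s * u))) = fun u : ℝ =>
      ((W / (2 * Real.sqrt Real.pi) : ℝ) : ℂ) *
        cexp (((-(W ^ 2 / 4) : ℝ) : ℂ) * (u : ℂ) ^ 2 + (-s) * u + 0) := by
    funext u
    rw [gW_eq, Complex.ofReal_mul, Complex.ofReal_exp, mul_assoc, ← Complex.exp_add]
    congr 2
    push_cast
    ring
  have hb : (((-(W ^ 2 / 4) : ℝ) : ℂ)).re < 0 := by
    rw [Complex.ofReal_re]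
    have : 0 < W ^ 2 / 4 := by positivity
    linarith
  rw [e]
  constructor
  · exact (integrable_cexp_quadratic' hb (-s) 0).const_mul _
  · rw [integral_const_mul, integral_cexp_quadratic hb]
    have h1 : (Real.pi : ℂ) / -(((-(W ^ 2 / 4) : ℝ)) : ℂ) = ((Real.pi * (2 / W) ^ 2 : ℝ) : ℂ) := by
      push_cast
      field_simp
      ring
    have h2 : (0 : ℂ) - (-s) ^ 2 / (4 * (((-(W ^ 2 / 4) : ℝ)) : ℂ)) = s ^ 2 / (W : ℂ) ^ 2 := by
      push_cast
      field_simp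
      ring
    rw [h1, h2, cpow_half_sq (by positivity), ← mul_assoc, ← Complex.ofReal_mul]
    have h3 : W / (2 * Real.sqrt Real.pi) * (Real.sqrt Real.pi * (2 / W)) = 1 := by
      have h2 : Real.sqrt Real.pi ≠ 0 := (Real.sqrt_pos.mpr Real.pi_pos).ne'
      field_simp
    rw [h3, Complex.ofReal_one, one_mul]

theorem gW_fourier {W : ℝ} (hW : 0 < W) (σ u : ℝ) :
    Integrable (fun t : ℝ => cexp ((ln σ t) ^ 2 / (W : ℂ) ^ 2) * cexp (ln σ t * u)) ∧
      ∫ t : ℝ, cexp ((ln σ t) ^ 2 / (W : ℂ) ^ 2) * cexp (ln σ t * u) = 2 * Real.pi * gW W u := by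
  have hWc : (W : ℂ) ≠ 0 := by exact_mod_cast hW.ne'
  have e : (fun t : ℝ => cexp ((ln σ t) ^ 2 / (W : ℂ) ^ 2) * cexp (ln σ t * u)) = fun t : ℝ =>
      cexp (((-(1 / W ^ 2) : ℝ) : ℂ) * (t : ℂ) ^ 2 + (2 * I * σ / (W : ℂ) ^ 2 + I * u) * t +
        (σ ^ 2 / (W : ℂ) ^ 2 + σ * u)) := by
    funext t
    rw [← Complex.exp_add]
    congr 1
    unfold ln
    push_cast
    field_simp
    ring_nf
    rw [Complex.I_sq]
    ring
  have hb : (((-(1 / W ^ 2) : ℝ) : ℂ)).re < 0 := by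
    rw [Complex.ofReal_re]
    have : 0 < 1 / W ^ 2 := by positivity
    linarith
  rw [e]
  constructor
  · exact integrable_cexp_quadratic' hb _ _
  · rw [integral_cexp_quadratic hb]
    have h1 : (Real.pi : ℂ) / -(((-(1 / W ^ 2) : ℝ)) : ℂ) = ((Real.pi * W ^ 2 : ℝ) : ℂ) := by
      push_cast
      field_simp
      try ring
    have h2 : ((σ : ℂ) ^ 2 / (W : ℂ) ^ 2 + σ * u) -
        (2 * I * σ / (W : ℂ) ^ 2 + I * u) ^ 2 / (4 * (((-(1 / W ^ 2) : ℝ)) : ℂ)) =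
        ((-(W ^ 2 / 4) * u ^ 2 : ℝ) : ℂ) := by
      push_cast
      field_simp
      ring_nf
      rw [Complex.I_sq]
      ring
    rw [h1, h2, cpow_half_sq hW.le, ← Complex.ofReal_exp, ← Complex.ofReal_mul, gW_eq]
    rw [← Complex.ofReal_ofNat, ← Complex.ofReal_mul, ← Complex.ofReal_mul]
    congr 1
    have h5 : Real.sqrt Real.pi ≠ 0 := (Real.sqrt_pos.mpr Real.pi_pos).ne'
    have h6 : Real.pi = Real.sqrt Real.pi * Real.sqrt Real.pi :=
      (Real.mul_self_sqrt Real.pi_pos.le).symm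
    have h7 : 2 * Real.pi * (W / (2 * Real.sqrt Real.pi) * Real.exp (-(W ^ 2 / 4) * u ^ 2)) =
        (Real.pi / Real.sqrt Real.pi) * W * Real.exp (-(W ^ 2 / 4) * u ^ 2) := by
      field_simp
    rw [h7]
    congr 2
    rw [eq_div_iff h5]
    exact h6.symm

theorem norm_expQ (W σ t : ℝ) :
    ‖cexp ((ln σ t) ^ 2 / (W : ℂ) ^ 2)‖ = Real.exp ((σ ^ 2 - t ^ 2) / W ^ 2) := by
  rw [Complex.norm_exp]
  congr 1
  rw [← Complex.ofReal_pow, Complex.div_ofReal_re]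
  congr 1
  unfold ln
  simp [sq]

theorem exp_abs_le (A u : ℝ) : Real.exp (A * |u|) ≤ Real.exp (2 * A ^ 2) * Real.exp (u ^ 2 / 8) := by
  rw [← Real.exp_add, Real.exp_le_exp]
  have h : |u| ^ 2 = u ^ 2 := sq_abs u
  nlinarith [sq_nonneg (4 * A - |u|)]

theorem gW_mul_le (A : ℝ) {W : ℝ} (hW : 1 ≤ W) (u : ℝ) :
    gW W u * Real.exp (A * |u|) ≤ W / (2 * Real.sqrt Real.pi) * Real.exp (2 * A ^ 2) *
      Real.exp (-(W ^ 2 / 8) * u ^ 2) := by
  rw [gW_eq]
  have h1 := exp_abs_le A u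
  have h2 : Real.exp (-(W ^ 2 / 4) * u ^ 2) * Real.exp (u ^ 2 / 8) ≤ Real.exp (-(W ^ 2 / 8) * u ^ 2) := by
    rw [← Real.exp_add, Real.exp_le_exp]
    nlinarith [mul_nonneg (sub_nonneg.mpr (one_le_pow₀ hW (n := 2))) (sq_nonneg u)]
  have h0 : 0 ≤ W / (2 * Real.sqrt Real.pi) := by positivity
  calc W / (2 * Real.sqrt Real.pi) * Real.exp (-(W ^ 2 / 4) * u ^ 2) * Real.exp (A * |u|)
      ≤ W / (2 * Real.sqrt Real.pi) * Real.exp (-(W ^ 2 / 4) * u ^ 2) *
        (Real.exp (2 * A ^ 2) * Real.exp (u ^ 2 / 8)) := by gcongr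
    _ = W / (2 * Real.sqrt Real.pi) * Real.exp (2 * A ^ 2) *
        (Real.exp (-(W ^ 2 / 4) * u ^ 2) * Real.exp (u ^ 2 / 8)) := by ring
    _ ≤ _ := by gcongr

theorem sqrt_pi_div {W : ℝ} (hW : 0 < W) (a : ℝ) (ha : 0 < a) :
    Real.sqrt (Real.pi / (W ^ 2 / a)) = Real.sqrt Real.pi * Real.sqrt a / W := by
  have h1 : Real.pi / (W ^ 2 / a) = Real.pi * a / W ^ 2 := by
    field_simp
  rw [h1, Real.sqrt_div (by positivity), Real.sqrt_mul Real.pi_pos.le, Real.sqrt_sq hW.le]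

theorem gW_exp (A : ℝ) (hA : 0 ≤ A) : ∃ C : ℝ, 0 ≤ C ∧ ∀ W : ℝ, 1 ≤ W →
    Integrable (fun u : ℝ => gW W u * Real.exp (A * |u|)) ∧
      ∫ u : ℝ, gW W u * Real.exp (A * |u|) ≤ C := by
  refine ⟨Real.exp (2 * A ^ 2) * Real.sqrt 8 / 2, by positivity, fun W hW => ?_⟩
  have hW0 : 0 < W := by linarith
  have hb : 0 < W ^ 2 / 8 := by positivity
  have hint : Integrable (fun u : ℝ => W / (2 * Real.sqrt Real.pi) * Real.exp (2 * A ^ 2) *
      Real.exp (-(W ^ 2 / 8) * u ^ 2)) := (integrable_exp_neg_mul_sq hb).const_mul _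
  have hmeas : Continuous (fun u : ℝ => gW W u * Real.exp (A * |u|)) := by
    have := gW_continuous W
    fun_prop
  have hI : Integrable (fun u : ℝ => gW W u * Real.exp (A * |u|)) := by
    refine hint.mono' hmeas.aestronglyMeasurable (Eventually.of_forall fun u => ?_)
    rw [Real.norm_eq_abs, abs_of_nonneg (mul_nonneg (gW_nonneg hW0.le u) (Real.exp_pos _).le)]
    exact gW_mul_le A hW u
  refine ⟨hI, ?_⟩
  refine (integral_mono hI hint fun u => gW_mul_le A hW u).trans ?_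
  rw [integral_const_mul, integral_gaussian, sqrt_pi_div hW0 8 (by norm_num)]
  have h5 : Real.sqrt Real.pi ≠ 0 := (Real.sqrt_pos.mpr Real.pi_pos).ne'
  apply le_of_eq
  field_simp

theorem abs_mul_exp_le {W : ℝ} (hW : 0 < W) (u : ℝ) :
    |u| * Real.exp (-(W ^ 2 / 8) * u ^ 2) ≤ 2 / W * Real.exp (-(W ^ 2 / 16) * u ^ 2) := by
  have h1 : Real.exp (-(W ^ 2 / 8) * u ^ 2) =
      Real.exp (-(W ^ 2 / 16) * u ^ 2) * Real.exp (-(W ^ 2 / 16 * u ^ 2)) := by
    rw [← Real.exp_add]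
    congr 1
    ring
  have h2 : W * |u| * Real.exp (-(W ^ 2 / 16 * u ^ 2)) ≤ 2 := by
    rw [Real.exp_neg, ← div_eq_mul_inv, div_le_iff₀ (Real.exp_pos _)]
    have h3 := Real.add_one_le_exp (W ^ 2 / 16 * u ^ 2)
    have h4 : |u| ^ 2 = u ^ 2 := sq_abs u
    nlinarith [sq_nonneg (W * |u| / 4 - 1)]
  rw [h1]
  have h3 : |u| * Real.exp (-(W ^ 2 / 16 * u ^ 2)) ≤ 2 / W := by
    rw [le_div_iff₀ hW]
    linarith
  calc |u| * (Real.exp (-(W ^ 2 / 16) * u ^ 2) * Real.exp (-(W ^ 2 / 16 * u ^ 2)))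
      = (|u| * Real.exp (-(W ^ 2 / 16 * u ^ 2))) * Real.exp (-(W ^ 2 / 16) * u ^ 2) := by ring
    _ ≤ _ := by gcongr

theorem gW_moment (A : ℝ) (hA : 0 ≤ A) : ∃ C : ℝ, 0 ≤ C ∧ ∀ W : ℝ, 1 ≤ W →
    Integrable (fun u : ℝ => gW W u * (|u| * Real.exp (A * |u|))) ∧
      ∫ u : ℝ, gW W u * (|u| * Real.exp (A * |u|)) ≤ C / W := by
  refine ⟨Real.exp (2 * A ^ 2) * Real.sqrt 16, by positivity, fun W hW => ?_⟩
  have hW0 : 0 < W := by linarith
  have hb : 0 < W ^ 2 / 16 := by positivity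
  have hint : Integrable (fun u : ℝ => W / (2 * Real.sqrt Real.pi) * Real.exp (2 * A ^ 2) * (2 / W) *
      Real.exp (-(W ^ 2 / 16) * u ^ 2)) := (integrable_exp_neg_mul_sq hb).const_mul _
  have hmeas : Continuous (fun u : ℝ => gW W u * (|u| * Real.exp (A * |u|))) := by
    have := gW_continuous W
    fun_prop
  have hle : ∀ u : ℝ, gW W u * (|u| * Real.exp (A * |u|)) ≤
      W / (2 * Real.sqrt Real.pi) * Real.exp (2 * A ^ 2) * (2 / W) * Real.exp (-(W ^ 2 / 16) * u ^ 2) := by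
    intro u
    have h1 := gW_mul_le A hW u
    have h2 := abs_mul_exp_le hW0 u
    have h0 : 0 ≤ W / (2 * Real.sqrt Real.pi) * Real.exp (2 * A ^ 2) := by positivity
    calc gW W u * (|u| * Real.exp (A * |u|)) = |u| * (gW W u * Real.exp (A * |u|)) := by ring
      _ ≤ |u| * (W / (2 * Real.sqrt Real.pi) * Real.exp (2 * A ^ 2) *
          Real.exp (-(W ^ 2 / 8) * u ^ 2)) := by gcongr
      _ = W / (2 * Real.sqrt Real.pi) * Real.exp (2 * A ^ 2) *
          (|u| * Real.exp (-(W ^ 2 / 8) * u ^ 2)) := by ring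
      _ ≤ W / (2 * Real.sqrt Real.pi) * Real.exp (2 * A ^ 2) *
          (2 / W * Real.exp (-(W ^ 2 / 16) * u ^ 2)) := by gcongr
      _ = _ := by ring
  have hI : Integrable (fun u : ℝ => gW W u * (|u| * Real.exp (A * |u|))) := by
    refine hint.mono' hmeas.aestronglyMeasurable (Eventually.of_forall fun u => ?_)
    rw [Real.norm_eq_abs, abs_of_nonneg (mul_nonneg (gW_nonneg hW0.le u) (by positivity))]
    exact hle u
  refine ⟨hI, ?_⟩
  refine (integral_mono hI hint hle).trans ?_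
  rw [integral_const_mul, integral_gaussian, sqrt_pi_div hW0 16 (by norm_num)]
  have h5 : Real.sqrt Real.pi ≠ 0 := (Real.sqrt_pos.mpr Real.pi_pos).ne'
  apply le_of_eq
  field_simp

/-- polynomial times Gaussian -/
theorem pow_mul_gauss (p : ℝ) (hp : 0 ≤ p) : ∃ C : ℝ, 0 ≤ C ∧ ∀ U : ℝ, 1 ≤ U → ∀ t : ℝ,
    (1 + |t|) ^ p * Real.exp (-(t ^ 2 / (2 * U ^ 2))) ≤ C * U ^ p * Real.exp (-(t ^ 2 / (4 * U ^ 2))) := by
  refine ⟨Real.exp (p ^ 2), by positivity, fun U hU t => ?_⟩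
  have hU0 : 0 < U := by linarith
  have h1 : (1 + |t|) ^ p ≤ U ^ p * Real.exp (p * (|t| / U)) := by
    have h2 : 1 + |t| ≤ U * Real.exp (|t| / U) := by
      have h3 := Real.add_one_le_exp (|t| / U)
      have h4 : U * (|t| / U + 1) = |t| + U := by field_simp
      nlinarith [mul_le_mul_of_nonneg_left h3 hU0.le]
    calc (1 + |t|) ^ p ≤ (U * Real.exp (|t| / U)) ^ p :=
          Real.rpow_le_rpow (by positivity) h2 hp
      _ = U ^ p * Real.exp (p * (|t| / U)) := by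
          rw [Real.mul_rpow hU0.le (Real.exp_pos _).le, ← Real.exp_mul]
          congr 2
          ring
  have h2 : Real.exp (p * (|t| / U)) * Real.exp (-(t ^ 2 / (2 * U ^ 2))) ≤
      Real.exp (p ^ 2) * Real.exp (-(t ^ 2 / (4 * U ^ 2))) := by
    rw [← Real.exp_add, ← Real.exp_add, Real.exp_le_exp]
    have h3 : t ^ 2 / (2 * U ^ 2) = (|t| / U) ^ 2 / 2 := by
      rw [div_pow, sq_abs]
      field_simp
    have h4 : t ^ 2 / (4 * U ^ 2) = (|t| / U) ^ 2 / 4 := by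
      rw [div_pow, sq_abs]
      field_simp
    rw [h3, h4]
    nlinarith [sq_nonneg (p - |t| / U / 2)]
  calc (1 + |t|) ^ p * Real.exp (-(t ^ 2 / (2 * U ^ 2)))
      ≤ U ^ p * Real.exp (p * (|t| / U)) * Real.exp (-(t ^ 2 / (2 * U ^ 2))) := by gcongr
    _ = U ^ p * (Real.exp (p * (|t| / U)) * Real.exp (-(t ^ 2 / (2 * U ^ 2)))) := by ring
    _ ≤ U ^ p * (Real.exp (p ^ 2) * Real.exp (-(t ^ 2 / (4 * U ^ 2)))) := by
        have : 0 ≤ U ^ p := Real.rpow_nonneg hU0.le p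
        gcongr
    _ = _ := by ring

/-- `(1+|t|)^p e^{-t²/W²}` is integrable -/
theorem integrable_pow_gauss (p : ℝ) {W : ℝ} (hW : 0 < W) :
    Integrable (fun t : ℝ => (1 + |t|) ^ p * Real.exp (-(t ^ 2 / W ^ 2))) := by
  have hb : 0 < 1 / (2 * W ^ 2) := by positivity
  have hint : Integrable (fun t : ℝ => Real.exp (p ^ 2 * W ^ 2 / 2) * Real.exp (-(1 / (2 * W ^ 2)) * t ^ 2)) :=
    (integrable_exp_neg_mul_sq hb).const_mul _
  have hmeas : Continuous (fun t : ℝ => (1 + |t|) ^ p * Real.exp (-(t ^ 2 / W ^ 2))) := by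
    refine Continuous.mul ?_ (by fun_prop)
    refine Continuous.rpow_const (by fun_prop) fun t => Or.inl ?_
    positivity
  refine hint.mono' hmeas.aestronglyMeasurable (Eventually.of_forall fun t => ?_)
  rw [Real.norm_eq_abs, abs_of_nonneg (by positivity)]
  have h1 : (1 + |t|) ^ p ≤ Real.exp (|p| * |t|) := by
    have h3 := Real.add_one_le_exp |t|
    calc (1 + |t|) ^ p ≤ (1 + |t|) ^ |p| :=
          Real.rpow_le_rpow_of_exponent_le (by linarith [abs_nonneg t]) (le_abs_self p)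
      _ ≤ (Real.exp |t|) ^ |p| := Real.rpow_le_rpow (by positivity) (by linarith) (abs_nonneg p)
      _ = _ := by
          rw [← Real.exp_mul]
          congr 1
          ring
  calc (1 + |t|) ^ p * Real.exp (-(t ^ 2 / W ^ 2))
      ≤ Real.exp (|p| * |t|) * Real.exp (-(t ^ 2 / W ^ 2)) := by gcongr
    _ ≤ _ := by
        rw [← Real.exp_add, ← Real.exp_add, Real.exp_le_exp]
        have h3 : t ^ 2 / W ^ 2 = (|t| / W) ^ 2 := by rw [div_pow, sq_abs]
        have h4 : -(1 / (2 * W ^ 2)) * t ^ 2 = -((|t| / W) ^ 2 / 2) := by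
          rw [div_pow, sq_abs]
          field_simp
        have h5 : |p| * |t| = |p| * W * (|t| / W) := by field_simp
        have h6 : p ^ 2 = |p| ^ 2 := (sq_abs p).symm
        rw [h3, h4, h5, h6]
        nlinarith [sq_nonneg (|p| * W - |t| / W)]

end Pool.Agent.H15.SC
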