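import Mathlib

/-!
# SC-22  Kusmin-Landau and the second difference test (discrete)  (project SC, MP_be4568_nt)

`kusmin_landau`: `d n = x (n+1) - x n`, `ee (x n) = (ee (x n) - ee (x (n+1))) * g n`, `g n = 1/(1 - ee (d n))
= (1 + i cot (π d n))/2`, `d n ∈ [k+θ, k+1-θ]` increasing, so `cot (π d n)` is decreasing with values in
`[-cot πθ, cot πθ]`: partial summation, the total variation of `g` is `≤ cot (πθ) ≤ 1/(πθ)`.
(Without `cot`: `|g n| ≤ 1/(4θ)`-type bound and `g n - g (n-1)` has constant direction `i`; `cot` is antitone on `(0, π)`.)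
`second_test`: if `λ > 1/4` use `N ≤ 2 h N λ^{1/2}`.  Otherwise the differences `d n` increase with steps in `[λ, hλ]`, so they
lie in an interval of length `≤ hλN`; for every integer `k` the `n` with `|d n - k| < √λ` are at most `2/√λ + 2` consecutive ones,
and the `n` with `d n ∈ [k+√λ, k+1-√λ]` are consecutive and contribute `≤ C/√λ` by `kusmin_landau`; there are
`≤ hλN + 3` relevant `k`.
-/

set_option autoImplicit false

open Complex Filter Topology Set

namespace Pool.Agent.H15.SC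

/-- `e(x) = exp(2πix)` -/
noncomputable def ee (x : ℝ) : ℂ := cexp (2 * Real.pi * I * x)

theorem kl_add (x y : ℝ) : ee (x + y) = ee x * ee y := by
  unfold ee
  rw [← Complex.exp_add]
  congr 1
  push_cast
  ring

theorem kl_norm (x : ℝ) : ‖ee x‖ = 1 := by
  unfold ee
  have h : (2 * Real.pi * I * x : ℂ) = ((2 * Real.pi * x : ℝ) : ℂ) * I := by push_cast; ring
  rw [h, Complex.norm_exp_ofReal_mul_I]

theorem kl_int (k : ℤ) : ee k = 1 := by
  unfold ee
  have h : (2 * Real.pi * I * ((k : ℝ) : ℂ) : ℂ) = k * (2 * Real.pi * I) := by push_cast; ring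
  rw [h]
  exact Complex.exp_int_mul_two_pi_mul_I k

theorem kl_triv (x : ℕ → ℝ) (N : ℕ) : ‖∑ n ∈ Finset.range N, ee (x n)‖ ≤ N := by
  refine (norm_sum_le _ _).trans ?_
  simp [kl_norm]

/-- the cotangent -/
noncomputable def klc (d : ℝ) : ℝ := Real.cos (Real.pi * d) / Real.sin (Real.pi * d)

/-- `1/(1 - e(d))` -/
noncomputable def klg (d : ℝ) : ℂ := (1 + I * klc d) / 2

theorem kl_sin {θ d : ℝ} (h0 : 0 < θ) (h1 : θ ≤ d) (h2 : d ≤ 1 - θ) :
    2 * θ ≤ Real.sin (Real.pi * d) := by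
  have hpi := Real.pi_pos
  rcases le_total d (1 / 2) with h | h
  · have hd0 : 0 < d := by linarith
    have h3 := Real.mul_le_sin (x := Real.pi * d) (by positivity) (by nlinarith)
    have h4 : 2 / Real.pi * (Real.pi * d) = 2 * d := by field_simp
    rw [h4] at h3
    linarith
  · have h3 := Real.mul_le_sin (x := Real.pi * (1 - d)) (by nlinarith) (by nlinarith)
    have h4 : 2 / Real.pi * (Real.pi * (1 - d)) = 2 * (1 - d) := by field_simp
    rw [h4] at h3
    have h5 : Real.pi * (1 - d) = Real.pi - Real.pi * d := by ring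
    rw [h5, Real.sin_pi_sub] at h3
    linarith

theorem kl_g {d : ℝ} (hs : Real.sin (Real.pi * d) ≠ 0) : (1 - ee d) * klg d = 1 := by
  have h1 : ee d = (Real.cos (Real.pi * d) + Real.sin (Real.pi * d) * I) ^ 2 := by
    unfold ee
    have h2 : (2 * Real.pi * I * d : ℂ) = (2 : ℕ) * (((Real.pi * d : ℝ) : ℂ) * I) := by
      push_cast; ring
    rw [h2, Complex.exp_nat_mul, Complex.exp_mul_I]
    push_cast
    rfl
  have h3 : (Real.cos (Real.pi * d) : ℂ) ^ 2 + (Real.sin (Real.pi * d) : ℂ) ^ 2 = 1 := by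
    rw [← Complex.ofReal_pow, ← Complex.ofReal_pow, ← Complex.ofReal_add,
      Real.cos_sq_add_sin_sq]
    simp
  have hs' : (Real.sin (Real.pi * d) : ℂ) ≠ 0 := by exact_mod_cast hs
  rw [h1]
  unfold klg klc
  rw [Complex.ofReal_div]
  set s : ℂ := (Real.sin (Real.pi * d) : ℂ) with hsdef
  set c : ℂ := (Real.cos (Real.pi * d) : ℂ) with hcdef
  have h4 : (1 : ℂ) - (c + s * I) ^ 2 = 2 * s ^ 2 - 2 * c * s * I := by
    have h5 : (I : ℂ) ^ 2 = -1 := Complex.I_sq
    have h6 : (1 : ℂ) = c ^ 2 + s ^ 2 := h3.symm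
    calc (1 : ℂ) - (c + s * I) ^ 2 = 1 - c ^ 2 - 2 * c * s * I - s ^ 2 * I ^ 2 := by ring
      _ = (c ^ 2 + s ^ 2) - c ^ 2 - 2 * c * s * I - s ^ 2 * I ^ 2 := by rw [← h6]
      _ = 2 * s ^ 2 - 2 * c * s * I := by rw [h5]; ring
  rw [h4]
  have h7 : (2 * s ^ 2 - 2 * c * s * I) * ((1 + I * (c / s)) / 2) =
      s ^ 2 - c ^ 2 * I ^ 2 := by
    field_simp
    ring
  rw [h7, Complex.I_sq]
  linear_combination h3

theorem kl_c_le {θ d : ℝ} (h0 : 0 < θ) (h1 : θ ≤ d) (h2 : d ≤ 1 - θ) : |klc d| ≤ 1 / (2 * θ) := by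
  have hs := kl_sin h0 h1 h2
  unfold klc
  rw [abs_div, abs_of_pos (a := Real.sin (Real.pi * d)) (by linarith)]
  have hc := Real.abs_cos_le_one (Real.pi * d)
  exact div_le_div₀ zero_le_one hc (by linarith) hs

theorem kl_c_anti {a b : ℝ} (ha : 0 < a) (hab : a ≤ b) (hb : b < 1) : klc b ≤ klc a := by
  have hpi := Real.pi_pos
  have hsa : 0 < Real.sin (Real.pi * a) :=
    Real.sin_pos_of_pos_of_lt_pi (by positivity) (by nlinarith)
  have hsb : 0 < Real.sin (Real.pi * b) :=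
    Real.sin_pos_of_pos_of_lt_pi (by nlinarith) (by nlinarith)
  unfold klc
  rw [div_le_div_iff₀ hsb hsa]
  have h1 : 0 ≤ Real.sin (Real.pi * b - Real.pi * a) :=
    Real.sin_nonneg_of_nonneg_of_le_pi (by nlinarith) (by nlinarith)
  rw [Real.sin_sub] at h1
  linarith

theorem kl_g_norm {θ d : ℝ} (h0 : 0 < θ) (hθ : θ ≤ 1 / 2) (h1 : θ ≤ d) (h2 : d ≤ 1 - θ) :
    ‖klg d‖ ≤ 1 / (2 * θ) := by
  have h3 := kl_c_le h0 h1 h2
  unfold klg
  rw [norm_div]
  have h4 : ‖(1 : ℂ) + I * klc d‖ ≤ 1 + |klc d| := by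
    refine (norm_add_le _ _).trans ?_
    rw [norm_one, norm_mul, Complex.norm_I, one_mul, Complex.norm_real, Real.norm_eq_abs]
  have h5 : ‖(2 : ℂ)‖ = 2 := by simp
  rw [h5, div_le_iff₀ two_pos]
  have h6 : 1 ≤ 1 / (2 * θ) := by
    rw [le_div_iff₀ (by positivity)]; linarith
  linarith

theorem kl_g_sub {a b : ℝ} (ha : 0 < a) (hab : a ≤ b) (hb : b < 1) :
    ‖klg b - klg a‖ ≤ (klc a - klc b) / 2 := by
  have h1 := kl_c_anti ha hab hb
  have h2 : klg b - klg a = I * ((klc b - klc a : ℝ) : ℂ) / 2 := by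
    unfold klg
    push_cast
    ring
  rw [h2, norm_div, norm_mul, Complex.norm_I, one_mul, Complex.norm_real, Real.norm_eq_abs,
    abs_of_nonpos (by linarith)]
  have h5 : ‖(2 : ℂ)‖ = 2 := by simp
  rw [h5]
  linarith

/-- the case `k = 0` -/
theorem kl_zero (x : ℕ → ℝ) (N : ℕ) (θ : ℝ) (h0 : 0 < θ) (hθ : θ ≤ 1/2)
    (hd : ∀ n, n + 1 < N → θ ≤ x (n + 1) - x n ∧ x (n + 1) - x n ≤ 1 - θ)
    (hm : ∀ n, n + 2 < N → x (n + 1) - x n ≤ x (n + 2) - x (n + 1)) :
    ‖∑ n ∈ Finset.range N, ee (x n)‖ ≤ 3 / θ := by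
  have hθ1 : 1 ≤ 1 / θ := by rw [le_div_iff₀ h0]; linarith
  rcases Nat.lt_or_ge N 2 with hN | hN
  · refine (kl_triv x N).trans ?_
    have h1 : (N : ℝ) ≤ 1 := by exact_mod_cast Nat.lt_succ_iff.1 hN
    have h2 : 3 / θ = 3 * (1 / θ) := by ring
    rw [h2]; linarith
  have key : ∀ M : ℕ, M + 2 ≤ N →
      ‖∑ n ∈ Finset.range (M + 1), (ee (x n) - ee (x (n + 1))) * klg (x (n + 1) - x n) +
        ee (x (M + 1)) * klg (x (M + 1) - x M)‖ ≤
        ‖klg (x 1 - x 0)‖ + (klc (x 1 - x 0) - klc (x (M + 1) - x M)) / 2 := by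
    intro M
    induction M with
    | zero =>
      intro _
      have h1 : ∑ n ∈ Finset.range (0 + 1), (ee (x n) - ee (x (n + 1))) * klg (x (n + 1) - x n) +
          ee (x (0 + 1)) * klg (x (0 + 1) - x 0) = ee (x 0) * klg (x 1 - x 0) := by
        simp only [zero_add, Finset.sum_range_one]
        ring
      rw [h1, norm_mul, kl_norm, one_mul]
      simp
    | succ M ih =>
      intro hM
      have h1 := ih (by omega)
      have h2 : ∑ n ∈ Finset.range (M + 1 + 1), (ee (x n) - ee (x (n + 1))) * klg (x (n + 1) - x n) +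
          ee (x (M + 1 + 1)) * klg (x (M + 1 + 1) - x (M + 1)) =
          (∑ n ∈ Finset.range (M + 1), (ee (x n) - ee (x (n + 1))) * klg (x (n + 1) - x n) +
          ee (x (M + 1)) * klg (x (M + 1) - x M)) +
          ee (x (M + 1)) * (klg (x (M + 1 + 1) - x (M + 1)) - klg (x (M + 1) - x M)) := by
        rw [Finset.sum_range_succ]
        ring
      rw [h2]
      have ha := (hd M (by omega)).1
      have hb := (hd (M + 1) (by omega)).2
      have hab := hm M (by omega)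
      have h3 := kl_g_sub (a := x (M + 1) - x M) (b := x (M + 1 + 1) - x (M + 1)) (by linarith)
        hab (by linarith)
      calc _ ≤ _ := norm_add_le _ _
        _ ≤ (‖klg (x 1 - x 0)‖ + (klc (x 1 - x 0) - klc (x (M + 1) - x M)) / 2) +
            (klc (x (M + 1) - x M) - klc (x (M + 1 + 1) - x (M + 1))) / 2 := by
            rw [norm_mul, kl_norm, one_mul]
            exact add_le_add h1 h3
        _ = _ := by ring
  obtain ⟨M, rfl⟩ : ∃ M, N = M + 2 := ⟨N - 2, by omega⟩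
  have h1 := key M le_rfl
  have h2 : ∑ n ∈ Finset.range (M + 1), (ee (x n) - ee (x (n + 1))) * klg (x (n + 1) - x n) =
      ∑ n ∈ Finset.range (M + 1), ee (x n) := by
    refine Finset.sum_congr rfl fun n hn => ?_
    have hn' : n + 1 < M + 2 := by
      have := Finset.mem_range.1 hn
      omega
    have h3 := hd n hn'
    have h4 := kl_sin h0 h3.1 h3.2
    have h5 : ee (x (n + 1)) = ee (x n) * ee (x (n + 1) - x n) := by
      rw [← kl_add]; congr 1; ring
    rw [h5]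
    have h6 := kl_g (d := x (n + 1) - x n) (by linarith)
    calc (ee (x n) - ee (x n) * ee (x (n + 1) - x n)) * klg (x (n + 1) - x n)
        = ee (x n) * ((1 - ee (x (n + 1) - x n)) * klg (x (n + 1) - x n)) := by ring
      _ = ee (x n) := by rw [h6, mul_one]
  rw [h2] at h1
  have hd0 := hd 0 (by omega)
  have hdM := hd M (by omega)
  have g0 := kl_g_norm h0 hθ hd0.1 hd0.2
  have gM := kl_g_norm h0 hθ hdM.1 hdM.2
  have c0 := abs_le.1 (kl_c_le h0 hd0.1 hd0.2)
  have cM := abs_le.1 (kl_c_le h0 hdM.1 hdM.2)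
  simp only [zero_add] at g0 c0
  have h3 : ∑ n ∈ Finset.range (M + 2), ee (x n) =
      (∑ n ∈ Finset.range (M + 1), ee (x n) + ee (x (M + 1)) * klg (x (M + 1) - x M)) +
        (ee (x (M + 1)) - ee (x (M + 1)) * klg (x (M + 1) - x M)) := by
    rw [Finset.sum_range_succ]
    ring
  rw [h3]
  have h4 : ‖ee (x (M + 1)) - ee (x (M + 1)) * klg (x (M + 1) - x M)‖ ≤ 1 + 1 / (2 * θ) := by
    refine (norm_sub_le _ _).trans ?_
    rw [norm_mul, kl_norm, one_mul]
    linarith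
  have h5 : 1 / (2 * θ) = (1 / θ) / 2 := by field_simp
  have h6 : 3 / θ = 3 * (1 / θ) := by ring
  rw [h5] at g0 gM c0 cM h4
  rw [h6]
  calc _ ≤ _ := norm_add_le _ _
    _ ≤ (‖klg (x 1 - x 0)‖ + (klc (x 1 - x 0) - klc (x (M + 1) - x M)) / 2) + (1 + (1 / θ) / 2) :=
        add_le_add h1 h4
    _ ≤ 3 * (1 / θ) := by linarith [c0.2, cM.1]

theorem kl_main (x : ℕ → ℝ) (N : ℕ) (θ : ℝ) (k : ℤ) (h0 : 0 < θ) (hθ : θ ≤ 1/2)
    (hd : ∀ n, n + 1 < N → (k : ℝ) + θ ≤ x (n + 1) - x n ∧ x (n + 1) - x n ≤ k + 1 - θ)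
    (hm : ∀ n, n + 2 < N → x (n + 1) - x n ≤ x (n + 2) - x (n + 1)) :
    ‖∑ n ∈ Finset.range N, ee (x n)‖ ≤ 3 / θ := by
  have h1 := kl_zero (fun n => x n - (((k * n : ℤ)) : ℝ)) N θ h0 hθ ?_ ?_
  · have h2 : ∀ n : ℕ, ee (x n - (((k * n : ℤ)) : ℝ)) = ee (x n) := by
      intro n
      have h3 : x n = (x n - (((k * n : ℤ)) : ℝ)) + (((k * n : ℤ)) : ℝ) := by ring
      conv_rhs => rw [h3, kl_add, kl_int, mul_one]
    simpa only [h2] using h1
  · intro n hn
    obtain ⟨ha, hb⟩ := hd n hn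
    push_cast
    constructor
    · linarith
    · linarith
  · intro n hn
    have := hm n hn
    push_cast
    linarith

theorem kusmin_landau : ∃ C : ℝ, 1 ≤ C ∧ ∀ (x : ℕ → ℝ) (N : ℕ) (θ : ℝ) (k : ℤ), 0 < θ → θ ≤ 1/2 →
    (∀ n, n + 1 < N → (k : ℝ) + θ ≤ x (n + 1) - x n ∧ x (n + 1) - x n ≤ k + 1 - θ) →
    (∀ n, n + 2 < N → x (n + 1) - x n ≤ x (n + 2) - x (n + 1)) →
    ‖∑ n ∈ Finset.range N, ee (x n)‖ ≤ C / θ :=
  ⟨3, by norm_num, fun x N θ k h0 hθ hd hm => kl_main x N θ k h0 hθ hd hm⟩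

theorem kl_split (d : ℕ → ℝ) (D : ℕ) (hmono : ∀ a b, a ≤ b → b < D → d a ≤ d b) (c : ℝ) :
    ∃ m ≤ D, (∀ n < m, d n < c) ∧ (∀ n, m ≤ n → n < D → c ≤ d n) := by
  classical
  by_cases h : ∃ n, n < D ∧ c ≤ d n
  · refine ⟨Nat.find h, (Nat.find_spec h).1.le, ?_, ?_⟩
    · intro n hn
      have h1 := Nat.find_min h hn
      by_contra h2
      exact h1 ⟨hn.trans (Nat.find_spec h).1, not_lt.1 h2⟩
    · intro n hn hD
      exact (Nat.find_spec h).2.trans (hmono _ _ hn hD)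
  · refine ⟨D, le_rfl, ?_, ?_⟩
    · intro n hn
      by_contra h2
      exact h ⟨n, hn, not_lt.1 h2⟩
    · intro n hn hD
      omega

/-- growth of the differences -/
theorem kl_grow (d : ℕ → ℝ) (D : ℕ) (l : ℝ) (h : ∀ n, n + 1 < D → d n + l ≤ d (n + 1)) :
    ∀ a b : ℕ, a ≤ b → b < D → d a + ((b : ℝ) - a) * l ≤ d b := by
  intro a b hab
  induction b, hab using Nat.le_induction with
  | base => intro _; simp
  | succ b hab ih =>
    intro hb
    have h1 := ih (by omega)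
    have h2 := h b hb
    push_cast
    nlinarith

theorem kl_grow' (d : ℕ → ℝ) (D : ℕ) (u : ℝ) (h : ∀ n, n + 1 < D → d (n + 1) ≤ d n + u) :
    ∀ a b : ℕ, a ≤ b → b < D → d b ≤ d a + ((b : ℝ) - a) * u := by
  intro a b hab
  induction b, hab using Nat.le_induction with
  | base => intro _; simp
  | succ b hab ih =>
    intro hb
    have h1 := ih (by omega)
    have h2 := h b hb
    push_cast
    nlinarith

/-- one cell -/
theorem kl_cell (x : ℕ → ℝ) (N : ℕ) (l : ℝ) (hl : 0 < l) (hl4 : l ≤ 1 / 4) (a : ℤ)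
    (hsd : ∀ n, n + 2 < N → l ≤ x (n + 2) - 2 * x (n + 1) + x n)
    (hcell : ∀ n, n + 1 < N → (a : ℝ) ≤ x (n + 1) - x n ∧ x (n + 1) - x n ≤ a + 1) :
    ‖∑ n ∈ Finset.range N, ee (x n)‖ ≤ 7 / Real.sqrt l := by
  have hδ : 0 < Real.sqrt l := Real.sqrt_pos.2 hl
  have hδ2 : Real.sqrt l * Real.sqrt l = l := Real.mul_self_sqrt hl.le
  have hδh : Real.sqrt l ≤ 1 / 2 := by
    rw [Real.sqrt_le_left (by norm_num)]
    norm_num
    linarith
  set δ := Real.sqrt l with hδdef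
  have hδ1 : 2 ≤ 1 / δ := by rw [le_div_iff₀ hδ]; linarith
  rcases Nat.eq_zero_or_pos N with hN | hN
  · subst hN
    simp
    positivity
  obtain ⟨D, rfl⟩ : ∃ D, N = D + 1 := ⟨N - 1, by omega⟩
  set d : ℕ → ℝ := fun n => x (n + 1) - x n with hd
  have hstep : ∀ n, n + 1 < D → d n + l ≤ d (n + 1) := by
    intro n hn
    have := hsd n (by omega)
    simp only [hd]
    have h2 : x (n + 1 + 1) = x (n + 2) := rfl
    rw [h2]
    linarith
  have hgrow := kl_grow d D l hstep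
  have hmono : ∀ a b, a ≤ b → b < D → d a ≤ d b := by
    intro p q hpq hq
    have h1 := hgrow p q hpq hq
    have h2 : (0 : ℝ) ≤ ((q : ℝ) - p) * l := by
      have : (p : ℝ) ≤ q := by exact_mod_cast hpq
      apply mul_nonneg <;> linarith
    linarith
  obtain ⟨m1, hm1D, hm1a, hm1b⟩ := kl_split d D hmono (a + δ)
  obtain ⟨m2, hm2D, hm2a, hm2b⟩ := kl_split d D hmono (a + 1 - δ)
  have h12 : m1 ≤ m2 := by
    by_contra h
    push_neg at h
    have h1 := hm1a m2 h
    have h2 := hm2b m2 le_rfl (by omega)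
    linarith
  -- counts
  have hc1 : (m1 : ℝ) ≤ 1 / δ + 1 := by
    rcases Nat.eq_zero_or_pos m1 with h | h
    · rw [h]; push_cast; linarith
    have h1 := hgrow 0 (m1 - 1) (Nat.zero_le _) (by omega)
    have h2 := hm1a (m1 - 1) (by omega)
    have h3 := (hcell 0 (by omega)).1
    have h4 : ((m1 - 1 : ℕ) : ℝ) = (m1 : ℝ) - 1 := by
      rw [Nat.cast_sub h]; simp
    rw [h4] at h1
    have h3' : (a : ℝ) ≤ d 0 := by simpa [hd] using h3
    have h5 : ((m1 : ℝ) - 1) * l ≤ δ := by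
      simp only [Nat.cast_zero, sub_zero] at h1
      linarith
    have h6 : ((m1 : ℝ) - 1) * δ ≤ 1 := by
      have h7 : (((m1 : ℝ) - 1) * δ) * δ ≤ 1 * δ := by
        rw [mul_assoc, hδ2]; linarith
      exact le_of_mul_le_mul_right h7 hδ
    have h8 : (m1 : ℝ) - 1 ≤ 1 / δ := by rw [le_div_iff₀ hδ]; exact h6
    linarith
  have hc2 : ((D - m2 : ℕ) : ℝ) ≤ 1 / δ + 1 := by
    rcases Nat.eq_zero_or_pos (D - m2) with h | h
    · rw [h]; push_cast; linarith
    have h1 := hgrow m2 (D - 1) (by omega) (by omega)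
    have h2 := hm2b m2 le_rfl (by omega)
    have h3 := (hcell (D - 1) (by omega)).2
    have h3' : d (D - 1) ≤ (a : ℝ) + 1 := h3
    have h4 : ((D - 1 : ℕ) : ℝ) - (m2 : ℝ) = ((D - m2 : ℕ) : ℝ) - 1 := by
      rw [Nat.cast_sub (by omega), Nat.cast_sub (by omega)]
      push_cast
      ring
    rw [h4] at h1
    have h5 : (((D - m2 : ℕ) : ℝ) - 1) * l ≤ δ := by linarith
    have h6 : (((D - m2 : ℕ) : ℝ) - 1) * δ ≤ 1 := by
      have h7 : ((((D - m2 : ℕ) : ℝ) - 1) * δ) * δ ≤ 1 * δ := by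
        rw [mul_assoc, hδ2]; linarith
      exact le_of_mul_le_mul_right h7 hδ
    have h8 : ((D - m2 : ℕ) : ℝ) - 1 ≤ 1 / δ := by rw [le_div_iff₀ hδ]; exact h6
    linarith
  -- middle part
  have hmid := kl_main (fun n => x (m1 + n)) (m2 - m1 + 1) δ a hδ hδh ?_ ?_
  · have hsum : D + 1 = m1 + ((m2 - m1 + 1) + (D - m2)) := by omega
    rw [hsum, Finset.sum_range_add, Finset.sum_range_add]
    have hA : ‖∑ n ∈ Finset.range m1, ee (x n)‖ ≤ m1 := kl_triv x m1
    have hB : ‖∑ n ∈ Finset.range (D - m2), ee (x (m1 + (m2 - m1 + 1 + n)))‖ ≤ (D - m2 : ℕ) :=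
      kl_triv (fun n => x (m1 + (m2 - m1 + 1 + n))) (D - m2)
    have h7 : 7 / δ = 7 * (1 / δ) := by ring
    have h3 : 3 / δ = 3 * (1 / δ) := by ring
    rw [h3] at hmid
    rw [h7]
    calc _ ≤ _ := norm_add_le _ _
      _ ≤ (m1 : ℝ) + (3 * (1 / δ) + ((D - m2 : ℕ) : ℝ)) := by
          refine add_le_add hA ((norm_add_le _ _).trans (add_le_add hmid hB))
      _ ≤ 7 * (1 / δ) := by linarith
  · intro n hn
    have h1 : m1 + n < m2 := by omega
    have h2 := hm1b (m1 + n) (by omega) (by omega)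
    have h3 := hm2a (m1 + n) h1
    exact ⟨h2, h3.le⟩
  · intro n hn
    have h1 := hstep (m1 + n) (by omega)
    have h2 : x (m1 + (n + 1)) - x (m1 + n) = d (m1 + n) := rfl
    have h3 : x (m1 + (n + 2)) - x (m1 + (n + 1)) = d (m1 + n + 1) := rfl
    show x (m1 + (n + 1)) - x (m1 + n) ≤ x (m1 + (n + 2)) - x (m1 + (n + 1))
    rw [h2, h3]
    linarith

theorem kl_cells (l : ℝ) (hl : 0 < l) (hl4 : l ≤ 1 / 4) (K : ℕ) : ∀ (x : ℕ → ℝ) (N : ℕ) (a : ℤ),
    (∀ n, n + 2 < N → l ≤ x (n + 2) - 2 * x (n + 1) + x n) →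
    (∀ n, n + 1 < N → (a : ℝ) ≤ x (n + 1) - x n ∧ x (n + 1) - x n < a + K) →
    ‖∑ n ∈ Finset.range N, ee (x n)‖ ≤ K * (7 / Real.sqrt l) + 1 := by
  induction K with
  | zero =>
    intro x N a _ hc
    have hN : N ≤ 1 := by
      by_contra h
      push_neg at h
      have := hc 0 (by omega)
      push_cast at this
      linarith
    refine (kl_triv x N).trans ?_
    have : (N : ℝ) ≤ 1 := by exact_mod_cast hN
    push_cast
    linarith
  | succ K ih =>
    intro x N a hsd hc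
    rcases Nat.eq_zero_or_pos N with hN | hN
    · subst hN
      simp
      positivity
    obtain ⟨D, rfl⟩ : ∃ D, N = D + 1 := ⟨N - 1, by omega⟩
    set d : ℕ → ℝ := fun n => x (n + 1) - x n with hd
    have hstep : ∀ n, n + 1 < D → d n + l ≤ d (n + 1) := by
      intro n hn
      have := hsd n (by omega)
      simp only [hd]
      have h2 : x (n + 1 + 1) = x (n + 2) := rfl
      rw [h2]
      linarith
    have hgrow := kl_grow d D l hstep
    have hmono : ∀ a b, a ≤ b → b < D → d a ≤ d b := by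
      intro p q hpq hq
      have h1 := hgrow p q hpq hq
      have h2 : (0 : ℝ) ≤ ((q : ℝ) - p) * l := by
        have : (p : ℝ) ≤ q := by exact_mod_cast hpq
        apply mul_nonneg <;> linarith
      linarith
    obtain ⟨m, hmD, hma, hmb⟩ := kl_split d D hmono (a + 1)
    have h1 := kl_cell x m l hl hl4 a (fun n hn => hsd n (by omega)) (fun n hn =>
      ⟨(hc n (by omega)).1, (hma n (by omega)).le⟩)
    have h2 := ih (fun n => x (m + n)) (D + 1 - m) (a + 1) (fun n hn => hsd (m + n) (by omega))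
      (fun n hn => by
        have h3 := hmb (m + n) (by omega) (by omega)
        have h4 := (hc (m + n) (by omega)).2
        push_cast at h4 ⊢
        constructor
        · exact h3
        · have h5 : x (m + (n + 1)) = x (m + n + 1) := rfl
          rw [h5]
          linarith)
    have hsum : D + 1 = m + (D + 1 - m) := by omega
    rw [hsum, Finset.sum_range_add]
    push_cast
    calc _ ≤ _ := norm_add_le _ _
      _ ≤ 7 / Real.sqrt l + (K * (7 / Real.sqrt l) + 1) := add_le_add h1 h2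
      _ = ((K : ℝ) + 1) * (7 / Real.sqrt l) + 1 := by ring

theorem second_test : ∃ C : ℝ, 1 ≤ C ∧ ∀ (x : ℕ → ℝ) (N : ℕ) (l h : ℝ), 0 < l → 1 ≤ h →
    (∀ n, n + 2 < N → l ≤ x (n + 2) - 2 * x (n + 1) + x n ∧ x (n + 2) - 2 * x (n + 1) + x n ≤ h * l) →
    ‖∑ n ∈ Finset.range N, ee (x n)‖ ≤ C * h * (N * l ^ ((1 : ℝ) / 2) + l ^ (-(1 / 2 : ℝ))) := by
  refine ⟨15, by norm_num, fun x N l h hl hh hsd => ?_⟩
  have hδ : 0 < Real.sqrt l := Real.sqrt_pos.2 hl
  have hδ2 : Real.sqrt l * Real.sqrt l = l := Real.mul_self_sqrt hl.le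
  rw [Real.rpow_neg hl.le, ← Real.sqrt_eq_rpow]
  have hinv : 0 < (Real.sqrt l)⁻¹ := inv_pos.2 hδ
  have hN0 : (0 : ℝ) ≤ N := Nat.cast_nonneg N
  rcases lt_or_ge (1 / 4) l with h4 | h4
  · -- large `l`
    refine (kl_triv x N).trans ?_
    have h1 : 1 / 2 ≤ Real.sqrt l := by
      apply Real.le_sqrt_of_sq_le
      norm_num
      linarith
    have h2 : (N : ℝ) * (1 / 2) ≤ N * Real.sqrt l := mul_le_mul_of_nonneg_left h1 hN0
    have h3 : 0 ≤ (N : ℝ) * Real.sqrt l := by positivity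
    have h5 : 15 * 1 * (N * Real.sqrt l + (Real.sqrt l)⁻¹) ≤
        15 * h * (N * Real.sqrt l + (Real.sqrt l)⁻¹) := by
      refine mul_le_mul_of_nonneg_right ?_ (by positivity)
      linarith
    linarith
  · have hδh : Real.sqrt l ≤ 1 / 2 := by
      rw [Real.sqrt_le_left (by norm_num)]
      norm_num
      linarith
    have hinv2 : 2 ≤ (Real.sqrt l)⁻¹ := by
      rw [← one_div, le_div_iff₀ hδ]; linarith
    have hfin : ∀ B : ℝ, B ≤ 15 * (N * Real.sqrt l) * h + 15 * (Real.sqrt l)⁻¹ →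
        B ≤ 15 * h * (N * Real.sqrt l + (Real.sqrt l)⁻¹) := by
      intro B hB
      have h5 : (Real.sqrt l)⁻¹ * 1 ≤ (Real.sqrt l)⁻¹ * h := mul_le_mul_of_nonneg_left hh hinv.le
      nlinarith
    apply hfin
    have hpos : 0 ≤ 15 * (N * Real.sqrt l) * h := by positivity
    rcases Nat.lt_or_ge N 2 with hN | hN
    · refine (kl_triv x N).trans ?_
      have h1 : (N : ℝ) ≤ 1 := by exact_mod_cast Nat.lt_succ_iff.1 hN
      linarith
    obtain ⟨D, rfl⟩ : ∃ D, N = D + 2 := ⟨N - 2, by omega⟩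
    set d : ℕ → ℝ := fun n => x (n + 1) - x n with hd
    have hstep : ∀ n, n + 1 < D + 1 → d n + l ≤ d (n + 1) := by
      intro n hn
      have := (hsd n (by omega)).1
      simp only [hd]
      have h2 : x (n + 1 + 1) = x (n + 2) := rfl
      rw [h2]
      linarith
    have hstep' : ∀ n, n + 1 < D + 1 → d (n + 1) ≤ d n + h * l := by
      intro n hn
      have := (hsd n (by omega)).2
      simp only [hd]
      have h2 : x (n + 1 + 1) = x (n + 2) := rfl
      rw [h2]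
      linarith
    have hgrow := kl_grow d (D + 1) l hstep
    have hgrow' := kl_grow' d (D + 1) (h * l) hstep'
    have hmono : ∀ a b, a ≤ b → b < D + 1 → d a ≤ d b := by
      intro p q hpq hq
      have h1 := hgrow p q hpq hq
      have h2 : (0 : ℝ) ≤ ((q : ℝ) - p) * l := by
        have : (p : ℝ) ≤ q := by exact_mod_cast hpq
        apply mul_nonneg <;> linarith
      linarith
    have h0D : d 0 ≤ d D := hmono 0 D (Nat.zero_le _) (by omega)
    have hfl : ⌊d 0⌋ ≤ ⌊d D⌋ := Int.floor_le_floor h0D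
    obtain ⟨K, hK⟩ : ∃ K : ℕ, ⌊d D⌋ + 1 = ⌊d 0⌋ + K :=
      ⟨(⌊d D⌋ + 1 - ⌊d 0⌋).toNat, by rw [Int.toNat_of_nonneg (by omega)]; ring⟩
    have hK' : (⌊d D⌋ : ℝ) + 1 = (⌊d 0⌋ : ℝ) + K := by exact_mod_cast hK
    have h1 := kl_cells l hl h4 K x (D + 2) ⌊d 0⌋ (fun n hn => (hsd n hn).1) (fun n hn => by
      constructor
      · exact (Int.floor_le (d 0)).trans (hmono 0 n (Nat.zero_le _) (by omega))
      · have h2 : d n ≤ d D := hmono n D (by omega) (by omega)
        have h3 := Int.lt_floor_add_one (d D)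
        have h5 : x (n + 1) - x n = d n := rfl
        rw [h5]
        linarith)
    have h2 : (K : ℝ) ≤ D * (h * l) + 2 := by
      have h3 := hgrow' 0 D (Nat.zero_le _) (by omega)
      have h5 := Int.floor_le (d D)
      have h6 := Int.lt_floor_add_one (d 0)
      simp only [Nat.cast_zero, sub_zero] at h3
      linarith
    refine h1.trans ?_
    have h7 : 7 / Real.sqrt l = 7 * (Real.sqrt l)⁻¹ := by rw [div_eq_mul_inv]
    rw [h7]
    have h8 : (K : ℝ) * (7 * (Real.sqrt l)⁻¹) ≤ (D * (h * l) + 2) * (7 * (Real.sqrt l)⁻¹) :=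
      mul_le_mul_of_nonneg_right h2 (by positivity)
    have h9 : l * (Real.sqrt l)⁻¹ = Real.sqrt l := by
      rw [← hδ2]
      have : Real.sqrt (Real.sqrt l * Real.sqrt l) = Real.sqrt l := by rw [hδ2]
      rw [this, mul_assoc, mul_inv_cancel₀ hδ.ne', mul_one]
    have h10 : (D * (h * l) + 2) * (7 * (Real.sqrt l)⁻¹) =
        7 * D * h * Real.sqrt l + 14 * (Real.sqrt l)⁻¹ := by
      calc (D * (h * l) + 2) * (7 * (Real.sqrt l)⁻¹)
          = 7 * D * h * (l * (Real.sqrt l)⁻¹) + 14 * (Real.sqrt l)⁻¹ := by ring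
        _ = _ := by rw [h9]
    rw [h10] at h8
    have h11 : (D : ℝ) * (h * Real.sqrt l) ≤ ((D + 2 : ℕ) : ℝ) * (h * Real.sqrt l) := by
      refine mul_le_mul_of_nonneg_right ?_ (by positivity)
      push_cast
      linarith
    have h12 : 0 ≤ ((D + 2 : ℕ) : ℝ) * (h * Real.sqrt l) := by positivity
    have h13 : 15 * (((D + 2 : ℕ) : ℝ) * Real.sqrt l) * h = 15 * (((D + 2 : ℕ) : ℝ) * (h * Real.sqrt l)) := by
      ring
    rw [h13]
    nlinarith

end Pool.Agent.H15.SC
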