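import Pool.Agent.H15.SC.Gauss
import Pool.Agent.H15.SC.Planch

/-!
# SC-12  the explicit kernel  (project SC, MP_be4568_nt)

`eE_smooth`: for `re r > 0` put `e_r(y) = κ y^β e^{-r y^{1/d}}`; `∫_0^∞ e_r(y) y^{-s-1} dy = κ d Γ(d(β-s)) r^{-d(β-s)}` for
`re s < re β` (substitute `y = v^d`, `Complex.integral_cpow_mul_exp_neg_mul_Ioi`).  Fubini with `gW_fourier`
gives the formula with `r` in place of `-i c`.  Let `r = δ - i c`, `δ → 0+`: left side dominated by
`|κ| x^{re β} e^{|β| |u|} gW W u`, right side by `C e^{A|t| - t²/W²}` (`|Γ(z)| ≤ Γ(re z)`,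
`|r^{-d(β-s)}| ≤ C e^{(π/2) d |im (β-s)|}`).
`eE_near`: `|eE(y e^{-u}) - eE(y)| ≤ C y^{re β + 1/d} |u| e^{A|u|}` (mean value theorem), `gW_moment`.
`Kp_bound`: `|Γ(z)| ≤ Γ(re z)` for `re z > 0` and `|r^w| ≤ ...`.
-/

set_option autoImplicit false

open Complex Filter Topology MeasureTheory Set
open scoped ComplexConjugate

namespace Pool.Agent.H15.SC

/-- the Mellin integrand in logarithmic coordinates -/
private noncomputable def kI (d : ℕ) (z r : ℂ) (w : ℝ) : ℂ :=
  cexp (z * w) * cexp (-(r * (Real.exp (w / d) : ℝ)))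

private theorem kI_cont (d : ℕ) (z r : ℂ) : Continuous (kI d z r) := by
  unfold kI
  fun_prop

private theorem kI_norm (d : ℕ) (z r : ℂ) (w : ℝ) :
    ‖kI d z r w‖ = Real.exp (z.re * w) * Real.exp (-(r.re * Real.exp (w / d))) := by
  unfold kI
  rw [norm_mul, Complex.norm_exp, Complex.norm_exp]
  congr 2
  · simp
  · rw [Complex.neg_re, Complex.re_mul_ofReal]

private theorem exp_pow_aux (d : ℕ) (w : ℝ) (a : ℂ) :
    ((Real.exp (w / d) : ℝ) : ℂ) ^ a = cexp (a * (w / d : ℝ)) := by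
  have h1 : ((Real.exp (w / d) : ℝ) : ℂ) ≠ 0 := by
    exact_mod_cast (Real.exp_pos _).ne'
  rw [Complex.cpow_def_of_ne_zero h1, ← Complex.ofReal_log (Real.exp_pos _).le, Real.log_exp, mul_comm]

private theorem kI_real (d : ℕ) (hd : 1 ≤ d) {z : ℂ} (hz : 0 < z.re) {r : ℝ} (hr : 0 < r) :
    Integrable (kI d z r) ∧
      ∫ w : ℝ, kI d z r w = d * Complex.Gamma (d * z) * (r : ℂ) ^ (-(d * z)) := by
  have hd0 : (0 : ℝ) < d := by exact_mod_cast hd
  have hdc : (d : ℂ) ≠ 0 := by exact_mod_cast (Nat.pos_of_ne_zero (by omega)).ne'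
  have hare : 0 < ((d : ℂ) * z).re := by
    have : ((d : ℂ) * z).re = d * z.re := by simp
    rw [this]
    positivity
  have himg : (fun w : ℝ => Real.exp (w / d)) '' univ = Ioi 0 := by
    ext y
    simp only [mem_image, mem_univ, true_and, mem_Ioi]
    constructor
    · rintro ⟨w, rfl⟩
      exact Real.exp_pos _
    · intro hy
      refine ⟨d * Real.log y, ?_⟩
      rw [mul_div_cancel_left₀ _ hd0.ne', Real.exp_log hy]
  have hder : ∀ w ∈ (univ : Set ℝ), HasDerivWithinAt (fun w : ℝ => Real.exp (w / d))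
      (Real.exp (w / d) * (1 / d)) univ w := by
    intro w _
    exact (((hasDerivAt_id w).div_const (d : ℝ)).exp).hasDerivWithinAt
  have hinj : InjOn (fun w : ℝ => Real.exp (w / d)) univ := by
    intro x _ y _ hxy
    have h1 := Real.exp_injective hxy
    have h2 : x / d = y / d := h1
    field_simp at h2
    exact h2
  set g : ℝ → ℂ := fun v => (v : ℂ) ^ ((d : ℂ) * z - 1) * cexp (-(r * v)) with hg
  have hgw : ∀ w : ℝ, |Real.exp (w / d) * (1 / d)| • g (Real.exp (w / d)) = (1 / d : ℂ) * kI d z r w := by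
    intro w
    rw [abs_of_pos (by positivity), hg]
    simp only
    rw [exp_pow_aux, Complex.real_smul, kI]
    have h1 : ((Real.exp (w / d) * (1 / d) : ℝ) : ℂ) = cexp ((w / d : ℝ)) * (1 / d) := by
      push_cast
      ring
    rw [h1]
    have h2 : cexp (z * w) = cexp ((w / d : ℝ)) * cexp (((d : ℂ) * z - 1) * (w / d : ℝ)) := by
      rw [← Complex.exp_add]
      congr 1
      push_cast
      field_simp
      ring
    rw [h2]
    ring
  have hval := Complex.integral_cpow_mul_exp_neg_mul_Ioi hare hr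
  have hrpow : (1 / (r : ℂ)) ^ ((d : ℂ) * z) = (r : ℂ) ^ (-((d : ℂ) * z)) := by
    rw [one_div, Complex.inv_cpow _ _ (by rw [Complex.arg_ofReal_of_nonneg hr.le]; exact Real.pi_pos.ne),
      Complex.cpow_neg]
  have hgI : IntegrableOn g (Ioi 0) := by
    by_contra hcon
    have h0 : ∫ v in Ioi (0 : ℝ), g v = 0 := integral_undef hcon
    rw [hg] at h0
    rw [h0] at hval
    have h1 : (1 / (r : ℂ)) ^ ((d : ℂ) * z) ≠ 0 := by
      rw [Complex.cpow_ne_zero_iff]
      left
      exact one_div_ne_zero (by exact_mod_cast hr.ne')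
    exact (mul_ne_zero h1 (Complex.Gamma_ne_zero_of_re_pos hare)) hval.symm
  have hI := (integrableOn_image_iff_integrableOn_abs_deriv_smul MeasurableSet.univ hder hinj g).1
    (by rw [himg]; exact hgI)
  have hE := integral_image_eq_integral_abs_deriv_smul MeasurableSet.univ hder hinj g
  simp only [hgw, integrableOn_univ] at hI
  simp only [hgw, himg, Measure.restrict_univ] at hE
  have hI' : Integrable (kI d z r) := by
    have := hI.const_mul (d : ℂ)
    refine this.congr (Eventually.of_forall fun w => ?_)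
    simp only
    rw [← mul_assoc, mul_one_div_cancel hdc, one_mul]
  refine ⟨hI', ?_⟩
  rw [integral_const_mul] at hE
  have hE2 : ∫ w : ℝ, kI d z r w = d * ∫ v in Ioi (0 : ℝ), g v := by
    rw [hE, ← mul_assoc, mul_one_div_cancel hdc, one_mul]
  rw [hE2, hg, hval, hrpow]
  ring

private theorem kI_int (d : ℕ) (hd : 1 ≤ d) {z r : ℂ} (hz : 0 < z.re) (hr : 0 < r.re) :
    Integrable (kI d z r) := by
  have h := (kI_real d hd hz hr).1.norm
  refine (integrable_norm_iff (kI_cont d z r).aestronglyMeasurable).1 (h.congr (Eventually.of_forall fun w => ?_))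
  simp only
  rw [kI_norm, kI_norm, Complex.ofReal_re]

private theorem kI_val (d : ℕ) (hd : 1 ≤ d) {z r : ℂ} (hz : 0 < z.re) (hr : 0 < r.re) :
    ∫ w : ℝ, kI d z r w = d * Complex.Gamma (d * z) * r ^ (-(d * z)) := by
  have hd0 : (0 : ℝ) < d := by exact_mod_cast hd
  have hdc : (d : ℂ) ≠ 0 := by exact_mod_cast (Nat.pos_of_ne_zero (by omega)).ne'
  set U : Set ℂ := {r : ℂ | 0 < r.re} with hU
  have hUo : IsOpen U := isOpen_lt continuous_const Complex.continuous_re
  have hUc : IsPreconnected U := (convex_halfSpace_re_gt 0).isPreconnected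
  have hz' : 0 < (z + 1 / d).re := by
    have : (z + 1 / d).re = z.re + 1 / d := by
      simp
    rw [this]
    positivity
  have hF : DifferentiableOn ℂ (fun r : ℂ => ∫ w : ℝ, kI d z r w) U := by
    intro r₀ hr₀
    have hr₀' : 0 < r₀.re := hr₀
    have hpos : 0 < r₀.re / 2 := by positivity
    refine (DifferentiableAt.differentiableWithinAt ?_)
    have hb : Integrable (fun w : ℝ => ‖kI d (z + 1 / d) ((r₀.re / 2 : ℝ) : ℂ) w‖) :=
      (kI_real d hd hz' hpos).1.norm
    refine (hasDerivAt_integral_of_dominated_loc_of_deriv_le (𝕜 := ℂ) (μ := volume)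
      (F := fun r w => kI d z r w) (x₀ := r₀)
      (F' := fun r w => -((Real.exp (w / d) : ℝ) : ℂ) * kI d z r w)
      (s := Metric.ball r₀ (r₀.re / 2)) (bound := fun w : ℝ => ‖kI d (z + 1 / d) ((r₀.re / 2 : ℝ) : ℂ) w‖)
      (Metric.ball_mem_nhds r₀ hpos) ?_ ?_ ?_ ?_ hb ?_).2.differentiableAt
    · exact Eventually.of_forall fun r => (kI_cont d z r).aestronglyMeasurable
    · exact kI_int d hd hz hr₀'
    · have : Continuous (fun w : ℝ => -((Real.exp (w / d) : ℝ) : ℂ) * kI d z r₀ w) := by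
        have := kI_cont d z r₀
        fun_prop
      exact this.aestronglyMeasurable
    · refine Eventually.of_forall fun w r hr => ?_
      have h1 : r₀.re / 2 ≤ r.re := by
        have h2 : |(r - r₀).re| ≤ ‖r - r₀‖ := Complex.abs_re_le_norm _
        rw [Metric.mem_ball, Complex.dist_eq] at hr
        rw [Complex.sub_re, abs_le] at h2
        linarith [h2.1]
      rw [norm_mul, norm_neg, Complex.norm_real, Real.norm_of_nonneg (Real.exp_pos _).le, kI_norm, kI_norm,
        Complex.ofReal_re, ← mul_assoc, ← Real.exp_add]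
      have h3 : w / d + z.re * w = (z + 1 / d).re * w := by
        have : (z + 1 / d).re = z.re + 1 / d := by
          simp
        rw [this]
        ring
      rw [h3]
      gcongr
    · refine Eventually.of_forall fun w r hr => ?_
      unfold kI
      have h1 : HasDerivAt (fun r : ℂ => cexp (-(r * ((Real.exp (w / d) : ℝ) : ℂ))))
          (cexp (-(r * ((Real.exp (w / d) : ℝ) : ℂ))) * (-(1 * ((Real.exp (w / d) : ℝ) : ℂ)))) r :=
        (((hasDerivAt_id r).mul_const _).neg).cexp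
      have h2 := h1.const_mul (cexp (z * w))
      convert! h2 using 1
      ring
  have hG : DifferentiableOn ℂ (fun r : ℂ => d * Complex.Gamma (d * z) * r ^ (-(d * z))) U := by
    intro r₀ hr₀
    have hr₀' : 0 < r₀.re := hr₀
    refine (DifferentiableAt.differentiableWithinAt ?_)
    have : DifferentiableAt ℂ (fun r : ℂ => r ^ (-(d * z))) r₀ :=
      differentiableAt_id.cpow_const (Or.inl hr₀')
    exact this.const_mul _
  have hfreq : ∃ᶠ r in 𝓝[≠] (1 : ℂ), (fun r : ℂ => ∫ w : ℝ, kI d z r w) r =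
      (fun r : ℂ => d * Complex.Gamma (d * z) * r ^ (-(d * z))) r := by
    have ht : Tendsto (fun n : ℕ => ((1 + 1 / ((n : ℝ) + 1) : ℝ) : ℂ)) atTop (𝓝[≠] (1 : ℂ)) := by
      rw [tendsto_nhdsWithin_iff]
      constructor
      · have h1 : Tendsto (fun n : ℕ => (1 + 1 / ((n : ℝ) + 1) : ℝ)) atTop (𝓝 (1 + 0)) :=
          tendsto_const_nhds.add tendsto_one_div_add_atTop_nhds_zero_nat
        rw [add_zero] at h1
        have h2 := (Complex.continuous_ofReal.tendsto 1).comp h1
        rw [Complex.ofReal_one] at h2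
        exact h2
      · refine Eventually.of_forall fun n => ?_
        have h1 : (0 : ℝ) < 1 / ((n : ℝ) + 1) := by positivity
        simp only [mem_compl_iff, mem_singleton_iff]
        intro h
        have h2 : (1 + 1 / ((n : ℝ) + 1) : ℝ) = 1 := by exact_mod_cast h
        linarith
    refine ht.frequently (Frequently.of_forall fun n => ?_)
    have hpos : (0 : ℝ) < 1 + 1 / ((n : ℝ) + 1) := by positivity
    exact (kI_real d hd hz hpos).2
  have hEq := (hF.analyticOnNhd hUo).eqOn_of_preconnected_of_frequently_eq (hG.analyticOnNhd hUo) hUc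
    (z₀ := 1) (by simp [hU]) hfreq
  exact hEq hr


/-- the kernel with a general parameter -/
private noncomputable def Kr (d : ℕ) (κ β r s : ℂ) : ℂ :=
  κ * d * Complex.Gamma (d * (β - s)) * r ^ (-(d * (β - s)))

/-- the function `κ y^β e^{-r y^{1/d}}` -/
private noncomputable def er (d : ℕ) (κ β r : ℂ) (y : ℝ) : ℂ :=
  κ * (y : ℂ) ^ β * cexp (-(r * (y ^ ((1 : ℝ) / d) : ℝ)))

private theorem er_exp (d : ℕ) (κ β r : ℂ) (w : ℝ) :
    er d κ β r (Real.exp w) = κ * (cexp (β * w) * cexp (-(r * (Real.exp (w / d) : ℝ)))) := by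
  unfold er
  have h1 : ((Real.exp w : ℝ) : ℂ) ≠ 0 := by
    exact_mod_cast (Real.exp_pos _).ne'
  rw [Complex.cpow_def_of_ne_zero h1, ← Complex.ofReal_log (Real.exp_pos _).le, Real.log_exp, ← Real.exp_mul,
    mul_one_div]
  ring_nf

private theorem cpow_ln (σ t : ℝ) {x : ℝ} (hx : 0 < x) :
    (x : ℂ) ^ (ln σ t) = cexp (ln σ t * (Real.log x : ℝ)) := by
  have h1 : (x : ℂ) ≠ 0 := by exact_mod_cast hx.ne'
  rw [Complex.cpow_def_of_ne_zero h1, ← Complex.ofReal_log hx.le, mul_comm]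

private theorem norm_cpow_ln (σ t : ℝ) {x : ℝ} (hx : 0 < x) : ‖(x : ℂ) ^ (ln σ t)‖ = x ^ σ := by
  rw [Complex.norm_cpow_eq_rpow_re_of_pos hx, ln_re]

private theorem cont_ln (σ : ℝ) : Continuous (ln σ) := by
  unfold ln
  fun_prop

private theorem er_smooth (d : ℕ) (hd : 1 ≤ d) (κ β r : ℂ) (hr : 0 < r.re) {W : ℝ} (hW : 0 < W) {σ : ℝ}
    (hσ : σ < β.re) {x : ℝ} (hx : 0 < x) :
    smC W (er d κ β r) x =
      vint (fun t => Kr d κ β r (ln σ t) * cexp ((ln σ t) ^ 2 / (W : ℂ) ^ 2)) σ x := by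
  have hdc : (d : ℂ) ≠ 0 := by exact_mod_cast (Nat.pos_of_ne_zero (by omega)).ne'
  -- the double integral
  set G : ℝ → ℝ → ℂ := fun t w =>
    (cexp ((ln σ t) ^ 2 / (W : ℂ) ^ 2) * cexp (ln σ t * (Real.log x : ℝ))) *
      (κ * kI d (β - ln σ t) r w) with hG
  have hGc : Continuous (Function.uncurry G) := by
    have h1 : Continuous (fun p : ℝ × ℝ => kI d (β - ln σ p.1) r p.2) := by
      unfold kI
      have := cont_ln σ
      fun_prop
    have h2 : Continuous (fun p : ℝ × ℝ => ln σ p.1) := (cont_ln σ).comp continuous_fst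
    simp only [hG, Function.uncurry_def]
    fun_prop
  have hB : Integrable (fun w : ℝ => ‖κ‖ * (Real.exp ((β.re - σ) * w) * Real.exp (-(r.re * Real.exp (w / d))))) := by
    have h1 := (kI_int d hd (z := β - ln σ 0) (by simpa using hσ) hr).norm.const_mul ‖κ‖
    refine h1.congr (Eventually.of_forall fun w => ?_)
    simp only
    rw [kI_norm, Complex.sub_re, ln_re]
  have hA : Integrable (fun t : ℝ => Real.exp ((σ ^ 2 - t ^ 2) / W ^ 2) * x ^ σ) := by
    have h1 := ((gW_fourier hW σ (Real.log x)).1).norm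
    refine h1.congr (Eventually.of_forall fun t => ?_)
    simp only
    rw [norm_mul, norm_expQ, ← cpow_ln σ t hx, norm_cpow_ln σ t hx]
  have hGI : Integrable (Function.uncurry G) (volume.prod volume) := by
    refine (hA.mul_prod hB).mono' hGc.aestronglyMeasurable (Eventually.of_forall fun p => ?_)
    simp only [hG, Function.uncurry_def]
    rw [norm_mul, norm_mul, norm_mul, norm_expQ, ← cpow_ln σ _ hx, norm_cpow_ln σ _ hx, kI_norm,
      Complex.sub_re, ln_re]
  have hswap := integral_integral_swap hGI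
  have hL : ∀ t : ℝ, ∫ w : ℝ, G t w =
      (Kr d κ β r (ln σ t) * cexp ((ln σ t) ^ 2 / (W : ℂ) ^ 2)) * (x : ℂ) ^ (ln σ t) := by
    intro t
    simp only [hG]
    rw [integral_const_mul, integral_const_mul, kI_val d hd (by simpa using hσ) hr, cpow_ln σ t hx, Kr]
    ring
  have hR : ∀ w : ℝ, ∫ t : ℝ, G t w =
      (2 * Real.pi : ℂ) * (er d κ β r (Real.exp w) * (gW W (Real.log x - w) : ℂ)) := by
    intro w
    have h1 : ∀ t : ℝ, G t w = (er d κ β r (Real.exp w)) *
        (cexp ((ln σ t) ^ 2 / (W : ℂ) ^ 2) * cexp (ln σ t * ((Real.log x - w : ℝ) : ℂ))) := by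
      intro t
      simp only [hG]
      rw [er_exp, kI]
      have h2 : cexp (ln σ t * (Real.log x : ℝ)) * cexp ((β - ln σ t) * w) =
          cexp (β * w) * cexp (ln σ t * ((Real.log x - w : ℝ) : ℂ)) := by
        rw [← Complex.exp_add, ← Complex.exp_add]
        congr 1
        push_cast
        ring
      calc cexp ((ln σ t) ^ 2 / (W : ℂ) ^ 2) * cexp (ln σ t * (Real.log x : ℝ)) *
            (κ * (cexp ((β - ln σ t) * w) * cexp (-(r * (Real.exp (w / d) : ℝ)))))
          = κ * cexp (-(r * (Real.exp (w / d) : ℝ))) * cexp ((ln σ t) ^ 2 / (W : ℂ) ^ 2) *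
            (cexp (ln σ t * (Real.log x : ℝ)) * cexp ((β - ln σ t) * w)) := by ring
        _ = _ := by
            rw [h2]
            ring
    simp only [h1]
    rw [integral_const_mul, (gW_fourier hW σ (Real.log x - w)).2]
    ring
  simp only [hL, hR] at hswap
  rw [integral_const_mul] at hswap
  unfold vint smC
  rw [hswap]
  have hsub := integral_sub_left_eq_self
    (fun w : ℝ => er d κ β r (Real.exp w) * (gW W (Real.log x - w) : ℂ)) volume (Real.log x)
  rw [← hsub]
  have hpi : (Real.pi : ℂ) ≠ 0 := by exact_mod_cast Real.pi_pos.ne'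
  rw [← mul_assoc]
  have h3 : ((1 / (2 * Real.pi) : ℝ) : ℂ) * (2 * Real.pi) = 1 := by
    push_cast
    field_simp
  rw [h3, one_mul]
  refine integral_congr_ae (Eventually.of_forall fun u => ?_)
  simp only
  rw [Real.exp_sub, Real.exp_log hx, sub_sub_cancel, Real.exp_neg, div_eq_mul_inv]


private theorem norm_Gamma_le {z : ℂ} (hz : 0 < z.re) : ‖Complex.Gamma z‖ ≤ Real.Gamma z.re := by
  rw [Complex.Gamma_eq_integral hz, Complex.GammaIntegral, Real.Gamma_eq_integral hz]
  refine (norm_integral_le_integral_norm _).trans (le_of_eq ?_)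
  refine setIntegral_congr_fun measurableSet_Ioi fun x hx => ?_
  have hx' : (0 : ℝ) < x := hx
  rw [norm_mul, Complex.norm_real, Real.norm_of_nonneg (Real.exp_pos _).le,
    Complex.norm_cpow_eq_rpow_re_of_pos hx']
  simp

private theorem Kr_norm_le (d : ℕ) (hd : 1 ≤ d) (κ β : ℂ) {c : ℝ} (hc : 0 < c) {r : ℂ} (hr : 0 ≤ r.re)
    (hcr : c ≤ ‖r‖) {s : ℂ} (hs : s.re < β.re) :
    ‖Kr d κ β r s‖ ≤ ‖κ‖ * d * (Real.Gamma (d * (β.re - s.re)) * c ^ (-(d * (β.re - s.re)))) *
      Real.exp (Real.pi / 2 * d * (|β.im| + |s.im|)) := by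
  have hd0 : (0 : ℝ) < d := by exact_mod_cast hd
  have hr0 : r ≠ 0 := by
    intro h
    rw [h, norm_zero] at hcr
    linarith
  have hre : ((d : ℂ) * (β - s)).re = d * (β.re - s.re) := by simp
  have him : ((d : ℂ) * (β - s)).im = d * (β.im - s.im) := by simp
  have hpos : 0 < (d : ℝ) * (β.re - s.re) := mul_pos hd0 (by linarith)
  have h1 : ‖Complex.Gamma (d * (β - s))‖ ≤ Real.Gamma (d * (β.re - s.re)) := by
    have := norm_Gamma_le (z := (d : ℂ) * (β - s)) (by rw [hre]; exact hpos)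
    rwa [hre] at this
  have h2 : ‖r ^ (-((d : ℂ) * (β - s)))‖ ≤ c ^ (-(d * (β.re - s.re))) *
      Real.exp (Real.pi / 2 * d * (|β.im| + |s.im|)) := by
    rw [Complex.norm_cpow_of_ne_zero hr0, Complex.neg_re, Complex.neg_im, hre, him, div_eq_mul_inv,
      ← Real.exp_neg]
    have h3 : ‖r‖ ^ (-(d * (β.re - s.re))) ≤ c ^ (-(d * (β.re - s.re))) :=
      Real.rpow_le_rpow_of_nonpos hc hcr (by linarith)
    have h4 : |Complex.arg r| ≤ Real.pi / 2 := Complex.abs_arg_le_pi_div_two_iff.2 hr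
    have h5 : |d * (β.im - s.im)| ≤ d * (|β.im| + |s.im|) := by
      rw [abs_mul, abs_of_pos hd0]
      exact mul_le_mul_of_nonneg_left (abs_sub _ _) hd0.le
    have h6 : -(Complex.arg r * -(d * (β.im - s.im))) ≤ Real.pi / 2 * d * (|β.im| + |s.im|) := by
      calc -(Complex.arg r * -(d * (β.im - s.im))) = Complex.arg r * (d * (β.im - s.im)) := by ring
        _ ≤ |Complex.arg r * (d * (β.im - s.im))| := le_abs_self _
        _ = |Complex.arg r| * |d * (β.im - s.im)| := abs_mul _ _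
        _ ≤ Real.pi / 2 * (d * (|β.im| + |s.im|)) := by
            gcongr
        _ = _ := by ring
    gcongr
  unfold Kr
  rw [norm_mul, norm_mul, norm_mul, Complex.norm_natCast]
  have hG : 0 ≤ Real.Gamma (d * (β.re - s.re)) := (Real.Gamma_pos_of_pos hpos).le
  calc ‖κ‖ * d * ‖Complex.Gamma (d * (β - s))‖ * ‖r ^ (-((d : ℂ) * (β - s)))‖
      ≤ ‖κ‖ * d * Real.Gamma (d * (β.re - s.re)) * (c ^ (-(d * (β.re - s.re))) *
      Real.exp (Real.pi / 2 * d * (|β.im| + |s.im|))) := by gcongr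
    _ = _ := by ring

private theorem Kr_diff (d : ℕ) (hd : 1 ≤ d) (κ β : ℂ) {r : ℂ} (hr : r ≠ 0) :
    DifferentiableOn ℂ (Kr d κ β r) {s : ℂ | s.re < β.re} := by
  have hd0 : (0 : ℝ) < d := by exact_mod_cast hd
  intro s hs
  have hs' : s.re < β.re := hs
  refine DifferentiableAt.differentiableWithinAt ?_
  unfold Kr
  have h0 : DifferentiableAt ℂ (fun s : ℂ => (d : ℂ) * (β - s)) s := by fun_prop
  have h1 : DifferentiableAt ℂ Complex.Gamma ((d : ℂ) * (β - s)) := by
    refine Complex.differentiableAt_Gamma _ fun m hm => ?_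
    have h2 := congrArg Complex.re hm
    have hre : ((d : ℂ) * (β - s)).re = d * (β.re - s.re) := by simp
    have h3 : (-(m : ℂ)).re = -(m : ℝ) := by simp
    rw [hre, h3] at h2
    have h4 : 0 < (d : ℝ) * (β.re - s.re) := mul_pos hd0 (by linarith)
    have h5 : (0 : ℝ) ≤ m := Nat.cast_nonneg m
    linarith
  have h2 : DifferentiableAt ℂ (fun s : ℂ => Complex.Gamma ((d : ℂ) * (β - s))) s :=
    DifferentiableAt.comp (g := Complex.Gamma) s h1 h0
  have h3 : DifferentiableAt ℂ (fun s : ℂ => r ^ (-((d : ℂ) * (β - s)))) s :=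
    h0.neg.const_cpow (Or.inl hr)
  exact (h2.const_mul (κ * d)).mul h3

private theorem Kp_eq (d : ℕ) (κ β : ℂ) (c : ℝ) : Kp d κ β c = Kr d κ β (-(I * c)) := rfl

private theorem Ic_ne {c : ℝ} (hc : 0 < c) : (-(I * c) : ℂ) ≠ 0 := by
  rw [neg_ne_zero]
  exact mul_ne_zero Complex.I_ne_zero (by exact_mod_cast hc.ne')

theorem Kp_diff (d : ℕ) (hd : 1 ≤ d) (κ β : ℂ) (c : ℝ) (hc : 0 < c) :
    DifferentiableOn ℂ (Kp d κ β c) {s : ℂ | s.re < β.re} := by
  rw [Kp_eq]
  exact Kr_diff d hd κ β (Ic_ne hc)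

theorem Km_diff (d : ℕ) (hd : 1 ≤ d) (κ β : ℂ) (c : ℝ) (hc : 0 < c) :
    DifferentiableOn ℂ (Km d κ β c) {s : ℂ | s.re < β.re} := by
  intro s hs
  have hs' : s.re < β.re := hs
  have hopen : IsOpen {s : ℂ | s.re < β.re} := isOpen_lt Complex.continuous_re continuous_const
  have h1 : DifferentiableAt ℂ (Kp d κ β c) (conj s) :=
    (Kp_diff d hd κ β c hc).differentiableAt (hopen.mem_nhds (by simpa using hs'))
  have h2 := h1.conj_conj
  rw [Complex.conj_conj] at h2
  exact h2.differentiableWithinAt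

/-- crude bound, uniform in `-3/4 ≤ σ ≤ b < re β` -/
theorem Kp_bound (d : ℕ) (hd : 1 ≤ d) (κ β : ℂ) (c : ℝ) (hc : 0 < c) (b : ℝ) (hb : b < β.re) :
    ∃ A C : ℝ, 0 ≤ A ∧ 0 ≤ C ∧ ∀ s : ℂ, -(3/4) ≤ s.re → s.re ≤ b →
      ‖Kp d κ β c s‖ ≤ C * Real.exp (A * |s.im|) ∧ ‖Km d κ β c s‖ ≤ C * Real.exp (A * |s.im|) := by
  have hd0 : (0 : ℝ) < d := by exact_mod_cast hd
  have hcont : ContinuousOn (fun σ : ℝ => Real.Gamma (d * (β.re - σ)) * c ^ (-(d * (β.re - σ))))
      (Icc (-(3/4)) b) := by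
    intro σ hσ
    have hpos : 0 < (d : ℝ) * (β.re - σ) := mul_pos hd0 (by linarith [hσ.2])
    refine ContinuousAt.continuousWithinAt ?_
    have h1 : ContinuousAt Real.Gamma (d * (β.re - σ)) := by
      refine (Real.differentiableAt_Gamma fun m hm => ?_).continuousAt
      have h5 : (0 : ℝ) ≤ m := Nat.cast_nonneg m
      linarith
    have h0 : ContinuousAt (fun σ : ℝ => (d : ℝ) * (β.re - σ)) σ := by fun_prop
    have h2 : ContinuousAt (fun σ : ℝ => Real.Gamma (d * (β.re - σ))) σ :=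
      ContinuousAt.comp (g := Real.Gamma) h1 h0
    have h3 : ContinuousAt (fun σ : ℝ => c ^ (-(d * (β.re - σ)))) σ :=
      ContinuousAt.rpow continuousAt_const h0.neg (Or.inl hc.ne')
    exact h2.mul h3
  obtain ⟨M, hM⟩ := isCompact_Icc.exists_bound_of_continuousOn hcont
  have key : ∀ s : ℂ, -(3/4) ≤ s.re → s.re ≤ b → ‖Kp d κ β c s‖ ≤
      (‖κ‖ * d * |M| * Real.exp (Real.pi / 2 * d * |β.im|)) * Real.exp (Real.pi / 2 * d * |s.im|) := by
    intro s h1 h2
    have hnorm : c ≤ ‖(-(I * c) : ℂ)‖ := by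
      rw [norm_neg, norm_mul, Complex.norm_I, one_mul, Complex.norm_real, Real.norm_of_nonneg hc.le]
    have h3 := Kr_norm_le d hd κ β hc (r := -(I * c)) (by simp) hnorm (s := s) (by linarith)
    rw [← Kp_eq] at h3
    have h4 := hM s.re ⟨h1, h2⟩
    have h5 : Real.Gamma (d * (β.re - s.re)) * c ^ (-(d * (β.re - s.re))) ≤ |M| :=
      (le_abs_self _).trans (h4.trans (le_abs_self M))
    refine h3.trans ?_
    calc ‖κ‖ * d * (Real.Gamma (d * (β.re - s.re)) * c ^ (-(d * (β.re - s.re)))) *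
          Real.exp (Real.pi / 2 * d * (|β.im| + |s.im|))
        ≤ ‖κ‖ * d * |M| * Real.exp (Real.pi / 2 * d * (|β.im| + |s.im|)) := by gcongr
      _ = _ := by
          rw [mul_add, Real.exp_add]
          ring
  refine ⟨Real.pi / 2 * d, ‖κ‖ * d * |M| * Real.exp (Real.pi / 2 * d * |β.im|), by positivity, by positivity,
    fun s h1 h2 => ⟨key s h1 h2, ?_⟩⟩
  have h3 := key (conj s) (by simpa using h1) (by simpa using h2)
  unfold Km
  rw [Complex.norm_conj]
  simpa using h3

private theorem int_exp_gauss (A : ℝ) {W : ℝ} (hW : 0 < W) :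
    Integrable (fun t : ℝ => Real.exp (A * |t|) * Real.exp (-(t ^ 2 / W ^ 2))) := by
  have hb : 0 < 1 / (2 * W ^ 2) := by positivity
  have hint : Integrable (fun t : ℝ => Real.exp (A ^ 2 * W ^ 2 / 2) * Real.exp (-(1 / (2 * W ^ 2)) * t ^ 2)) :=
    (integrable_exp_neg_mul_sq hb).const_mul _
  have hmeas : Continuous (fun t : ℝ => Real.exp (A * |t|) * Real.exp (-(t ^ 2 / W ^ 2))) := by
    fun_prop
  refine hint.mono' hmeas.aestronglyMeasurable (Eventually.of_forall fun t => ?_)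
  rw [Real.norm_eq_abs, abs_of_nonneg (by positivity)]
  rw [← Real.exp_add, ← Real.exp_add, Real.exp_le_exp]
  have h3 : t ^ 2 / W ^ 2 = (|t| / W) ^ 2 := by rw [div_pow, sq_abs]
  have h4 : -(1 / (2 * W ^ 2)) * t ^ 2 = -((|t| / W) ^ 2 / 2) := by
    rw [div_pow, sq_abs]
    field_simp
  have h5 : A * |t| = A * W * (|t| / W) := by field_simp
  rw [h3, h4, h5]
  nlinarith [sq_nonneg (A * W - |t| / W)]

private theorem er_norm_le (d : ℕ) (κ β : ℂ) {r : ℂ} (hr : 0 ≤ r.re) (w : ℝ) :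
    ‖er d κ β r (Real.exp w)‖ ≤ ‖κ‖ * Real.exp (β.re * w) := by
  rw [er_exp, norm_mul, norm_mul, Complex.norm_exp, Complex.norm_exp]
  have h1 : (β * (w : ℂ)).re = β.re * w := by simp
  have h2 : (-(r * ((Real.exp (w / d) : ℝ) : ℂ))).re = -(r.re * Real.exp (w / d)) := by
    rw [Complex.neg_re, Complex.re_mul_ofReal]
  rw [h1, h2]
  have h3 : Real.exp (-(r.re * Real.exp (w / d))) ≤ 1 := by
    rw [Real.exp_le_one_iff]
    have := mul_nonneg hr (Real.exp_pos (w / d)).le
    linarith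
  have h4 : Real.exp (β.re * w) * Real.exp (-(r.re * Real.exp (w / d))) ≤ Real.exp (β.re * w) * 1 := by
    gcongr
  rw [mul_one] at h4
  gcongr

private theorem arg_exp {x : ℝ} (hx : 0 < x) (u : ℝ) : x * Real.exp (-u) = Real.exp (Real.log x - u) := by
  rw [Real.exp_sub, Real.exp_log hx, Real.exp_neg, div_eq_mul_inv]

private theorem er_cont (d : ℕ) (κ β r : ℂ) {x : ℝ} (hx : 0 < x) :
    Continuous (fun u : ℝ => er d κ β r (x * Real.exp (-u))) := by
  have h : (fun u : ℝ => er d κ β r (x * Real.exp (-u))) = fun u : ℝ =>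
      κ * (cexp (β * ((Real.log x - u : ℝ) : ℂ)) *
        cexp (-(r * (Real.exp ((Real.log x - u) / d) : ℝ)))) := by
    funext u
    rw [arg_exp hx, er_exp]
  rw [h]
  fun_prop

private theorem bound_int {W : ℝ} (hW : 0 < W) (κ β : ℂ) (x : ℝ) :
    Integrable (fun u : ℝ => ‖κ‖ * Real.exp (β.re * (Real.log x - u)) * gW W u) := by
  have h1 := ((gW_laplace hW (β.re : ℂ)).1).norm.const_mul (‖κ‖ * Real.exp (β.re * Real.log x))
  refine h1.congr (Eventually.of_forall fun u => ?_)
  simp only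
  rw [norm_mul, Complex.norm_real, Real.norm_of_nonneg (gW_nonneg hW.le u), Complex.norm_exp]
  have h2 : (-((β.re : ℂ) * (u : ℂ))).re = -(β.re * u) := by simp
  rw [h2, mul_sub, Real.exp_sub, Real.exp_neg]
  ring

private theorem eE_eq (d : ℕ) (κ β : ℂ) (c : ℝ) : eE d κ β c = er d κ β (-(I * c)) := by
  funext y
  unfold eE er
  congr 2
  push_cast
  ring

theorem eE_smooth (d : ℕ) (hd : 1 ≤ d) (κ β : ℂ) (c : ℝ) (hc : 0 < c) {W : ℝ} (hW : 0 < W) {σ : ℝ}
    (hσ : σ < β.re) {x : ℝ} (hx : 0 < x) :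
    smC W (eE d κ β c) x =
      vint (fun t => Kp d κ β c (ln σ t) * cexp ((ln σ t) ^ 2 / (W : ℂ) ^ 2)) σ x := by
  rw [Kp_eq, eE_eq]
  set r : ℕ → ℂ := fun n => ((1 / ((n : ℝ) + 1) : ℝ) : ℂ) + (-(I * c)) with hr
  have hrre : ∀ n, (r n).re = 1 / ((n : ℝ) + 1) := by
    intro n
    simp only [hr]
    rw [Complex.add_re, Complex.ofReal_re]
    simp
  have hrpos : ∀ n, 0 < (r n).re := by
    intro n
    rw [hrre]
    positivity
  have hrim : ∀ n, (r n).im = -c := by
    intro n
    simp only [hr]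
    rw [Complex.add_im, Complex.ofReal_im]
    simp
  have hrn : ∀ n, c ≤ ‖r n‖ := by
    intro n
    have h1 := Complex.abs_im_le_norm (r n)
    rw [hrim, abs_neg, abs_of_pos hc] at h1
    exact h1
  have hr0 : ∀ n, r n ≠ 0 := by
    intro n h
    have h1 := hrn n
    rw [h, norm_zero] at h1
    linarith
  have hrt : Tendsto r atTop (𝓝 (-(I * c))) := by
    have h1 : Tendsto (fun n : ℕ => ((1 / ((n : ℝ) + 1) : ℝ) : ℂ)) atTop (𝓝 ((0 : ℝ) : ℂ)) :=
      (Complex.continuous_ofReal.tendsto 0).comp tendsto_one_div_add_atTop_nhds_zero_nat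
    have h2 := h1.add (tendsto_const_nhds (x := (-(I * c) : ℂ)))
    rw [Complex.ofReal_zero, zero_add] at h2
    exact h2
  have hslit : (-(I * c) : ℂ) ∈ slitPlane := by
    rw [Complex.mem_slitPlane_iff]
    right
    simp [hc.ne']
  have hL : Tendsto (fun n => smC W (er d κ β (r n)) x) atTop (𝓝 (smC W (er d κ β (-(I * c))) x)) := by
    unfold smC
    refine tendsto_integral_of_dominated_convergence
      (fun u : ℝ => ‖κ‖ * Real.exp (β.re * (Real.log x - u)) * gW W u) ?_ (bound_int hW κ β x) ?_ ?_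
    · intro n
      have h1 := er_cont d κ β (r n) hx
      have h2 := gW_continuous W
      exact (h1.mul (Complex.continuous_ofReal.comp h2)).aestronglyMeasurable
    · intro n
      refine Eventually.of_forall fun u => ?_
      rw [norm_mul, Complex.norm_real, Real.norm_of_nonneg (gW_nonneg hW.le u), arg_exp hx]
      exact mul_le_mul_of_nonneg_right (er_norm_le d κ β (hrpos n).le _) (gW_nonneg hW.le u)
    · refine Eventually.of_forall fun u => ?_
      refine Tendsto.mul_const _ ?_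
      unfold er
      refine Tendsto.const_mul _ ?_
      refine (Complex.continuous_exp.tendsto _).comp ?_
      exact (hrt.mul_const _).neg
  have hR : Tendsto (fun n => vint (fun t => Kr d κ β (r n) (ln σ t) * cexp ((ln σ t) ^ 2 / (W : ℂ) ^ 2)) σ x)
      atTop (𝓝 (vint (fun t => Kr d κ β (-(I * c)) (ln σ t) * cexp ((ln σ t) ^ 2 / (W : ℂ) ^ 2)) σ x)) := by
    unfold vint
    refine Tendsto.const_mul _ ?_
    set M : ℝ := ‖κ‖ * d * (Real.Gamma (d * (β.re - σ)) * c ^ (-(d * (β.re - σ)))) with hM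
    have hd0 : (0 : ℝ) < d := by exact_mod_cast hd
    have hM0 : 0 ≤ M := by
      have hpos : 0 < (d : ℝ) * (β.re - σ) := mul_pos hd0 (by linarith)
      have := (Real.Gamma_pos_of_pos hpos).le
      positivity
    refine tendsto_integral_of_dominated_convergence
      (fun t : ℝ => (M * Real.exp (Real.pi / 2 * d * |β.im|) * Real.exp (σ ^ 2 / W ^ 2) * x ^ σ) *
        (Real.exp ((Real.pi / 2 * d) * |t|) * Real.exp (-(t ^ 2 / W ^ 2)))) ?_ ?_ ?_ ?_
    · intro n
      have h1 : Continuous (fun t : ℝ => Kr d κ β (r n) (ln σ t)) :=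
        (Kr_diff d hd κ β (hr0 n)).continuousOn.comp_continuous (cont_ln σ) fun t => by
          simpa using hσ
      have h2 : Continuous (fun t : ℝ => (x : ℂ) ^ (ln σ t)) := by
        have h3 : (fun t : ℝ => (x : ℂ) ^ (ln σ t)) = fun t => cexp (ln σ t * (Real.log x : ℝ)) :=
          funext fun t => cpow_ln σ t hx
        rw [h3]
        have := cont_ln σ
        fun_prop
      have h4 : Continuous (fun t : ℝ => cexp ((ln σ t) ^ 2 / (W : ℂ) ^ 2)) := by
        have := cont_ln σ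
        fun_prop
      exact ((h1.mul h4).mul h2).aestronglyMeasurable
    · exact (int_exp_gauss _ hW).const_mul _
    · intro n
      refine Eventually.of_forall fun t => ?_
      rw [norm_mul, norm_mul, norm_expQ, norm_cpow_ln σ t hx]
      have h1 := Kr_norm_le d hd κ β hc (hrpos n).le (hrn n) (s := ln σ t) (by simpa using hσ)
      rw [ln_re, ln_im, ← hM, mul_add, Real.exp_add] at h1
      have h2 : Real.exp ((σ ^ 2 - t ^ 2) / W ^ 2) = Real.exp (σ ^ 2 / W ^ 2) * Real.exp (-(t ^ 2 / W ^ 2)) := by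
        rw [← Real.exp_add]
        congr 1
        ring
      rw [h2]
      have h3 : 0 ≤ x ^ σ := Real.rpow_nonneg hx.le σ
      calc ‖Kr d κ β (r n) (ln σ t)‖ * (Real.exp (σ ^ 2 / W ^ 2) * Real.exp (-(t ^ 2 / W ^ 2))) * x ^ σ
          ≤ (M * (Real.exp (Real.pi / 2 * d * |β.im|) * Real.exp (Real.pi / 2 * d * |t|))) *
            (Real.exp (σ ^ 2 / W ^ 2) * Real.exp (-(t ^ 2 / W ^ 2))) * x ^ σ := by gcongr
        _ = _ := by ring
    · refine Eventually.of_forall fun t => ?_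
      refine Tendsto.mul_const _ (Tendsto.mul_const _ ?_)
      unfold Kr
      refine Tendsto.const_mul _ ?_
      have h1 : ContinuousAt (fun z : ℂ => z ^ (-((d : ℂ) * (β - ln σ t)))) (-(I * c)) :=
        continuousAt_id.cpow continuousAt_const hslit
      exact h1.tendsto.comp hrt
  have hEq : ∀ n, smC W (er d κ β (r n)) x =
      vint (fun t => Kr d κ β (r n) (ln σ t) * cexp ((ln σ t) ^ 2 / (W : ℂ) ^ 2)) σ x := fun n =>
    er_smooth d hd κ β (r n) (hrpos n) hW hσ hx
  simp only [hEq] at hL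
  exact tendsto_nhds_unique hL hR

/-- the conjugate kernel gives the conjugate function -/
theorem eE_smooth_conj (d : ℕ) (hd : 1 ≤ d) (κ β : ℂ) (c : ℝ) (hc : 0 < c) {W : ℝ} (hW : 0 < W) {σ : ℝ}
    (hσ : σ < β.re) {x : ℝ} (hx : 0 < x) :
    conj (smC W (eE d κ β c) x) =
      vint (fun t => Km d κ β c (ln σ t) * cexp ((ln σ t) ^ 2 / (W : ℂ) ^ 2)) σ x := by
  rw [eE_smooth d hd κ β c hc hW hσ hx]
  unfold vint
  rw [map_mul, Complex.conj_ofReal, ← integral_conj, ← integral_neg_eq_self]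
  congr 1
  refine integral_congr_ae (Eventually.of_forall fun t => ?_)
  simp only
  have hln : ln σ (-t) = conj (ln σ t) := by
    unfold ln
    rw [map_add, map_mul, Complex.conj_ofReal, Complex.conj_ofReal, Complex.conj_I]
    push_cast
    ring
  rw [cpow_ln σ _ hx, cpow_ln σ _ hx, map_mul, map_mul, ← Complex.exp_conj, ← Complex.exp_conj, hln, Km]
  have h1 : conj ((conj (ln σ t)) ^ 2 / (W : ℂ) ^ 2) = (ln σ t) ^ 2 / (W : ℂ) ^ 2 := by
    rw [map_div₀, map_pow, Complex.conj_conj, map_pow, Complex.conj_ofReal]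
  have h2 : conj (conj (ln σ t) * ((Real.log x : ℝ) : ℂ)) = ln σ t * ((Real.log x : ℝ) : ℂ) := by
    rw [map_mul, Complex.conj_conj, Complex.conj_ofReal]
  rw [h1, h2]

theorem eE_near (d : ℕ) (hd : 1 ≤ d) (κ β : ℂ) (hβ : 0 ≤ β.re) (c : ℝ) (hc : 0 < c) :
    ∃ C : ℝ, 0 ≤ C ∧ ∀ y : ℝ, 1 ≤ y → ∀ W : ℝ, 1 ≤ W →
      ‖smC W (eE d κ β c) y - eE d κ β c y‖ ≤ C * y ^ (β.re + 1 / (d : ℝ)) / W := by
  have hd0 : (0 : ℝ) < d := by exact_mod_cast hd
  have hd1 : (1 : ℝ) ≤ d := by exact_mod_cast hd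
  obtain ⟨C, hC, hm⟩ := gW_moment (β.re + 1) (by linarith)
  refine ⟨‖κ‖ * (‖β‖ + c) * C, by positivity, fun y hy W hW => ?_⟩
  have hW0 : 0 < W := by linarith
  have hy0 : 0 < y := by linarith
  rw [eE_eq]
  set r : ℂ := -(I * c) with hr
  have hrre : r.re = 0 := by simp [hr]
  have hrn : ‖r‖ = c := by
    rw [hr, norm_neg, norm_mul, Complex.norm_I, one_mul, Complex.norm_real, Real.norm_of_nonneg hc.le]
  set L : ℝ := Real.log y with hL
  have hL0 : 0 ≤ L := Real.log_nonneg hy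
  -- the function in logarithmic coordinates
  set h : ℝ → ℂ := fun u => κ * (cexp (β * ((L - u : ℝ) : ℂ)) *
        cexp (-(r * (Real.exp ((L - u) / d) : ℝ)))) with hh
  have hher : ∀ u, er d κ β r (y * Real.exp (-u)) = h u := by
    intro u
    rw [arg_exp hy0, er_exp]
  have hh0 : er d κ β r y = h 0 := by
    rw [← hher 0, neg_zero, Real.exp_zero, mul_one]
  have hder : ∀ u, HasDerivAt h (h u * (-β + r * ((Real.exp ((L - u) / d) : ℝ) : ℂ) / d)) u := by
    intro u
    have h1 : HasDerivAt (fun u : ℝ => ((L - u : ℝ) : ℂ)) (-1) u := by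
      have := ((hasDerivAt_id u).const_sub L).ofReal_comp
      simpa using! this
    have h2 : HasDerivAt (fun u : ℝ => cexp (β * ((L - u : ℝ) : ℂ)))
        (cexp (β * ((L - u : ℝ) : ℂ)) * (β * (-1))) u := (h1.const_mul β).cexp
    have h3 : HasDerivAt (fun u : ℝ => Real.exp ((L - u) / d))
        (Real.exp ((L - u) / d) * (-1 / d)) u := by
      have := (((hasDerivAt_id u).const_sub L).div_const (d : ℝ)).exp
      simpa using! this
    have h4 : HasDerivAt (fun u : ℝ => cexp (-(r * (Real.exp ((L - u) / d) : ℝ))))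
        (cexp (-(r * (Real.exp ((L - u) / d) : ℝ))) *
          (-(r * ((Real.exp ((L - u) / d) * (-1 / d) : ℝ) : ℂ)))) u :=
      ((h3.ofReal_comp.const_mul r).neg).cexp
    have h5 := (h2.mul h4).const_mul κ
    convert! h5 using 1
    simp only [hh]
    push_cast
    ring
  have hnorm : ∀ v, ‖h v‖ ≤ ‖κ‖ * Real.exp (β.re * (L - v)) := by
    intro v
    have := er_norm_le d κ β (r := r) (by rw [hrre]) (L - v)
    rwa [← arg_exp hy0, hher] at this
  have hdb : ∀ u v : ℝ, |v| ≤ |u| → ‖h v * (-β + r * ((Real.exp ((L - v) / d) : ℝ) : ℂ) / d)‖ ≤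
      ‖κ‖ * (‖β‖ + c) * y ^ (β.re + 1 / (d : ℝ)) * Real.exp ((β.re + 1) * |u|) := by
    intro u v huv
    rw [norm_mul]
    have h1 : ‖-β + r * ((Real.exp ((L - v) / d) : ℝ) : ℂ) / d‖ ≤
        (‖β‖ + c) * (Real.exp (L / d) * Real.exp |u|) := by
      refine (norm_add_le _ _).trans ?_
      rw [norm_neg, norm_div, norm_mul, hrn, Complex.norm_real, Real.norm_of_nonneg (Real.exp_pos _).le,
        Complex.norm_natCast]
      have h2 : Real.exp ((L - v) / d) ≤ Real.exp (L / d) * Real.exp |u| := by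
        rw [← Real.exp_add, Real.exp_le_exp, sub_div]
        have h3 : -(v / d) ≤ |u| := by
          have h4 : |v / d| ≤ |v| := by
            rw [abs_div, abs_of_pos hd0]
            exact div_le_self (abs_nonneg v) hd1
          have h5 := neg_le_abs (v / d)
          linarith
        linarith
      have h3 : (1 : ℝ) ≤ Real.exp (L / d) * Real.exp |u| := by
        rw [← Real.exp_add]
        exact Real.one_le_exp (by positivity)
      have h4 : c * Real.exp ((L - v) / d) / d ≤ c * (Real.exp (L / d) * Real.exp |u|) := by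
        refine (div_le_self (by positivity) hd1).trans ?_
        gcongr
      have h5 : ‖β‖ ≤ ‖β‖ * (Real.exp (L / d) * Real.exp |u|) := le_mul_of_one_le_right (norm_nonneg _) h3
      calc ‖β‖ + c * Real.exp ((L - v) / d) / d ≤ ‖β‖ * (Real.exp (L / d) * Real.exp |u|) +
            c * (Real.exp (L / d) * Real.exp |u|) := add_le_add h5 h4
        _ = _ := by ring
    have h2 : ‖h v‖ ≤ ‖κ‖ * (Real.exp (β.re * L) * Real.exp (β.re * |u|)) := by
      refine (hnorm v).trans ?_
      rw [← Real.exp_add]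
      have h3 : β.re * (L - v) ≤ β.re * L + β.re * |u| := by
        have h4 := neg_le_abs v
        nlinarith
      gcongr
    have h3 : y ^ (β.re + 1 / (d : ℝ)) = Real.exp (β.re * L) * Real.exp (L / d) := by
      rw [Real.rpow_def_of_pos hy0, ← Real.exp_add]
      congr 1
      ring
    have h4 : Real.exp ((β.re + 1) * |u|) = Real.exp (β.re * |u|) * Real.exp |u| := by
      rw [← Real.exp_add]
      congr 1
      ring
    rw [h3, h4]
    calc ‖h v‖ * ‖-β + r * ((Real.exp ((L - v) / d) : ℝ) : ℂ) / d‖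
        ≤ (‖κ‖ * (Real.exp (β.re * L) * Real.exp (β.re * |u|))) *
          ((‖β‖ + c) * (Real.exp (L / d) * Real.exp |u|)) := by gcongr
      _ = _ := by ring
  have hmv : ∀ u : ℝ, ‖h u - h 0‖ ≤ ‖κ‖ * (‖β‖ + c) * y ^ (β.re + 1 / (d : ℝ)) *
      (|u| * Real.exp ((β.re + 1) * |u|)) := by
    intro u
    have h1 := (convex_uIcc (0 : ℝ) u).norm_image_sub_le_of_norm_hasDerivWithin_le
      (f := h) (f' := fun v => h v * (-β + r * ((Real.exp ((L - v) / d) : ℝ) : ℂ) / d))
      (C := ‖κ‖ * (‖β‖ + c) * y ^ (β.re + 1 / (d : ℝ)) * Real.exp ((β.re + 1) * |u|))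
      (fun v _ => (hder v).hasDerivWithinAt) (fun v hv => hdb u v ?_) (x := 0) (y := u)
      left_mem_uIcc right_mem_uIcc
    · rw [sub_zero, Real.norm_eq_abs] at h1
      refine h1.trans (le_of_eq ?_)
      ring
    · have := abs_sub_left_of_mem_uIcc hv
      simpa using this
  have hgI := (gW_integral hW0)
  have hint1 : Integrable (fun u : ℝ => h u * (gW W u : ℂ)) := by
    have hmeas : Continuous (fun u : ℝ => h u * (gW W u : ℂ)) := by
      have h1 : Continuous h := continuous_iff_continuousAt.2 fun u => (hder u).continuousAt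
      exact h1.mul (Complex.continuous_ofReal.comp (gW_continuous W))
    refine (bound_int hW0 κ β y).mono' hmeas.aestronglyMeasurable (Eventually.of_forall fun u => ?_)
    rw [norm_mul, Complex.norm_real, Real.norm_of_nonneg (gW_nonneg hW0.le u)]
    exact mul_le_mul_of_nonneg_right (hnorm u) (gW_nonneg hW0.le u)
  have hint2 : Integrable (fun u : ℝ => h 0 * (gW W u : ℂ)) := hgI.1.ofReal.const_mul _
  have hsm : smC W (er d κ β r) y - er d κ β r y = ∫ u : ℝ, (h u - h 0) * (gW W u : ℂ) := by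
    unfold smC
    simp only [hher]
    rw [hh0]
    have h1 : ∫ u : ℝ, (h u - h 0) * (gW W u : ℂ) = ∫ u : ℝ, (h u * (gW W u : ℂ) - h 0 * (gW W u : ℂ)) := by
      refine integral_congr_ae (Eventually.of_forall fun u => ?_)
      simp only
      ring
    have h2 : ∫ u : ℝ, ((gW W u : ℝ) : ℂ) = 1 := by
      rw [integral_complex_ofReal, hgI.2, Complex.ofReal_one]
    rw [h1, integral_sub hint1 hint2, integral_const_mul, h2, mul_one]
  rw [hsm]
  obtain ⟨hmi, hmv2⟩ := hm W hW
  refine (norm_integral_le_of_norm_le (g := fun u : ℝ => ‖κ‖ * (‖β‖ + c) * y ^ (β.re + 1 / (d : ℝ)) *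
      (gW W u * (|u| * Real.exp ((β.re + 1) * |u|)))) (hmi.const_mul _)
      (Eventually.of_forall fun u => ?_)).trans ?_
  · rw [norm_mul, Complex.norm_real, Real.norm_of_nonneg (gW_nonneg hW0.le u)]
    have h1 := mul_le_mul_of_nonneg_right (hmv u) (gW_nonneg hW0.le u)
    refine h1.trans (le_of_eq ?_)
    ring
  · rw [integral_const_mul]
    have h0 : 0 ≤ y ^ (β.re + 1 / (d : ℝ)) := Real.rpow_nonneg hy0.le _
    calc ‖κ‖ * (‖β‖ + c) * y ^ (β.re + 1 / (d : ℝ)) *
          ∫ u : ℝ, gW W u * (|u| * Real.exp ((β.re + 1) * |u|))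
        ≤ ‖κ‖ * (‖β‖ + c) * y ^ (β.re + 1 / (d : ℝ)) * (C / W) := by gcongr
      _ = _ := by ring

theorem smC_one_bound (d : ℕ) (hd : 1 ≤ d) (κ β : ℂ) (c : ℝ) (hc : 0 < c) (hβ : 0 < β.re) :
    ∃ C : ℝ, 0 ≤ C ∧ ∀ y : ℝ, 1 ≤ y → ‖smC 1 (eE d κ β c) y‖ ≤ C := by
  refine ⟨1 / (2 * Real.pi) * ∫ t : ℝ, ‖Kp d κ β c (ln 0 t) * cexp ((ln 0 t) ^ 2 / ((1 : ℝ) : ℂ) ^ 2)‖,
    mul_nonneg (by positivity) (integral_nonneg fun t => norm_nonneg _), fun y hy => ?_⟩
  have hy0 : 0 < y := by linarith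
  rw [eE_smooth d hd κ β c hc one_pos hβ hy0]
  unfold vint
  rw [norm_mul, Complex.norm_real, Real.norm_of_nonneg (by positivity)]
  refine mul_le_mul_of_nonneg_left ?_ (by positivity)
  refine (norm_integral_le_integral_norm _).trans (le_of_eq ?_)
  refine integral_congr_ae (Eventually.of_forall fun t => ?_)
  simp only
  rw [norm_mul, norm_cpow_ln 0 t hy0, Real.rpow_zero, mul_one]

end Pool.Agent.H15.SC
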