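import Pool.Agent.H15.SC.Third

/-!
# SC-24  sums of `(L+m)^{-it}`, `m < N ≤ L ≤ t²`: bound `C L^{1/2} t^{1/6}`  (project SC, MP_be4568_nt)

`(L+m)^{-it} = e(x m)`, `x m = -(t/2π) log (L+m)`; conjugate (`e(-x)`) when convenient.  With `y = L + m ∈ [L, 2L]`:
second difference of `x` at `m`: `(t/2π) log (1 + 1/(y(y+2))) ∈ [c t/L², C t/L²]`;
third difference of `-x`: `(t/2π) log (1 + (2y+3)/(y(y+2)³)) ∈ [c t/L³, C t/L³]`; bounds from `u/(1+u) ≤ log(1+u) ≤ u`.
Cases: `L ≤ t^{1/3}`: trivial, `N ≤ L ≤ L^{1/2} t^{1/6}`.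
`t^{1/3} ≤ L ≤ t^{2/3}`: `third_test` with `l = min(1, c t/L³)`-size: `≤ C (L^{1/2} t^{1/6} + L t^{-1/6})` and `L t^{-1/6} ≤ L^{1/2} t^{1/6}`
(if `c t/L³ > 1` then `L ≤ C t^{1/3}`: trivial).
`t^{2/3} ≤ L ≤ t`: `second_test`: `≤ C (t^{1/2} + L t^{-1/2}) ≤ C' L^{1/2} t^{1/6}`.
`t ≤ L ≤ t²`: `kusmin_landau` for `-x` or `x`: `|x (m+1) - x m| = (t/2π) log (1 + 1/y) ∈ [t/(8πL), 1/2 - 1/8]`, `θ = t/(8πL)`
(with `k = 0` or `-1`): `≤ C L/t ≤ C L^{1/2}`.
-/

set_option autoImplicit false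

open Complex Filter Topology Set

namespace Pool.Agent.H15.SC

/-- the phase `(t/2π) log (L+m)` -/
noncomputable def lph (L t : ℝ) (m : ℕ) : ℝ := t / (2 * Real.pi) * Real.log (L + m)

theorem cpow_eq_ee {L : ℝ} (hL : 1 ≤ L) (t : ℝ) (m : ℕ) :
    ((L + m : ℝ) : ℂ) ^ (-(t * I : ℂ)) = ee (-(lph L t m)) := by
  have h0 : 0 < L + m := by positivity
  rw [Complex.cpow_def_of_ne_zero (by exact_mod_cast h0.ne'), ← Complex.ofReal_log h0.le, ee, lph]
  congr 1
  push_cast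
  have : (Real.pi : ℂ) ≠ 0 := by exact_mod_cast Real.pi_ne_zero
  field_simp

theorem norm_sum_ee_neg (x : ℕ → ℝ) (N : ℕ) :
    ‖∑ n ∈ Finset.range N, ee (-(x n))‖ = ‖∑ n ∈ Finset.range N, ee (x n)‖ := by
  rw [← Complex.norm_conj (∑ n ∈ Finset.range N, ee (x n)), map_sum]
  congr 1
  refine Finset.sum_congr rfl (fun n _ => ?_)
  rw [ee, ee, ← Complex.exp_conj]
  congr 1
  simp only [map_mul, Complex.conj_ofReal, Complex.conj_I, map_ofNat]
  push_cast
  ring

theorem log_one_add_ge' {u : ℝ} (hu : 0 ≤ u) : u / (1 + u) ≤ Real.log (1 + u) := by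
  have h := Real.one_sub_inv_le_log_of_pos (x := 1 + u) (by linarith)
  have h1 : u / (1 + u) = 1 - (1 + u)⁻¹ := by
    have : 1 + u ≠ 0 := by linarith
    field_simp
    ring
  rw [h1]
  exact h

theorem log_one_add_le' {u : ℝ} (hu : 0 ≤ u) : Real.log (1 + u) ≤ u := by
  have h := Real.log_le_sub_one_of_pos (x := 1 + u) (by linarith)
  linarith

theorem first_diff {L y : ℝ} (hL : 1 ≤ L) (h1 : L ≤ y) (h2 : y ≤ 2 * L) :
    1 / (3 * L) ≤ Real.log (y + 1) - Real.log y ∧ Real.log (y + 1) - Real.log y ≤ 1 / L := by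
  have hy : 0 < y := by linarith
  have e : Real.log (y + 1) - Real.log y = Real.log (1 + 1 / y) := by
    rw [show 1 + 1 / y = (y + 1) / y by field_simp, Real.log_div (by linarith) hy.ne']
  rw [e]
  have hu : 0 ≤ 1 / y := by positivity
  constructor
  · refine le_trans ?_ (log_one_add_ge' hu)
    rw [show 1 / y / (1 + 1 / y) = 1 / (y + 1) by field_simp]
    exact one_div_le_one_div_of_le (by linarith) (by linarith)
  · refine (log_one_add_le' hu).trans ?_
    exact one_div_le_one_div_of_le (by linarith) h1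

theorem second_diff {L y : ℝ} (hL : 1 ≤ L) (h1 : L ≤ y) (h2 : y ≤ 2 * L) :
    1 / (24 * L ^ 2) ≤ -Real.log (y + 2) + 2 * Real.log (y + 1) - Real.log y ∧
    -Real.log (y + 2) + 2 * Real.log (y + 1) - Real.log y ≤ 1 / L ^ 2 := by
  have hy : 0 < y := by linarith
  have hy1 : 1 ≤ y := by linarith
  have e : -Real.log (y + 2) + 2 * Real.log (y + 1) - Real.log y = Real.log (1 + 1 / (y * (y + 2))) := by
    rw [show 1 + 1 / (y * (y + 2)) = (y + 1) ^ 2 / (y * (y + 2)) by field_simp; ring,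
      Real.log_div (by positivity) (by positivity), Real.log_pow, Real.log_mul hy.ne' (by linarith)]
    push_cast
    ring
  rw [e]
  have hu : 0 ≤ 1 / (y * (y + 2)) := by positivity
  have hu1 : 1 / (y * (y + 2)) ≤ 1 := by
    rw [div_le_one (by positivity)]
    nlinarith
  constructor
  · refine le_trans ?_ (log_one_add_ge' hu)
    have h3 : 1 / (12 * L ^ 2) ≤ 1 / (y * (y + 2)) := by
      refine one_div_le_one_div_of_le (by positivity) ?_
      nlinarith
    have h4 : 1 / (y * (y + 2)) / 2 ≤ 1 / (y * (y + 2)) / (1 + 1 / (y * (y + 2))) :=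
      div_le_div_of_nonneg_left hu (by linarith) (by linarith)
    have h5 : 1 / (24 * L ^ 2) = 1 / (12 * L ^ 2) / 2 := by
      have : L ≠ 0 := by linarith
      field_simp
      ring
    rw [h5]
    linarith
  · refine (log_one_add_le' hu).trans ?_
    refine one_div_le_one_div_of_le (by positivity) ?_
    nlinarith

theorem third_diff {L y : ℝ} (hL : 1 ≤ L) (h1 : L ≤ y) (h2 : y ≤ 2 * L) :
    1 / (648 * L ^ 3) ≤ Real.log (y + 3) - 3 * Real.log (y + 2) + 3 * Real.log (y + 1) - Real.log y ∧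
    Real.log (y + 3) - 3 * Real.log (y + 2) + 3 * Real.log (y + 1) - Real.log y ≤ 5 / L ^ 3 := by
  have hy : 0 < y := by linarith
  have hL0 : 0 < L := by linarith
  have hy1 : 1 ≤ y := by linarith
  have e : Real.log (y + 3) - 3 * Real.log (y + 2) + 3 * Real.log (y + 1) - Real.log y =
      Real.log (1 + (2 * y + 3) / (y * (y + 2) ^ 3)) := by
    rw [show 1 + (2 * y + 3) / (y * (y + 2) ^ 3) = ((y + 3) * (y + 1) ^ 3) / (y * (y + 2) ^ 3) by field_simp; ring,
      Real.log_div (by positivity) (by positivity), Real.log_mul (by positivity) (by positivity),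
      Real.log_mul (by positivity) (by positivity), Real.log_pow, Real.log_pow]
    push_cast
    ring
  rw [e]
  set u : ℝ := (2 * y + 3) / (y * (y + 2) ^ 3) with hu'
  have hu : 0 ≤ u := by positivity
  have hule : u ≤ 5 / y ^ 3 := by
    rw [hu', div_le_div_iff₀ (by positivity) (by positivity)]
    have k1 : 2 * y + 3 ≤ 5 * y := by linarith
    have k2 : y ^ 3 ≤ (y + 2) ^ 3 := pow_le_pow_left₀ hy.le (by linarith) 3
    calc (2 * y + 3) * y ^ 3 ≤ 5 * y * (y + 2) ^ 3 := by gcongr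
      _ = 5 * (y * (y + 2) ^ 3) := by ring
  have hu5 : u ≤ 5 := by
    refine hule.trans ?_
    rw [div_le_iff₀ (by positivity)]
    have : 1 ≤ y ^ 3 := one_le_pow₀ hy1
    linarith
  have huge : 2 / (27 * y ^ 3) ≤ u := by
    rw [hu', div_le_div_iff₀ (by positivity) (by positivity)]
    have k2 : (y + 2) ^ 3 ≤ (3 * y) ^ 3 := pow_le_pow_left₀ (by linarith) (by linarith) 3
    calc 2 * (y * (y + 2) ^ 3) ≤ 2 * (y * (3 * y) ^ 3) := by gcongr
      _ = (2 * y) * (27 * y ^ 3) := by ring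
      _ ≤ (2 * y + 3) * (27 * y ^ 3) := by gcongr; linarith
  constructor
  · refine le_trans ?_ (log_one_add_ge' hu)
    have h3 : 1 / (108 * L ^ 3) ≤ 2 / (27 * y ^ 3) := by
      rw [div_le_div_iff₀ (by positivity) (by positivity)]
      have k2 : y ^ 3 ≤ (2 * L) ^ 3 := pow_le_pow_left₀ hy.le h2 3
      calc 1 * (27 * y ^ 3) ≤ 1 * (27 * (2 * L) ^ 3) := by gcongr
        _ = 2 * (108 * L ^ 3) := by ring
    have h4 : u / 6 ≤ u / (1 + u) := div_le_div_of_nonneg_left hu (by linarith) (by linarith)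
    have h5 : 1 / (648 * L ^ 3) = 1 / (108 * L ^ 3) / 6 := by
      field_simp
      ring
    rw [h5]
    linarith
  · refine (log_one_add_le' hu).trans (hule.trans ?_)
    have k2 : L ^ 3 ≤ y ^ 3 := pow_le_pow_left₀ hL0.le h1 3
    gcongr

theorem rpow_third_cube {x : ℝ} (hx : 0 ≤ x) : (x ^ 3) ^ ((1 : ℝ) / 3) = x := by
  rw [← Real.rpow_natCast, ← Real.rpow_mul hx]
  norm_num

theorem rpow_half_sq {x : ℝ} (hx : 0 ≤ x) : (x ^ 2) ^ ((1 : ℝ) / 2) = x := by
  rw [← Real.rpow_natCast, ← Real.rpow_mul hx]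
  norm_num

/-- the four cases, with `s = L^{1/2}`, `a = t^{1/6}` -/
theorem log_block_aux : ∃ C : ℝ, 1 ≤ C ∧ ∀ s a : ℝ, 1 ≤ s → 1 ≤ a → s ≤ a ^ 6 → ∀ N : ℕ, (N : ℝ) ≤ s ^ 2 →
    ‖∑ m ∈ Finset.range N, ee (-(lph (s ^ 2) (a ^ 6) m))‖ ≤ C * s * a := by
  obtain ⟨C1, hC1, hK⟩ := kusmin_landau
  obtain ⟨C2, hC2, hS⟩ := second_test
  obtain ⟨C3, hC3, hT⟩ := third_test
  refine ⟨20 * C1 + 24 * 14 * C2 + 17 * 3240 * C3, by linarith, fun s a hs ha hsa N hN => ?_⟩
  have hs0 : 0 < s := by linarith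
  have ha0 : 0 < a := by linarith
  have hpi := Real.pi_pos
  have hpi3 := Real.pi_gt_three
  have hpi4 := Real.pi_lt_d4
  have hL : 1 ≤ s ^ 2 := one_le_pow₀ hs
  have hN0 : (0 : ℝ) ≤ N := Nat.cast_nonneg N
  have hsa0 : 0 < s * a := by positivity
  -- positions
  have hy : ∀ n : ℕ, n < N → s ^ 2 ≤ s ^ 2 + n ∧ s ^ 2 + (n : ℝ) ≤ 2 * s ^ 2 := by
    intro n hn
    have h1 : (n : ℝ) ≤ N := by exact_mod_cast hn.le
    have h2 : (0 : ℝ) ≤ n := Nat.cast_nonneg n
    constructor <;> linarith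
  have htriv : ‖∑ m ∈ Finset.range N, ee (-(lph (s ^ 2) (a ^ 6) m))‖ ≤ N := by
    refine (norm_sum_le _ _).trans ?_
    simp [norm_ee']
  rcases le_total s a with hA | hA
  · -- trivial case
    have h1 : s ^ 2 ≤ s * a := by nlinarith
    have h2 : s * a ≤ (20 * C1 + 24 * 14 * C2 + 17 * 3240 * C3) * (s * a) := by
      have : 1 ≤ 20 * C1 + 24 * 14 * C2 + 17 * 3240 * C3 := by linarith
      nlinarith
    calc _ ≤ (N : ℝ) := htriv
      _ ≤ s * a := hN.trans h1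
      _ ≤ _ := h2
      _ = _ := by ring
  rcases le_total s (a ^ 2) with hB | hB
  · -- third test
    set l : ℝ := a ^ 6 / (2 * Real.pi * 648 * s ^ 6) with hl
    have hl0 : 0 < l := by positivity
    have hlr : l ^ ((1 : ℝ) / 3) ≤ a ^ 2 / s ^ 2 := by
      have h1 : l ≤ (a ^ 2 / s ^ 2) ^ 3 := by
        rw [div_pow, ← pow_mul, ← pow_mul, hl]
        refine div_le_div_of_nonneg_left (by positivity) (by positivity) ?_
        norm_num only
        have h2 : 1 * s ^ 6 ≤ 2 * Real.pi * 648 * s ^ 6 :=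
          mul_le_mul_of_nonneg_right (by linarith) (by positivity)
        linarith
      calc l ^ ((1 : ℝ) / 3) ≤ ((a ^ 2 / s ^ 2) ^ 3) ^ ((1 : ℝ) / 3) :=
            Real.rpow_le_rpow hl0.le h1 (by norm_num)
        _ = a ^ 2 / s ^ 2 := rpow_third_cube (by positivity)
    have hlr' : a ^ 2 / (16 * s ^ 2) ≤ l ^ ((1 : ℝ) / 3) := by
      have h1 : (a ^ 2 / (16 * s ^ 2)) ^ 3 ≤ l := by
        rw [div_pow, mul_pow, ← pow_mul, ← pow_mul, hl]
        refine div_le_div_of_nonneg_left (by positivity) (by positivity) ?_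
        norm_num only
        exact mul_le_mul_of_nonneg_right (by norm_num at hpi4 ⊢; linarith) (by positivity)
      calc a ^ 2 / (16 * s ^ 2) = ((a ^ 2 / (16 * s ^ 2)) ^ 3) ^ ((1 : ℝ) / 3) :=
            (rpow_third_cube (by positivity)).symm
        _ ≤ l ^ ((1 : ℝ) / 3) := Real.rpow_le_rpow (by positivity) h1 (by norm_num)
    have hl1 : l ≤ 1 := by
      rw [hl, div_le_one (by positivity)]
      have h1 : a ^ 6 ≤ s ^ 6 := pow_le_pow_left₀ ha0.le hA 6
      have h2 : 0 < s ^ 6 := by positivity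
      nlinarith
    have h := hT (lph (s ^ 2) (a ^ 6)) N l 3240 hl0 hl1 (by norm_num) (by
      intro n hn
      obtain ⟨p1, p2⟩ := hy n (by omega)
      obtain ⟨q1, q2⟩ := third_diff hL p1 p2
      have e : lph (s ^ 2) (a ^ 6) (n + 3) - 3 * lph (s ^ 2) (a ^ 6) (n + 2) + 3 * lph (s ^ 2) (a ^ 6) (n + 1) -
          lph (s ^ 2) (a ^ 6) n = a ^ 6 / (2 * Real.pi) * (Real.log (s ^ 2 + n + 3) - 3 * Real.log (s ^ 2 + n + 2)
            + 3 * Real.log (s ^ 2 + n + 1) - Real.log (s ^ 2 + n)) := by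
        unfold lph
        push_cast
        rw [show s ^ 2 + ((n : ℝ) + 3) = s ^ 2 + n + 3 by ring, show s ^ 2 + ((n : ℝ) + 2) = s ^ 2 + n + 2 by ring,
          show s ^ 2 + ((n : ℝ) + 1) = s ^ 2 + n + 1 by ring]
        ring
      rw [e]
      have hc : 0 ≤ a ^ 6 / (2 * Real.pi) := by positivity
      constructor
      · calc l = a ^ 6 / (2 * Real.pi) * (1 / (648 * (s ^ 2) ^ 3)) := by
              rw [hl]
              field_simp
          _ ≤ _ := mul_le_mul_of_nonneg_left q1 hc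
      · calc _ ≤ a ^ 6 / (2 * Real.pi) * (5 / (s ^ 2) ^ 3) := mul_le_mul_of_nonneg_left q2 hc
          _ = 3240 * l := by
              rw [hl]
              field_simp
              ring)
    rw [norm_sum_ee_neg]
    have hlm : l ^ (-(1 / 3 : ℝ)) ≤ 16 * s ^ 2 / a ^ 2 := by
      rw [Real.rpow_neg hl0.le]
      have := inv_anti₀ (by positivity) hlr'
      rwa [inv_div] at this
    have h1 : (N : ℝ) ^ 2 * l ^ ((1 : ℝ) / 3) ≤ (s * a) ^ 2 := by
      calc (N : ℝ) ^ 2 * l ^ ((1 : ℝ) / 3) ≤ (s ^ 2) ^ 2 * (a ^ 2 / s ^ 2) := by gcongr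
        _ = (s * a) ^ 2 := by field_simp
    have h2 : (N : ℝ) * l ^ (-(1 / 3 : ℝ)) ≤ 16 * (s * a) ^ 2 := by
      calc (N : ℝ) * l ^ (-(1 / 3 : ℝ)) ≤ s ^ 2 * (16 * s ^ 2 / a ^ 2) := by gcongr
        _ = 16 * (s ^ 2 * (s ^ 2 / a ^ 2)) := by ring
        _ ≤ 16 * (s ^ 2 * a ^ 2) := by
            gcongr
            rw [div_le_iff₀ (by positivity)]
            have : s ^ 2 ≤ (a ^ 2) ^ 2 := pow_le_pow_left₀ hs0.le hB 2
            calc s ^ 2 ≤ (a ^ 2) ^ 2 := this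
              _ = a ^ 2 * a ^ 2 := by ring
        _ = _ := by ring
    have h3 : ‖∑ n ∈ Finset.range N, ee (lph (s ^ 2) (a ^ 6) n)‖ ^ 2 ≤ 17 * 3240 * C3 * (s * a) ^ 2 := by
      refine h.trans ?_
      calc C3 * 3240 * ((N : ℝ) ^ 2 * l ^ ((1 : ℝ) / 3) + N * l ^ (-(1 / 3 : ℝ)))
          ≤ C3 * 3240 * ((s * a) ^ 2 + 16 * (s * a) ^ 2) := by gcongr
        _ = _ := by ring
    set X : ℝ := ‖∑ n ∈ Finset.range N, ee (lph (s ^ 2) (a ^ 6) n)‖ with hX
    have hX0 : 0 ≤ X := norm_nonneg _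
    have hK0 : 1 ≤ 17 * 3240 * C3 := by linarith
    have h4 : X ≤ 17 * 3240 * C3 * (s * a) := by
      by_contra hcon
      push Not at hcon
      have h5 : (17 * 3240 * C3 * (s * a)) ^ 2 < X ^ 2 := by
        have : 0 ≤ 17 * 3240 * C3 * (s * a) := by positivity
        nlinarith
      have h6 : 17 * 3240 * C3 * (s * a) ^ 2 ≤ (17 * 3240 * C3 * (s * a)) ^ 2 := by
        have e1 : (17 * 3240 * C3 * (s * a)) ^ 2 = (17 * 3240 * C3) * ((17 * 3240 * C3) * (s * a) ^ 2) := by ring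
        rw [e1]
        have : 0 ≤ 17 * 3240 * C3 * (s * a) ^ 2 := by positivity
        nlinarith
      linarith
    calc X ≤ 17 * 3240 * C3 * (s * a) := h4
      _ ≤ (20 * C1 + 24 * 14 * C2 + 17 * 3240 * C3) * (s * a) := by
          gcongr
          linarith
      _ = _ := by ring
  rcases le_total s (a ^ 3) with hC | hC
  · -- second test
    set l : ℝ := a ^ 6 / (2 * Real.pi * 24 * s ^ 4) with hl
    have hl0 : 0 < l := by positivity
    have hlr : l ^ ((1 : ℝ) / 2) ≤ a ^ 3 / s ^ 2 := by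
      have h1 : l ≤ (a ^ 3 / s ^ 2) ^ 2 := by
        rw [div_pow, ← pow_mul, ← pow_mul, hl]
        refine div_le_div_of_nonneg_left (by positivity) (by positivity) ?_
        norm_num only
        have h2 : 1 * s ^ 4 ≤ 2 * Real.pi * 24 * s ^ 4 :=
          mul_le_mul_of_nonneg_right (by linarith) (by positivity)
        linarith
      calc l ^ ((1 : ℝ) / 2) ≤ ((a ^ 3 / s ^ 2) ^ 2) ^ ((1 : ℝ) / 2) :=
            Real.rpow_le_rpow hl0.le h1 (by norm_num)
        _ = a ^ 3 / s ^ 2 := rpow_half_sq (by positivity)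
    have hlr' : a ^ 3 / (13 * s ^ 2) ≤ l ^ ((1 : ℝ) / 2) := by
      have h1 : (a ^ 3 / (13 * s ^ 2)) ^ 2 ≤ l := by
        rw [div_pow, mul_pow, ← pow_mul, ← pow_mul, hl]
        refine div_le_div_of_nonneg_left (by positivity) (by positivity) ?_
        norm_num only
        exact mul_le_mul_of_nonneg_right (by norm_num at hpi4 ⊢; linarith) (by positivity)
      calc a ^ 3 / (13 * s ^ 2) = ((a ^ 3 / (13 * s ^ 2)) ^ 2) ^ ((1 : ℝ) / 2) :=
            (rpow_half_sq (by positivity)).symm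
        _ ≤ l ^ ((1 : ℝ) / 2) := Real.rpow_le_rpow (by positivity) h1 (by norm_num)
    have h := hS (fun n => -(lph (s ^ 2) (a ^ 6) n)) N l 24 hl0 (by norm_num) (by
      intro n hn
      obtain ⟨p1, p2⟩ := hy n (by omega)
      obtain ⟨q1, q2⟩ := second_diff hL p1 p2
      have e : -lph (s ^ 2) (a ^ 6) (n + 2) - 2 * -lph (s ^ 2) (a ^ 6) (n + 1) + -lph (s ^ 2) (a ^ 6) n =
          a ^ 6 / (2 * Real.pi) * (-Real.log (s ^ 2 + n + 2) + 2 * Real.log (s ^ 2 + n + 1)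
            - Real.log (s ^ 2 + n)) := by
        unfold lph
        push_cast
        rw [show s ^ 2 + ((n : ℝ) + 2) = s ^ 2 + n + 2 by ring,
          show s ^ 2 + ((n : ℝ) + 1) = s ^ 2 + n + 1 by ring]
        ring
      simp only [e]
      have hc : 0 ≤ a ^ 6 / (2 * Real.pi) := by positivity
      constructor
      · calc l = a ^ 6 / (2 * Real.pi) * (1 / (24 * (s ^ 2) ^ 2)) := by
              rw [hl]
              field_simp
          _ ≤ _ := mul_le_mul_of_nonneg_left q1 hc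
      · calc _ ≤ a ^ 6 / (2 * Real.pi) * (1 / (s ^ 2) ^ 2) := mul_le_mul_of_nonneg_left q2 hc
          _ = 24 * l := by
              rw [hl]
              field_simp)
    have hlm : l ^ (-(1 / 2 : ℝ)) ≤ 13 * s ^ 2 / a ^ 3 := by
      rw [Real.rpow_neg hl0.le]
      have := inv_anti₀ (by positivity) hlr'
      rwa [inv_div] at this
    have h1 : (N : ℝ) * l ^ ((1 : ℝ) / 2) ≤ s * a := by
      calc (N : ℝ) * l ^ ((1 : ℝ) / 2) ≤ s ^ 2 * (a ^ 3 / s ^ 2) := by gcongr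
        _ = a ^ 2 * a := by field_simp
        _ ≤ s * a := by gcongr
    have h2 : l ^ (-(1 / 2 : ℝ)) ≤ 13 * (s * a) := by
      calc l ^ (-(1 / 2 : ℝ)) ≤ 13 * s ^ 2 / a ^ 3 := hlm
        _ = 13 * (s * (s / a ^ 3)) := by ring
        _ ≤ 13 * (s * a) := by
            gcongr
            rw [div_le_iff₀ (by positivity)]
            calc s ≤ a ^ 3 := hC
              _ = 1 * a ^ 3 := by ring
              _ ≤ a * a ^ 3 := by gcongr
    calc _ ≤ C2 * 24 * (N * l ^ ((1 : ℝ) / 2) + l ^ (-(1 / 2 : ℝ))) := h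
      _ ≤ C2 * 24 * (s * a + 13 * (s * a)) := by gcongr
      _ = 24 * 14 * C2 * (s * a) := by ring
      _ ≤ (20 * C1 + 24 * 14 * C2 + 17 * 3240 * C3) * (s * a) := by
          gcongr
          linarith
      _ = _ := by ring
  · -- Kusmin-Landau
    set θ : ℝ := a ^ 6 / (6 * Real.pi * s ^ 2) with hθ
    have hθ0 : 0 < θ := by positivity
    have has : a ^ 6 ≤ s ^ 2 := by
      calc a ^ 6 = (a ^ 3) ^ 2 := by ring
        _ ≤ s ^ 2 := pow_le_pow_left₀ (by positivity) hC 2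
    have hθ1 : θ ≤ 1 / 18 := by
      rw [hθ, div_le_iff₀ (by positivity)]
      have h1 : 0 < s ^ 2 := by positivity
      nlinarith
    have hinc : ∀ n : ℕ, lph (s ^ 2) (a ^ 6) (n + 1) - lph (s ^ 2) (a ^ 6) n =
        a ^ 6 / (2 * Real.pi) * (Real.log (s ^ 2 + n + 1) - Real.log (s ^ 2 + n)) := by
      intro n
      unfold lph
      push_cast
      rw [show s ^ 2 + ((n : ℝ) + 1) = s ^ 2 + n + 1 by ring]
      ring
    have hc : 0 ≤ a ^ 6 / (2 * Real.pi) := by positivity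
    have h := hK (fun n => -(lph (s ^ 2) (a ^ 6) n)) N θ (-1) hθ0 (by linarith) (by
      intro n hn
      obtain ⟨p1, p2⟩ := hy n (by omega)
      obtain ⟨q1, q2⟩ := first_diff hL p1 p2
      have e : -lph (s ^ 2) (a ^ 6) (n + 1) - -lph (s ^ 2) (a ^ 6) n =
          -(a ^ 6 / (2 * Real.pi) * (Real.log (s ^ 2 + n + 1) - Real.log (s ^ 2 + n))) := by
        rw [← hinc n]
        ring
      simp only [e]
      have k1 := mul_le_mul_of_nonneg_left q1 hc
      have k2 := mul_le_mul_of_nonneg_left q2 hc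
      have k3 : a ^ 6 / (2 * Real.pi) * (1 / (3 * s ^ 2)) = θ := by
        rw [hθ]
        field_simp
        ring
      have k4 : a ^ 6 / (2 * Real.pi) * (1 / s ^ 2) = 3 * θ := by
        rw [hθ]
        field_simp
        ring
      rw [k3] at k1
      rw [k4] at k2
      push_cast
      constructor <;> linarith) (by
      intro n hn
      have e1 : -lph (s ^ 2) (a ^ 6) (n + 1) - -lph (s ^ 2) (a ^ 6) n =
          -(a ^ 6 / (2 * Real.pi) * (Real.log (s ^ 2 + n + 1) - Real.log (s ^ 2 + n))) := by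
        rw [← hinc n]
        ring
      have e2 : -lph (s ^ 2) (a ^ 6) (n + 2) - -lph (s ^ 2) (a ^ 6) (n + 1) =
          -(a ^ 6 / (2 * Real.pi) * (Real.log (s ^ 2 + n + 2) - Real.log (s ^ 2 + n + 1))) := by
        have := hinc (n + 1)
        push_cast at this
        rw [show s ^ 2 + ((n : ℝ) + 1) + 1 = s ^ 2 + n + 2 by ring, show s ^ 2 + ((n : ℝ) + 1) = s ^ 2 + n + 1 by ring]
          at this
        rw [← this]
        ring
      simp only [e1, e2]
      obtain ⟨p1, p2⟩ := hy n (by omega)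
      have q := (second_diff hL p1 p2).1
      have q' : 0 ≤ 1 / (24 * (s ^ 2) ^ 2) := by positivity
      have := mul_le_mul_of_nonneg_left (show Real.log (s ^ 2 + n + 2) - Real.log (s ^ 2 + n + 1) ≤
        Real.log (s ^ 2 + n + 1) - Real.log (s ^ 2 + n) by linarith) hc
      linarith)
    have h2 : C1 / θ ≤ 20 * C1 * (s * a) := by
      rw [div_le_iff₀ hθ0, hθ]
      have h3 : 1 ≤ 20 * (s * a) * (a ^ 6 / (6 * Real.pi * s ^ 2)) := by
        rw [mul_div_assoc', le_div_iff₀ (by positivity)]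
        have k1 : s * s ≤ s * (a * a ^ 6) := by
          refine mul_le_mul_of_nonneg_left ?_ hs0.le
          calc s ≤ a ^ 6 := hsa
            _ = 1 * a ^ 6 := by ring
            _ ≤ a * a ^ 6 := by gcongr
        have k2 : 0 < s * s := by positivity
        nlinarith
      calc C1 = C1 * 1 := by ring
        _ ≤ C1 * (20 * (s * a) * (a ^ 6 / (6 * Real.pi * s ^ 2))) := by gcongr
        _ = _ := by ring
    calc _ ≤ C1 / θ := h
      _ ≤ 20 * C1 * (s * a) := h2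
      _ ≤ (20 * C1 + 24 * 14 * C2 + 17 * 3240 * C3) * (s * a) := by
          gcongr
          linarith
      _ = _ := by ring

theorem log_block : ∃ C : ℝ, 1 ≤ C ∧ ∀ L t : ℝ, 1 ≤ L → 1 ≤ t → L ≤ t ^ 2 → ∀ N : ℕ, (N : ℝ) ≤ L →
    ‖∑ m ∈ Finset.range N, ((L + m : ℝ) : ℂ) ^ (-(t * I : ℂ))‖ ≤ C * L ^ ((1 : ℝ) / 2) * t ^ ((1 : ℝ) / 6) := by
  obtain ⟨C, hC, h⟩ := log_block_aux
  refine ⟨C, hC, fun L t hL ht hLt N hN => ?_⟩
  have hL0 : 0 ≤ L := by linarith
  have ht0 : 0 ≤ t := by linarith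
  have e1 : (L ^ ((1 : ℝ) / 2)) ^ 2 = L := by
    rw [← Real.rpow_natCast, ← Real.rpow_mul hL0]
    norm_num
  have e2 : (t ^ ((1 : ℝ) / 6)) ^ 6 = t := by
    rw [← Real.rpow_natCast, ← Real.rpow_mul ht0]
    norm_num
  have h1 : 1 ≤ L ^ ((1 : ℝ) / 2) := Real.one_le_rpow hL (by norm_num)
  have h2 : 1 ≤ t ^ ((1 : ℝ) / 6) := Real.one_le_rpow ht (by norm_num)
  have h3 : L ^ ((1 : ℝ) / 2) ≤ t := by
    calc L ^ ((1 : ℝ) / 2) ≤ (t ^ 2) ^ ((1 : ℝ) / 2) := Real.rpow_le_rpow hL0 hLt (by norm_num)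
      _ = t := by
          rw [← Real.rpow_natCast, ← Real.rpow_mul ht0]
          norm_num
  have := h (L ^ ((1 : ℝ) / 2)) (t ^ ((1 : ℝ) / 6)) h1 h2 (by rw [e2]; exact h3) N (by rw [e1]; exact hN)
  rw [e1, e2] at this
  rw [Finset.sum_congr rfl (fun m _ => cpow_eq_ee hL t m)]
  exact this

/-- Abel's inequality -/
theorem abel_ineq (a : ℕ → ℂ) (b : ℕ → ℝ) (hb : ∀ n, 0 ≤ b n) (hanti : ∀ n, b (n + 1) ≤ b n) (B : ℝ) (N : ℕ)
    (hB : ∀ n, n ≤ N → ‖∑ m ∈ Finset.range n, a m‖ ≤ B) :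
    ‖∑ m ∈ Finset.range N, (b m : ℂ) * a m‖ ≤ b 0 * B := by
  have hB0 : 0 ≤ B := (norm_nonneg _).trans (hB 0 (Nat.zero_le _))
  rcases Nat.eq_zero_or_pos N with rfl | hN
  · simp only [Finset.range_zero, Finset.sum_empty, norm_zero]
    exact mul_nonneg (hb 0) hB0
  obtain ⟨n, rfl⟩ : ∃ n, N = n + 1 := ⟨N - 1, by omega⟩
  have key : ∀ n : ℕ, ∑ m ∈ Finset.range (n + 1), (b m : ℂ) * a m =
      (b n : ℂ) * ∑ m ∈ Finset.range (n + 1), a m +
        ∑ m ∈ Finset.range n, ((b m - b (m + 1) : ℝ) : ℂ) * ∑ i ∈ Finset.range (m + 1), a i := by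
    intro n
    induction n with
    | zero => simp
    | succ n ih =>
      rw [Finset.sum_range_succ, ih, Finset.sum_range_succ (fun m => ((b m - b (m + 1) : ℝ) : ℂ) *
        ∑ i ∈ Finset.range (m + 1), a i) n, Finset.sum_range_succ a (n + 1)]
      push_cast
      ring
  rw [key n]
  have h1 : ‖(b n : ℂ) * ∑ m ∈ Finset.range (n + 1), a m‖ ≤ b n * B := by
    rw [norm_mul, Complex.norm_real, Real.norm_of_nonneg (hb n)]
    exact mul_le_mul_of_nonneg_left (hB _ le_rfl) (hb n)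
  have h2 : ‖∑ m ∈ Finset.range n, ((b m - b (m + 1) : ℝ) : ℂ) * ∑ i ∈ Finset.range (m + 1), a i‖ ≤
      ∑ m ∈ Finset.range n, (b m - b (m + 1)) * B := by
    refine norm_sum_le_of_le _ (fun m hm => ?_)
    rw [Finset.mem_range] at hm
    rw [norm_mul, Complex.norm_real, Real.norm_of_nonneg (sub_nonneg.mpr (hanti m))]
    exact mul_le_mul_of_nonneg_left (hB _ (by omega)) (sub_nonneg.mpr (hanti m))
  have h3 : ∑ m ∈ Finset.range n, (b m - b (m + 1)) * B = (b 0 - b n) * B := by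
    rw [← Finset.sum_mul, Finset.sum_range_sub']
  rw [h3] at h2
  calc _ ≤ ‖(b n : ℂ) * ∑ m ∈ Finset.range (n + 1), a m‖ + _ := norm_add_le _ _
    _ ≤ b n * B + (b 0 - b n) * B := add_le_add h1 h2
    _ = b 0 * B := by ring

/-- with the weights `(L+m)^{-1/2}` (Abel summation), and both signs of `t` -/
theorem log_block_half : ∃ C : ℝ, 1 ≤ C ∧ ∀ L t : ℝ, 1 ≤ L → 1 ≤ |t| → L ≤ t ^ 2 → ∀ N : ℕ, (N : ℝ) ≤ L →
    ‖∑ m ∈ Finset.range N, ((L + m : ℝ) : ℂ) ^ (-(1/2 + t * I : ℂ))‖ ≤ C * |t| ^ ((1 : ℝ) / 6) := by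
  obtain ⟨C, hC, h⟩ := log_block
  refine ⟨C, hC, fun L t hL ht hLt N hN => ?_⟩
  have hL0 : 0 < L := by linarith
  -- the unweighted sums for both signs
  have hun : ∀ n : ℕ, n ≤ N → ‖∑ m ∈ Finset.range n, ((L + m : ℝ) : ℂ) ^ (-(t * I : ℂ))‖ ≤
      C * L ^ ((1 : ℝ) / 2) * |t| ^ ((1 : ℝ) / 6) := by
    intro n hn
    have hn' : (n : ℝ) ≤ L := le_trans (by exact_mod_cast hn) hN
    have h1 := h L |t| hL ht (by rwa [sq_abs]) n hn'
    rcases le_total 0 t with h0 | h0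
    · rwa [abs_of_nonneg h0] at h1 ⊢
    · have e1 : ‖∑ m ∈ Finset.range n, ((L + m : ℝ) : ℂ) ^ (-(t * I : ℂ))‖ =
          ‖∑ m ∈ Finset.range n, ((L + m : ℝ) : ℂ) ^ (-((|t| : ℝ) * I : ℂ))‖ := by
        rw [Finset.sum_congr rfl (fun m _ => cpow_eq_ee hL t m),
          Finset.sum_congr rfl (fun m _ => cpow_eq_ee hL |t| m)]
        have e2 : ∀ m : ℕ, lph L |t| m = -(lph L t m) := by
          intro m
          rw [lph, lph, abs_of_nonpos h0]
          ring
        simp only [e2, neg_neg]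
        exact norm_sum_ee_neg _ _
      rw [e1]
      exact h1
  -- the weights
  set b : ℕ → ℝ := fun m => (L + m) ^ (-(1 / 2 : ℝ)) with hb
  have hb0 : ∀ n, 0 ≤ b n := fun n => by simp only [hb]; positivity
  have hanti : ∀ n, b (n + 1) ≤ b n := by
    intro n
    simp only [hb]
    refine Real.rpow_le_rpow_of_nonpos (by positivity) ?_ (by norm_num)
    push_cast
    linarith
  have e : ∀ m : ℕ, ((L + m : ℝ) : ℂ) ^ (-(1/2 + t * I : ℂ)) = (b m : ℂ) * ((L + m : ℝ) : ℂ) ^ (-(t * I : ℂ)) := by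
    intro m
    have h0 : 0 < L + m := by positivity
    rw [neg_add, Complex.cpow_add _ _ (by exact_mod_cast h0.ne')]
    congr 1
    simp only [hb]
    rw [Complex.ofReal_cpow h0.le]
    push_cast
    rfl
  rw [Finset.sum_congr rfl (fun m _ => e m)]
  refine (abel_ineq _ b hb0 hanti _ N hun).trans ?_
  have e0 : b 0 * (C * L ^ ((1 : ℝ) / 2) * |t| ^ ((1 : ℝ) / 6)) = C * |t| ^ ((1 : ℝ) / 6) := by
    simp only [hb, Nat.cast_zero, add_zero]
    have : L ^ (-(1 / 2 : ℝ)) * L ^ ((1 : ℝ) / 2) = 1 := by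
      rw [← Real.rpow_add hL0]
      norm_num
    calc L ^ (-(1 / 2 : ℝ)) * (C * L ^ ((1 : ℝ) / 2) * |t| ^ ((1 : ℝ) / 6)) =
        (L ^ (-(1 / 2 : ℝ)) * L ^ ((1 : ℝ) / 2)) * (C * |t| ^ ((1 : ℝ) / 6)) := by ring
      _ = _ := by rw [this, one_mul]
  exact e0.le

end Pool.Agent.H15.SC
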