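import Pool.Agent.H15.SC.MSrep
import Pool.Agent.H15.SC.MV

/-!
# SC-20  mean squares of the blocks of the approximate functional equation  (project SC, MP_be4568_nt)

`|gk| ≤ C U^c (1+|v|)^m e^{c²-v²}/|c|` (`|(s+w-1)/(s-1)| ≤ 1 + |w|/|s-1| ≤ 1 + 2|w|`).  Cauchy-Schwarz in `v` with the weight
`e^{-v²/2}`, Fubini, and for every `v` `mv_interval` (the `t`-integral of `|∑ f(n) n^{-(1/2+c)-i(t+v)}|²` over an interval of
length `U`; conjugate or reflect `t`): `≤ C (U+M) ∑ f(n)² n^{-1-2c} ≤ C (U+M) M^{-2c+θ}`.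
`BL`: moreover `|chi(s+w)| ≤ C (1+|t+v|)^{-2c} ≤ C (1+2U)^{-2c} (1+|v|)^{-2c}` (`chi_bound`, `d = 2`, `-2c > 0`), and
`∑ f(n)² n^{-1+2c} ≤ C M^{2c+θ}`.
-/

set_option autoImplicit false

open Complex Filter Topology MeasureTheory Set
open scoped ComplexConjugate

namespace Pool.Agent.H15.SC

variable {D : SelData}

theorem mb_ln_ne {c : ℝ} (hc : c ≠ 0) (v : ℝ) : ln c v ≠ 0 := by
  intro h
  have := congrArg Complex.re h
  simp at this
  exact hc this

theorem mb_norm_ln_le (c v : ℝ) : ‖ln c v‖ ≤ |c| + |v| := by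
  have := Complex.norm_le_abs_re_add_abs_im (ln c v)
  simpa using this

theorem mb_half_ne (t : ℝ) : ln (1/2) t - 1 ≠ 0 := by
  intro h
  have := congrArg Complex.re h
  simp at this
  norm_num at this

/-- bound of the kernel, uniform in `t` -/
theorem mb_gk_le (D : SelData) {U : ℝ} (hU : 1 ≤ U) {c : ℝ} (hc : c ≠ 0) (t v : ℝ) :
    ‖gk D U c t v‖ ≤ ((3 + 2 * |c|) ^ D.m * Real.exp (c ^ 2) / |c|) * U ^ c *
      ((1 + |v|) ^ (D.m : ℝ) * Real.exp (-(v ^ 2 / (1 : ℝ) ^ 2))) := by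
  have hU0 : 0 < U := by linarith
  have hc0 : 0 < |c| := abs_pos.mpr hc
  have h1 : ‖(ln (1/2) t + ln c v - 1) / (ln (1/2) t - 1)‖ ≤ (3 + 2 * |c|) * (1 + |v|) := by
    have hre : (ln (1/2) t - 1).re = -(1/2) := by simp; norm_num
    have hn : (1/2 : ℝ) ≤ ‖ln (1/2) t - 1‖ := by
      have := Complex.abs_re_le_norm (ln (1/2) t - 1)
      rw [hre] at this
      norm_num at this
      linarith
    have hne : ln (1/2) t - 1 ≠ 0 := mb_half_ne t
    have e1 : (ln (1/2) t + ln c v - 1) / (ln (1/2) t - 1) = 1 + ln c v / (ln (1/2) t - 1) := by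
      field_simp
      ring
    rw [e1]
    have h2 : ‖ln c v / (ln (1/2) t - 1)‖ ≤ 2 * (|c| + |v|) := by
      rw [norm_div, div_le_iff₀ (by linarith)]
      have := mb_norm_ln_le c v
      have h3 : 0 ≤ |c| + |v| := by positivity
      nlinarith
    have h4 := norm_add_le (1 : ℂ) (ln c v / (ln (1/2) t - 1))
    rw [norm_one] at h4
    have h5 : 0 ≤ |c| * |v| := by positivity
    have h6 : 0 ≤ |v| := abs_nonneg v
    nlinarith
  have h2 : ‖(U : ℂ) ^ (ln c v)‖ = U ^ c := by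
    rw [Complex.norm_cpow_eq_rpow_re_of_pos hU0, ln_re]
  have h3 : ‖cexp ((ln c v) ^ 2)‖ = Real.exp (c ^ 2) * Real.exp (-(v ^ 2 / (1 : ℝ) ^ 2)) := by
    rw [Complex.norm_exp, ← Real.exp_add]
    congr 1
    simp [ln, sq]
    ring
  have h4 : |c| ≤ ‖ln c v‖ := by
    have := Complex.abs_re_le_norm (ln c v)
    rwa [ln_re] at this
  unfold gk
  rw [norm_div, norm_mul, norm_mul, norm_pow, h2, h3]
  have h5 : ‖(ln (1/2) t + ln c v - 1) / (ln (1/2) t - 1)‖ ^ D.m ≤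
      (3 + 2 * |c|) ^ D.m * (1 + |v|) ^ (D.m : ℝ) := by
    rw [Real.rpow_natCast, ← mul_pow]
    exact pow_le_pow_left₀ (norm_nonneg _) h1 _
  have h6 : 0 < U ^ c := Real.rpow_pos_of_pos hU0 _
  calc _ ≤ ((3 + 2 * |c|) ^ D.m * (1 + |v|) ^ (D.m : ℝ) * U ^ c *
        (Real.exp (c ^ 2) * Real.exp (-(v ^ 2 / (1 : ℝ) ^ 2)))) / |c| := by
        gcongr
    _ = _ := by ring

/-- joint continuity of the kernel -/
theorem mb_gk_cont (D : SelData) {U : ℝ} (hU : 1 ≤ U) {c : ℝ} (hc : c ≠ 0) :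
    Continuous fun p : ℝ × ℝ => gk D U c p.1 p.2 := by
  have hU0 : (U : ℂ) ≠ 0 := by
    have : U ≠ 0 := by linarith
    exact_mod_cast this
  have h1 : Continuous fun p : ℝ × ℝ => ln c p.2 := by unfold ln; fun_prop
  have h2 : Continuous fun p : ℝ × ℝ => ln (1/2) p.1 := by unfold ln; fun_prop
  unfold gk
  refine Continuous.div ?_ h1 (fun p => mb_ln_ne hc p.2)
  refine Continuous.mul (Continuous.mul ?_ ?_) ?_
  · exact (((h2.add h1).sub continuous_const).div (h2.sub continuous_const) (fun p => mb_half_ne p.1)).pow _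
  · exact h1.const_cpow (Or.inl hU0)
  · exact Complex.continuous_exp.comp (h1.pow 2)

/-- the trigonometric sum `∑ f(n) n^{σ + iu}` -/
noncomputable def mbS (D : SelData) (σ : ℝ) (S : Finset ℕ) (u : ℝ) : ℂ := ∑ n ∈ S, (D.f n : ℂ) * (n : ℂ) ^ (ln σ u)

theorem mbS_cont (D : SelData) (σ : ℝ) (S : Finset ℕ) (hS : ∀ n ∈ S, 1 ≤ n) : Continuous (mbS D σ S) := by
  unfold mbS
  refine continuous_finsetSum _ (fun n hn => continuous_const.mul ?_)
  have hn0 : (n : ℂ) ≠ 0 := by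
    have := hS n hn
    exact_mod_cast (by omega : n ≠ 0)
  have h1 : Continuous fun u : ℝ => ln σ u := by unfold ln; fun_prop
  exact h1.const_cpow (Or.inl hn0)

theorem mbS_bound (D : SelData) (σ : ℝ) (S : Finset ℕ) (hS : ∀ n ∈ S, 1 ≤ n) (u : ℝ) :
    ‖mbS D σ S u‖ ≤ ∑ n ∈ S, |D.f n| * (n : ℝ) ^ σ := by
  refine (norm_sum_le _ _).trans (Finset.sum_le_sum fun n hn => ?_)
  have hn0 : (0 : ℝ) < n := by
    have := hS n hn
    exact_mod_cast this
  have h2 : ‖(n : ℂ) ^ (ln σ u)‖ = (n : ℝ) ^ σ := by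
    have := Complex.norm_cpow_eq_rpow_re_of_pos hn0 (ln σ u)
    simpa using this
  rw [norm_mul, h2, Complex.norm_real, Real.norm_eq_abs]

theorem mb_sumA (D : SelData) (c : ℝ) (S : Finset ℕ) (hS : ∀ n ∈ S, 1 ≤ n) (t v : ℝ) :
    ∑ n ∈ S, (D.f n : ℂ) * (n : ℂ) ^ (-(ln (1/2) t + ln c v)) = conj (mbS D (-(1/2 + c)) S (t + v)) := by
  unfold mbS
  rw [map_sum]
  refine Finset.sum_congr rfl fun n hn => ?_
  have hn0 : n ≠ 0 := by have := hS n hn; omega
  rw [map_mul, Complex.conj_ofReal]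
  congr 1
  have e1 : -(ln (1/2) t + ln c v) = conj (ln (-(1/2 + c)) (t + v)) := by
    unfold ln
    simp only [map_add, map_mul, Complex.conj_ofReal, Complex.conj_I]
    push_cast
    ring
  have harg : (n : ℂ).arg ≠ Real.pi := by
    rw [Complex.natCast_arg]
    exact Real.pi_pos.ne
  rw [e1, Complex.cpow_conj _ _ harg, Complex.conj_natCast]

theorem mb_sumB (D : SelData) (c : ℝ) (S : Finset ℕ) (t v : ℝ) :
    ∑ n ∈ S, (D.f n : ℂ) * (n : ℂ) ^ (ln (1/2) t + ln c v - 1) = mbS D (c - 1/2) S (t + v) := by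
  unfold mbS
  refine Finset.sum_congr rfl fun n hn => ?_
  congr 2
  unfold ln
  push_cast
  ring

/-- Cauchy-Schwarz with a weight -/
theorem mb_cs (w g : ℝ → ℝ) (hw : ∀ v, 0 ≤ w v) (hwi : Integrable w)
    (h1 : Integrable fun v => w v * g v) (h2 : Integrable fun v => w v * g v ^ 2) :
    (∫ v, w v * g v) ^ 2 ≤ ((∫ v, w v) + 1) * ∫ v, w v * g v ^ 2 := by
  set I0 := ∫ v, w v with hI0
  set I1 := ∫ v, w v * g v with hI1
  set I2 := ∫ v, w v * g v ^ 2 with hI2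
  have hI0n : 0 ≤ I0 := integral_nonneg hw
  have hI2n : 0 ≤ I2 := integral_nonneg fun v => mul_nonneg (hw v) (sq_nonneg _)
  have h3 : 0 ≤ ∫ v, w v * ((I0 + 1) * g v - I1) ^ 2 := integral_nonneg fun v => mul_nonneg (hw v) (sq_nonneg _)
  have e : ∫ v, w v * ((I0 + 1) * g v - I1) ^ 2 = (I0 + 1) ^ 2 * I2 - 2 * (I0 + 1) * I1 * I1 + I1 ^ 2 * I0 := by
    have e1 : ∀ v, w v * ((I0 + 1) * g v - I1) ^ 2 =
        ((I0 + 1) ^ 2 * (w v * g v ^ 2) - 2 * (I0 + 1) * I1 * (w v * g v)) + I1 ^ 2 * w v := fun v => by ring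
    simp_rw [e1]
    have i1 : Integrable fun v => (I0 + 1) ^ 2 * (w v * g v ^ 2) := h2.const_mul _
    have i2 : Integrable fun v => 2 * (I0 + 1) * I1 * (w v * g v) := h1.const_mul _
    have i3 : Integrable fun v => (I0 + 1) ^ 2 * (w v * g v ^ 2) - 2 * (I0 + 1) * I1 * (w v * g v) := i1.sub i2
    rw [integral_add i3 (hwi.const_mul _), integral_sub i1 i2, integral_const_mul, integral_const_mul,
      integral_const_mul]
  rw [e] at h3
  have h4 : I1 ^ 2 * (I0 + 2) ≤ (I0 + 1) ^ 2 * I2 := by nlinarith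
  have h5 : (I0 + 1) ^ 2 * I2 ≤ ((I0 + 1) * I2) * (I0 + 2) := by nlinarith [mul_nonneg hI0n hI2n]
  exact le_of_mul_le_mul_right (h4.trans h5) (by linarith)

/-- mean square of a function dominated by a weighted average of translates of a trigonometric polynomial -/
theorem mb_block (D : SelData) (σ θ A : ℝ) (hram : ∃ C : ℝ, ∀ n : ℕ, 1 ≤ n → |D.f n| ≤ C * (n : ℝ) ^ (θ / 2))
    (w : ℝ → ℝ) (hw : ∀ v, 0 ≤ w v) (hwc : Continuous w) (hwi : Integrable w) : ∃ C : ℝ, 0 ≤ C ∧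
    ∀ U : ℝ, 1 ≤ U → ∀ M : ℕ, 1 ≤ M → ∀ κ : ℝ, ∀ X : ℝ → ℂ, Continuous X →
    (∀ t, U ≤ t → t ≤ 2 * U → ‖X t‖ ≤ A * U ^ κ * ∫ v, w v * ‖mbS D σ (Finset.Ico M (2 * M)) (t + v)‖) →
    ∫ t in U..(2 * U), ‖X t‖ ^ 2 ≤ C * U ^ (2 * κ) * (U + M) * (M : ℝ) ^ (1 + θ + 2 * σ) := by
  obtain ⟨Cm, hCm, hmv⟩ := mv_interval
  obtain ⟨Cf, hCf⟩ := hram
  have hCf0 : 0 ≤ Cf := by
    have := hCf 1 le_rfl
    simp at this
    exact (abs_nonneg _).trans this
  set W0 := ∫ v, w v with hW0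
  have hW0n : 0 ≤ W0 := integral_nonneg hw
  refine ⟨A ^ 2 * (W0 + 1) * W0 * Cm * (Cf ^ 2 * 2 ^ |θ + 2 * σ|), by positivity, fun U hU M hM κ X hX hb => ?_⟩
  have hU0 : 0 < U := by linarith
  have hM0 : (0 : ℝ) < M := by exact_mod_cast hM
  set S := Finset.Ico M (2 * M) with hSdef
  have hS : ∀ n ∈ S, 1 ≤ n := fun n hn => by rw [hSdef, Finset.mem_Ico] at hn; omega
  set g : ℝ → ℝ := fun u => ‖mbS D σ S u‖ with hg
  have hgc : Continuous g := (mbS_cont D σ S hS).norm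
  set B := ∑ n ∈ S, |D.f n| * (n : ℝ) ^ σ with hB
  have hgB : ∀ u, g u ≤ B := mbS_bound D σ S hS
  have hg0 : ∀ u, 0 ≤ g u := fun u => norm_nonneg _
  have hB0 : 0 ≤ B := (hg0 0).trans (hgB 0)
  -- the mean value theorem
  have hK : ∀ v : ℝ, ∫ t in U..(2 * U), g (t + v) ^ 2 ≤
      Cm * (U + M) * (Cf ^ 2 * 2 ^ |θ + 2 * σ| * (M : ℝ) ^ (1 + θ + 2 * σ)) := by
    intro v
    have h1 := hmv M hM U hU (fun n => (D.f n : ℂ)) σ (3 * U / 2 + v)
    have h2 : ∫ t in U..(2 * U), g (t + v) ^ 2 = ∫ t in (U + v)..(2 * U + v), g t ^ 2 :=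
      intervalIntegral.integral_comp_add_right (fun t => g t ^ 2) v
    rw [h2]
    have h3 : ∫ t in (U + v)..(2 * U + v), g t ^ 2 ≤ ∫ t in (3 * U / 2 + v - U)..(3 * U / 2 + v + U), g t ^ 2 := by
      have hgi : ∀ a b : ℝ, IntervalIntegrable (fun t => g t ^ 2) volume a b := fun a b =>
        (hgc.pow 2).intervalIntegrable a b
      refine intervalIntegral.integral_mono_interval (by linarith) (by linarith) (by linarith)
        (Eventually.of_forall fun t => by positivity) (hgi _ _)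
    refine h3.trans (h1.trans (mul_le_mul_of_nonneg_left ?_ (by positivity)))
    have h4 : ∀ n ∈ S, ‖(D.f n : ℂ)‖ ^ 2 * (n : ℝ) ^ (2 * σ) ≤ Cf ^ 2 * (2 ^ |θ + 2 * σ| * (M : ℝ) ^ (θ + 2 * σ)) := by
      intro n hn
      have hn1 := hS n hn
      have hn0 : (0 : ℝ) < n := by exact_mod_cast hn1
      rw [hSdef, Finset.mem_Ico] at hn
      have hMn : (M : ℝ) ≤ n := by exact_mod_cast hn.1
      have hnM : (n : ℝ) ≤ 2 * M := by exact_mod_cast hn.2.le
      have h5 : ‖(D.f n : ℂ)‖ ^ 2 ≤ Cf ^ 2 * (n : ℝ) ^ θ := by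
        rw [Complex.norm_real, Real.norm_eq_abs]
        have := pow_le_pow_left₀ (abs_nonneg _) (hCf n hn1) 2
        rw [mul_pow, ← Real.rpow_natCast ((n : ℝ) ^ (θ / 2)) 2, ← Real.rpow_mul hn0.le] at this
        refine this.trans (le_of_eq ?_)
        congr 2
        push_cast
        ring
      have h6 : (n : ℝ) ^ (θ + 2 * σ) ≤ 2 ^ |θ + 2 * σ| * (M : ℝ) ^ (θ + 2 * σ) := by
        rcases le_total 0 (θ + 2 * σ) with h0 | h0
        · rw [abs_of_nonneg h0, ← Real.mul_rpow (by norm_num) hM0.le]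
          exact Real.rpow_le_rpow hn0.le hnM h0
        · have h7 : (n : ℝ) ^ (θ + 2 * σ) ≤ (M : ℝ) ^ (θ + 2 * σ) := Real.rpow_le_rpow_of_nonpos hM0 hMn h0
          have h8 : (1 : ℝ) ≤ 2 ^ |θ + 2 * σ| := Real.one_le_rpow (by norm_num) (abs_nonneg _)
          have h9 : 0 < (M : ℝ) ^ (θ + 2 * σ) := Real.rpow_pos_of_pos hM0 _
          nlinarith
      calc ‖(D.f n : ℂ)‖ ^ 2 * (n : ℝ) ^ (2 * σ) ≤ Cf ^ 2 * (n : ℝ) ^ θ * (n : ℝ) ^ (2 * σ) :=
            mul_le_mul_of_nonneg_right h5 (by positivity)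
        _ = Cf ^ 2 * (n : ℝ) ^ (θ + 2 * σ) := by rw [Real.rpow_add hn0]; ring
        _ ≤ _ := mul_le_mul_of_nonneg_left h6 (by positivity)
    refine (Finset.sum_le_sum h4).trans ?_
    rw [Finset.sum_const, nsmul_eq_mul]
    have h5 : (S.card : ℝ) = M := by
      rw [hSdef, Nat.card_Ico]
      congr 1
      omega
    rw [h5]
    refine le_of_eq ?_
    have e1 : (1 : ℝ) + θ + 2 * σ = 1 + (θ + 2 * σ) := by ring
    rw [e1, Real.rpow_add hM0 1, Real.rpow_one]
    ring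
  set K := Cm * (U + M) * (Cf ^ 2 * 2 ^ |θ + 2 * σ| * (M : ℝ) ^ (1 + θ + 2 * σ)) with hKdef
  -- pointwise bound
  have hi1 : ∀ t, Integrable fun v => w v * g (t + v) := by
    intro t
    refine (hwi.mul_const B).mono' ?_ (Eventually.of_forall fun v => ?_)
    · exact (hwc.mul (hgc.comp (by fun_prop))).aestronglyMeasurable
    · rw [Real.norm_of_nonneg (mul_nonneg (hw v) (hg0 _))]
      exact mul_le_mul_of_nonneg_left (hgB _) (hw v)
  have hi2 : ∀ t, Integrable fun v => w v * g (t + v) ^ 2 := by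
    intro t
    refine (hwi.mul_const (B ^ 2)).mono' ?_ (Eventually.of_forall fun v => ?_)
    · exact (hwc.mul ((hgc.comp (by fun_prop)).pow 2)).aestronglyMeasurable
    · rw [Real.norm_of_nonneg (mul_nonneg (hw v) (sq_nonneg _))]
      exact mul_le_mul_of_nonneg_left (pow_le_pow_left₀ (hg0 _) (hgB _) 2) (hw v)
  have hpt : ∀ t ∈ Icc U (2 * U), ‖X t‖ ^ 2 ≤ A ^ 2 * U ^ (2 * κ) * (W0 + 1) * ∫ v, w v * g (t + v) ^ 2 := by
    intro t ht
    have h1 := hb t ht.1 ht.2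
    have h2 := mb_cs w (fun v => g (t + v)) hw hwi (hi1 t) (hi2 t)
    have h3 : ‖X t‖ ^ 2 ≤ (A * U ^ κ * ∫ v, w v * g (t + v)) ^ 2 := pow_le_pow_left₀ (norm_nonneg _) h1 2
    have e1 : (U ^ κ) ^ 2 = U ^ (2 * κ) := by
      rw [← Real.rpow_natCast, ← Real.rpow_mul hU0.le]
      congr 1
      push_cast
      ring
    rw [mul_pow, mul_pow, e1] at h3
    refine h3.trans ?_
    have h4 : 0 ≤ A ^ 2 * U ^ (2 * κ) := by positivity
    calc A ^ 2 * U ^ (2 * κ) * (∫ v, w v * g (t + v)) ^ 2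
        ≤ A ^ 2 * U ^ (2 * κ) * ((W0 + 1) * ∫ v, w v * g (t + v) ^ 2) := mul_le_mul_of_nonneg_left h2 h4
      _ = _ := by ring
  -- Fubini
  have hprod : Integrable (fun p : ℝ × ℝ => w p.2 * g (p.1 + p.2) ^ 2)
      ((volume.restrict (Ioc U (2 * U))).prod volume) := by
    have h1 : Integrable (fun p : ℝ × ℝ => (B ^ 2) * w p.2) ((volume.restrict (Ioc U (2 * U))).prod volume) :=
      Integrable.mul_prod (f := fun _ : ℝ => B ^ 2) (integrable_const _) hwi
    refine h1.mono' ?_ (Eventually.of_forall fun p => ?_)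
    · have : Continuous fun p : ℝ × ℝ => w p.2 * g (p.1 + p.2) ^ 2 := by fun_prop
      exact this.aestronglyMeasurable
    · rw [Real.norm_of_nonneg (mul_nonneg (hw _) (sq_nonneg _)), mul_comm (B ^ 2)]
      exact mul_le_mul_of_nonneg_left (pow_le_pow_left₀ (hg0 _) (hgB _) 2) (hw _)
  have hcont : Continuous fun t => ∫ v, w v * g (t + v) ^ 2 := by
    refine continuous_of_dominated (F := fun t v => w v * g (t + v) ^ 2) (bound := fun v => w v * B ^ 2) ?_ ?_ ?_ ?_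
    · intro t
      exact (hwc.mul ((hgc.comp (by fun_prop)).pow 2)).aestronglyMeasurable
    · intro t
      refine Eventually.of_forall fun v => ?_
      rw [Real.norm_of_nonneg (mul_nonneg (hw _) (sq_nonneg _))]
      exact mul_le_mul_of_nonneg_left (pow_le_pow_left₀ (hg0 _) (hgB _) 2) (hw _)
    · exact hwi.mul_const _
    · refine Eventually.of_forall fun v => ?_
      fun_prop
  have hF : ∫ t in U..(2 * U), (∫ v, w v * g (t + v) ^ 2) ≤ W0 * K := by
    rw [intervalIntegral.integral_of_le (by linarith)]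
    rw [integral_integral_swap (f := fun t v => w v * g (t + v) ^ 2) hprod]
    have h1 : ∀ v, ∫ t in Ioc U (2 * U), w v * g (t + v) ^ 2 ≤ w v * K := by
      intro v
      rw [integral_const_mul, ← intervalIntegral.integral_of_le (by linarith)]
      exact mul_le_mul_of_nonneg_left (hK v) (hw v)
    refine (integral_mono (hprod.swap.integral_prod_left) (hwi.mul_const K) h1).trans (le_of_eq ?_)
    rw [integral_mul_const]
  have hXc : Continuous fun t => ‖X t‖ ^ 2 := by fun_prop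
  calc ∫ t in U..(2 * U), ‖X t‖ ^ 2
      ≤ ∫ t in U..(2 * U), A ^ 2 * U ^ (2 * κ) * (W0 + 1) * ∫ v, w v * g (t + v) ^ 2 :=
        intervalIntegral.integral_mono_on (by linarith) (hXc.intervalIntegrable _ _)
          ((continuous_const.mul hcont).intervalIntegrable _ _) hpt
    _ = A ^ 2 * U ^ (2 * κ) * (W0 + 1) * ∫ t in U..(2 * U), ∫ v, w v * g (t + v) ^ 2 := by
        rw [intervalIntegral.integral_const_mul]
    _ ≤ A ^ 2 * U ^ (2 * κ) * (W0 + 1) * (W0 * K) := mul_le_mul_of_nonneg_left hF (by positivity)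
    _ = _ := by
        rw [hKdef]
        ring

/-- the weight `(1+|v|)^p e^{-v²}` -/
noncomputable def mbw (p v : ℝ) : ℝ := (1 + |v|) ^ p * Real.exp (-(v ^ 2 / (1 : ℝ) ^ 2))

theorem mbw_nonneg (p v : ℝ) : 0 ≤ mbw p v := by unfold mbw; positivity

theorem mbw_int (p : ℝ) : Integrable (mbw p) := integrable_pow_gauss p one_pos

theorem mbw_cont (p : ℝ) : Continuous (mbw p) := by
  unfold mbw
  refine Continuous.mul ?_ (by fun_prop)
  refine Continuous.rpow_const (by fun_prop) (fun v => Or.inl ?_)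
  have := abs_nonneg v
  linarith

theorem AR_continuous (h : IsSel D 2) {U : ℝ} (hU : 1 ≤ U) {c : ℝ} (hc : 0 < c) (hc1 : c ≤ 3/4) (S : Finset ℕ)
    (hS : ∀ n ∈ S, 1 ≤ n) : Continuous (AR D U c S) := by
  unfold AR
  refine continuous_const.mul ?_
  simp_rw [mb_sumA D c S hS]
  have hgk := mb_gk_cont D hU hc.ne'
  have hs := mbS_cont D (-(1/2 + c)) S hS
  have hj : Continuous fun p : ℝ × ℝ => gk D U c p.1 p.2 * conj (mbS D (-(1/2 + c)) S (p.1 + p.2)) :=
    hgk.mul (Complex.continuous_conj.comp (hs.comp (continuous_fst.add continuous_snd)))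
  refine continuous_of_dominated (F := fun t v => gk D U c t v * conj (mbS D (-(1/2 + c)) S (t + v)))
    (bound := fun v => ((3 + 2 * |c|) ^ D.m * Real.exp (c ^ 2) / |c|) * U ^ c *
      (∑ n ∈ S, |D.f n| * (n : ℝ) ^ (-(1/2 + c))) * mbw D.m v) ?_ ?_ ?_ ?_
  · intro t
    exact (hj.comp (by fun_prop : Continuous fun v : ℝ => (t, v))).aestronglyMeasurable
  · intro t
    refine Eventually.of_forall fun v => ?_
    rw [norm_mul, RCLike.norm_conj]
    refine (mul_le_mul (mb_gk_le D hU hc.ne' t v) (mbS_bound D _ S hS _) (norm_nonneg _) (by positivity)).trans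
      (le_of_eq ?_)
    unfold mbw
    ring
  · exact (mbw_int _).const_mul _
  · refine Eventually.of_forall fun v => ?_
    have hc2 : Continuous fun t : ℝ => ((t, v) : ℝ × ℝ) := by fun_prop
    have h3 : Continuous fun t : ℝ => t + v := by fun_prop
    exact (hgk.comp hc2).mul (Complex.continuous_conj.comp (hs.comp h3))

theorem mb_chi_cont (h : IsSel D 2) {c : ℝ} (hc : c < 0) :
    Continuous fun p : ℝ × ℝ => D.chi (ln (1/2) p.1 + ln c p.2) := by
  have hd := (chi_diff h).continuousOn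
  refine hd.comp_continuous ?_ (fun p => ?_)
  · unfold ln; fun_prop
  · simp only [mem_ofPred_eq, add_re, ln_re]
    linarith

theorem mb_chi_le (h : IsSel D 2) : ∃ C : ℝ, 0 ≤ C ∧ ∀ c : ℝ, c < 0 → -(5/4) ≤ c → ∀ R : ℝ, 1 ≤ R → ∀ t v : ℝ,
    |t| ≤ R → ‖D.chi (ln (1/2) t + ln c v)‖ ≤ C * (2 * R) ^ (-(2 * c)) * (1 + |v|) ^ (-(2 * c)) := by
  obtain ⟨C, hC, hchi⟩ := chi_bound h
  refine ⟨C, hC, fun c hc hc1 R hR t v ht => ?_⟩
  have h1 := hchi (ln (1/2) t + ln c v) (by simp only [add_re, ln_re]; linarith)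
    (by simp only [add_re, ln_re]; linarith)
  have e1 : (2 : ℝ) * (1/2 - (ln (1/2) t + ln c v).re) = -(2 * c) := by
    simp only [add_re, ln_re]; ring
  have e2 : (ln (1/2) t + ln c v).im = t + v := by simp
  rw [e1, e2] at h1
  have h3 : (1 + |t + v|) ^ (-(2 * c)) ≤ ((2 * R) * (1 + |v|)) ^ (-(2 * c)) := by
    refine Real.rpow_le_rpow (by positivity) ?_ (by linarith)
    have := abs_add_le t v
    have h4 : 0 ≤ |v| := abs_nonneg v
    nlinarith
  rw [Real.mul_rpow (by positivity) (by positivity)] at h3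
  refine h1.trans ((mul_le_mul_of_nonneg_left h3 hC).trans (le_of_eq (by ring)))

theorem BL_continuous (h : IsSel D 2) {U : ℝ} (hU : 1 ≤ U) {c : ℝ} (hc : c < 0) (hc1 : -(5/4) ≤ c) (S : Finset ℕ)
    (hS : ∀ n ∈ S, 1 ≤ n) : Continuous (BL D U c S) := by
  unfold BL
  refine continuous_const.mul ?_
  simp_rw [mb_sumB D c S]
  have hgk := mb_gk_cont D hU hc.ne
  have hs := mbS_cont D (c - 1/2) S hS
  obtain ⟨C, hC, hchi⟩ := mb_chi_le h
  have hj : Continuous fun p : ℝ × ℝ => gk D U c p.1 p.2 * D.chi (ln (1/2) p.1 + ln c p.2) *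
      mbS D (c - 1/2) S (p.1 + p.2) :=
    (hgk.mul (mb_chi_cont h hc)).mul (hs.comp (continuous_fst.add continuous_snd))
  rw [continuous_iff_continuousAt]
  intro t₀
  refine continuousAt_of_dominated (F := fun t v => gk D U c t v * D.chi (ln (1/2) t + ln c v) *
      mbS D (c - 1/2) S (t + v))
    (bound := fun v => ((3 + 2 * |c|) ^ D.m * Real.exp (c ^ 2) / |c|) * U ^ c *
      (C * (2 * (|t₀| + 1)) ^ (-(2 * c))) *
      (∑ n ∈ S, |D.f n| * (n : ℝ) ^ (c - 1/2)) * mbw (D.m + -(2 * c)) v) ?_ ?_ ?_ ?_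
  · exact Eventually.of_forall fun t =>
      (hj.comp (by fun_prop : Continuous fun v : ℝ => (t, v))).aestronglyMeasurable
  · have hnear : ∀ᶠ t in 𝓝 t₀, |t| < |t₀| + 1 :=
      (continuous_abs.tendsto t₀).eventually (gt_mem_nhds (by linarith))
    filter_upwards [hnear] with t ht
    refine Eventually.of_forall fun v => ?_
    rw [norm_mul, norm_mul]
    have h1 := hchi c hc hc1 (|t₀| + 1) (by have := abs_nonneg t₀; linarith) t v ht.le
    have hv : 0 < 1 + |v| := by positivity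
    refine (mul_le_mul (mul_le_mul (mb_gk_le D hU hc.ne t v) h1 (norm_nonneg _) (by positivity))
      (mbS_bound D _ S hS _) (norm_nonneg _) (by positivity)).trans (le_of_eq ?_)
    unfold mbw
    rw [Real.rpow_add hv]
    ring
  · exact (mbw_int _).const_mul _
  · exact Eventually.of_forall fun v => (hj.comp (by fun_prop : Continuous fun t : ℝ => (t, v))).continuousAt

theorem mb_Ico {M : ℕ} (hM : 1 ≤ M) : ∀ n ∈ Finset.Ico M (2 * M), 1 ≤ n :=
  fun _ hn => hM.trans (Finset.mem_Ico.mp hn).1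

theorem mb_ram (h : IsSel D 2) {θ : ℝ} (hθ : 0 < θ) : ∃ C : ℝ, ∀ n : ℕ, 1 ≤ n → |D.f n| ≤ C * (n : ℝ) ^ (θ / 2) :=
  h.ram (θ / 2) (by linarith)

theorem AR_block (h : IsSel D 2) (θ : ℝ) (hθ : 0 < θ) {c : ℝ} (hc : 0 < c) (hc1 : c ≤ 3/4) : ∃ C : ℝ, 0 ≤ C ∧
    ∀ U : ℝ, 1 ≤ U → ∀ M : ℕ, 1 ≤ M →
    ∫ t in U..(2 * U), ‖AR D U c (Finset.Ico M (2 * M)) t‖ ^ 2 ≤ C * U ^ (2 * c) * (U + M) * (M : ℝ) ^ (-(2 * c) + θ) := by
  obtain ⟨C, hC, hb⟩ := mb_block D (-(1/2 + c)) θ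
    (1 / (2 * Real.pi) * ((3 + 2 * |c|) ^ D.m * Real.exp (c ^ 2) / |c|)) (mb_ram h hθ) (mbw D.m)
    (mbw_nonneg _) (mbw_cont _) (mbw_int _)
  refine ⟨C, hC, fun U hU M hM => ?_⟩
  have h1 := hb U hU M hM c (AR D U c (Finset.Ico M (2 * M))) (AR_continuous h hU hc hc1 _ (mb_Ico hM)) ?_
  · refine h1.trans (le_of_eq ?_)
    congr 2
    ring
  · intro t _ _
    set S := Finset.Ico M (2 * M) with hS
    set A0 := (3 + 2 * |c|) ^ D.m * Real.exp (c ^ 2) / |c| with hA0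
    have hsc := mbS_cont D (-(1/2 + c)) S (mb_Ico hM)
    have hi : Integrable fun v => mbw D.m v * ‖mbS D (-(1/2 + c)) S (t + v)‖ := by
      refine ((mbw_int D.m).mul_const (∑ n ∈ S, |D.f n| * (n : ℝ) ^ (-(1/2 + c)))).mono' ?_
        (Eventually.of_forall fun v => ?_)
      · exact ((mbw_cont _).mul (hsc.comp (by fun_prop : Continuous fun v : ℝ => t + v)).norm).aestronglyMeasurable
      · rw [Real.norm_of_nonneg (mul_nonneg (mbw_nonneg _ _) (norm_nonneg _))]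
        exact mul_le_mul_of_nonneg_left (mbS_bound D _ S (mb_Ico hM) _) (mbw_nonneg _ _)
    unfold AR
    simp_rw [mb_sumA D c S (mb_Ico hM)]
    rw [norm_mul, Complex.norm_real, Real.norm_of_nonneg (by positivity)]
    have h2 : ‖∫ v : ℝ, gk D U c t v * conj (mbS D (-(1/2 + c)) S (t + v))‖ ≤
        ∫ v : ℝ, A0 * U ^ c * (mbw D.m v * ‖mbS D (-(1/2 + c)) S (t + v)‖) := by
      refine norm_integral_le_of_norm_le (hi.const_mul _) (Eventually.of_forall fun v => ?_)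
      rw [norm_mul, RCLike.norm_conj]
      refine (mul_le_mul_of_nonneg_right (mb_gk_le D hU hc.ne' t v) (norm_nonneg _)).trans (le_of_eq ?_)
      unfold mbw
      ring
    rw [integral_const_mul] at h2
    refine (mul_le_mul_of_nonneg_left h2 (by positivity)).trans (le_of_eq (by ring))

theorem BL_block (h : IsSel D 2) (θ : ℝ) (hθ : 0 < θ) {c : ℝ} (hc : c < 0) (hc1 : -(5/4) ≤ c) : ∃ C : ℝ, 0 ≤ C ∧
    ∀ U : ℝ, 1 ≤ U → ∀ M : ℕ, 1 ≤ M →
    ∫ t in U..(2 * U), ‖BL D U c (Finset.Ico M (2 * M)) t‖ ^ 2 ≤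
      C * U ^ (-(2 * c)) * (U + M) * (M : ℝ) ^ (2 * c + θ) := by
  obtain ⟨Cc, hCc, hchi⟩ := mb_chi_le h
  obtain ⟨C, hC, hb⟩ := mb_block D (c - 1/2) θ
    (1 / (2 * Real.pi) * ((3 + 2 * |c|) ^ D.m * Real.exp (c ^ 2) / |c|) * (Cc * 4 ^ (-(2 * c)))) (mb_ram h hθ)
    (mbw (D.m + -(2 * c))) (mbw_nonneg _) (mbw_cont _) (mbw_int _)
  refine ⟨C, hC, fun U hU M hM => ?_⟩
  have h1 := hb U hU M hM (-c) (BL D U c (Finset.Ico M (2 * M))) (BL_continuous h hU hc hc1 _ (mb_Ico hM)) ?_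
  · refine h1.trans (le_of_eq ?_)
    congr 2
    · congr 2
      ring
    · ring
  · intro t _ ht2
    have hU0 : 0 < U := by linarith
    set S := Finset.Ico M (2 * M) with hS
    set A0 := (3 + 2 * |c|) ^ D.m * Real.exp (c ^ 2) / |c| with hA0
    have hsc := mbS_cont D (c - 1/2) S (mb_Ico hM)
    have hi : Integrable fun v => mbw (D.m + -(2 * c)) v * ‖mbS D (c - 1/2) S (t + v)‖ := by
      refine ((mbw_int (D.m + -(2 * c))).mul_const (∑ n ∈ S, |D.f n| * (n : ℝ) ^ (c - 1/2))).mono' ?_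
        (Eventually.of_forall fun v => ?_)
      · exact ((mbw_cont _).mul (hsc.comp (by fun_prop : Continuous fun v : ℝ => t + v)).norm).aestronglyMeasurable
      · rw [Real.norm_of_nonneg (mul_nonneg (mbw_nonneg _ _) (norm_nonneg _))]
        exact mul_le_mul_of_nonneg_left (mbS_bound D _ S (mb_Ico hM) _) (mbw_nonneg _ _)
    unfold BL
    simp_rw [mb_sumB D c S]
    rw [norm_mul, Complex.norm_real, Real.norm_of_nonneg (by positivity)]
    have h2 : ‖∫ v : ℝ, gk D U c t v * D.chi (ln (1/2) t + ln c v) * mbS D (c - 1/2) S (t + v)‖ ≤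
        ∫ v : ℝ, A0 * (Cc * 4 ^ (-(2 * c))) * U ^ (-c) *
          (mbw (D.m + -(2 * c)) v * ‖mbS D (c - 1/2) S (t + v)‖) := by
      refine norm_integral_le_of_norm_le (hi.const_mul _) (Eventually.of_forall fun v => ?_)
      rw [norm_mul, norm_mul]
      have h3 := hchi c hc hc1 (2 * U) (by linarith) t v (by rw [abs_of_nonneg (by linarith)]; exact ht2)
      have hv : 0 < 1 + |v| := by positivity
      refine (mul_le_mul_of_nonneg_right (mul_le_mul (mb_gk_le D hU hc.ne t v) h3 (norm_nonneg _)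
        (by positivity)) (norm_nonneg _)).trans (le_of_eq ?_)
      unfold mbw
      have e1 : (2 * (2 * U)) ^ (-(2 * c)) = 4 ^ (-(2 * c)) * U ^ (-(2 * c)) := by
        rw [← Real.mul_rpow (by norm_num) hU0.le]
        congr 1
        ring
      have e2 : U ^ (-c) = U ^ c * U ^ (-(2 * c)) := by
        rw [← Real.rpow_add hU0]
        congr 1
        ring
      rw [Real.rpow_add hv, e1, e2]
      ring
    rw [integral_const_mul] at h2
    refine (mul_le_mul_of_nonneg_left h2 (by positivity)).trans (le_of_eq (by ring))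

end Pool.Agent.H15.SC
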