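import Mathlib

/-!
# SC-28  oscillating integrals  (project SC, MP_be4568_nt)

General lemma: `φ` twice differentiable on `[A,B]`, `|φ'| ≥ p > 0`, `|φ''| ≤ q`: `|∫_A^B e^{iφ}| ≤ 2/p + q (B-A)/p²` (integrate
`e^{iφ} = (e^{iφ})' / (iφ')` by parts).  Here `φ' = η/x + γ/(2 x^{1/2}) + δ/(3 x^{2/3})`: for `γ ≠ 0` and `x ∈ [T,2T]`, `T` large,
`|φ'| ≥ |γ| T^{-1/2}/4`, `|φ''| ≤ C T^{-3/2}`; for `γ = 0`, `δ ≠ 0`: `|φ'| ≥ |δ| T^{-2/3}/8`, `|φ''| ≤ C T^{-5/3}`; so the integral is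
`O(T^{1/2})` resp. `O(T^{2/3})`, which is `≤ ε T` for large `T`.
-/

set_option autoImplicit false

open Complex Filter Topology MeasureTheory Set

namespace Pool.Agent.H15.SC

theorem osc_parts (φ φ1 φ2 : ℝ → ℝ) (A B p q : ℝ) (hAB : A ≤ B) (hp : 0 < p)
    (h1 : ∀ x ∈ Icc A B, HasDerivAt φ (φ1 x) x) (h2 : ∀ x ∈ Icc A B, HasDerivAt φ1 (φ2 x) x)
    (h3 : ContinuousOn φ2 (Icc A B)) (hlow : ∀ x ∈ Icc A B, p ≤ |φ1 x|)
    (hup : ∀ x ∈ Icc A B, |φ2 x| ≤ q) :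
    ‖∫ x in A..B, cexp (I * (φ x : ℂ))‖ ≤ 2 / p + q * (B - A) / p ^ 2 := by
  have hne : ∀ x ∈ Icc A B, (φ1 x : ℂ) ≠ 0 := by
    intro x hx h0
    have := hlow x hx
    have h0' : φ1 x = 0 := by exact_mod_cast h0
    rw [h0', abs_zero] at this
    linarith
  have hu : uIcc A B = Icc A B := uIcc_of_le hAB
  have hv : ∀ x ∈ uIcc A B, HasDerivAt (fun x => cexp (I * (φ x : ℂ)))
      (cexp (I * (φ x : ℂ)) * (I * (φ1 x : ℂ))) x := by
    intro x hx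
    rw [hu] at hx
    exact (((h1 x hx).ofReal_comp).const_mul I).cexp
  have hw : ∀ x ∈ uIcc A B, HasDerivAt (fun x => (I * (φ1 x : ℂ))⁻¹)
      (-(I * (φ2 x : ℂ)) / (I * (φ1 x : ℂ)) ^ 2) x := by
    intro x hx
    rw [hu] at hx
    exact (((h2 x hx).ofReal_comp).const_mul I).fun_inv (mul_ne_zero I_ne_zero (hne x hx))
  have c1 : ContinuousOn φ1 (Icc A B) := fun x hx => (h2 x hx).continuousAt.continuousWithinAt
  have c0 : ContinuousOn φ (Icc A B) := fun x hx => (h1 x hx).continuousAt.continuousWithinAt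
  have d0 : ContinuousOn (fun x => (φ x : ℂ)) (Icc A B) := continuous_ofReal.comp_continuousOn c0
  have d1 : ContinuousOn (fun x => (φ1 x : ℂ)) (Icc A B) := continuous_ofReal.comp_continuousOn c1
  have d2 : ContinuousOn (fun x => (φ2 x : ℂ)) (Icc A B) := continuous_ofReal.comp_continuousOn h3
  have e1 : ContinuousOn (fun x => cexp (I * (φ x : ℂ)) * (I * (φ1 x : ℂ))) (Icc A B) :=
    (continuous_exp.comp_continuousOn (continuousOn_const.mul d0)).mul (continuousOn_const.mul d1)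
  have e2 : ContinuousOn (fun x => -(I * (φ2 x : ℂ)) / (I * (φ1 x : ℂ)) ^ 2) (Icc A B) :=
    (continuousOn_const.mul d2).neg.div ((continuousOn_const.mul d1).pow 2)
      (fun x hx => pow_ne_zero 2 (mul_ne_zero I_ne_zero (hne x hx)))
  have hi := intervalIntegral.integral_mul_deriv_eq_deriv_mul hw hv
    (by rw [← hu] at e2; exact e2.intervalIntegrable) (by rw [← hu] at e1; exact e1.intervalIntegrable)
  have heq : ∫ x in A..B, cexp (I * (φ x : ℂ))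
      = ∫ x in A..B, (I * (φ1 x : ℂ))⁻¹ * (cexp (I * (φ x : ℂ)) * (I * (φ1 x : ℂ))) := by
    apply intervalIntegral.integral_congr
    intro x hx
    rw [hu] at hx
    have := mul_ne_zero I_ne_zero (hne x hx)
    show cexp (I * (φ x : ℂ)) = (I * (φ1 x : ℂ))⁻¹ * (cexp (I * (φ x : ℂ)) * (I * (φ1 x : ℂ)))
    rw [mul_comm (cexp _) (I * (φ1 x : ℂ)), ← mul_assoc, inv_mul_cancel₀ this, one_mul]
  rw [heq, hi]
  have hexp : ∀ x : ℝ, ‖cexp (I * (φ x : ℂ))‖ = 1 := by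
    intro x
    rw [mul_comm]
    exact norm_exp_ofReal_mul_I _
  have hA : A ∈ Icc A B := ⟨le_refl _, hAB⟩
  have hB : B ∈ Icc A B := ⟨hAB, le_refl _⟩
  have hinv : ∀ x ∈ Icc A B, ‖(I * (φ1 x : ℂ))⁻¹‖ ≤ 1 / p := by
    intro x hx
    rw [norm_inv, norm_mul, norm_I, one_mul, norm_real, Real.norm_eq_abs, ← one_div]
    exact one_div_le_one_div_of_le hp (hlow x hx)
  have b1 : ‖(I * (φ1 B : ℂ))⁻¹ * cexp (I * (φ B : ℂ)) - (I * (φ1 A : ℂ))⁻¹ * cexp (I * (φ A : ℂ))‖ ≤ 2 / p := by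
    refine (norm_sub_le _ _).trans ?_
    rw [norm_mul, norm_mul, hexp, hexp, mul_one, mul_one]
    have := hinv A hA
    have := hinv B hB
    rw [show 2 / p = 1 / p + 1 / p by ring]
    linarith
  have b2 : ‖∫ x in A..B, -(I * (φ2 x : ℂ)) / (I * (φ1 x : ℂ)) ^ 2 * cexp (I * (φ x : ℂ))‖
      ≤ q / p ^ 2 * |B - A| := by
    apply intervalIntegral.norm_integral_le_of_norm_le_const
    intro x hx
    rw [uIoc_of_le hAB] at hx
    have hx' : x ∈ Icc A B := ⟨hx.1.le, hx.2⟩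
    rw [norm_mul, hexp, mul_one, norm_div, norm_neg, norm_pow, norm_mul, norm_mul, norm_I, one_mul,
      one_mul, norm_real, norm_real, Real.norm_eq_abs, Real.norm_eq_abs]
    have hq : 0 ≤ q := (abs_nonneg _).trans (hup x hx')
    exact div_le_div₀ hq (hup x hx') (by positivity) (pow_le_pow_left₀ hp.le (hlow x hx') 2)
  rw [abs_of_nonneg (by linarith)] at b2
  refine (norm_sub_le _ _).trans ?_
  have : q / p ^ 2 * (B - A) = q * (B - A) / p ^ 2 := by ring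
  linarith

theorem osc_gen (α : ℝ) (h0 : 0 < α) (h1 : α < 1) (φ φ1 φ2 : ℝ → ℝ)
    (hφ : ∀ x, 0 < x → HasDerivAt φ (φ1 x) x) (hφ1 : ∀ x, 0 < x → HasDerivAt φ1 (φ2 x) x)
    (hφ2 : ContinuousOn φ2 (Ioi 0)) (l1 l2 : ℝ) (hl1 : l1 ≠ 0)
    (t1 : Tendsto (fun x => x ^ α * φ1 x) atTop (𝓝 l1))
    (t2 : Tendsto (fun x => x ^ (α + 1) * φ2 x) atTop (𝓝 l2)) (ε : ℝ) (hε : 0 < ε) :
    ∃ T₀ : ℝ, 1 ≤ T₀ ∧ ∀ T : ℝ, T₀ ≤ T → ‖∫ x in T..(2 * T), cexp (I * (φ x : ℂ))‖ ≤ ε * T := by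
  obtain ⟨p0, hp0⟩ : ∃ p0, p0 = |l1| / 2 := ⟨_, rfl⟩
  have hp0pos : 0 < p0 := by rw [hp0]; have := abs_pos.mpr hl1; linarith
  obtain ⟨Cq, hCq⟩ : ∃ Cq, Cq = |l2| + 1 := ⟨_, rfl⟩
  have hC0 : 0 ≤ Cq := by rw [hCq]; positivity
  have ev1 : ∀ᶠ x in atTop, p0 ≤ |x ^ α * φ1 x| := by
    have := t1.abs
    have h2 : p0 < |l1| := by rw [hp0]; have := abs_pos.mpr hl1; linarith
    exact (this.eventually (lt_mem_nhds h2)).mono fun x hx => hx.le
  have ev2 : ∀ᶠ x in atTop, |x ^ (α + 1) * φ2 x| ≤ Cq := by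
    have := t2.abs
    have h2 : |l2| < Cq := by rw [hCq]; linarith
    exact (this.eventually (gt_mem_nhds h2)).mono fun x hx => hx.le
  obtain ⟨K, hK⟩ : ∃ K, K = 2 * (2 : ℝ) ^ α / p0 + Cq * ((2 : ℝ) ^ α) ^ 2 / p0 ^ 2 := ⟨_, rfl⟩
  have ev3 : ∀ᶠ x : ℝ in atTop, K / ε ≤ x ^ (1 - α) :=
    (tendsto_rpow_atTop (by linarith : 0 < 1 - α)).eventually_ge_atTop _
  obtain ⟨a1, ha1⟩ := eventually_atTop.mp (ev1.and (ev2.and ev3))
  refine ⟨max 1 a1, le_max_left _ _, fun T hT => ?_⟩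
  have hT1 : 1 ≤ T := (le_max_left _ _).trans hT
  have hTa : a1 ≤ T := (le_max_right _ _).trans hT
  have hTpos : 0 < T := by linarith
  have hm := osc_parts φ φ1 φ2 T (2 * T) (p0 / (2 * T) ^ α) (Cq / T ^ (α + 1)) (by linarith)
    (by positivity)
    (fun x hx => hφ x (by have := hx.1; linarith)) (fun x hx => hφ1 x (by have := hx.1; linarith))
    (hφ2.mono (fun x hx => by have := hx.1; simp only [mem_Ioi]; linarith))
    (fun x hx => by
      have hx0 : 0 < x := by have := hx.1; linarith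
      have h2 := (ha1 x (hTa.trans hx.1)).1
      rw [abs_mul, abs_of_pos (Real.rpow_pos_of_pos hx0 _)] at h2
      have h3 : x ^ α ≤ (2 * T) ^ α := Real.rpow_le_rpow hx0.le hx.2 h0.le
      rw [div_le_iff₀ (by positivity)]
      calc p0 ≤ x ^ α * |φ1 x| := h2
        _ ≤ (2 * T) ^ α * |φ1 x| := mul_le_mul_of_nonneg_right h3 (abs_nonneg _)
        _ = |φ1 x| * (2 * T) ^ α := mul_comm _ _)
    (fun x hx => by
      have hx0 : 0 < x := by have := hx.1; linarith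
      have h2 := (ha1 x (hTa.trans hx.1)).2.1
      rw [abs_mul, abs_of_pos (Real.rpow_pos_of_pos hx0 _)] at h2
      have h3 : T ^ (α + 1) ≤ x ^ (α + 1) := Real.rpow_le_rpow hTpos.le hx.1 (by linarith)
      rw [le_div_iff₀ (by positivity)]
      calc |φ2 x| * T ^ (α + 1) ≤ |φ2 x| * x ^ (α + 1) := mul_le_mul_of_nonneg_left h3 (abs_nonneg _)
        _ = x ^ (α + 1) * |φ2 x| := mul_comm _ _
        _ ≤ Cq := h2)
  refine hm.trans ?_
  have h4 := (ha1 T hTa).2.2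
  have eT : T ^ (α + 1) = T ^ α * T := by
    rw [Real.rpow_add hTpos, Real.rpow_one]
  have e2T : (2 * T) ^ α = 2 ^ α * T ^ α := Real.mul_rpow (by norm_num) hTpos.le
  have eTT : T ^ (1 - α) * T ^ α = T := by
    rw [← Real.rpow_add hTpos]
    simp
  have hTα : 0 < T ^ α := Real.rpow_pos_of_pos hTpos _
  have h2α : (0 : ℝ) < 2 ^ α := Real.rpow_pos_of_pos (by norm_num) _
  have key : 2 / (p0 / (2 * T) ^ α) + Cq / T ^ (α + 1) * (2 * T - T) / (p0 / (2 * T) ^ α) ^ 2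
      = K * T ^ α := by
    rw [eT, e2T, hK]
    field_simp
    ring
  rw [key]
  rw [div_le_iff₀ hε] at h4
  calc K * T ^ α ≤ (T ^ (1 - α) * ε) * T ^ α := mul_le_mul_of_nonneg_right h4 hTα.le
    _ = ε * (T ^ (1 - α) * T ^ α) := by ring
    _ = ε * T := by rw [eTT]

theorem osc_int (η γ δ : ℝ) (h : γ ≠ 0 ∨ δ ≠ 0) (ε : ℝ) (hε : 0 < ε) : ∃ T₀ : ℝ, 1 ≤ T₀ ∧ ∀ T : ℝ, T₀ ≤ T →
    ‖∫ x in T..(2 * T), cexp (I * ((η * Real.log x + γ * x ^ ((1 : ℝ) / 2) + δ * x ^ ((1 : ℝ) / 3) : ℝ) : ℂ))‖ ≤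
      ε * T := by
  have d0 : ∀ x : ℝ, 0 < x → HasDerivAt
      (fun x : ℝ => η * Real.log x + γ * x ^ ((1 : ℝ) / 2) + δ * x ^ ((1 : ℝ) / 3))
      (η * x ^ (-1 : ℝ) + γ * (1 / 2) * x ^ (-(1 : ℝ) / 2) + δ * (1 / 3) * x ^ (-(2 : ℝ) / 3)) x := by
    intro x hx
    have a1 := (Real.hasDerivAt_log hx.ne').const_mul η
    have a2 := (Real.hasDerivAt_rpow_const (x := x) (p := (1 : ℝ) / 2) (Or.inl hx.ne')).const_mul γ
    have a3 := (Real.hasDerivAt_rpow_const (x := x) (p := (1 : ℝ) / 3) (Or.inl hx.ne')).const_mul δ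
    refine ((a1.fun_add a2).fun_add a3).congr_deriv ?_
    rw [Real.rpow_neg_one, show (1 : ℝ) / 2 - 1 = -1 / 2 by norm_num,
      show (1 : ℝ) / 3 - 1 = -2 / 3 by norm_num]
    ring
  have d1 : ∀ x : ℝ, 0 < x → HasDerivAt
      (fun x : ℝ => η * x ^ (-1 : ℝ) + γ * (1 / 2) * x ^ (-(1 : ℝ) / 2) + δ * (1 / 3) * x ^ (-(2 : ℝ) / 3))
      (-η * x ^ (-2 : ℝ) + -(γ / 4) * x ^ (-(3 : ℝ) / 2) + -(2 * δ / 9) * x ^ (-(5 : ℝ) / 3)) x := by
    intro x hx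
    have a1 := (Real.hasDerivAt_rpow_const (x := x) (p := (-1 : ℝ)) (Or.inl hx.ne')).const_mul η
    have a2 := (Real.hasDerivAt_rpow_const (x := x) (p := -(1 : ℝ) / 2) (Or.inl hx.ne')).const_mul (γ * (1 / 2))
    have a3 := (Real.hasDerivAt_rpow_const (x := x) (p := -(2 : ℝ) / 3) (Or.inl hx.ne')).const_mul (δ * (1 / 3))
    refine ((a1.fun_add a2).fun_add a3).congr_deriv ?_
    rw [show (-1 : ℝ) - 1 = -2 by norm_num, show -(1 : ℝ) / 2 - 1 = -3 / 2 by norm_num,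
      show -(2 : ℝ) / 3 - 1 = -5 / 3 by norm_num]
    ring
  have cr : ∀ r : ℝ, ContinuousOn (fun x : ℝ => x ^ r) (Ioi 0) := fun r x hx =>
    (Real.continuousAt_rpow_const x r (Or.inl (ne_of_gt hx))).continuousWithinAt
  have c2 : ContinuousOn (fun x : ℝ => -η * x ^ (-2 : ℝ) + -(γ / 4) * x ^ (-(3 : ℝ) / 2)
      + -(2 * δ / 9) * x ^ (-(5 : ℝ) / 3)) (Ioi 0) :=
    ((continuousOn_const.mul (cr _)).add (continuousOn_const.mul (cr _))).add
      (continuousOn_const.mul (cr _))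
  have tz : ∀ r : ℝ, r < 0 → Tendsto (fun x : ℝ => x ^ r) atTop (𝓝 0) := by
    intro r hr
    have := tendsto_rpow_neg_atTop (y := -r) (by linarith)
    simpa using this
  have gen : ∀ (a b c r1 r2 r3 s : ℝ), ∀ᶠ x : ℝ in atTop,
      a * x ^ (s + r1) + b * x ^ (s + r2) + c * x ^ (s + r3)
      = x ^ s * (a * x ^ r1 + b * x ^ r2 + c * x ^ r3) := by
    intro a b c r1 r2 r3 s
    filter_upwards [eventually_gt_atTop 0] with x hx
    rw [Real.rpow_add hx, Real.rpow_add hx, Real.rpow_add hx]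
    ring
  by_cases hγ : γ = 0
  · have hδ : δ ≠ 0 := h.resolve_left (fun h' => h' hγ)
    refine osc_gen (2 / 3) (by norm_num) (by norm_num) _ _ _ d0 d1 c2 (δ * (1 / 3)) (-(2 * δ / 9))
      (mul_ne_zero hδ (by norm_num)) ?_ ?_ ε hε
    · refine Tendsto.congr' (gen _ _ _ _ _ _ _) ?_
      rw [hγ]
      have z1 := (tz (2 / 3 + -1) (by norm_num)).const_mul η
      have z3 : (2 : ℝ) / 3 + -2 / 3 = 0 := by norm_num
      rw [z3]
      simpa using z1.add_const (δ * (1 / 3))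
    · refine Tendsto.congr' (gen _ _ _ _ _ _ _) ?_
      rw [hγ]
      have z1 := (tz (2 / 3 + 1 + -2) (by norm_num)).const_mul (-η)
      have z3 : (2 : ℝ) / 3 + 1 + -5 / 3 = 0 := by norm_num
      rw [z3]
      simpa using z1.add_const (-(2 * δ / 9))
  · refine osc_gen (1 / 2) (by norm_num) (by norm_num) _ _ _ d0 d1 c2 (γ * (1 / 2)) (-(γ / 4))
      (mul_ne_zero hγ (by norm_num)) ?_ ?_ ε hε
    · refine Tendsto.congr' (gen _ _ _ _ _ _ _) ?_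
      have z1 := (tz (1 / 2 + -1) (by norm_num)).const_mul η
      have z2 : (1 : ℝ) / 2 + -1 / 2 = 0 := by norm_num
      have z3 := (tz (1 / 2 + -2 / 3) (by norm_num)).const_mul (δ * (1 / 3))
      rw [z2]
      have := (z1.add_const (γ * (1 / 2))).add z3
      simpa using this
    · refine Tendsto.congr' (gen _ _ _ _ _ _ _) ?_
      have z1 := (tz (1 / 2 + 1 + -2) (by norm_num)).const_mul (-η)
      have z2 : (1 : ℝ) / 2 + 1 + -3 / 2 = 0 := by norm_num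
      have z3 := (tz (1 / 2 + 1 + -5 / 3) (by norm_num)).const_mul (-(2 * δ / 9))
      rw [z2]
      have := (z1.add_const (-(γ / 4))).add z3
      simpa using this

end Pool.Agent.H15.SC
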