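import Pool.Agent.H15.SC.Gauss
import Pool.Agent.H15.SC.Planch
import Pool.Agent.H15.SC.Shift
import Pool.Agent.H15.SC.Vq

/-!
# SC-05  smoothing = Gaussian factor on the Mellin side; Plancherel for `E - E_W` and for increments
(project SC, MP_be4568_nt)

`sm_eq`: Fubini.  `K(s) = ∫_1^∞ E(x) x^{-s-1} dx` at `re s = 2` (`P.mellin`), insert, exchange the integrals and use
`gW_fourier` with `u = log (x / y)`; then substitute `y = x e^{-u}`.

`hf_smooth`, `hf_inc`: for `V → ∞` the functions `sm V Ep (x) - sm W (sm V Ep) (x)` resp.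
`sm V Ep (x e^v) - sm V Ep (x)` are `vint` of `(K1 + k0/s) e^{s²/V²} (1 - e^{s²/W²})` resp. `(.. )(e^{sv} - 1)` on
the line `2`, and (shift, no pole for `re s > 0`) on the line `1/2`; `sm W (sm V Ep)` has the factor
`e^{s²/W²} e^{s²/V²}` (Fubini again, or `gW W * gW V = gW` of the harmonic sum).  `vint_planch` and Fatou
(`sm V Ep x → Ep x` at every continuity point of `Ep`, i.e. almost everywhere: `P.E_cont`, the exceptional points are
integers; `P.E_meas`, `P.E_bound`).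
Factor `e^{s²/V²}`: norm `≤ e^{1/(4V²)}` on the line `1/2`, tends to `1`.
-/

set_option autoImplicit false

open Complex Filter Topology MeasureTheory Set
open scoped ComplexConjugate

namespace Pool.Agent.H15.SC

variable {D : SelData}

theorem smo_cpow {y : ℝ} (hy : 0 < y) (s : ℂ) : (y : ℂ) ^ s = cexp ((Real.log y : ℂ) * s) := by
  rw [Complex.cpow_def_of_ne_zero (Complex.ofReal_ne_zero.2 hy.ne'), ← Complex.ofReal_log hy.le]

theorem smo_Ep_bound (P : Core D) : ∃ C : ℝ, 0 ≤ C ∧ ∀ y : ℝ, 0 < y → |D.Ep y| ≤ C * y ^ ((3 : ℝ) / 2) := by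
  obtain ⟨C, hC, h⟩ := P.E_bound
  refine ⟨C, hC, fun y hy => ?_⟩
  unfold SelData.Ep
  split_ifs with h1
  · exact h y h1
  · rw [abs_zero]; positivity

theorem smo_ln_continuous (σ : ℝ) : Continuous (ln σ) := by
  unfold ln; fun_prop

/-- the Mellin transform after the substitution `y = x e^{-u}` -/
theorem smo_mellin (P : Core D) {x : ℝ} (hx : 0 < x) (s : ℂ) (hs : s.re = 2) :
    (P.K1 s + P.k0 / s) * (x : ℂ) ^ s =
      ∫ u : ℝ, (D.Ep (x * Real.exp (-u)) : ℂ) * cexp (s * u) := by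
  have h1 : P.K1 s + P.k0 / s = ∫ y in Ioi (0 : ℝ), (D.Ep y : ℂ) * (y : ℂ) ^ (-s - 1) := by
    rw [← P.mellin s hs]
    have h2 : ∫ y in Ioi (0 : ℝ), (D.Ep y : ℂ) * (y : ℂ) ^ (-s - 1) =
        ∫ y in Ici (1 : ℝ), (D.Ep y : ℂ) * (y : ℂ) ^ (-s - 1) := by
      refine setIntegral_eq_of_subset_of_forall_diff_eq_zero measurableSet_Ioi
        (fun y (hy : (1 : ℝ) ≤ y) => (lt_of_lt_of_le one_pos hy : (0 : ℝ) < y)) ?_
      intro y hy
      have h3 : ¬ 1 ≤ y := fun h => hy.2 h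
      simp [SelData.Ep, h3]
    rw [h2, integral_Ici_eq_integral_Ioi]
    refine setIntegral_congr_fun measurableSet_Ioi ?_
    intro y hy
    have h3 : 1 ≤ y := le_of_lt hy
    simp [SelData.Ep, h3]
  have himg : (fun u : ℝ => x * Real.exp (-u)) '' univ = Ioi 0 := by
    ext y
    constructor
    · rintro ⟨u, -, rfl⟩
      exact mul_pos hx (Real.exp_pos _)
    · intro hy
      refine ⟨-(Real.log (y / x)), trivial, ?_⟩
      show x * Real.exp (- -(Real.log (y / x))) = y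
      rw [neg_neg, Real.exp_log (div_pos hy hx)]
      field_simp
  have hder : ∀ u ∈ (univ : Set ℝ), HasDerivWithinAt (fun u : ℝ => x * Real.exp (-u))
      (-(x * Real.exp (-u))) univ u := by
    intro u _
    have h3 := ((Real.hasDerivAt_exp (-u)).comp u (hasDerivAt_neg u)).const_mul x
    have h4 : x * (Real.exp (-u) * -1) = -(x * Real.exp (-u)) := by ring
    rw [h4] at h3
    exact h3.hasDerivWithinAt
  have hinj : InjOn (fun u : ℝ => x * Real.exp (-u)) univ := by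
    intro a _ b _ hab
    have h3 := Real.exp_injective (mul_left_cancel₀ hx.ne' hab)
    linarith
  have h2 := integral_image_eq_integral_abs_deriv_smul MeasurableSet.univ hder hinj
    (fun y => (D.Ep y : ℂ) * (y : ℂ) ^ (-s - 1))
  rw [himg] at h2
  rw [h1, h2, Measure.restrict_univ, ← integral_mul_const]
  refine integral_congr_ae (Eventually.of_forall fun u => ?_)
  have hy : 0 < x * Real.exp (-u) := mul_pos hx (Real.exp_pos _)
  have h4 : |-(x * Real.exp (-u))| = Real.exp (Real.log x - u) := by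
    rw [abs_neg, abs_of_pos hy, Real.exp_sub, Real.exp_log hx, Real.exp_neg]
    ring
  have h5 : Real.log (x * Real.exp (-u)) = Real.log x - u := by
    rw [Real.log_mul hx.ne' (Real.exp_pos _).ne', Real.log_exp]; ring
  show |-(x * Real.exp (-u))| • ((D.Ep (x * Real.exp (-u)) : ℂ) *
    ((x * Real.exp (-u) : ℝ) : ℂ) ^ (-s - 1)) * (x : ℂ) ^ s = _
  rw [smo_cpow hy, smo_cpow hx, h5, h4, Complex.real_smul, Complex.ofReal_exp]
  have h6 : cexp (((Real.log x - u : ℝ) : ℂ)) * cexp (((Real.log x - u : ℝ) : ℂ) * (-s - 1)) *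
      cexp ((Real.log x : ℂ) * s) = cexp (s * u) := by
    rw [← Complex.exp_add, ← Complex.exp_add]
    congr 1
    push_cast
    ring
  show _ = (D.Ep (x * Real.exp (-u)) : ℂ) * cexp (s * u)
  rw [← h6]
  ring

theorem smo_integrable (P : Core D) {x : ℝ} (hx : 0 < x) :
    Integrable (fun u : ℝ => |D.Ep (x * Real.exp (-u))| * Real.exp (2 * u)) := by
  obtain ⟨C, hC, hb⟩ := smo_Ep_bound P
  have hI : Integrable (indicator (Iic (Real.log x))
      (fun u : ℝ => C * x ^ ((3 : ℝ) / 2) * Real.exp ((1 / 2) * u))) := by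
    rw [integrable_indicator_iff measurableSet_Iic]
    exact (integrableOn_exp_mul_Iic (by norm_num) _).const_mul _
  refine hI.mono' ?_ (Eventually.of_forall fun u => ?_)
  · exact (((P.E_meas.comp (by fun_prop)).norm).mul (by fun_prop)).aestronglyMeasurable
  · by_cases hu : u ≤ Real.log x
    · rw [indicator_of_mem (mem_Iic.2 hu)]
      have h1 := hb (x * Real.exp (-u)) (by positivity)
      rw [Real.mul_rpow hx.le (Real.exp_pos _).le, ← Real.exp_mul] at h1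
      rw [norm_mul, Real.norm_eq_abs, abs_abs, Real.norm_eq_abs, abs_of_pos (Real.exp_pos _)]
      calc |D.Ep (x * Real.exp (-u))| * Real.exp (2 * u)
          ≤ C * (x ^ ((3 : ℝ) / 2) * Real.exp (-u * (3 / 2))) * Real.exp (2 * u) := by gcongr
        _ = C * x ^ ((3 : ℝ) / 2) * (Real.exp (-u * (3 / 2)) * Real.exp (2 * u)) := by ring
        _ = C * x ^ ((3 : ℝ) / 2) * Real.exp ((1 / 2) * u) := by
            rw [← Real.exp_add]; congr 2; ring
    · rw [indicator_of_notMem (by simpa using hu)]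
      have h1 : ¬ 1 ≤ x * Real.exp (-u) := by
        intro h2
        apply hu
        have h3 : Real.exp u ≤ x := by
          have h4 := mul_le_mul_of_nonneg_right h2 (Real.exp_pos u).le
          rw [mul_assoc, ← Real.exp_add] at h4
          simpa using h4
        exact (Real.le_log_iff_exp_le hx).2 h3
      simp [SelData.Ep, h1]

theorem sm_eq (P : Core D) {W : ℝ} (hW : 0 < W) {x : ℝ} (hx : 0 < x) :
    (sm W D.Ep x : ℂ) =
      vint (fun t => (P.K1 (ln 2 t) + P.k0 / ln 2 t) * cexp ((ln 2 t) ^ 2 / (W : ℂ) ^ 2)) 2 x := by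
  unfold vint
  have h1 : ∀ t : ℝ, (P.K1 (ln 2 t) + P.k0 / ln 2 t) * cexp ((ln 2 t) ^ 2 / (W : ℂ) ^ 2) *
      (x : ℂ) ^ (ln 2 t) = ∫ u : ℝ, (D.Ep (x * Real.exp (-u)) : ℂ) * cexp (ln 2 t * u) *
        cexp ((ln 2 t) ^ 2 / (W : ℂ) ^ 2) := by
    intro t
    rw [integral_mul_const, ← smo_mellin P hx _ (ln_re 2 t)]
    ring
  simp_rw [h1]
  rw [integral_integral_swap]
  · have h2 : ∀ u : ℝ, ∫ t : ℝ, (D.Ep (x * Real.exp (-u)) : ℂ) * cexp (ln 2 t * u) *
        cexp ((ln 2 t) ^ 2 / (W : ℂ) ^ 2) =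
        (D.Ep (x * Real.exp (-u)) : ℂ) * (2 * Real.pi * gW W u) := by
      intro u
      rw [← (gW_fourier hW 2 u).2, ← integral_const_mul]
      refine integral_congr_ae (Eventually.of_forall fun t => ?_)
      ring
    simp_rw [h2]
    unfold sm
    rw [← integral_complex_ofReal, ← integral_const_mul]
    refine integral_congr_ae (Eventually.of_forall fun u => ?_)
    have hpi : (Real.pi : ℂ) ≠ 0 := by exact_mod_cast Real.pi_ne_zero
    show ((D.Ep (x * Real.exp (-u)) * gW W u : ℝ) : ℂ) = ((1 / (2 * Real.pi) : ℝ) : ℂ) *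
      ((D.Ep (x * Real.exp (-u)) : ℂ) * (2 * Real.pi * gW W u))
    push_cast
    field_simp
  · have hA := (gW_fourier hW 2 0).1
    have hB := smo_integrable P hx
    refine (Integrable.mul_prod hA.norm hB).mono' ?_ (Eventually.of_forall fun p => ?_)
    · have hm1 : Measurable (fun p : ℝ × ℝ => (D.Ep (x * Real.exp (-p.2)) : ℂ)) :=
        Complex.measurable_ofReal.comp (P.E_meas.comp (by fun_prop))
      have hm2 : Continuous (fun p : ℝ × ℝ => cexp (ln 2 p.1 * p.2) *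
          cexp ((ln 2 p.1) ^ 2 / (W : ℂ) ^ 2)) := by
        have := smo_ln_continuous 2
        fun_prop
      have hm3 := (hm1.mul hm2.measurable).aestronglyMeasurable (μ := (volume.prod volume : Measure (ℝ × ℝ)))
      refine hm3.congr (Eventually.of_forall fun p => ?_)
      simp only [Function.uncurry, Pi.mul_apply]
      ring
    · obtain ⟨t, u⟩ := p
      simp only [Function.uncurry]
      rw [norm_mul, norm_mul, norm_mul, Complex.norm_real, Real.norm_eq_abs, Complex.norm_exp,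
        Complex.norm_exp, Complex.norm_exp]
      have h3 : (ln 2 t * (u : ℂ)).re = 2 * u := by
        simp [Complex.mul_re]
      rw [h3]
      simp only [Complex.ofReal_zero, mul_zero, Complex.zero_re, Real.exp_zero, mul_one]
      exact le_of_eq (by ring)

theorem smo_gW_scale {V : ℝ} (u : ℝ) : gW V u = V * gW 1 (V * u) := by
  unfold gW
  rw [one_mul]
  ring

theorem smo_scale {V : ℝ} (hV : 0 < V) (g : ℝ → ℝ) (x : ℝ) :
    sm V g x = ∫ w : ℝ, g (x * Real.exp (-(V⁻¹ * w))) * gW 1 w := by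
  have h := Measure.integral_comp_mul_left (fun w : ℝ => g (x * Real.exp (-(V⁻¹ * w))) * gW 1 w) V
  have h2 : ∫ w : ℝ, g (x * Real.exp (-(V⁻¹ * w))) * gW 1 w =
      V * ∫ u : ℝ, g (x * Real.exp (-(V⁻¹ * (V * u)))) * gW 1 (V * u) := by
    rw [h, abs_of_pos (inv_pos.2 hV), smul_eq_mul, mul_inv_cancel_left₀ hV.ne']
  rw [h2, ← integral_const_mul]
  unfold sm
  refine integral_congr_ae (Eventually.of_forall fun u => ?_)
  show g (x * Real.exp (-u)) * gW V u = V * (g (x * Real.exp (-(V⁻¹ * (V * u)))) * gW 1 (V * u))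
  rw [inv_mul_cancel_left₀ hV.ne', smo_gW_scale (V := V) u]
  ring

theorem smo_tendsto (P : Core D) {x : ℝ} (hx : 0 < x) (c : ℕ → ℝ) (c0 : ℝ)
    (hc : ∀ n, 0 ≤ c n ∧ c n ≤ 2) (hlim : Tendsto c atTop (𝓝 c0))
    (hcont : ∀ᵐ w : ℝ, ContinuousAt D.Ep (x * Real.exp (-(c0 * w)))) :
    Tendsto (fun n => ∫ w : ℝ, D.Ep (x * Real.exp (-(c n * w))) * gW 1 w) atTop
      (𝓝 (∫ w : ℝ, D.Ep (x * Real.exp (-(c0 * w))) * gW 1 w)) := by
  obtain ⟨C, hC, hb⟩ := smo_Ep_bound P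
  obtain ⟨C', hC', hg⟩ := gW_exp 3 (by norm_num)
  have hI := ((hg 1 le_rfl).1).const_mul (C * x ^ ((3 : ℝ) / 2))
  refine tendsto_integral_of_dominated_convergence
    (fun w => C * x ^ ((3 : ℝ) / 2) * (gW 1 w * Real.exp (3 * |w|))) ?_ hI ?_ ?_
  · intro n
    have hm : Measurable (fun w : ℝ => D.Ep (x * Real.exp (-(c n * w)))) :=
      P.E_meas.comp (by fun_prop)
    exact (hm.mul (gW_continuous 1).measurable).aestronglyMeasurable
  · intro n
    filter_upwards with w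
    have hg0 := gW_nonneg zero_le_one w
    rw [norm_mul, Real.norm_eq_abs, Real.norm_eq_abs, abs_of_nonneg hg0]
    have h1 := hb (x * Real.exp (-(c n * w))) (by positivity)
    have h2 : (x * Real.exp (-(c n * w))) ^ ((3 : ℝ) / 2) ≤
        x ^ ((3 : ℝ) / 2) * Real.exp (3 * |w|) := by
      rw [Real.mul_rpow hx.le (Real.exp_pos _).le, ← Real.exp_mul]
      have h3 : -(c n * w) ≤ 2 * |w| := by
        have h4 : -(c n * w) ≤ |c n * w| := neg_le_abs _
        rw [abs_mul, abs_of_nonneg (hc n).1] at h4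
        nlinarith [abs_nonneg w, (hc n).2]
      have h5 : -(c n * w) * (3 / 2) ≤ 3 * |w| := by nlinarith
      gcongr
    calc |D.Ep (x * Real.exp (-(c n * w)))| * gW 1 w
        ≤ C * (x ^ ((3 : ℝ) / 2) * Real.exp (3 * |w|)) * gW 1 w := by
          refine mul_le_mul_of_nonneg_right (h1.trans ?_) hg0
          exact mul_le_mul_of_nonneg_left h2 hC
      _ = C * x ^ ((3 : ℝ) / 2) * (gW 1 w * Real.exp (3 * |w|)) := by ring
  · filter_upwards [hcont] with w hw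
    refine Tendsto.mul_const _ ?_
    refine hw.tendsto.comp ?_
    have h1 : Continuous (fun a : ℝ => x * Real.exp (-(a * w))) := by fun_prop
    exact (h1.tendsto c0).comp hlim

theorem smo_contAt (P : Core D) {y : ℝ} (hy : ∀ n : ℕ, y ≠ n) : ContinuousAt D.Ep y := by
  rcases lt_or_ge 1 y with h | h
  · refine (P.E_cont y h hy).congr ?_
    filter_upwards [lt_mem_nhds h] with z hz
    simp [SelData.Ep, hz.le]
  · have h' : y < 1 := lt_of_le_of_ne h (by simpa using hy 1)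
    refine (continuousAt_const (y := (0 : ℝ))).congr ?_
    filter_upwards [gt_mem_nhds h'] with z hz
    simp [SelData.Ep, not_le.2 hz]

theorem smo_ae_ne {φ : ℝ → ℝ} (hφ : Function.Injective φ) : ∀ᵐ w : ℝ, ∀ n : ℕ, φ w ≠ n := by
  have h1 : (φ ⁻¹' (range (Nat.cast : ℕ → ℝ))).Countable := (countable_range _).preimage hφ
  filter_upwards [h1.ae_notMem volume] with w hw n hn
  exact hw ⟨n, hn.symm⟩

/-- `sm V Ep x → Ep x` -/
theorem smo_lim (P : Core D) {x : ℝ} (hx : 0 < x) (hx' : ∀ n : ℕ, x ≠ n) :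
    Tendsto (fun n : ℕ => sm ((n : ℝ) + 1) D.Ep x) atTop (𝓝 (D.Ep x)) := by
  have h := smo_tendsto P hx (fun n => ((n : ℝ) + 1)⁻¹) 0 (fun n => ⟨by positivity, ?_⟩) ?_ ?_
  · simp only [zero_mul, neg_zero, Real.exp_zero, mul_one] at h
    rw [integral_const_mul, (gW_integral one_pos).2, mul_one] at h
    refine h.congr fun n => ?_
    exact (smo_scale (by positivity) D.Ep x).symm
  · have h1 : (1 : ℝ) ≤ (n : ℝ) + 1 := by linarith [(Nat.cast_nonneg n : (0 : ℝ) ≤ n)]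
    have h2 : ((n : ℝ) + 1)⁻¹ ≤ 1 := inv_le_one_of_one_le₀ h1
    linarith
  · have := tendsto_one_div_add_atTop_nhds_zero_nat (𝕜 := ℝ)
    simpa [one_div] using this
  · filter_upwards with w
    simpa using smo_contAt P hx'

/-- the parameter of the composed Gaussian -/
noncomputable def smo_c (W : ℝ) (n : ℕ) : ℝ := Real.sqrt (1 / ((n : ℝ) + 1) ^ 2 + 1 / W ^ 2)

theorem smo_c_pos {W : ℝ} (n : ℕ) : 0 < smo_c W n := by
  unfold smo_c
  apply Real.sqrt_pos.2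
  positivity

theorem smo_lim' (P : Core D) {W : ℝ} (hW : 1 ≤ W) {x : ℝ} (hx : 0 < x) :
    Tendsto (fun n : ℕ => sm (smo_c W n)⁻¹ D.Ep x) atTop (𝓝 (sm W D.Ep x)) := by
  have hW0 : 0 < W := by linarith
  have h := smo_tendsto P hx (smo_c W) W⁻¹ (fun n => ⟨(smo_c_pos n).le, ?_⟩) ?_ ?_
  · rw [← smo_scale hW0] at h
    refine h.congr fun n => ?_
    rw [smo_scale (inv_pos.2 (smo_c_pos n)), inv_inv]
  · unfold smo_c
    apply Real.sqrt_le_iff.2
    refine ⟨by norm_num, ?_⟩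
    have h1 : (1 : ℝ) ≤ ((n : ℝ) + 1) ^ 2 := by
      have : (0 : ℝ) ≤ n := Nat.cast_nonneg n
      nlinarith
    have h2 : (1 : ℝ) ≤ W ^ 2 := by nlinarith
    have h3 : 1 / ((n : ℝ) + 1) ^ 2 ≤ 1 := by
      rw [div_le_one (by positivity)]; exact h1
    have h4 : 1 / W ^ 2 ≤ 1 := by
      rw [div_le_one (by positivity)]; exact h2
    linarith
  · have h1 : Tendsto (fun n : ℕ => 1 / ((n : ℝ) + 1) ^ 2 + 1 / W ^ 2) atTop (𝓝 (0 + 1 / W ^ 2)) := by
      refine Tendsto.add_const _ ?_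
      have h2 := (tendsto_one_div_add_atTop_nhds_zero_nat (𝕜 := ℝ)).pow 2
      simpa [one_div] using h2
    have h2 := (Real.continuous_sqrt.tendsto _).comp h1
    have h3 : Real.sqrt (0 + 1 / W ^ 2) = W⁻¹ := by
      rw [zero_add, one_div, Real.sqrt_inv, Real.sqrt_sq hW0.le]
    rw [h3] at h2
    exact h2
  · have hinj : Function.Injective (fun w : ℝ => x * Real.exp (-(W⁻¹ * w))) := by
      intro a b hab
      have h3 := Real.exp_injective (mul_left_cancel₀ hx.ne' hab)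
      have h4 : W⁻¹ * a = W⁻¹ * b := by linarith
      exact mul_left_cancel₀ (inv_pos.2 hW0).ne' h4
    filter_upwards [smo_ae_ne hinj] with w hw
    exact smo_contAt P hw

theorem smo_strip (P : Core D) : ∃ A C : ℝ, 0 ≤ A ∧ 0 ≤ C ∧ ∀ s : ℂ, 1 / 2 ≤ s.re → s.re ≤ 2 →
    ‖P.K1 s + P.k0 / s‖ ≤ C * (1 + |s.im|) ^ A := by
  obtain ⟨A, C, hA, hC, h⟩ := P.growth
  refine ⟨A, C + 2 * ‖P.k0‖, hA, by positivity, fun s h1 h2 => ?_⟩
  have hs : 1 / 2 ≤ ‖s‖ := h1.trans (Complex.re_le_norm s)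
  have h3 : ‖P.k0 / s‖ ≤ 2 * ‖P.k0‖ := by
    rw [norm_div, div_le_iff₀ (by linarith)]
    nlinarith [norm_nonneg P.k0]
  have h4 : 1 ≤ (1 + |s.im|) ^ A := Real.one_le_rpow (by linarith [abs_nonneg s.im]) hA
  calc _ ≤ ‖P.K1 s‖ + ‖P.k0 / s‖ := norm_add_le _ _
    _ ≤ C * (1 + |s.im|) ^ A + 2 * ‖P.k0‖ := add_le_add (h s (by linarith) h2) h3
    _ ≤ _ := by nlinarith [norm_nonneg P.k0]

theorem smo_diff (P : Core D) (V : ℝ) :
    DifferentiableOn ℂ (fun s : ℂ => (P.K1 s + P.k0 / s) * cexp (s ^ 2 / (V : ℂ) ^ 2))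
      {z : ℂ | 1 / 2 ≤ z.re ∧ z.re ≤ 2} := by
  intro s hs
  have hs0 : s ≠ 0 := by
    rintro rfl
    have := hs.1
    simp at this
    linarith
  have h1 : DifferentiableAt ℂ (fun s : ℂ => P.k0 / s) s :=
    (differentiableAt_const _).div differentiableAt_id hs0
  have h2 : DifferentiableAt ℂ (fun s : ℂ => cexp (s ^ 2 / (V : ℂ) ^ 2)) s := by fun_prop
  exact (((P.K1_diff s).add h1).mul h2).differentiableWithinAt

theorem smo_bound (P : Core D) {V : ℝ} (hV : 0 < V) : ∃ C : ℝ, 0 ≤ C ∧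
    ∀ s : ℂ, 1 / 2 ≤ s.re → s.re ≤ 2 →
      ‖(P.K1 s + P.k0 / s) * cexp (s ^ 2 / (V : ℂ) ^ 2)‖ ≤ C * Real.exp (-|s.im|) := by
  obtain ⟨A, C, hA, hC, h⟩ := smo_strip P
  obtain ⟨C2, hC2, h2⟩ := poly_gauss_le A hV
  refine ⟨C * (Real.exp (4 / V ^ 2) * C2), by positivity, fun s h3 h4 => ?_⟩
  have h5 : ‖cexp (s ^ 2 / (V : ℂ) ^ 2)‖ = Real.exp ((s.re ^ 2 - s.im ^ 2) / V ^ 2) := by
    have h6 := norm_expQ V s.re s.im
    have h7 : ln s.re s.im = s := by
      unfold ln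
      exact Complex.re_add_im s
    rwa [h7] at h6
  rw [norm_mul, h5]
  have h6 : Real.exp ((s.re ^ 2 - s.im ^ 2) / V ^ 2) ≤
      Real.exp (4 / V ^ 2) * Real.exp (-(s.im ^ 2 / V ^ 2)) := by
    rw [← Real.exp_add]
    apply Real.exp_le_exp.2
    have h7 : s.re ^ 2 ≤ 4 := by nlinarith
    have h8 : (s.re ^ 2 - s.im ^ 2) / V ^ 2 = s.re ^ 2 / V ^ 2 - s.im ^ 2 / V ^ 2 := by ring
    have h9 : s.re ^ 2 / V ^ 2 ≤ 4 / V ^ 2 := by gcongr
    linarith
  calc ‖P.K1 s + P.k0 / s‖ * Real.exp ((s.re ^ 2 - s.im ^ 2) / V ^ 2)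
      ≤ (C * (1 + |s.im|) ^ A) * (Real.exp (4 / V ^ 2) * Real.exp (-(s.im ^ 2 / V ^ 2))) := by
        refine mul_le_mul (h s h3 h4) h6 (Real.exp_pos _).le ?_
        positivity
    _ = C * Real.exp (4 / V ^ 2) * ((1 + |s.im|) ^ A * Real.exp (-(s.im ^ 2 / V ^ 2))) := by ring
    _ ≤ C * Real.exp (4 / V ^ 2) * (C2 * Real.exp (-|s.im|)) := by
        refine mul_le_mul_of_nonneg_left (h2 s.im) ?_
        positivity
    _ = C * (Real.exp (4 / V ^ 2) * C2) * Real.exp (-|s.im|) := by ring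

theorem smo_half (P : Core D) {V : ℝ} (hV : 0 < V) {x : ℝ} (hx : 0 < x) :
    (sm V D.Ep x : ℂ) =
      vint (fun t => (P.K1 (ln (1/2) t) + P.k0 / ln (1/2) t) *
        cexp ((ln (1/2) t) ^ 2 / (V : ℂ) ^ 2)) (1/2) x := by
  rw [sm_eq P hV hx]
  obtain ⟨C, hC, hb⟩ := smo_bound P hV
  exact (vint_shift (fun s => (P.K1 s + P.k0 / s) * cexp (s ^ 2 / (V : ℂ) ^ 2)) (1/2) 2 C
    (by norm_num) (smo_diff P V) hb x hx).symm

theorem smo_Kcont (P : Core D) :
    Continuous (fun t : ℝ => P.K1 (ln (1/2) t) + P.k0 / ln (1/2) t) := by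
  have h1 := smo_ln_continuous (1/2)
  have h2 : ∀ t : ℝ, ln (1/2) t ≠ 0 := by
    intro t h
    have := congrArg Complex.re h
    simp at this
  exact (P.K1_diff.continuous.comp h1).add (continuous_const.div h1 h2)

theorem smo_int_exp : Integrable (fun t : ℝ => Real.exp (-|t|)) := by
  obtain ⟨C, hC, h⟩ := gW_exp 0 le_rfl
  have h1 : IntegrableOn (fun t : ℝ => Real.exp (-|t|)) (Iic 0) := by
    refine (integrableOn_exp_mul_Iic one_pos 0).congr_fun ?_ measurableSet_Iic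
    intro t ht
    show Real.exp (1 * t) = Real.exp (-|t|)
    rw [abs_of_nonpos ht]
    congr 1
    ring
  have h2 : IntegrableOn (fun t : ℝ => Real.exp (-|t|)) (Ioi 0) := by
    refine (integrableOn_exp_mul_Ioi (a := -1) (by norm_num) 0).congr_fun ?_ measurableSet_Ioi
    intro t ht
    show Real.exp (-1 * t) = Real.exp (-|t|)
    rw [abs_of_pos ht]
    congr 1
    ring
  rw [← integrableOn_univ, ← Iic_union_Ioi (a := (0 : ℝ))]
  exact h1.union h2

/-- the integrand on the line `1/2` -/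
noncomputable def smo_Φ (P : Core D) (V : ℝ) (Ψ : ℝ → ℂ) (t : ℝ) : ℂ :=
  (P.K1 (ln (1/2) t) + P.k0 / ln (1/2) t) * cexp ((ln (1/2) t) ^ 2 / (V : ℂ) ^ 2) * Ψ t

theorem smo_Φ_cont (P : Core D) (V : ℝ) {Ψ : ℝ → ℂ} (hΨ : Continuous Ψ) :
    Continuous (smo_Φ P V Ψ) := by
  have h1 := smo_ln_continuous (1/2)
  have h2 := smo_Kcont P
  unfold smo_Φ
  exact (h2.mul (by fun_prop)).mul hΨ

theorem smo_Φ_bound (P : Core D) {V : ℝ} (hV : 0 < V) {Ψ : ℝ → ℂ} {B : ℝ}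
    (hB : ∀ t, ‖Ψ t‖ ≤ B) : ∃ C : ℝ, 0 ≤ C ∧ ∀ t, ‖smo_Φ P V Ψ t‖ ≤ C * Real.exp (-|t|) := by
  obtain ⟨C, hC, hb⟩ := smo_bound P hV
  have hB0 : 0 ≤ B := (norm_nonneg _).trans (hB 0)
  refine ⟨C * B, by positivity, fun t => ?_⟩
  unfold smo_Φ
  rw [norm_mul]
  have h1 := hb (ln (1/2) t) (by rw [ln_re]) (by rw [ln_re]; norm_num)
  rw [ln_im] at h1
  calc _ ≤ (C * Real.exp (-|t|)) * B := mul_le_mul h1 (hB t) (norm_nonneg _) (by positivity)
    _ = _ := by ring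

theorem smo_Φ_int (P : Core D) {V : ℝ} (hV : 0 < V) {Ψ : ℝ → ℂ} (hΨ : Continuous Ψ) {B : ℝ}
    (hB : ∀ t, ‖Ψ t‖ ≤ B) : Integrable (smo_Φ P V Ψ) := by
  obtain ⟨C, hC, hb⟩ := smo_Φ_bound P hV hB
  exact (smo_int_exp.const_mul C).mono' (smo_Φ_cont P V hΨ).aestronglyMeasurable
    (Eventually.of_forall hb)

theorem smo_Φ_int2 (P : Core D) {V : ℝ} (hV : 0 < V) {Ψ : ℝ → ℂ} (hΨ : Continuous Ψ) {B : ℝ}
    (hB : ∀ t, ‖Ψ t‖ ≤ B) : Integrable (fun t => ‖smo_Φ P V Ψ t‖ ^ 2) := by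
  obtain ⟨C, hC, hb⟩ := smo_Φ_bound P hV hB
  refine (smo_int_exp.const_mul (C ^ 2)).mono'
    ((smo_Φ_cont P V hΨ).norm.pow 2).aestronglyMeasurable (Eventually.of_forall fun t => ?_)
  rw [Real.norm_eq_abs, abs_of_nonneg (by positivity)]
  have h1 : Real.exp (-|t|) ≤ 1 := Real.exp_le_one_iff.2 (by linarith [abs_nonneg t])
  calc ‖smo_Φ P V Ψ t‖ ^ 2 ≤ (C * Real.exp (-|t|)) ^ 2 := by
        gcongr
        exact hb t
    _ = C ^ 2 * (Real.exp (-|t|) * Real.exp (-|t|)) := by ring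
    _ ≤ C ^ 2 * (Real.exp (-|t|) * 1) := by gcongr
    _ = _ := by ring

theorem smo_cpow_cont (σ : ℝ) {x : ℝ} (hx : 0 < x) : Continuous (fun t : ℝ => (x : ℂ) ^ (ln σ t)) := by
  have h1 := smo_ln_continuous σ
  simp_rw [smo_cpow hx]
  fun_prop

theorem smo_int_cpow {Φ : ℝ → ℂ} (h : Integrable Φ) (σ : ℝ) {x : ℝ} (hx : 0 < x) :
    Integrable (fun t => Φ t * (x : ℂ) ^ (ln σ t)) := by
  refine (h.norm.mul_const (x ^ σ)).mono'
    (h.aestronglyMeasurable.mul (smo_cpow_cont σ hx).aestronglyMeasurable)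
    (Eventually.of_forall fun t => ?_)
  rw [norm_mul, Complex.norm_cpow_eq_rpow_re_of_pos hx, ln_re]

theorem smo_vint_sub {Φ Φ' : ℝ → ℂ} (h : Integrable Φ) (h' : Integrable Φ') (σ : ℝ) {x : ℝ}
    (hx : 0 < x) : vint (fun t => Φ t - Φ' t) σ x = vint Φ σ x - vint Φ' σ x := by
  unfold vint
  rw [← mul_sub, ← integral_sub (smo_int_cpow h σ hx) (smo_int_cpow h' σ hx)]
  congr 1
  refine integral_congr_ae (Eventually.of_forall fun t => ?_)
  ring

/-- Plancherel and Fatou -/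
theorem smo_fatou (P : Core D) (Ψ : ℝ → ℂ) (hΨ : Continuous Ψ) (B : ℝ) (hB : ∀ t, ‖Ψ t‖ ≤ B)
    (L : ℝ → ℝ)
    (hL : ∀ᵐ x ∂(volume.restrict (Ioi (0 : ℝ))),
      Tendsto (fun n : ℕ => vint (smo_Φ P ((n : ℝ) + 1) Ψ) (1/2) x) atTop (𝓝 (L x : ℂ))) :
    ∫⁻ x in Ioi (0 : ℝ), ENNReal.ofReal ((L x) ^ 2 * x ^ (-2 : ℝ)) ≤
      ENNReal.ofReal (1 / (2 * Real.pi)) * ∫⁻ t : ℝ, ENNReal.ofReal
        (‖(P.K1 (ln (1/2) t) + P.k0 / ln (1/2) t) * Ψ t‖ ^ 2) := by
  set R : ENNReal := ∫⁻ t : ℝ, ENNReal.ofReal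
    (‖(P.K1 (ln (1/2) t) + P.k0 / ln (1/2) t) * Ψ t‖ ^ 2) with hR
  have hVpos : ∀ n : ℕ, (0 : ℝ) < (n : ℝ) + 1 := fun n => by positivity
  -- the bound for each `n`
  have hn : ∀ n : ℕ, ∫⁻ x in Ioi (0 : ℝ), ENNReal.ofReal
      (‖vint (smo_Φ P ((n : ℝ) + 1) Ψ) (1/2) x‖ ^ 2 * x ^ (-2 : ℝ)) ≤
      ENNReal.ofReal (1 / (2 * Real.pi)) *
        (ENNReal.ofReal (Real.exp (1 / (2 * ((n : ℝ) + 1) ^ 2))) * R) := by
    intro n
    have h1 := vint_planch (smo_Φ P ((n : ℝ) + 1) Ψ) (smo_Φ_cont P _ hΨ)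
      (smo_Φ_int P (hVpos n) hΨ hB) (smo_Φ_int2 P (hVpos n) hΨ hB) (1/2)
    have h2 : (-1 - 2 * (1 / 2) : ℝ) = -2 := by norm_num
    rw [h2] at h1
    refine h1.trans ?_
    rw [ENNReal.ofReal_mul (by positivity), ofReal_integral_eq_lintegral_ofReal
      (smo_Φ_int2 P (hVpos n) hΨ hB) (Eventually.of_forall fun t => by positivity), hR]
    refine mul_le_mul' le_rfl ?_
    rw [← lintegral_const_mul' _ _ ENNReal.ofReal_ne_top]
    refine lintegral_mono fun t => ?_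
    rw [← ENNReal.ofReal_mul (Real.exp_pos _).le]
    apply ENNReal.ofReal_le_ofReal
    unfold smo_Φ
    rw [norm_mul, norm_mul, norm_mul, norm_expQ]
    have h3 : Real.exp (((1 / 2) ^ 2 - t ^ 2) / ((n : ℝ) + 1) ^ 2) ^ 2 ≤
        Real.exp (1 / (2 * ((n : ℝ) + 1) ^ 2)) := by
      rw [← Real.exp_nat_mul]
      apply Real.exp_le_exp.2
      have h4 := hVpos n
      have h5 : ((2 : ℕ) : ℝ) * (((1 / 2) ^ 2 - t ^ 2) / ((n : ℝ) + 1) ^ 2) =
          1 / (2 * ((n : ℝ) + 1) ^ 2) - 2 * t ^ 2 / ((n : ℝ) + 1) ^ 2 := by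
        push_cast
        field_simp
      rw [h5]
      have h6 : 0 ≤ 2 * t ^ 2 / ((n : ℝ) + 1) ^ 2 := by positivity
      linarith
    calc (‖P.K1 (ln (1/2) t) + P.k0 / ln (1/2) t‖ *
          Real.exp (((1 / 2) ^ 2 - t ^ 2) / ((n : ℝ) + 1) ^ 2) * ‖Ψ t‖) ^ 2
        = Real.exp (((1 / 2) ^ 2 - t ^ 2) / ((n : ℝ) + 1) ^ 2) ^ 2 *
          (‖P.K1 (ln (1/2) t) + P.k0 / ln (1/2) t‖ * ‖Ψ t‖) ^ 2 := by ring
      _ ≤ _ := by gcongr
  -- Fatou
  have hmeas : ∀ n : ℕ, AEMeasurable (fun x : ℝ => ENNReal.ofReal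
      (‖vint (smo_Φ P ((n : ℝ) + 1) Ψ) (1/2) x‖ ^ 2 * x ^ (-2 : ℝ)))
      (volume.restrict (Ioi (0 : ℝ))) := by
    intro n
    have h1 := vint_continuousOn (smo_Φ P ((n : ℝ) + 1) Ψ) (smo_Φ_cont P _ hΨ)
      (smo_Φ_int P (hVpos n) hΨ hB) (1/2)
    have h2 : ContinuousOn (fun x : ℝ => x ^ (-2 : ℝ)) (Ioi (0 : ℝ)) :=
      continuousOn_id.rpow_const fun x hx => Or.inl (ne_of_gt hx)
    exact ((h1.norm.pow 2).mul h2).aemeasurable measurableSet_Ioi |>.ennreal_ofReal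
  have hF := lintegral_liminf_le' (u := atTop) hmeas
  have hae : ∫⁻ x in Ioi (0 : ℝ), ENNReal.ofReal ((L x) ^ 2 * x ^ (-2 : ℝ)) =
      ∫⁻ x in Ioi (0 : ℝ), liminf (fun n : ℕ => ENNReal.ofReal
        (‖vint (smo_Φ P ((n : ℝ) + 1) Ψ) (1/2) x‖ ^ 2 * x ^ (-2 : ℝ))) atTop := by
    refine lintegral_congr_ae ?_
    filter_upwards [hL] with x hx
    have h1 : Tendsto (fun n : ℕ => ENNReal.ofReal
        (‖vint (smo_Φ P ((n : ℝ) + 1) Ψ) (1/2) x‖ ^ 2 * x ^ (-2 : ℝ))) atTop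
        (𝓝 (ENNReal.ofReal (‖(L x : ℂ)‖ ^ 2 * x ^ (-2 : ℝ)))) :=
      (ENNReal.continuous_ofReal.tendsto _).comp (((hx.norm).pow 2).mul_const _)
    rw [h1.liminf_eq, Complex.norm_real, Real.norm_eq_abs, sq_abs]
  rw [hae]
  refine hF.trans ?_
  have hlim : Tendsto (fun n : ℕ => ENNReal.ofReal (1 / (2 * Real.pi)) *
      (ENNReal.ofReal (Real.exp (1 / (2 * ((n : ℝ) + 1) ^ 2))) * R)) atTop
      (𝓝 (ENNReal.ofReal (1 / (2 * Real.pi)) * (1 * R))) := by
    refine ENNReal.Tendsto.const_mul ?_ (Or.inr ENNReal.ofReal_ne_top)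
    refine ENNReal.Tendsto.mul_const ?_ (Or.inl one_ne_zero)
    have h1 : Tendsto (fun n : ℕ => 1 / (2 * ((n : ℝ) + 1) ^ 2)) atTop (𝓝 0) := by
      have h2 := ((tendsto_one_div_add_atTop_nhds_zero_nat (𝕜 := ℝ)).pow 2).const_mul (1 / 2)
      rw [zero_pow two_ne_zero, mul_zero] at h2
      refine h2.congr fun n => ?_
      have := hVpos n
      field_simp
    have h2 := (ENNReal.continuous_ofReal.tendsto _).comp ((Real.continuous_exp.tendsto 0).comp h1)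
    rw [Real.exp_zero, ENNReal.ofReal_one] at h2
    exact h2
  rw [one_mul] at hlim
  rw [← hlim.liminf_eq]
  exact liminf_le_liminf (Eventually.of_forall hn)

theorem hf_smooth (P : Core D) {W : ℝ} (hW : 1 ≤ W) :
    ∫⁻ x in Ioi (0 : ℝ), ENNReal.ofReal ((D.Ep x - sm W D.Ep x) ^ 2 * x ^ (-2 : ℝ)) ≤
      ENNReal.ofReal (1 / (2 * Real.pi)) * ∫⁻ t : ℝ, ENNReal.ofReal
        (‖(P.K1 (ln (1/2) t) + P.k0 / ln (1/2) t) * (1 - cexp ((ln (1/2) t) ^ 2 / (W : ℂ) ^ 2))‖ ^ 2) := by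
  have hW0 : 0 < W := by linarith
  have hln := smo_ln_continuous (1/2)
  have hE : ∀ t : ℝ, ‖cexp ((ln (1/2) t) ^ 2 / (W : ℂ) ^ 2)‖ ≤ Real.exp 1 := by
    intro t
    rw [norm_expQ]
    apply Real.exp_le_exp.2
    rw [div_le_iff₀ (by positivity)]
    nlinarith [sq_nonneg t]
  refine smo_fatou P (fun t => 1 - cexp ((ln (1/2) t) ^ 2 / (W : ℂ) ^ 2)) (by fun_prop)
    (1 + Real.exp 1) (fun t => (norm_sub_le _ _).trans ?_) (fun x => D.Ep x - sm W D.Ep x) ?_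
  · rw [norm_one]
    have := hE t
    linarith
  · have h1 : ∀ᵐ x : ℝ, ∀ n : ℕ, (id x : ℝ) ≠ n := smo_ae_ne Function.injective_id
    filter_upwards [ae_restrict_of_ae h1, ae_restrict_mem measurableSet_Ioi] with x hx hx0
    have hx0' : (0 : ℝ) < x := hx0
    have h2 : ∀ n : ℕ, vint (smo_Φ P ((n : ℝ) + 1)
        (fun t => 1 - cexp ((ln (1/2) t) ^ 2 / (W : ℂ) ^ 2))) (1/2) x =
        ((sm ((n : ℝ) + 1) D.Ep x - sm (smo_c W n)⁻¹ D.Ep x : ℝ) : ℂ) := by
      intro n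
      have hV : (0 : ℝ) < (n : ℝ) + 1 := by positivity
      have hc := smo_c_pos (W := W) n
      have hi1 := smo_Φ_int P hV (Ψ := fun _ => 1) continuous_const (B := 1) (fun t => by simp)
      have hi2 := smo_Φ_int P (inv_pos.2 hc) (Ψ := fun _ => 1) continuous_const (B := 1)
        (fun t => by simp)
      have h3 : smo_Φ P ((n : ℝ) + 1) (fun t => 1 - cexp ((ln (1/2) t) ^ 2 / (W : ℂ) ^ 2)) =
          fun t => smo_Φ P ((n : ℝ) + 1) (fun _ => 1) t - smo_Φ P (smo_c W n)⁻¹ (fun _ => 1) t := by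
        ext t
        unfold smo_Φ
        have h4 : cexp ((ln (1/2) t) ^ 2 / (((smo_c W n)⁻¹ : ℝ) : ℂ) ^ 2) =
            cexp ((ln (1/2) t) ^ 2 / ((((n : ℝ) + 1 : ℝ)) : ℂ) ^ 2) *
              cexp ((ln (1/2) t) ^ 2 / (W : ℂ) ^ 2) := by
          rw [← Complex.exp_add]
          congr 1
          have h5 : (1 : ℝ) / ((smo_c W n)⁻¹) ^ 2 = 1 / ((n : ℝ) + 1) ^ 2 + 1 / W ^ 2 := by
            rw [inv_pow, one_div, inv_inv]
            unfold smo_c
            rw [Real.sq_sqrt (by positivity)]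
          have h6 : (1 : ℂ) / ((((smo_c W n)⁻¹ : ℝ) : ℂ)) ^ 2 =
              1 / ((((n : ℝ) + 1 : ℝ)) : ℂ) ^ 2 + 1 / (W : ℂ) ^ 2 := by
            exact_mod_cast congrArg (fun r : ℝ => (r : ℂ)) h5
          calc (ln (1/2) t) ^ 2 / (((smo_c W n)⁻¹ : ℝ) : ℂ) ^ 2
              = (ln (1/2) t) ^ 2 * (1 / (((smo_c W n)⁻¹ : ℝ) : ℂ) ^ 2) := by ring
            _ = _ := by rw [h6]; ring
        rw [h4]
        ring
      rw [h3, smo_vint_sub hi1 hi2 _ hx0', Complex.ofReal_sub, smo_half P hV hx0',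
        smo_half P (inv_pos.2 hc) hx0']
      unfold smo_Φ
      simp only [mul_one]
    simp_rw [h2]
    exact (Complex.continuous_ofReal.tendsto _).comp ((smo_lim P hx0' hx).sub (smo_lim' P hW hx0'))

theorem hf_inc (P : Core D) {v : ℝ} (hv : 0 < v) (hv1 : v ≤ 1) :
    ∫⁻ x in Ioi (0 : ℝ), ENNReal.ofReal ((D.Ep (x * Real.exp v) - D.Ep x) ^ 2 * x ^ (-2 : ℝ)) ≤
      ENNReal.ofReal (1 / (2 * Real.pi)) * ∫⁻ t : ℝ, ENNReal.ofReal
        (‖(P.K1 (ln (1/2) t) + P.k0 / ln (1/2) t) * (cexp (ln (1/2) t * v) - 1)‖ ^ 2) := by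
  have hln := smo_ln_continuous (1/2)
  refine smo_fatou P (fun t => cexp (ln (1/2) t * v) - 1) (by fun_prop)
    (Real.exp 1 + 1) (fun t => (norm_sub_le _ _).trans ?_)
    (fun x => D.Ep (x * Real.exp v) - D.Ep x) ?_
  · rw [norm_one, Complex.norm_exp]
    have h1 : (ln (1/2) t * (v : ℂ)).re ≤ 1 := by
      simp [Complex.mul_re]
      linarith
    have := Real.exp_le_exp.2 h1
    linarith
  · have h1 : ∀ᵐ x : ℝ, ∀ n : ℕ, (id x : ℝ) ≠ n := smo_ae_ne Function.injective_id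
    have h1' : ∀ᵐ x : ℝ, ∀ n : ℕ, x * Real.exp v ≠ n :=
      smo_ae_ne (mul_left_injective₀ (Real.exp_pos v).ne')
    filter_upwards [ae_restrict_of_ae h1, ae_restrict_of_ae h1', ae_restrict_mem measurableSet_Ioi]
      with x hx hx' hx0
    have hx0' : (0 : ℝ) < x := hx0
    have hxv : 0 < x * Real.exp v := mul_pos hx0' (Real.exp_pos v)
    have h2 : ∀ n : ℕ, vint (smo_Φ P ((n : ℝ) + 1) (fun t => cexp (ln (1/2) t * v) - 1)) (1/2) x =
        ((sm ((n : ℝ) + 1) D.Ep (x * Real.exp v) - sm ((n : ℝ) + 1) D.Ep x : ℝ) : ℂ) := by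
      intro n
      have hV : (0 : ℝ) < (n : ℝ) + 1 := by positivity
      have hi1 := smo_Φ_int P hV (Ψ := fun _ => 1) continuous_const (B := 1) (fun t => by simp)
      rw [Complex.ofReal_sub, smo_half P hV hx0', smo_half P hV hxv]
      have h3 : (fun t => (P.K1 (ln (1/2) t) + P.k0 / ln (1/2) t) *
          cexp ((ln (1/2) t) ^ 2 / ((((n : ℝ) + 1 : ℝ)) : ℂ) ^ 2)) =
          smo_Φ P ((n : ℝ) + 1) (fun _ => 1) := by
        ext t
        simp [smo_Φ]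
      rw [h3]
      unfold vint
      rw [← mul_sub, ← integral_sub (smo_int_cpow hi1 _ hxv) (smo_int_cpow hi1 _ hx0')]
      congr 1
      refine integral_congr_ae (Eventually.of_forall fun t => ?_)
      have h4 : ((x * Real.exp v : ℝ) : ℂ) ^ (ln (1/2) t) =
          (x : ℂ) ^ (ln (1/2) t) * cexp (ln (1/2) t * v) := by
        rw [smo_cpow hxv, smo_cpow hx0', ← Complex.exp_add,
          Real.log_mul hx0'.ne' (Real.exp_pos _).ne', Real.log_exp]
        congr 1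
        push_cast
        ring
      show smo_Φ P ((n : ℝ) + 1) (fun t => cexp (ln (1/2) t * v) - 1) t * (x : ℂ) ^ (ln (1/2) t) =
        smo_Φ P ((n : ℝ) + 1) (fun _ => 1) t * ((x * Real.exp v : ℝ) : ℂ) ^ (ln (1/2) t) -
          smo_Φ P ((n : ℝ) + 1) (fun _ => 1) t * (x : ℂ) ^ (ln (1/2) t)
      rw [h4]
      unfold smo_Φ
      ring
    simp_rw [h2]
    exact (Complex.continuous_ofReal.tendsto _).comp ((smo_lim P hxv hx').sub (smo_lim P hx0' hx))

end Pool.Agent.H15.SC
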