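import Pool.Agent.H15.SC.Res
import Pool.Agent.H15.SC.Block
import Pool.Agent.H15.SC.Smooth

/-!
# SC-17  the dual representation of the smoothed error term  (project SC, MP_be4568_nt)

`sm_eq` for `W = 2^J` and for `1`: `sm W Ep - sm 1 Ep = vint ((K1 + k0/s) (e^{s²/W²} - e^{s²}))` on the line `2`, the
integrand is `K1(s) s vq(s) + k0 vq(s)`, entire; shift to `-3/4` (`P.growth`, `vq_bound`).  There
`K1 + k0/s = chi(s) L(1-s)/s - pp(s)` (`P.Kform`, `F_left`), `L(1-s) = ∑ f(n) n^{s-1}` absolutely convergent: exchange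
(`∑ |f n| n^{-7/4} < ∞`, `chi_bound`, `vq_bound`).  `R = sm 1 Ep - vint (pp(s) (e^{s²/W²} - e^{s²}))`:
`vint_loc` (`σ = -3/4`) for the second, `|sm 1 Ep x| ≤ C x^{1/8}` for `x ≥ 1` (`sm_eq`, shift from `2` to `1/8`).
-/

set_option autoImplicit false

open Complex Filter Topology MeasureTheory Set
open scoped ComplexConjugate

namespace Pool.Agent.H15.SC

variable {D : SelData}

theorem rep_one_le (t : ℝ) : 1 ≤ 1 + |t| := by linarith [abs_nonneg t]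

theorem rep_norm_le {s : ℂ} (h1 : |s.re| ≤ 2) : ‖s‖ ≤ 2 * (1 + |s.im|) := by
  have := Complex.norm_le_abs_re_add_abs_im s
  have := abs_nonneg s.im
  linarith

/-- the entire integrand decays in the strip `-3/4 ≤ re s ≤ 2` -/
theorem rep_G_bound (P : Core D) {W : ℝ} (hW : 1 ≤ W) : ∃ C : ℝ, 0 ≤ C ∧ ∀ s : ℂ, -(3/4) ≤ s.re → s.re ≤ 2 →
    ‖(P.K1 s * s + P.k0) * vq W 1 s‖ ≤ C * Real.exp (-|s.im|) := by
  obtain ⟨A, C1, hA, hC1, h1⟩ := P.growth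
  obtain ⟨C2, hC2, h2⟩ := vq_bound
  have hW0 : 0 < W := by linarith
  obtain ⟨C3, hC3, h3⟩ := poly_gauss_le (A + 2) hW0
  refine ⟨(2 * C1 + ‖P.k0‖) * C2 * C3, by positivity, fun s hs1 hs2 => ?_⟩
  have ht := rep_one_le s.im
  have ht0 : 0 < 1 + |s.im| := by linarith
  have hre : |s.re| ≤ 2 := abs_le.2 ⟨by linarith, hs2⟩
  have e1 : ‖P.K1 s * s + P.k0‖ ≤ (2 * C1 + ‖P.k0‖) * (1 + |s.im|) ^ (A + 1) := by
    have a1 : ‖P.K1 s * s‖ ≤ (C1 * (1 + |s.im|) ^ A) * (2 * (1 + |s.im|)) := by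
      rw [norm_mul]
      exact mul_le_mul (h1 s hs1 hs2) (rep_norm_le hre) (norm_nonneg _) (by positivity)
    have a2 : 1 ≤ (1 + |s.im|) ^ (A + 1) := Real.one_le_rpow ht (by linarith)
    have a3 : (1 + |s.im|) ^ (A + 1) = (1 + |s.im|) ^ A * (1 + |s.im|) := by
      rw [Real.rpow_add ht0, Real.rpow_one]
    calc ‖P.K1 s * s + P.k0‖ ≤ ‖P.K1 s * s‖ + ‖P.k0‖ := norm_add_le _ _
      _ ≤ (C1 * (1 + |s.im|) ^ A) * (2 * (1 + |s.im|)) + ‖P.k0‖ * (1 + |s.im|) ^ (A + 1) := by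
          refine add_le_add a1 ?_
          exact le_mul_of_one_le_right (norm_nonneg _) a2
      _ = _ := by rw [a3]; ring
  rw [norm_mul]
  calc ‖P.K1 s * s + P.k0‖ * ‖vq W 1 s‖
      ≤ ((2 * C1 + ‖P.k0‖) * (1 + |s.im|) ^ (A + 1)) *
        (C2 * (1 + |s.im|) * Real.exp (-(s.im ^ 2 / W ^ 2))) :=
        mul_le_mul e1 (h2 W hW s hre) (norm_nonneg _) (by positivity)
    _ = (2 * C1 + ‖P.k0‖) * C2 * ((1 + |s.im|) ^ (A + 2) * Real.exp (-(s.im ^ 2 / W ^ 2))) := by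
        have a3 : (1 + |s.im|) ^ (A + 2) = (1 + |s.im|) ^ (A + 1) * (1 + |s.im|) := by
          rw [show A + 2 = A + 1 + 1 by ring, Real.rpow_add ht0 (A + 1) 1, Real.rpow_one]
        rw [a3]; ring
    _ ≤ (2 * C1 + ‖P.k0‖) * C2 * (C3 * Real.exp (-|s.im|)) :=
        mul_le_mul_of_nonneg_left (h3 s.im) (by positivity)
    _ = _ := by ring

/-- decay in the strip `1/8 ≤ re s ≤ 2` -/
theorem rep_E_bound (P : Core D) {V : ℝ} (hV : 1 ≤ V) : ∃ C : ℝ, 0 ≤ C ∧ ∀ s : ℂ, 1 / 8 ≤ s.re → s.re ≤ 2 →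
    ‖(P.K1 s + P.k0 / s) * cexp (s ^ 2 / (V : ℂ) ^ 2)‖ ≤ C * Real.exp (-|s.im|) := by
  obtain ⟨A, C1, hA, hC1, h1⟩ := P.growth
  have hV0 : 0 < V := by linarith
  obtain ⟨C2, hC2, h2⟩ := poly_gauss_le A hV0
  refine ⟨(C1 + 8 * ‖P.k0‖) * (Real.exp 4 * C2), by positivity, fun s hs1 hs2 => ?_⟩
  have ht := rep_one_le s.im
  have ht0 : 0 < 1 + |s.im| := by linarith
  have hs : 1 / 8 ≤ ‖s‖ := hs1.trans (Complex.re_le_norm s)
  have e1 : ‖P.K1 s + P.k0 / s‖ ≤ (C1 + 8 * ‖P.k0‖) * (1 + |s.im|) ^ A := by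
    have h3 : ‖P.k0 / s‖ ≤ 8 * ‖P.k0‖ := by
      rw [norm_div, div_le_iff₀ (by linarith)]
      nlinarith [norm_nonneg P.k0]
    have h4 : 1 ≤ (1 + |s.im|) ^ A := Real.one_le_rpow ht hA
    calc _ ≤ ‖P.K1 s‖ + ‖P.k0 / s‖ := norm_add_le _ _
      _ ≤ C1 * (1 + |s.im|) ^ A + 8 * ‖P.k0‖ := add_le_add (h1 s (by linarith) hs2) h3
      _ ≤ _ := by nlinarith [norm_nonneg P.k0]
  have e2 : ‖cexp (s ^ 2 / (V : ℂ) ^ 2)‖ ≤ Real.exp 4 * Real.exp (-(s.im ^ 2 / V ^ 2)) := by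
    have h6 := norm_expQ V s.re s.im
    have h7 : ln s.re s.im = s := by
      unfold ln
      exact Complex.re_add_im s
    rw [h7] at h6
    rw [h6, ← Real.exp_add]
    apply Real.exp_le_exp.2
    have h8 : (s.re ^ 2 - s.im ^ 2) / V ^ 2 = s.re ^ 2 / V ^ 2 - s.im ^ 2 / V ^ 2 := by ring
    have h9 : s.re ^ 2 / V ^ 2 ≤ 4 := by
      rw [div_le_iff₀ (by positivity)]
      have : 1 ≤ V ^ 2 := one_le_pow₀ hV
      nlinarith
    linarith
  rw [norm_mul]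
  calc ‖P.K1 s + P.k0 / s‖ * ‖cexp (s ^ 2 / (V : ℂ) ^ 2)‖
      ≤ ((C1 + 8 * ‖P.k0‖) * (1 + |s.im|) ^ A) * (Real.exp 4 * Real.exp (-(s.im ^ 2 / V ^ 2))) :=
        mul_le_mul e1 e2 (norm_nonneg _) (by positivity)
    _ = (C1 + 8 * ‖P.k0‖) * Real.exp 4 * ((1 + |s.im|) ^ A * Real.exp (-(s.im ^ 2 / V ^ 2))) := by ring
    _ ≤ (C1 + 8 * ‖P.k0‖) * Real.exp 4 * (C2 * Real.exp (-|s.im|)) :=
        mul_le_mul_of_nonneg_left (h2 s.im) (by positivity)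
    _ = _ := by ring

theorem rep_ne_zero {σ : ℝ} (hσ : σ ≠ 0) (t : ℝ) : ln σ t ≠ 0 := by
  intro h
  have := congrArg Complex.re h
  rw [ln_re] at this
  exact hσ (by simpa using this)

theorem rep_ne_one {σ : ℝ} (hσ : σ ≠ 1) (t : ℝ) : ln σ t ≠ 1 := by
  intro h
  have := congrArg Complex.re h
  rw [ln_re] at this
  exact hσ (by simpa using this)

theorem rep_E_diff (P : Core D) (V : ℝ) :
    DifferentiableOn ℂ (fun s : ℂ => (P.K1 s + P.k0 / s) * cexp (s ^ 2 / (V : ℂ) ^ 2))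
      {z : ℂ | 1 / 8 ≤ z.re ∧ z.re ≤ 2} := by
  intro s hs
  have hs0 : s ≠ 0 := by
    rintro rfl
    have := hs.1
    simp at this
    linarith
  have h1 : DifferentiableAt ℂ (fun s : ℂ => P.k0 / s) s :=
    (differentiableAt_const _).div differentiableAt_id hs0
  have h2 : DifferentiableAt ℂ (fun s : ℂ => cexp (s ^ 2 / (V : ℂ) ^ 2)) s := by fun_prop
  exact (((P.K1_diff s).add h1).mul h2).differentiableWithinAt

theorem rep_E_cont (P : Core D) (V : ℝ) {σ : ℝ} (hσ : σ ≠ 0) :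
    Continuous (fun t : ℝ => (P.K1 (ln σ t) + P.k0 / ln σ t) * cexp ((ln σ t) ^ 2 / (V : ℂ) ^ 2)) := by
  have h1 := smo_ln_continuous σ
  refine ((P.K1_diff.continuous.comp h1).add (continuous_const.div h1 (rep_ne_zero hσ))).mul ?_
  fun_prop

theorem rep_E_int (P : Core D) {V : ℝ} (hV : 1 ≤ V) {σ : ℝ} (h1 : 1 / 8 ≤ σ) (h2 : σ ≤ 2) :
    Integrable (fun t : ℝ => (P.K1 (ln σ t) + P.k0 / ln σ t) * cexp ((ln σ t) ^ 2 / (V : ℂ) ^ 2)) := by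
  obtain ⟨C, hC, hb⟩ := rep_E_bound P hV
  have hσ : σ ≠ 0 := by
    rintro rfl
    norm_num at h1
  refine (blk_exp_int.const_mul C).mono' (rep_E_cont P V hσ).aestronglyMeasurable
    (Eventually.of_forall fun t => ?_)
  have := hb (ln σ t) (by rwa [ln_re]) (by rwa [ln_re])
  rwa [ln_im] at this

/-- `sm V Ep` on the line `1/8` -/
theorem rep_eighth (P : Core D) {V : ℝ} (hV : 1 ≤ V) {x : ℝ} (hx : 0 < x) :
    (sm V D.Ep x : ℂ) = vint (fun t => (P.K1 (ln (1/8) t) + P.k0 / ln (1/8) t) *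
        cexp ((ln (1/8) t) ^ 2 / (V : ℂ) ^ 2)) (1/8) x := by
  rw [sm_eq P (by linarith) hx]
  obtain ⟨C, hC, hb⟩ := rep_E_bound P hV
  exact (vint_shift (fun s => (P.K1 s + P.k0 / s) * cexp (s ^ 2 / (V : ℂ) ^ 2)) (1/8) 2 C
    (by norm_num) (rep_E_diff P V) hb x hx).symm

theorem rep_vint_norm (Φ : ℝ → ℂ) (σ : ℝ) {x : ℝ} (hx : 0 < x) :
    ‖vint Φ σ x‖ ≤ (1 / (2 * Real.pi)) * (∫ t : ℝ, ‖Φ t‖) * x ^ σ := by
  unfold vint
  rw [norm_mul, Complex.norm_real, Real.norm_eq_abs, abs_of_nonneg (by positivity), mul_assoc]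
  refine mul_le_mul_of_nonneg_left ?_ (by positivity)
  refine (norm_integral_le_integral_norm _).trans (le_of_eq ?_)
  rw [← integral_mul_const]
  refine integral_congr_ae (Eventually.of_forall fun t => ?_)
  simp only
  rw [norm_mul, blk_cpow_norm hx]

/-- `|sm 1 Ep x| ≤ C x^{1/8}` -/
theorem rep_sm_one (P : Core D) : ∃ C : ℝ, 0 ≤ C ∧ ∀ x : ℝ, 0 < x → ‖(sm 1 D.Ep x : ℂ)‖ ≤ C * x ^ ((1 : ℝ) / 8) := by
  refine ⟨(1 / (2 * Real.pi)) * ∫ t : ℝ, ‖(P.K1 (ln (1/8) t) + P.k0 / ln (1/8) t) *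
        cexp ((ln (1/8) t) ^ 2 / ((1 : ℝ) : ℂ) ^ 2)‖, by positivity, fun x hx => ?_⟩
  rw [rep_eighth P le_rfl hx]
  exact rep_vint_norm _ _ hx

theorem rep_sm_cont (P : Core D) {V : ℝ} (hV : 1 ≤ V) : ContinuousOn (fun x => (sm V D.Ep x : ℂ)) (Ioi 0) := by
  have h1 := vint_continuousOn _ (rep_E_cont P V (by norm_num : (1/8 : ℝ) ≠ 0))
    (rep_E_int P hV (σ := 1/8) (by norm_num) (by norm_num)) (1/8)
  exact h1.congr fun x hx => rep_eighth P hV hx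

theorem rep_vint_sub {Φ Φ' : ℝ → ℂ} (h : Integrable Φ) (h' : Integrable Φ') (σ : ℝ) {x : ℝ}
    (hx : 0 < x) : vint (fun t => Φ t - Φ' t) σ x = vint Φ σ x - vint Φ' σ x := smo_vint_sub h h' σ hx

/-- the difference of two smoothings on the line `-3/4` -/
theorem rep_diff (P : Core D) {W : ℝ} (hW : 1 ≤ W) {x : ℝ} (hx : 0 < x) :
    (sm W D.Ep x : ℂ) - sm 1 D.Ep x =
      vint (fun t => (P.K1 (ln (-(3/4)) t) * ln (-(3/4)) t + P.k0) * vq W 1 (ln (-(3/4)) t)) (-(3/4)) x := by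
  obtain ⟨C, hC, hb⟩ := rep_G_bound P hW
  have hd : DifferentiableOn ℂ (fun s : ℂ => (P.K1 s * s + P.k0) * vq W 1 s)
      {z : ℂ | -(3/4) ≤ z.re ∧ z.re ≤ 2} := by
    have h1 : Differentiable ℂ (fun s : ℂ => (P.K1 s * s + P.k0) * vq W 1 s) :=
      ((P.K1_diff.mul differentiable_id).add (differentiable_const _)).mul (vq_differentiable W 1)
    exact h1.differentiableOn
  have h1 := vint_shift (fun s => (P.K1 s * s + P.k0) * vq W 1 s) (-(3/4)) 2 C (by norm_num) hd hb x hx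
  rw [h1, sm_eq P (by linarith) hx, sm_eq P one_pos hx,
    ← rep_vint_sub (rep_E_int P hW (σ := 2) (by norm_num) le_rfl) (rep_E_int P le_rfl (σ := 2) (by norm_num) le_rfl) _ hx]
  congr 1
  funext t
  have hs := rep_ne_zero (two_ne_zero (α := ℝ)) t
  unfold vq
  field_simp

/-- the shape of the integrand on the line `-3/4` -/
theorem rep_split {d : ℝ} (h : IsSel D d) (P : Core D) (W t : ℝ) :
    (P.K1 (ln (-(3/4)) t) * ln (-(3/4)) t + P.k0) * vq W 1 (ln (-(3/4)) t) =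
      D.chi (ln (-(3/4)) t) * vq W 1 (ln (-(3/4)) t) * D.L (1 - ln (-(3/4)) t) -
        P.pp (ln (-(3/4)) t) * (ln (-(3/4)) t * vq W 1 (ln (-(3/4)) t)) := by
  have hs0 : ln (-(3/4)) t ≠ 0 := rep_ne_zero (by norm_num) t
  have hs1 : ln (-(3/4)) t ≠ 1 := rep_ne_one (by norm_num) t
  have h1 := P.Kform _ hs0 hs1
  have h2 := F_left h (ln (-(3/4)) t) (by rw [ln_re]; norm_num)
  rw [h2] at h1
  set s := ln (-(3/4)) t with hs
  have h3 : P.K1 s * s + P.k0 = D.chi s * D.L (1 - s) - P.pp s * s := by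
    have h4 : (P.K1 s + P.k0 / s) * s = (D.chi s * D.L (1 - s) / s - P.pp s) * s := by rw [h1]
    field_simp at h4
    linear_combination h4
  rw [h3]
  ring

/-- the pole part is integrable, and square integrable uniformly in `W` -/
theorem rep_pp_cont (P : Core D) (W : ℝ) :
    Continuous (fun t : ℝ => P.pp (ln (-(3/4)) t) * (ln (-(3/4)) t * vq W 1 (ln (-(3/4)) t))) := by
  have h1 := smo_ln_continuous (-(3/4))
  have h2 : Continuous (fun t : ℝ => P.pp (ln (-(3/4)) t)) :=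
    P.pp_cont.comp_continuous h1 fun t => rep_ne_one (by norm_num) t
  exact h2.mul (h1.mul ((vq_differentiable W 1).continuous.comp h1))

theorem rep_pp_int (P : Core D) {W : ℝ} (hW : 1 ≤ W) :
    Integrable (fun t : ℝ => P.pp (ln (-(3/4)) t) * (ln (-(3/4)) t * vq W 1 (ln (-(3/4)) t))) := by
  obtain ⟨C1, hC1, h1⟩ := P.pp_bound
  obtain ⟨C2, hC2, h2⟩ := vq_bound
  have hW0 : 0 < W := by linarith
  have h3 := (integrable_pow_gauss 1 hW0).const_mul (C1 * (2 * C2))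
  refine h3.mono' (rep_pp_cont P W).aestronglyMeasurable (Eventually.of_forall fun t => ?_)
  have ht0 : 0 < 1 + |t| := by positivity
  have e1 := h1 (ln (-(3/4)) t) (by rw [ln_re]; norm_num)
  have e2 := h2 W hW (ln (-(3/4)) t) (by rw [ln_re, abs_neg, abs_of_pos (by norm_num)]; norm_num)
  have e3 := rep_norm_le (s := ln (-(3/4)) t) (by rw [ln_re, abs_neg, abs_of_pos (by norm_num)]; norm_num)
  rw [ln_im] at e1 e2 e3
  rw [norm_mul, norm_mul, Real.rpow_one]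
  calc ‖P.pp (ln (-(3/4)) t)‖ * (‖ln (-(3/4)) t‖ * ‖vq W 1 (ln (-(3/4)) t)‖)
      ≤ (C1 / (1 + |t|)) * ((2 * (1 + |t|)) * (C2 * (1 + |t|) * Real.exp (-(t ^ 2 / W ^ 2)))) := by gcongr
    _ = _ := by field_simp

theorem rep_pp_sq (P : Core D) : ∃ C : ℝ, 0 ≤ C ∧ ∀ W : ℝ, 1 ≤ W →
    Integrable (fun t : ℝ => ‖P.pp (ln (-(3/4)) t) * (ln (-(3/4)) t * vq W 1 (ln (-(3/4)) t))‖ ^ 2) ∧
    ∫ t : ℝ, ‖P.pp (ln (-(3/4)) t) * (ln (-(3/4)) t * vq W 1 (ln (-(3/4)) t))‖ ^ 2 ≤ C := by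
  obtain ⟨C1, hC1, h1⟩ := P.pp_bound
  obtain ⟨C2, hC2, h2⟩ := vq_bound'
  refine ⟨C1 ^ 2 * C2 ^ 2 * ∫ t : ℝ, (1 + t ^ 2)⁻¹, ?_, fun W hW => ?_⟩
  · have : 0 ≤ ∫ t : ℝ, (1 + t ^ 2)⁻¹ := integral_nonneg fun t => by positivity
    positivity
  have hb : ∀ t : ℝ, ‖P.pp (ln (-(3/4)) t) * (ln (-(3/4)) t * vq W 1 (ln (-(3/4)) t))‖ ^ 2 ≤
      C1 ^ 2 * C2 ^ 2 * (1 + t ^ 2)⁻¹ := by
    intro t
    have ht0 : 0 < 1 + |t| := by positivity
    have e1 := h1 (ln (-(3/4)) t) (by rw [ln_re]; norm_num)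
    have e2 := h2 W hW (ln (-(3/4)) t) (by rw [ln_re, abs_neg, abs_of_pos (by norm_num)]; norm_num)
    rw [ln_im] at e1
    rw [norm_mul]
    calc (‖P.pp (ln (-(3/4)) t)‖ * ‖ln (-(3/4)) t * vq W 1 (ln (-(3/4)) t)‖) ^ 2
        ≤ ((C1 / (1 + |t|)) * C2) ^ 2 := by gcongr
      _ = C1 ^ 2 * C2 ^ 2 * ((1 + |t|) ^ 2)⁻¹ := by field_simp
      _ ≤ C1 ^ 2 * C2 ^ 2 * (1 + t ^ 2)⁻¹ := by
          refine mul_le_mul_of_nonneg_left ?_ (by positivity)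
          refine inv_anti₀ (by positivity) ?_
          rw [← sq_abs t]
          nlinarith [abs_nonneg t]
  have hI : Integrable (fun t : ℝ => C1 ^ 2 * C2 ^ 2 * (1 + t ^ 2)⁻¹) := integrable_inv_one_add_sq.const_mul _
  have hint : Integrable (fun t : ℝ => ‖P.pp (ln (-(3/4)) t) * (ln (-(3/4)) t * vq W 1 (ln (-(3/4)) t))‖ ^ 2) := by
    refine hI.mono' ((rep_pp_cont P W).norm.pow 2).aestronglyMeasurable (Eventually.of_forall fun t => ?_)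
    rw [Real.norm_eq_abs, abs_of_nonneg (by positivity)]
    exact hb t
  refine ⟨hint, ?_⟩
  rw [← integral_const_mul]
  exact integral_mono hint hI hb

/-- the terms of the dual series -/
theorem rep_vq_bd {W : ℝ} (hW : 1 ≤ W) : ∃ C : ℝ, 0 ≤ C ∧ ∀ s : ℂ, |s.re| ≤ 3/4 →
    ‖vq W 1 s‖ ≤ C * (1 + |s.im|) * Real.exp (-(s.im ^ 2 / W ^ 2)) := by
  obtain ⟨C, hC, hb⟩ := vq_bound
  exact ⟨C, hC, fun s hs => hb W hW s (by linarith)⟩

theorem rep_tsum {d : ℝ} (h : IsSel D d) {W : ℝ} (hW : 1 ≤ W) {x : ℝ} (hx : 0 < x) :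
    HasSum (fun n : ℕ => ((D.f n / n : ℝ) : ℂ) * cW D W (n * x))
      (vint (fun t => D.chi (ln (-(3/4)) t) * vq W 1 (ln (-(3/4)) t) * D.L (1 - ln (-(3/4)) t)) (-(3/4)) x) := by
  have hW0 : 0 < W := by linarith
  have hσ : |(-(3/4) : ℝ)| ≤ 3/4 := by rw [abs_neg, abs_of_pos (by norm_num)]
  set Φ : ℝ → ℂ := fun t => D.chi (ln (-(3/4)) t) * vq W 1 (ln (-(3/4)) t) with hΦ
  have hΦi : Integrable Φ := blk_G_int h (rep_vq_bd hW) hW0 hσ
  set f : ℕ → ℂ := fun n => (D.f n : ℂ) with hf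
  have hterm : ∀ n : ℕ, ∀ t : ℝ, ‖LSeries.term f (1 - ln (-(3/4)) t) n‖ = ‖LSeries.term f ((7/4 : ℝ) : ℂ) n‖ := by
    intro n t
    rw [LSeries.norm_term_eq, LSeries.norm_term_eq]
    have : (1 - ln (-(3/4)) t).re = (((7/4 : ℝ) : ℂ)).re := by
      rw [Complex.sub_re, ln_re, Complex.one_re, Complex.ofReal_re]
      norm_num
    rw [this]
  -- the terms
  set F : ℕ → ℝ → ℂ := fun n t => Φ t * LSeries.term f (1 - ln (-(3/4)) t) n * (x : ℂ) ^ (ln (-(3/4)) t) with hF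
  have hFeq : ∀ n : ℕ, ∀ t : ℝ, 1 ≤ n → F n t =
      ((D.f n / n : ℝ) : ℂ) * (Φ t * (((n : ℝ) * x : ℝ) : ℂ) ^ (ln (-(3/4)) t)) := by
    intro n t hn
    have hn0 : n ≠ 0 := by omega
    have hn1 : (0 : ℝ) < n := by exact_mod_cast hn
    have hnc : (n : ℂ) ≠ 0 := by exact_mod_cast hn0
    have e2 : (((n : ℝ) * x : ℝ) : ℂ) ^ (ln (-(3/4)) t) = (n : ℂ) ^ (ln (-(3/4)) t) * (x : ℂ) ^ (ln (-(3/4)) t) := by
      rw [Complex.ofReal_mul, Complex.mul_cpow_ofReal_nonneg hn1.le hx.le, Complex.ofReal_natCast]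
    have e3 : LSeries.term f (1 - ln (-(3/4)) t) n = (D.f n : ℂ) / n * (n : ℂ) ^ (ln (-(3/4)) t) := by
      rw [LSeries.term_of_ne_zero hn0, Complex.cpow_sub _ _ hnc, Complex.cpow_one, hf]
      field_simp
    rw [hF]
    simp only
    rw [e2, e3]
    push_cast
    ring
  have hF0 : ∀ t : ℝ, F 0 t = 0 := by
    intro t
    rw [hF]
    simp
  have hFint : ∀ n : ℕ, Integrable (F n) := by
    intro n
    rcases Nat.eq_zero_or_pos n with rfl | hn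
    · have : F 0 = fun _ => 0 := funext hF0
      rw [this]
      exact integrable_zero _ _ _
    · have hn1 : (0 : ℝ) < n := by exact_mod_cast hn
      have : F n = fun t => ((D.f n / n : ℝ) : ℂ) * (Φ t * (((n : ℝ) * x : ℝ) : ℂ) ^ (ln (-(3/4)) t)) :=
        funext fun t => hFeq n t hn
      rw [this]
      exact (blk_mul_int hΦi (mul_pos hn1 hx) _).const_mul _
  have hFnorm : ∀ n : ℕ, ∫ t : ℝ, ‖F n t‖ = ‖LSeries.term f ((7/4 : ℝ) : ℂ) n‖ * ((∫ t : ℝ, ‖Φ t‖) * x ^ (-(3/4) : ℝ)) := by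
    intro n
    rw [← integral_mul_const, ← integral_const_mul]
    refine integral_congr_ae (Eventually.of_forall fun t => ?_)
    simp only [hF]
    rw [norm_mul, norm_mul, hterm, blk_cpow_norm hx]
    ring
  have hsum : Summable fun n => ∫ t : ℝ, ‖F n t‖ := by
    simp_rw [hFnorm]
    have h1 : LSeriesSummable f ((7/4 : ℝ) : ℂ) := chid_summ h (by rw [ofReal_re]; norm_num)
    exact h1.norm.mul_right _
  have key := hasSum_integral_of_summable_integral_norm hFint hsum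
  have key2 := key.mul_left ((1 / (2 * Real.pi) : ℝ) : ℂ)
  have e1 : ((1 / (2 * Real.pi) : ℝ) : ℂ) * ∫ t : ℝ, ∑' n, F n t =
      vint (fun t => Φ t * D.L (1 - ln (-(3/4)) t)) (-(3/4)) x := by
    unfold vint
    congr 1
    refine integral_congr_ae (Eventually.of_forall fun t => ?_)
    simp only [hF]
    rw [tsum_mul_right, tsum_mul_left]
    rfl
  rw [e1] at key2
  have e2 : (fun n : ℕ => ((1 / (2 * Real.pi) : ℝ) : ℂ) * ∫ t : ℝ, F n t) =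
      fun n : ℕ => ((D.f n / n : ℝ) : ℂ) * cW D W (n * x) := by
    funext n
    rcases Nat.eq_zero_or_pos n with rfl | hn
    · have : F 0 = fun _ => 0 := funext hF0
      rw [this]
      simp
    · have : F n = fun t => ((D.f n / n : ℝ) : ℂ) * (Φ t * (((n : ℝ) * x : ℝ) : ℂ) ^ (ln (-(3/4)) t)) :=
        funext fun t => hFeq n t hn
      rw [this, integral_const_mul]
      unfold cW vint
      rw [mul_left_comm]
  rw [e2] at key2
  exact key2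

theorem sm_repr {d : ℕ} (hd : d = 2 ∨ d = 3) (h : IsSel D d) (P : Core D) : ∃ C : ℝ, 0 ≤ C ∧ ∀ J : ℕ, ∃ R : ℝ → ℂ,
    ContinuousOn R (Ioi 0) ∧
    (∀ x : ℝ, 0 < x → Summable (fun n : ℕ => ((D.f n / n : ℝ) : ℂ) * cW D (2 ^ J) (n * x)) ∧
      (sm (2 ^ J) D.Ep x : ℂ) = ∑' n : ℕ, ((D.f n / n : ℝ) : ℂ) * cW D (2 ^ J) (n * x) + R x) ∧
    (∀ T : ℝ, 1 ≤ T → ∫ x in T..(2 * T), ‖R x‖ ^ 2 ≤ C * T ^ ((5 : ℝ) / 4)) := by
  obtain ⟨C1, hC1, h1⟩ := rep_sm_one P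
  obtain ⟨C2, hC2, h2⟩ := rep_pp_sq P
  refine ⟨4 * C1 ^ 2 + 2 * C2, by positivity, fun J => ?_⟩
  have hW : (1 : ℝ) ≤ 2 ^ J := one_le_pow₀ (by norm_num)
  set W : ℝ := 2 ^ J with hWdef
  have hW0 : 0 < W := by linarith
  have hσ : |(-(3/4) : ℝ)| ≤ 3/4 := by rw [abs_neg, abs_of_pos (by norm_num)]
  set Ψ : ℝ → ℂ := fun t => P.pp (ln (-(3/4)) t) * (ln (-(3/4)) t * vq W 1 (ln (-(3/4)) t)) with hΨ
  have hΨc : Continuous Ψ := rep_pp_cont P W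
  have hΨi : Integrable Ψ := rep_pp_int P hW
  have hΨ2 := h2 W hW
  have hAc := rep_sm_cont P (V := 1) le_rfl
  have hBc := vint_continuousOn Ψ hΨc hΨi (-(3/4))
  refine ⟨fun x => (sm 1 D.Ep x : ℂ) - vint Ψ (-(3/4)) x, hAc.sub hBc, fun x hx => ?_, fun T hT => ?_⟩
  · have hs := rep_tsum h hW hx
    refine ⟨hs.summable, ?_⟩
    rw [hs.tsum_eq]
    have e1 := rep_diff P hW hx
    have e2 : (fun t => (P.K1 (ln (-(3/4)) t) * ln (-(3/4)) t + P.k0) * vq W 1 (ln (-(3/4)) t)) =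
        fun t => D.chi (ln (-(3/4)) t) * vq W 1 (ln (-(3/4)) t) * D.L (1 - ln (-(3/4)) t) - Ψ t :=
      funext fun t => rep_split h P W t
    have hG : Integrable (fun t => D.chi (ln (-(3/4)) t) * vq W 1 (ln (-(3/4)) t) * D.L (1 - ln (-(3/4)) t)) := by
      have hK : Integrable (fun t => (P.K1 (ln (-(3/4)) t) * ln (-(3/4)) t + P.k0) * vq W 1 (ln (-(3/4)) t)) := by
        obtain ⟨C, hC, hb⟩ := rep_G_bound P hW
        have hd1 : Differentiable ℂ (fun s : ℂ => (P.K1 s * s + P.k0) * vq W 1 s) :=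
          ((P.K1_diff.mul differentiable_id).add (differentiable_const _)).mul (vq_differentiable W 1)
        have hc : Continuous (fun t : ℝ => (P.K1 (ln (-(3/4)) t) * ln (-(3/4)) t + P.k0) * vq W 1 (ln (-(3/4)) t)) :=
          hd1.continuous.comp (smo_ln_continuous (-(3/4)))
        refine (blk_exp_int.const_mul C).mono' hc.aestronglyMeasurable (Eventually.of_forall fun t => ?_)
        have := hb (ln (-(3/4)) t) (by rw [ln_re]) (by rw [ln_re]; norm_num)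
        rwa [ln_im] at this
      rw [e2] at hK
      refine (hK.add hΨi).congr (Eventually.of_forall fun t => ?_)
      simp
    rw [e2, rep_vint_sub hG hΨi _ hx] at e1
    linear_combination e1
  · have hT0 : 0 < T := by linarith
    have hTT : T ≤ 2 * T := by linarith
    have hsub : uIcc T (2 * T) ⊆ Ioi (0 : ℝ) := by
      rw [uIcc_of_le hTT]
      intro x hx
      exact lt_of_lt_of_le hT0 hx.1
    have iA : IntervalIntegrable (fun x => ‖(sm 1 D.Ep x : ℂ)‖ ^ 2) volume T (2 * T) :=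
      ((hAc.mono hsub).norm.pow 2).intervalIntegrable
    have iB : IntervalIntegrable (fun x => ‖vint Ψ (-(3/4)) x‖ ^ 2) volume T (2 * T) :=
      ((hBc.mono hsub).norm.pow 2).intervalIntegrable
    have iR : IntervalIntegrable (fun x => ‖(sm 1 D.Ep x : ℂ) - vint Ψ (-(3/4)) x‖ ^ 2) volume T (2 * T) :=
      (((hAc.sub hBc).mono hsub).norm.pow 2).intervalIntegrable
    have e1 : ∫ x in T..(2 * T), ‖(sm 1 D.Ep x : ℂ) - vint Ψ (-(3/4)) x‖ ^ 2 ≤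
        ∫ x in T..(2 * T), (2 * ‖(sm 1 D.Ep x : ℂ)‖ ^ 2 + 2 * ‖vint Ψ (-(3/4)) x‖ ^ 2) := by
      refine intervalIntegral.integral_mono_on hTT iR ((iA.const_mul 2).add (iB.const_mul 2)) fun x _ => ?_
      have a1 := norm_sub_le (sm 1 D.Ep x : ℂ) (vint Ψ (-(3/4)) x)
      have a2 := norm_nonneg ((sm 1 D.Ep x : ℂ) - vint Ψ (-(3/4)) x)
      nlinarith [sq_nonneg (‖(sm 1 D.Ep x : ℂ)‖ - ‖vint Ψ (-(3/4)) x‖)]
    have e2 : ∫ x in T..(2 * T), (2 * ‖(sm 1 D.Ep x : ℂ)‖ ^ 2 + 2 * ‖vint Ψ (-(3/4)) x‖ ^ 2) =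
        2 * (∫ x in T..(2 * T), ‖(sm 1 D.Ep x : ℂ)‖ ^ 2) + 2 * ∫ x in T..(2 * T), ‖vint Ψ (-(3/4)) x‖ ^ 2 := by
      rw [intervalIntegral.integral_add (iA.const_mul 2) (iB.const_mul 2),
        intervalIntegral.integral_const_mul, intervalIntegral.integral_const_mul]
    have e3 : ∫ x in T..(2 * T), ‖(sm 1 D.Ep x : ℂ)‖ ^ 2 ≤ 2 * C1 ^ 2 * T ^ ((5 : ℝ) / 4) := by
      have a1 : ∀ x ∈ Icc T (2 * T), ‖(sm 1 D.Ep x : ℂ)‖ ^ 2 ≤ 2 * C1 ^ 2 * T ^ ((1 : ℝ) / 4) := by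
        intro x hx
        have hx0 : 0 < x := lt_of_lt_of_le hT0 hx.1
        have b1 := h1 x hx0
        have b2 : (x ^ ((1 : ℝ) / 8)) ^ 2 = x ^ ((1 : ℝ) / 4) := by
          rw [← Real.rpow_natCast, ← Real.rpow_mul hx0.le]
          norm_num
        have b3 : x ^ ((1 : ℝ) / 4) ≤ 2 * T ^ ((1 : ℝ) / 4) := by
          calc x ^ ((1 : ℝ) / 4) ≤ (2 * T) ^ ((1 : ℝ) / 4) := Real.rpow_le_rpow hx0.le hx.2 (by norm_num)
            _ = 2 ^ ((1 : ℝ) / 4) * T ^ ((1 : ℝ) / 4) := Real.mul_rpow (by norm_num) hT0.le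
            _ ≤ 2 * T ^ ((1 : ℝ) / 4) := by
                refine mul_le_mul_of_nonneg_right ?_ (by positivity)
                have := Real.rpow_le_rpow_of_exponent_le (x := 2) (by norm_num) (show (1 : ℝ) / 4 ≤ 1 by norm_num)
                simpa using this
        calc ‖(sm 1 D.Ep x : ℂ)‖ ^ 2 ≤ (C1 * x ^ ((1 : ℝ) / 8)) ^ 2 := by gcongr
          _ = C1 ^ 2 * x ^ ((1 : ℝ) / 4) := by rw [mul_pow, b2]
          _ ≤ C1 ^ 2 * (2 * T ^ ((1 : ℝ) / 4)) := by gcongr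
          _ = _ := by ring
      have a2 : ∫ x in T..(2 * T), ‖(sm 1 D.Ep x : ℂ)‖ ^ 2 ≤ ∫ x in T..(2 * T), 2 * C1 ^ 2 * T ^ ((1 : ℝ) / 4) :=
        intervalIntegral.integral_mono_on hTT iA intervalIntegrable_const a1
      rw [intervalIntegral.integral_const] at a2
      refine a2.trans (le_of_eq ?_)
      have a3 : T ^ ((5 : ℝ) / 4) = T * T ^ ((1 : ℝ) / 4) := by
        rw [show (5 : ℝ) / 4 = 1 + 1 / 4 by norm_num, Real.rpow_add hT0, Real.rpow_one]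
      rw [a3, smul_eq_mul]
      ring
    have e4 : ∫ x in T..(2 * T), ‖vint Ψ (-(3/4)) x‖ ^ 2 ≤ C2 * T ^ ((5 : ℝ) / 4) := by
      have a1 := vint_loc Ψ hΨc hΨi hΨ2.1 (-(3/4)) hσ T hT0
      have a2 : T ^ (1 + 2 * (-(3/4) : ℝ)) ≤ T ^ ((5 : ℝ) / 4) :=
        Real.rpow_le_rpow_of_exponent_le hT (by norm_num)
      calc _ ≤ T ^ (1 + 2 * (-(3/4) : ℝ)) * ∫ t, ‖Ψ t‖ ^ 2 := a1
        _ ≤ T ^ ((5 : ℝ) / 4) * C2 := by
            refine mul_le_mul a2 hΨ2.2 ?_ (by positivity)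
            exact integral_nonneg fun t => by positivity
        _ = _ := by ring
    calc ∫ x in T..(2 * T), ‖(sm 1 D.Ep x : ℂ) - vint Ψ (-(3/4)) x‖ ^ 2
        ≤ 2 * (∫ x in T..(2 * T), ‖(sm 1 D.Ep x : ℂ)‖ ^ 2) + 2 * ∫ x in T..(2 * T), ‖vint Ψ (-(3/4)) x‖ ^ 2 :=
          e1.trans e2.le
      _ ≤ 2 * (2 * C1 ^ 2 * T ^ ((5 : ℝ) / 4)) + 2 * (C2 * T ^ ((5 : ℝ) / 4)) := by linarith
      _ = _ := by ring

end Pool.Agent.H15.SC
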