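import Pool.Agent.H15.SC.Block
import Pool.Agent.H15.SC.Kern
import Pool.Agent.H15.SC.ChiO

/-!
# SC-16  one term: comparison with the explicit function  (project SC, MP_be4568_nt)

`chi(s) vq(W,1)(s) = (Kp + Km)(s) (e^{s²/W²} - e^{s²}) + R(s) s vq(W,1)(s)`, `R = chi/s - Kp - Km`.
On the line `-3/4` the first part gives (`eE_smooth`, `eE_smooth_conj`) `2 re (smC W eE - smC 1 eE)`; `eE_near`,
`smC_one_bound`.
Second part: telescope (`vq_telescope`), for each `U = 2^j` use `vint_loc` on the line `-3/4` if `U^d ≤ Y` and on the line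
`1/8` otherwise (`vint_shift`: `R(s) s vq(2U,U)(s) = chi vq - (Kp + Km) s vq` is analytic for `re s < 1/4`, bound by
`Kp_bound`): `|R(s) s vq|² ≤ C U^{d(1-2σ)-4} e^{-t²/(8U²)}` for `|t| ≥ 1` (asymp, `|s vq(2U,U)| ≤ C (1+|t|)²/U² e^{-t²/(4U²)}`)
and `≤ C U^{-4}` for `|t| ≤ 1`, so `∫ ≤ C U^{d(1-2σ)-3}` and `∫_Y^{2Y} ≤ C Y U^{d-3} (Y/U^d)^{2σ} ≤ C Y`.
-/

set_option autoImplicit false

open Complex Filter Topology MeasureTheory Set
open scoped ComplexConjugate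

namespace Pool.Agent.H15.SC

variable {D : SelData}

theorem sing_ln_cont (σ : ℝ) : Continuous (ln σ) := by
  unfold ln; fun_prop

theorem sing_cpow_cont (σ : ℝ) {x : ℝ} (hx : 0 < x) : Continuous (fun t : ℝ => (x : ℂ) ^ (ln σ t)) := by
  have h1 := sing_ln_cont σ
  have h2 : ∀ s : ℂ, (x : ℂ) ^ s = cexp ((Real.log x : ℂ) * s) := fun s => by
    rw [Complex.cpow_def_of_ne_zero (Complex.ofReal_ne_zero.2 hx.ne'), ← Complex.ofReal_log hx.le]
  simp_rw [h2]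
  fun_prop

theorem sing_int_cpow {Φ : ℝ → ℂ} (h : Integrable Φ) (σ : ℝ) {x : ℝ} (hx : 0 < x) :
    Integrable (fun t => Φ t * (x : ℂ) ^ (ln σ t)) := by
  refine (h.norm.mul_const (x ^ σ)).mono'
    (h.aestronglyMeasurable.mul (sing_cpow_cont σ hx).aestronglyMeasurable)
    (Eventually.of_forall fun t => ?_)
  rw [norm_mul, Complex.norm_cpow_eq_rpow_re_of_pos hx, ln_re]

theorem sing_vint_sub {Φ Φ' : ℝ → ℂ} (h : Integrable Φ) (h' : Integrable Φ') (σ : ℝ) {x : ℝ}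
    (hx : 0 < x) : vint (fun t => Φ t - Φ' t) σ x = vint Φ σ x - vint Φ' σ x := by
  unfold vint
  rw [← mul_sub, ← integral_sub (sing_int_cpow h σ hx) (sing_int_cpow h' σ hx)]
  congr 1
  refine integral_congr_ae (Eventually.of_forall fun t => ?_)
  ring

theorem sing_vint_add {Φ Φ' : ℝ → ℂ} (h : Integrable Φ) (h' : Integrable Φ') (σ : ℝ) {x : ℝ}
    (hx : 0 < x) : vint (fun t => Φ t + Φ' t) σ x = vint Φ σ x + vint Φ' σ x := by
  unfold vint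
  rw [← mul_add, ← integral_add (sing_int_cpow h σ hx) (sing_int_cpow h' σ hx)]
  congr 1
  refine integral_congr_ae (Eventually.of_forall fun t => ?_)
  ring

theorem sing_vint_sum (Φ : ℕ → ℝ → ℂ) (h : ∀ j, Integrable (Φ j)) (σ : ℝ) {x : ℝ} (hx : 0 < x) (J : ℕ) :
    vint (fun t => ∑ j ∈ Finset.range J, Φ j t) σ x = ∑ j ∈ Finset.range J, vint (Φ j) σ x := by
  induction J with
  | zero => simp [vint]
  | succ J ih =>
    rw [Finset.sum_range_succ, ← ih]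
    have e : (fun t => ∑ j ∈ Finset.range (J + 1), Φ j t) =
        fun t => (∑ j ∈ Finset.range J, Φ j t) + Φ J t := by
      funext t; rw [Finset.sum_range_succ]
    rw [e]
    exact sing_vint_add (integrable_finsetSum _ fun j _ => h j) (h J) σ hx

/-- `s R(s) = chi(s) - s (Kp + Km)(s)` -/
noncomputable def singR (D : SelData) (d : ℕ) (κ β : ℂ) (c : ℝ) (s : ℂ) : ℂ :=
  D.chi s - s * (Kp d κ β c s + Km d κ β c s)

theorem sing_bet {d : ℕ} (hd : d = 2 ∨ d = 3) (η : ℝ) : 1 / 8 < (bet d η).re := by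
  rw [bet_re]
  rcases hd with rfl | rfl <;> norm_num

theorem singR_diff {d : ℕ} (hd : d = 2 ∨ d = 3) (h : IsSel D d) (O : OscData D d) :
    DifferentiableOn ℂ (singR D d O.κ (bet d O.η) O.c) {z : ℂ | -(3/4) ≤ z.re ∧ z.re ≤ 1/8} := by
  have hd1 : 1 ≤ d := by rcases hd with rfl | rfl <;> norm_num
  have hb := sing_bet hd O.η
  have h1 : DifferentiableOn ℂ D.chi {z : ℂ | -(3/4) ≤ z.re ∧ z.re ≤ 1/8} :=
    (chi_diff h).mono fun z hz => by
      have := hz.2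
      show z.re < 1
      linarith
  have h2 : DifferentiableOn ℂ (Kp d O.κ (bet d O.η) O.c) {z : ℂ | -(3/4) ≤ z.re ∧ z.re ≤ 1/8} :=
    (Kp_diff d hd1 O.κ (bet d O.η) O.c O.c_pos).mono fun z hz => lt_of_le_of_lt hz.2 hb
  have h3 : DifferentiableOn ℂ (Km d O.κ (bet d O.η) O.c) {z : ℂ | -(3/4) ≤ z.re ∧ z.re ≤ 1/8} :=
    (Km_diff d hd1 O.κ (bet d O.η) O.c O.c_pos).mono fun z hz => lt_of_le_of_lt hz.2 hb
  exact h1.sub (differentiableOn_id.mul (h2.add h3))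

theorem singR_bound {d : ℕ} (hd : d = 2 ∨ d = 3) (h : IsSel D d) (O : OscData D d) : ∃ C : ℝ, 0 ≤ C ∧
    ∀ s : ℂ, -(3/4) ≤ s.re → s.re ≤ 1/8 →
      ‖singR D d O.κ (bet d O.η) O.c s‖ ≤ C * (1 + |s.im|) ^ ((d : ℝ) * (1/2 - s.re) - 1) := by
  have hd1 : 1 ≤ d := by rcases hd with rfl | rfl <;> norm_num
  have hd2 : (2 : ℝ) ≤ d ∧ (d : ℝ) ≤ 3 := by rcases hd with rfl | rfl <;> norm_num
  obtain ⟨C1, hC1, H1⟩ := O.asymp
  obtain ⟨C2, hC2, H2⟩ := chi_bound h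
  obtain ⟨A, C3, hA, hC3, H3⟩ := Kp_bound d hd1 O.κ (bet d O.η) O.c O.c_pos (1/8) (sing_bet hd O.η)
  refine ⟨4 * C1 + 2 * (C2 * 16 + 2 * (2 * (C3 * Real.exp A))), by positivity, fun s hs1 hs2 => ?_⟩
  set e : ℝ := (d : ℝ) * (1/2 - s.re) with he
  have he0 : 0 ≤ e := mul_nonneg (by linarith) (by linarith)
  have he4 : e ≤ 4 := by
    have : (d : ℝ) * (1/2 - s.re) ≤ 3 * (5/4) :=
      mul_le_mul hd2.2 (by linarith) (by linarith) (by norm_num)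
    linarith
  have hpos : 0 < 1 + |s.im| := by positivity
  have hpow : 0 < (1 + |s.im|) ^ (e - 1) := Real.rpow_pos_of_pos hpos _
  rcases le_total 1 |s.im| with ht | ht
  · have hs0 : s ≠ 0 := by
      intro h0; rw [h0] at ht; simp at ht; linarith
    have e1 : singR D d O.κ (bet d O.η) O.c s =
        s * (D.chi s / s - Kp d O.κ (bet d O.η) O.c s - Km d O.κ (bet d O.η) O.c s) := by
      unfold singR
      field_simp
      ring
    have hns : ‖s‖ ≤ 2 * |s.im| := by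
      refine (norm_le_abs_re_add_abs_im s).trans ?_
      have : |s.re| ≤ 3/4 := abs_le.2 ⟨hs1, by linarith⟩
      linarith
    have hti : 0 < |s.im| := by linarith
    have e2 : |s.im| ^ (e - 2) * |s.im| ≤ 2 * (1 + |s.im|) ^ (e - 1) := by
      have a1 : |s.im| ^ (e - 2) * |s.im| = |s.im| ^ e / |s.im| := by
        rw [Real.rpow_sub hti, show |s.im| ^ (2 : ℝ) = |s.im| ^ 2 from Real.rpow_natCast _ 2]
        field_simp
      have a2 : (1 + |s.im|) ^ (e - 1) = (1 + |s.im|) ^ e / (1 + |s.im|) := by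
        rw [Real.rpow_sub hpos, Real.rpow_one]
      have a3 : |s.im| ^ e ≤ (1 + |s.im|) ^ e := Real.rpow_le_rpow hti.le (by linarith) he0
      rw [a1, a2, div_le_iff₀ hti]
      have a4 : 1 + |s.im| ≤ 2 * |s.im| := by linarith
      have a5 : 0 < (1 + |s.im|) ^ e := Real.rpow_pos_of_pos hpos _
      calc |s.im| ^ e ≤ (1 + |s.im|) ^ e := a3
        _ = (1 + |s.im|) ^ e / (1 + |s.im|) * (1 + |s.im|) := by field_simp
        _ ≤ (1 + |s.im|) ^ e / (1 + |s.im|) * (2 * |s.im|) :=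
            mul_le_mul_of_nonneg_left a4 (by positivity)
        _ = _ := by ring
    rw [e1, norm_mul]
    calc ‖s‖ * ‖D.chi s / s - Kp d O.κ (bet d O.η) O.c s - Km d O.κ (bet d O.η) O.c s‖
        ≤ (2 * |s.im|) * (C1 * |s.im| ^ (e - 2)) :=
          mul_le_mul hns (H1 s hs1 hs2 ht) (norm_nonneg _) (by positivity)
      _ = 2 * C1 * (|s.im| ^ (e - 2) * |s.im|) := by ring
      _ ≤ 2 * C1 * (2 * (1 + |s.im|) ^ (e - 1)) := by gcongr
      _ = (4 * C1) * (1 + |s.im|) ^ (e - 1) := by ring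
      _ ≤ _ := by
          refine mul_le_mul_of_nonneg_right ?_ hpow.le
          have : 0 ≤ C2 * 16 + 2 * (2 * (C3 * Real.exp A)) := by positivity
          linarith
  · have b1 : ‖D.chi s‖ ≤ C2 * 16 := by
      refine (H2 s hs1 (by linarith)).trans ?_
      refine mul_le_mul_of_nonneg_left ?_ hC2
      calc (1 + |s.im|) ^ ((d : ℝ) * (1/2 - s.re)) ≤ (2 : ℝ) ^ e :=
            Real.rpow_le_rpow hpos.le (by linarith) he0
        _ ≤ (2 : ℝ) ^ (4 : ℝ) := Real.rpow_le_rpow_of_exponent_le (by norm_num) he4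
        _ = 16 := by norm_num
    have b2 : ‖s‖ ≤ 2 := by
      refine (norm_le_abs_re_add_abs_im s).trans ?_
      have : |s.re| ≤ 3/4 := abs_le.2 ⟨hs1, by linarith⟩
      linarith
    have b3 : Real.exp (A * |s.im|) ≤ Real.exp A := by
      refine Real.exp_le_exp.2 ?_
      nlinarith
    have b4 : ‖Kp d O.κ (bet d O.η) O.c s + Km d O.κ (bet d O.η) O.c s‖ ≤ 2 * (C3 * Real.exp A) := by
      have := H3 s hs1 hs2
      refine (norm_add_le _ _).trans ?_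
      have c1 : C3 * Real.exp (A * |s.im|) ≤ C3 * Real.exp A := mul_le_mul_of_nonneg_left b3 hC3
      linarith [this.1, this.2]
    have b5 : ‖singR D d O.κ (bet d O.η) O.c s‖ ≤ C2 * 16 + 2 * (2 * (C3 * Real.exp A)) := by
      unfold singR
      refine (norm_sub_le _ _).trans (add_le_add b1 ?_)
      rw [norm_mul]
      exact mul_le_mul b2 b4 (norm_nonneg _) (by norm_num)
    have b6 : 1 ≤ 2 * (1 + |s.im|) ^ (e - 1) := by
      have c1 : (1 + |s.im|) ^ (-1 : ℝ) ≤ (1 + |s.im|) ^ (e - 1) :=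
        Real.rpow_le_rpow_of_exponent_le (by linarith [abs_nonneg s.im]) (by linarith)
      have c2 : (1 + |s.im|) ^ (-1 : ℝ) = (1 + |s.im|)⁻¹ := Real.rpow_neg_one _
      have c3 : (2 : ℝ)⁻¹ ≤ (1 + |s.im|)⁻¹ := inv_anti₀ hpos (by linarith)
      have c4 : (2 : ℝ)⁻¹ = 1 / 2 := by norm_num
      linarith [c1, c2, c3, c4]
    have b7 : 0 ≤ C2 * 16 + 2 * (2 * (C3 * Real.exp A)) := by positivity
    calc ‖singR D d O.κ (bet d O.η) O.c s‖ ≤ C2 * 16 + 2 * (2 * (C3 * Real.exp A)) := b5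
      _ = (C2 * 16 + 2 * (2 * (C3 * Real.exp A))) * 1 := by ring
      _ ≤ (C2 * 16 + 2 * (2 * (C3 * Real.exp A))) * (2 * (1 + |s.im|) ^ (e - 1)) := by gcongr
      _ = (2 * (C2 * 16 + 2 * (2 * (C3 * Real.exp A)))) * (1 + |s.im|) ^ (e - 1) := by ring
      _ ≤ _ := by
          refine mul_le_mul_of_nonneg_right ?_ hpow.le
          linarith

theorem sing_prod_bound {d : ℕ} (hd : d = 2 ∨ d = 3) (h : IsSel D d) (O : OscData D d) : ∃ C : ℝ, 0 ≤ C ∧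
    ∀ U : ℝ, 1 ≤ U → ∀ s : ℂ, -(3/4) ≤ s.re → s.re ≤ 1/8 →
      ‖singR D d O.κ (bet d O.η) O.c s * vq (2 * U) U s‖ ≤
        C * (1 + |s.im|) ^ ((d : ℝ) * (1/2 - s.re)) / U ^ 2 * Real.exp (-(s.im ^ 2 / (4 * U ^ 2))) := by
  obtain ⟨C1, hC1, H1⟩ := singR_bound hd h O
  obtain ⟨C2, hC2, H2⟩ := vq_block
  refine ⟨C1 * C2, by positivity, fun U hU s hs1 hs2 => ?_⟩
  have hpos : 0 < 1 + |s.im| := by positivity
  have hU0 : 0 < U := by linarith
  rw [norm_mul]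
  have e1 := H1 s hs1 hs2
  have e2 := H2 U hU s (abs_le.2 ⟨hs1, by linarith⟩)
  have e3 : (1 + |s.im|) ^ ((d : ℝ) * (1/2 - s.re) - 1) * (1 + |s.im|) = (1 + |s.im|) ^ ((d : ℝ) * (1/2 - s.re)) := by
    rw [Real.rpow_sub hpos, Real.rpow_one]
    field_simp
  calc ‖singR D d O.κ (bet d O.η) O.c s‖ * ‖vq (2 * U) U s‖
      ≤ (C1 * (1 + |s.im|) ^ ((d : ℝ) * (1/2 - s.re) - 1)) *
        (C2 * (1 + |s.im|) / U ^ 2 * Real.exp (-(s.im ^ 2 / (4 * U ^ 2)))) :=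
        mul_le_mul e1 e2 (norm_nonneg _) (by positivity)
    _ = C1 * C2 * ((1 + |s.im|) ^ ((d : ℝ) * (1/2 - s.re) - 1) * (1 + |s.im|)) / U ^ 2 *
        Real.exp (-(s.im ^ 2 / (4 * U ^ 2))) := by ring
    _ = _ := by rw [e3]

/-- the block function of the remainder -/
noncomputable def singΦ (D : SelData) (d : ℕ) (κ β : ℂ) (c : ℝ) (U σ t : ℝ) : ℂ :=
  singR D d κ β c (ln σ t) * vq (2 * U) U (ln σ t)

theorem singΦ_cont {d : ℕ} (hd : d = 2 ∨ d = 3) (h : IsSel D d) (O : OscData D d) (U : ℝ) {σ : ℝ}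
    (h1 : -(3/4) ≤ σ) (h2 : σ ≤ 1/8) : Continuous (singΦ D d O.κ (bet d O.η) O.c U σ) := by
  have e1 := (singR_diff hd h O).continuousOn
  have e2 : Continuous (fun t : ℝ => singR D d O.κ (bet d O.η) O.c (ln σ t)) :=
    e1.comp_continuous (sing_ln_cont σ) fun t => by
      show -(3/4) ≤ (ln σ t).re ∧ (ln σ t).re ≤ 1/8
      rw [ln_re]
      exact ⟨h1, h2⟩
  exact e2.mul ((vq_differentiable (2 * U) U).continuous.comp (sing_ln_cont σ))

theorem sing_L2 {d : ℕ} (hd : d = 2 ∨ d = 3) (h : IsSel D d) (O : OscData D d) {σ : ℝ}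
    (h1 : -(3/4) ≤ σ) (h2 : σ ≤ 1/8) : ∃ C : ℝ, 0 ≤ C ∧ ∀ U : ℝ, 1 ≤ U →
      Integrable (singΦ D d O.κ (bet d O.η) O.c U σ) ∧
      Integrable (fun t => ‖singΦ D d O.κ (bet d O.η) O.c U σ t‖ ^ 2) ∧
      ∫ t, ‖singΦ D d O.κ (bet d O.η) O.c U σ t‖ ^ 2 ≤ C * U ^ ((d : ℝ) * (1 - 2 * σ) - 3) := by
  have hd2 : (2 : ℝ) ≤ d ∧ (d : ℝ) ≤ 3 := by rcases hd with rfl | rfl <;> norm_num
  obtain ⟨C1, hC1, H1⟩ := sing_prod_bound hd h O
  have hp : 0 ≤ (d : ℝ) * (1 - 2 * σ) := mul_nonneg (by linarith) (by linarith)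
  obtain ⟨C2, hC2, H2⟩ := pow_mul_gauss ((d : ℝ) * (1 - 2 * σ)) hp
  refine ⟨C1 ^ 2 * C2 * (2 * Real.sqrt Real.pi), by positivity, fun U hU => ?_⟩
  have hU0 : 0 < U := by linarith
  have hc := singΦ_cont hd h O U h1 h2
  have hb : ∀ t : ℝ, ‖singΦ D d O.κ (bet d O.η) O.c U σ t‖ ≤
      C1 * (1 + |t|) ^ ((d : ℝ) * (1/2 - σ)) / U ^ 2 * Real.exp (-(t ^ 2 / (4 * U ^ 2))) := by
    intro t
    have := H1 U hU (ln σ t) (by rw [ln_re]; exact h1) (by rw [ln_re]; exact h2)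
    rw [ln_re, ln_im] at this
    exact this
  have hi1 : Integrable (singΦ D d O.κ (bet d O.η) O.c U σ) := by
    have g1 := (integrable_pow_gauss ((d : ℝ) * (1/2 - σ)) (W := 2 * U) (by linarith)).const_mul (C1 / U ^ 2)
    refine g1.mono' hc.aestronglyMeasurable (Eventually.of_forall fun t => (hb t).trans (le_of_eq ?_))
    rw [show (2 * U) ^ 2 = 4 * U ^ 2 by ring]
    ring
  have hsq : ∀ t : ℝ, ‖singΦ D d O.κ (bet d O.η) O.c U σ t‖ ^ 2 ≤
      C1 ^ 2 * C2 * U ^ ((d : ℝ) * (1 - 2 * σ)) / U ^ 4 * Real.exp (-(1 / (4 * U ^ 2)) * t ^ 2) := by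
    intro t
    have hpos : 0 < 1 + |t| := by positivity
    have g1 : ‖singΦ D d O.κ (bet d O.η) O.c U σ t‖ ^ 2 ≤
        (C1 * (1 + |t|) ^ ((d : ℝ) * (1/2 - σ)) / U ^ 2 * Real.exp (-(t ^ 2 / (4 * U ^ 2)))) ^ 2 :=
      pow_le_pow_left₀ (norm_nonneg _) (hb t) 2
    have g2 : ((1 + |t|) ^ ((d : ℝ) * (1/2 - σ))) ^ 2 = (1 + |t|) ^ ((d : ℝ) * (1 - 2 * σ)) := by
      rw [← Real.rpow_natCast, ← Real.rpow_mul hpos.le]
      congr 1
      push_cast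
      ring
    have g3 : (Real.exp (-(t ^ 2 / (4 * U ^ 2)))) ^ 2 = Real.exp (-(t ^ 2 / (2 * U ^ 2))) := by
      rw [← Real.exp_nat_mul]
      congr 1
      push_cast
      field_simp
      ring
    have g4 := H2 U hU t
    have g5 : Real.exp (-(t ^ 2 / (4 * U ^ 2))) = Real.exp (-(1 / (4 * U ^ 2)) * t ^ 2) := by
      congr 1
      ring
    calc _ ≤ _ := g1
      _ = C1 ^ 2 / U ^ 4 * (((1 + |t|) ^ ((d : ℝ) * (1/2 - σ))) ^ 2 * (Real.exp (-(t ^ 2 / (4 * U ^ 2)))) ^ 2) := by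
          ring
      _ = C1 ^ 2 / U ^ 4 * ((1 + |t|) ^ ((d : ℝ) * (1 - 2 * σ)) * Real.exp (-(t ^ 2 / (2 * U ^ 2)))) := by
          rw [g2, g3]
      _ ≤ C1 ^ 2 / U ^ 4 * (C2 * U ^ ((d : ℝ) * (1 - 2 * σ)) * Real.exp (-(t ^ 2 / (4 * U ^ 2)))) := by
          gcongr
      _ = _ := by rw [g5]; ring
  have hgi : Integrable (fun t : ℝ => C1 ^ 2 * C2 * U ^ ((d : ℝ) * (1 - 2 * σ)) / U ^ 4 *
      Real.exp (-(1 / (4 * U ^ 2)) * t ^ 2)) :=
    (integrable_exp_neg_mul_sq (b := 1 / (4 * U ^ 2)) (by positivity)).const_mul _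
  have hi2 : Integrable (fun t => ‖singΦ D d O.κ (bet d O.η) O.c U σ t‖ ^ 2) := by
    refine hgi.mono' (hc.norm.pow 2).aestronglyMeasurable (Eventually.of_forall fun t => ?_)
    rw [Real.norm_eq_abs, abs_of_nonneg (by positivity)]
    exact hsq t
  refine ⟨hi1, hi2, ?_⟩
  refine (integral_mono hi2 hgi hsq).trans (le_of_eq ?_)
  rw [integral_const_mul, integral_gaussian]
  have g6 : Real.sqrt (Real.pi / (1 / (4 * U ^ 2))) = 2 * Real.sqrt Real.pi * U := by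
    rw [show Real.pi / (1 / (4 * U ^ 2)) = Real.pi * (2 * U) ^ 2 by field_simp; ring,
      Real.sqrt_mul Real.pi_pos.le, Real.sqrt_sq (by linarith)]
    ring
  rw [g6, Real.rpow_sub hU0, show U ^ (3 : ℝ) = U ^ 3 by exact_mod_cast Real.rpow_natCast U 3]
  field_simp

/-- each block of the remainder is small in `L²[Y,2Y]` -/
theorem sing_block {d : ℕ} (hd : d = 2 ∨ d = 3) (h : IsSel D d) (O : OscData D d) : ∃ C : ℝ, 0 ≤ C ∧
    ∀ U : ℝ, 1 ≤ U → ∀ Y : ℝ, 1 ≤ Y →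
      ∫ y in Y..(2 * Y), ‖vint (singΦ D d O.κ (bet d O.η) O.c U (-(3/4))) (-(3/4)) y‖ ^ 2 ≤ C * Y := by
  have hd2 : (2 : ℝ) ≤ d ∧ (d : ℝ) ≤ 3 := by rcases hd with rfl | rfl <;> norm_num
  obtain ⟨Ca, hCa, Ha⟩ := sing_L2 hd h O (σ := -(3/4)) le_rfl (by norm_num)
  obtain ⟨Cb, hCb, Hb⟩ := sing_L2 hd h O (σ := 1/8) (by norm_num) le_rfl
  obtain ⟨Cp, hCp, Hp⟩ := sing_prod_bound hd h O
  refine ⟨Ca + Cb, by positivity, fun U hU Y hY => ?_⟩
  have hU0 : 0 < U := by linarith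
  have hY0 : 0 < Y := by linarith
  have hU3 : U ^ ((d : ℝ) - 3) ≤ 1 := Real.rpow_le_one_of_one_le_of_nonpos hU (by linarith)
  rcases le_total (U ^ (d : ℝ)) Y with hc | hc
  · obtain ⟨i1, i2, i3⟩ := Ha U hU
    have g1 := vint_loc _ (singΦ_cont hd h O U le_rfl (by norm_num)) i1 i2 (-(3/4))
      (by rw [abs_neg, abs_of_pos] <;> norm_num) Y hY0
    have g2 : U ^ ((d : ℝ) * (1 - 2 * (-(3/4))) - 3) ≤ Y ^ ((3 : ℝ) / 2) := by
      calc U ^ ((d : ℝ) * (1 - 2 * (-(3/4))) - 3) = (U ^ (d : ℝ)) ^ ((3 : ℝ) / 2) * U ^ ((d : ℝ) - 3) := by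
            rw [← Real.rpow_mul hU0.le, ← Real.rpow_add hU0]
            congr 1
            ring
        _ ≤ Y ^ ((3 : ℝ) / 2) * 1 := by
            refine mul_le_mul (Real.rpow_le_rpow (by positivity) hc (by norm_num)) hU3 (by positivity) (by positivity)
        _ = _ := mul_one _
    calc _ ≤ Y ^ (1 + 2 * (-(3/4) : ℝ)) * ∫ t, ‖singΦ D d O.κ (bet d O.η) O.c U (-(3/4)) t‖ ^ 2 := g1
      _ ≤ Y ^ (1 + 2 * (-(3/4) : ℝ)) * (Ca * Y ^ ((3 : ℝ) / 2)) := by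
          refine mul_le_mul_of_nonneg_left (i3.trans (mul_le_mul_of_nonneg_left g2 hCa)) (by positivity)
      _ = Ca * (Y ^ (1 + 2 * (-(3/4) : ℝ)) * Y ^ ((3 : ℝ) / 2)) := by ring
      _ = Ca * Y := by
          rw [← Real.rpow_add hY0]
          norm_num
      _ ≤ _ := by nlinarith
  · obtain ⟨i1, i2, i3⟩ := Hb U hU
    have g0 : ∀ y : ℝ, 0 < y → vint (singΦ D d O.κ (bet d O.η) O.c U (-(3/4))) (-(3/4)) y =
        vint (singΦ D d O.κ (bet d O.η) O.c U (1/8)) (1/8) y := by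
      intro y hy
      obtain ⟨Cq, hCq, Hq⟩ := poly_gauss_le ((d : ℝ) * (5/4)) (W := 2 * U) (by linarith)
      refine vint_shift (fun s => singR D d O.κ (bet d O.η) O.c s * vq (2 * U) U s) (-(3/4)) (1/8)
        (Cp / U ^ 2 * Cq) (by norm_num) ?_ ?_ y hy
      · exact (singR_diff hd h O).mul (vq_differentiable _ _).differentiableOn
      · intro z hz1 hz2
        have k1 := Hp U hU z hz1 hz2
        have k2 := Hq z.im
        have hpos : 1 ≤ 1 + |z.im| := by linarith [abs_nonneg z.im]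
        have k3 : (1 + |z.im|) ^ ((d : ℝ) * (1/2 - z.re)) ≤ (1 + |z.im|) ^ ((d : ℝ) * (5/4)) :=
          Real.rpow_le_rpow_of_exponent_le hpos (by nlinarith)
        calc _ ≤ _ := k1
          _ ≤ Cp * (1 + |z.im|) ^ ((d : ℝ) * (5/4)) / U ^ 2 * Real.exp (-(z.im ^ 2 / (4 * U ^ 2))) := by
              gcongr
          _ = Cp / U ^ 2 * ((1 + |z.im|) ^ ((d : ℝ) * (5/4)) * Real.exp (-(z.im ^ 2 / (2 * U) ^ 2))) := by
              rw [show (2 * U) ^ 2 = 4 * U ^ 2 by ring]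
              ring
          _ ≤ Cp / U ^ 2 * (Cq * Real.exp (-|z.im|)) := mul_le_mul_of_nonneg_left k2 (by positivity)
          _ = _ := by ring
    have g1 := vint_loc _ (singΦ_cont hd h O U (by norm_num) le_rfl) i1 i2 (1/8)
      (by rw [abs_of_pos (by norm_num)]; norm_num) Y hY0
    have g2 : Y ^ (1 + 2 * (1/8 : ℝ)) * U ^ ((d : ℝ) * (1 - 2 * (1/8)) - 3) ≤ Y := by
      have k1 : Y ^ ((1 : ℝ) / 4) ≤ (U ^ (d : ℝ)) ^ ((1 : ℝ) / 4) := Real.rpow_le_rpow hY0.le hc (by norm_num)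
      calc Y ^ (1 + 2 * (1/8 : ℝ)) * U ^ ((d : ℝ) * (1 - 2 * (1/8)) - 3)
          = Y * Y ^ ((1 : ℝ) / 4) * U ^ ((d : ℝ) * (1 - 2 * (1/8)) - 3) := by
            rw [show (1 + 2 * (1/8 : ℝ)) = 1 + 1/4 by norm_num, Real.rpow_add hY0, Real.rpow_one]
        _ ≤ Y * (U ^ (d : ℝ)) ^ ((1 : ℝ) / 4) * U ^ ((d : ℝ) * (1 - 2 * (1/8)) - 3) := by gcongr
        _ = Y * U ^ ((d : ℝ) - 3) := by
            rw [mul_assoc, ← Real.rpow_mul hU0.le, ← Real.rpow_add hU0]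
            congr 2
            ring
        _ ≤ Y * 1 := by gcongr
        _ = Y := mul_one _
    have g3 : ∫ y in Y..(2 * Y), ‖vint (singΦ D d O.κ (bet d O.η) O.c U (-(3/4))) (-(3/4)) y‖ ^ 2 =
        ∫ y in Y..(2 * Y), ‖vint (singΦ D d O.κ (bet d O.η) O.c U (1/8)) (1/8) y‖ ^ 2 := by
      refine intervalIntegral.integral_congr fun y hy => ?_
      rw [uIcc_of_le (by linarith)] at hy
      show ‖vint (singΦ D d O.κ (bet d O.η) O.c U (-(3/4))) (-(3/4)) y‖ ^ 2 = _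
      rw [g0 y (by linarith [hy.1])]
    rw [g3]
    calc _ ≤ Y ^ (1 + 2 * (1/8 : ℝ)) * ∫ t, ‖singΦ D d O.κ (bet d O.η) O.c U (1/8) t‖ ^ 2 := g1
      _ ≤ Y ^ (1 + 2 * (1/8 : ℝ)) * (Cb * U ^ ((d : ℝ) * (1 - 2 * (1/8)) - 3)) := by gcongr
      _ = Cb * (Y ^ (1 + 2 * (1/8 : ℝ)) * U ^ ((d : ℝ) * (1 - 2 * (1/8)) - 3)) := by ring
      _ ≤ Cb * Y := by gcongr
      _ ≤ _ := by nlinarith


/-- `Kp e^{s²/W²}` is integrable on the line `-3/4` -/
theorem sing_K_int {d : ℕ} (hd : d = 2 ∨ d = 3) (O : OscData D d) {W : ℝ} (hW : 0 < W) :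
    Integrable (fun t : ℝ => Kp d O.κ (bet d O.η) O.c (ln (-(3/4)) t) * cexp ((ln (-(3/4)) t) ^ 2 / (W : ℂ) ^ 2)) ∧
    Integrable (fun t : ℝ => Km d O.κ (bet d O.η) O.c (ln (-(3/4)) t) * cexp ((ln (-(3/4)) t) ^ 2 / (W : ℂ) ^ 2)) := by
  have hd1 : 1 ≤ d := by rcases hd with rfl | rfl <;> norm_num
  have hb := sing_bet hd O.η
  obtain ⟨A, C, hA, hC, H⟩ := Kp_bound d hd1 O.κ (bet d O.η) O.c O.c_pos (1/8) hb
  have hc1 : Continuous (fun t : ℝ => cexp ((ln (-(3/4)) t) ^ 2 / (W : ℂ) ^ 2)) := by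
    have := sing_ln_cont (-(3/4))
    fun_prop
  have hline : ∀ t : ℝ, ln (-(3/4)) t ∈ {s : ℂ | s.re < (bet d O.η).re} := fun t => by
    show (ln (-(3/4)) t).re < _
    rw [ln_re]; linarith
  have hKp : Continuous (fun t : ℝ => Kp d O.κ (bet d O.η) O.c (ln (-(3/4)) t)) :=
    (Kp_diff d hd1 O.κ (bet d O.η) O.c O.c_pos).continuousOn.comp_continuous (sing_ln_cont _) hline
  have hKm : Continuous (fun t : ℝ => Km d O.κ (bet d O.η) O.c (ln (-(3/4)) t)) :=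
    (Km_diff d hd1 O.κ (bet d O.η) O.c O.c_pos).continuousOn.comp_continuous (sing_ln_cont _) hline
  have hg : Integrable (fun t : ℝ => C * Real.exp ((3/4) ^ 2 / W ^ 2 + A ^ 2 * W ^ 2) *
      Real.exp (-(1 / (2 * W ^ 2)) * t ^ 2)) :=
    (integrable_exp_neg_mul_sq (b := 1 / (2 * W ^ 2)) (by positivity)).const_mul _
  have key : ∀ t : ℝ, C * Real.exp (A * |t|) * ‖cexp ((ln (-(3/4)) t) ^ 2 / (W : ℂ) ^ 2)‖ ≤
      C * Real.exp ((3/4) ^ 2 / W ^ 2 + A ^ 2 * W ^ 2) * Real.exp (-(1 / (2 * W ^ 2)) * t ^ 2) := by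
    intro t
    rw [norm_expQ, mul_assoc, mul_assoc, ← Real.exp_add, ← Real.exp_add]
    refine mul_le_mul_of_nonneg_left (Real.exp_le_exp.2 ?_) hC
    have k1 : A * |t| ≤ A ^ 2 * W ^ 2 + t ^ 2 / (2 * W ^ 2) := by
      have k2 : 0 ≤ (A * W - |t| / (2 * W)) ^ 2 := sq_nonneg _
      have k3 : (A * W - |t| / (2 * W)) ^ 2 = A ^ 2 * W ^ 2 - A * |t| + t ^ 2 / (4 * W ^ 2) := by
        have : |t| ^ 2 = t ^ 2 := sq_abs t
        field_simp
        rw [← this]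
        ring
      have k4 : t ^ 2 / (4 * W ^ 2) ≤ t ^ 2 / (2 * W ^ 2) := by
        refine div_le_div_of_nonneg_left (by positivity) (by positivity) ?_
        nlinarith [sq_nonneg W]
      linarith
    have k5 : ((-(3/4)) ^ 2 - t ^ 2) / W ^ 2 = (3/4) ^ 2 / W ^ 2 - t ^ 2 / W ^ 2 := by ring
    have k6 : -(1 / (2 * W ^ 2)) * t ^ 2 = t ^ 2 / (2 * W ^ 2) - t ^ 2 / W ^ 2 := by
      field_simp
      ring
    rw [k5, k6]
    linarith
  constructor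
  · refine hg.mono' (hKp.mul hc1).aestronglyMeasurable (Eventually.of_forall fun t => ?_)
    rw [norm_mul]
    refine le_trans (mul_le_mul_of_nonneg_right ?_ (norm_nonneg _)) (key t)
    have := (H (ln (-(3/4)) t) (by rw [ln_re]) (by rw [ln_re]; norm_num)).1
    rwa [ln_im] at this
  · refine hg.mono' (hKm.mul hc1).aestronglyMeasurable (Eventually.of_forall fun t => ?_)
    rw [norm_mul]
    refine le_trans (mul_le_mul_of_nonneg_right ?_ (norm_nonneg _)) (key t)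
    have := (H (ln (-(3/4)) t) (by rw [ln_re]) (by rw [ln_re]; norm_num)).2
    rwa [ln_im] at this

/-- the decomposition of the kernel -/
theorem sing_split {d : ℕ} (hd : d = 2 ∨ d = 3) (h : IsSel D d) (O : OscData D d) (J : ℕ) {y : ℝ} (hy : 0 < y) :
    cW D (2 ^ J) y = (smC (2 ^ J) (eE d O.κ (bet d O.η) O.c) y - smC 1 (eE d O.κ (bet d O.η) O.c) y) +
      conj (smC (2 ^ J) (eE d O.κ (bet d O.η) O.c) y - smC 1 (eE d O.κ (bet d O.η) O.c) y) +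
      ∑ j ∈ Finset.range J, vint (singΦ D d O.κ (bet d O.η) O.c (2 ^ j) (-(3/4))) (-(3/4)) y := by
  have hd1 : 1 ≤ d := by rcases hd with rfl | rfl <;> norm_num
  have hb := sing_bet hd O.η
  have hW : (0 : ℝ) < 2 ^ J := by positivity
  obtain ⟨Ca, -, Ha⟩ := sing_L2 hd h O (σ := -(3/4)) le_rfl (by norm_num)
  have hΦ : ∀ j : ℕ, Integrable (singΦ D d O.κ (bet d O.η) O.c (2 ^ j) (-(3/4))) := fun j =>
    (Ha (2 ^ j) (one_le_pow₀ (by norm_num))).1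
  obtain ⟨p1, m1⟩ := sing_K_int hd O hW
  obtain ⟨p2, m2⟩ := sing_K_int hd O one_pos
  set P1 : ℝ → ℂ := fun t => Kp d O.κ (bet d O.η) O.c (ln (-(3/4)) t) *
    cexp ((ln (-(3/4)) t) ^ 2 / ((2 ^ J : ℝ) : ℂ) ^ 2) with hP1
  set P2 : ℝ → ℂ := fun t => Kp d O.κ (bet d O.η) O.c (ln (-(3/4)) t) *
    cexp ((ln (-(3/4)) t) ^ 2 / ((1 : ℝ) : ℂ) ^ 2) with hP2
  set M1 : ℝ → ℂ := fun t => Km d O.κ (bet d O.η) O.c (ln (-(3/4)) t) *
    cexp ((ln (-(3/4)) t) ^ 2 / ((2 ^ J : ℝ) : ℂ) ^ 2) with hM1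
  set M2 : ℝ → ℂ := fun t => Km d O.κ (bet d O.η) O.c (ln (-(3/4)) t) *
    cexp ((ln (-(3/4)) t) ^ 2 / ((1 : ℝ) : ℂ) ^ 2) with hM2
  have s1 : (fun t : ℝ => D.chi (ln (-(3/4)) t) * vq (2 ^ J) 1 (ln (-(3/4)) t)) = fun t : ℝ =>
      ((P1 t - P2 t) + (M1 t - M2 t)) +
      ∑ j ∈ Finset.range J, singΦ D d O.κ (bet d O.η) O.c (2 ^ j) (-(3/4)) t := by
    funext t
    have hs0 : ln (-(3/4)) t ≠ 0 := by
      intro h0
      have : (ln (-(3/4)) t).re = 0 := by rw [h0]; rfl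
      rw [ln_re] at this
      norm_num at this
    simp only [hP1, hP2, hM1, hM2]
    set s := ln (-(3/4)) t with hs
    have e1 : ∑ j ∈ Finset.range J, singΦ D d O.κ (bet d O.η) O.c (2 ^ j) (-(3/4)) t =
        singR D d O.κ (bet d O.η) O.c s * vq (2 ^ J) 1 s := by
      rw [vq_telescope, Finset.mul_sum]
      refine Finset.sum_congr rfl fun j _ => ?_
      unfold singΦ
      rw [← hs, pow_succ' (2 : ℝ) j]
    have e2 : s * vq (2 ^ J) 1 s = cexp (s ^ 2 / ((2 ^ J : ℝ) : ℂ) ^ 2) - cexp (s ^ 2 / ((1 : ℝ) : ℂ) ^ 2) := by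
      unfold vq
      field_simp
    have e3 : D.chi s * vq (2 ^ J) 1 s = (Kp d O.κ (bet d O.η) O.c s + Km d O.κ (bet d O.η) O.c s) *
        (s * vq (2 ^ J) 1 s) + singR D d O.κ (bet d O.η) O.c s * vq (2 ^ J) 1 s := by
      unfold singR
      ring
    rw [e1, e3, e2]
    ring
  have q1 : vint P1 (-(3/4)) y = smC (2 ^ J) (eE d O.κ (bet d O.η) O.c) y :=
    (eE_smooth d hd1 O.κ (bet d O.η) O.c O.c_pos hW (by linarith) hy).symm
  have q2 : vint P2 (-(3/4)) y = smC 1 (eE d O.κ (bet d O.η) O.c) y :=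
    (eE_smooth d hd1 O.κ (bet d O.η) O.c O.c_pos one_pos (by linarith) hy).symm
  have q3 : vint M1 (-(3/4)) y = conj (smC (2 ^ J) (eE d O.κ (bet d O.η) O.c) y) :=
    (eE_smooth_conj d hd1 O.κ (bet d O.η) O.c O.c_pos hW (by linarith) hy).symm
  have q4 : vint M2 (-(3/4)) y = conj (smC 1 (eE d O.κ (bet d O.η) O.c) y) :=
    (eE_smooth_conj d hd1 O.κ (bet d O.η) O.c O.c_pos one_pos (by linarith) hy).symm
  have i1 : Integrable (fun t => P1 t - P2 t) := p1.sub p2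
  have i2 : Integrable (fun t => M1 t - M2 t) := m1.sub m2
  have i3 : Integrable (fun t => (P1 t - P2 t) + (M1 t - M2 t)) := i1.add i2
  have i4 : Integrable (fun t => ∑ j ∈ Finset.range J, singΦ D d O.κ (bet d O.η) O.c (2 ^ j) (-(3/4)) t) :=
    integrable_finsetSum _ fun j _ => hΦ j
  unfold cW
  rw [s1, sing_vint_add i3 i4 _ hy, sing_vint_add i1 i2 _ hy, sing_vint_sub p1 p2 _ hy, sing_vint_sub m1 m2 _ hy,
    sing_vint_sum _ hΦ _ hy, q1, q2, q3, q4, map_sub]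

theorem sing_cW_cont {d : ℕ} (h : IsSel D d) (J : ℕ) : ContinuousOn (cW D (2 ^ J)) (Ioi 0) := by
  have h1 : ContinuousOn (fun y => ∑ j ∈ Finset.range J, cB D (2 ^ j) y) (Ioi 0) :=
    continuousOn_finsetSum _ fun j _ => cB_continuousOn h (one_le_pow₀ (by norm_num))
  exact h1.congr fun y hy => cW_eq_sum h J hy

theorem sing_eE_cont (d : ℕ) (κ β : ℂ) (c : ℝ) : ContinuousOn (eE d κ β c) (Ioi 0) := by
  intro y hy
  have hy : 0 < y := hy
  refine ContinuousAt.continuousWithinAt ?_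
  unfold eE
  have h1 : ContinuousAt (fun y : ℝ => (y : ℂ) ^ β) y :=
    Complex.continuousAt_ofReal_cpow_const y β (Or.inr hy.ne')
  have h2 : ContinuousAt (fun y : ℝ => y ^ ((1 : ℝ) / d)) y :=
    Real.continuousAt_rpow_const y _ (Or.inl hy.ne')
  have h3 : ContinuousAt (fun y : ℝ => cexp (I * ((c * y ^ ((1 : ℝ) / d) : ℝ) : ℂ))) y :=
    (continuousAt_const.mul (Complex.continuous_ofReal.continuousAt.comp (continuousAt_const.mul h2))).cexp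
  exact (continuousAt_const.mul h1).mul h3

theorem single {d : ℕ} (hd : d = 2 ∨ d = 3) (h : IsSel D d) (O : OscData D d) : ∃ C : ℝ, 0 ≤ C ∧
    ∀ Y : ℝ, 1 ≤ Y → ∀ J : ℕ,
    ∫ y in Y..(2 * Y), ‖cW D (2 ^ J) y - ((2 * (eE d O.κ (bet d O.η) O.c y).re : ℝ) : ℂ)‖ ^ 2 ≤
      C * (Y * (1 + J) ^ 2 + Y ^ (2 + 1 / (d : ℝ)) / ((2 : ℝ) ^ J) ^ 2) := by
  have hd1 : 1 ≤ d := by rcases hd with rfl | rfl <;> norm_num
  have hd2 : (2 : ℝ) ≤ d ∧ (d : ℝ) ≤ 3 := by rcases hd with rfl | rfl <;> norm_num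
  have hb := sing_bet hd O.η
  obtain ⟨C1, hC1, H1⟩ := eE_near d hd1 O.κ (bet d O.η) (by linarith) O.c O.c_pos
  obtain ⟨C2, hC2, H2⟩ := smC_one_bound d hd1 O.κ (bet d O.η) O.c O.c_pos (by linarith)
  obtain ⟨C3, hC3, H3⟩ := sing_block hd h O
  obtain ⟨Ca, -, Ha⟩ := sing_L2 hd h O (σ := -(3/4)) le_rfl (by norm_num)
  refine ⟨64 * C1 ^ 2 + 16 * C2 ^ 2 + 2 * C3, by positivity, fun Y hY J => ?_⟩
  have hY0 : 0 < Y := by linarith
  have hW : (1 : ℝ) ≤ 2 ^ J := one_le_pow₀ (by norm_num)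
  have hW0 : (0 : ℝ) < 2 ^ J := by linarith
  set V : ℕ → ℝ → ℂ := fun j y => vint (singΦ D d O.κ (bet d O.η) O.c (2 ^ j) (-(3/4))) (-(3/4)) y with hV
  have hVc : ∀ j, ContinuousOn (V j) (Ioi 0) := fun j =>
    vint_continuousOn _ (singΦ_cont hd h O _ le_rfl (by norm_num)) (Ha (2 ^ j) (one_le_pow₀ (by norm_num))).1 _
  have hVi : ∀ j, IntervalIntegrable (fun y => ‖V j y‖ ^ 2) volume Y (2 * Y) := fun j => by
    refine ContinuousOn.intervalIntegrable ?_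
    rw [uIcc_of_le (by linarith)]
    exact ((hVc j).mono fun y hy => lt_of_lt_of_le hY0 hy.1).norm.pow 2
  -- the constant part of the bound
  set A : ℝ := 64 * C1 ^ 2 * Y ^ (1 + 1 / (d : ℝ)) / (2 ^ J) ^ 2 + 16 * C2 ^ 2 with hA
  have hre : (bet d O.η).re + 1 / (d : ℝ) = ((d : ℝ) + 1) / (2 * d) := by
    rw [bet_re]
    have : (d : ℝ) ≠ 0 := by linarith
    field_simp
    ring
  have hpt : ∀ y ∈ Icc Y (2 * Y), ‖cW D (2 ^ J) y - ((2 * (eE d O.κ (bet d O.η) O.c y).re : ℝ) : ℂ)‖ ^ 2 ≤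
      A + 2 * (J * ∑ j ∈ Finset.range J, ‖V j y‖ ^ 2) := by
    intro y hy
    have hy0 : 0 < y := lt_of_lt_of_le hY0 hy.1
    have hy1 : 1 ≤ y := hY.trans hy.1
    set E := eE d O.κ (bet d O.η) O.c y with hE
    set G := smC (2 ^ J) (eE d O.κ (bet d O.η) O.c) y with hG
    set G1 := smC 1 (eE d O.κ (bet d O.η) O.c) y with hG1
    have e1 : cW D (2 ^ J) y - ((2 * E.re : ℝ) : ℂ) =
        ((G - E - G1) + conj (G - E - G1)) + ∑ j ∈ Finset.range J, V j y := by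
      have := Complex.add_conj E
      rw [sing_split hd h O J hy0, ← this]
      simp only [map_sub]
      ring
    have e2 : ‖G - E - G1‖ ≤ C1 * (2 * Y) ^ (((d : ℝ) + 1) / (2 * d)) / 2 ^ J + C2 := by
      refine (norm_sub_le _ _).trans (add_le_add ?_ (H2 y hy1))
      refine (H1 y hy1 (2 ^ J) hW).trans ?_
      rw [hre]
      gcongr
      exact hy.2
    set a : ℝ := C1 * (2 * Y) ^ (((d : ℝ) + 1) / (2 * d)) / 2 ^ J with ha
    have ha0 : 0 ≤ a := by positivity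
    have e3 : ‖(G - E - G1) + conj (G - E - G1)‖ ≤ 2 * (a + C2) := by
      refine (norm_add_le _ _).trans ?_
      rw [Complex.norm_conj]
      linarith
    have e4 : ‖∑ j ∈ Finset.range J, V j y‖ ^ 2 ≤ J * ∑ j ∈ Finset.range J, ‖V j y‖ ^ 2 := by
      have k1 : ‖∑ j ∈ Finset.range J, V j y‖ ^ 2 ≤ (∑ j ∈ Finset.range J, ‖V j y‖) ^ 2 :=
        pow_le_pow_left₀ (norm_nonneg _) (norm_sum_le _ _) 2
      have k2 := sq_sum_le_card_mul_sum_sq (s := Finset.range J) (f := fun j => ‖V j y‖)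
      rw [Finset.card_range] at k2
      exact k1.trans k2
    have e5 : a ^ 2 ≤ 4 * C1 ^ 2 * Y ^ (1 + 1 / (d : ℝ)) / (2 ^ J) ^ 2 := by
      have hd0 : (d : ℝ) ≠ 0 := by linarith
      have k1 : ((2 * Y) ^ (((d : ℝ) + 1) / (2 * d))) ^ 2 = (2 * Y) ^ (1 + 1 / (d : ℝ)) := by
        rw [← Real.rpow_natCast, ← Real.rpow_mul (by positivity)]
        congr 1
        push_cast
        field_simp
      have k2 : (2 * Y) ^ (1 + 1 / (d : ℝ)) ≤ 4 * Y ^ (1 + 1 / (d : ℝ)) := by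
        rw [Real.mul_rpow (by norm_num) hY0.le]
        refine mul_le_mul_of_nonneg_right ?_ (by positivity)
        calc (2 : ℝ) ^ (1 + 1 / (d : ℝ)) ≤ 2 ^ (2 : ℝ) := by
              refine Real.rpow_le_rpow_of_exponent_le (by norm_num) ?_
              have : 1 / (d : ℝ) ≤ 1 := by
                rw [div_le_one (by linarith)]; linarith
              linarith
          _ = 4 := by norm_num
      rw [ha, div_pow, mul_pow, k1]
      calc C1 ^ 2 * (2 * Y) ^ (1 + 1 / (d : ℝ)) / (2 ^ J) ^ 2 ≤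
          C1 ^ 2 * (4 * Y ^ (1 + 1 / (d : ℝ))) / (2 ^ J) ^ 2 := by gcongr
        _ = _ := by ring
    rw [e1]
    have e6 : ‖((G - E - G1) + conj (G - E - G1)) + ∑ j ∈ Finset.range J, V j y‖ ^ 2 ≤
        2 * ‖(G - E - G1) + conj (G - E - G1)‖ ^ 2 + 2 * ‖∑ j ∈ Finset.range J, V j y‖ ^ 2 := by
      have k1 := norm_add_le ((G - E - G1) + conj (G - E - G1)) (∑ j ∈ Finset.range J, V j y)
      have k2 := pow_le_pow_left₀ (norm_nonneg _) k1 2
      nlinarith [sq_nonneg (‖(G - E - G1) + conj (G - E - G1)‖ - ‖∑ j ∈ Finset.range J, V j y‖)]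
    have e7 : ‖(G - E - G1) + conj (G - E - G1)‖ ^ 2 ≤ 8 * a ^ 2 + 8 * C2 ^ 2 := by
      have k2 := pow_le_pow_left₀ (norm_nonneg _) e3 2
      nlinarith [sq_nonneg (a - C2)]
    calc _ ≤ _ := e6
      _ ≤ 2 * (8 * a ^ 2 + 8 * C2 ^ 2) + 2 * (J * ∑ j ∈ Finset.range J, ‖V j y‖ ^ 2) := by linarith
      _ ≤ 2 * (8 * (4 * C1 ^ 2 * Y ^ (1 + 1 / (d : ℝ)) / (2 ^ J) ^ 2) + 8 * C2 ^ 2) +
            2 * (J * ∑ j ∈ Finset.range J, ‖V j y‖ ^ 2) := by linarith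
      _ = _ := by rw [hA]; ring
  -- integrate
  have hsub : uIcc Y (2 * Y) ⊆ Ioi 0 := by
    rw [uIcc_of_le (by linarith)]
    exact fun y hy => lt_of_lt_of_le hY0 hy.1
  have hsumi : IntervalIntegrable (fun y => ∑ j ∈ Finset.range J, ‖V j y‖ ^ 2) volume Y (2 * Y) := by
    refine ContinuousOn.intervalIntegrable ?_
    exact continuousOn_finsetSum _ fun j _ => ((hVc j).mono hsub).norm.pow 2
  have hli : IntervalIntegrable (fun y => ‖cW D (2 ^ J) y -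
      ((2 * (eE d O.κ (bet d O.η) O.c y).re : ℝ) : ℂ)‖ ^ 2) volume Y (2 * Y) := by
    refine ContinuousOn.intervalIntegrable ?_
    have k1 : ContinuousOn (fun y => ((2 * (eE d O.κ (bet d O.η) O.c y).re : ℝ) : ℂ)) (uIcc Y (2 * Y)) :=
      Complex.continuous_ofReal.comp_continuousOn (continuousOn_const.mul
        (Complex.continuous_re.comp_continuousOn ((sing_eE_cont d O.κ (bet d O.η) O.c).mono hsub)))
    exact (((sing_cW_cont h J).mono hsub).sub k1).norm.pow 2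
  have hmain : ∫ y in Y..(2 * Y), ‖cW D (2 ^ J) y - ((2 * (eE d O.κ (bet d O.η) O.c y).re : ℝ) : ℂ)‖ ^ 2 ≤
      ∫ y in Y..(2 * Y), (A + 2 * (J * ∑ j ∈ Finset.range J, ‖V j y‖ ^ 2)) :=
    intervalIntegral.integral_mono_on (by linarith) hli
      ((intervalIntegrable_const).add ((hsumi.const_mul _).const_mul _)) hpt
  have hint : ∫ y in Y..(2 * Y), (A + 2 * (J * ∑ j ∈ Finset.range J, ‖V j y‖ ^ 2)) =
      A * Y + 2 * (J * ∑ j ∈ Finset.range J, ∫ y in Y..(2 * Y), ‖V j y‖ ^ 2) := by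
    rw [intervalIntegral.integral_add intervalIntegrable_const ((hsumi.const_mul _).const_mul _),
      intervalIntegral.integral_const_mul, intervalIntegral.integral_const_mul,
      intervalIntegral.integral_finsetSum fun j _ => hVi j, intervalIntegral.integral_const]
    simp only [smul_eq_mul]
    ring
  have hV2 : ∑ j ∈ Finset.range J, ∫ y in Y..(2 * Y), ‖V j y‖ ^ 2 ≤ J * (C3 * Y) := by
    have := Finset.sum_le_card_nsmul (Finset.range J) (fun j => ∫ y in Y..(2 * Y), ‖V j y‖ ^ 2) (C3 * Y)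
      (fun j _ => H3 (2 ^ j) (one_le_pow₀ (by norm_num)) Y hY)
    rwa [Finset.card_range, nsmul_eq_mul] at this
  refine hmain.trans ?_
  rw [hint]
  have hYp : Y ^ (1 + 1 / (d : ℝ)) * Y = Y ^ (2 + 1 / (d : ℝ)) := by
    have e0 : 2 + 1 / (d : ℝ) = (1 + 1 / (d : ℝ)) + 1 := by ring
    rw [e0, Real.rpow_add hY0 (1 + 1 / (d : ℝ)) 1, Real.rpow_one]
  have hJ : (0 : ℝ) ≤ J := Nat.cast_nonneg J
  have hZ : 0 ≤ Y ^ (2 + 1 / (d : ℝ)) / ((2 : ℝ) ^ J) ^ 2 := by positivity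
  set Z : ℝ := Y ^ (2 + 1 / (d : ℝ)) / ((2 : ℝ) ^ J) ^ 2 with hZd
  have hAY : A * Y = 64 * C1 ^ 2 * Z + 16 * C2 ^ 2 * Y := by
    rw [hA, hZd, ← hYp]
    ring
  have t1 : 2 * (J * ∑ j ∈ Finset.range J, ∫ y in Y..(2 * Y), ‖V j y‖ ^ 2) ≤ 2 * C3 * (Y * (1 + J) ^ 2) := by
    calc 2 * (J * ∑ j ∈ Finset.range J, ∫ y in Y..(2 * Y), ‖V j y‖ ^ 2) ≤ 2 * (J * (J * (C3 * Y))) := by
          gcongr
      _ = 2 * C3 * (Y * (J : ℝ) ^ 2) := by ring
      _ ≤ 2 * C3 * (Y * (1 + J) ^ 2) := by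
          gcongr
          linarith
  have t2 : Y ≤ Y * (1 + J) ^ 2 := by
    have : (1 : ℝ) ≤ (1 + J) ^ 2 := by nlinarith
    nlinarith
  have t3 : 0 ≤ Y * (1 + (J : ℝ)) ^ 2 := by positivity
  have u1 : 16 * C2 ^ 2 * Y ≤ 16 * C2 ^ 2 * (Y * (1 + J) ^ 2) := mul_le_mul_of_nonneg_left t2 (by positivity)
  have u2 : 0 ≤ 64 * C1 ^ 2 * (Y * (1 + (J : ℝ)) ^ 2) := by positivity
  have u3 : 0 ≤ 16 * C2 ^ 2 * Z := by positivity
  have u4 : 0 ≤ 2 * C3 * Z := by positivity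
  rw [hAY]
  linarith

end Pool.Agent.H15.SC
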