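import Pool.Agent.H15.SC.Tail
import Pool.Agent.H15.SC.Single
import Pool.Agent.H15.SC.Repr
import Pool.Agent.H15.SC.HFa

/-!
# SC-18  mean square approximation of the error term by a trigonometric sum  (project SC, MP_be4568_nt)

`tail_all`: `sm_repr`: `sm - ∑_{n ≤ N} = ∑'_{n > N} + R`; the tail is the pointwise limit of
`∑_{n ∈ Icc (N+1) K}`, apply `tail` and Fatou (`lintegral_liminf_le`; all functions are continuous on `[T,2T]`:
`cW_eq_sum`, `cB_continuousOn`), and `sm_repr` for `R`.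
`vthm`: `W = 2^J` with `T^w ≤ W ≤ 2 T^w`, where `w (2-a) > 1/d`, `w > 1/d` and `w (d-2+θ) < 1 - 1/d`
(`d = 2`: `w = 1/(2-a)`, `θ = 1/8`; `d = 3`: `1/(3(2-a)) < w < 2/3`, `θ` small).
`E - trg = (E - sm W Ep) + (sm W Ep - ∑_{n≤N} (f n/n) cW(nx)) + ∑_{n≤N} (f n/n) (cW(nx) - 2 re eE(nx))`:
`near_smooth`: `C T² W^{a-2} = o(T^{2-1/d})`; `tail_all`: first term `≤ (ε/9) T^{2-1/d}` for `N ≥ N₀` (choose `θ < 1/d`), the others are
`o`; `single` with `Y = n T` (substitute `y = n x`; `J + 1 ≤ C log T`): `T^{2+1/d}/W² = o(T^{2-1/d})` since `w > 1/d`, and `T (1+J)² = o`.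
-/

set_option autoImplicit false

open Complex Filter Topology MeasureTheory Set
open scoped ComplexConjugate

namespace Pool.Agent.H15.SC

variable {D : SelData}

/-- the trigonometric approximation of the error term -/
noncomputable def trg (D : SelData) {d : ℕ} (O : OscData D d) (N : ℕ) (x : ℝ) : ℝ :=
  ∑ n ∈ Finset.Icc 1 N, 2 * (((D.f n / n : ℝ) : ℂ) * eE d O.κ (bet d O.η) O.c (n * x)).re

theorem Vthm_int_le {f : ℝ → ℝ} {s : Set ℝ} (hf : ∀ x, 0 ≤ f x) {B : ℝ} (hB : 0 ≤ B)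
    (h : ∫⁻ x in s, ENNReal.ofReal (f x) ≤ ENNReal.ofReal B) : ∫ x in s, f x ≤ B := by
  by_cases hi : IntegrableOn f s volume
  · rw [← ENNReal.ofReal_le_ofReal_iff hB,
      ofReal_integral_eq_lintegral_ofReal hi (Filter.Eventually.of_forall hf)]
    exact h
  · rw [integral_undef hi]
    exact hB

theorem Vthm_cW_cont {d : ℝ} (h : IsSel D d) (J : ℕ) : ContinuousOn (cW D (2 ^ J)) (Ioi 0) := by
  have h1 : ContinuousOn (fun y => ∑ j ∈ Finset.range J, cB D (2 ^ j) y) (Ioi 0) :=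
    continuousOn_finsetSum _ (fun j _ => cB_continuousOn h (one_le_pow₀ (by norm_num)))
  exact h1.congr (fun y hy => cW_eq_sum h J hy)

theorem Vthm_term_cont {d : ℝ} (h : IsSel D d) (J : ℕ) {n : ℕ} (hn : 1 ≤ n) :
    ContinuousOn (fun x : ℝ => ((D.f n / n : ℝ) : ℂ) * cW D (2 ^ J) (n * x)) (Ioi 0) := by
  have hn0 : (0 : ℝ) < n := by exact_mod_cast hn
  refine continuousOn_const.mul ((Vthm_cW_cont h J).comp (by fun_prop) ?_)
  intro x hx
  rw [mem_Ioi] at hx ⊢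
  positivity

theorem tail_all {d : ℕ} (hd : d = 2 ∨ d = 3) (h : IsSel D d) (P : Core D) (θ : ℝ) (hθ : 0 < θ) :
    ∃ C : ℝ, 0 ≤ C ∧ ∀ T : ℝ, 1 ≤ T → ∀ N : ℕ, ∀ J : ℕ,
    ∫ x in T..(2 * T), ‖(sm (2 ^ J) D.Ep x : ℂ) -
        ∑ n ∈ Finset.Icc 1 N, ((D.f n / n : ℝ) : ℂ) * cW D (2 ^ J) (n * x)‖ ^ 2 ≤
      C * (T ^ (2 - 1 / (d : ℝ)) * ((N : ℝ) + 1) ^ (-(1 / (d : ℝ)) + θ) + T * ((2 : ℝ) ^ J) ^ ((d : ℝ) - 2 + θ) +
        T ^ ((5 : ℝ) / 4)) := by
  obtain ⟨Ct, hCt0, hCt⟩ := tail hd h θ hθ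
  obtain ⟨Cr, hCr0, hCr⟩ := sm_repr hd h P
  refine ⟨2 * Ct + 2 * Cr, by positivity, ?_⟩
  intro T hT N J
  obtain ⟨R, hRc, hRs, hRb⟩ := hCr J
  have hT0 : 0 < T := by linarith
  have hTT : T ≤ 2 * T := by linarith
  set c : ℕ → ℝ → ℂ := fun n x => ((D.f n / n : ℝ) : ℂ) * cW D (2 ^ J) (n * x) with hc
  set B : ℝ := Ct * (T ^ (2 - 1 / (d:ℝ)) * ((N:ℝ)+1)^(-(1/(d:ℝ))+θ) + T * ((2:ℝ)^J)^((d:ℝ)-2+θ)) with hB
  have hB0 : 0 ≤ B := by positivity
  have hc0 : ∀ x, c 0 x = 0 := by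
    intro x
    simp [hc]
  have hccont : ∀ n : ℕ, 1 ≤ n → ContinuousOn (c n) (Ioi 0) := fun n hn => Vthm_term_cont h J hn
  -- partial sums
  set S : ℕ → Finset ℕ := fun K => (Finset.range K).filter (fun n => N < n) with hS
  set g : ℕ → ℝ → ℂ := fun K x => ∑ n ∈ S K, c n x with hg
  have hgcont : ∀ K, ContinuousOn (g K) (Ioi 0) := by
    intro K
    refine continuousOn_finsetSum _ (fun n hn => hccont n ?_)
    rw [hS, Finset.mem_filter] at hn
    omega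
  have hIocIoi : Ioc T (2 * T) ⊆ Ioi 0 := fun x hx => lt_trans hT0 hx.1
  have hIccIoi : Icc T (2 * T) ⊆ Ioi 0 := fun x hx => lt_of_lt_of_le hT0 hx.1
  have hgint : ∀ K, ∫⁻ x in Ioc T (2 * T), ENNReal.ofReal (‖g K x‖ ^ 2) ≤ ENNReal.ofReal B := by
    intro K
    have h1 := hCt T hT N J (S K) (fun n hn => by rw [hS, Finset.mem_filter] at hn; exact hn.2)
    rw [intervalIntegral.integral_of_le hTT] at h1
    have h2 : IntegrableOn (fun x => ‖g K x‖ ^ 2) (Ioc T (2 * T)) volume := by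
      have h3 : ContinuousOn (fun x => ‖g K x‖ ^ 2) (Icc T (2 * T)) :=
        (((hgcont K).mono hIccIoi).norm).pow 2
      exact h3.integrableOn_Icc.mono_set Ioc_subset_Icc_self
    rw [← ofReal_integral_eq_lintegral_ofReal h2 (Filter.Eventually.of_forall (fun x => by positivity))]
    exact ENNReal.ofReal_le_ofReal h1
  -- the limit
  set F : ℝ → ℂ := fun x => (sm (2 ^ J) D.Ep x : ℂ) - ∑ n ∈ Finset.Icc 1 N, c n x with hF
  have hlim : ∀ x ∈ Ioc T (2 * T), Tendsto (fun K => g K x) atTop (𝓝 (F x - R x)) := by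
    intro x hx
    have hx0 : 0 < x := hIocIoi hx
    obtain ⟨hsum, heq⟩ := hRs x hx0
    have h1 : Tendsto (fun K => ∑ n ∈ Finset.range K, c n x - ∑ n ∈ Finset.Icc 1 N, c n x) atTop
        (𝓝 (∑' n : ℕ, c n x - ∑ n ∈ Finset.Icc 1 N, c n x)) :=
      (hsum.hasSum.tendsto_sum_nat).sub tendsto_const_nhds
    have h2 : F x - R x = ∑' n : ℕ, c n x - ∑ n ∈ Finset.Icc 1 N, c n x := by
      rw [hF]
      simp only
      rw [heq]
      ring
    rw [h2]
    refine h1.congr' ?_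
    filter_upwards [eventually_gt_atTop N] with K hK
    have h3 : ∑ n ∈ Finset.range K, c n x = ∑ n ∈ (Finset.range K).filter (fun n => N < n), c n x +
        ∑ n ∈ (Finset.range K).filter (fun n => ¬ N < n), c n x :=
      (Finset.sum_filter_add_sum_filter_not _ _ _).symm
    have h4 : ∑ n ∈ (Finset.range K).filter (fun n => ¬ N < n), c n x = ∑ n ∈ Finset.Icc 1 N, c n x := by
      symm
      apply Finset.sum_subset
      · intro n hn
        rw [Finset.mem_Icc] at hn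
        rw [Finset.mem_filter, Finset.mem_range]
        omega
      · intro n hn hn2
        rw [Finset.mem_filter, Finset.mem_range] at hn
        rw [Finset.mem_Icc] at hn2
        have : n = 0 := by omega
        rw [this, hc0]
    rw [h3, h4, hg, hS]
    ring
  have hfatou : ∫⁻ x in Ioc T (2 * T), ENNReal.ofReal (‖F x - R x‖ ^ 2) ≤ ENNReal.ofReal B := by
    calc ∫⁻ x in Ioc T (2 * T), ENNReal.ofReal (‖F x - R x‖ ^ 2)
        = ∫⁻ x in Ioc T (2 * T), liminf (fun K => ENNReal.ofReal (‖g K x‖ ^ 2)) atTop := by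
          apply setLIntegral_congr_fun measurableSet_Ioc
          intro x hx
          have h1 : Tendsto (fun K => ENNReal.ofReal (‖g K x‖ ^ 2)) atTop
              (𝓝 (ENNReal.ofReal (‖F x - R x‖ ^ 2))) :=
            ENNReal.tendsto_ofReal (((hlim x hx).norm).pow 2)
          exact h1.liminf_eq.symm
      _ ≤ liminf (fun K => ∫⁻ x in Ioc T (2 * T), ENNReal.ofReal (‖g K x‖ ^ 2)) atTop := by
          apply lintegral_liminf_le'
          intro K
          have h3 : ContinuousOn (fun x => ‖g K x‖ ^ 2) (Ioc T (2 * T)) :=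
            (((hgcont K).mono hIocIoi).norm).pow 2
          exact (h3.aemeasurable measurableSet_Ioc).ennreal_ofReal
      _ ≤ ENNReal.ofReal B := by
          refine liminf_le_of_le (by isBoundedDefault) ?_
          intro b hb
          obtain ⟨K, hK⟩ := hb.exists
          exact hK.trans (hgint K)
  have hRint : ∫⁻ x in Ioc T (2 * T), ENNReal.ofReal (‖R x‖ ^ 2) ≤ ENNReal.ofReal (Cr * T ^ ((5 : ℝ) / 4)) := by
    have h1 := hRb T hT
    rw [intervalIntegral.integral_of_le hTT] at h1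
    have h2 : IntegrableOn (fun x => ‖R x‖ ^ 2) (Ioc T (2 * T)) volume := by
      have h3 : ContinuousOn (fun x => ‖R x‖ ^ 2) (Icc T (2 * T)) :=
        ((hRc.mono hIccIoi).norm).pow 2
      exact h3.integrableOn_Icc.mono_set Ioc_subset_Icc_self
    rw [← ofReal_integral_eq_lintegral_ofReal h2 (Filter.Eventually.of_forall (fun x => by positivity))]
    exact ENNReal.ofReal_le_ofReal h1
  have hRm : AEMeasurable (fun x => ENNReal.ofReal (‖R x‖ ^ 2)) (volume.restrict (Ioc T (2 * T))) := by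
    have h3 : ContinuousOn (fun x => ‖R x‖ ^ 2) (Ioc T (2 * T)) := ((hRc.mono hIocIoi).norm).pow 2
    exact (h3.aemeasurable measurableSet_Ioc).ennreal_ofReal
  rw [intervalIntegral.integral_of_le hTT]
  have hT54 : 0 ≤ T ^ ((5 : ℝ) / 4) := by positivity
  have hmain : ∫ x in Ioc T (2 * T), ‖F x‖ ^ 2 ≤ 2 * B + 2 * (Cr * T ^ ((5 : ℝ) / 4)) := by
    apply Vthm_int_le (fun x => by positivity) (by positivity)
    calc ∫⁻ x in Ioc T (2 * T), ENNReal.ofReal (‖F x‖ ^ 2)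
        ≤ ∫⁻ x in Ioc T (2 * T), (ENNReal.ofReal 2 * ENNReal.ofReal (‖F x - R x‖ ^ 2) +
            ENNReal.ofReal 2 * ENNReal.ofReal (‖R x‖ ^ 2)) := by
          apply lintegral_mono
          intro x
          simp only
          rw [← ENNReal.ofReal_mul (by norm_num), ← ENNReal.ofReal_mul (by norm_num),
            ← ENNReal.ofReal_add (by positivity) (by positivity)]
          apply ENNReal.ofReal_le_ofReal
          have h1 : ‖F x‖ ≤ ‖F x - R x‖ + ‖R x‖ := by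
            calc ‖F x‖ = ‖(F x - R x) + R x‖ := by ring_nf
              _ ≤ _ := norm_add_le _ _
          have h2 : 0 ≤ ‖F x‖ := norm_nonneg _
          nlinarith [sq_nonneg (‖F x - R x‖ - ‖R x‖)]
      _ = ENNReal.ofReal 2 * (∫⁻ x in Ioc T (2 * T), ENNReal.ofReal (‖F x - R x‖ ^ 2)) +
            ENNReal.ofReal 2 * ∫⁻ x in Ioc T (2 * T), ENNReal.ofReal (‖R x‖ ^ 2) := by
          rw [lintegral_add_right' _ (hRm.const_mul _), lintegral_const_mul' _ _ ENNReal.ofReal_ne_top,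
            lintegral_const_mul' _ _ ENNReal.ofReal_ne_top]
      _ ≤ ENNReal.ofReal 2 * ENNReal.ofReal B + ENNReal.ofReal 2 * ENNReal.ofReal (Cr * T ^ ((5 : ℝ) / 4)) := by
          gcongr
      _ = ENNReal.ofReal (2 * B + 2 * (Cr * T ^ ((5 : ℝ) / 4))) := by
          rw [← ENNReal.ofReal_mul (by norm_num), ← ENNReal.ofReal_mul (by norm_num),
            ← ENNReal.ofReal_add (by positivity) (by positivity)]
  refine hmain.trans ?_
  have hX : 0 ≤ T ^ (2 - 1 / (d:ℝ)) * ((N:ℝ)+1)^(-(1/(d:ℝ))+θ) + T * ((2:ℝ)^J)^((d:ℝ)-2+θ) := by positivity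
  rw [hB]
  nlinarith [mul_nonneg hCt0 hT54, mul_nonneg hCr0 hX]

theorem Vthm_pow_small {p q : ℝ} (hpq : p < q) (K δ : ℝ) (hδ : 0 < δ) : ∃ T₀ : ℝ, 1 ≤ T₀ ∧ ∀ T : ℝ, T₀ ≤ T →
    K * T ^ p ≤ δ * T ^ q := by
  have h1 : Tendsto (fun T : ℝ => K * T ^ (-(q - p))) atTop (𝓝 (K * 0)) :=
    (tendsto_rpow_neg_atTop (by linarith)).const_mul K
  rw [mul_zero] at h1
  have h2 := (h1.eventually (gt_mem_nhds hδ)).and (eventually_ge_atTop (1 : ℝ))
  obtain ⟨T₀, hT₀⟩ := eventually_atTop.1 h2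
  refine ⟨max T₀ 1, le_max_right _ _, ?_⟩
  intro T hT
  obtain ⟨h3, h4⟩ := hT₀ T ((le_max_left _ _).trans hT)
  have hT0 : 0 < T := by linarith
  have h5 : T ^ p = T ^ (-(q - p)) * T ^ q := by
    rw [← Real.rpow_add hT0]
    congr 1
    ring
  rw [h5, ← mul_assoc]
  exact mul_le_mul_of_nonneg_right h3.le (by positivity)

theorem Vthm_expo {d : ℕ} (hd : d = 2 ∨ d = 3) {a : ℝ} (ha1 : 1 ≤ a) (ha2 : a < 3/2) :
    ∃ w θ : ℝ, 0 < w ∧ 0 < θ ∧ θ < 1 / (d : ℝ) ∧ 1 / (d : ℝ) < w * (2 - a) ∧ 1 / (d : ℝ) < w ∧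
      w * ((d : ℝ) - 2 + θ) < 1 - 1 / (d : ℝ) := by
  rcases hd with rfl | rfl
  · refine ⟨2, 1/8, by norm_num, by norm_num, by norm_num, ?_, by norm_num, by norm_num⟩
    push_cast
    nlinarith
  · have h1 : 0 < 2 - a := by linarith
    set v : ℝ := 1 / (3 * (2 - a)) with hv
    have h2 : v * (3 * (2 - a)) = 1 := by rw [hv]; field_simp
    have h3 : v < 2 / 3 := by
      rw [hv, div_lt_div_iff₀ (by positivity) (by norm_num)]
      linarith
    have h4 : 1 / 3 ≤ v := by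
      rw [hv, div_le_div_iff₀ (by norm_num) (by positivity)]
      linarith
    refine ⟨(v + 2 / 3) / 2, (2 / 3 - (v + 2 / 3) / 2) / 2, by linarith, by linarith, ?_, ?_, ?_, ?_⟩
    · push_cast; linarith
    · push_cast
      nlinarith
    · push_cast; linarith
    · push_cast
      nlinarith

theorem Vthm_J {T w : ℝ} (hT : 1 ≤ T) (hw : 0 < w) : ∃ J : ℕ, T ^ w ≤ (2 : ℝ) ^ J ∧ (2 : ℝ) ^ J ≤ 2 * T ^ w ∧
    ((1 : ℝ) + J) ^ 2 ≤ (2 + 16 * w) ^ 2 * T ^ ((1 : ℝ) / 4) := by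
  have hT0 : 0 < T := by linarith
  have h1 : 1 ≤ T ^ w := Real.one_le_rpow hT hw.le
  obtain ⟨n, hn1, hn2⟩ := exists_nat_pow_near h1 (by norm_num : (1:ℝ) < 2)
  have h3 : (2 : ℝ) ^ (n + 1) ≤ 2 * T ^ w := by
    rw [pow_succ]; linarith
  refine ⟨n + 1, hn2.le, h3, ?_⟩
  have h4 : ((n + 1 : ℕ) : ℝ) * Real.log 2 ≤ Real.log 2 + w * Real.log T := by
    rw [← Real.log_pow, ← Real.log_rpow hT0, ← Real.log_mul (by norm_num) (by positivity)]
    exact Real.log_le_log (by positivity) h3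
  have h5 : Real.log T ≤ T ^ ((1:ℝ)/8) / (1/8) := Real.log_le_rpow_div hT0.le (by norm_num)
  have h6 : 1/2 ≤ Real.log 2 := by
    have := Real.log_two_gt_d9
    linarith
  have h7 : 1 ≤ T ^ ((1:ℝ)/8) := Real.one_le_rpow hT (by norm_num)
  have h8 : ((n + 1 : ℕ) : ℝ) ≤ 1 + 16 * w * T ^ ((1:ℝ)/8) := by
    by_contra hcon
    push Not at hcon
    have h9 : w * Real.log T ≤ w * (T ^ ((1:ℝ)/8) / (1/8)) := mul_le_mul_of_nonneg_left h5 hw.le
    have h10 : 0 < 16 * w * T ^ ((1:ℝ)/8) := by positivity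
    nlinarith
  have h11 : (1 : ℝ) + ((n + 1 : ℕ) : ℝ) ≤ (2 + 16 * w) * T ^ ((1:ℝ)/8) := by nlinarith
  have h12 : T ^ ((1:ℝ)/4) = (T ^ ((1:ℝ)/8)) ^ 2 := by
    rw [← Real.rpow_natCast, ← Real.rpow_mul hT0.le]
    norm_num
  rw [h12, ← mul_pow]
  exact pow_le_pow_left₀ (by positivity) h11 2

theorem Vthm_sm_meas (P : Core D) (W : ℝ) : Measurable (sm W D.Ep) := by
  have : StronglyMeasurable (fun x : ℝ => ∫ u : ℝ, D.Ep (x * Real.exp (-u)) * gW W u) := by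
    apply MeasureTheory.StronglyMeasurable.integral_prod_right
    apply Measurable.stronglyMeasurable
    have h1 : Measurable (fun p : ℝ × ℝ => D.Ep (p.1 * Real.exp (-p.2))) :=
      P.E_meas.comp (by fun_prop)
    have h2 : Measurable (fun p : ℝ × ℝ => gW W p.2) := by
      unfold gW
      fun_prop
    exact h1.mul h2
  exact this.measurable

theorem Vthm_B_int {d : ℕ} (h : IsSel D d) (P : Core D) {T : ℝ} (hT : 1 ≤ T) (J N : ℕ)
    (hA : IntegrableOn (fun x => (D.E x - sm (2 ^ J) D.Ep x) ^ 2) (Ioc T (2 * T)) volume) :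
    IntegrableOn (fun x => ‖(sm (2 ^ J) D.Ep x : ℂ) -
      ∑ n ∈ Finset.Icc 1 N, ((D.f n / n : ℝ) : ℂ) * cW D (2 ^ J) (n * x)‖ ^ 2) (Ioc T (2 * T)) volume := by
  have hT0 : 0 < T := by linarith
  have hIccIoi : Icc T (2 * T) ⊆ Ioi 0 := fun x hx => lt_of_lt_of_le hT0 hx.1
  obtain ⟨CE, hCE0, hCE⟩ := P.E_bound
  set S : ℝ → ℂ := fun x => ∑ n ∈ Finset.Icc 1 N, ((D.f n / n : ℝ) : ℂ) * cW D (2 ^ J) (n * x) with hS
  have hScont : ContinuousOn S (Ioi 0) :=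
    continuousOn_finsetSum _ (fun n hn => Vthm_term_cont h J (Finset.mem_Icc.1 hn).1)
  have hS2 : IntegrableOn (fun x => ‖S x‖ ^ 2) (Ioc T (2 * T)) volume := by
    have h3 : ContinuousOn (fun x => ‖S x‖ ^ 2) (Icc T (2 * T)) := ((hScont.mono hIccIoi).norm).pow 2
    exact h3.integrableOn_Icc.mono_set Ioc_subset_Icc_self
  set K : ℝ := (CE * (2 * T) ^ ((3:ℝ)/2)) ^ 2 with hK
  have hKint : IntegrableOn (fun _ : ℝ => K) (Ioc T (2 * T)) volume := by
    have e1 : volume (Ioc T (2 * T)) ≠ ⊤ := by simp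
    have e2 : ‖K‖ₑ ≠ ⊤ := by simp
    exact integrableOn_const e1 e2
  have hdom : IntegrableOn (fun x => 3 * ((D.E x - sm (2 ^ J) D.Ep x) ^ 2 + K + ‖S x‖ ^ 2)) (Ioc T (2 * T)) volume :=
    (((hA.add hKint).add hS2).const_mul 3)
  refine Integrable.mono' hdom ?_ ?_
  · have h1 : AEStronglyMeasurable (fun x => (sm (2 ^ J) D.Ep x : ℂ)) (volume.restrict (Ioc T (2 * T))) :=
      ((Complex.measurable_ofReal.comp (Vthm_sm_meas P (2 ^ J)))).aestronglyMeasurable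
    have h2 : AEStronglyMeasurable S (volume.restrict (Ioc T (2 * T))) :=
      (hScont.mono (fun x hx => lt_trans hT0 hx.1)).aestronglyMeasurable measurableSet_Ioc
    exact ((h1.sub h2).norm).pow 2
  · rw [ae_restrict_iff' measurableSet_Ioc]
    refine Filter.Eventually.of_forall (fun x hx => ?_)
    rw [mem_Ioc] at hx
    have hx0 : 0 < x := by linarith [hx.1]
    have hx1 : 1 ≤ x := by linarith [hx.1]
    rw [Real.norm_of_nonneg (by positivity)]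
    have h1 : ‖(sm (2 ^ J) D.Ep x : ℂ) - S x‖ ≤ |D.E x - sm (2 ^ J) D.Ep x| + |D.E x| + ‖S x‖ := by
      have h2 : ‖(sm (2 ^ J) D.Ep x : ℂ)‖ ≤ |D.E x - sm (2 ^ J) D.Ep x| + |D.E x| := by
        rw [Complex.norm_real, Real.norm_eq_abs]
        calc |sm (2 ^ J) D.Ep x| = |D.E x - (D.E x - sm (2 ^ J) D.Ep x)| := by ring_nf
          _ ≤ |D.E x| + |D.E x - sm (2 ^ J) D.Ep x| := abs_sub _ _
          _ = _ := by ring
      calc _ ≤ ‖(sm (2 ^ J) D.Ep x : ℂ)‖ + ‖S x‖ := norm_sub_le _ _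
        _ ≤ _ := by linarith
    have h3 : |D.E x| ≤ CE * (2 * T) ^ ((3:ℝ)/2) := by
      refine (hCE x hx1).trans ?_
      apply mul_le_mul_of_nonneg_left _ hCE0
      exact Real.rpow_le_rpow hx0.le hx.2 (by norm_num)
    have h4 : |D.E x| ^ 2 ≤ K := pow_le_pow_left₀ (abs_nonneg _) h3 2
    have h5 : (D.E x - sm (2 ^ J) D.Ep x) ^ 2 = |D.E x - sm (2 ^ J) D.Ep x| ^ 2 := (sq_abs _).symm
    rw [h5]
    set p := |D.E x - sm (2 ^ J) D.Ep x|
    set q := |D.E x|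
    set r := ‖S x‖
    have h6 : ‖(sm (2 ^ J) D.Ep x : ℂ) - S x‖ ^ 2 ≤ (p + q + r) ^ 2 := pow_le_pow_left₀ (norm_nonneg _) h1 2
    nlinarith [sq_nonneg (p - q), sq_nonneg (p - r), sq_nonneg (q - r)]

theorem Vthm_eE_cont (d : ℕ) (κ β : ℂ) (c : ℝ) : ContinuousOn (eE d κ β c) (Ioi 0) := by
  intro y hy
  rw [mem_Ioi] at hy
  apply ContinuousAt.continuousWithinAt
  unfold eE
  apply ContinuousAt.mul
  · apply ContinuousAt.mul continuousAt_const
    exact Complex.continuousAt_ofReal_cpow_const _ _ (Or.inr hy.ne')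
  · apply Complex.continuous_exp.continuousAt.comp
    apply ContinuousAt.mul continuousAt_const
    have : ContinuousAt (fun y : ℝ => c * y ^ ((1:ℝ)/d)) y :=
      continuousAt_const.mul (Real.continuousAt_rpow_const _ _ (Or.inl hy.ne'))
    exact Complex.continuous_ofReal.continuousAt.comp this

theorem Vthm_single_sum {d : ℕ} (hd : d = 2 ∨ d = 3) (h : IsSel D d) (O : OscData D d) (N : ℕ) :
    ∃ C : ℝ, 0 ≤ C ∧ ∀ T : ℝ, 1 ≤ T → ∀ J : ℕ,
      IntegrableOn (fun x => ‖∑ n ∈ Finset.Icc 1 N, ((D.f n / n : ℝ) : ℂ) * (cW D (2 ^ J) (n * x) -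
        ((2 * (eE d O.κ (bet d O.η) O.c (n * x)).re : ℝ) : ℂ))‖ ^ 2) (Ioc T (2 * T)) volume ∧
      ∫ x in Ioc T (2 * T), ‖∑ n ∈ Finset.Icc 1 N, ((D.f n / n : ℝ) : ℂ) * (cW D (2 ^ J) (n * x) -
        ((2 * (eE d O.κ (bet d O.η) O.c (n * x)).re : ℝ) : ℂ))‖ ^ 2 ≤
        C * (T * (1 + J) ^ 2 + T ^ (2 + 1 / (d : ℝ)) / ((2 : ℝ) ^ J) ^ 2) := by
  obtain ⟨C3, hC30, hC3⟩ := single hd h O
  refine ⟨∑ n ∈ Finset.Icc 1 N, N * (|D.f n / n| ^ 2 * (C3 * (n : ℝ) ^ (2 + 1 / (d : ℝ)))), by positivity, ?_⟩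
  intro T hT J
  have hT0 : 0 < T := by linarith
  have hTT : T ≤ 2 * T := by linarith
  have hIccIoi : Icc T (2 * T) ⊆ Ioi 0 := fun x hx => lt_of_lt_of_le hT0 hx.1
  set G : ℝ → ℂ := fun y => cW D (2 ^ J) y - ((2 * (eE d O.κ (bet d O.η) O.c y).re : ℝ) : ℂ) with hG
  have hGc : ContinuousOn G (Ioi 0) := by
    apply (Vthm_cW_cont h J).sub
    apply Complex.continuous_ofReal.comp_continuousOn
    exact continuousOn_const.mul (Complex.continuous_re.comp_continuousOn (Vthm_eE_cont _ _ _ _))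
  have hGn : ∀ n : ℕ, 1 ≤ n → ContinuousOn (fun x : ℝ => G (n * x)) (Ioi 0) := by
    intro n hn
    have hn0 : (0:ℝ) < n := by exact_mod_cast hn
    refine hGc.comp (by fun_prop) ?_
    intro x hx
    rw [mem_Ioi] at hx ⊢
    positivity
  have hsumc : ContinuousOn (fun x : ℝ => ∑ n ∈ Finset.Icc 1 N, ((D.f n / n : ℝ) : ℂ) * G (n * x)) (Ioi 0) :=
    continuousOn_finsetSum _ (fun n hn => continuousOn_const.mul (hGn n (Finset.mem_Icc.1 hn).1))
  refine ⟨?_, ?_⟩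
  · have h3 : ContinuousOn (fun x : ℝ => ‖∑ n ∈ Finset.Icc 1 N, ((D.f n / n : ℝ) : ℂ) * G (n * x)‖ ^ 2)
        (Icc T (2 * T)) := ((hsumc.mono hIccIoi).norm).pow 2
    exact h3.integrableOn_Icc.mono_set Ioc_subset_Icc_self
  · have hterm : ∀ n ∈ Finset.Icc 1 N, IntegrableOn (fun x : ℝ => N * (|D.f n / n| ^ 2 * ‖G (n * x)‖ ^ 2))
        (Ioc T (2 * T)) volume := by
      intro n hn
      have h3 : ContinuousOn (fun x : ℝ => N * (|D.f n / n| ^ 2 * ‖G (n * x)‖ ^ 2)) (Icc T (2 * T)) :=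
        continuousOn_const.mul (continuousOn_const.mul
          ((((hGn n (Finset.mem_Icc.1 hn).1).mono hIccIoi).norm).pow 2))
      exact h3.integrableOn_Icc.mono_set Ioc_subset_Icc_self
    calc ∫ x in Ioc T (2 * T), ‖∑ n ∈ Finset.Icc 1 N, ((D.f n / n : ℝ) : ℂ) * G (n * x)‖ ^ 2
        ≤ ∫ x in Ioc T (2 * T), ∑ n ∈ Finset.Icc 1 N, N * (|D.f n / n| ^ 2 * ‖G (n * x)‖ ^ 2) := by
          apply integral_mono_of_nonneg
          · exact Filter.Eventually.of_forall (fun x => by positivity)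
          · exact integrable_finsetSum _ hterm
          · refine Filter.Eventually.of_forall (fun x => ?_)
            simp only
            have h1 : ‖∑ n ∈ Finset.Icc 1 N, ((D.f n / n : ℝ) : ℂ) * G (n * x)‖ ≤
                ∑ n ∈ Finset.Icc 1 N, |D.f n / n| * ‖G (n * x)‖ := by
              refine (norm_sum_le _ _).trans (le_of_eq ?_)
              apply Finset.sum_congr rfl
              intro n _
              rw [norm_mul, Complex.norm_real, Real.norm_eq_abs]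
            have h2 := pow_le_pow_left₀ (norm_nonneg _) h1 2
            refine h2.trans ?_
            refine (sq_sum_le_card_mul_sum_sq).trans (le_of_eq ?_)
            rw [Nat.card_Icc, Nat.add_sub_cancel, Finset.mul_sum]
            apply Finset.sum_congr rfl
            intro n _
            rw [mul_pow]
      _ = ∑ n ∈ Finset.Icc 1 N, N * (|D.f n / n| ^ 2 * ∫ x in Ioc T (2 * T), ‖G (n * x)‖ ^ 2) := by
          rw [integral_finsetSum _ hterm]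
          apply Finset.sum_congr rfl
          intro n _
          rw [integral_const_mul, integral_const_mul]
      _ ≤ ∑ n ∈ Finset.Icc 1 N, N * (|D.f n / n| ^ 2 * (C3 * (n : ℝ) ^ (2 + 1 / (d : ℝ)))) *
            (T * (1 + J) ^ 2 + T ^ (2 + 1 / (d : ℝ)) / ((2 : ℝ) ^ J) ^ 2) := by
          apply Finset.sum_le_sum
          intro n hn
          have hn1 : 1 ≤ n := (Finset.mem_Icc.1 hn).1
          have hn1' : (1:ℝ) ≤ n := by exact_mod_cast hn1
          have hn0 : (0:ℝ) < n := by linarith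
          have h1 : ∫ x in Ioc T (2 * T), ‖G (n * x)‖ ^ 2 ≤
              C3 * (n : ℝ) ^ (2 + 1 / (d : ℝ)) * (T * (1 + J) ^ 2 + T ^ (2 + 1 / (d : ℝ)) / ((2 : ℝ) ^ J) ^ 2) := by
            rw [← intervalIntegral.integral_of_le hTT,
              intervalIntegral.integral_comp_mul_left (fun y => ‖G y‖ ^ 2) hn0.ne']
            have h2 := hC3 (n * T) (by nlinarith) J
            have h3 : (n:ℝ) * (2 * T) = 2 * (n * T) := by ring
            rw [h3, smul_eq_mul]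
            have h4 : (n:ℝ)⁻¹ ≤ 1 := inv_le_one_of_one_le₀ hn1'
            have h5 : 0 ≤ ∫ y in (n * T)..(2 * (n * T)), ‖G y‖ ^ 2 := by
              apply intervalIntegral.integral_nonneg
              · nlinarith
              · intro y _
                positivity
            have h6 : (n:ℝ)⁻¹ * ∫ y in (n * T)..(2 * (n * T)), ‖G y‖ ^ 2 ≤
                C3 * (n * T * (1 + J) ^ 2 + (n * T) ^ (2 + 1 / (d : ℝ)) / ((2 : ℝ) ^ J) ^ 2) := by
              calc _ ≤ 1 * ∫ y in (n * T)..(2 * (n * T)), ‖G y‖ ^ 2 := mul_le_mul_of_nonneg_right h4 h5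
                _ ≤ _ := by rw [one_mul]; exact h2
            refine h6.trans ?_
            rw [Real.mul_rpow hn0.le hT0.le]
            have h7 : (n:ℝ) ≤ (n : ℝ) ^ (2 + 1 / (d : ℝ)) := by
              calc (n:ℝ) = (n:ℝ) ^ (1:ℝ) := (Real.rpow_one _).symm
                _ ≤ _ := by
                  apply Real.rpow_le_rpow_of_exponent_le hn1'
                  have : 0 ≤ 1 / (d:ℝ) := by positivity
                  linarith
            have h8 : n * T * (1 + (J:ℝ)) ^ 2 ≤ (n : ℝ) ^ (2 + 1 / (d : ℝ)) * (T * (1 + J) ^ 2) := by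
              rw [mul_assoc]
              exact mul_le_mul_of_nonneg_right h7 (by positivity)
            calc C3 * (n * T * (1 + J) ^ 2 + (n : ℝ) ^ (2 + 1 / (d : ℝ)) * T ^ (2 + 1 / (d : ℝ)) / ((2 : ℝ) ^ J) ^ 2)
                ≤ C3 * ((n : ℝ) ^ (2 + 1 / (d : ℝ)) * (T * (1 + J) ^ 2) +
                  (n : ℝ) ^ (2 + 1 / (d : ℝ)) * T ^ (2 + 1 / (d : ℝ)) / ((2 : ℝ) ^ J) ^ 2) := by gcongr
              _ = _ := by ring
          calc _ ≤ N * (|D.f n / n| ^ 2 * (C3 * (n : ℝ) ^ (2 + 1 / (d : ℝ)) *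
                (T * (1 + J) ^ 2 + T ^ (2 + 1 / (d : ℝ)) / ((2 : ℝ) ^ J) ^ 2))) := by gcongr
            _ = _ := by ring
      _ = _ := by rw [Finset.sum_mul]

theorem vthm {d : ℕ} (hd : d = 2 ∨ d = 3) (h : IsSel D d) (P : Core D) (O : OscData D d) {a : ℝ} (ha1 : 1 ≤ a)
    (ha2 : a < 3/2) (hM : Mom D a) : ∀ ε : ℝ, 0 < ε → ∃ N₀ : ℕ, ∀ N : ℕ, N₀ ≤ N → ∃ T₀ : ℝ, 1 ≤ T₀ ∧
      ∀ T : ℝ, T₀ ≤ T → ∫ x in T..(2 * T), (D.E x - trg D O N x) ^ 2 ≤ ε * T ^ (2 - 1 / (d : ℝ)) := by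
  intro ε hε
  obtain ⟨w, θ, hw0, hθ0, hθd, hwa, hwd, hwθ⟩ := Vthm_expo hd ha1 ha2
  obtain ⟨C1, hC10, hC1⟩ := near_smooth P (F_half_cont h) ha1 (by linarith) hM
  obtain ⟨C2, hC20, hC2⟩ := tail_all hd h P θ hθ0
  have hd0 : (0:ℝ) < 1 / (d:ℝ) := by
    rcases hd with rfl | rfl <;> norm_num
  have hd1 : 1 / (d:ℝ) ≤ 1 / 2 := by
    rcases hd with rfl | rfl <;> norm_num
  have hd2 : (0:ℝ) ≤ (d:ℝ) - 2 := by
    rcases hd with rfl | rfl <;> norm_num
  -- choice of N₀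
  obtain ⟨X₀, hX₀1, hX₀⟩ := Vthm_pow_small (p := -(1 / (d:ℝ)) + θ) (q := 0) (by linarith) (3 * C2) (ε / 8) (by positivity)
  refine ⟨⌈X₀⌉₊, ?_⟩
  intro N hN
  have hNX : X₀ ≤ (N:ℝ) + 1 := by
    have h1 : X₀ ≤ (⌈X₀⌉₊ : ℝ) := Nat.le_ceil _
    have h2 : (⌈X₀⌉₊ : ℝ) ≤ N := by exact_mod_cast hN
    linarith
  have hNb : 3 * C2 * ((N:ℝ) + 1) ^ (-(1 / (d:ℝ)) + θ) ≤ ε / 8 := by
    have := hX₀ _ hNX
    rwa [Real.rpow_zero, mul_one] at this
  obtain ⟨C3, hC30, hC3⟩ := Vthm_single_sum hd h O N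
  set κ : ℝ := (2 + 16 * w) ^ 2 with hκ
  obtain ⟨T1, hT1, hT1'⟩ := Vthm_pow_small (p := 2 + w * (a - 2)) (q := 2 - 1 / (d:ℝ)) (by linarith) (3 * C1) (ε / 8)
    (by positivity)
  obtain ⟨T2, hT2, hT2'⟩ := Vthm_pow_small (p := 1 + w * ((d:ℝ) - 2 + θ)) (q := 2 - 1 / (d:ℝ)) (by linarith)
    (3 * C2 * 2 ^ ((d:ℝ) - 2 + θ)) (ε / 8) (by positivity)
  obtain ⟨T3, hT3, hT3'⟩ := Vthm_pow_small (p := 5/4) (q := 2 - 1 / (d:ℝ)) (by linarith) (3 * C2) (ε / 8)
    (by positivity)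
  obtain ⟨T4, hT4, hT4'⟩ := Vthm_pow_small (p := 5/4) (q := 2 - 1 / (d:ℝ)) (by linarith) (3 * C3 * κ) (ε / 8)
    (by positivity)
  obtain ⟨T5, hT5, hT5'⟩ := Vthm_pow_small (p := 2 + 1 / (d:ℝ) - 2 * w) (q := 2 - 1 / (d:ℝ)) (by linarith)
    (3 * C3) (ε / 8) (by positivity)
  refine ⟨T1 + T2 + T3 + T4 + T5, by linarith, ?_⟩
  intro T hTT
  have hT : 1 ≤ T := by linarith
  have hT0 : 0 < T := by linarith
  have hT2T : T ≤ 2 * T := by linarith
  obtain ⟨J, hJ1, hJ2, hJ3⟩ := Vthm_J hT hw0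
  have hW1 : (1:ℝ) ≤ 2 ^ J := one_le_pow₀ (by norm_num)
  have hTw0 : 0 < T ^ w := by positivity
  -- the three integrals
  obtain ⟨hA1, hA2⟩ := hC1 T hT (2 ^ J) hW1
  have hA1' : IntegrableOn (fun x => (D.E x - sm (2 ^ J) D.Ep x) ^ 2) (Ioc T (2 * T)) volume :=
    (intervalIntegrable_iff_integrableOn_Ioc_of_le hT2T).1 hA1
  rw [intervalIntegral.integral_of_le hT2T] at hA2
  have hB1 := Vthm_B_int h P hT J N hA1'
  have hB2 := hC2 T hT N J
  rw [intervalIntegral.integral_of_le hT2T] at hB2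
  obtain ⟨hG1, hG2⟩ := hC3 T hT J
  rw [intervalIntegral.integral_of_le hT2T]
  set A : ℝ → ℝ := fun x => (D.E x - sm (2 ^ J) D.Ep x) ^ 2 with hA
  set B : ℝ → ℝ := fun x => ‖(sm (2 ^ J) D.Ep x : ℂ) -
      ∑ n ∈ Finset.Icc 1 N, ((D.f n / n : ℝ) : ℂ) * cW D (2 ^ J) (n * x)‖ ^ 2 with hB
  set G : ℝ → ℝ := fun x => ‖∑ n ∈ Finset.Icc 1 N, ((D.f n / n : ℝ) : ℂ) * (cW D (2 ^ J) (n * x) -
        ((2 * (eE d O.κ (bet d O.η) O.c (n * x)).re : ℝ) : ℂ))‖ ^ 2 with hG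
  have hsum : ∫ x in Ioc T (2 * T), (D.E x - trg D O N x) ^ 2 ≤
      3 * ((∫ x in Ioc T (2 * T), A x) + (∫ x in Ioc T (2 * T), B x) + ∫ x in Ioc T (2 * T), G x) := by
    calc ∫ x in Ioc T (2 * T), (D.E x - trg D O N x) ^ 2
        ≤ ∫ x in Ioc T (2 * T), 3 * (A x + B x + G x) := by
          apply integral_mono_of_nonneg
          · exact Filter.Eventually.of_forall (fun x => by positivity)
          · exact ((hA1'.add hB1).add hG1).const_mul 3
          · refine Filter.Eventually.of_forall (fun x => ?_)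
            simp only [hA, hB, hG]
            set u : ℝ := D.E x - sm (2 ^ J) D.Ep x with hu
            set v : ℂ := (sm (2 ^ J) D.Ep x : ℂ) -
              ∑ n ∈ Finset.Icc 1 N, ((D.f n / n : ℝ) : ℂ) * cW D (2 ^ J) (n * x) with hv
            set z : ℂ := ∑ n ∈ Finset.Icc 1 N, ((D.f n / n : ℝ) : ℂ) * (cW D (2 ^ J) (n * x) -
              ((2 * (eE d O.κ (bet d O.η) O.c (n * x)).re : ℝ) : ℂ)) with hz
            have h1 : ((D.E x - trg D O N x : ℝ) : ℂ) = (u : ℂ) + v + z := by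
              rw [hu, hv, hz, trg]
              simp only [mul_sub, Finset.sum_sub_distrib]
              push_cast
              have h2 : ∀ n ∈ Finset.Icc 1 N, (2 : ℂ) * ((((D.f n : ℂ) / (n : ℂ)) *
                  eE d O.κ (bet d O.η) O.c (n * x)).re : ℂ) =
                  ((D.f n : ℂ) / (n : ℂ)) * (2 * ((eE d O.κ (bet d O.η) O.c (n * x)).re : ℂ)) := by
                intro n _
                have h3 : ((D.f n : ℂ) / (n : ℂ)) = ((D.f n / n : ℝ) : ℂ) := by push_cast; ring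
                rw [h3, Complex.re_ofReal_mul]
                push_cast
                ring
              rw [Finset.sum_congr rfl h2]
              ring
            have h4 : |D.E x - trg D O N x| ≤ |u| + ‖v‖ + ‖z‖ := by
              have h5 : |D.E x - trg D O N x| = ‖((D.E x - trg D O N x : ℝ) : ℂ)‖ := by
                rw [Complex.norm_real, Real.norm_eq_abs]
              rw [h5, h1]
              have h6 : |u| = ‖(u : ℂ)‖ := by rw [Complex.norm_real, Real.norm_eq_abs]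
              rw [h6]
              exact norm_add₃_le
            have h7 : (D.E x - trg D O N x) ^ 2 ≤ (|u| + ‖v‖ + ‖z‖) ^ 2 := by
              rw [← sq_abs]
              exact pow_le_pow_left₀ (abs_nonneg _) h4 2
            have h8 : u ^ 2 = |u| ^ 2 := (sq_abs u).symm
            rw [h8]
            nlinarith [sq_nonneg (|u| - ‖v‖), sq_nonneg (|u| - ‖z‖), sq_nonneg (‖v‖ - ‖z‖)]
      _ = 3 * ((∫ x in Ioc T (2 * T), A x) + (∫ x in Ioc T (2 * T), B x) + ∫ x in Ioc T (2 * T), G x) := by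
          rw [integral_const_mul]
          congr 1
          rw [← integral_add hA1' hB1]
          exact integral_add (hA1'.add hB1) hG1
  refine hsum.trans ?_
  -- bounds
  set Q : ℝ := T ^ (2 - 1 / (d:ℝ)) with hQ
  have hQ0 : 0 < Q := by positivity
  have e1 : 3 * (C1 * T ^ 2 * ((2:ℝ) ^ J) ^ (a - 2)) ≤ ε / 8 * Q := by
    have h1 : ((2:ℝ) ^ J) ^ (a - 2) ≤ (T ^ w) ^ (a - 2) :=
      Real.rpow_le_rpow_of_nonpos hTw0 hJ1 (by linarith)
    have h2 : T ^ (2 + w * (a - 2)) = T ^ 2 * (T ^ w) ^ (a - 2) := by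
      rw [Real.rpow_add hT0, Real.rpow_mul hT0.le]
      norm_num
    have h3 := hT1' T (by linarith)
    rw [h2] at h3
    calc 3 * (C1 * T ^ 2 * ((2:ℝ) ^ J) ^ (a - 2)) ≤ 3 * (C1 * T ^ 2 * (T ^ w) ^ (a - 2)) := by gcongr
      _ = 3 * C1 * (T ^ 2 * (T ^ w) ^ (a - 2)) := by ring
      _ ≤ _ := h3
  have e2 : 3 * (C2 * (T ^ (2 - 1 / (d : ℝ)) * ((N : ℝ) + 1) ^ (-(1 / (d : ℝ)) + θ))) ≤ ε / 8 * Q := by
    calc _ = (3 * C2 * ((N : ℝ) + 1) ^ (-(1 / (d : ℝ)) + θ)) * Q := by rw [hQ]; ring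
      _ ≤ _ := mul_le_mul_of_nonneg_right hNb hQ0.le
  have e3 : 3 * (C2 * (T * ((2 : ℝ) ^ J) ^ ((d : ℝ) - 2 + θ))) ≤ ε / 8 * Q := by
    have h1 : ((2:ℝ) ^ J) ^ ((d : ℝ) - 2 + θ) ≤ 2 ^ ((d : ℝ) - 2 + θ) * (T ^ w) ^ ((d : ℝ) - 2 + θ) := by
      rw [← Real.mul_rpow (by norm_num) hTw0.le]
      exact Real.rpow_le_rpow (by positivity) hJ2 (by linarith)
    have h2 : T ^ (1 + w * ((d:ℝ) - 2 + θ)) = T * (T ^ w) ^ ((d:ℝ) - 2 + θ) := by
      rw [Real.rpow_add hT0, Real.rpow_mul hT0.le, Real.rpow_one]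
    have h3 := hT2' T (by linarith)
    rw [h2] at h3
    calc _ ≤ 3 * (C2 * (T * (2 ^ ((d : ℝ) - 2 + θ) * (T ^ w) ^ ((d : ℝ) - 2 + θ)))) := by gcongr
      _ = 3 * C2 * 2 ^ ((d:ℝ) - 2 + θ) * (T * (T ^ w) ^ ((d:ℝ) - 2 + θ)) := by ring
      _ ≤ _ := h3
  have e4 : 3 * (C2 * T ^ ((5:ℝ) / 4)) ≤ ε / 8 * Q := by
    have h3 := hT3' T (by linarith)
    calc _ = 3 * C2 * T ^ ((5:ℝ) / 4) := by ring
      _ ≤ _ := h3
  have e5 : 3 * (C3 * (T * (1 + J) ^ 2)) ≤ ε / 8 * Q := by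
    have h3 := hT4' T (by linarith)
    have h4 : T ^ ((5:ℝ)/4) = T * T ^ ((1:ℝ)/4) := by
      rw [← Real.rpow_one_add' hT0.le (by norm_num)]
      norm_num
    rw [h4] at h3
    calc 3 * (C3 * (T * (1 + J) ^ 2)) ≤ 3 * (C3 * (T * (κ * T ^ ((1:ℝ)/4)))) := by gcongr
      _ = 3 * C3 * κ * (T * T ^ ((1:ℝ)/4)) := by ring
      _ ≤ _ := h3
  have e6 : 3 * (C3 * (T ^ (2 + 1 / (d : ℝ)) / ((2 : ℝ) ^ J) ^ 2)) ≤ ε / 8 * Q := by
    have h3 := hT5' T (by linarith)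
    have h4 : T ^ (2 + 1 / (d:ℝ) - 2 * w) = T ^ (2 + 1 / (d:ℝ)) / (T ^ w) ^ 2 := by
      rw [Real.rpow_sub hT0, mul_comm 2 w, Real.rpow_mul hT0.le]
      norm_num
    rw [h4] at h3
    calc 3 * (C3 * (T ^ (2 + 1 / (d : ℝ)) / ((2 : ℝ) ^ J) ^ 2)) ≤ 3 * (C3 * (T ^ (2 + 1 / (d : ℝ)) / (T ^ w) ^ 2)) := by
          gcongr
      _ = 3 * C3 * (T ^ (2 + 1 / (d:ℝ)) / (T ^ w) ^ 2) := by ring
      _ ≤ _ := h3
  have f1 : 3 * (∫ x in Ioc T (2 * T), A x) ≤ ε / 8 * Q := le_trans (by linarith) e1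
  have f2 : 3 * (∫ x in Ioc T (2 * T), B x) ≤ 3 * (ε / 8 * Q) := by
    have : 3 * (∫ x in Ioc T (2 * T), B x) ≤
        3 * (C2 * (T ^ (2 - 1 / (d : ℝ)) * ((N : ℝ) + 1) ^ (-(1 / (d : ℝ)) + θ))) +
        3 * (C2 * (T * ((2 : ℝ) ^ J) ^ ((d : ℝ) - 2 + θ))) + 3 * (C2 * T ^ ((5:ℝ) / 4)) := by
      linarith
    linarith
  have f3 : 3 * (∫ x in Ioc T (2 * T), G x) ≤ 2 * (ε / 8 * Q) := by
    have : 3 * (∫ x in Ioc T (2 * T), G x) ≤ 3 * (C3 * (T * (1 + J) ^ 2)) +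
        3 * (C3 * (T ^ (2 + 1 / (d : ℝ)) / ((2 : ℝ) ^ J) ^ 2)) := by
      linarith
    linarith
  have hεQ : 0 < ε * Q := by positivity
  linarith

end Pool.Agent.H15.SC
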