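import Pool.Agent.H15.SC.RTail
import Pool.Agent.H15.SC.Vthm

/-!
# R-03  mean square of the smoothed error term, no loss  (project SC, MP_be4568_nt)

Same proof as `tail_all` in `Vthm.lean` (with `N = 0`) from `tail_rs` and `sm_repr`: `sm = ∑'_{n ≥ 1} + R`, the sum is the
pointwise limit of `∑_{n ∈ Icc 1 K}`, Fatou; `∫ ‖R‖² ≤ C T^{5/4} ≤ C T^{5/3}`.  (`n = 0` gives the term `0` because of `D.f 0 / 0 = 0`.)
-/

set_option autoImplicit false

open Complex Filter Topology MeasureTheory Set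
open scoped ComplexConjugate

namespace Pool.Agent.H15.SC

variable {D : SelData}

theorem tail_all_rs (h : IsSel D ((3 : ℕ) : ℝ)) (P : Core D) (hR : RS D) : ∃ C : ℝ, 0 ≤ C ∧
    ∀ T : ℝ, 1 ≤ T → ∀ J : ℕ,
    ∫⁻ x in Icc T (2 * T), ENNReal.ofReal ((sm (2 ^ J) D.Ep x) ^ 2) ≤
      ENNReal.ofReal (C * (T ^ ((5 : ℝ) / 3) + T * (2 : ℝ) ^ J)) := by
  obtain ⟨Ct, hCt0, hCt⟩ := tail_rs h hR
  obtain ⟨Cr, hCr0, hCr⟩ := sm_repr (d := 3) (Or.inr rfl) h P
  refine ⟨2 * Ct + 2 * Cr, by positivity, ?_⟩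
  intro T hT J
  obtain ⟨R, hRc, hRs, hRb⟩ := hCr J
  have hT0 : 0 < T := by linarith
  have hTT : T ≤ 2 * T := by linarith
  set c : ℕ → ℝ → ℂ := fun n x => ((D.f n / n : ℝ) : ℂ) * cW D (2 ^ J) (n * x) with hc
  set B : ℝ := Ct * (T ^ ((5 : ℝ) / 3) + T * (2 : ℝ) ^ J) with hB
  have hB0 : 0 ≤ B := by positivity
  have hc0 : ∀ x, c 0 x = 0 := by
    intro x
    simp [hc]
  have hccont : ∀ n : ℕ, 1 ≤ n → ContinuousOn (c n) (Ioi 0) := fun n hn => Vthm_term_cont h J hn
  -- partial sums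
  set S : ℕ → Finset ℕ := fun K => (Finset.range K).filter (fun n => 0 < n) with hS
  set g : ℕ → ℝ → ℂ := fun K x => ∑ n ∈ S K, c n x with hg
  have hgcont : ∀ K, ContinuousOn (g K) (Ioi 0) := by
    intro K
    refine continuousOn_finsetSum _ (fun n hn => hccont n ?_)
    rw [hS, Finset.mem_filter] at hn
    omega
  have hIocIoi : Ioc T (2 * T) ⊆ Ioi 0 := fun x hx => lt_trans hT0 hx.1
  have hIccIoi : Icc T (2 * T) ⊆ Ioi 0 := fun x hx => lt_of_lt_of_le hT0 hx.1
  have hgint : ∀ K, ∫⁻ x in Ioc T (2 * T), ENNReal.ofReal (‖g K x‖ ^ 2) ≤ ENNReal.ofReal B := by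
    intro K
    have h1 := hCt T hT J (S K) (fun n hn => by rw [hS, Finset.mem_filter] at hn; exact hn.2)
    rw [intervalIntegral.integral_of_le hTT] at h1
    have h2 : IntegrableOn (fun x => ‖g K x‖ ^ 2) (Ioc T (2 * T)) volume := by
      have h3 : ContinuousOn (fun x => ‖g K x‖ ^ 2) (Icc T (2 * T)) :=
        (((hgcont K).mono hIccIoi).norm).pow 2
      exact h3.integrableOn_Icc.mono_set Ioc_subset_Icc_self
    rw [← ofReal_integral_eq_lintegral_ofReal h2 (Filter.Eventually.of_forall (fun x => by positivity))]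
    exact ENNReal.ofReal_le_ofReal h1
  -- the limit
  set F : ℝ → ℂ := fun x => (sm (2 ^ J) D.Ep x : ℂ) with hF
  have hlim : ∀ x ∈ Ioc T (2 * T), Tendsto (fun K => g K x) atTop (𝓝 (F x - R x)) := by
    intro x hx
    have hx0 : 0 < x := hIocIoi hx
    obtain ⟨hsum, heq⟩ := hRs x hx0
    have h1 : Tendsto (fun K => ∑ n ∈ Finset.range K, c n x) atTop
        (𝓝 (∑' n : ℕ, c n x)) := hsum.hasSum.tendsto_sum_nat
    have h2 : F x - R x = ∑' n : ℕ, c n x := by
      rw [hF]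
      simp only
      rw [heq]
      ring
    rw [h2]
    refine h1.congr (fun K => ?_)
    symm
    rw [hg, hS]
    apply Finset.sum_subset (Finset.filter_subset _ _)
    intro n hn hn2
    rw [Finset.mem_filter] at hn2
    have : n = 0 := by
      by_contra hn0
      exact hn2 ⟨hn, Nat.pos_of_ne_zero hn0⟩
    rw [this, hc0]
  have hfatou : ∫⁻ x in Ioc T (2 * T), ENNReal.ofReal (‖F x - R x‖ ^ 2) ≤ ENNReal.ofReal B := by
    calc ∫⁻ x in Ioc T (2 * T), ENNReal.ofReal (‖F x - R x‖ ^ 2)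
        = ∫⁻ x in Ioc T (2 * T), liminf (fun K => ENNReal.ofReal (‖g K x‖ ^ 2)) atTop := by
          apply setLIntegral_congr_fun measurableSet_Ioc
          intro x hx
          have h1 : Tendsto (fun K => ENNReal.ofReal (‖g K x‖ ^ 2)) atTop
              (𝓝 (ENNReal.ofReal (‖F x - R x‖ ^ 2))) :=
            ENNReal.tendsto_ofReal (((hlim x hx).norm).pow 2)
          exact h1.liminf_eq.symm
      _ ≤ liminf (fun K => ∫⁻ x in Ioc T (2 * T), ENNReal.ofReal (‖g K x‖ ^ 2)) atTop := by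
          apply lintegral_liminf_le'
          intro K
          have h3 : ContinuousOn (fun x => ‖g K x‖ ^ 2) (Ioc T (2 * T)) :=
            (((hgcont K).mono hIocIoi).norm).pow 2
          exact (h3.aemeasurable measurableSet_Ioc).ennreal_ofReal
      _ ≤ ENNReal.ofReal B := by
          refine liminf_le_of_le (by isBoundedDefault) ?_
          intro b hb
          obtain ⟨K, hK⟩ := hb.exists
          exact hK.trans (hgint K)
  have hRint : ∫⁻ x in Ioc T (2 * T), ENNReal.ofReal (‖R x‖ ^ 2) ≤ ENNReal.ofReal (Cr * T ^ ((5 : ℝ) / 4)) := by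
    have h1 := hRb T hT
    rw [intervalIntegral.integral_of_le hTT] at h1
    have h2 : IntegrableOn (fun x => ‖R x‖ ^ 2) (Ioc T (2 * T)) volume := by
      have h3 : ContinuousOn (fun x => ‖R x‖ ^ 2) (Icc T (2 * T)) :=
        ((hRc.mono hIccIoi).norm).pow 2
      exact h3.integrableOn_Icc.mono_set Ioc_subset_Icc_self
    rw [← ofReal_integral_eq_lintegral_ofReal h2 (Filter.Eventually.of_forall (fun x => by positivity))]
    exact ENNReal.ofReal_le_ofReal h1
  have hRm : AEMeasurable (fun x => ENNReal.ofReal (‖R x‖ ^ 2)) (volume.restrict (Ioc T (2 * T))) := by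
    have h3 : ContinuousOn (fun x => ‖R x‖ ^ 2) (Ioc T (2 * T)) := ((hRc.mono hIocIoi).norm).pow 2
    exact (h3.aemeasurable measurableSet_Ioc).ennreal_ofReal
  have hT54 : T ^ ((5 : ℝ) / 4) ≤ T ^ ((5 : ℝ) / 3) :=
    Real.rpow_le_rpow_of_exponent_le hT (by norm_num)
  rw [← setLIntegral_congr (Ioc_ae_eq_Icc (μ := volume) (a := T) (b := 2 * T))]
  calc ∫⁻ x in Ioc T (2 * T), ENNReal.ofReal ((sm (2 ^ J) D.Ep x) ^ 2)
      ≤ ∫⁻ x in Ioc T (2 * T), (ENNReal.ofReal 2 * ENNReal.ofReal (‖F x - R x‖ ^ 2) +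
            ENNReal.ofReal 2 * ENNReal.ofReal (‖R x‖ ^ 2)) := by
        apply lintegral_mono
        intro x
        simp only
        rw [← ENNReal.ofReal_mul (by norm_num), ← ENNReal.ofReal_mul (by norm_num),
          ← ENNReal.ofReal_add (by positivity) (by positivity)]
        apply ENNReal.ofReal_le_ofReal
        have h1 : ‖F x‖ ≤ ‖F x - R x‖ + ‖R x‖ := by
          calc ‖F x‖ = ‖(F x - R x) + R x‖ := by ring_nf
            _ ≤ _ := norm_add_le _ _
        have h2 : 0 ≤ ‖F x‖ := norm_nonneg _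
        have h3 : (sm (2 ^ J) D.Ep x) ^ 2 = ‖F x‖ ^ 2 := by
          rw [hF]
          simp only
          rw [Complex.norm_real, Real.norm_eq_abs, sq_abs]
        rw [h3]
        nlinarith [sq_nonneg (‖F x - R x‖ - ‖R x‖)]
    _ = ENNReal.ofReal 2 * (∫⁻ x in Ioc T (2 * T), ENNReal.ofReal (‖F x - R x‖ ^ 2)) +
            ENNReal.ofReal 2 * ∫⁻ x in Ioc T (2 * T), ENNReal.ofReal (‖R x‖ ^ 2) := by
        rw [lintegral_add_right' _ (hRm.const_mul _), lintegral_const_mul' _ _ ENNReal.ofReal_ne_top,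
          lintegral_const_mul' _ _ ENNReal.ofReal_ne_top]
    _ ≤ ENNReal.ofReal 2 * ENNReal.ofReal B + ENNReal.ofReal 2 * ENNReal.ofReal (Cr * T ^ ((5 : ℝ) / 4)) := by
        gcongr
    _ = ENNReal.ofReal (2 * B + 2 * (Cr * T ^ ((5 : ℝ) / 4))) := by
        rw [← ENNReal.ofReal_mul (by norm_num), ← ENNReal.ofReal_mul (by norm_num),
          ← ENNReal.ofReal_add (by positivity) (by positivity)]
    _ ≤ ENNReal.ofReal ((2 * Ct + 2 * Cr) * (T ^ ((5 : ℝ) / 3) + T * (2 : ℝ) ^ J)) := by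
        apply ENNReal.ofReal_le_ofReal
        have h1 : 0 ≤ T * (2 : ℝ) ^ J := by positivity
        have h2 : Cr * T ^ ((5 : ℝ) / 4) ≤ Cr * (T ^ ((5 : ℝ) / 3) + T * (2 : ℝ) ^ J) :=
          mul_le_mul_of_nonneg_left (by linarith) hCr0
        rw [hB]
        linarith

end Pool.Agent.H15.SC
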