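import Pool.Agent.H15.SC.Block

/-!
# R-01  the block estimate under a mean square bound for the coefficients  (project SC, MP_be4568_nt)

Same proof as `block` (SC-14) with `∑_{n ∈ [M,2M)} f(n)² ≤ 2 C M` (from `RS`) in place of the bound from `h.ram`; `d = 3`,
so `U^(d-2) = U`, and no factor `M^θ`.
-/

set_option autoImplicit false

open Complex Filter Topology MeasureTheory Set
open scoped ComplexConjugate

namespace Pool.Agent.H15.SC

/-- coefficients bounded in mean square -/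
def RS (D : SelData) : Prop := ∃ C : ℝ, ∀ N : ℕ, ∑ n ∈ Finset.Icc 1 N, D.f n ^ 2 ≤ C * N

variable {D : SelData}

theorem block_rs (h : IsSel D ((3 : ℕ) : ℝ)) (hR : RS D) : ∃ C : ℝ, 0 ≤ C ∧
    ∀ M : ℕ, 1 ≤ M → ∀ U : ℝ, 1 ≤ U → ∀ T : ℝ, 1 ≤ T → ∀ S ⊆ Finset.Ico M (2 * M),
    ∀ σ : ℝ, (σ = 3/4 ∨ σ = -(3/4)) →
    ∫ x in T..(2 * T), ‖∑ n ∈ S, ((D.f n / n : ℝ) : ℂ) * cB D U (n * x)‖ ^ 2 ≤
      C * T * U * ((U + M) / M) * (T * M / U ^ 3) ^ (2 * σ) := by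
  have key : ∀ σ : ℝ, (σ = 3/4 ∨ σ = -(3/4)) → ∃ C : ℝ, 0 ≤ C ∧
      ∀ M : ℕ, 1 ≤ M → ∀ U : ℝ, 1 ≤ U → ∀ T : ℝ, 1 ≤ T → ∀ S ⊆ Finset.Ico M (2 * M),
      ∫ x in T..(2 * T), ‖∑ n ∈ S, ((D.f n / n : ℝ) : ℂ) * cB D U (n * x)‖ ^ 2 ≤
        C * T * U * ((U + M) / M) * (T * M / U ^ 3) ^ (2 * σ) := by
    intro σ hσ
    have hp : 0 ≤ ((3 : ℕ) : ℝ) * (1 - 2 * σ) + 2 := by
      rcases hσ with rfl | rfl <;> norm_num
    have hle : 2 * σ - 2 ≤ 0 := by
      rcases hσ with rfl | rfl <;> norm_num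
    obtain ⟨C1, hC1, h1⟩ := block_core h hσ hp
    obtain ⟨C2, h2⟩ := hR
    refine ⟨C1 * (|C2| * 2), by positivity, fun M hM U hU T hT S hS => ?_⟩
    have hU0 : 0 < U := by linarith
    have hT0 : 0 < T := by linarith
    have hM0 : (0 : ℝ) < M := by exact_mod_cast hM
    have hsum : ∑ n ∈ Finset.Ico M (2 * M), D.f n ^ 2 * (n : ℝ) ^ (2 * σ - 2) ≤
        |C2| * 2 * (M : ℝ) ^ ((-1) + 2 * σ) := by
      have hterm : ∀ n ∈ Finset.Ico M (2 * M), D.f n ^ 2 * (n : ℝ) ^ (2 * σ - 2) ≤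
          D.f n ^ 2 * (M : ℝ) ^ (2 * σ - 2) := by
        intro n hn
        rw [Finset.mem_Ico] at hn
        have h1' : (M : ℝ) ≤ n := by exact_mod_cast hn.1
        exact mul_le_mul_of_nonneg_left (Real.rpow_le_rpow_of_nonpos hM0 h1' hle) (sq_nonneg _)
      have hsub : Finset.Ico M (2 * M) ⊆ Finset.Icc 1 (2 * M) := by
        intro n hn
        rw [Finset.mem_Ico] at hn
        rw [Finset.mem_Icc]
        omega
      have hrs : ∑ n ∈ Finset.Ico M (2 * M), D.f n ^ 2 ≤ |C2| * (2 * M) := by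
        refine (Finset.sum_le_sum_of_subset_of_nonneg hsub fun n _ _ => sq_nonneg _).trans ?_
        refine (h2 (2 * M)).trans ?_
        push_cast
        exact mul_le_mul_of_nonneg_right (le_abs_self C2) (by positivity)
      refine (Finset.sum_le_sum hterm).trans ?_
      rw [← Finset.sum_mul]
      refine (mul_le_mul_of_nonneg_right hrs (by positivity)).trans ?_
      have e3 : (M : ℝ) ^ ((-1) + 2 * σ) = (M : ℝ) * (M : ℝ) ^ (2 * σ - 2) := by
        have a2 : (-1) + 2 * σ = 1 + (2 * σ - 2) := by ring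
        rw [a2, Real.rpow_add hM0, Real.rpow_one]
      rw [e3]
      apply le_of_eq
      ring
    refine (h1 M hM U hU T hT S hS).trans ?_
    have hpw := blk_powers hT0 hU0 hM 3 σ (-1)
    have e4 : U ^ (((3 : ℕ) : ℝ) - 2) = U := by
      have : ((3 : ℕ) : ℝ) - 2 = 1 := by norm_num
      rw [this, Real.rpow_one]
    have e5 : (M : ℝ) ^ (-1 : ℝ) = 1 / M := by
      rw [Real.rpow_neg_one, one_div]
    rw [e4, e5] at hpw
    calc C1 * T ^ (1 + 2 * σ) * U ^ (((3 : ℕ) : ℝ) * (1 - 2 * σ) - 2) * (U + M) *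
          ∑ n ∈ Finset.Ico M (2 * M), D.f n ^ 2 * (n : ℝ) ^ (2 * σ - 2)
        ≤ C1 * T ^ (1 + 2 * σ) * U ^ (((3 : ℕ) : ℝ) * (1 - 2 * σ) - 2) * (U + M) *
          (|C2| * 2 * (M : ℝ) ^ ((-1) + 2 * σ)) := by
          refine mul_le_mul_of_nonneg_left hsum (by positivity)
      _ = C1 * (|C2| * 2) * (U + M) *
          (T ^ (1 + 2 * σ) * U ^ (((3 : ℕ) : ℝ) * (1 - 2 * σ) - 2) * (M : ℝ) ^ ((-1) + 2 * σ)) := by ring
      _ = _ := by
          rw [hpw]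
          ring
  obtain ⟨C1, hC1, h1⟩ := key (3/4) (Or.inl rfl)
  obtain ⟨C2, hC2, h2⟩ := key (-(3/4)) (Or.inr rfl)
  refine ⟨C1 + C2, by positivity, fun M hM U hU T hT S hS σ hσ => ?_⟩
  have hU0 : 0 < U := by linarith
  have hT0 : 0 < T := by linarith
  have hM0 : (0 : ℝ) < M := by exact_mod_cast hM
  rcases hσ with rfl | rfl
  · refine (h1 M hM U hU T hT S hS).trans ?_
    have : 0 ≤ C2 * T * U * ((U + M) / M) * (T * M / U ^ 3) ^ (2 * (3/4 : ℝ)) := by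
      positivity
    linarith [this]
  · refine (h2 M hM U hU T hT S hS).trans ?_
    have : 0 ≤ C1 * T * U * ((U + M) / M) * (T * M / U ^ 3) ^ (2 * (-(3/4) : ℝ)) := by
      positivity
    linarith [this]

end Pool.Agent.H15.SC
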