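import Pool.Agent.H15.SC.Vthm

/-!
# R-08  the smoothed error term is close to the trigonometric sum  (project SC, MP_be4568_nt)

Same as the second and third parts of the proof of `vthm` (copy it, without `near_smooth`): `w = 7/12`, `d = 3`, `θ = 1/12`:
`7/12 · (1 + 1/12) = 91/144 < 2/3`, `2 + 1/3 - 2·7/12 = 7/6 < 5/3`, `θ < 1/3`.  `Vthm_J` gives the bound for `(1+J)²` only for its own
`J`; here it is a hypothesis.
-/

set_option autoImplicit false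

open Complex Filter Topology MeasureTheory Set
open scoped ComplexConjugate

namespace Pool.Agent.H15.SC

variable {D : SelData}

theorem RClose_sm_bound (P : Core D) : ∃ C : ℝ, 0 ≤ C ∧ ∀ W : ℝ, 1 ≤ W → ∀ x : ℝ, 0 < x →
    |sm W D.Ep x| ≤ C * x ^ ((3 : ℝ) / 2) := by
  obtain ⟨CE, hCE, hb⟩ := smo_Ep_bound P
  obtain ⟨CG, hCG, hG⟩ := gW_exp (3 / 2) (by norm_num)
  refine ⟨CE * CG, by positivity, ?_⟩
  intro W hW x hx
  obtain ⟨h1, h2⟩ := hG W hW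
  have h3 : ‖sm W D.Ep x‖ ≤ ∫ u : ℝ, CE * x ^ ((3 : ℝ) / 2) * (gW W u * Real.exp (3 / 2 * |u|)) := by
    unfold sm
    apply norm_integral_le_of_norm_le (h1.const_mul _)
    refine Filter.Eventually.of_forall (fun u => ?_)
    have h4 := hb (x * Real.exp (-u)) (by positivity)
    rw [Real.mul_rpow hx.le (Real.exp_pos _).le, ← Real.exp_mul] at h4
    have h5 : Real.exp (-u * (3 / 2)) ≤ Real.exp (3 / 2 * |u|) := by
      rw [Real.exp_le_exp]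
      have := neg_abs_le u
      linarith
    have h6 : 0 ≤ gW W u := gW_nonneg (by linarith) u
    rw [norm_mul, Real.norm_eq_abs, Real.norm_eq_abs, abs_of_nonneg h6]
    calc |D.Ep (x * Real.exp (-u))| * gW W u
        ≤ CE * (x ^ ((3 : ℝ) / 2) * Real.exp (-u * (3 / 2))) * gW W u := by gcongr
      _ ≤ CE * (x ^ ((3 : ℝ) / 2) * Real.exp (3 / 2 * |u|)) * gW W u := by gcongr
      _ = CE * x ^ ((3 : ℝ) / 2) * (gW W u * Real.exp (3 / 2 * |u|)) := by ring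
  rw [integral_const_mul, Real.norm_eq_abs] at h3
  calc |sm W D.Ep x| ≤ CE * x ^ ((3 : ℝ) / 2) * ∫ u : ℝ, gW W u * Real.exp (3 / 2 * |u|) := h3
    _ ≤ CE * x ^ ((3 : ℝ) / 2) * CG := by gcongr
    _ = CE * CG * x ^ ((3 : ℝ) / 2) := by ring

theorem RClose_B_int {d : ℕ} (h : IsSel D d) (P : Core D) {T : ℝ} (hT : 1 ≤ T) (J N : ℕ) :
    IntegrableOn (fun x => ‖(sm (2 ^ J) D.Ep x : ℂ) -
      ∑ n ∈ Finset.Icc 1 N, ((D.f n / n : ℝ) : ℂ) * cW D (2 ^ J) (n * x)‖ ^ 2) (Ioc T (2 * T)) volume := by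
  have hT0 : 0 < T := by linarith
  have hIccIoi : Icc T (2 * T) ⊆ Ioi 0 := fun x hx => lt_of_lt_of_le hT0 hx.1
  obtain ⟨CS, hCS0, hCS⟩ := RClose_sm_bound P
  set S : ℝ → ℂ := fun x => ∑ n ∈ Finset.Icc 1 N, ((D.f n / n : ℝ) : ℂ) * cW D (2 ^ J) (n * x) with hS
  have hScont : ContinuousOn S (Ioi 0) :=
    continuousOn_finsetSum _ (fun n hn => Vthm_term_cont h J (Finset.mem_Icc.1 hn).1)
  have hS2 : IntegrableOn (fun x => ‖S x‖ ^ 2) (Ioc T (2 * T)) volume := by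
    have h3 : ContinuousOn (fun x => ‖S x‖ ^ 2) (Icc T (2 * T)) := ((hScont.mono hIccIoi).norm).pow 2
    exact h3.integrableOn_Icc.mono_set Ioc_subset_Icc_self
  set K : ℝ := (CS * (2 * T) ^ ((3:ℝ)/2)) ^ 2 with hK
  have hKint : IntegrableOn (fun _ : ℝ => K) (Ioc T (2 * T)) volume := by
    have e1 : volume (Ioc T (2 * T)) ≠ ⊤ := by simp
    have e2 : ‖K‖ₑ ≠ ⊤ := by simp
    exact integrableOn_const e1 e2
  have hdom : IntegrableOn (fun x => 2 * (K + ‖S x‖ ^ 2)) (Ioc T (2 * T)) volume :=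
    ((hKint.add hS2).const_mul 2)
  refine Integrable.mono' hdom ?_ ?_
  · have h1 : AEStronglyMeasurable (fun x => (sm (2 ^ J) D.Ep x : ℂ)) (volume.restrict (Ioc T (2 * T))) :=
      ((Complex.measurable_ofReal.comp (Vthm_sm_meas P (2 ^ J)))).aestronglyMeasurable
    have h2 : AEStronglyMeasurable S (volume.restrict (Ioc T (2 * T))) :=
      (hScont.mono (fun x hx => lt_trans hT0 hx.1)).aestronglyMeasurable measurableSet_Ioc
    exact ((h1.sub h2).norm).pow 2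
  · rw [ae_restrict_iff' measurableSet_Ioc]
    refine Filter.Eventually.of_forall (fun x hx => ?_)
    rw [mem_Ioc] at hx
    have hx0 : 0 < x := by linarith [hx.1]
    rw [Real.norm_of_nonneg (by positivity)]
    have h1 : ‖(sm (2 ^ J) D.Ep x : ℂ) - S x‖ ≤ |sm (2 ^ J) D.Ep x| + ‖S x‖ := by
      calc _ ≤ ‖(sm (2 ^ J) D.Ep x : ℂ)‖ + ‖S x‖ := norm_sub_le _ _
        _ = _ := by rw [Complex.norm_real, Real.norm_eq_abs]
    have h3 : |sm (2 ^ J) D.Ep x| ≤ CS * (2 * T) ^ ((3:ℝ)/2) := by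
      refine (hCS (2 ^ J) (one_le_pow₀ (by norm_num)) x hx0).trans ?_
      apply mul_le_mul_of_nonneg_left _ hCS0
      exact Real.rpow_le_rpow hx0.le hx.2 (by norm_num)
    have h4 : |sm (2 ^ J) D.Ep x| ^ 2 ≤ K := pow_le_pow_left₀ (abs_nonneg _) h3 2
    set q := |sm (2 ^ J) D.Ep x|
    set r := ‖S x‖
    have h6 : ‖(sm (2 ^ J) D.Ep x : ℂ) - S x‖ ^ 2 ≤ (q + r) ^ 2 := pow_le_pow_left₀ (norm_nonneg _) h1 2
    nlinarith [sq_nonneg (q - r)]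

theorem close_smooth (h : IsSel D ((3 : ℕ) : ℝ)) (P : Core D) (O : OscData D 3) : ∀ ε : ℝ, 0 < ε → ∃ N₀ : ℕ,
    ∀ N : ℕ, N₀ ≤ N → ∃ T₀ : ℝ, 1 ≤ T₀ ∧ ∀ T : ℝ, T₀ ≤ T → ∀ J : ℕ, T ^ ((7 : ℝ) / 12) ≤ (2 : ℝ) ^ J →
      (2 : ℝ) ^ J ≤ 2 * T ^ ((7 : ℝ) / 12) →
      ((1 : ℝ) + J) ^ 2 ≤ (2 + 16 * ((7 : ℝ) / 12)) ^ 2 * T ^ ((1 : ℝ) / 4) →
      ∫ x in T..(2 * T), (sm (2 ^ J) D.Ep x - trg D O N x) ^ 2 ≤ ε * T ^ ((5 : ℝ) / 3) := by
  intro ε hε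
  obtain ⟨C2, hC20, hC2⟩ := tail_all (Or.inr rfl) h P (1 / 12) (by norm_num)
  -- choice of N₀
  obtain ⟨X₀, hX₀1, hX₀⟩ := Vthm_pow_small (p := -(1 / (((3 : ℕ) : ℝ))) + 1 / 12) (q := 0) (by norm_num) (2 * C2) (ε / 8)
    (by positivity)
  refine ⟨⌈X₀⌉₊, ?_⟩
  intro N hN
  have hNX : X₀ ≤ (N:ℝ) + 1 := by
    have h1 : X₀ ≤ (⌈X₀⌉₊ : ℝ) := Nat.le_ceil _
    have h2 : (⌈X₀⌉₊ : ℝ) ≤ N := by exact_mod_cast hN
    linarith
  have hNb : 2 * C2 * ((N:ℝ) + 1) ^ (-(1 / (((3 : ℕ) : ℝ))) + 1 / 12) ≤ ε / 8 := by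
    have := hX₀ _ hNX
    rwa [Real.rpow_zero, mul_one] at this
  obtain ⟨C3, hC30, hC3⟩ := Vthm_single_sum (Or.inr rfl) h O N
  set κ : ℝ := (2 + 16 * ((7 : ℝ) / 12)) ^ 2 with hκ
  obtain ⟨T2, hT2, hT2'⟩ := Vthm_pow_small (p := 1 + (7 / 12) * (((3 : ℕ) : ℝ) - 2 + 1 / 12)) (q := 5 / 3) (by norm_num)
    (2 * C2 * 2 ^ (((3 : ℕ) : ℝ) - 2 + 1 / 12)) (ε / 8) (by positivity)
  obtain ⟨T3, hT3, hT3'⟩ := Vthm_pow_small (p := 5/4) (q := 5 / 3) (by norm_num) (2 * C2) (ε / 8)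
    (by positivity)
  obtain ⟨T4, hT4, hT4'⟩ := Vthm_pow_small (p := 5/4) (q := 5 / 3) (by norm_num) (2 * C3 * κ) (ε / 8)
    (by positivity)
  obtain ⟨T5, hT5, hT5'⟩ := Vthm_pow_small (p := 2 + 1 / (((3 : ℕ) : ℝ)) - 2 * (7 / 12)) (q := 5 / 3) (by norm_num)
    (2 * C3) (ε / 8) (by positivity)
  refine ⟨T2 + T3 + T4 + T5, by linarith, ?_⟩
  intro T hTT J hJ1 hJ2 hJ3
  have hT : 1 ≤ T := by linarith
  have hT0 : 0 < T := by linarith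
  have hT2T : T ≤ 2 * T := by linarith
  have hW1 : (1:ℝ) ≤ 2 ^ J := one_le_pow₀ (by norm_num)
  have hTw0 : 0 < T ^ ((7 : ℝ) / 12) := by positivity
  have hB1 := RClose_B_int h P hT J N
  have hB2 := hC2 T hT N J
  rw [intervalIntegral.integral_of_le hT2T] at hB2
  obtain ⟨hG1, hG2⟩ := hC3 T hT J
  rw [intervalIntegral.integral_of_le hT2T]
  set B : ℝ → ℝ := fun x => ‖(sm (2 ^ J) D.Ep x : ℂ) -
      ∑ n ∈ Finset.Icc 1 N, ((D.f n / n : ℝ) : ℂ) * cW D (2 ^ J) (n * x)‖ ^ 2 with hB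
  set G : ℝ → ℝ := fun x => ‖∑ n ∈ Finset.Icc 1 N, ((D.f n / n : ℝ) : ℂ) * (cW D (2 ^ J) (n * x) -
        ((2 * (eE 3 O.κ (bet 3 O.η) O.c (n * x)).re : ℝ) : ℂ))‖ ^ 2 with hG
  have hsum : ∫ x in Ioc T (2 * T), (sm (2 ^ J) D.Ep x - trg D O N x) ^ 2 ≤
      2 * ((∫ x in Ioc T (2 * T), B x) + ∫ x in Ioc T (2 * T), G x) := by
    calc ∫ x in Ioc T (2 * T), (sm (2 ^ J) D.Ep x - trg D O N x) ^ 2
        ≤ ∫ x in Ioc T (2 * T), 2 * (B x + G x) := by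
          apply integral_mono_of_nonneg
          · exact Filter.Eventually.of_forall (fun x => by positivity)
          · exact (hB1.add hG1).const_mul 2
          · refine Filter.Eventually.of_forall (fun x => ?_)
            simp only [hB, hG]
            set v : ℂ := (sm (2 ^ J) D.Ep x : ℂ) -
              ∑ n ∈ Finset.Icc 1 N, ((D.f n / n : ℝ) : ℂ) * cW D (2 ^ J) (n * x) with hv
            set z : ℂ := ∑ n ∈ Finset.Icc 1 N, ((D.f n / n : ℝ) : ℂ) * (cW D (2 ^ J) (n * x) -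
              ((2 * (eE 3 O.κ (bet 3 O.η) O.c (n * x)).re : ℝ) : ℂ)) with hz
            have h1 : ((sm (2 ^ J) D.Ep x - trg D O N x : ℝ) : ℂ) = v + z := by
              rw [hv, hz, trg]
              simp only [mul_sub, Finset.sum_sub_distrib]
              push_cast
              have h2 : ∀ n ∈ Finset.Icc 1 N, (2 : ℂ) * ((((D.f n : ℂ) / (n : ℂ)) *
                  eE 3 O.κ (bet 3 O.η) O.c (n * x)).re : ℂ) =
                  ((D.f n : ℂ) / (n : ℂ)) * (2 * ((eE 3 O.κ (bet 3 O.η) O.c (n * x)).re : ℂ)) := by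
                intro n _
                have h3 : ((D.f n : ℂ) / (n : ℂ)) = ((D.f n / n : ℝ) : ℂ) := by push_cast; ring
                rw [h3, Complex.re_ofReal_mul]
                push_cast
                ring
              rw [Finset.sum_congr rfl h2]
              ring
            have h4 : |sm (2 ^ J) D.Ep x - trg D O N x| ≤ ‖v‖ + ‖z‖ := by
              have h5 : |sm (2 ^ J) D.Ep x - trg D O N x| = ‖((sm (2 ^ J) D.Ep x - trg D O N x : ℝ) : ℂ)‖ := by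
                rw [Complex.norm_real, Real.norm_eq_abs]
              rw [h5, h1]
              exact norm_add_le _ _
            have h7 : (sm (2 ^ J) D.Ep x - trg D O N x) ^ 2 ≤ (‖v‖ + ‖z‖) ^ 2 := by
              rw [← sq_abs]
              exact pow_le_pow_left₀ (abs_nonneg _) h4 2
            nlinarith [sq_nonneg (‖v‖ - ‖z‖)]
      _ = 2 * ((∫ x in Ioc T (2 * T), B x) + ∫ x in Ioc T (2 * T), G x) := by
          rw [integral_const_mul]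
          congr 1
          exact integral_add hB1 hG1
  refine hsum.trans ?_
  -- bounds
  set Q : ℝ := T ^ ((5 : ℝ) / 3) with hQ
  have hQ0 : 0 < Q := by positivity
  have hQ' : T ^ (2 - 1 / (((3 : ℕ) : ℝ))) = Q := by
    rw [hQ]
    congr 1
    norm_num
  rw [hQ'] at hB2
  have e2 : 2 * (C2 * (Q * ((N : ℝ) + 1) ^ (-(1 / (((3 : ℕ) : ℝ))) + 1 / 12))) ≤ ε / 8 * Q := by
    calc _ = (2 * C2 * ((N : ℝ) + 1) ^ (-(1 / (((3 : ℕ) : ℝ))) + 1 / 12)) * Q := by ring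
      _ ≤ _ := mul_le_mul_of_nonneg_right hNb hQ0.le
  have e3 : 2 * (C2 * (T * ((2 : ℝ) ^ J) ^ ((((3 : ℕ) : ℝ)) - 2 + 1 / 12))) ≤ ε / 8 * Q := by
    have hexp : (0 : ℝ) ≤ (((3 : ℕ) : ℝ)) - 2 + 1 / 12 := by norm_num
    have h1 : ((2:ℝ) ^ J) ^ ((((3 : ℕ) : ℝ)) - 2 + 1 / 12) ≤
        2 ^ ((((3 : ℕ) : ℝ)) - 2 + 1 / 12) * (T ^ ((7 : ℝ) / 12)) ^ ((((3 : ℕ) : ℝ)) - 2 + 1 / 12) := by
      rw [← Real.mul_rpow (by norm_num) hTw0.le]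
      exact Real.rpow_le_rpow (by positivity) hJ2 hexp
    have h2 : T ^ (1 + ((7 : ℝ) / 12) * ((((3 : ℕ) : ℝ)) - 2 + 1 / 12)) =
        T * (T ^ ((7 : ℝ) / 12)) ^ ((((3 : ℕ) : ℝ)) - 2 + 1 / 12) := by
      rw [Real.rpow_add hT0, Real.rpow_mul hT0.le, Real.rpow_one]
    have h3 := hT2' T (by linarith)
    rw [h2] at h3
    calc _ ≤ 2 * (C2 * (T * (2 ^ ((((3 : ℕ) : ℝ)) - 2 + 1 / 12) *
          (T ^ ((7 : ℝ) / 12)) ^ ((((3 : ℕ) : ℝ)) - 2 + 1 / 12)))) := by gcongr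
      _ = 2 * C2 * 2 ^ ((((3 : ℕ) : ℝ)) - 2 + 1 / 12) *
          (T * (T ^ ((7 : ℝ) / 12)) ^ ((((3 : ℕ) : ℝ)) - 2 + 1 / 12)) := by ring
      _ ≤ _ := h3
  have e4 : 2 * (C2 * T ^ ((5:ℝ) / 4)) ≤ ε / 8 * Q := by
    have h3 := hT3' T (by linarith)
    calc _ = 2 * C2 * T ^ ((5:ℝ) / 4) := by ring
      _ ≤ _ := h3
  have e5 : 2 * (C3 * (T * (1 + J) ^ 2)) ≤ ε / 8 * Q := by
    have h3 := hT4' T (by linarith)
    have h4 : T ^ ((5:ℝ)/4) = T * T ^ ((1:ℝ)/4) := by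
      rw [← Real.rpow_one_add' hT0.le (by norm_num)]
      norm_num
    rw [h4] at h3
    calc 2 * (C3 * (T * (1 + J) ^ 2)) ≤ 2 * (C3 * (T * (κ * T ^ ((1:ℝ)/4)))) := by gcongr
      _ = 2 * C3 * κ * (T * T ^ ((1:ℝ)/4)) := by ring
      _ ≤ _ := h3
  have e6 : 2 * (C3 * (T ^ (2 + 1 / (((3 : ℕ) : ℝ))) / ((2 : ℝ) ^ J) ^ 2)) ≤ ε / 8 * Q := by
    have h3 := hT5' T (by linarith)
    have h4 : T ^ (2 + 1 / (((3 : ℕ) : ℝ)) - 2 * ((7 : ℝ) / 12)) =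
        T ^ (2 + 1 / (((3 : ℕ) : ℝ))) / (T ^ ((7 : ℝ) / 12)) ^ 2 := by
      rw [Real.rpow_sub hT0, mul_comm 2 ((7 : ℝ) / 12), Real.rpow_mul hT0.le]
      norm_num
    rw [h4] at h3
    calc 2 * (C3 * (T ^ (2 + 1 / (((3 : ℕ) : ℝ))) / ((2 : ℝ) ^ J) ^ 2))
        ≤ 2 * (C3 * (T ^ (2 + 1 / (((3 : ℕ) : ℝ))) / (T ^ ((7 : ℝ) / 12)) ^ 2)) := by
          gcongr
      _ = 2 * C3 * (T ^ (2 + 1 / (((3 : ℕ) : ℝ))) / (T ^ ((7 : ℝ) / 12)) ^ 2) := by ring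
      _ ≤ _ := h3
  have f2 : 2 * (∫ x in Ioc T (2 * T), B x) ≤ 3 * (ε / 8 * Q) := by
    have : 2 * (∫ x in Ioc T (2 * T), B x) ≤
        2 * (C2 * (Q * ((N : ℝ) + 1) ^ (-(1 / (((3 : ℕ) : ℝ))) + 1 / 12))) +
        2 * (C2 * (T * ((2 : ℝ) ^ J) ^ ((((3 : ℕ) : ℝ)) - 2 + 1 / 12))) + 2 * (C2 * T ^ ((5:ℝ) / 4)) := by
      linarith
    linarith
  have f3 : 2 * (∫ x in Ioc T (2 * T), G x) ≤ 2 * (ε / 8 * Q) := by
    have : 2 * (∫ x in Ioc T (2 * T), G x) ≤ 2 * (C3 * (T * (1 + J) ^ 2)) +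
        2 * (C3 * (T ^ (2 + 1 / (((3 : ℕ) : ℝ))) / ((2 : ℝ) ^ J) ^ 2)) := by
      linarith
    linarith
  have hεQ : 0 < ε * Q := by positivity
  linarith

end Pool.Agent.H15.SC
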