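import Pool.Agent.H15.SC.Res
import Pool.Agent.H15.SC.Gauss

/-!
# R-05  smoothing of the residue term  (project SC, MP_be4568_nt)

`resp x = res x` for `x ≥ 1`, `0` for `x < 1`; by `res_form` (for `0 < x`) `res x = x Q(log x)`, `Q` a polynomial of degree `< m`.
With `t = log x`, `g(t) = e^t Q(t)`: `∫ (g(t-u) - g(t)) gW W u du = ∫ (g(t-u) - g(t) + u g'(t)) gW W u du` (`gW` is even, so the mean of `u`
is `0`), `|g(t-u) - g(t) + u g'(t)| ≤ C u² e^t e^{2|u|} (1+t)^m ≤ C u² e^{2|u|} e^{9t/8}` for `t ≥ 0` (Taylor with `g''`).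
`gW_second`: `∫ gW W u u² e^{A|u|} ≤ C/W²` (scale `u = v/W`).  The cut: the difference between `∫ g(t-u) gW` and `sm W resp` is
`∫_{u > t} g(t-u) gW W u du`, where `|g(t-u)| ≤ C e^{-(u-t)} (1+|u-t|)^m ≤ C`; for `t ≥ 1` it is `≤ C ∫ u² gW ≤ C/W²` (as `u ≥ 1`), for `0 ≤ t ≤ 1`
bound the whole difference directly: `≤ C` is not enough, so use that `resp` jumps at `x = 1`: the claim is only for `x ≥ 3`.
-/

set_option autoImplicit false

open Complex Filter Topology MeasureTheory Set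
open scoped ComplexConjugate

namespace Pool.Agent.H15.SC

variable {D : SelData} {d : ℝ}

/-- the residue term on `x ≥ 1` -/
noncomputable def resp (D : SelData) (x : ℝ) : ℝ := if 1 ≤ x then D.res x else 0

theorem resp_meas (h : IsSel D d) : Measurable (resp D) := by
  obtain ⟨a, ha⟩ := res_form h
  have h1 : resp D = fun x : ℝ => if 1 ≤ x then
      x * ∑ j ∈ Finset.range D.m, a j * (Real.log x) ^ j else 0 := by
    funext x
    unfold resp
    split_ifs with hx
    · rw [ha x (by linarith)]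
    · rfl
  rw [h1]
  exact Measurable.ite measurableSet_Ici (res_log_measurable a D.m) measurable_const

theorem resp_bound (h : IsSel D d) : ∃ C : ℝ, 0 ≤ C ∧ ∀ x : ℝ, 0 ≤ x → |resp D x| ≤ C * x ^ ((3 : ℝ) / 2) := by
  obtain ⟨a, ha⟩ := res_form h
  choose C hC0 hC using fun j : ℕ => res_log_pow j (1/2) (by norm_num)
  have hsum : 0 ≤ ∑ j ∈ Finset.range D.m, |a j| * C j :=
    Finset.sum_nonneg fun j _ => mul_nonneg (abs_nonneg _) (hC0 j)
  refine ⟨∑ j ∈ Finset.range D.m, |a j| * C j, hsum, fun x hx0' => ?_⟩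
  unfold resp
  split_ifs with hx
  · have hx0 : 0 < x := by linarith
    have h32 : x ^ ((3 : ℝ) / 2) = x * x ^ ((1 : ℝ) / 2) := by
      rw [show (3 : ℝ) / 2 = 1 + 1/2 by norm_num, Real.rpow_add hx0, Real.rpow_one]
    rw [ha x hx0, abs_mul, abs_of_pos hx0, Finset.sum_mul, h32]
    calc x * |∑ j ∈ Finset.range D.m, a j * (Real.log x) ^ j|
        ≤ x * ∑ j ∈ Finset.range D.m, |a j * (Real.log x) ^ j| :=
          mul_le_mul_of_nonneg_left (Finset.abs_sum_le_sum_abs _ _) hx0.le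
      _ = ∑ j ∈ Finset.range D.m, x * |a j * (Real.log x) ^ j| := Finset.mul_sum _ _ _
      _ ≤ ∑ j ∈ Finset.range D.m, |a j| * C j * (x * x ^ ((1 : ℝ) / 2)) := by
          refine Finset.sum_le_sum fun j _ => ?_
          rw [abs_mul, abs_of_nonneg (pow_nonneg (Real.log_nonneg hx) j)]
          have h6 := mul_le_mul_of_nonneg_left (hC j x hx) (mul_nonneg hx0.le (abs_nonneg (a j)))
          calc x * (|a j| * (Real.log x) ^ j) = x * |a j| * (Real.log x) ^ j := by ring
            _ ≤ x * |a j| * (C j * x ^ ((1 : ℝ) / 2)) := h6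
            _ = |a j| * C j * (x * x ^ ((1 : ℝ) / 2)) := by ring
  · rw [abs_zero]
    positivity

theorem rr_sq_exp {W : ℝ} (hW : 0 < W) (u : ℝ) :
    u ^ 2 * Real.exp (-(W ^ 2 / 8) * u ^ 2) ≤ 16 / W ^ 2 * Real.exp (-(W ^ 2 / 16) * u ^ 2) := by
  have h1 : Real.exp (-(W ^ 2 / 8) * u ^ 2) =
      Real.exp (-(W ^ 2 / 16) * u ^ 2) * Real.exp (-(W ^ 2 / 16 * u ^ 2)) := by
    rw [← Real.exp_add]
    congr 1
    ring
  have h2 : W ^ 2 * u ^ 2 * Real.exp (-(W ^ 2 / 16 * u ^ 2)) ≤ 16 := by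
    rw [Real.exp_neg, ← div_eq_mul_inv, div_le_iff₀ (Real.exp_pos _)]
    have h3 := Real.add_one_le_exp (W ^ 2 / 16 * u ^ 2)
    nlinarith
  rw [h1]
  have h3 : u ^ 2 * Real.exp (-(W ^ 2 / 16 * u ^ 2)) ≤ 16 / W ^ 2 := by
    rw [le_div_iff₀ (by positivity)]
    linarith
  calc u ^ 2 * (Real.exp (-(W ^ 2 / 16) * u ^ 2) * Real.exp (-(W ^ 2 / 16 * u ^ 2)))
      = (u ^ 2 * Real.exp (-(W ^ 2 / 16 * u ^ 2))) * Real.exp (-(W ^ 2 / 16) * u ^ 2) := by ring
    _ ≤ _ := by gcongr

theorem gW_second (A : ℝ) (hA : 0 ≤ A) : ∃ C : ℝ, 0 ≤ C ∧ ∀ W : ℝ, 1 ≤ W →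
    Integrable (fun u : ℝ => gW W u * (u ^ 2 * Real.exp (A * |u|))) ∧
      ∫ u : ℝ, gW W u * (u ^ 2 * Real.exp (A * |u|)) ≤ C / W ^ 2 := by
  refine ⟨Real.exp (2 * A ^ 2) * 8 * Real.sqrt 16, by positivity, fun W hW => ?_⟩
  have hW0 : 0 < W := by linarith
  have hb : 0 < W ^ 2 / 16 := by positivity
  have hint : Integrable (fun u : ℝ => W / (2 * Real.sqrt Real.pi) * Real.exp (2 * A ^ 2) * (16 / W ^ 2) *
      Real.exp (-(W ^ 2 / 16) * u ^ 2)) := (integrable_exp_neg_mul_sq hb).const_mul _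
  have hmeas : Continuous (fun u : ℝ => gW W u * (u ^ 2 * Real.exp (A * |u|))) := by
    have := gW_continuous W
    fun_prop
  have hle : ∀ u : ℝ, gW W u * (u ^ 2 * Real.exp (A * |u|)) ≤
      W / (2 * Real.sqrt Real.pi) * Real.exp (2 * A ^ 2) * (16 / W ^ 2) * Real.exp (-(W ^ 2 / 16) * u ^ 2) := by
    intro u
    have h1 := gW_mul_le A hW u
    have h2 := rr_sq_exp hW0 u
    have h0 : 0 ≤ W / (2 * Real.sqrt Real.pi) * Real.exp (2 * A ^ 2) := by positivity
    calc gW W u * (u ^ 2 * Real.exp (A * |u|)) = u ^ 2 * (gW W u * Real.exp (A * |u|)) := by ring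
      _ ≤ u ^ 2 * (W / (2 * Real.sqrt Real.pi) * Real.exp (2 * A ^ 2) *
          Real.exp (-(W ^ 2 / 8) * u ^ 2)) := by gcongr
      _ = W / (2 * Real.sqrt Real.pi) * Real.exp (2 * A ^ 2) *
          (u ^ 2 * Real.exp (-(W ^ 2 / 8) * u ^ 2)) := by ring
      _ ≤ W / (2 * Real.sqrt Real.pi) * Real.exp (2 * A ^ 2) *
          (16 / W ^ 2 * Real.exp (-(W ^ 2 / 16) * u ^ 2)) := by gcongr
      _ = _ := by ring
  have hI : Integrable (fun u : ℝ => gW W u * (u ^ 2 * Real.exp (A * |u|))) := by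
    refine hint.mono' hmeas.aestronglyMeasurable (Eventually.of_forall fun u => ?_)
    rw [Real.norm_eq_abs, abs_of_nonneg (mul_nonneg (gW_nonneg hW0.le u) (by positivity))]
    exact hle u
  refine ⟨hI, ?_⟩
  refine (integral_mono hI hint hle).trans ?_
  rw [integral_const_mul, integral_gaussian, sqrt_pi_div hW0 16 (by norm_num)]
  have h5 : Real.sqrt Real.pi ≠ 0 := (Real.sqrt_pos.mpr Real.pi_pos).ne'
  apply le_of_eq
  field_simp
  ring

/-- a polynomial against `e^{s/8}` -/
theorem rr_poly (R : Polynomial ℝ) : ∃ C : ℝ, 0 ≤ C ∧ ∀ s : ℝ, 0 ≤ s →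
    |R.eval s| ≤ C * Real.exp (s / 8) := by
  induction R using Polynomial.induction_on' with
  | add p q hp hq =>
    obtain ⟨C1, h1, k1⟩ := hp
    obtain ⟨C2, h2, k2⟩ := hq
    refine ⟨C1 + C2, by positivity, fun s hs => ?_⟩
    rw [Polynomial.eval_add, add_mul]
    exact (abs_add_le _ _).trans (add_le_add (k1 s hs) (k2 s hs))
  | monomial n a =>
    refine ⟨|a| * (8 ^ n * n.factorial), by positivity, fun s hs => ?_⟩
    rw [Polynomial.eval_monomial, abs_mul, abs_of_nonneg (pow_nonneg hs n), mul_assoc]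
    apply mul_le_mul_of_nonneg_left _ (abs_nonneg a)
    have h1 := Real.pow_div_factorial_le_exp (s / 8) (by positivity) n
    rw [div_le_iff₀ (by positivity), div_pow, div_le_iff₀ (by positivity)] at h1
    calc s ^ n ≤ Real.exp (s / 8) * n.factorial * 8 ^ n := h1
      _ = 8 ^ n * n.factorial * Real.exp (s / 8) := by ring

theorem rr_deriv (Q : Polynomial ℝ) (s : ℝ) : HasDerivAt (fun s : ℝ => Real.exp s * Q.eval s)
    (Real.exp s * (Q + Polynomial.derivative Q).eval s) s := by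
  have h1 := (Real.hasDerivAt_exp s).mul (Polynomial.hasDerivAt Q s)
  have h2 : Real.exp s * (Q + Polynomial.derivative Q).eval s =
      Real.exp s * Q.eval s + Real.exp s * (Polynomial.derivative Q).eval s := by
    rw [Polynomial.eval_add]; ring
  rw [h2]
  exact h1

theorem rr_taylor (Q : Polynomial ℝ) : ∃ C : ℝ, 0 ≤ C ∧ ∀ t : ℝ, 0 ≤ t → ∀ u : ℝ, u ≤ t →
    |Real.exp t * Q.eval t - Real.exp (t - u) * Q.eval (t - u) -
      u * (Real.exp t * (Q + Polynomial.derivative Q).eval t)| ≤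
        C * (u ^ 2 * Real.exp (2 * |u|)) * Real.exp (9 / 8 * t) := by
  set Q1 : Polynomial ℝ := Q + Polynomial.derivative Q with hQ1
  set Q2 : Polynomial ℝ := Q1 + Polynomial.derivative Q1 with hQ2
  obtain ⟨C, hC, hQC⟩ := rr_poly Q2
  refine ⟨C, hC, fun t ht u hu => ?_⟩
  set M : ℝ := C * Real.exp (9 / 8 * (t + |u|)) with hM
  have hM0 : 0 ≤ M := by positivity
  have hconv : Convex ℝ (uIcc t (t - u)) := convex_uIcc _ _
  have hS : ∀ s ∈ uIcc t (t - u), 0 ≤ s ∧ s ≤ t + |u| ∧ |s - t| ≤ |u| := by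
    intro s hs
    have h1 := abs_sub_left_of_mem_uIcc hs
    rw [show t - u - t = -u by ring, abs_neg] at h1
    refine ⟨?_, ?_, h1⟩
    · rcases le_total 0 u with h0 | h0
      · rw [uIcc_of_ge (by linarith)] at hs
        have := hs.1
        linarith
      · rw [uIcc_of_le (by linarith)] at hs
        have := hs.1
        linarith
    · have := (abs_le.1 h1).2
      linarith
  have hg2 : ∀ s ∈ uIcc t (t - u), ‖Real.exp s * Q2.eval s‖ ≤ M := by
    intro s hs
    obtain ⟨h0, h1, _⟩ := hS s hs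
    rw [Real.norm_eq_abs, abs_mul, abs_of_pos (Real.exp_pos s)]
    calc Real.exp s * |Q2.eval s| ≤ Real.exp s * (C * Real.exp (s / 8)) := by
          apply mul_le_mul_of_nonneg_left (hQC s h0) (Real.exp_pos s).le
      _ = C * Real.exp (9 / 8 * s) := by
          have : Real.exp (9 / 8 * s) = Real.exp s * Real.exp (s / 8) := by
            rw [← Real.exp_add]; congr 1; ring
          rw [this]; ring
      _ ≤ M := by
          rw [hM]
          gcongr
  have hd1 : ∀ s ∈ uIcc t (t - u), HasDerivWithinAt (fun s : ℝ => Real.exp s * Q1.eval s)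
      (Real.exp s * Q2.eval s) (uIcc t (t - u)) s := fun s _ => (rr_deriv Q1 s).hasDerivWithinAt
  have hb1 : ∀ s ∈ uIcc t (t - u), ‖Real.exp s * Q1.eval s - Real.exp t * Q1.eval t‖ ≤ M * |u| := by
    intro s hs
    have h1 := hconv.norm_image_sub_le_of_norm_hasDerivWithin_le hd1 hg2 left_mem_uIcc hs
    refine h1.trans (mul_le_mul_of_nonneg_left ?_ hM0)
    rw [Real.norm_eq_abs]
    exact (hS s hs).2.2
  have hd2 : ∀ s ∈ uIcc t (t - u), HasDerivWithinAt
      (fun s : ℝ => Real.exp s * Q.eval s - Real.exp t * Q1.eval t * s)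
      (Real.exp s * Q1.eval s - Real.exp t * Q1.eval t) (uIcc t (t - u)) s := by
    intro s _
    have h1 := (rr_deriv Q s).sub ((hasDerivAt_id s).const_mul (Real.exp t * Q1.eval t))
    rw [mul_one] at h1
    exact h1.hasDerivWithinAt
  have h3 := hconv.norm_image_sub_le_of_norm_hasDerivWithin_le hd2 hb1 left_mem_uIcc right_mem_uIcc
  rw [Real.norm_eq_abs, Real.norm_eq_abs, show t - u - t = -u by ring, abs_neg] at h3
  have h4 : Real.exp t * Q.eval t - Real.exp (t - u) * Q.eval (t - u) - u * (Real.exp t * Q1.eval t) =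
      -(Real.exp (t - u) * Q.eval (t - u) - Real.exp t * Q1.eval t * (t - u) -
        (Real.exp t * Q.eval t - Real.exp t * Q1.eval t * t)) := by ring
  rw [h4, abs_neg]
  refine h3.trans ?_
  have h5 : Real.exp (9 / 8 * (t + |u|)) ≤ Real.exp (9 / 8 * t) * Real.exp (2 * |u|) := by
    rw [← Real.exp_add, Real.exp_le_exp]
    have := abs_nonneg u
    linarith
  have h6 : |u| * |u| = u ^ 2 := by rw [← sq, sq_abs]
  calc M * |u| * |u| = C * Real.exp (9 / 8 * (t + |u|)) * u ^ 2 := by rw [hM, mul_assoc, h6]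
    _ ≤ C * (Real.exp (9 / 8 * t) * Real.exp (2 * |u|)) * u ^ 2 := by gcongr
    _ = _ := by ring

theorem resp_smooth (h : IsSel D d) : ∃ C : ℝ, 0 ≤ C ∧ ∀ x : ℝ, 3 ≤ x → ∀ W : ℝ, 1 ≤ W →
    |resp D x - sm W (resp D) x| ≤ C * x ^ ((9 : ℝ) / 8) / W ^ 2 := by
  obtain ⟨a, ha⟩ := res_form h
  set Q : Polynomial ℝ := ∑ j ∈ Finset.range D.m, Polynomial.C (a j) * Polynomial.X ^ j with hQ
  have hQe : ∀ t : ℝ, Q.eval t = ∑ j ∈ Finset.range D.m, a j * t ^ j := by
    intro t
    rw [hQ, Polynomial.eval_finset_sum]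
    simp
  have hres : ∀ t : ℝ, D.res (Real.exp t) = Real.exp t * Q.eval t := by
    intro t
    rw [ha _ (Real.exp_pos t), Real.log_exp, hQe]
  obtain ⟨C1, hC1, hT⟩ := rr_taylor Q
  obtain ⟨C2, hC2, hQ0⟩ := rr_poly Q
  obtain ⟨C3, hC3, hQ1⟩ := rr_poly (Q + Polynomial.derivative Q)
  obtain ⟨C4, hC4, hG⟩ := gW_second 2 (by norm_num)
  obtain ⟨C5, hC5, hE⟩ := gW_exp (3/2) (by norm_num)
  obtain ⟨C6, hC6, hB⟩ := resp_bound h
  obtain ⟨C7, hC7, hM⟩ := gW_moment 0 le_rfl
  refine ⟨(C1 + (C2 + C3)) * C4, by positivity, fun x hx W hW => ?_⟩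
  have hW0 : 0 < W := by linarith
  have hx0 : 0 < x := by linarith
  set t : ℝ := Real.log x with ht
  have hxt : x = Real.exp t := (Real.exp_log hx0).symm
  have ht1 : 1 ≤ t := by
    rw [ht, Real.le_log_iff_exp_le hx0]
    have := Real.exp_one_lt_d9
    linarith
  obtain ⟨hgi, hg1⟩ := gW_integral hW0
  -- the shifted function
  have hsh : ∀ u : ℝ, resp D (x * Real.exp (-u)) = if u ≤ t then Real.exp (t - u) * Q.eval (t - u) else 0 := by
    intro u
    have h1 : x * Real.exp (-u) = Real.exp (t - u) := by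
      rw [hxt, ← Real.exp_add]; rfl
    rw [h1]
    unfold resp
    have h2 : 1 ≤ Real.exp (t - u) ↔ u ≤ t := by
      rw [Real.one_le_exp_iff]
      constructor <;> intro h <;> linarith
    by_cases h3 : u ≤ t
    · rw [if_pos (h2.2 h3), if_pos h3, hres]
    · rw [if_neg (fun h => h3 (h2.1 h)), if_neg h3]
  have hx1 : resp D x = Real.exp t * Q.eval t := by
    unfold resp
    rw [if_pos (by linarith), hxt, hres]
  -- integrability
  have hI1 : Integrable (fun u : ℝ => resp D (x * Real.exp (-u)) * gW W u) := by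
    have hdom := ((hE W hW).1).const_mul (C6 * x ^ ((3 : ℝ) / 2))
    refine hdom.mono' ?_ (Eventually.of_forall fun u => ?_)
    · refine (Measurable.mul ?_ (gW_continuous W).measurable).aestronglyMeasurable
      exact (resp_meas h).comp (by fun_prop)
    · rw [Real.norm_eq_abs, abs_mul, abs_of_nonneg (gW_nonneg hW0.le u)]
      have h1 := hB (x * Real.exp (-u)) (by positivity)
      have h2 : (x * Real.exp (-u)) ^ ((3 : ℝ) / 2) ≤ x ^ ((3 : ℝ) / 2) * Real.exp (3 / 2 * |u|) := by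
        rw [Real.mul_rpow hx0.le (Real.exp_pos _).le, ← Real.exp_mul]
        apply mul_le_mul_of_nonneg_left _ (by positivity)
        rw [Real.exp_le_exp]
        have := neg_abs_le u
        linarith
      calc |resp D (x * Real.exp (-u))| * gW W u
          ≤ (C6 * (x ^ ((3 : ℝ) / 2) * Real.exp (3 / 2 * |u|))) * gW W u := by
            apply mul_le_mul_of_nonneg_right _ (gW_nonneg hW0.le u)
            exact h1.trans (mul_le_mul_of_nonneg_left h2 hC6)
        _ = _ := by ring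
  have hI2 : Integrable (fun u : ℝ => u * gW W u) := by
    have h1 := (hM W hW).1
    refine h1.mono' ?_ (Eventually.of_forall fun u => ?_)
    · exact (continuous_id.mul (gW_continuous W)).aestronglyMeasurable
    · rw [Real.norm_eq_abs, abs_mul, abs_of_nonneg (gW_nonneg hW0.le u), zero_mul, Real.exp_zero, mul_one,
        mul_comm]
  have hodd : ∫ u : ℝ, u * gW W u = 0 := by
    have h1 : ∫ u : ℝ, u * gW W u = ∫ u : ℝ, (-u) * gW W (-u) :=
      (integral_neg_eq_self (fun u : ℝ => u * gW W u) volume).symm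
    have h2 : (fun u : ℝ => (-u) * gW W (-u)) = fun u : ℝ => -(u * gW W u) := by
      funext u
      have : gW W (-u) = gW W u := by
        unfold gW
        congr 2
        ring
      rw [this]; ring
    rw [h2, integral_neg] at h1
    linarith
  set c1 : ℝ := Real.exp t * (Q + Polynomial.derivative Q).eval t with hc1
  have hkey : resp D x - sm W (resp D) x =
      ∫ u : ℝ, (Real.exp t * Q.eval t - resp D (x * Real.exp (-u)) - u * c1) * gW W u := by
    have h1 : (fun u : ℝ => (Real.exp t * Q.eval t - resp D (x * Real.exp (-u)) - u * c1) * gW W u) =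
        fun u : ℝ => (Real.exp t * Q.eval t) * gW W u - resp D (x * Real.exp (-u)) * gW W u -
          c1 * (u * gW W u) := by
      funext u; ring
    have hi1 : Integrable (fun u : ℝ => (Real.exp t * Q.eval t) * gW W u - resp D (x * Real.exp (-u)) * gW W u) :=
      (hgi.const_mul _).sub hI1
    have hi2 : Integrable (fun u : ℝ => c1 * (u * gW W u)) := hI2.const_mul _
    have hi3 : Integrable (fun u : ℝ => (Real.exp t * Q.eval t) * gW W u) := hgi.const_mul _
    rw [h1, integral_sub hi1 hi2, integral_sub hi3 hI1, integral_const_mul, integral_const_mul, hg1, hodd, hx1]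
    unfold sm
    ring
  have hpt : ∀ u : ℝ, |Real.exp t * Q.eval t - resp D (x * Real.exp (-u)) - u * c1| ≤
      (C1 + (C2 + C3)) * (u ^ 2 * Real.exp (2 * |u|)) * Real.exp (9 / 8 * t) := by
    intro u
    rw [hsh u]
    split_ifs with hu
    · refine (hT t (by linarith) u hu).trans ?_
      have : C1 ≤ C1 + (C2 + C3) := by linarith
      gcongr
    · have hu' : t < u := not_le.1 hu
      have hu1 : 1 ≤ u := by linarith
      have he : Real.exp (9 / 8 * t) = Real.exp t * Real.exp (t / 8) := by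
        rw [← Real.exp_add]; congr 1; ring
      have h1 : |Real.exp t * Q.eval t| ≤ C2 * Real.exp (9 / 8 * t) := by
        rw [abs_mul, abs_of_pos (Real.exp_pos t), he]
        have := mul_le_mul_of_nonneg_left (hQ0 t (by linarith)) (Real.exp_pos t).le
        linarith
      have h2 : |u * c1| ≤ u * (C3 * Real.exp (9 / 8 * t)) := by
        rw [abs_mul, abs_of_pos (by linarith : (0 : ℝ) < u), hc1, abs_mul, abs_of_pos (Real.exp_pos t), he]
        have := mul_le_mul_of_nonneg_left (hQ1 t (by linarith)) (Real.exp_pos t).le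
        have h3 := mul_le_mul_of_nonneg_left this (by linarith : (0 : ℝ) ≤ u)
        linarith
      have h3 : (1 : ℝ) ≤ u ^ 2 := one_le_pow₀ hu1
      have h4 : u ≤ u ^ 2 := by nlinarith
      have h5 : (1 : ℝ) ≤ Real.exp (2 * |u|) := Real.one_le_exp (by positivity)
      have h6 : u ^ 2 ≤ u ^ 2 * Real.exp (2 * |u|) := le_mul_of_one_le_right (by positivity) h5
      rw [sub_zero]
      calc |Real.exp t * Q.eval t - u * c1| ≤ |Real.exp t * Q.eval t| + |u * c1| := abs_sub _ _
        _ ≤ C2 * Real.exp (9 / 8 * t) + u * (C3 * Real.exp (9 / 8 * t)) := add_le_add h1 h2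
        _ ≤ C2 * Real.exp (9 / 8 * t) * u ^ 2 + u ^ 2 * (C3 * Real.exp (9 / 8 * t)) := by
            apply add_le_add
            · exact le_mul_of_one_le_right (by positivity) h3
            · exact mul_le_mul_of_nonneg_right h4 (by positivity)
        _ = (C2 + C3) * u ^ 2 * Real.exp (9 / 8 * t) := by ring
        _ ≤ (C1 + (C2 + C3)) * (u ^ 2 * Real.exp (2 * |u|)) * Real.exp (9 / 8 * t) := by
            apply mul_le_mul_of_nonneg_right _ (Real.exp_pos _).le
            apply mul_le_mul _ h6 (by positivity) (by positivity)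
            linarith
  have hx98 : Real.exp (9 / 8 * t) = x ^ ((9 : ℝ) / 8) := by
    rw [hxt, ← Real.exp_mul]
    congr 1
    ring
  obtain ⟨hGi, hGb⟩ := hG W hW
  rw [hkey]
  calc |∫ u : ℝ, (Real.exp t * Q.eval t - resp D (x * Real.exp (-u)) - u * c1) * gW W u|
      ≤ ∫ u : ℝ, (C1 + (C2 + C3)) * Real.exp (9 / 8 * t) * (gW W u * (u ^ 2 * Real.exp (2 * |u|))) := by
        rw [← Real.norm_eq_abs]
        refine norm_integral_le_of_norm_le (hGi.const_mul _) (Eventually.of_forall fun u => ?_)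
        rw [Real.norm_eq_abs, abs_mul, abs_of_nonneg (gW_nonneg hW0.le u)]
        calc |Real.exp t * Q.eval t - resp D (x * Real.exp (-u)) - u * c1| * gW W u
            ≤ (C1 + (C2 + C3)) * (u ^ 2 * Real.exp (2 * |u|)) * Real.exp (9 / 8 * t) * gW W u :=
              mul_le_mul_of_nonneg_right (hpt u) (gW_nonneg hW0.le u)
          _ = _ := by ring
    _ = (C1 + (C2 + C3)) * Real.exp (9 / 8 * t) * ∫ u : ℝ, gW W u * (u ^ 2 * Real.exp (2 * |u|)) :=
        integral_const_mul _ _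
    _ ≤ (C1 + (C2 + C3)) * Real.exp (9 / 8 * t) * (C4 / W ^ 2) :=
        mul_le_mul_of_nonneg_left hGb (by positivity)
    _ = (C1 + (C2 + C3)) * C4 * x ^ ((9 : ℝ) / 8) / W ^ 2 := by
        rw [hx98]; ring

end Pool.Agent.H15.SC
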