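import Pool.Agent.H15.SC.RShort
import Pool.Agent.H15.SC.RRes

/-!
# R-06  the error term minus its smoothing, no loss  (project SC, MP_be4568_nt)

`Ep = Sf - resp` (both vanish on `x < 1`), so `Ep - sm W Ep = (Sf - sm W Sf) - (resp - sm W resp)`.
First part: Minkowski (or Cauchy-Schwarz with weights): `Sf x - sm W Sf x = ∫ (Sf x - Sf (x e^{-u})) gW W u du`, with
`n(u) = ‖Sf x - Sf (x e^{-u})‖_{L²[T,2T]} ≤ C T^{1/2} (T|u| + (T|u|)^{1/2}) ≤ C T^{1/2} (T|u| + (T/W)^{1/2} + T |u| (W/T)^{1/2})` for `|u| ≤ 1`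
(`short_S`; AM-GM), and `n(u) ≤ C T^{3/2} (1 + e^{|u|}) ≤ C T^{3/2} |u| e^{|u|}` for `|u| ≥ 1` (`S_bound`); integrate against `gW`
(`gW_moment`): `≤ C T^{1/2} (T/W + (T/W)^{1/2}) ≤ C T^{3/2}/W` for `W ≤ T`.
An easy way to do Minkowski: `(∫ F gW)² ≤ ∫ F² (W|u| + 1)²... ` or simply Cauchy-Schwarz `(∫ F gW)² ≤ ∫ F² gW` (`∫ gW = 1`) and Tonelli:
`∫_T^{2T} (Sf - sm W Sf)² ≤ ∫ n(u)² gW du ≤ C T ∫ ((T u)² + T|u|) gW + ... ≤ C T (T/W)² + C T (T/W)` (`gW_second`, `gW_moment`).
Second part: `resp_smooth`, `∫ ≤ C T T^{9/4}/W⁴`.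
-/

set_option autoImplicit false

open Complex Filter Topology MeasureTheory Set
open scoped ComplexConjugate

namespace Pool.Agent.H15.SC

variable {D : SelData} {d : ℝ}

theorem rgh_Ep (D : SelData) (x : ℝ) : D.Ep x = Sf D x - resp D x := by
  unfold SelData.Ep resp
  split_ifs with hx
  · rfl
  · have h0 : ⌊x⌋₊ = 0 := Nat.floor_eq_zero.2 (by linarith)
    unfold Sf
    rw [h0]
    simp

theorem rgh_exp_le (u : ℝ) : Real.exp (-u) ≤ Real.exp |u| := Real.exp_le_exp.2 (neg_le_abs u)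

theorem rgh_one_le (u : ℝ) : 1 ≤ Real.exp |u| := Real.one_le_exp (abs_nonneg u)

theorem rgh_int {W : ℝ} (hW : 1 ≤ W) (φ : ℝ → ℝ) (hφ : Measurable φ) (K A : ℝ) (hA : 0 ≤ A)
    (hb : ∀ u, |φ u| ≤ K * Real.exp (A * |u|)) : Integrable (fun u => φ u * gW W u) := by
  obtain ⟨C, hC, h⟩ := gW_exp A hA
  refine ((h W hW).1.const_mul K).mono' (hφ.mul (gW_continuous W).measurable).aestronglyMeasurable
    (Eventually.of_forall fun u => ?_)
  have hg := gW_nonneg (by linarith : (0:ℝ) ≤ W) u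
  rw [Real.norm_eq_abs, abs_mul, abs_of_nonneg hg]
  calc |φ u| * gW W u ≤ (K * Real.exp (A * |u|)) * gW W u := mul_le_mul_of_nonneg_right (hb u) hg
    _ = _ := by ring

/-- Jensen -/
theorem rgh_jensen {W : ℝ} (hW : 1 ≤ W) (φ : ℝ → ℝ) (h1 : Integrable (fun u => φ u * gW W u))
    (h2 : Integrable (fun u => φ u ^ 2 * gW W u)) : (∫ u, φ u * gW W u) ^ 2 ≤ ∫ u, φ u ^ 2 * gW W u := by
  obtain ⟨g1, g2⟩ := gW_integral (by linarith : 0 < W)
  set m := ∫ u, φ u * gW W u with hm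
  have h3 : 0 ≤ ∫ u, (φ u - m) ^ 2 * gW W u :=
    integral_nonneg fun u => mul_nonneg (sq_nonneg _) (gW_nonneg (by linarith) u)
  have h4 : (fun u => (φ u - m) ^ 2 * gW W u) =
      fun u => (φ u ^ 2 * gW W u - 2 * m * (φ u * gW W u)) + m ^ 2 * gW W u := by
    funext u; ring
  have e1 : ∫ u, ((φ u ^ 2 * gW W u - 2 * m * (φ u * gW W u)) + m ^ 2 * gW W u) =
      (∫ u, (φ u ^ 2 * gW W u - 2 * m * (φ u * gW W u))) + ∫ u, m ^ 2 * gW W u :=
    integral_add (h2.sub (h1.const_mul (2 * m))) (g1.const_mul (m ^ 2))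
  have e2 : ∫ u, (φ u ^ 2 * gW W u - 2 * m * (φ u * gW W u)) =
      (∫ u, φ u ^ 2 * gW W u) - ∫ u, 2 * m * (φ u * gW W u) :=
    integral_sub h2 (h1.const_mul (2 * m))
  rw [h4, e1, e2, integral_const_mul, integral_const_mul, g2, ← hm] at h3
  nlinarith

/-- the inner integral -/
theorem rgh_N (hR : RS D) : ∃ K : ℝ, 0 ≤ K ∧ ∀ T : ℝ, 1 ≤ T → ∀ u : ℝ,
    ∫⁻ x in Icc T (2 * T), ENNReal.ofReal ((Sf D x - Sf D (x * Real.exp (-u))) ^ 2) ≤
      ENNReal.ofReal (K * (T ^ 2 * (|u| * Real.exp (2 * |u|)) + T ^ 3 * (u ^ 2 * Real.exp (2 * |u|)))) := by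
  obtain ⟨C1, hC1, h1⟩ := short_S hR
  obtain ⟨C2, hC2, h2⟩ := S_bound hR
  refine ⟨C1 + 16 * C2 ^ 2, by positivity, fun T hT u => ?_⟩
  have hT0 : 0 < T := by linarith
  have he : 1 ≤ Real.exp (2 * |u|) := Real.one_le_exp (by positivity)
  rcases le_or_gt |u| 1 with hu | hu
  · refine (h1 T hT u hu).trans (ENNReal.ofReal_le_ofReal ?_)
    have e1 : C1 * T * (T * |u|) * (1 + T * |u|) = C1 * (T ^ 2 * |u| + T ^ 3 * u ^ 2) := by
      rw [← sq_abs u]; ring
    rw [e1]
    have e2 : T ^ 2 * |u| + T ^ 3 * u ^ 2 ≤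
        T ^ 2 * (|u| * Real.exp (2 * |u|)) + T ^ 3 * (u ^ 2 * Real.exp (2 * |u|)) := by
      have a1 : |u| ≤ |u| * Real.exp (2 * |u|) := le_mul_of_one_le_right (abs_nonneg u) he
      have a2 : u ^ 2 ≤ u ^ 2 * Real.exp (2 * |u|) := le_mul_of_one_le_right (sq_nonneg u) he
      gcongr
    calc C1 * (T ^ 2 * |u| + T ^ 3 * u ^ 2)
        ≤ C1 * (T ^ 2 * (|u| * Real.exp (2 * |u|)) + T ^ 3 * (u ^ 2 * Real.exp (2 * |u|))) :=
          mul_le_mul_of_nonneg_left e2 hC1
      _ ≤ _ := by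
          refine mul_le_mul_of_nonneg_right ?_ (by positivity)
          nlinarith [sq_nonneg C2]
  · have hpt : ∀ x ∈ Icc T (2 * T), ENNReal.ofReal ((Sf D x - Sf D (x * Real.exp (-u))) ^ 2) ≤
        ENNReal.ofReal (16 * C2 ^ 2 * T ^ 2 * Real.exp (2 * |u|)) := by
      intro x hx
      refine ENNReal.ofReal_le_ofReal ?_
      have hx0 : 0 < x := lt_of_lt_of_le hT0 hx.1
      have a1 := h2 x hx0.le
      have a2 := h2 (x * Real.exp (-u)) (by positivity)
      have a3 : |Sf D x - Sf D (x * Real.exp (-u))| ≤ 4 * C2 * T * Real.exp |u| := by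
        refine (abs_sub _ _).trans ?_
        have b1 : C2 * x ≤ C2 * (2 * T) * Real.exp |u| := by
          calc C2 * x ≤ C2 * (2 * T) := mul_le_mul_of_nonneg_left hx.2 hC2
            _ ≤ C2 * (2 * T) * Real.exp |u| := le_mul_of_one_le_right (by positivity) (rgh_one_le u)
        have b2 : C2 * (x * Real.exp (-u)) ≤ C2 * (2 * T) * Real.exp |u| := by
          have : x * Real.exp (-u) ≤ 2 * T * Real.exp |u| :=
            mul_le_mul hx.2 (rgh_exp_le u) (Real.exp_pos _).le (by linarith)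
          calc C2 * (x * Real.exp (-u)) ≤ C2 * (2 * T * Real.exp |u|) := mul_le_mul_of_nonneg_left this hC2
            _ = _ := by ring
        linarith
      have a4 : Real.exp (2 * |u|) = Real.exp |u| ^ 2 := by
        rw [← Real.exp_nat_mul]; norm_num
      rw [← sq_abs, a4]
      calc |Sf D x - Sf D (x * Real.exp (-u))| ^ 2 ≤ (4 * C2 * T * Real.exp |u|) ^ 2 := by gcongr
        _ = _ := by ring
    calc ∫⁻ x in Icc T (2 * T), ENNReal.ofReal ((Sf D x - Sf D (x * Real.exp (-u))) ^ 2)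
        ≤ ∫⁻ x in Icc T (2 * T), ENNReal.ofReal (16 * C2 ^ 2 * T ^ 2 * Real.exp (2 * |u|)) :=
          setLIntegral_mono measurable_const hpt
      _ = ENNReal.ofReal (16 * C2 ^ 2 * T ^ 2 * Real.exp (2 * |u|)) * ENNReal.ofReal T := by
          rw [setLIntegral_const, Real.volume_Icc]
          congr 2
          ring
      _ = ENNReal.ofReal (16 * C2 ^ 2 * T ^ 2 * Real.exp (2 * |u|) * T) := by
          rw [← ENNReal.ofReal_mul (by positivity)]
      _ ≤ _ := by
          refine ENNReal.ofReal_le_ofReal ?_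
          have e3 : 1 ≤ u ^ 2 := by
            rw [← sq_abs]; nlinarith
          have e4 : 0 ≤ T ^ 2 * (|u| * Real.exp (2 * |u|)) := by positivity
          have e5 : T ^ 3 * Real.exp (2 * |u|) ≤ T ^ 3 * (u ^ 2 * Real.exp (2 * |u|)) := by
            refine mul_le_mul_of_nonneg_left ?_ (by positivity)
            exact le_mul_of_one_le_left (Real.exp_pos _).le e3
          calc 16 * C2 ^ 2 * T ^ 2 * Real.exp (2 * |u|) * T = 16 * C2 ^ 2 * (T ^ 3 * Real.exp (2 * |u|)) := by ring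
            _ ≤ 16 * C2 ^ 2 * (T ^ 2 * (|u| * Real.exp (2 * |u|)) + T ^ 3 * (u ^ 2 * Real.exp (2 * |u|))) :=
                mul_le_mul_of_nonneg_left (by linarith) (by positivity)
            _ ≤ _ := by
                refine mul_le_mul_of_nonneg_right (by linarith) (by positivity)

/-- the first part -/
theorem rgh_first (hR : RS D) : ∃ C : ℝ, 0 ≤ C ∧ ∀ T : ℝ, 1 ≤ T → ∀ W : ℝ, 1 ≤ W → W ≤ T →
    ∫⁻ x in Icc T (2 * T), ENNReal.ofReal ((Sf D x - sm W (Sf D) x) ^ 2) ≤ ENNReal.ofReal (C * (T ^ 3 / W ^ 2)) := by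
  obtain ⟨K, hK, hN⟩ := rgh_N hR
  obtain ⟨C2, hC2, h2⟩ := S_bound hR
  obtain ⟨C4, hC4, h4⟩ := gW_moment 2 (by norm_num)
  obtain ⟨C5, hC5, h5⟩ := gW_second 2 (by norm_num)
  refine ⟨K * (C4 + C5), by positivity, fun T hT W hW hWT => ?_⟩
  have hT0 : 0 < T := by linarith
  have hW0 : 0 < W := by linarith
  have hSm := Sf_meas D
  -- pointwise
  have hpt : ∀ x ∈ Icc T (2 * T), ENNReal.ofReal ((Sf D x - sm W (Sf D) x) ^ 2) ≤
      ∫⁻ u, ENNReal.ofReal ((Sf D x - Sf D (x * Real.exp (-u))) ^ 2) * ENNReal.ofReal (gW W u) := by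
    intro x hx
    have hx0 : 0 < x := lt_of_lt_of_le hT0 hx.1
    set φ : ℝ → ℝ := fun u => Sf D x - Sf D (x * Real.exp (-u)) with hφ
    have hφm : Measurable φ := measurable_const.sub (hSm.comp (by fun_prop))
    have hφb : ∀ u, |φ u| ≤ 2 * C2 * x * Real.exp (1 * |u|) := by
      intro u
      have a1 := h2 x hx0.le
      have a2 := h2 (x * Real.exp (-u)) (by positivity)
      rw [one_mul]
      refine (abs_sub _ _).trans ?_
      have b1 : C2 * x ≤ C2 * x * Real.exp |u| := le_mul_of_one_le_right (by positivity) (rgh_one_le u)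
      have b2 : C2 * (x * Real.exp (-u)) ≤ C2 * x * Real.exp |u| := by
        rw [← mul_assoc]
        exact mul_le_mul_of_nonneg_left (rgh_exp_le u) (by positivity)
      linarith
    have i1 := rgh_int hW φ hφm _ 1 (by norm_num) hφb
    have i2 : Integrable (fun u => φ u ^ 2 * gW W u) := by
      refine rgh_int hW (fun u => φ u ^ 2) (hφm.pow_const 2) ((2 * C2 * x) ^ 2) 2 (by norm_num) fun u => ?_
      rw [abs_of_nonneg (sq_nonneg _), ← sq_abs]
      have a4 : Real.exp (2 * |u|) = Real.exp (1 * |u|) ^ 2 := by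
        rw [← Real.exp_nat_mul]; norm_num
      rw [a4, ← mul_pow]
      exact pow_le_pow_left₀ (abs_nonneg _) (hφb u) 2
    have iS : Integrable (fun u => Sf D (x * Real.exp (-u)) * gW W u) := by
      refine rgh_int hW (fun u => Sf D (x * Real.exp (-u))) (hSm.comp (by fun_prop)) (C2 * x) 1 (by norm_num) fun u => ?_
      refine (h2 (x * Real.exp (-u)) (by positivity)).trans ?_
      rw [one_mul, ← mul_assoc]
      exact mul_le_mul_of_nonneg_left (rgh_exp_le u) (by positivity)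
    obtain ⟨g1, g2⟩ := gW_integral hW0
    have e1 : Sf D x - sm W (Sf D) x = ∫ u, φ u * gW W u := by
      have : (fun u => φ u * gW W u) = fun u => Sf D x * gW W u - Sf D (x * Real.exp (-u)) * gW W u := by
        funext u; rw [hφ]; ring
      rw [this, integral_sub (g1.const_mul _) iS, integral_const_mul, g2, mul_one]
      rfl
    rw [e1]
    refine (ENNReal.ofReal_le_ofReal (rgh_jensen hW φ i1 i2)).trans ?_
    rw [ofReal_integral_eq_lintegral_ofReal i2
      (Eventually.of_forall fun u => mul_nonneg (sq_nonneg _) (gW_nonneg hW0.le u))]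
    refine lintegral_mono fun u => ?_
    rw [ENNReal.ofReal_mul (sq_nonneg _)]
  have hmeas : Measurable (fun p : ℝ × ℝ => ENNReal.ofReal ((Sf D p.1 - Sf D (p.1 * Real.exp (-p.2))) ^ 2) *
      ENNReal.ofReal (gW W p.2)) := by
    have m1 : Measurable (fun p : ℝ × ℝ => ENNReal.ofReal ((Sf D p.1 - Sf D (p.1 * Real.exp (-p.2))) ^ 2)) := by
      refine ENNReal.measurable_ofReal.comp ?_
      exact ((hSm.comp measurable_fst).sub (hSm.comp (by fun_prop))).pow_const 2
    have m2 : Measurable (fun p : ℝ × ℝ => ENNReal.ofReal (gW W p.2)) :=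
      ENNReal.measurable_ofReal.comp ((gW_continuous W).measurable.comp measurable_snd)
    exact m1.mul m2
  have hmx : Measurable (fun x => ∫⁻ u, ENNReal.ofReal ((Sf D x - Sf D (x * Real.exp (-u))) ^ 2) *
      ENNReal.ofReal (gW W u)) := hmeas.lintegral_prod_right'
  calc ∫⁻ x in Icc T (2 * T), ENNReal.ofReal ((Sf D x - sm W (Sf D) x) ^ 2)
      ≤ ∫⁻ x in Icc T (2 * T), ∫⁻ u, ENNReal.ofReal ((Sf D x - Sf D (x * Real.exp (-u))) ^ 2) *
          ENNReal.ofReal (gW W u) := setLIntegral_mono hmx hpt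
    _ = ∫⁻ u, ∫⁻ x in Icc T (2 * T), ENNReal.ofReal ((Sf D x - Sf D (x * Real.exp (-u))) ^ 2) *
          ENNReal.ofReal (gW W u) := lintegral_lintegral_swap hmeas.aemeasurable
    _ ≤ ∫⁻ u, ENNReal.ofReal (K * (T ^ 2 * (gW W u * (|u| * Real.exp (2 * |u|))) +
          T ^ 3 * (gW W u * (u ^ 2 * Real.exp (2 * |u|))))) := by
        refine lintegral_mono fun u => ?_
        have hmu : Measurable (fun x => ENNReal.ofReal ((Sf D x - Sf D (x * Real.exp (-u))) ^ 2)) := by
          refine ENNReal.measurable_ofReal.comp ?_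
          exact (hSm.sub (hSm.comp (by fun_prop))).pow_const 2
        rw [lintegral_mul_const _ hmu]
        refine (mul_le_mul_left (hN T hT u) _).trans (le_of_eq ?_)
        rw [← ENNReal.ofReal_mul (by positivity)]
        congr 1
        ring
    _ = ENNReal.ofReal (∫ u, K * (T ^ 2 * (gW W u * (|u| * Real.exp (2 * |u|))) +
          T ^ 3 * (gW W u * (u ^ 2 * Real.exp (2 * |u|))))) := by
        rw [ofReal_integral_eq_lintegral_ofReal]
        · exact (((h4 W hW).1.const_mul _).add ((h5 W hW).1.const_mul _)).const_mul _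
        · refine Eventually.of_forall fun u => ?_
          have := gW_nonneg hW0.le u
          positivity
    _ ≤ ENNReal.ofReal (K * (C4 + C5) * (T ^ 3 / W ^ 2)) := by
        refine ENNReal.ofReal_le_ofReal ?_
        rw [integral_const_mul, integral_add ((h4 W hW).1.const_mul _) ((h5 W hW).1.const_mul _),
          integral_const_mul, integral_const_mul, mul_assoc K]
        refine mul_le_mul_of_nonneg_left ?_ hK
        have a1 := (h4 W hW).2
        have a2 := (h5 W hW).2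
        have a3 : T ^ 2 * (C4 / W) ≤ C4 * (T ^ 3 / W ^ 2) := by
          have : T ^ 2 / W ≤ T ^ 3 / W ^ 2 := by
            rw [div_le_div_iff₀ hW0 (by positivity)]
            have : W * (T ^ 2 * W) ≤ T * (T ^ 2 * W) := mul_le_mul_of_nonneg_right hWT (by positivity)
            nlinarith
          calc T ^ 2 * (C4 / W) = C4 * (T ^ 2 / W) := by ring
            _ ≤ _ := mul_le_mul_of_nonneg_left this hC4
        have a4 : T ^ 3 * (C5 / W ^ 2) = C5 * (T ^ 3 / W ^ 2) := by ring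
        calc _ ≤ T ^ 2 * (C4 / W) + T ^ 3 * (C5 / W ^ 2) :=
              add_le_add (mul_le_mul_of_nonneg_left a1 (by positivity)) (mul_le_mul_of_nonneg_left a2 (by positivity))
          _ ≤ _ := by rw [a4]; linarith

/-- the second part -/
theorem rgh_second (h : IsSel D d) : ∃ C : ℝ, 0 ≤ C ∧ ∀ T : ℝ, 3 ≤ T → ∀ W : ℝ, 1 ≤ W →
    ∫⁻ x in Icc T (2 * T), ENNReal.ofReal ((resp D x - sm W (resp D) x) ^ 2) ≤
      ENNReal.ofReal (C * (T ^ ((13 : ℝ) / 4) / W ^ 4)) := by
  obtain ⟨C, hC, hb⟩ := resp_smooth h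
  refine ⟨C ^ 2 * 8, by positivity, fun T hT W hW => ?_⟩
  have hT0 : 0 < T := by linarith
  have hW0 : 0 < W := by linarith
  have hpt : ∀ x ∈ Icc T (2 * T), ENNReal.ofReal ((resp D x - sm W (resp D) x) ^ 2) ≤
      ENNReal.ofReal (C ^ 2 * (8 * T ^ ((9 : ℝ) / 4)) / W ^ 4) := by
    intro x hx
    refine ENNReal.ofReal_le_ofReal ?_
    have hx0 : 0 < x := lt_of_lt_of_le hT0 hx.1
    have a1 := hb x (hT.trans hx.1) W hW
    have a2 : (x ^ ((9 : ℝ) / 8)) ^ 2 = x ^ ((9 : ℝ) / 4) := by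
      rw [← Real.rpow_natCast, ← Real.rpow_mul hx0.le]
      norm_num
    have a3 : x ^ ((9 : ℝ) / 4) ≤ 8 * T ^ ((9 : ℝ) / 4) := by
      calc x ^ ((9 : ℝ) / 4) ≤ (2 * T) ^ ((9 : ℝ) / 4) := Real.rpow_le_rpow hx0.le hx.2 (by norm_num)
        _ = 2 ^ ((9 : ℝ) / 4) * T ^ ((9 : ℝ) / 4) := Real.mul_rpow (by norm_num) hT0.le
        _ ≤ 8 * T ^ ((9 : ℝ) / 4) := by
            refine mul_le_mul_of_nonneg_right ?_ (by positivity)
            have := Real.rpow_le_rpow_of_exponent_le (x := 2) (by norm_num) (show (9 : ℝ) / 4 ≤ 3 by norm_num)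
            refine this.trans (le_of_eq ?_)
            norm_num
    rw [← sq_abs]
    calc |resp D x - sm W (resp D) x| ^ 2 ≤ (C * x ^ ((9 : ℝ) / 8) / W ^ 2) ^ 2 := by gcongr
      _ = C ^ 2 * (x ^ ((9 : ℝ) / 4)) / W ^ 4 := by rw [← a2]; field_simp
      _ ≤ _ := by gcongr
  calc ∫⁻ x in Icc T (2 * T), ENNReal.ofReal ((resp D x - sm W (resp D) x) ^ 2)
      ≤ ∫⁻ x in Icc T (2 * T), ENNReal.ofReal (C ^ 2 * (8 * T ^ ((9 : ℝ) / 4)) / W ^ 4) :=
        setLIntegral_mono measurable_const hpt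
    _ = ENNReal.ofReal (C ^ 2 * (8 * T ^ ((9 : ℝ) / 4)) / W ^ 4) * ENNReal.ofReal T := by
        rw [setLIntegral_const, Real.volume_Icc]
        congr 2
        ring
    _ = ENNReal.ofReal (C ^ 2 * (8 * T ^ ((9 : ℝ) / 4)) / W ^ 4 * T) := by
        rw [← ENNReal.ofReal_mul (by positivity)]
    _ = _ := by
        congr 1
        have : T ^ ((13 : ℝ) / 4) = T ^ ((9 : ℝ) / 4) * T := by
          rw [show (13 : ℝ) / 4 = 9 / 4 + 1 by norm_num, Real.rpow_add hT0, Real.rpow_one]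
        rw [this]
        ring

theorem rough_rs (h : IsSel D d) (P : Core D) (hR : RS D) : ∃ C : ℝ, 0 ≤ C ∧
    ∀ T : ℝ, 3 ≤ T → ∀ W : ℝ, 1 ≤ W → W ≤ T →
    ∫⁻ x in Icc T (2 * T), ENNReal.ofReal ((D.Ep x - sm W D.Ep x) ^ 2) ≤
      ENNReal.ofReal (C * (T ^ 3 / W ^ 2 + T ^ ((13 : ℝ) / 4) / W ^ 4)) := by
  obtain ⟨C1, hC1, h1⟩ := rgh_first hR
  obtain ⟨C2, hC2, h2⟩ := rgh_second h
  obtain ⟨C3, hC3, h3⟩ := S_bound hR
  obtain ⟨C4, hC4, h4⟩ := resp_bound h
  refine ⟨2 * C1 + 2 * C2, by positivity, fun T hT W hW hWT => ?_⟩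
  have hT0 : 0 < T := by linarith
  have hW0 : 0 < W := by linarith
  have hsm : ∀ x : ℝ, 0 < x → sm W D.Ep x = sm W (Sf D) x - sm W (resp D) x := by
    intro x hx
    have iS : Integrable (fun u => Sf D (x * Real.exp (-u)) * gW W u) := by
      refine rgh_int hW (fun u => Sf D (x * Real.exp (-u))) ((Sf_meas D).comp (by fun_prop)) (C3 * x) 1 (by norm_num)
        fun u => ?_
      refine (h3 (x * Real.exp (-u)) (by positivity)).trans ?_
      rw [one_mul, ← mul_assoc]
      exact mul_le_mul_of_nonneg_left (rgh_exp_le u) (by positivity)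
    have iR : Integrable (fun u => resp D (x * Real.exp (-u)) * gW W u) := by
      refine rgh_int hW (fun u => resp D (x * Real.exp (-u))) ((resp_meas h).comp (by fun_prop))
        (C4 * x ^ ((3 : ℝ) / 2)) (3/2) (by norm_num) fun u => ?_
      refine (h4 (x * Real.exp (-u)) (by positivity)).trans ?_
      rw [Real.mul_rpow hx.le (Real.exp_pos _).le, ← Real.exp_mul, mul_assoc C4]
      refine mul_le_mul_of_nonneg_left (mul_le_mul_of_nonneg_left ?_ (by positivity)) hC4
      apply Real.exp_le_exp.2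
      have := neg_le_abs u
      linarith
    unfold sm
    rw [← integral_sub iS iR]
    refine integral_congr_ae (Eventually.of_forall fun u => ?_)
    simp only
    rw [rgh_Ep]
    ring
  have hpt : ∀ x ∈ Icc T (2 * T), ENNReal.ofReal ((D.Ep x - sm W D.Ep x) ^ 2) ≤
      2 * ENNReal.ofReal ((Sf D x - sm W (Sf D) x) ^ 2) + 2 * ENNReal.ofReal ((resp D x - sm W (resp D) x) ^ 2) := by
    intro x hx
    have hx0 : 0 < x := lt_of_lt_of_le hT0 hx.1
    rw [hsm x hx0, rgh_Ep]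
    set a := Sf D x - sm W (Sf D) x
    set b := resp D x - sm W (resp D) x
    have e1 : Sf D x - resp D x - (sm W (Sf D) x - sm W (resp D) x) = a - b := by
      simp only [a, b]; ring
    rw [e1]
    have e2 : (2 : ENNReal) = ENNReal.ofReal 2 := by norm_num
    rw [e2, ← ENNReal.ofReal_mul (by norm_num), ← ENNReal.ofReal_mul (by norm_num),
      ← ENNReal.ofReal_add (by positivity) (by positivity)]
    refine ENNReal.ofReal_le_ofReal ?_
    nlinarith [sq_nonneg (a + b)]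
  have hm2 : Measurable (fun x => sm W (resp D) x) := by
    unfold sm
    have hh : Measurable (fun p : ℝ × ℝ => resp D (p.1 * Real.exp (-p.2)) * gW W p.2) :=
      ((resp_meas h).comp (by fun_prop)).mul ((gW_continuous W).measurable.comp measurable_snd)
    exact hh.stronglyMeasurable.integral_prod_right'.measurable
  have hm1 : Measurable (fun x => sm W (Sf D) x) := by
    unfold sm
    have hh : Measurable (fun p : ℝ × ℝ => Sf D (p.1 * Real.exp (-p.2)) * gW W p.2) :=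
      ((Sf_meas D).comp (by fun_prop)).mul ((gW_continuous W).measurable.comp measurable_snd)
    exact hh.stronglyMeasurable.integral_prod_right'.measurable
  have hm3 : Measurable (fun x => ENNReal.ofReal ((Sf D x - sm W (Sf D) x) ^ 2)) :=
    ENNReal.measurable_ofReal.comp (((Sf_meas D).sub hm1).pow_const 2)
  have hm4 : Measurable (fun x => ENNReal.ofReal ((resp D x - sm W (resp D) x) ^ 2)) :=
    ENNReal.measurable_ofReal.comp (((resp_meas h).sub hm2).pow_const 2)
  calc ∫⁻ x in Icc T (2 * T), ENNReal.ofReal ((D.Ep x - sm W D.Ep x) ^ 2)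
      ≤ ∫⁻ x in Icc T (2 * T), (2 * ENNReal.ofReal ((Sf D x - sm W (Sf D) x) ^ 2) +
          2 * ENNReal.ofReal ((resp D x - sm W (resp D) x) ^ 2)) :=
        setLIntegral_mono ((hm3.const_mul 2).add (hm4.const_mul 2)) hpt
    _ = 2 * (∫⁻ x in Icc T (2 * T), ENNReal.ofReal ((Sf D x - sm W (Sf D) x) ^ 2)) +
          2 * ∫⁻ x in Icc T (2 * T), ENNReal.ofReal ((resp D x - sm W (resp D) x) ^ 2) := by
        rw [lintegral_add_left (hm3.const_mul 2), lintegral_const_mul 2 hm3, lintegral_const_mul 2 hm4]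
    _ ≤ 2 * ENNReal.ofReal (C1 * (T ^ 3 / W ^ 2)) + 2 * ENNReal.ofReal (C2 * (T ^ ((13 : ℝ) / 4) / W ^ 4)) := by
        gcongr
        · exact h1 T (by linarith) W hW hWT
        · exact h2 T hT W hW
    _ ≤ _ := by
        have e2 : (2 : ENNReal) = ENNReal.ofReal 2 := by norm_num
        rw [e2, ← ENNReal.ofReal_mul (by norm_num), ← ENNReal.ofReal_mul (by norm_num),
          ← ENNReal.ofReal_add (by positivity) (by positivity)]
        refine ENNReal.ofReal_le_ofReal ?_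
        have a1 : 0 ≤ T ^ 3 / W ^ 2 := by positivity
        have a2 : 0 ≤ T ^ ((13 : ℝ) / 4) / W ^ 4 := by positivity
        nlinarith [mul_nonneg hC1 a2, mul_nonneg hC2 a1]

end Pool.Agent.H15.SC
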