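import Pool.Agent.H15.SC.RAll
import Pool.Agent.H15.SC.RRough

/-!
# R-07  mean square bound for the error term  (project SC, MP_be4568_nt)

`W = 2^J` with `T^{2/3} ≤ W ≤ 2 T^{2/3}` (`Vthm_J`), `W ≤ T` for `T ≥ 8`: `Ep² ≤ 2 (sm)² + 2 (Ep - sm)²`, `tail_all_rs`, `rough_rs`:
`C (T^{5/3} + T·2T^{2/3}) + C (T³/T^{4/3} + T^{13/4}/T^{8/3}) ≤ C' T^{5/3}`.  For `1 ≤ T ≤ 8` use `P.E_bound`.
-/

set_option autoImplicit false

open Complex Filter Topology MeasureTheory Set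
open scoped ComplexConjugate

namespace Pool.Agent.H15.SC

variable {D : SelData}

theorem RMsq_int {T : ℝ} (hT : 1 ≤ T) {C : ℝ} (hC0 : 0 ≤ C)
    (hC : ∀ x : ℝ, 1 ≤ x → |D.E x| ≤ C * x ^ ((3 : ℝ) / 2)) :
    ∀ x ∈ Icc T (2 * T), (D.Ep x) ^ 2 ≤ C ^ 2 * (2 * T) ^ 3 := by
  intro x hx
  have hx1 : 1 ≤ x := hT.trans hx.1
  have h1 : D.Ep x = D.E x := by rw [SelData.Ep, if_pos hx1]
  rw [h1, ← sq_abs]
  have h2 : x ^ ((3 : ℝ) / 2) ≤ (2 * T) ^ ((3 : ℝ) / 2) :=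
    Real.rpow_le_rpow (by linarith) hx.2 (by norm_num)
  have h3 : |D.E x| ≤ C * (2 * T) ^ ((3 : ℝ) / 2) :=
    (hC x hx1).trans (mul_le_mul_of_nonneg_left h2 hC0)
  have h4 : ((2 * T) ^ ((3 : ℝ) / 2)) ^ 2 = (2 * T) ^ 3 := by
    rw [← Real.rpow_natCast, ← Real.rpow_mul (by linarith), ← Real.rpow_natCast]
    norm_num
  calc |D.E x| ^ 2 ≤ (C * (2 * T) ^ ((3 : ℝ) / 2)) ^ 2 := pow_le_pow_left₀ (abs_nonneg _) h3 2
    _ = C ^ 2 * (2 * T) ^ 3 := by rw [mul_pow, h4]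

theorem RMsq_integrable (P : Core D) {T : ℝ} (hT : 1 ≤ T) :
    IntervalIntegrable (fun x => (D.Ep x) ^ 2) volume T (2 * T) := by
  obtain ⟨C, hC0, hC⟩ := P.E_bound
  have hb := RMsq_int hT hC0 hC
  rw [intervalIntegrable_iff_integrableOn_Icc_of_le (by linarith)]
  refine Measure.integrableOn_of_bounded (M := C ^ 2 * (2 * T) ^ 3) ?_ ?_ ?_
  · simp
  · exact (P.E_meas.pow_const 2).aestronglyMeasurable
  · refine (ae_restrict_iff' measurableSet_Icc).2 (Filter.Eventually.of_forall fun x hx => ?_)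
    rw [Real.norm_eq_abs, abs_of_nonneg (sq_nonneg _)]
    exact hb x hx

theorem msq_rs (h : IsSel D ((3 : ℕ) : ℝ)) (P : Core D) (hR : RS D) : ∃ C : ℝ, 0 ≤ C ∧ ∀ T : ℝ, 1 ≤ T →
    IntervalIntegrable (fun x => (D.Ep x) ^ 2) volume T (2 * T) ∧
    ∫ x in T..(2 * T), (D.Ep x) ^ 2 ≤ C * T ^ ((5 : ℝ) / 3) := by
  obtain ⟨C1, hC10, hC1⟩ := tail_all_rs h P hR
  obtain ⟨C2, hC20, hC2⟩ := rough_rs h P hR
  obtain ⟨C3, hC30, hC3⟩ := P.E_bound
  refine ⟨2 * (3 * C1 + 2 * C2) + 32768 * C3 ^ 2, by positivity, fun T hT => ⟨RMsq_integrable P hT, ?_⟩⟩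
  have hT0 : 0 < T := by linarith
  rw [intervalIntegral.integral_of_le (by linarith), ← integral_Icc_eq_integral_Ioc]
  have hT53 : 1 ≤ T ^ ((5 : ℝ) / 3) := Real.one_le_rpow hT (by norm_num)
  rcases lt_or_ge T 8 with h8 | h8
  · have hb := RMsq_int hT hC30 hC3
    have h1 : ∫ x in Icc T (2 * T), (D.Ep x) ^ 2 ≤ ∫ _x in Icc T (2 * T), C3 ^ 2 * (2 * T) ^ 3 := by
      refine setIntegral_mono_on ?_ ?_ measurableSet_Icc hb
      · have := RMsq_integrable P hT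
        rwa [intervalIntegrable_iff_integrableOn_Icc_of_le (by linarith)] at this
      · exact integrableOn_const (by simp)
    refine h1.trans ?_
    rw [setIntegral_const, Real.volume_real_Icc_of_le (by linarith), smul_eq_mul]
    have h2 : (2 * T) ^ 3 ≤ 4096 := by
      have : (2 * T) ^ 3 ≤ (16 : ℝ) ^ 3 := pow_le_pow_left₀ (by linarith) (by linarith) 3
      linarith
    have h3 : (2 * T - T) * (C3 ^ 2 * (2 * T) ^ 3) ≤ 8 * (C3 ^ 2 * 4096) := by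
      apply mul_le_mul (by linarith) _ (by positivity) (by norm_num)
      exact mul_le_mul_of_nonneg_left h2 (sq_nonneg _)
    have h4 : 32768 * C3 ^ 2 * 1 ≤ 32768 * C3 ^ 2 * T ^ ((5 : ℝ) / 3) :=
      mul_le_mul_of_nonneg_left hT53 (by positivity)
    have h5 : 0 ≤ 2 * (3 * C1 + 2 * C2) * T ^ ((5 : ℝ) / 3) := by positivity
    nlinarith
  · obtain ⟨J, hJ1, hJ2, -⟩ := Vthm_J hT (w := (2 : ℝ) / 3) (by norm_num)
    set W : ℝ := 2 ^ J with hW
    have hW1 : 1 ≤ W := one_le_pow₀ (by norm_num)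
    have hW0 : 0 < W := by linarith
    have hWT : W ≤ T := by
      refine hJ2.trans ?_
      have h1 : (2 : ℝ) ≤ T ^ ((1 : ℝ) / 3) := by
        have : (8 : ℝ) ^ ((1 : ℝ) / 3) = 2 := by
          rw [show (8 : ℝ) = 2 ^ (3 : ℝ) by norm_num, ← Real.rpow_mul (by norm_num)]
          norm_num
        rw [← this]
        exact Real.rpow_le_rpow (by norm_num) h8 (by norm_num)
      calc 2 * T ^ ((2 : ℝ) / 3) ≤ T ^ ((1 : ℝ) / 3) * T ^ ((2 : ℝ) / 3) :=
            mul_le_mul_of_nonneg_right h1 (by positivity)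
        _ = T := by rw [← Real.rpow_add hT0]; norm_num
    have e1 := hC1 T hT J
    have e2 := hC2 T (by linarith) W hW1 hWT
    rw [← hW] at e1
    have hTW : T * W ≤ 2 * T ^ ((5 : ℝ) / 3) := by
      calc T * W ≤ T * (2 * T ^ ((2 : ℝ) / 3)) := mul_le_mul_of_nonneg_left hJ2 hT0.le
        _ = 2 * (T ^ (1 : ℝ) * T ^ ((2 : ℝ) / 3)) := by rw [Real.rpow_one]; ring
        _ = 2 * T ^ ((5 : ℝ) / 3) := by rw [← Real.rpow_add hT0]; norm_num
    have hA : T ^ 3 / W ^ 2 ≤ T ^ ((5 : ℝ) / 3) := by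
      rw [div_le_iff₀ (by positivity)]
      have h1 : (T ^ ((2 : ℝ) / 3)) ^ 2 ≤ W ^ 2 := pow_le_pow_left₀ (by positivity) hJ1 2
      have h2 : (T ^ ((2 : ℝ) / 3)) ^ 2 = T ^ ((4 : ℝ) / 3) := by
        rw [← Real.rpow_natCast, ← Real.rpow_mul hT0.le]; norm_num
      calc T ^ 3 = T ^ ((5 : ℝ) / 3) * T ^ ((4 : ℝ) / 3) := by
            rw [← Real.rpow_add hT0, ← Real.rpow_natCast]; norm_num
        _ ≤ T ^ ((5 : ℝ) / 3) * W ^ 2 := by
            rw [← h2]; exact mul_le_mul_of_nonneg_left h1 (by positivity)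
    have hB : T ^ ((13 : ℝ) / 4) / W ^ 4 ≤ T ^ ((5 : ℝ) / 3) := by
      rw [div_le_iff₀ (by positivity)]
      have h1 : (T ^ ((2 : ℝ) / 3)) ^ 4 ≤ W ^ 4 := pow_le_pow_left₀ (by positivity) hJ1 4
      have h2 : (T ^ ((2 : ℝ) / 3)) ^ 4 = T ^ ((8 : ℝ) / 3) := by
        rw [← Real.rpow_natCast, ← Real.rpow_mul hT0.le]; norm_num
      calc T ^ ((13 : ℝ) / 4) ≤ T ^ ((13 : ℝ) / 3) := Real.rpow_le_rpow_of_exponent_le hT (by norm_num)
        _ = T ^ ((5 : ℝ) / 3) * T ^ ((8 : ℝ) / 3) := by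
            rw [← Real.rpow_add hT0]; norm_num
        _ ≤ T ^ ((5 : ℝ) / 3) * W ^ 4 := by
            rw [← h2]; exact mul_le_mul_of_nonneg_left h1 (by positivity)
    have hmain : ∫⁻ x in Icc T (2 * T), ENNReal.ofReal ((D.Ep x) ^ 2) ≤
        ENNReal.ofReal (2 * (3 * C1 + 2 * C2) * T ^ ((5 : ℝ) / 3)) := by
      calc ∫⁻ x in Icc T (2 * T), ENNReal.ofReal ((D.Ep x) ^ 2)
          ≤ ∫⁻ x in Icc T (2 * T), (2 * ENNReal.ofReal ((sm W D.Ep x) ^ 2) +
              2 * ENNReal.ofReal ((D.Ep x - sm W D.Ep x) ^ 2)) := by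
            refine lintegral_mono fun x => ?_
            rw [show (2 : ENNReal) = ENNReal.ofReal 2 by simp, ← ENNReal.ofReal_mul (by norm_num),
              ← ENNReal.ofReal_mul (by norm_num), ← ENNReal.ofReal_add (by positivity) (by positivity)]
            apply ENNReal.ofReal_le_ofReal
            nlinarith [sq_nonneg (D.Ep x - 2 * sm W D.Ep x)]
        _ = 2 * (∫⁻ x in Icc T (2 * T), ENNReal.ofReal ((sm W D.Ep x) ^ 2)) +
            2 * (∫⁻ x in Icc T (2 * T), ENNReal.ofReal ((D.Ep x - sm W D.Ep x) ^ 2)) := by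
            rw [lintegral_add_left, lintegral_const_mul, lintegral_const_mul]
            · exact ((P.E_meas.sub (Vthm_sm_meas P W)).pow_const 2).ennreal_ofReal
            · exact ((Vthm_sm_meas P W).pow_const 2).ennreal_ofReal
            · exact ((((Vthm_sm_meas P W).pow_const 2).ennreal_ofReal).const_mul 2)
        _ ≤ 2 * ENNReal.ofReal (C1 * (T ^ ((5 : ℝ) / 3) + T * W)) +
            2 * ENNReal.ofReal (C2 * (T ^ 3 / W ^ 2 + T ^ ((13 : ℝ) / 4) / W ^ 4)) := by gcongr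
        _ = ENNReal.ofReal (2 * (C1 * (T ^ ((5 : ℝ) / 3) + T * W)) +
            2 * (C2 * (T ^ 3 / W ^ 2 + T ^ ((13 : ℝ) / 4) / W ^ 4))) := by
            rw [show (2 : ENNReal) = ENNReal.ofReal 2 by simp, ← ENNReal.ofReal_mul (by norm_num),
              ← ENNReal.ofReal_mul (by norm_num), ← ENNReal.ofReal_add (by positivity) (by positivity)]
        _ ≤ ENNReal.ofReal (2 * (3 * C1 + 2 * C2) * T ^ ((5 : ℝ) / 3)) := by
            apply ENNReal.ofReal_le_ofReal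
            have g1 : C1 * (T ^ ((5 : ℝ) / 3) + T * W) ≤ C1 * (3 * T ^ ((5 : ℝ) / 3)) :=
              mul_le_mul_of_nonneg_left (by linarith) hC10
            have g2 : C2 * (T ^ 3 / W ^ 2 + T ^ ((13 : ℝ) / 4) / W ^ 4) ≤ C2 * (2 * T ^ ((5 : ℝ) / 3)) :=
              mul_le_mul_of_nonneg_left (by linarith) hC20
            nlinarith
    have hfin := Vthm_int_le (f := fun x => (D.Ep x) ^ 2) (s := Icc T (2 * T)) (fun x => sq_nonneg _)
      (B := 2 * (3 * C1 + 2 * C2) * T ^ ((5 : ℝ) / 3)) (by positivity) hmain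
    refine hfin.trans ?_
    have h5 : 0 ≤ 32768 * C3 ^ 2 * T ^ ((5 : ℝ) / 3) := by positivity
    nlinarith

end Pool.Agent.H15.SC
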