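import Pool.Agent.H15.SC.Sign

/-!
# R-10  signs of a product, the second factor only weakly approximated  (project SC, MP_be4568_nt)

As `sign_pos` (SC-30), with `prod_close` replaced by: for `w = 1` and for `w x = e^{-i(...)}`,
`|∫ (G₂ G₃ - g₂ g₃) w| ≤ |∫ (G₂ - g₂) G₃ w| + |∫ g₂ (Gs - g₃) w| + |∫ g₂ (G₃ - Gs) w|`;
the first two by `κ`-Cauchy-Schwarz (`(κ/2)∫ G₃² + (1/2κ) ∫ (G₂-g₂)²`, `(κ/2) ∫ g₂² + (1/2κ) ∫ (Gs - g₃)²`, `∫ g₂² ≤ 2 C T + 2 ε T`),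
the third by expanding `g₂ w` into exponentials `E1`.
-/

set_option autoImplicit false

open Complex Filter Topology MeasureTheory Set

namespace Pool.Agent.H15.SC

theorem E1_norm (η γ δ x : ℝ) : ‖E1 η γ δ x‖ = 1 := by
  rw [E1, Complex.norm_exp_I_mul_ofReal]

theorem E1_meas (η γ δ : ℝ) : Measurable (E1 η γ δ) := by
  unfold E1
  fun_prop

/-- a bounded real function times a bounded measurable complex function -/
theorem BM.mulC {T : ℝ} (hT : 1 ≤ T) {f : ℝ → ℝ} (hf : BM T f) {w : ℝ → ℂ} (hw : Measurable w) (W : ℝ)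
    (hW : ∀ x, ‖w x‖ ≤ W) : IntervalIntegrable (fun x => (f x : ℂ) * w x) volume T (2 * T) := by
  obtain ⟨hfm, Bf, hBf⟩ := hf
  refine ii_bdd hT _ ((Complex.measurable_ofReal.comp hfm).mul hw).aestronglyMeasurable (Bf * W) ?_
  intro x hx
  rw [norm_mul, Complex.norm_real, Real.norm_eq_abs]
  exact mul_le_mul (hBf x hx) (hW x) (norm_nonneg _) ((abs_nonneg _).trans (hBf x hx))

theorem sum_weak {ι : Type*} (s : Finset ι) (k : ι → ℂ) (η γ δ : ι → ℝ) (D : ℝ → ℝ → ℝ)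
    (hD : ∀ T : ℝ, 1 ≤ T → BM T (D T))
    (h : ∀ η γ δ ε : ℝ, 0 < ε → ∃ T₀ : ℝ, 1 ≤ T₀ ∧ ∀ T : ℝ, T₀ ≤ T →
      ‖∫ x in T..(2 * T), ((D T x : ℝ) : ℂ) * E1 η γ δ x‖ ≤ ε * T) :
    ∀ ε : ℝ, 0 < ε → ∃ T₀ : ℝ, 1 ≤ T₀ ∧ ∀ T : ℝ, T₀ ≤ T →
      ‖∫ x in T..(2 * T), ((D T x : ℝ) : ℂ) * ∑ i ∈ s, k i * E1 (η i) (γ i) (δ i) x‖ ≤ ε * T := by
  classical
  induction s using Finset.induction_on with
  | empty =>
    intro ε hε
    refine ⟨1, le_refl _, fun T hT => ?_⟩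
    simp only [Finset.sum_empty, mul_zero, intervalIntegral.integral_zero, norm_zero]
    positivity
  | insert a s ha ih =>
    intro ε hε
    obtain ⟨T₁, hT₁, h₁⟩ := ih (ε / 2) (by positivity)
    obtain ⟨T₂, hT₂, h₂⟩ := h (η a) (γ a) (δ a) (ε / 2 / (1 + ‖k a‖)) (by positivity)
    refine ⟨max T₁ T₂, le_max_of_le_left hT₁, fun T hT => ?_⟩
    have hT1 : 1 ≤ T := hT₁.trans ((le_max_left _ _).trans hT)
    have hk : 0 < 1 + ‖k a‖ := by positivity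
    have e1 : (∫ x in T..(2 * T), ((D T x : ℝ) : ℂ) * ∑ i ∈ insert a s, k i * E1 (η i) (γ i) (δ i) x) =
        k a * (∫ x in T..(2 * T), ((D T x : ℝ) : ℂ) * E1 (η a) (γ a) (δ a) x) +
          ∫ x in T..(2 * T), ((D T x : ℝ) : ℂ) * ∑ i ∈ s, k i * E1 (η i) (γ i) (δ i) x := by
      rw [← intervalIntegral.integral_const_mul, ← intervalIntegral.integral_add]
      · apply intervalIntegral.integral_congr
        intro x _
        simp only [Finset.sum_insert ha]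
        ring
      · exact ((hD T hT1).mulC hT1 (E1_meas _ _ _) 1 fun x => (E1_norm _ _ _ x).le).const_mul _
      · refine (hD T hT1).mulC hT1 (w := fun x => ∑ i ∈ s, k i * E1 (η i) (γ i) (δ i) x)
          (Finset.measurable_fun_sum s fun i _ => (E1_meas _ _ _).const_mul _) (∑ i ∈ s, ‖k i‖) fun x => ?_
        refine (norm_sum_le _ _).trans (Finset.sum_le_sum fun i _ => ?_)
        rw [norm_mul, E1_norm, mul_one]
    rw [e1]
    have b1 := h₁ T ((le_max_left _ _).trans hT)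
    have b2 : ‖∫ x in T..(2 * T), ((D T x : ℝ) : ℂ) * E1 (η a) (γ a) (δ a) x‖ ≤ ε / 2 / (1 + ‖k a‖) * T :=
      h₂ T ((le_max_right _ _).trans hT)
    have b3 : ‖k a * (∫ x in T..(2 * T), ((D T x : ℝ) : ℂ) * E1 (η a) (γ a) (δ a) x)‖ ≤ ε / 2 * T := by
      rw [norm_mul]
      have c1 : ‖k a‖ * ‖∫ x in T..(2 * T), ((D T x : ℝ) : ℂ) * E1 (η a) (γ a) (δ a) x‖ ≤
          (1 + ‖k a‖) * (ε / 2 / (1 + ‖k a‖) * T) :=
        mul_le_mul (by linarith) b2 (norm_nonneg _) hk.le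
      have c2 : (1 + ‖k a‖) * (ε / 2 / (1 + ‖k a‖) * T) = ε / 2 * T := by
        field_simp
      linarith
    have b4 := norm_add_le (k a * (∫ x in T..(2 * T), ((D T x : ℝ) : ℂ) * E1 (η a) (γ a) (δ a) x))
      (∫ x in T..(2 * T), ((D T x : ℝ) : ℂ) * ∑ i ∈ s, k i * E1 (η i) (γ i) (δ i) x)
    linarith

theorem TP_two_mul (η c η₀ γ₀ δ₀ : ℝ) (a : ℕ → ℂ) (N : ℕ) (x : ℝ) (hx : 0 ≤ x) :
    ((TP 2 η c a N x : ℝ) : ℂ) * E1 η₀ γ₀ δ₀ x =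
      ∑ p ∈ Finset.Icc 1 N ×ˢ (Finset.univ : Finset Bool),
        cj p.2 (a p.1) * E1 (sg p.2 * η + η₀) (sg p.2 * (c * (p.1 : ℝ) ^ ((1 : ℝ) / 2)) + γ₀) (0 + δ₀) x := by
  rw [TP_two _ _ _ _ _ hx, Finset.sum_mul]
  refine Finset.sum_congr rfl fun p _ => ?_
  rw [mul_assoc, E1_mul]

/-- the weak hypothesis tested against the first trigonometric polynomial -/
theorem weak_TP (η c η₀ γ₀ δ₀ : ℝ) (a : ℕ → ℂ) (N : ℕ) (D : ℝ → ℝ → ℝ) (hD : ∀ T : ℝ, 1 ≤ T → BM T (D T))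
    (h : ∀ η γ δ ε : ℝ, 0 < ε → ∃ T₀ : ℝ, 1 ≤ T₀ ∧ ∀ T : ℝ, T₀ ≤ T →
      ‖∫ x in T..(2 * T), ((D T x : ℝ) : ℂ) * E1 η γ δ x‖ ≤ ε * T) (ε : ℝ) (hε : 0 < ε) :
    ∃ T₀ : ℝ, 1 ≤ T₀ ∧ ∀ T : ℝ, T₀ ≤ T →
      ‖∫ x in T..(2 * T), ((D T x : ℝ) : ℂ) * (((TP 2 η c a N x : ℝ) : ℂ) * E1 η₀ γ₀ δ₀ x)‖ ≤ ε * T := by
  obtain ⟨T₀, hT₀, h0⟩ := sum_weak (Finset.Icc 1 N ×ˢ (Finset.univ : Finset Bool)) (fun p => cj p.2 (a p.1))
    (fun p => sg p.2 * η + η₀) (fun p => sg p.2 * (c * (p.1 : ℝ) ^ ((1 : ℝ) / 2)) + γ₀) (fun _ => 0 + δ₀) D hD h ε hε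
  refine ⟨T₀, hT₀, fun T hT => ?_⟩
  have hT1 : 1 ≤ T := hT₀.trans hT
  refine (le_of_eq ?_).trans (h0 T hT)
  congr 1
  apply intervalIntegral.integral_congr
  intro x hx
  rw [uIcc_of_le (by linarith)] at hx
  have hx0 : 0 ≤ x := by linarith [hx.1]
  beta_reduce
  rw [TP_two_mul _ _ _ _ _ _ _ _ hx0]

theorem young (κ s t : ℝ) (hκ : 0 < κ) : |s * t| ≤ κ / 2 * t ^ 2 + 1 / (2 * κ) * s ^ 2 := by
  have hκx : κ * (1 / κ) = 1 := by field_simp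
  set x := 1 / κ with hx
  have e0 : 1 / (2 * κ) = x / 2 := by
    rw [hx]
    field_simp
  rw [e0, abs_le]
  have h1 : 0 ≤ κ * (t - x * s) ^ 2 := by positivity
  have h2 : 0 ≤ κ * (t + x * s) ^ 2 := by positivity
  have e1 : κ * (t - x * s) ^ 2 = κ * t ^ 2 - 2 * (κ * x) * (s * t) + (κ * x) * x * s ^ 2 := by ring
  have e2 : κ * (t + x * s) ^ 2 = κ * t ^ 2 + 2 * (κ * x) * (s * t) + (κ * x) * x * s ^ 2 := by ring
  rw [hκx] at e1 e2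
  constructor <;> nlinarith

/-- the error made in replacing `G₂ G₃` by `g₂ g₃`, tested against `w` -/
theorem weak_close (G₂ G₃ g₂ g₃ Gs : ℝ → ℝ) (w : ℝ → ℂ) (hw : Measurable w) (hw1 : ∀ x, ‖w x‖ = 1)
    (T κ ε C δ : ℝ) (hT : 1 ≤ T) (hκ : 0 < κ)
    (hG₂ : BM T G₂) (hG₃ : BM T G₃) (hg₂ : BM T g₂) (hg₃ : BM T g₃) (hGs : BM T Gs)
    (B : ℝ) (hB : ∀ x, |g₂ x| ≤ B)
    (m₂ : ∫ x in T..(2 * T), G₂ x ^ 2 ≤ C * T) (m₃ : ∫ x in T..(2 * T), G₃ x ^ 2 ≤ C * T)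
    (d₂ : ∫ x in T..(2 * T), (G₂ x - g₂ x) ^ 2 ≤ ε * T) (d₃ : ∫ x in T..(2 * T), (Gs x - g₃ x) ^ 2 ≤ ε * T)
    (hδ : ‖∫ x in T..(2 * T), ((G₃ x - Gs x : ℝ) : ℂ) * (((g₂ x : ℝ) : ℂ) * w x)‖ ≤ δ * T) :
    ‖∫ x in T..(2 * T), ((G₂ x * G₃ x - g₂ x * g₃ x : ℝ) : ℂ) * w x‖ ≤
      (3 / 2 * κ * C + κ * ε + ε / κ + δ) * T := by
  have hR : BM T (fun x => (G₂ x - g₂ x) * G₃ x + (Gs x - g₃ x) * g₂ x) :=
    ((hG₂.sub hg₂).mul hG₃).add ((hGs.sub hg₃).mul hg₂)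
  have e : (∫ x in T..(2 * T), ((G₂ x * G₃ x - g₂ x * g₃ x : ℝ) : ℂ) * w x) =
      (∫ x in T..(2 * T), (((G₂ x - g₂ x) * G₃ x + (Gs x - g₃ x) * g₂ x : ℝ) : ℂ) * w x) +
        ∫ x in T..(2 * T), ((G₃ x - Gs x : ℝ) : ℂ) * (((g₂ x : ℝ) : ℂ) * w x) := by
    rw [← intervalIntegral.integral_add (hR.mulC hT hw 1 fun x => (hw1 x).le)]
    · apply intervalIntegral.integral_congr
      intro x _
      beta_reduce
      push_cast
      ring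
    · refine (hG₃.sub hGs).mulC hT (w := fun x => ((g₂ x : ℝ) : ℂ) * w x)
        ((Complex.measurable_ofReal.comp hg₂.1).mul hw) B fun x => ?_
      rw [norm_mul, hw1, mul_one, Complex.norm_real, Real.norm_eq_abs]
      exact hB x
  have h1 : ‖∫ x in T..(2 * T), (((G₂ x - g₂ x) * G₃ x + (Gs x - g₃ x) * g₂ x : ℝ) : ℂ) * w x‖ ≤
      ∫ x in T..(2 * T), |(G₂ x - g₂ x) * G₃ x + (Gs x - g₃ x) * g₂ x| := by
    refine (intervalIntegral.norm_integral_le_integral_norm (by linarith)).trans (le_of_eq ?_)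
    apply intervalIntegral.integral_congr
    intro x _
    beta_reduce
    rw [norm_mul, hw1, mul_one, Complex.norm_real, Real.norm_eq_abs]
  have j1 : IntervalIntegrable (fun x => κ / 2 * G₃ x ^ 2) volume T (2 * T) := (hG₃.sq.int hT).const_mul _
  have j2 : IntervalIntegrable (fun x => κ * G₂ x ^ 2) volume T (2 * T) := (hG₂.sq.int hT).const_mul _
  have j3 : IntervalIntegrable (fun x => (κ + 1 / (2 * κ)) * (G₂ x - g₂ x) ^ 2) volume T (2 * T) :=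
    ((hG₂.sub hg₂).sq.int hT).const_mul _
  have j4 : IntervalIntegrable (fun x => 1 / (2 * κ) * (Gs x - g₃ x) ^ 2) volume T (2 * T) :=
    ((hGs.sub hg₃).sq.int hT).const_mul _
  have h2 : ∫ x in T..(2 * T), |(G₂ x - g₂ x) * G₃ x + (Gs x - g₃ x) * g₂ x| ≤
      ∫ x in T..(2 * T), (κ / 2 * G₃ x ^ 2 + κ * G₂ x ^ 2 + (κ + 1 / (2 * κ)) * (G₂ x - g₂ x) ^ 2 +
        1 / (2 * κ) * (Gs x - g₃ x) ^ 2) := by
    apply intervalIntegral.integral_mono_on (by linarith) (hR.abs.int hT) (((j1.add j2).add j3).add j4)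
    intro x _
    have a1 := young κ (G₂ x - g₂ x) (G₃ x) hκ
    have a2 := young κ (Gs x - g₃ x) (g₂ x) hκ
    have a3 := abs_add_le ((G₂ x - g₂ x) * G₃ x) ((Gs x - g₃ x) * g₂ x)
    have a4 : g₂ x ^ 2 ≤ 2 * G₂ x ^ 2 + 2 * (G₂ x - g₂ x) ^ 2 := by
      nlinarith [sq_nonneg (2 * G₂ x - g₂ x)]
    have a5 : κ / 2 * g₂ x ^ 2 ≤ κ / 2 * (2 * G₂ x ^ 2 + 2 * (G₂ x - g₂ x) ^ 2) :=
      mul_le_mul_of_nonneg_left a4 (by positivity)
    have a6 : (κ + 1 / (2 * κ)) * (G₂ x - g₂ x) ^ 2 =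
        κ * (G₂ x - g₂ x) ^ 2 + 1 / (2 * κ) * (G₂ x - g₂ x) ^ 2 := by ring
    linarith
  rw [intervalIntegral.integral_add ((j1.add j2).add j3) j4, intervalIntegral.integral_add (j1.add j2) j3,
    intervalIntegral.integral_add j1 j2, intervalIntegral.integral_const_mul,
    intervalIntegral.integral_const_mul, intervalIntegral.integral_const_mul,
    intervalIntegral.integral_const_mul] at h2
  have b1 : κ / 2 * (∫ x in T..(2 * T), G₃ x ^ 2) ≤ κ / 2 * (C * T) :=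
    mul_le_mul_of_nonneg_left m₃ (by positivity)
  have b2 : κ * (∫ x in T..(2 * T), G₂ x ^ 2) ≤ κ * (C * T) := mul_le_mul_of_nonneg_left m₂ (by positivity)
  have b3 : (κ + 1 / (2 * κ)) * (∫ x in T..(2 * T), (G₂ x - g₂ x) ^ 2) ≤ (κ + 1 / (2 * κ)) * (ε * T) :=
    mul_le_mul_of_nonneg_left d₂ (by positivity)
  have b4 : 1 / (2 * κ) * (∫ x in T..(2 * T), (Gs x - g₃ x) ^ 2) ≤ 1 / (2 * κ) * (ε * T) :=
    mul_le_mul_of_nonneg_left d₃ (by positivity)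
  have e1 : κ / 2 * (C * T) + κ * (C * T) + (κ + 1 / (2 * κ)) * (ε * T) + 1 / (2 * κ) * (ε * T) + δ * T =
      (3 / 2 * κ * C + κ * ε + ε / κ + δ) * T := by
    field_simp
    ring
  rw [e]
  have h3 := norm_add_le (∫ x in T..(2 * T), (((G₂ x - g₂ x) * G₃ x + (Gs x - g₃ x) * g₂ x : ℝ) : ℂ) * w x)
    (∫ x in T..(2 * T), ((G₃ x - Gs x : ℝ) : ℂ) * (((g₂ x : ℝ) : ℂ) * w x))
  linarith

theorem sign_pos_weak (G₂ G₃ : ℝ → ℝ) (hm₂ : Measurable G₂) (hm₃ : Measurable G₃)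
    (hb₂ : ∀ T : ℝ, 1 ≤ T → ∃ B : ℝ, ∀ x ∈ Icc T (2 * T), |G₂ x| ≤ B)
    (hb₃ : ∀ T : ℝ, 1 ≤ T → ∃ B : ℝ, ∀ x ∈ Icc T (2 * T), |G₃ x| ≤ B)
    (η₂ c₂ η₃ c₃ : ℝ) (hc₂ : 0 < c₂) (hc₃ : 0 < c₃) (a b : ℕ → ℂ) (ha : a 1 ≠ 0) (hb : b 1 ≠ 0)
    (h₂ : Approx G₂ 2 η₂ c₂ a)
    (hL : ∃ C T₁ : ℝ, 1 ≤ T₁ ∧ ∀ T : ℝ, T₁ ≤ T → ∫ x in T..(2 * T), G₃ x ^ 2 ≤ C * T)
    (Gs : ℝ → ℝ → ℝ) (hms : ∀ T : ℝ, Measurable (Gs T))
    (hbs : ∀ T : ℝ, 1 ≤ T → ∃ B : ℝ, ∀ x ∈ Icc T (2 * T), |Gs T x| ≤ B)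
    (h₃ : ∀ ε : ℝ, 0 < ε → ∃ N₀ : ℕ, ∀ N : ℕ, N₀ ≤ N → ∃ T₀ : ℝ, 1 ≤ T₀ ∧ ∀ T : ℝ, T₀ ≤ T →
      ∫ x in T..(2 * T), (Gs T x - TP 3 η₃ c₃ b N x) ^ 2 ≤ ε * T)
    (h₄ : ∀ η γ δ ε : ℝ, 0 < ε → ∃ T₀ : ℝ, 1 ≤ T₀ ∧ ∀ T : ℝ, T₀ ≤ T →
      ‖∫ x in T..(2 * T), ((G₃ x - Gs T x : ℝ) : ℂ) * E1 η γ δ x‖ ≤ ε * T) :
    ∃ c₀ K c₁ T₀ : ℝ, 0 < c₀ ∧ 0 < K ∧ 0 < c₁ ∧ 1 ≤ T₀ ∧ ∀ T : ℝ, T₀ ≤ T → ∀ ε : ℝ, (ε = 1 ∨ ε = -1) →
      ENNReal.ofReal (c₁ * T) ≤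
        volume {x : ℝ | x ∈ Icc T (2 * T) ∧ c₀ ≤ ε * (G₂ x * G₃ x) ∧ |G₂ x| ≤ K ∧ |G₃ x| ≤ K} := by
  classical
  set cs : ℝ := ‖a 1‖ * ‖b 1‖ with hcs
  have cs0 : 0 < cs := mul_pos (norm_pos_iff.mpr ha) (norm_pos_iff.mpr hb)
  obtain ⟨C₂, T₂, hC₂, hT₂, M₂⟩ := msq G₂ hm₂ hb₂ 2 η₂ c₂ a h₂
  obtain ⟨C₃, T₃, hT₃, M₃⟩ := hL
  set C : ℝ := max C₂ C₃ with hC
  have C1 : 1 ≤ C := hC₂.trans (le_max_left _ _)
  set κ : ℝ := min 1 (cs / (256 * C)) with hκd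
  have hκ : 0 < κ := lt_min one_pos (by positivity)
  have hκ1 : κ ≤ 1 := min_le_left _ _
  have hκC : κ * C ≤ cs / 256 := by
    have : κ ≤ cs / (256 * C) := min_le_right _ _
    calc κ * C ≤ cs / (256 * C) * C := mul_le_mul_of_nonneg_right this (by linarith)
      _ = cs / 256 := by field_simp
  set e : ℝ := κ * cs / 512 with hed
  have he : 0 < e := by positivity
  obtain ⟨N₂, hN₂⟩ := h₂ e he
  obtain ⟨N₃, hN₃⟩ := h₃ e he
  set N : ℕ := max 1 (max N₂ N₃) with hN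
  have hN1 : 1 ≤ N := le_max_left _ _
  obtain ⟨S₂, hS₂, D₂⟩ := hN₂ N ((le_max_left _ _).trans (le_max_right _ _))
  obtain ⟨S₃, hS₃, D₃⟩ := hN₃ N ((le_max_right _ _).trans (le_max_right _ _))
  obtain ⟨U₀, hU₀, Z₀⟩ := corr_zero η₂ c₂ η₃ c₃ hc₂ hc₃ a b N (cs / 32) (by positivity)
  obtain ⟨U₁, hU₁, Z₁⟩ := corr_one η₂ c₂ η₃ c₃ hc₂ hc₃ a b N hN1 (cs / 32) (by positivity)
  have hD : ∀ T : ℝ, 1 ≤ T → BM T (fun x => G₃ x - Gs T x) := fun T hT =>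
    BM.sub ⟨hm₃, hb₃ T hT⟩ ⟨hms T, hbs T hT⟩
  obtain ⟨V₀, hV₀, Y₀⟩ := weak_TP η₂ c₂ 0 0 0 a N (fun T x => G₃ x - Gs T x) hD h₄ (cs / 64) (by positivity)
  obtain ⟨V₁, hV₁, Y₁⟩ := weak_TP η₂ c₂ (-(η₂ + η₃)) (-c₂) (-c₃) a N (fun T x => G₃ x - Gs T x) hD h₄ (cs / 64)
    (by positivity)
  obtain ⟨B, hB1, hB⟩ := TP_bdd 2 η₂ c₂ a N
  set K : ℝ := 1 + 32 * B ^ 2 * C / (κ * cs) with hKd
  have hKx : 0 ≤ 32 * B ^ 2 * C / (κ * cs) := by positivity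
  have hK1 : 1 ≤ K := by linarith
  have hK : 0 < K := by linarith
  have hK2 : B ^ 2 / κ / K ^ 2 * (2 * C) ≤ cs / 16 := by
    have h1 : 32 * B ^ 2 * C / (κ * cs) ≤ K ^ 2 := by nlinarith
    have h2 : 32 * B ^ 2 * C ≤ K ^ 2 * (κ * cs) := by
      rwa [div_le_iff₀ (by positivity)] at h1
    have e1 : B ^ 2 / κ / K ^ 2 * (2 * C) = 2 * B ^ 2 * C / (κ * K ^ 2) := by
      field_simp
    rw [e1, div_le_iff₀ (by positivity)]
    nlinarith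
  set c₁ : ℝ := κ * cs / (4 * B ^ 2) with hc₁d
  have hB0 : 0 < B := by linarith
  refine ⟨cs / 16, K, c₁, max (max T₂ T₃) (max (max S₂ S₃) (max (max U₀ U₁) (max V₀ V₁))), by positivity, hK,
    by positivity, le_max_of_le_left (le_max_of_le_left hT₂), fun T hT σ hσ => ?_⟩
  simp only [max_le_iff] at hT
  obtain ⟨⟨t2, t3⟩, ⟨s2, s3⟩, ⟨u0, u1⟩, v0, v1⟩ := hT
  have hT1 : 1 ≤ T := hT₂.trans t2
  have hG₂ : BM T G₂ := ⟨hm₂, hb₂ T hT1⟩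
  have hG₃ : BM T G₃ := ⟨hm₃, hb₃ T hT1⟩
  set g₂ : ℝ → ℝ := TP 2 η₂ c₂ a N with hg₂d
  set g₃ : ℝ → ℝ := TP 3 η₃ c₃ b N with hg₃d
  have hg₂ : BM T g₂ := BM_TP T 2 η₂ c₂ a N
  have hg₃ : BM T g₃ := BM_TP T 3 η₃ c₃ b N
  have m₂ : ∫ x in T..(2 * T), G₂ x ^ 2 ≤ C * T :=
    (M₂ T t2).trans (mul_le_mul_of_nonneg_right (le_max_left _ _) (by linarith))
  have m₃ : ∫ x in T..(2 * T), G₃ x ^ 2 ≤ C * T :=
    (M₃ T t3).trans (mul_le_mul_of_nonneg_right (le_max_right _ _) (by linarith))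
  have d₂ : ∫ x in T..(2 * T), (G₂ x - g₂ x) ^ 2 ≤ e * T := D₂ T s2
  have hGs : BM T (Gs T) := ⟨hms T, hbs T hT1⟩
  have d₃ : ∫ x in T..(2 * T), (Gs T x - g₃ x) ^ 2 ≤ e * T := D₃ T s3
  have hP : BM T (fun x => G₂ x * G₃ x) := hG₂.mul hG₃
  have hp : BM T (fun x => g₂ x * g₃ x) := hg₂.mul hg₃
  have cst : (3 / 2 * κ * C + κ * e + e / κ + cs / 64) * T ≤ cs / 32 * T := by
    refine mul_le_mul_of_nonneg_right ?_ (by linarith)
    have e1 : e / κ = cs / 512 := by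
      rw [hed]
      field_simp
    have e2 : κ * e ≤ cs / 512 := by
      have : κ * e ≤ 1 * e := mul_le_mul_of_nonneg_right hκ1 he.le
      have h3 : e ≤ cs / 512 := by
        have : κ * (cs / 512) ≤ 1 * (cs / 512) := mul_le_mul_of_nonneg_right hκ1 (by positivity)
        rw [hed]
        linarith
      linarith
    rw [e1]
    linarith
  -- the integral of the product is small
  have z0 : |∫ x in T..(2 * T), G₂ x * G₃ x| ≤ cs / 16 * T := by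
    have h1 := Z₀ T u0
    have h2 : (∫ x in T..(2 * T), G₂ x * G₃ x) =
        (∫ x in T..(2 * T), (G₂ x * G₃ x - g₂ x * g₃ x)) + ∫ x in T..(2 * T), g₂ x * g₃ x := by
      rw [← intervalIntegral.integral_add ((hP.sub hp).int hT1) (hp.int hT1)]
      apply intervalIntegral.integral_congr
      intro x _
      ring
    have h6 := weak_close G₂ G₃ g₂ g₃ (Gs T) (E1 0 0 0) (E1_meas _ _ _) (E1_norm _ _ _) T κ e C (cs / 64) hT1 hκ
      hG₂ hG₃ hg₂ hg₃ hGs B hB m₂ m₃ d₂ d₃ (Y₀ T v0)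
    have h7 : ‖∫ x in T..(2 * T), ((G₂ x * G₃ x - g₂ x * g₃ x : ℝ) : ℂ) * E1 0 0 0 x‖ =
        |∫ x in T..(2 * T), (G₂ x * G₃ x - g₂ x * g₃ x)| := by
      rw [← Real.norm_eq_abs, ← Complex.norm_real, ← intervalIntegral.integral_ofReal]
      congr 1
      apply intervalIntegral.integral_congr
      intro x _
      simp [E1]
    rw [h7] at h6
    have h3 : |∫ x in T..(2 * T), (G₂ x * G₃ x - g₂ x * g₃ x)| ≤ cs / 32 * T := h6.trans cst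
    have h4 := abs_add_le (∫ x in T..(2 * T), (G₂ x * G₃ x - g₂ x * g₃ x)) (∫ x in T..(2 * T), g₂ x * g₃ x)
    rw [h2]
    have h5 : |∫ x in T..(2 * T), g₂ x * g₃ x| ≤ cs / 32 * T := h1
    linarith
  -- the integral of its absolute value is large
  have z1 : 15 / 16 * cs * T ≤ ∫ x in T..(2 * T), |G₂ x * G₃ x| := by
    set w : ℝ → ℂ := fun x =>
      cexp (-(I * (((η₂ + η₃) * Real.log x + c₂ * x ^ ((1 : ℝ) / 2) + c₃ * x ^ ((1 : ℝ) / 3) : ℝ) : ℂ))) with hw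
    have hw1 : ∀ x, ‖w x‖ = 1 := by
      intro x
      rw [hw]
      beta_reduce
      rw [← mul_neg, ← Complex.ofReal_neg, Complex.norm_exp_I_mul_ofReal]
    have hwm : Measurable w := by
      rw [hw]
      fun_prop
    have cint : ∀ f : ℝ → ℝ, BM T f → IntervalIntegrable (fun x => (f x : ℂ) * w x) volume T (2 * T) := by
      intro f hf
      obtain ⟨hfm, Bf, hBf⟩ := hf
      refine ii_bdd hT1 _ ((Complex.measurable_ofReal.comp hfm).mul hwm).aestronglyMeasurable Bf ?_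
      intro x hx
      rw [norm_mul, hw1, mul_one, Complex.norm_real, Real.norm_eq_abs]
      exact hBf x hx
    have h1 := Z₁ T u1
    have h2 : (∫ x in T..(2 * T), ((G₂ x * G₃ x : ℝ) : ℂ) * w x) =
        (∫ x in T..(2 * T), ((G₂ x * G₃ x - g₂ x * g₃ x : ℝ) : ℂ) * w x) +
          ∫ x in T..(2 * T), ((g₂ x * g₃ x : ℝ) : ℂ) * w x := by
      rw [← intervalIntegral.integral_add (cint _ (hP.sub hp)) (cint _ hp)]
      apply intervalIntegral.integral_congr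
      intro x _
      beta_reduce
      push_cast
      ring
    have hwE : w = E1 (-(η₂ + η₃)) (-c₂) (-c₃) := by
      funext x
      rw [hw]
      beta_reduce
      rw [E1]
      congr 1
      push_cast
      ring
    have h3 : ‖∫ x in T..(2 * T), ((G₂ x * G₃ x - g₂ x * g₃ x : ℝ) : ℂ) * w x‖ ≤ cs / 32 * T := by
      refine (weak_close G₂ G₃ g₂ g₃ (Gs T) w hwm hw1 T κ e C (cs / 64) hT1 hκ
        hG₂ hG₃ hg₂ hg₃ hGs B hB m₂ m₃ d₂ d₃ ?_).trans cst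
      rw [hwE]
      exact Y₁ T v1
    have h4 : ‖∫ x in T..(2 * T), ((G₂ x * G₃ x : ℝ) : ℂ) * w x‖ ≤ ∫ x in T..(2 * T), |G₂ x * G₃ x| := by
      refine (intervalIntegral.norm_integral_le_integral_norm (by linarith)).trans (le_of_eq ?_)
      apply intervalIntegral.integral_congr
      intro x _
      beta_reduce
      rw [norm_mul, hw1, mul_one, Complex.norm_real, Real.norm_eq_abs]
    set X := ∫ x in T..(2 * T), ((G₂ x * G₃ x - g₂ x * g₃ x : ℝ) : ℂ) * w x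
    set Y := ∫ x in T..(2 * T), ((g₂ x * g₃ x : ℝ) : ℂ) * w x
    have h5 : ‖Y - a 1 * b 1 * T‖ ≤ cs / 32 * T := h1
    have h6 : ‖a 1 * b 1 * (T : ℂ)‖ = cs * T := by
      rw [norm_mul, norm_mul, Complex.norm_real, Real.norm_eq_abs, abs_of_nonneg (by linarith)]
    have h7 : ‖a 1 * b 1 * (T : ℂ)‖ ≤ ‖X + Y‖ + ‖X‖ + ‖Y - a 1 * b 1 * T‖ := by
      have h8 : a 1 * b 1 * (T : ℂ) = (X + Y) - X - (Y - a 1 * b 1 * T) := by ring
      calc ‖a 1 * b 1 * (T : ℂ)‖ = ‖(X + Y) - X - (Y - a 1 * b 1 * T)‖ := by rw [← h8]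
        _ ≤ ‖(X + Y) - X‖ + ‖Y - a 1 * b 1 * T‖ := norm_sub_le _ _
        _ ≤ ‖X + Y‖ + ‖X‖ + ‖Y - a 1 * b 1 * T‖ := by
          have := norm_sub_le (X + Y) X
          linarith
    rw [← h2] at h7
    rw [h6] at h7
    linarith
  -- the integrated pointwise inequality
  set A : Set ℝ := {x | cs / 16 ≤ σ * (G₂ x * G₃ x) ∧ |G₂ x| ≤ K ∧ |G₃ x| ≤ K} with hA
  have hAm : MeasurableSet A := by
    rw [hA]
    refine (measurableSet_le measurable_const ((hm₂.mul hm₃).const_mul σ)).inter ?_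
    exact (measurableSet_le hm₂.abs measurable_const).inter (measurableSet_le hm₃.abs measurable_const)
  have hI : BM T (A.indicator (fun _ => (1 : ℝ))) := by
    refine ⟨measurable_const.indicator hAm, 1, fun x _ => ?_⟩
    by_cases hx : x ∈ A
    · rw [indicator_of_mem hx, abs_one]
    · rw [indicator_of_notMem hx, abs_zero]
      exact zero_le_one
  have i1 : IntervalIntegrable (fun x => 1 / 2 * (|G₂ x * G₃ x| + σ * (G₂ x * G₃ x))) volume T (2 * T) :=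
    ((hP.abs.add ((BM.const σ).mul hP)).int hT1).const_mul _
  have j1 : IntervalIntegrable (fun _ : ℝ => cs / 16) volume T (2 * T) := intervalIntegrable_const
  have j2 : IntervalIntegrable (fun x => κ / 2 * G₃ x ^ 2) volume T (2 * T) := (hG₃.sq.int hT1).const_mul _
  have j3 : IntervalIntegrable (fun x => 1 / κ * (G₂ x - g₂ x) ^ 2) volume T (2 * T) :=
    ((hG₂.sub hg₂).sq.int hT1).const_mul _
  have j4 : IntervalIntegrable (fun x => B ^ 2 / κ / K ^ 2 * (G₂ x ^ 2 + G₃ x ^ 2)) volume T (2 * T) :=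
    ((hG₂.sq.add hG₃.sq).int hT1).const_mul _
  have j5 : IntervalIntegrable (fun x => B ^ 2 / κ * A.indicator (fun _ => (1 : ℝ)) x) volume T (2 * T) :=
    (hI.int hT1).const_mul _
  have main : ∫ x in T..(2 * T), 1 / 2 * (|G₂ x * G₃ x| + σ * (G₂ x * G₃ x)) ≤
      ∫ x in T..(2 * T), (cs / 16 + κ / 2 * G₃ x ^ 2 + 1 / κ * (G₂ x - g₂ x) ^ 2 +
        B ^ 2 / κ / K ^ 2 * (G₂ x ^ 2 + G₃ x ^ 2) + B ^ 2 / κ * A.indicator (fun _ => (1 : ℝ)) x) := by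
    apply intervalIntegral.integral_mono_on (by linarith) i1 ((((j1.add j2).add j3).add j4).add j5)
    intro x _
    have := pt_two σ κ (cs / 16) K B (G₂ x) (G₃ x) (g₂ x) hσ hκ (by positivity) hK (hB x)
    by_cases hx : x ∈ A
    · rw [if_pos (show cs / 16 ≤ σ * (G₂ x * G₃ x) ∧ |G₂ x| ≤ K ∧ |G₃ x| ≤ K from hx)] at this
      rwa [indicator_of_mem hx]
    · have hx' : ¬(cs / 16 ≤ σ * (G₂ x * G₃ x) ∧ |G₂ x| ≤ K ∧ |G₃ x| ≤ K) := hx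
      rw [if_neg hx'] at this
      rwa [indicator_of_notMem hx]
  rw [intervalIntegral.integral_add (((j1.add j2).add j3).add j4) j5,
    intervalIntegral.integral_add ((j1.add j2).add j3) j4,
    intervalIntegral.integral_add (j1.add j2) j3, intervalIntegral.integral_add j1 j2,
    intervalIntegral.integral_const_mul, intervalIntegral.integral_const_mul,
    intervalIntegral.integral_const_mul, intervalIntegral.integral_const_mul,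
    intervalIntegral.integral_const_mul, intervalIntegral.integral_const,
    intervalIntegral.integral_add (hP.abs.int hT1) (((BM.const σ).mul hP).int hT1),
    intervalIntegral.integral_const_mul, intervalIntegral.integral_add (hG₂.sq.int hT1) (hG₃.sq.int hT1),
    smul_eq_mul] at main
  have hσz : -(cs / 16 * T) ≤ σ * ∫ x in T..(2 * T), G₂ x * G₃ x := by
    have h1 := abs_le.mp z0
    rcases hσ with rfl | rfl
    · linarith [h1.1]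
    · linarith [h1.2]
  have f1 : κ / 2 * (∫ x in T..(2 * T), G₃ x ^ 2) ≤ cs / 128 * T := by
    have : κ / 2 * (∫ x in T..(2 * T), G₃ x ^ 2) ≤ κ / 2 * (C * T) :=
      mul_le_mul_of_nonneg_left m₃ (by positivity)
    have h2 : κ * C * T ≤ cs / 256 * T := mul_le_mul_of_nonneg_right hκC (by linarith)
    have h3 : 0 ≤ cs * T := mul_nonneg cs0.le (by linarith)
    linarith
  have f2 : 1 / κ * (∫ x in T..(2 * T), (G₂ x - g₂ x) ^ 2) ≤ cs / 128 * T := by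
    have : 1 / κ * (∫ x in T..(2 * T), (G₂ x - g₂ x) ^ 2) ≤ 1 / κ * (e * T) :=
      mul_le_mul_of_nonneg_left d₂ (by positivity)
    have e1 : 1 / κ * (e * T) = cs / 512 * T := by
      rw [hed]
      field_simp
    have h3 : 0 ≤ cs * T := mul_nonneg cs0.le (by linarith)
    linarith
  have f3 : B ^ 2 / κ / K ^ 2 * ((∫ x in T..(2 * T), G₂ x ^ 2) + ∫ x in T..(2 * T), G₃ x ^ 2) ≤ cs / 16 * T := by
    have h1 : B ^ 2 / κ / K ^ 2 * ((∫ x in T..(2 * T), G₂ x ^ 2) + ∫ x in T..(2 * T), G₃ x ^ 2) ≤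
        B ^ 2 / κ / K ^ 2 * (C * T + C * T) :=
      mul_le_mul_of_nonneg_left (by linarith) (by positivity)
    have h2 : B ^ 2 / κ / K ^ 2 * (2 * C) * T ≤ cs / 16 * T := mul_le_mul_of_nonneg_right hK2 (by linarith)
    linarith
  have fin : c₁ * T ≤ ∫ x in T..(2 * T), A.indicator (fun _ => (1 : ℝ)) x := by
    set W := ∫ x in T..(2 * T), A.indicator (fun _ => (1 : ℝ)) x
    have h1 : cs / 4 * T ≤ B ^ 2 / κ * W := by
      have hcT : 0 < cs * T := by positivity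
      linarith
    have h2 : c₁ * T = κ / B ^ 2 * (cs / 4 * T) := by
      rw [hc₁d]
      field_simp
    have h3 : κ / B ^ 2 * (B ^ 2 / κ * W) = W := by
      field_simp
    rw [h2, ← h3]
    exact mul_le_mul_of_nonneg_left h1 (by positivity)
  exact ind_int T hT1 A hAm (c₁ * T) fin

end Pool.Agent.H15.SC
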