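import Pool.Agent.H15.SC.Gauss
import Pool.Agent.H15.SC.Sign

/-!
# R-09  a function minus its smoothing is almost orthogonal to slow oscillations  (project SC, MP_be4568_nt)

`ψ(x) = x^{-1/3} E1 η γ δ x`, `|x ψ'(x)| ≤ C x^{1/2 - 1/3}` for `x ≥ 1`.  Fubini: the integral is `∫ D(u) gW W u du`,
`D(u) = ∫_T^{2T} ψ(x) (g x - g (x e^{-u})) dx = ∫_T^{2T} ψ g - ∫_{T e^{-u}}^{2T e^{-u}} ψ(y e^u) e^u g(y) dy`.
For `|u| ≤ 1`, `T` large: on the common part of the two intervals `|ψ(y) - ψ(y e^u) e^u| ≤ C |u| T^{1/6}`, `∫_{T/3}^{6T} |g| ≤ C T^{4/3}`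
(Cauchy-Schwarz), on the rest (measure `≤ C T |u|`) `|ψ| ≤ C T^{-1/3}` and `∫ |g| ≤ (C T |u|)^{1/2} (C T^{5/3})^{1/2}`: so
`|D(u)| ≤ C |u| T^{3/2} + C |u|^{1/2} T ≤ C T^{3/2} |u| + C T (W^{-1/2} + W^{1/2} |u|)`.
For `|u| ≥ 1`: `∫_T^{2T} |g (x e^{-u})| dx = e^u ∫_{T e^{-u}}^{2T e^{-u}} |g| ≤ C T^{4/3} e^{|u|}` (`g = 0` on `x < 1`), so
`|D(u)| ≤ C T e^{|u|} ≤ C T |u| e^{|u|}`.  `gW_moment`: `∫ |D| gW ≤ C T^{3/2}/W + C T/W^{1/2} + C T/W ≤ C T^{11/12}`.
-/

set_option autoImplicit false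

open Complex Filter Topology MeasureTheory Set

namespace Pool.Agent.H15.SC

namespace RWk

/-- `x^{-1/3}` times the oscillation -/
noncomputable def ps (η γ δ x : ℝ) : ℂ := ((x ^ (-(1 / 3) : ℝ) : ℝ) : ℂ) * E1 η γ δ x

/-- the same in the variable `log x`, multiplied by `x` -/
noncomputable def Th (η γ δ s : ℝ) : ℂ :=
  cexp (((2 / 3 * s : ℝ) : ℂ) + I * ((η * s + γ * Real.exp (s / 2) + δ * Real.exp (s / 3) : ℝ) : ℂ))

theorem E1_norm (η γ δ x : ℝ) : ‖E1 η γ δ x‖ = 1 := by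
  unfold E1
  rw [mul_comm]
  exact Complex.norm_exp_ofReal_mul_I _

theorem ps_norm (η γ δ : ℝ) {x : ℝ} (hx : 0 < x) : ‖ps η γ δ x‖ = x ^ (-(1 / 3) : ℝ) := by
  unfold ps
  rw [norm_mul, E1_norm, mul_one, Complex.norm_real, Real.norm_eq_abs,
    abs_of_nonneg (Real.rpow_nonneg hx.le _)]

theorem Th_norm (η γ δ s : ℝ) : ‖Th η γ δ s‖ = Real.exp (2 / 3 * s) := by
  unfold Th
  rw [Complex.norm_exp, Complex.add_re, Complex.ofReal_re, Complex.I_mul_re, Complex.ofReal_im, neg_zero,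
    add_zero]

theorem ps_eq (η γ δ y u : ℝ) (hy : 0 < y) :
    ((Real.exp u : ℝ) : ℂ) * ps η γ δ (y * Real.exp u) = ((y⁻¹ : ℝ) : ℂ) * Th η γ δ (Real.log y + u) := by
  obtain ⟨s, rfl⟩ : ∃ s, y = Real.exp s := ⟨Real.log y, (Real.exp_log hy).symm⟩
  rw [Real.log_exp, ← Real.exp_add, ← Real.exp_neg]
  unfold ps Th E1
  rw [Real.log_exp, ← Real.exp_mul, ← Real.exp_mul, ← Real.exp_mul, Complex.ofReal_exp, Complex.ofReal_exp,
    Complex.ofReal_exp, ← Complex.exp_add, ← Complex.exp_add, ← Complex.exp_add]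
  congr 1
  have e1 : (s + u) * (1 / 2) = (s + u) / 2 := by ring
  have e2 : (s + u) * (1 / 3) = (s + u) / 3 := by ring
  rw [e1, e2]
  push_cast
  ring

theorem Th_deriv (η γ δ s : ℝ) : HasDerivAt (Th η γ δ)
    (Th η γ δ s * (((2 / 3 : ℝ) : ℂ) + I * ((η + γ * (Real.exp (s / 2) / 2) + δ * (Real.exp (s / 3) / 3) : ℝ) : ℂ))) s := by
  have h1 : HasDerivAt (fun s : ℝ => 2 / 3 * s) (2 / 3 : ℝ) s := by
    simpa using (hasDerivAt_id s).const_mul (2 / 3 : ℝ)
  have h2 : HasDerivAt (fun s : ℝ => η * s + γ * Real.exp (s / 2) + δ * Real.exp (s / 3))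
      (η + γ * (Real.exp (s / 2) / 2) + δ * (Real.exp (s / 3) / 3)) s := by
    have a1 : HasDerivAt (fun s : ℝ => η * s) η s := by simpa using (hasDerivAt_id s).const_mul η
    have a2 : HasDerivAt (fun s : ℝ => Real.exp (s / 2)) (Real.exp (s / 2) / 2) s := by
      simpa [mul_div_assoc, div_eq_mul_inv] using ((hasDerivAt_id s).div_const 2).exp
    have a3 : HasDerivAt (fun s : ℝ => Real.exp (s / 3)) (Real.exp (s / 3) / 3) s := by
      simpa [mul_div_assoc, div_eq_mul_inv] using ((hasDerivAt_id s).div_const 3).exp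
    exact (a1.fun_add (a2.const_mul γ)).fun_add (a3.const_mul δ)
  exact ((h1.ofReal_comp).fun_add ((h2.ofReal_comp).const_mul I)).cexp

theorem Th_deriv_le (η γ δ s : ℝ) :
    ‖Th η γ δ s * (((2 / 3 : ℝ) : ℂ) + I * ((η + γ * (Real.exp (s / 2) / 2) + δ * (Real.exp (s / 3) / 3) : ℝ) : ℂ))‖ ≤
      (1 + |η| + |γ| + |δ|) * Real.exp (7 / 6 * |s|) := by
  rw [norm_mul, Th_norm]
  have hs := le_abs_self s
  have hs0 := abs_nonneg s
  have e2 : Real.exp (s / 2) ≤ Real.exp (|s| / 2) := Real.exp_le_exp.mpr (by linarith)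
  have e3 : Real.exp (s / 3) ≤ Real.exp (|s| / 2) := Real.exp_le_exp.mpr (by linarith)
  have e0 : 1 ≤ Real.exp (|s| / 2) := Real.one_le_exp (by positivity)
  have e1 : Real.exp (2 / 3 * s) ≤ Real.exp (2 / 3 * |s|) := Real.exp_le_exp.mpr (by linarith)
  have p2 := Real.exp_pos (s / 2)
  have p3 := Real.exp_pos (s / 3)
  have hn : ‖((2 / 3 : ℝ) : ℂ) + I * ((η + γ * (Real.exp (s / 2) / 2) + δ * (Real.exp (s / 3) / 3) : ℝ) : ℂ)‖ ≤
      (1 + |η| + |γ| + |δ|) * Real.exp (|s| / 2) := by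
    refine (norm_add_le _ _).trans ?_
    rw [norm_mul, norm_I, one_mul, norm_real, norm_real, Real.norm_eq_abs, Real.norm_eq_abs]
    have t1 : |η + γ * (Real.exp (s / 2) / 2) + δ * (Real.exp (s / 3) / 3)| ≤
        |η| + |γ| * (Real.exp (s / 2) / 2) + |δ| * (Real.exp (s / 3) / 3) := by
      refine (abs_add_le _ _).trans (add_le_add ((abs_add_le _ _).trans (add_le_add le_rfl ?_)) ?_)
      · rw [abs_mul, abs_of_pos (show 0 < Real.exp (s / 2) / 2 by positivity)]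
      · rw [abs_mul, abs_of_pos (show 0 < Real.exp (s / 3) / 3 by positivity)]
    have t2 : |(2 / 3 : ℝ)| = 2 / 3 := abs_of_pos (by norm_num)
    rw [t2]
    have a1 : |η| ≤ |η| * Real.exp (|s| / 2) := le_mul_of_one_le_right (abs_nonneg _) e0
    have a2 : |γ| * (Real.exp (s / 2) / 2) ≤ |γ| * Real.exp (|s| / 2) :=
      mul_le_mul_of_nonneg_left (by linarith) (abs_nonneg _)
    have a3 : |δ| * (Real.exp (s / 3) / 3) ≤ |δ| * Real.exp (|s| / 2) :=
      mul_le_mul_of_nonneg_left (by linarith) (abs_nonneg _)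
    nlinarith
  calc Real.exp (2 / 3 * s) * ‖((2 / 3 : ℝ) : ℂ) +
        I * ((η + γ * (Real.exp (s / 2) / 2) + δ * (Real.exp (s / 3) / 3) : ℝ) : ℂ)‖
      ≤ Real.exp (2 / 3 * |s|) * ((1 + |η| + |γ| + |δ|) * Real.exp (|s| / 2)) := by gcongr
    _ = (1 + |η| + |γ| + |δ|) * (Real.exp (2 / 3 * |s|) * Real.exp (|s| / 2)) := by ring
    _ = _ := by
        rw [← Real.exp_add]
        congr 2
        ring

theorem ps_diff (η γ δ y u : ℝ) (hy : 1 ≤ y) :
    ‖ps η γ δ y - ((Real.exp u : ℝ) : ℂ) * ps η γ δ (y * Real.exp u)‖ ≤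
      (1 + |η| + |γ| + |δ|) * |u| * y ^ (1 / 6 : ℝ) * Real.exp (2 * |u|) := by
  have hy0 : 0 < y := by linarith
  have h0 := ps_eq η γ δ y 0 hy0
  rw [Real.exp_zero, mul_one, add_zero, Complex.ofReal_one, one_mul] at h0
  rw [ps_eq η γ δ y u hy0, h0, ← mul_sub, norm_mul, Complex.norm_real, Real.norm_eq_abs,
    abs_of_pos (inv_pos.mpr hy0)]
  obtain ⟨K, hK⟩ : ∃ K, K = 1 + |η| + |γ| + |δ| := ⟨_, rfl⟩
  rw [← hK]
  have hK0 : 0 ≤ K := by rw [hK]; positivity
  have hl0 : 0 ≤ Real.log y := Real.log_nonneg hy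
  have hmv : ‖Th η γ δ (Real.log y) - Th η γ δ (Real.log y + u)‖ ≤
      K * Real.exp (7 / 6 * (Real.log y + |u|)) * ‖Real.log y - (Real.log y + u)‖ := by
    apply (convex_uIcc (Real.log y) (Real.log y + u)).norm_image_sub_le_of_norm_hasDerivWithin_le
      (f := Th η γ δ) (fun s _ => (Th_deriv η γ δ s).hasDerivWithinAt) ?_ right_mem_uIcc left_mem_uIcc
    intro s hs
    have hsu : |s| ≤ Real.log y + |u| := by
      rw [mem_uIcc] at hs
      have := le_abs_self u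
      have := neg_abs_le u
      rw [abs_le]
      rcases hs with ⟨h1, h2⟩ | ⟨h1, h2⟩ <;> constructor <;> linarith
    refine (Th_deriv_le η γ δ s).trans ?_
    rw [← hK]
    gcongr
  have e1 : ‖Real.log y - (Real.log y + u)‖ = |u| := by
    rw [Real.norm_eq_abs, show Real.log y - (Real.log y + u) = -u by ring, abs_neg]
  rw [e1] at hmv
  have e2 : Real.exp (7 / 6 * (Real.log y + |u|)) ≤ y ^ (7 / 6 : ℝ) * Real.exp (2 * |u|) := by
    rw [Real.rpow_def_of_pos hy0, ← Real.exp_add]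
    apply Real.exp_le_exp.mpr
    have := abs_nonneg u
    nlinarith
  have e3 : y⁻¹ * y ^ (7 / 6 : ℝ) = y ^ (1 / 6 : ℝ) := by
    rw [← Real.rpow_neg_one, ← Real.rpow_add hy0]
    norm_num
  calc y⁻¹ * ‖Th η γ δ (Real.log y) - Th η γ δ (Real.log y + u)‖
      ≤ y⁻¹ * (K * Real.exp (7 / 6 * (Real.log y + |u|)) * |u|) := by gcongr
    _ ≤ y⁻¹ * (K * (y ^ (7 / 6 : ℝ) * Real.exp (2 * |u|)) * |u|) := by gcongr
    _ = K * |u| * (y⁻¹ * y ^ (7 / 6 : ℝ)) * Real.exp (2 * |u|) := by ring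
    _ = _ := by rw [e3]

theorem ps_meas (η γ δ : ℝ) : Measurable (ps η γ δ) := by
  unfold ps E1
  fun_prop


/-! ### square means -/

section

variable (g : ℝ → ℝ) (hm : Measurable g) (h0 : ∀ x : ℝ, x < 1 → g x = 0) (C : ℝ) (hC : 0 ≤ C)
  (hb : ∀ x : ℝ, 1 ≤ x → |g x| ≤ C * x ^ ((3 : ℝ) / 2))
  (h2 : ∀ T : ℝ, 1 ≤ T → ∫ x in T..(2 * T), (g x) ^ 2 ≤ C * T ^ ((5 : ℝ) / 3))

include h0 hC hb in
theorem g_bdd (X : ℝ) (hX : 1 ≤ X) (x : ℝ) (hx : x ≤ X) : |g x| ≤ C * X ^ ((3 : ℝ) / 2) := by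
  by_cases h : x < 1
  · rw [h0 x h, abs_zero]
    positivity
  · push Not at h
    exact (hb x h).trans (mul_le_mul_of_nonneg_left (Real.rpow_le_rpow (by linarith) hx (by norm_num)) hC)

include hm h0 hC hb in
theorem g2_int (a b : ℝ) : IntegrableOn (fun x => (g x) ^ 2) (uIoc a b) := by
  obtain ⟨X, hX⟩ : ∃ X, X = max 1 (max a b) := ⟨_, rfl⟩
  refine Measure.integrableOn_of_bounded (M := (C * X ^ ((3 : ℝ) / 2)) ^ 2) ?_
    ((hm.pow_const 2).aestronglyMeasurable) ?_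
  · rw [uIoc, Real.volume_Ioc]
    exact ENNReal.ofReal_ne_top
  · refine (ae_restrict_iff' measurableSet_uIoc).mpr (Eventually.of_forall fun x hx => ?_)
    have h1 : x ≤ X := by
      rw [hX]
      exact hx.2.trans (le_max_right _ _)
    rw [Real.norm_eq_abs, abs_pow]
    exact pow_le_pow_left₀ (abs_nonneg _) (g_bdd g h0 C hC hb X (by rw [hX]; exact le_max_left _ _) x h1) 2

include hm h0 hC hb h2 in
theorem l2_one (X : ℝ) (hX : 1 ≤ X) : ∫ x in (1 : ℝ)..X, (g x) ^ 2 ≤ C * X ^ ((5 : ℝ) / 3) := by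
  have hi : ∀ a b : ℝ, IntervalIntegrable (fun x => (g x) ^ 2) volume a b := fun a b =>
    intervalIntegrable_iff.mpr (g2_int g hm h0 C hC hb a b)
  have key : ∀ n : ℕ, ∀ X : ℝ, 1 ≤ X → X ≤ 2 ^ n → ∫ x in (1 : ℝ)..X, (g x) ^ 2 ≤ C * X ^ ((5 : ℝ) / 3) := by
    intro n
    induction n with
    | zero =>
      intro X h1 h3
      have : X = 1 := le_antisymm (by simpa using h3) h1
      rw [this, intervalIntegral.integral_same]
      positivity
    | succ n ih =>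
      intro X h1 h3
      by_cases hX2 : X ≤ 2
      · have a1 := h2 1 le_rfl
        have a2 : ∫ x in (1 : ℝ)..X, (g x) ^ 2 ≤ ∫ x in (1 : ℝ)..(2 * 1), (g x) ^ 2 := by
          rw [← intervalIntegral.integral_add_adjacent_intervals (hi 1 X) (hi X (2 * 1))]
          have : 0 ≤ ∫ x in X..(2 * 1), (g x) ^ 2 :=
            intervalIntegral.integral_nonneg (by linarith) fun x _ => sq_nonneg _
          linarith
        refine a2.trans (a1.trans ?_)
        exact mul_le_mul_of_nonneg_left (Real.rpow_le_rpow (by norm_num) h1 (by norm_num)) hC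
      · push Not at hX2
        have a1 := ih (X / 2) (by linarith) (by rw [pow_succ] at h3; linarith)
        have a2 := h2 (X / 2) (by linarith)
        have e : 2 * (X / 2) = X := by ring
        rw [e] at a2
        rw [← intervalIntegral.integral_add_adjacent_intervals (hi 1 (X / 2)) (hi (X / 2) X)]
        have e2 : (X / 2) ^ ((5 : ℝ) / 3) = X ^ ((5 : ℝ) / 3) / 2 ^ ((5 : ℝ) / 3) :=
          Real.div_rpow (by linarith) (by norm_num) _
        have e3 : (2 : ℝ) ≤ 2 ^ ((5 : ℝ) / 3) := by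
          calc (2 : ℝ) = 2 ^ (1 : ℝ) := (Real.rpow_one 2).symm
            _ ≤ _ := Real.rpow_le_rpow_of_exponent_le (by norm_num) (by norm_num)
        have e4 : (X / 2) ^ ((5 : ℝ) / 3) ≤ X ^ ((5 : ℝ) / 3) / 2 := by
          rw [e2]
          exact div_le_div_of_nonneg_left (by positivity) (by norm_num) e3
        have e5 := mul_le_mul_of_nonneg_left e4 hC
        linarith
  obtain ⟨n, hn⟩ := pow_unbounded_of_one_lt X (by norm_num : (1 : ℝ) < 2)
  exact key n X hX hn.le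

include hm h0 hC hb h2 in
theorem l2_all (a b X : ℝ) (ha : 0 ≤ a) (hb' : 0 ≤ b) (haX : a ≤ X) (hbX : b ≤ X) (hX : 1 ≤ X) :
    ∫ x in uIoc a b, (g x) ^ 2 ≤ (C + C ^ 2) * X ^ ((5 : ℝ) / 3) := by
  have hi : ∀ a b : ℝ, IntervalIntegrable (fun x => (g x) ^ 2) volume a b := fun a b =>
    intervalIntegrable_iff.mpr (g2_int g hm h0 C hC hb a b)
  have s1 : uIoc a b ⊆ uIoc 0 X := by
    rw [uIoc_of_le (by linarith : (0 : ℝ) ≤ X)]
    intro x hx
    exact ⟨(le_min ha hb').trans_lt hx.1, hx.2.trans (max_le haX hbX)⟩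
  refine (setIntegral_mono_set (g2_int g hm h0 C hC hb 0 X) (Eventually.of_forall fun x => sq_nonneg _)
    s1.eventuallyLE).trans ?_
  rw [uIoc_of_le (by linarith : (0 : ℝ) ≤ X), ← intervalIntegral.integral_of_le (by linarith),
    ← intervalIntegral.integral_add_adjacent_intervals (hi 0 1) (hi 1 X)]
  have a1 := l2_one g hm h0 C hC hb h2 X hX
  have a2 : ∫ x in (0 : ℝ)..1, (g x) ^ 2 ≤ C ^ 2 := by
    have : ∫ x in (0 : ℝ)..1, (g x) ^ 2 ≤ ∫ _x in (0 : ℝ)..1, C ^ 2 := by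
      apply intervalIntegral.integral_mono_on (by norm_num) (hi 0 1) intervalIntegrable_const
      intro x hx
      have := g_bdd g h0 C hC hb 1 le_rfl x hx.2
      rw [Real.one_rpow, mul_one] at this
      rw [← sq_abs]
      exact pow_le_pow_left₀ (abs_nonneg _) this 2
    simpa using this
  have a3 : 1 ≤ X ^ ((5 : ℝ) / 3) := Real.one_le_rpow hX (by norm_num)
  nlinarith [sq_nonneg C]

include hm h0 hC hb h2 in
theorem edge (a b X M lam : ℝ) (ha : 0 ≤ a) (hb' : 0 ≤ b) (haX : a ≤ X) (hbX : b ≤ X) (hX : 1 ≤ X)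
    (hM : 0 ≤ M) (hlam : 0 < lam) (f : ℝ → ℂ) (hf : ∀ y ∈ uIoc a b, ‖f y‖ ≤ M) :
    ‖∫ y in a..b, f y * ((g y : ℝ) : ℂ)‖ ≤ M * (lam * ((C + C ^ 2) * X ^ ((5 : ℝ) / 3)) + |b - a| / lam) := by
  refine (intervalIntegral.norm_integral_le_integral_norm_uIoc).trans ?_
  have hI := g2_int g hm h0 C hC hb a b
  have hv : volume (uIoc a b) ≠ ⊤ := by
    rw [uIoc, Real.volume_Ioc]
    exact ENNReal.ofReal_ne_top
  have hc : IntegrableOn (fun _ : ℝ => 1 / lam) (uIoc a b) := integrableOn_const hv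
  have hint : IntegrableOn (fun y => M * (lam * (g y) ^ 2 + 1 / lam)) (uIoc a b) :=
    ((hI.const_mul lam).add hc).const_mul M
  have h3 : ∫ y in uIoc a b, ‖f y * ((g y : ℝ) : ℂ)‖ ≤ ∫ y in uIoc a b, M * (lam * (g y) ^ 2 + 1 / lam) := by
    refine integral_mono_of_nonneg (Eventually.of_forall fun y => norm_nonneg _) hint ?_
    refine (ae_restrict_iff' measurableSet_uIoc).mpr (Eventually.of_forall fun y hy => ?_)
    show ‖f y * ((g y : ℝ) : ℂ)‖ ≤ M * (lam * (g y) ^ 2 + 1 / lam)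
    rw [norm_mul, Complex.norm_real, Real.norm_eq_abs]
    have h4 : |g y| ≤ lam * (g y) ^ 2 + 1 / lam := by
      have e : lam * (g y) ^ 2 + 1 / lam - 2 * |g y| = lam * (|g y| - 1 / lam) ^ 2 := by
        rw [← sq_abs (g y)]
        field_simp
        ring
      have h5 : 0 ≤ lam * (|g y| - 1 / lam) ^ 2 := by positivity
      have h6 := abs_nonneg (g y)
      linarith
    exact mul_le_mul (hf y hy) h4 (abs_nonneg _) hM
  refine h3.trans ?_
  rw [integral_const_mul]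
  refine mul_le_mul_of_nonneg_left ?_ hM
  rw [integral_add (hI.const_mul lam) hc, integral_const_mul, setIntegral_const]
  have h7 := l2_all g hm h0 C hC hb h2 a b X ha hb' haX hbX hX
  have h8 : (volume.real (uIoc a b)) • (1 / lam) = |b - a| / lam := by
    rw [Measure.real, uIoc, Real.volume_Ioc, ENNReal.toReal_ofReal (by simp), max_sub_min_eq_abs, smul_eq_mul]
    ring
  rw [h8]
  have := mul_le_mul_of_nonneg_left h7 hlam.le
  linarith

include hm h0 hC hb in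
theorem fg_int (f : ℝ → ℂ) (hf : Measurable f) (a b M : ℝ) (hM : ∀ y ∈ uIoc a b, ‖f y‖ ≤ M) :
    IntervalIntegrable (fun y => f y * ((g y : ℝ) : ℂ)) volume a b := by
  obtain ⟨X, hX⟩ : ∃ X, X = max 1 (max a b) := ⟨_, rfl⟩
  rw [intervalIntegrable_iff]
  refine Measure.integrableOn_of_bounded (M := M * (C * X ^ ((3 : ℝ) / 2))) ?_
    ((hf.mul hm.complex_ofReal).aestronglyMeasurable) ?_
  · rw [uIoc, Real.volume_Ioc]
    exact ENNReal.ofReal_ne_top
  · refine (ae_restrict_iff' measurableSet_uIoc).mpr (Eventually.of_forall fun x hx => ?_)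
    have h1 : x ≤ X := by
      rw [hX]
      exact hx.2.trans (le_max_right _ _)
    rw [norm_mul, Complex.norm_real, Real.norm_eq_abs]
    exact mul_le_mul (hM x hx) (g_bdd g h0 C hC hb X (by rw [hX]; exact le_max_left _ _) x h1) (abs_nonneg _)
      ((norm_nonneg _).trans (hM x hx))

theorem hu_le (η γ δ T u y : ℝ) (hT : 0 < T) (hy : T * Real.exp (-|u|) ≤ y) :
    ‖((Real.exp u : ℝ) : ℂ) * ps η γ δ (y * Real.exp u)‖ ≤ T ^ (-(1 / 3) : ℝ) * Real.exp |u| := by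
  have hy0 : 0 < y := lt_of_lt_of_le (by positivity) hy
  rw [norm_mul, ps_norm η γ δ (by positivity), Complex.norm_real, Real.norm_eq_abs, abs_of_pos (Real.exp_pos u)]
  have h1 : (y * Real.exp u) ^ (-(1 / 3) : ℝ) ≤ (T * Real.exp (-|u|) * Real.exp u) ^ (-(1 / 3) : ℝ) :=
    Real.rpow_le_rpow_of_nonpos (by positivity) (by gcongr) (by norm_num)
  have h2 : (T * Real.exp (-|u|) * Real.exp u) ^ (-(1 / 3) : ℝ) =
      T ^ (-(1 / 3) : ℝ) * Real.exp ((|u| - u) / 3) := by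
    rw [mul_assoc, ← Real.exp_add, Real.mul_rpow hT.le (Real.exp_pos _).le, ← Real.exp_mul]
    congr 2
    ring
  rw [h2] at h1
  calc Real.exp u * (y * Real.exp u) ^ (-(1 / 3) : ℝ)
      ≤ Real.exp u * (T ^ (-(1 / 3) : ℝ) * Real.exp ((|u| - u) / 3)) := by gcongr
    _ = T ^ (-(1 / 3) : ℝ) * (Real.exp u * Real.exp ((|u| - u) / 3)) := by ring
    _ ≤ _ := by
        rw [← Real.exp_add]
        have := le_abs_self u
        refine mul_le_mul_of_nonneg_left (Real.exp_le_exp.mpr (by linarith)) (by positivity)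

theorem exp_sub_one_le (u : ℝ) : |Real.exp (-u) - 1| ≤ |u| * Real.exp |u| := by
  have h1 := Real.add_one_le_exp (-u)
  have h2 := Real.add_one_le_exp u
  have h3 : 1 ≤ Real.exp |u| := Real.one_le_exp (abs_nonneg u)
  rw [abs_le]
  rcases le_total 0 u with h | h
  · rw [abs_of_nonneg h] at h3 ⊢
    have h4 : Real.exp (-u) ≤ 1 := Real.exp_le_one_iff.mpr (by linarith)
    constructor <;> nlinarith
  · rw [abs_of_nonpos h] at h3 ⊢
    have h4 : Real.exp (-u) * Real.exp u = 1 := by rw [← Real.exp_add]; simp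
    have h5 := Real.exp_pos (-u)
    constructor
    · nlinarith
    · nlinarith

/-- the difference, integrated against the oscillation -/
noncomputable def Dd (g : ℝ → ℝ) (η γ δ T u : ℝ) : ℂ :=
  ∫ x in T..(2 * T), ps η γ δ x * ((g x - g (x * Real.exp (-u)) : ℝ) : ℂ)

include hm h0 hC hb in
theorem Dd_eq (η γ δ T u : ℝ) (hT : 1 ≤ T) : Dd g η γ δ T u =
    (∫ y in T..(2 * T), (ps η γ δ y - ((Real.exp u : ℝ) : ℂ) * ps η γ δ (y * Real.exp u)) * ((g y : ℝ) : ℂ)) +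
    ((∫ y in T..(T * Real.exp (-u)), (((Real.exp u : ℝ) : ℂ) * ps η γ δ (y * Real.exp u)) * ((g y : ℝ) : ℂ)) -
      ∫ y in (2 * T)..(2 * T * Real.exp (-u)), (((Real.exp u : ℝ) : ℂ) * ps η γ δ (y * Real.exp u)) * ((g y : ℝ) : ℂ)) := by
  have hT0 : 0 < T := by linarith
  have hh : Measurable (fun y : ℝ => ((Real.exp u : ℝ) : ℂ) * ps η γ δ (y * Real.exp u)) :=
    measurable_const.mul ((ps_meas η γ δ).comp (measurable_id.mul_const _))
  -- integrability of the shifted function on intervals of positive numbers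
  have ih : ∀ a b : ℝ, 0 < a → 0 < b → IntervalIntegrable
      (fun y => (((Real.exp u : ℝ) : ℂ) * ps η γ δ (y * Real.exp u)) * ((g y : ℝ) : ℂ)) volume a b := by
    intro a b ha hb'
    refine fg_int g hm h0 C hC hb _ hh a b ((min a b * Real.exp |u|) ^ (-(1 / 3) : ℝ) * Real.exp |u|) fun y hy => ?_
    refine hu_le η γ δ (min a b * Real.exp |u|) u y (by positivity) ?_
    rw [mul_assoc, ← Real.exp_add, add_neg_cancel, Real.exp_zero, mul_one]
    exact hy.1.le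
  have ig : IntervalIntegrable (fun y => ps η γ δ y * ((g y : ℝ) : ℂ)) volume T (2 * T) := by
    refine fg_int g hm h0 C hC hb _ (ps_meas η γ δ) T (2 * T) 1 fun y hy => ?_
    rw [uIoc_of_le (by linarith)] at hy
    rw [ps_norm η γ δ (by linarith [hy.1])]
    exact Real.rpow_le_one_of_one_le_of_nonpos (by linarith [hy.1]) (by norm_num)
  -- substitution
  have hsub : ∫ x in T..(2 * T), ps η γ δ x * ((g (x * Real.exp (-u)) : ℝ) : ℂ) =
      ∫ y in (T * Real.exp (-u))..(2 * T * Real.exp (-u)),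
        (((Real.exp u : ℝ) : ℂ) * ps η γ δ (y * Real.exp u)) * ((g y : ℝ) : ℂ) := by
    have e1 := intervalIntegral.integral_comp_mul_right (a := T) (b := 2 * T)
      (f := fun y : ℝ => ps η γ δ (y * Real.exp u) * ((g y : ℝ) : ℂ)) (Real.exp_pos (-u)).ne'
    have e2 : (fun x : ℝ => ps η γ δ (x * Real.exp (-u) * Real.exp u) * ((g (x * Real.exp (-u)) : ℝ) : ℂ)) =
        fun x => ps η γ δ x * ((g (x * Real.exp (-u)) : ℝ) : ℂ) := by
      funext x
      rw [mul_assoc, ← Real.exp_add, neg_add_cancel, Real.exp_zero, mul_one]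
    rw [e2, Real.exp_neg, inv_inv, ← Real.exp_neg, Complex.real_smul, ← intervalIntegral.integral_const_mul] at e1
    rw [e1]
    congr 1
    funext y
    ring
  have hi2 : IntervalIntegrable (fun x => ps η γ δ x * ((g (x * Real.exp (-u)) : ℝ) : ℂ)) volume T (2 * T) := by
    have hm' : Measurable fun x : ℝ => g (x * Real.exp (-u)) := hm.comp (measurable_id.mul_const _)
    rw [intervalIntegrable_iff_integrableOn_Ioc_of_le (by linarith)]
    refine Measure.integrableOn_of_bounded (M := 1 * (C * (2 * T * Real.exp |u|) ^ ((3 : ℝ) / 2))) ?_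
      (((ps_meas η γ δ).mul hm'.complex_ofReal).aestronglyMeasurable) ?_
    · rw [Real.volume_Ioc]
      exact ENNReal.ofReal_ne_top
    · refine (ae_restrict_iff' measurableSet_Ioc).mpr (Eventually.of_forall fun x hx => ?_)
      rw [norm_mul, Complex.norm_real, Real.norm_eq_abs]
      have e1 : Real.exp (-u) ≤ Real.exp |u| := Real.exp_le_exp.mpr (neg_le_abs u)
      have e2 : 1 ≤ Real.exp |u| := Real.one_le_exp (abs_nonneg u)
      refine mul_le_mul ?_ (g_bdd g h0 C hC hb _ (by nlinarith) _ ?_) (abs_nonneg _) zero_le_one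
      · rw [ps_norm η γ δ (by linarith [hx.1])]
        exact Real.rpow_le_one_of_one_le_of_nonpos (by linarith [hx.1]) (by norm_num)
      · exact mul_le_mul hx.2 e1 (Real.exp_pos _).le (by linarith)
  have hi3 := ih T (2 * T) hT0 (by linarith)
  have hspl : Dd g η γ δ T u = (∫ y in T..(2 * T), ps η γ δ y * ((g y : ℝ) : ℂ)) -
      ∫ x in T..(2 * T), ps η γ δ x * ((g (x * Real.exp (-u)) : ℝ) : ℂ) := by
    rw [← intervalIntegral.integral_sub ig hi2]
    unfold Dd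
    congr 1
    funext x
    push_cast
    ring
  have hspl2 : (∫ y in T..(2 * T), (ps η γ δ y - ((Real.exp u : ℝ) : ℂ) * ps η γ δ (y * Real.exp u)) *
      ((g y : ℝ) : ℂ)) = (∫ y in T..(2 * T), ps η γ δ y * ((g y : ℝ) : ℂ)) -
      ∫ y in T..(2 * T), (((Real.exp u : ℝ) : ℂ) * ps η γ δ (y * Real.exp u)) * ((g y : ℝ) : ℂ) := by
    rw [← intervalIntegral.integral_sub ig hi3]
    congr 1
    funext x
    ring
  rw [hspl, hsub, hspl2, ← intervalIntegral.integral_interval_sub_interval_comm hi3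
    (ih _ _ (by positivity) (by positivity)) (ih _ _ hT0 (by positivity))]
  ring

include hm h0 hC hb h2 in
theorem Dd_le (η γ δ T u mu : ℝ) (hT : 1 ≤ T) (hmu : 0 < mu) : ‖Dd g η γ δ T u‖ ≤
    2 * (1 + |η| + |γ| + |δ|) * (4 * (C + C ^ 2) + 1) * T ^ (3 / 2 : ℝ) * (|u| * Real.exp (3 * |u|)) +
      T * (8 * (C + C ^ 2) * mu * Real.exp (3 * |u|) + 3 / mu * (|u| * Real.exp (3 * |u|))) := by
  have hT0 : 0 < T := by linarith
  obtain ⟨G, hG⟩ : ∃ G, G = C + C ^ 2 := ⟨_, rfl⟩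
  obtain ⟨K, hK⟩ : ∃ K, K = 1 + |η| + |γ| + |δ| := ⟨_, rfl⟩
  have hG0 : 0 ≤ G := by rw [hG]; positivity
  have hK0 : 0 ≤ K := by rw [hK]; positivity
  have hE := Real.exp_pos |u|
  have hE1 : 1 ≤ Real.exp |u| := Real.one_le_exp (abs_nonneg u)
  obtain ⟨r, hr⟩ : ∃ r, r = T ^ (1 / 6 : ℝ) := ⟨_, rfl⟩
  have hr1 : 1 ≤ r := by rw [hr]; exact Real.one_le_rpow hT (by norm_num)
  have hr0 : 0 < r := by linarith
  have pw : ∀ n : ℕ, T ^ ((n : ℝ) / 6) = r ^ n := by
    intro n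
    rw [hr, ← Real.rpow_natCast, ← Real.rpow_mul hT0.le]
    congr 1
    ring
  have p6 : T = r ^ 6 := by
    rw [← pw 6]
    norm_num
  have p10 : T ^ ((5 : ℝ) / 3) = r ^ 10 := by
    rw [← pw 10]
    norm_num
  have p9 : T ^ ((3 : ℝ) / 2) = r ^ 9 := by
    rw [← pw 9]
    norm_num
  have pm : T ^ (-(1 / 3) : ℝ) = (r ^ 2)⁻¹ := by
    rw [← pw 2, ← Real.rpow_neg hT0.le]
    norm_num
  have two : (2 : ℝ) ^ ((5 : ℝ) / 3) ≤ 4 := by
    calc (2 : ℝ) ^ ((5 : ℝ) / 3) ≤ 2 ^ (2 : ℝ) := Real.rpow_le_rpow_of_exponent_le (by norm_num) (by norm_num)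
      _ = 4 := by norm_num
  have two6 : (2 : ℝ) ^ (1 / 6 : ℝ) ≤ 2 := by
    calc (2 : ℝ) ^ (1 / 6 : ℝ) ≤ 2 ^ (1 : ℝ) := Real.rpow_le_rpow_of_exponent_le (by norm_num) (by norm_num)
      _ = 2 := by norm_num
  rw [Dd_eq g hm h0 C hC hb η γ δ T u hT]
  -- first part
  have f1 : ‖∫ y in T..(2 * T), (ps η γ δ y - ((Real.exp u : ℝ) : ℂ) * ps η γ δ (y * Real.exp u)) * ((g y : ℝ) : ℂ)‖ ≤
      2 * K * (4 * G + 1) * r ^ 9 * (|u| * Real.exp (2 * |u|)) := by
    have e := edge g hm h0 C hC hb h2 T (2 * T) (2 * T) (K * |u| * (2 * T) ^ (1 / 6 : ℝ) * Real.exp (2 * |u|))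
      ((r ^ 2)⁻¹) hT0.le (by linarith) (by linarith) le_rfl (by linarith) (by positivity) (by positivity)
      (fun y => ps η γ δ y - ((Real.exp u : ℝ) : ℂ) * ps η γ δ (y * Real.exp u)) (fun y hy => by
        rw [uIoc_of_le (by linarith)] at hy
        refine (ps_diff η γ δ y u (by linarith [hy.1])).trans ?_
        rw [← hK]
        have : y ^ (1 / 6 : ℝ) ≤ (2 * T) ^ (1 / 6 : ℝ) :=
          Real.rpow_le_rpow (by linarith [hy.1]) hy.2 (by norm_num)
        gcongr)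
    refine e.trans ?_
    rw [← hG, Real.mul_rpow (by norm_num) hT0.le, Real.mul_rpow (by norm_num) hT0.le, p10, ← hr]
    have a1 : |2 * T - T| = r ^ 6 := by
      rw [show 2 * T - T = T by ring, abs_of_pos hT0]
      exact p6
    rw [a1]
    have a2 : (r ^ 2)⁻¹ * (G * (2 ^ ((5 : ℝ) / 3) * r ^ 10)) + r ^ 6 / (r ^ 2)⁻¹ =
        (2 ^ ((5 : ℝ) / 3) * G + 1) * r ^ 8 := by
      field_simp
    rw [a2]
    have a3 : (2 ^ ((5 : ℝ) / 3) * G + 1) ≤ 4 * G + 1 := by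
      have := mul_le_mul_of_nonneg_right two hG0
      linarith
    have a4 : K * |u| * (2 ^ (1 / 6 : ℝ) * r) * Real.exp (2 * |u|) ≤ K * |u| * (2 * r) * Real.exp (2 * |u|) := by
      gcongr
    calc K * |u| * (2 ^ (1 / 6 : ℝ) * r) * Real.exp (2 * |u|) * ((2 ^ ((5 : ℝ) / 3) * G + 1) * r ^ 8)
        ≤ K * |u| * (2 * r) * Real.exp (2 * |u|) * ((4 * G + 1) * r ^ 8) := by gcongr
      _ = _ := by ring
  -- edges
  have hXeq : (2 * T * Real.exp |u|) ^ ((5 : ℝ) / 3) ≤ 4 * r ^ 10 * Real.exp (2 * |u|) := by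
    rw [Real.mul_rpow (by positivity) hE.le, Real.mul_rpow (by norm_num) hT0.le, p10, ← Real.exp_mul]
    have := abs_nonneg u
    have e1 : Real.exp (|u| * (5 / 3)) ≤ Real.exp (2 * |u|) := Real.exp_le_exp.mpr (by linarith)
    gcongr
  have hT'1 : T * Real.exp (-u) ≤ T * Real.exp |u| :=
    mul_le_mul_of_nonneg_left (Real.exp_le_exp.mpr (neg_le_abs u)) hT0.le
  have hT'2 : T * Real.exp (-|u|) ≤ T * Real.exp (-u) :=
    mul_le_mul_of_nonneg_left (Real.exp_le_exp.mpr (neg_le_neg (le_abs_self u))) hT0.le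
  have hTE : T ≤ T * Real.exp |u| := le_mul_of_one_le_right hT0.le hE1
  have hTE' : T * Real.exp (-|u|) ≤ T :=
    mul_le_of_le_one_right hT0.le (Real.exp_le_one_iff.mpr (by linarith [abs_nonneg u]))
  have hepos := Real.exp_pos (-u)
  have eg : ∀ k : ℝ, 1 ≤ k → k ≤ 2 →
      ‖∫ y in (k * T)..(k * T * Real.exp (-u)), (((Real.exp u : ℝ) : ℂ) * ps η γ δ (y * Real.exp u)) *
        ((g y : ℝ) : ℂ)‖ ≤ r ^ 6 * (4 * G * mu * Real.exp (3 * |u|) + k / mu * (|u| * Real.exp (3 * |u|))) := by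
    intro k hk1 hk2
    have hkT : 0 < k * T := by positivity
    have e := edge g hm h0 C hC hb h2 (k * T) (k * T * Real.exp (-u)) (2 * T * Real.exp |u|)
      (T ^ (-(1 / 3) : ℝ) * Real.exp |u|) ((r ^ 2)⁻¹ * mu) hkT.le (by positivity) (by nlinarith)
      (by nlinarith) (by nlinarith) (by positivity) (by positivity)
      (fun y => ((Real.exp u : ℝ) : ℂ) * ps η γ δ (y * Real.exp u)) (fun y hy => by
        refine hu_le η γ δ T u y hT0 ?_
        have h5 := hy.1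
        have h6 : T * Real.exp (-|u|) ≤ min (k * T) (k * T * Real.exp (-u)) := by
          refine le_min ?_ ?_
          · nlinarith
          · have h8 : T * Real.exp (-u) ≤ k * (T * Real.exp (-u)) := le_mul_of_one_le_left (by positivity) hk1
            linarith
        exact h6.trans h5.le)
    refine e.trans ?_
    rw [← hG, pm]
    have a1 : |k * T * Real.exp (-u) - k * T| ≤ k * r ^ 6 * (|u| * Real.exp |u|) := by
      have h7 : k * T * Real.exp (-u) - k * T = k * T * (Real.exp (-u) - 1) := by ring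
      rw [h7, abs_mul, abs_of_pos hkT, ← p6]
      exact mul_le_mul_of_nonneg_left (exp_sub_one_le u) hkT.le
    have a2 : (r ^ 2)⁻¹ * Real.exp |u| * ((r ^ 2)⁻¹ * mu * (G * (4 * r ^ 10 * Real.exp (2 * |u|))) +
        k * r ^ 6 * (|u| * Real.exp |u|) / ((r ^ 2)⁻¹ * mu)) =
        r ^ 6 * (4 * G * mu * (Real.exp |u| * Real.exp (2 * |u|)) +
          k / mu * (|u| * (Real.exp |u| * Real.exp |u|))) := by
      field_simp
    have a3 : (r ^ 2)⁻¹ * Real.exp |u| * ((r ^ 2)⁻¹ * mu * (G * (2 * T * Real.exp |u|) ^ ((5 : ℝ) / 3)) +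
        |k * T * Real.exp (-u) - k * T| / ((r ^ 2)⁻¹ * mu)) ≤
        (r ^ 2)⁻¹ * Real.exp |u| * ((r ^ 2)⁻¹ * mu * (G * (4 * r ^ 10 * Real.exp (2 * |u|))) +
        k * r ^ 6 * (|u| * Real.exp |u|) / ((r ^ 2)⁻¹ * mu)) := by gcongr
    refine a3.trans ?_
    rw [a2, ← Real.exp_add, ← Real.exp_add]
    have b1 : Real.exp (|u| + 2 * |u|) = Real.exp (3 * |u|) := by
      congr 1
      ring
    have b2 : Real.exp (|u| + |u|) ≤ Real.exp (3 * |u|) := Real.exp_le_exp.mpr (by linarith [abs_nonneg u])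
    rw [b1]
    gcongr
  have g1 := eg 1 le_rfl (by norm_num)
  have g2 := eg 2 (by norm_num) le_rfl
  rw [one_mul] at g1
  have e23 : Real.exp (2 * |u|) ≤ Real.exp (3 * |u|) := Real.exp_le_exp.mpr (by linarith [abs_nonneg u])
  have f2 : 2 * K * (4 * G + 1) * r ^ 9 * (|u| * Real.exp (2 * |u|)) ≤
      2 * K * (4 * G + 1) * r ^ 9 * (|u| * Real.exp (3 * |u|)) := by gcongr
  rw [← hK, ← hG, p9]
  refine (norm_add_le _ _).trans ((add_le_add (f1.trans f2) ((norm_sub_le _ _).trans (add_le_add g1 g2))).trans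
    (le_of_eq ?_))
  rw [← p6]
  ring

end

end RWk

open RWk

theorem weak_rough (g : ℝ → ℝ) (hm : Measurable g) (h0 : ∀ x : ℝ, x < 1 → g x = 0)
    (hb : ∃ C : ℝ, 0 ≤ C ∧ ∀ x : ℝ, 1 ≤ x → |g x| ≤ C * x ^ ((3 : ℝ) / 2))
    (h2 : ∃ C : ℝ, 0 ≤ C ∧ ∀ T : ℝ, 1 ≤ T → ∫ x in T..(2 * T), (g x) ^ 2 ≤ C * T ^ ((5 : ℝ) / 3))
    (η γ δ ε : ℝ) (hε : 0 < ε) : ∃ T₀ : ℝ, 1 ≤ T₀ ∧ ∀ T : ℝ, T₀ ≤ T → ∀ W : ℝ, T ^ ((7 : ℝ) / 12) ≤ W →
      ‖∫ x in T..(2 * T), (((g x - sm W g x) / x ^ ((1 : ℝ) / 3) : ℝ) : ℂ) * E1 η γ δ x‖ ≤ ε * T := by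
  obtain ⟨C₁, hC₁, hb₁⟩ := hb
  obtain ⟨C₂, hC₂, h2₂⟩ := h2
  obtain ⟨C, hCd⟩ : ∃ C, C = C₁ + C₂ := ⟨_, rfl⟩
  have hC : 0 ≤ C := by rw [hCd]; positivity
  have hb : ∀ x : ℝ, 1 ≤ x → |g x| ≤ C * x ^ ((3 : ℝ) / 2) := fun x hx =>
    (hb₁ x hx).trans (mul_le_mul_of_nonneg_right (by rw [hCd]; linarith) (Real.rpow_nonneg (by linarith) _))
  have h2 : ∀ T : ℝ, 1 ≤ T → ∫ x in T..(2 * T), (g x) ^ 2 ≤ C * T ^ ((5 : ℝ) / 3) := fun T hT =>
    (h2₂ T hT).trans (mul_le_mul_of_nonneg_right (by rw [hCd]; linarith) (Real.rpow_nonneg (by linarith) _))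
  clear hb₁ h2₂
  obtain ⟨Ce, hCe, he⟩ := gW_exp 3 (by norm_num)
  obtain ⟨Cm, hCm, hmo⟩ := gW_moment 3 (by norm_num)
  obtain ⟨A, hA⟩ : ∃ A, A = 2 * (1 + |η| + |γ| + |δ|) * (4 * (C + C ^ 2) + 1) := ⟨_, rfl⟩
  have hA0 : 0 ≤ A := by rw [hA]; positivity
  obtain ⟨G, hG⟩ : ∃ G, G = C + C ^ 2 := ⟨_, rfl⟩
  have hG0 : 0 ≤ G := by rw [hG]; positivity
  obtain ⟨R, hR⟩ : ∃ R, R = A * Cm + 8 * G * Ce + 3 * Cm := ⟨_, rfl⟩
  have hR0 : 0 ≤ R := by rw [hR]; positivity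
  refine ⟨max 1 ((R / ε) ^ 12), le_max_left _ _, fun T hT W hW => ?_⟩
  have hT1 : 1 ≤ T := (le_max_left _ _).trans hT
  have hT0 : 0 < T := by linarith
  have hTR : (R / ε) ^ 12 ≤ T := (le_max_right _ _).trans hT
  have hW1 : 1 ≤ W := (Real.one_le_rpow hT1 (by norm_num)).trans hW
  have hW0 : 0 < W := by linarith
  have hgW := gW_nonneg hW0.le
  obtain ⟨hgi, hg1⟩ := gW_integral hW0
  obtain ⟨i1, b1⟩ := he W hW1
  obtain ⟨i2, b2⟩ := hmo W hW1
  -- pointwise bound of g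
  have hgb : ∀ x : ℝ, 1 ≤ x → x ≤ 2 * T → ∀ u : ℝ, |g x - g (x * Real.exp (-u))| ≤
      2 * (C * (2 * T) ^ ((3 : ℝ) / 2)) * Real.exp (3 * |u|) := by
    intro x hx1 hx2 u
    have e1 : Real.exp (-u) ≤ Real.exp |u| := Real.exp_le_exp.mpr (neg_le_abs u)
    have e2 : 1 ≤ Real.exp |u| := Real.one_le_exp (abs_nonneg u)
    have e3 : 2 * T ≤ 2 * T * Real.exp |u| := le_mul_of_one_le_right (by positivity) e2
    have g1 := g_bdd g h0 C hC hb (2 * T * Real.exp |u|) (by linarith) x (by linarith)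
    have g2 := g_bdd g h0 C hC hb (2 * T * Real.exp |u|) (by linarith) (x * Real.exp (-u))
      (mul_le_mul hx2 e1 (Real.exp_pos _).le (by linarith))
    have e4 : (2 * T * Real.exp |u|) ^ ((3 : ℝ) / 2) ≤ (2 * T) ^ ((3 : ℝ) / 2) * Real.exp (3 * |u|) := by
      rw [Real.mul_rpow (by positivity) (Real.exp_pos _).le, ← Real.exp_mul]
      have := abs_nonneg u
      have e5 : Real.exp (|u| * (3 / 2)) ≤ Real.exp (3 * |u|) := Real.exp_le_exp.mpr (by linarith)
      gcongr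
    have e6 := mul_le_mul_of_nonneg_left e4 hC
    have e7 := abs_sub (g x) (g (x * Real.exp (-u)))
    linarith
  have hms : Measurable (fun p : ℝ × ℝ => g (p.1 * Real.exp (-p.2))) := hm.comp (by fun_prop)
  -- the smoothing as one integral
  have hsm : ∀ x : ℝ, 1 ≤ x → x ≤ 2 * T → ∫ u : ℝ, (g x - g (x * Real.exp (-u))) * gW W u = g x - sm W g x := by
    intro x hx1 hx2
    have k1 : Integrable fun u : ℝ => g x * gW W u := hgi.const_mul _
    have k3 : Integrable fun u : ℝ => (g x - g (x * Real.exp (-u))) * gW W u := by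
      refine (i1.const_mul (2 * (C * (2 * T) ^ ((3 : ℝ) / 2)))).mono' ?_ (Eventually.of_forall fun u => ?_)
      · exact ((measurable_const.sub (hm.comp (by fun_prop))).mul (gW_continuous W).measurable).aestronglyMeasurable
      · rw [Real.norm_eq_abs, abs_mul, abs_of_nonneg (hgW u)]
        have := mul_le_mul_of_nonneg_right (hgb x hx1 hx2 u) (hgW u)
        linarith
    have k2 : Integrable fun u : ℝ => g (x * Real.exp (-u)) * gW W u := by
      have := k1.sub k3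
      refine this.congr (Eventually.of_forall fun u => ?_)
      show g x * gW W u - (g x - g (x * Real.exp (-u))) * gW W u = g (x * Real.exp (-u)) * gW W u
      ring
    unfold sm
    have k4 : ∫ u : ℝ, (g x - g (x * Real.exp (-u))) * gW W u =
        ∫ u : ℝ, (g x * gW W u - g (x * Real.exp (-u)) * gW W u) := by
      congr 1
      funext u
      ring
    rw [k4, integral_sub k1 k2, integral_const_mul, hg1, mul_one]
  -- Fubini
  obtain ⟨f, hf⟩ : ∃ f : ℝ → ℝ → ℂ, f = fun x u =>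
    ps η γ δ x * (((g x - g (x * Real.exp (-u))) * gW W u : ℝ) : ℂ) := ⟨_, rfl⟩
  have hfint : Integrable (Function.uncurry f) ((volume.restrict (Ioc T (2 * T))).prod volume) := by
    have hdom := (i1.const_mul (2 * (C * (2 * T) ^ ((3 : ℝ) / 2)))).comp_snd (volume.restrict (Ioc T (2 * T)))
    refine hdom.mono' ?_ ?_
    · rw [hf]
      have e1 : Measurable (fun p : ℝ × ℝ => (((g p.1 - g (p.1 * Real.exp (-p.2))) * gW W p.2 : ℝ) : ℂ)) :=
        (((hm.comp measurable_fst).sub hms).mul ((gW_continuous W).measurable.comp measurable_snd)).complex_ofReal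
      exact (((ps_meas η γ δ).comp measurable_fst).mul e1).aestronglyMeasurable
    · have hae : ∀ᵐ x ∂(volume.restrict (Ioc T (2 * T))), x ∈ Ioc T (2 * T) := ae_restrict_mem measurableSet_Ioc
      filter_upwards [Measure.quasiMeasurePreserving_fst.ae hae] with p hp
      rw [hf]
      show ‖ps η γ δ p.1 * (((g p.1 - g (p.1 * Real.exp (-p.2))) * gW W p.2 : ℝ) : ℂ)‖ ≤ _
      have hp1 : T < p.1 := hp.1
      rw [norm_mul, ps_norm η γ δ (by linarith), Complex.norm_real, Real.norm_eq_abs, abs_mul,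
        abs_of_nonneg (hgW p.2)]
      have q1 : p.1 ^ (-(1 / 3) : ℝ) ≤ 1 := Real.rpow_le_one_of_one_le_of_nonpos (by linarith) (by norm_num)
      have q2 := mul_le_mul_of_nonneg_right (hgb p.1 (by linarith) hp.2 p.2) (hgW p.2)
      have q3 : 0 ≤ |g p.1 - g (p.1 * Real.exp (-p.2))| * gW W p.2 := mul_nonneg (abs_nonneg _) (hgW _)
      calc p.1 ^ (-(1 / 3) : ℝ) * (|g p.1 - g (p.1 * Real.exp (-p.2))| * gW W p.2)
          ≤ 1 * (|g p.1 - g (p.1 * Real.exp (-p.2))| * gW W p.2) := mul_le_mul_of_nonneg_right q1 q3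
        _ ≤ _ := by linarith
  have hswap := integral_integral_swap hfint
  have hL : ∫ x in T..(2 * T), (((g x - sm W g x) / x ^ ((1 : ℝ) / 3) : ℝ) : ℂ) * E1 η γ δ x =
      ∫ x in Ioc T (2 * T), ∫ u : ℝ, f x u := by
    rw [intervalIntegral.integral_of_le (by linarith)]
    refine setIntegral_congr_fun measurableSet_Ioc fun x hx => ?_
    have hx1 : 1 ≤ x := by linarith [hx.1]
    show (((g x - sm W g x) / x ^ ((1 : ℝ) / 3) : ℝ) : ℂ) * E1 η γ δ x = ∫ u : ℝ, f x u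
    rw [hf, ← hsm x hx1 hx.2]
    show _ = ∫ u : ℝ, ps η γ δ x * (((g x - g (x * Real.exp (-u))) * gW W u : ℝ) : ℂ)
    have hre : ∫ u : ℝ, (((g x - g (x * Real.exp (-u))) * gW W u : ℝ) : ℂ) =
        ((∫ u : ℝ, (g x - g (x * Real.exp (-u))) * gW W u : ℝ) : ℂ) := integral_complex_ofReal
    rw [integral_const_mul, hre]
    unfold ps
    rw [Real.rpow_neg (by linarith)]
    push_cast
    ring
  have hD : ∀ u : ℝ, ∫ x in Ioc T (2 * T), f x u = Dd g η γ δ T u * ((gW W u : ℝ) : ℂ) := by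
    intro u
    rw [hf, ← intervalIntegral.integral_of_le (by linarith)]
    unfold Dd
    rw [← intervalIntegral.integral_mul_const]
    congr 1
    funext x
    push_cast
    ring
  rw [hL, hswap]
  simp_rw [hD]
  -- final estimate
  obtain ⟨mu, hmu⟩ : ∃ mu, mu = (Real.sqrt W)⁻¹ := ⟨_, rfl⟩
  have hsW : 0 < Real.sqrt W := Real.sqrt_pos.mpr hW0
  have hmu0 : 0 < mu := by rw [hmu]; positivity
  have hdom : Integrable fun u : ℝ => A * T ^ (3 / 2 : ℝ) * (gW W u * (|u| * Real.exp (3 * |u|))) +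
      (T * (8 * G * mu) * (gW W u * Real.exp (3 * |u|)) + T * (3 / mu) * (gW W u * (|u| * Real.exp (3 * |u|)))) :=
    (i2.const_mul _).add ((i1.const_mul _).add (i2.const_mul _))
  refine (norm_integral_le_of_norm_le hdom (Eventually.of_forall fun u => ?_)).trans ?_
  · rw [norm_mul, Complex.norm_real, Real.norm_eq_abs, abs_of_nonneg (hgW u)]
    have e1 := Dd_le g hm h0 C hC hb h2 η γ δ T u mu hT1 hmu0
    rw [← hA, ← hG] at e1
    have e2 := mul_le_mul_of_nonneg_right e1 (hgW u)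
    refine e2.trans (le_of_eq ?_)
    ring
  · have hs : Integrable (fun u : ℝ => T * (8 * G * mu) * (gW W u * Real.exp (3 * |u|)) +
        T * (3 / mu) * (gW W u * (|u| * Real.exp (3 * |u|)))) := (i1.const_mul _).add (i2.const_mul _)
    rw [integral_add (i2.const_mul _) hs,
      integral_add (i1.const_mul _) (i2.const_mul _), integral_const_mul, integral_const_mul, integral_const_mul]
    have hTp : 0 ≤ T ^ (3 / 2 : ℝ) := by positivity
    have c1 : A * T ^ (3 / 2 : ℝ) * ∫ u : ℝ, gW W u * (|u| * Real.exp (3 * |u|)) ≤ A * T ^ (3 / 2 : ℝ) * (Cm / W) :=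
      mul_le_mul_of_nonneg_left b2 (by positivity)
    have c2 : T * (8 * G * mu) * ∫ u : ℝ, gW W u * Real.exp (3 * |u|) ≤ T * (8 * G * mu) * Ce :=
      mul_le_mul_of_nonneg_left b1 (by positivity)
    have c3 : T * (3 / mu) * ∫ u : ℝ, gW W u * (|u| * Real.exp (3 * |u|)) ≤ T * (3 / mu) * (Cm / W) :=
      mul_le_mul_of_nonneg_left b2 (by positivity)
    have hWs : W = Real.sqrt W * Real.sqrt W := (Real.mul_self_sqrt hW0.le).symm
    have c4 : 3 / mu * (Cm / W) = 3 * Cm * mu := by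
      rw [hmu]
      obtain ⟨s, hs'⟩ : ∃ s, s = Real.sqrt W := ⟨_, rfl⟩
      rw [← hs'] at hWs hsW ⊢
      rw [hWs]
      field_simp
    -- powers of T
    obtain ⟨t, ht⟩ : ∃ t, t = T ^ (1 / 12 : ℝ) := ⟨_, rfl⟩
    have ht1 : 1 ≤ t := by rw [ht]; exact Real.one_le_rpow hT1 (by norm_num)
    have ht0 : 0 < t := by linarith
    have pw : ∀ n : ℕ, T ^ ((n : ℝ) / 12) = t ^ n := by
      intro n
      rw [ht, ← Real.rpow_natCast, ← Real.rpow_mul hT0.le]
      congr 1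
      ring
    have p12 : T = t ^ 12 := by
      rw [← pw 12]
      norm_num
    have p18 : T ^ (3 / 2 : ℝ) = t ^ 18 := by
      rw [← pw 18]
      norm_num
    have p7 : T ^ ((7 : ℝ) / 12) = t ^ 7 := by
      rw [← pw 7]
      norm_num
    have hW7 : t ^ 7 ≤ W := by rw [← p7]; exact hW
    have hRt : R ≤ ε * t := by
      have h3 : (R / ε) ^ 12 ≤ t ^ 12 := by rw [← p12]; exact hTR
      have h4 : R / ε ≤ t := by
        by_contra hcon
        push Not at hcon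
        exact absurd h3 (not_le.mpr (pow_lt_pow_left₀ hcon ht0.le (by norm_num)))
      rw [div_le_iff₀ hε] at h4
      linarith
    have hmt : mu ≤ t⁻¹ := by
      rw [hmu]
      apply inv_anti₀ ht0
      apply Real.le_sqrt_of_sq_le
      calc t ^ 2 ≤ t ^ 7 := pow_le_pow_right₀ ht1 (by norm_num)
        _ ≤ W := hW7
    have hTW : T ^ (3 / 2 : ℝ) * (Cm / W) ≤ T * t⁻¹ * Cm := by
      rw [p18]
      nth_rewrite 1 [p12]
      have : t ^ 18 * (Cm / W) ≤ t ^ 18 * (Cm / t ^ 7) := by gcongr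
      refine this.trans (le_of_eq ?_)
      field_simp
    have d1 : A * T ^ (3 / 2 : ℝ) * (Cm / W) ≤ A * (T * t⁻¹ * Cm) := by
      rw [mul_assoc]
      exact mul_le_mul_of_nonneg_left hTW hA0
    have d2 : T * (8 * G * mu) * Ce ≤ T * (8 * G * t⁻¹) * Ce := by gcongr
    have d3 : T * (3 / mu) * (Cm / W) ≤ T * (3 * Cm * t⁻¹) := by
      rw [mul_assoc, c4]
      gcongr
    have d4 : A * (T * t⁻¹ * Cm) + (T * (8 * G * t⁻¹) * Ce + T * (3 * Cm * t⁻¹)) = T * t⁻¹ * R := by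
      rw [hR]
      ring
    have d5 : T * t⁻¹ * R ≤ ε * T := by
      calc T * t⁻¹ * R ≤ T * t⁻¹ * (ε * t) := by gcongr
        _ = ε * T := by field_simp
    linarith

end Pool.Agent.H15.SC
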