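import Pool.Agent.H15.SC.Final
import Pool.Agent.H15.SC.RMsq
import Pool.Agent.H15.SC.RClose
import Pool.Agent.H15.SC.RWeak
import Pool.Agent.H15.SC.RSign

/-!
# The second theorem: `F₂` of degree 3 with coefficients bounded in mean square  (project SC, MP_be4568_nt)
-/

set_option autoImplicit false

open Complex Filter Topology MeasureTheory Set

namespace Pool.Agent.H15.SC

theorem rf_int {F : ℝ → ℝ} (hm : Measurable F) {T B : ℝ} (hT : 1 ≤ T) (hB : ∀ x ∈ Icc T (2 * T), |F x| ≤ B) :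
    IntervalIntegrable (fun x => F x ^ 2) volume T (2 * T) := by
  have h : BM T F := ⟨hm, B, hB⟩
  exact h.sq.int hT

theorem rf_div {F : ℝ → ℝ} (hm : Measurable F) {T B : ℝ} (hT : 1 ≤ T) (hB : ∀ x ∈ Icc T (2 * T), |F x| ≤ B) :
    ∫ x in T..(2 * T), (F x / x ^ ((1 : ℝ) / 3)) ^ 2 ≤ T ^ (-(2 : ℝ) / 3) * ∫ x in T..(2 * T), F x ^ 2 := by
  have hT0 : 0 < T := by linarith
  have hp : ∀ x ∈ Icc T (2 * T), 1 ≤ x ^ ((1 : ℝ) / 3) := fun x hx =>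
    Real.one_le_rpow (hT.trans hx.1) (by norm_num)
  have hB' : ∀ x ∈ Icc T (2 * T), |F x / x ^ ((1 : ℝ) / 3)| ≤ B := by
    intro x hx
    have h1 := hp x hx
    rw [abs_div, abs_of_pos (by linarith : 0 < x ^ ((1 : ℝ) / 3))]
    exact (div_le_self (abs_nonneg _) h1).trans (hB x hx)
  have hm' : Measurable fun x : ℝ => F x / x ^ ((1 : ℝ) / 3) := hm.div (measurable_id.pow_const _)
  rw [← intervalIntegral.integral_const_mul]
  refine intervalIntegral.integral_mono_on (by linarith) (rf_int hm' hT hB') ((rf_int hm hT hB).const_mul _) ?_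
  intro x hx
  have hx0 : 0 < x := by linarith [hx.1]
  rw [div_pow, div_eq_inv_mul]
  refine mul_le_mul_of_nonneg_right ?_ (sq_nonneg _)
  have e1 : (x ^ ((1 : ℝ) / 3)) ^ 2 = x ^ ((2 : ℝ) / 3) := by
    rw [← Real.rpow_natCast, ← Real.rpow_mul hx0.le]
    norm_num
  rw [e1, show (-(2 : ℝ) / 3) = -((2 : ℝ) / 3) by norm_num, Real.rpow_neg hT0.le]
  exact inv_anti₀ (Real.rpow_pos_of_pos hT0 _) (Real.rpow_le_rpow hT0.le hx.1 (by norm_num))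

/-- the smoothed error term is bounded on compact intervals -/
theorem rf_sm_bdd {D : SelData} (P : Core D) {W : ℝ} (hW : 1 ≤ W) (T : ℝ) (hT : 1 ≤ T) :
    ∃ B : ℝ, ∀ x ∈ Icc T (2 * T), |sm W D.Ep x| ≤ B := by
  obtain ⟨C, hC, hE⟩ := smo_Ep_bound P
  obtain ⟨C', hC', hg⟩ := gW_exp (3/2) (by norm_num)
  obtain ⟨hi, hb⟩ := hg W hW
  refine ⟨C * (2 * T) ^ ((3 : ℝ) / 2) * C', fun x hx => ?_⟩
  have hx0 : 0 < x := by linarith [hx.1]
  unfold sm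
  have h1 : ∀ u : ℝ, ‖D.Ep (x * Real.exp (-u)) * gW W u‖ ≤
      C * (2 * T) ^ ((3 : ℝ) / 2) * (gW W u * Real.exp (3/2 * |u|)) := by
    intro u
    have hg0 : 0 ≤ gW W u := gW_nonneg (by linarith) u
    rw [Real.norm_eq_abs, abs_mul, abs_of_nonneg hg0]
    have h2 := hE (x * Real.exp (-u)) (by positivity)
    have h3 : (x * Real.exp (-u)) ^ ((3 : ℝ) / 2) ≤ (2 * T) ^ ((3 : ℝ) / 2) * Real.exp (3/2 * |u|) := by
      rw [Real.mul_rpow hx0.le (Real.exp_pos _).le, ← Real.exp_mul]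
      refine mul_le_mul (Real.rpow_le_rpow hx0.le hx.2 (by norm_num)) ?_ (Real.exp_pos _).le (by positivity)
      refine Real.exp_le_exp.2 ?_
      have := neg_abs_le u
      linarith
    calc |D.Ep (x * Real.exp (-u))| * gW W u ≤ (C * (x * Real.exp (-u)) ^ ((3 : ℝ) / 2)) * gW W u :=
          mul_le_mul_of_nonneg_right h2 hg0
      _ ≤ (C * ((2 * T) ^ ((3 : ℝ) / 2) * Real.exp (3/2 * |u|))) * gW W u :=
          mul_le_mul_of_nonneg_right (mul_le_mul_of_nonneg_left h3 hC) hg0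
      _ = _ := by ring
  have h4 := norm_integral_le_of_norm_le (hi.const_mul (C * (2 * T) ^ ((3 : ℝ) / 2))) (Filter.Eventually.of_forall h1)
  rw [Real.norm_eq_abs, integral_const_mul] at h4
  exact h4.trans (mul_le_mul_of_nonneg_left hb (by positivity))

/-- SECOND MAIN THEOREM -/
theorem propA_rs {D₁ D₂ : SelData} (h₁ : IsSel D₁ 2) (h₂ : IsSel D₂ 3) (hR : RS D₂)
    (δ : ℝ) (hδ0 : 0 < δ) (hδ1 : δ < 1/3) :
    PropA (fun x => D₁.E x * D₂.E x) (7/12) δ := by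
  have h₁' : IsSel D₁ ((2 : ℕ) : ℝ) := by exact_mod_cast h₁
  have h₂' : IsSel D₂ ((3 : ℕ) : ℝ) := by exact_mod_cast h₂
  obtain ⟨P⟩ := exists_core h₂'
  obtain ⟨O⟩ := exists_osc (d := 3) (by norm_num) h₂'
  have hM₁ : Mom D₁ (1 + 1/24) := mom_two h₁ (1/24) (by norm_num)
  obtain ⟨η₂, c₂, b₂, hc₂, hb₂, hA₂⟩ := nG_approx (Or.inl rfl) h₁' (by norm_num) (by norm_num) hM₁
  -- the index of the smoothing
  have hJ : ∀ T : ℝ, ∃ J : ℕ, 1 ≤ T → T ^ ((7 : ℝ) / 12) ≤ (2 : ℝ) ^ J ∧ (2 : ℝ) ^ J ≤ 2 * T ^ ((7 : ℝ) / 12) ∧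
      ((1 : ℝ) + J) ^ 2 ≤ (2 + 16 * ((7 : ℝ) / 12)) ^ 2 * T ^ ((1 : ℝ) / 4) := by
    intro T
    by_cases hT : 1 ≤ T
    · obtain ⟨J, hJ⟩ := Vthm_J hT (w := (7 : ℝ) / 12) (by norm_num)
      exact ⟨J, fun _ => hJ⟩
    · exact ⟨0, fun h => absurd h hT⟩
  choose J hJ using hJ
  set b₃ : ℕ → ℂ := fun n => O.κ * ((D₂.f n / n : ℝ) : ℂ) * (n : ℂ) ^ (bet 3 O.η) with hb₃
  have hb₃1 : b₃ 1 ≠ 0 := by simpa [hb₃, h₂.one] using O.κ_ne
  have hW : ∀ T : ℝ, (1 : ℝ) ≤ 2 ^ J T := fun T => one_le_pow₀ (by norm_num)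
  have e3 : (((3 : ℕ) : ℝ) - 1) / (2 * ((3 : ℕ) : ℝ)) = 1/3 := by norm_num
  have e2 : (((2 : ℕ) : ℝ) - 1) / (2 * ((2 : ℕ) : ℝ)) = 1/4 := by norm_num
  have n3 : nG D₂ 3 = fun x => D₂.Ep x / x ^ ((1 : ℝ)/3) := by
    funext x
    unfold nG
    rw [e3]
  have n2 : nG D₁ 2 = fun x => D₁.Ep x / x ^ ((1 : ℝ)/4) := by
    funext x
    unfold nG
    rw [e2]
  -- bounds on `[T, 2T]`
  have hEb : ∀ T : ℝ, 1 ≤ T → ∃ B : ℝ, ∀ x ∈ Icc T (2 * T), |D₂.Ep x| ≤ B := by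
    intro T hT
    obtain ⟨C, hC, hE⟩ := smo_Ep_bound P
    refine ⟨C * (2 * T) ^ ((3 : ℝ) / 2), fun x hx => ?_⟩
    have hx0 : 0 < x := by linarith [hx.1]
    exact (hE x hx0).trans (mul_le_mul_of_nonneg_left (Real.rpow_le_rpow hx0.le hx.2 (by norm_num)) hC)
  obtain ⟨Cm, hCm, hmsq⟩ := msq_rs h₂' P hR
  have hL : ∃ C T₁ : ℝ, 1 ≤ T₁ ∧ ∀ T : ℝ, T₁ ≤ T → ∫ x in T..(2 * T), nG D₂ 3 x ^ 2 ≤ C * T := by
    refine ⟨Cm, 1, le_refl _, fun T hT => ?_⟩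
    have hT0 : 0 < T := by linarith
    obtain ⟨B, hB⟩ := hEb T hT
    rw [n3]
    refine (rf_div P.E_meas hT hB).trans ?_
    calc T ^ (-(2 : ℝ) / 3) * ∫ x in T..(2 * T), D₂.Ep x ^ 2
        ≤ T ^ (-(2 : ℝ) / 3) * (Cm * T ^ ((5 : ℝ) / 3)) :=
          mul_le_mul_of_nonneg_left (hmsq T hT).2 (Real.rpow_nonneg hT0.le _)
      _ = Cm * (T ^ (-(2 : ℝ) / 3) * T ^ ((5 : ℝ) / 3)) := by ring
      _ = Cm * T := by
        rw [← Real.rpow_add hT0]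
        norm_num
  set Gs : ℝ → ℝ → ℝ := fun T x => sm (2 ^ J T) D₂.Ep x / x ^ ((1 : ℝ)/3) with hGs
  have hms : ∀ T : ℝ, Measurable (Gs T) := fun T => (Vthm_sm_meas P _).div (measurable_id.pow_const _)
  have hbs : ∀ T : ℝ, 1 ≤ T → ∃ B : ℝ, ∀ x ∈ Icc T (2 * T), |Gs T x| ≤ B := by
    intro T hT
    obtain ⟨B, hB⟩ := rf_sm_bdd P (hW T) T hT
    refine ⟨B, fun x hx => ?_⟩
    have h1 : 1 ≤ x ^ ((1 : ℝ) / 3) := Real.one_le_rpow (hT.trans hx.1) (by norm_num)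
    rw [hGs]
    simp only
    rw [abs_div, abs_of_pos (by linarith : 0 < x ^ ((1 : ℝ) / 3))]
    exact (div_le_self (abs_nonneg _) h1).trans (hB x hx)
  have h₃ : ∀ ε : ℝ, 0 < ε → ∃ N₀ : ℕ, ∀ N : ℕ, N₀ ≤ N → ∃ T₀ : ℝ, 1 ≤ T₀ ∧ ∀ T : ℝ, T₀ ≤ T →
      ∫ x in T..(2 * T), (Gs T x - TP 3 O.η O.c b₃ N x) ^ 2 ≤ ε * T := by
    intro ε hε
    obtain ⟨N₀, hN₀⟩ := close_smooth h₂' P O ε hε
    refine ⟨N₀, fun N hN => ?_⟩
    obtain ⟨T₀, hT₀, hcl⟩ := hN₀ N hN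
    refine ⟨T₀, hT₀, fun T hT => ?_⟩
    have hT1 : 1 ≤ T := hT₀.trans hT
    have hT0 : 0 < T := by linarith
    obtain ⟨j1, j2, j3⟩ := hJ T hT1
    obtain ⟨B, hB⟩ := rf_sm_bdd P (hW T) T hT1
    obtain ⟨B', _, hB'⟩ := TP_bdd 3 O.η O.c b₃ N
    -- the function trg, made measurable
    set tr : ℝ → ℝ := fun x => x ^ ((1 : ℝ)/3) * TP 3 O.η O.c b₃ N x with htr
    have htrm : Measurable tr := (measurable_id.pow_const _).mul (TP_meas 3 O.η O.c b₃ N)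
    have hFm : Measurable fun x => sm (2 ^ J T) D₂.Ep x - tr x := (Vthm_sm_meas P _).sub htrm
    have hFb : ∀ x ∈ Icc T (2 * T), |sm (2 ^ J T) D₂.Ep x - tr x| ≤ B + (2 * T) ^ ((1 : ℝ)/3) * B' := by
      intro x hx
      have hx0 : 0 < x := by linarith [hx.1]
      refine (abs_sub _ _).trans (add_le_add (hB x hx) ?_)
      rw [htr]
      simp only
      rw [abs_mul, abs_of_nonneg (Real.rpow_nonneg hx0.le _)]
      exact mul_le_mul (Real.rpow_le_rpow hx0.le hx.2 (by norm_num)) (hB' x) (abs_nonneg _)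
        (Real.rpow_nonneg (by linarith) _)
    have c1 : ∫ x in T..(2 * T), (Gs T x - TP 3 O.η O.c b₃ N x) ^ 2 =
        ∫ x in T..(2 * T), ((sm (2 ^ J T) D₂.Ep x - tr x) / x ^ ((1 : ℝ)/3)) ^ 2 := by
      refine intervalIntegral.integral_congr fun x hx => ?_
      rw [uIcc_of_le (by linarith)] at hx
      have hx0 : 0 < x := by linarith [hx.1]
      have hp : x ^ ((1 : ℝ)/3) ≠ 0 := (Real.rpow_pos_of_pos hx0 _).ne'
      rw [hGs, htr]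
      simp only
      congr 1
      field_simp
    have c2 : ∫ x in T..(2 * T), (sm (2 ^ J T) D₂.Ep x - tr x) ^ 2 =
        ∫ x in T..(2 * T), (sm (2 ^ J T) D₂.Ep x - trg D₂ O N x) ^ 2 := by
      refine intervalIntegral.integral_congr fun x hx => ?_
      rw [uIcc_of_le (by linarith)] at hx
      have hx0 : 0 < x := by linarith [hx.1]
      rw [htr]
      simp only
      rw [nrm_trg O N x hx0, e3]
    rw [c1]
    refine (rf_div hFm hT1 hFb).trans ?_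
    rw [c2]
    calc T ^ (-(2 : ℝ) / 3) * ∫ x in T..(2 * T), (sm (2 ^ J T) D₂.Ep x - trg D₂ O N x) ^ 2
        ≤ T ^ (-(2 : ℝ) / 3) * (ε * T ^ ((5 : ℝ) / 3)) :=
          mul_le_mul_of_nonneg_left (hcl T hT (J T) j1 j2 j3) (Real.rpow_nonneg hT0.le _)
      _ = ε * (T ^ (-(2 : ℝ) / 3) * T ^ ((5 : ℝ) / 3)) := by ring
      _ = ε * T := by
        rw [← Real.rpow_add hT0]
        norm_num
  have h₄ : ∀ η γ δ' ε : ℝ, 0 < ε → ∃ T₀ : ℝ, 1 ≤ T₀ ∧ ∀ T : ℝ, T₀ ≤ T →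
      ‖∫ x in T..(2 * T), ((nG D₂ 3 x - Gs T x : ℝ) : ℂ) * E1 η γ δ' x‖ ≤ ε * T := by
    intro η γ δ' ε hε
    obtain ⟨T₀, hT₀, hw⟩ := weak_rough D₂.Ep P.E_meas (fun x hx => by
        unfold SelData.Ep
        rw [if_neg (by linarith)]) (by
        obtain ⟨C, hC, hE⟩ := smo_Ep_bound P
        exact ⟨C, hC, fun x hx => hE x (by linarith)⟩) ⟨Cm, hCm, fun T hT => (hmsq T hT).2⟩ η γ δ' ε hε
    refine ⟨T₀, hT₀, fun T hT => ?_⟩
    have hT1 : 1 ≤ T := hT₀.trans hT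
    refine le_trans (le_of_eq ?_) (hw T hT (2 ^ J T) (hJ T hT1).1)
    congr 1
    refine intervalIntegral.integral_congr fun x hx => ?_
    rw [n3, hGs]
    simp only
    rw [sub_div]
  have hs := sign_pos_weak (nG D₁ 2) (nG D₂ 3) (nG_meas h₁') (nG_meas h₂') (nG_bdd h₁') (nG_bdd h₂')
    η₂ c₂ O.η O.c hc₂ O.c_pos b₂ b₃ hb₂ hb₃1 hA₂ hL Gs hms hbs h₃ h₄
  have s₁ := sup_E h₁' (a := 1 + 1/24) (by norm_num) (by norm_num) hM₁ (1/4) δ (by norm_num) (by norm_num)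
    (by norm_num) hδ0 (by linarith) (by linarith)
  have s₂ : ∃ ρ : ℝ, 0 < ρ ∧ ∃ T₀ : ℝ, 1 ≤ T₀ ∧ ∀ T : ℝ, T₀ ≤ T →
      volume {x : ℝ | x ∈ Icc T (2 * T) ∧ ∃ u ∈ Icc (0 : ℝ) (T ^ δ), T ^ ((1 : ℝ)/3 - ρ) < |D₂.Ep (x + u) - D₂.Ep x|} ≤
        ENNReal.ofReal (T ^ (1 - ρ)) := by
    set ρ : ℝ := (1/3 - δ) / 3 with hρ
    have hρ0 : 0 < ρ := by rw [hρ]; linarith
    obtain ⟨C, hC, hE⟩ := E_small h₂' ρ hρ0
    obtain ⟨T₀, hT₀, hp⟩ := Vthm_pow_small (p := δ + ρ) (q := 1/3 - ρ) (by rw [hρ]; linarith) (C * 2 * 2 ^ ρ) 1 one_pos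
    refine ⟨ρ, hρ0, T₀, hT₀, fun T hT => ?_⟩
    have hT1 : 1 ≤ T := hT₀.trans hT
    have hT0 : 0 < T := by linarith
    have hem : {x : ℝ | x ∈ Icc T (2 * T) ∧ ∃ u ∈ Icc (0 : ℝ) (T ^ δ),
        T ^ ((1 : ℝ)/3 - ρ) < |D₂.Ep (x + u) - D₂.Ep x|} = ∅ := by
      refine Set.eq_empty_of_forall_notMem ?_
      rintro x ⟨hx, u, hu, hlt⟩
      have hx0 : 0 < x := by linarith [hx.1]
      have hx1 : 1 ≤ x := hT1.trans hx.1
      have hTδ : T ^ δ ≤ T := by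
        calc T ^ δ ≤ T ^ (1 : ℝ) := Real.rpow_le_rpow_of_exponent_le hT1 (by linarith)
          _ = T := Real.rpow_one T
      have hT1δ : 1 ≤ T ^ δ := Real.one_le_rpow hT1 hδ0.le
      have hu1 : u ≤ x := hu.2.trans (hTδ.trans hx.1)
      rw [Ep_eq hx1, Ep_eq (by linarith [hu.1] : 1 ≤ x + u)] at hlt
      have h1 := hE x (x + u) hx1 (by linarith [hu.1]) (by linarith)
      have h2 : |D₂.E (x + u) - D₂.E x| ≤ C * 2 * 2 ^ ρ * T ^ (δ + ρ) := by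
        refine h1.trans ?_
        have h3 : 1 + (x + u - x) ≤ 2 * T ^ δ := by linarith [hu.2]
        have h4 : x ^ ρ ≤ 2 ^ ρ * T ^ ρ := by
          rw [← Real.mul_rpow (by norm_num) hT0.le]
          exact Real.rpow_le_rpow hx0.le hx.2 hρ0.le
        calc C * (1 + (x + u - x)) * x ^ ρ ≤ C * (2 * T ^ δ) * (2 ^ ρ * T ^ ρ) :=
              mul_le_mul (mul_le_mul_of_nonneg_left h3 hC) h4 (Real.rpow_nonneg hx0.le _) (by positivity)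
          _ = C * 2 * 2 ^ ρ * T ^ (δ + ρ) := by
              rw [Real.rpow_add hT0]
              ring
      have h5 := hp T hT
      rw [one_mul] at h5
      linarith
    rw [hem, measure_empty]
    exact zero_le
  rw [n2, n3] at hs
  have hP := propA_of D₁.Ep D₂.Ep (1/4) (1/3) (7/12) δ (by norm_num) (by norm_num) (by norm_num) (by norm_num)
    (by norm_num) (by linarith) hs s₁ s₂
  obtain ⟨c, C, T₀, hc, hC, hT₀, hP⟩ := hP
  refine ⟨c, C, max T₀ 1, hc, hC, lt_max_of_lt_left hT₀, fun T hT ε hε => ?_⟩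
  have hT1 : 1 ≤ T := (le_max_right _ _).trans hT
  obtain ⟨S, h1, h2, h3⟩ := hP T ((le_max_left _ _).trans hT) ε hε
  refine ⟨S, h1, fun p hp => ?_, h3⟩
  obtain ⟨q1, q2, q3, q4⟩ := h2 p hp
  refine ⟨q1, q2, q3, fun x hx => ?_⟩
  have hx1 : 1 ≤ x := hT1.trans (q1.trans hx.1)
  have := q4 x hx
  simp only at this
  rw [Ep_eq hx1, Ep_eq hx1] at this
  exact this

end Pool.Agent.H15.SC
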