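import Pool.Agent.H15.SC.RBlock

/-!
# R-04  short sums of the coefficients in mean square  (project SC, MP_be4568_nt)

`Sf x = ∑_{1 ≤ n ≤ x} f n`.  `short_S`: for `x ∈ [T,2T]`, `y = x e^{-u}`, `|u| ≤ 1`: `|Sf x - Sf y| ≤ ∑ |f n|` over the integers `n` in
`(min x y, max x y]`, at most `1 + 8 T |u|` of them; Cauchy-Schwarz; for each `n` the `x` with `n ∈ (min x y, max x y]` form a set of
measure `≤ C n |u| ≤ C T |u|`, and `n ≤ 2 e T`, `∑_{n ≤ 6T} f n² ≤ C T` (`RS`): total `≤ C T (T|u|) (1 + T|u|)`.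
(For `u ≥ 0`: `⌊x e^{-u}⌋ < n ≤ ⌊x⌋` iff `x e^{-u} < n ≤ x` iff `n ≤ x < n e^u`; for `u < 0`: `x < n ≤ x e^{|u|}` iff `n e^{-|u|} ≤ x < n`.)
`S_bound`: `|Sf x| ≤ (⌊x⌋ ∑ f²)^{1/2} ≤ C x`.
-/

set_option autoImplicit false

open Complex Filter Topology MeasureTheory Set

namespace Pool.Agent.H15.SC

variable {D : SelData}

/-- summatory function of the coefficients -/
noncomputable def Sf (D : SelData) (x : ℝ) : ℝ := ∑ n ∈ Finset.Icc 1 ⌊x⌋₊, D.f n

theorem Sf_meas (D : SelData) : Measurable (Sf D) := by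
  have h : Measurable (fun n : ℕ => ∑ k ∈ Finset.Icc 1 n, D.f k) := measurable_from_nat
  exact h.comp Nat.measurable_floor

theorem S_bound (hR : RS D) : ∃ C : ℝ, 0 ≤ C ∧ ∀ x : ℝ, 0 ≤ x → |Sf D x| ≤ C * x := by
  obtain ⟨C, hC⟩ := hR
  refine ⟨Real.sqrt |C|, Real.sqrt_nonneg _, fun x hx => ?_⟩
  have h1 : (Sf D x) ^ 2 ≤ |C| * x ^ 2 := by
    have h2 : (Sf D x) ^ 2 ≤ (Finset.Icc 1 ⌊x⌋₊).card * ∑ n ∈ Finset.Icc 1 ⌊x⌋₊, D.f n ^ 2 :=
      sq_sum_le_card_mul_sum_sq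
    have h3 := hC ⌊x⌋₊
    have h4 : (⌊x⌋₊ : ℝ) ≤ x := Nat.floor_le hx
    have h5 : (0 : ℝ) ≤ (⌊x⌋₊ : ℝ) := Nat.cast_nonneg _
    rw [Nat.card_Icc, Nat.add_sub_cancel] at h2
    have h6 : ∑ n ∈ Finset.Icc 1 ⌊x⌋₊, D.f n ^ 2 ≤ |C| * (⌊x⌋₊ : ℝ) :=
      h3.trans (mul_le_mul_of_nonneg_right (le_abs_self C) h5)
    calc (Sf D x) ^ 2 ≤ (⌊x⌋₊ : ℝ) * (|C| * (⌊x⌋₊ : ℝ)) :=
          h2.trans (mul_le_mul_of_nonneg_left h6 h5)
      _ = |C| * ((⌊x⌋₊ : ℝ) * (⌊x⌋₊ : ℝ)) := by ring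
      _ ≤ |C| * (x * x) := by
          refine mul_le_mul_of_nonneg_left (mul_le_mul h4 h4 h5 hx) (abs_nonneg _)
      _ = |C| * x ^ 2 := by ring
  have h2 := Real.abs_le_sqrt h1
  rwa [Real.sqrt_mul (abs_nonneg _), Real.sqrt_sq hx] at h2

/-- difference of summatory functions -/
theorem Sf_sub_of_le (D : SelData) {a b : ℝ} (hab : a ≤ b) :
    Sf D b - Sf D a = ∑ n ∈ Finset.Ioc ⌊a⌋₊ ⌊b⌋₊, D.f n := by
  have hf : ⌊a⌋₊ ≤ ⌊b⌋₊ := Nat.floor_le_floor hab
  have key : ∀ N : ℕ, Finset.Icc 1 N = Finset.Ioc 0 N := fun N => by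
    ext n; simp [Finset.mem_Icc, Finset.mem_Ioc, Nat.succ_le_iff]
  unfold Sf
  rw [key, key, sub_eq_iff_eq_add, add_comm]
  exact (Finset.sum_Ioc_consecutive (fun n => D.f n) (Nat.zero_le _) hf).symm

/-- pointwise Cauchy-Schwarz for `0 ≤ a ≤ b` -/
theorem Sf_sub_sq (D : SelData) {a b L B v x : ℝ} (ha : 0 ≤ a) (hab : a ≤ b) (hL : b - a ≤ L) (hB : b ≤ B)
    (h1 : x * Real.exp (-v) ≤ a) (h2 : b ≤ x * Real.exp v) :
    (Sf D b - Sf D a) ^ 2 ≤ (1 + L) * ∑ n ∈ Finset.Icc 1 ⌊B⌋₊,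
      D.f n ^ 2 * (Icc ((n : ℝ) * Real.exp (-v)) (n * Real.exp v)).indicator (fun _ => (1 : ℝ)) x := by
  rw [Sf_sub_of_le D hab]
  have hcard : ((Finset.Ioc ⌊a⌋₊ ⌊b⌋₊).card : ℝ) ≤ 1 + L := by
    rw [Nat.card_Ioc, Nat.cast_sub (Nat.floor_le_floor hab)]
    have e1 : (⌊b⌋₊ : ℝ) ≤ b := Nat.floor_le (ha.trans hab)
    have e2 : a < (⌊a⌋₊ : ℝ) + 1 := Nat.lt_floor_add_one a
    linarith
  have hL0 : 0 ≤ 1 + L := le_trans (Nat.cast_nonneg _) hcard
  have hsum : ∑ n ∈ Finset.Ioc ⌊a⌋₊ ⌊b⌋₊, D.f n ^ 2 ≤ ∑ n ∈ Finset.Icc 1 ⌊B⌋₊,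
      D.f n ^ 2 * (Icc ((n : ℝ) * Real.exp (-v)) (n * Real.exp v)).indicator (fun _ => (1 : ℝ)) x := by
    have hsub : Finset.Ioc ⌊a⌋₊ ⌊b⌋₊ ⊆ Finset.Icc 1 ⌊B⌋₊ := by
      intro n hn
      rw [Finset.mem_Ioc] at hn
      rw [Finset.mem_Icc]
      have : ⌊b⌋₊ ≤ ⌊B⌋₊ := Nat.floor_le_floor hB
      omega
    have hnn : ∀ n ∈ Finset.Icc 1 ⌊B⌋₊, n ∉ Finset.Ioc ⌊a⌋₊ ⌊b⌋₊ → 0 ≤ D.f n ^ 2 *
        (Icc ((n : ℝ) * Real.exp (-v)) (n * Real.exp v)).indicator (fun _ => (1 : ℝ)) x := by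
      intro n _ _
      exact mul_nonneg (sq_nonneg _) (indicator_nonneg (fun _ _ => zero_le_one) _)
    refine le_trans (Finset.sum_le_sum ?_) (Finset.sum_le_sum_of_subset_of_nonneg hsub hnn)
    intro n hn
    rw [Finset.mem_Ioc] at hn
    have hn1 : a < n := (Nat.floor_lt ha).1 hn.1
    have hn2 : (n : ℝ) ≤ b := (Nat.le_floor_iff (ha.trans hab)).1 hn.2
    have hx : x ∈ Icc ((n : ℝ) * Real.exp (-v)) (n * Real.exp v) := by
      have hev : 0 < Real.exp v := Real.exp_pos v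
      have hee : Real.exp (-v) * Real.exp v = 1 := by rw [← Real.exp_add]; simp
      have hev' : 0 < Real.exp (-v) := Real.exp_pos (-v)
      constructor
      · have : (n : ℝ) ≤ x * Real.exp v := hn2.trans h2
        calc (n : ℝ) * Real.exp (-v) ≤ (x * Real.exp v) * Real.exp (-v) :=
              mul_le_mul_of_nonneg_right this hev'.le
          _ = x * (Real.exp (-v) * Real.exp v) := by ring
          _ = x := by rw [hee, mul_one]
      · have : x * Real.exp (-v) ≤ n := h1.trans hn1.le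
        calc x = x * (Real.exp (-v) * Real.exp v) := by rw [hee, mul_one]
          _ = (x * Real.exp (-v)) * Real.exp v := by ring
          _ ≤ n * Real.exp v := mul_le_mul_of_nonneg_right this hev.le
    rw [indicator_of_mem hx, mul_one]
  refine (sq_sum_le_card_mul_sum_sq).trans ?_
  exact mul_le_mul hcard hsum (Finset.sum_nonneg fun _ _ => sq_nonneg _) hL0

theorem short_S (hR : RS D) : ∃ C : ℝ, 0 ≤ C ∧ ∀ T : ℝ, 1 ≤ T → ∀ u : ℝ, |u| ≤ 1 →
    ∫⁻ x in Icc T (2 * T), ENNReal.ofReal ((Sf D x - Sf D (x * Real.exp (-u))) ^ 2) ≤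
      ENNReal.ofReal (C * T * (T * |u|) * (1 + T * |u|)) := by
  obtain ⟨C, hC⟩ := hR
  refine ⟨4 * (4 * 6) * (|C| * 6), by positivity, fun T hT u hu => ?_⟩
  have hT0 : 0 < T := by linarith
  set v := |u| with hv
  have hv0 : 0 ≤ v := abs_nonneg u
  have hev : |Real.exp v - 1| ≤ 2 * v := by
    have := Real.abs_exp_sub_one_le (x := v) (by rwa [abs_of_nonneg hv0])
    rwa [abs_of_nonneg hv0] at this
  have hev' : |Real.exp (-v) - 1| ≤ 2 * v := by
    have := Real.abs_exp_sub_one_le (x := -v) (by rwa [abs_neg, abs_of_nonneg hv0])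
    rwa [abs_neg, abs_of_nonneg hv0] at this
  have heu : |Real.exp (-u) - 1| ≤ 2 * v := by
    have := Real.abs_exp_sub_one_le (x := -u) (by rwa [abs_neg])
    rwa [abs_neg] at this
  set N := ⌊6 * T⌋₊ with hN
  -- pointwise
  have hpt : ∀ x ∈ Icc T (2 * T), (Sf D x - Sf D (x * Real.exp (-u))) ^ 2 ≤
      (1 + 4 * T * v) * ∑ n ∈ Finset.Icc 1 N, D.f n ^ 2 *
        (Icc ((n : ℝ) * Real.exp (-v)) (n * Real.exp v)).indicator (fun _ => (1 : ℝ)) x := by
    intro x hx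
    have hx0 : 0 < x := lt_of_lt_of_le hT0 hx.1
    have hb1 : x * Real.exp v ≤ 6 * T := by
      have : Real.exp v ≤ 3 := by
        have := (abs_le.1 hev).2
        linarith
      calc x * Real.exp v ≤ (2 * T) * 3 := mul_le_mul hx.2 this (Real.exp_pos _).le (by linarith)
        _ = 6 * T := by ring
    have hd : |x - x * Real.exp (-u)| ≤ 4 * T * v := by
      have : x - x * Real.exp (-u) = -(x * (Real.exp (-u) - 1)) := by ring
      rw [this, abs_neg, abs_mul, abs_of_pos hx0]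
      calc x * |Real.exp (-u) - 1| ≤ (2 * T) * (2 * v) :=
            mul_le_mul hx.2 heu (abs_nonneg _) (by linarith)
        _ = 4 * T * v := by ring
    rcases le_total 0 u with h0 | h0
    · have hvu : v = u := abs_of_nonneg h0
      have hle : x * Real.exp (-u) ≤ x := by
        have : Real.exp (-u) ≤ 1 := Real.exp_le_one_iff.2 (by linarith)
        nlinarith
      have hle2 : x ≤ x * Real.exp v := by
        have : 1 ≤ Real.exp v := Real.one_le_exp hv0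
        nlinarith
      exact Sf_sub_sq D (by positivity) hle ((le_abs_self _).trans hd) (hle2.trans hb1)
        (by rw [hvu]) hle2
    · have hvu : v = -u := abs_of_nonpos h0
      have hle : x ≤ x * Real.exp (-u) := by
        have : 1 ≤ Real.exp (-u) := Real.one_le_exp (by linarith)
        nlinarith
      have hle2 : x * Real.exp (-v) ≤ x := by
        have : Real.exp (-v) ≤ 1 := Real.exp_le_one_iff.2 (by linarith)
        nlinarith
      have hsym : (Sf D x - Sf D (x * Real.exp (-u))) ^ 2 =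
          (Sf D (x * Real.exp (-u)) - Sf D x) ^ 2 := by ring
      rw [hsym]
      refine Sf_sub_sq D hx0.le hle ?_ ?_ hle2 (by rw [hvu])
      · rw [abs_sub_comm] at hd
        exact (le_abs_self _).trans hd
      · rw [← hvu]; exact hb1
  -- measure of the sets
  have hmeas : ∀ n ∈ Finset.Icc 1 N,
      ∫⁻ x in Icc T (2 * T), ENNReal.ofReal (D.f n ^ 2 *
        (Icc ((n : ℝ) * Real.exp (-v)) (n * Real.exp v)).indicator (fun _ => (1 : ℝ)) x) ≤
      ENNReal.ofReal (D.f n ^ 2 * (4 * 6 * T * v)) := by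
    intro n hn
    rw [Finset.mem_Icc] at hn
    have hn6 : (n : ℝ) ≤ 6 * T := (Nat.le_floor_iff (by positivity)).1 hn.2
    have hn0 : (0 : ℝ) ≤ n := Nat.cast_nonneg n
    have e1 : ∀ x : ℝ, ENNReal.ofReal (D.f n ^ 2 *
        (Icc ((n : ℝ) * Real.exp (-v)) (n * Real.exp v)).indicator (fun _ => (1 : ℝ)) x) =
        (Icc ((n : ℝ) * Real.exp (-v)) (n * Real.exp v)).indicator
          (fun _ => ENNReal.ofReal (D.f n ^ 2)) x := by
      intro x
      by_cases hx : x ∈ Icc ((n : ℝ) * Real.exp (-v)) (n * Real.exp v)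
      · rw [indicator_of_mem hx, indicator_of_mem hx, mul_one]
      · rw [indicator_of_notMem hx, indicator_of_notMem hx, mul_zero, ENNReal.ofReal_zero]
    simp_rw [e1]
    refine (setLIntegral_le_lintegral _ _).trans ?_
    rw [lintegral_indicator measurableSet_Icc, setLIntegral_const, Real.volume_Icc,
      ← ENNReal.ofReal_mul (sq_nonneg _)]
    refine ENNReal.ofReal_le_ofReal (mul_le_mul_of_nonneg_left ?_ (sq_nonneg _))
    have e2 : Real.exp v - Real.exp (-v) ≤ 4 * v := by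
      have a1 := (abs_le.1 hev).2
      have a2 := (abs_le.1 hev').1
      linarith
    calc (n : ℝ) * Real.exp v - n * Real.exp (-v) = n * (Real.exp v - Real.exp (-v)) := by ring
      _ ≤ n * (4 * v) := mul_le_mul_of_nonneg_left e2 hn0
      _ ≤ (6 * T) * (4 * v) := mul_le_mul_of_nonneg_right hn6 (by positivity)
      _ = 4 * 6 * T * v := by ring
  have hfm : ∀ n : ℕ, Measurable (fun x : ℝ => ENNReal.ofReal (D.f n ^ 2 *
        (Icc ((n : ℝ) * Real.exp (-v)) (n * Real.exp v)).indicator (fun _ => (1 : ℝ)) x)) := by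
    intro n
    exact ENNReal.measurable_ofReal.comp
      (measurable_const.mul (measurable_const.indicator measurableSet_Icc))
  have hnn : ∀ (n : ℕ) (x : ℝ), 0 ≤ D.f n ^ 2 *
        (Icc ((n : ℝ) * Real.exp (-v)) (n * Real.exp v)).indicator (fun _ => (1 : ℝ)) x :=
    fun n x => mul_nonneg (sq_nonneg _) (indicator_nonneg (fun _ _ => zero_le_one) _)
  have h4 : 0 ≤ 1 + 4 * T * v := by positivity
  calc ∫⁻ x in Icc T (2 * T), ENNReal.ofReal ((Sf D x - Sf D (x * Real.exp (-u))) ^ 2)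
      ≤ ∫⁻ x in Icc T (2 * T), ENNReal.ofReal (1 + 4 * T * v) * ∑ n ∈ Finset.Icc 1 N,
          ENNReal.ofReal (D.f n ^ 2 *
        (Icc ((n : ℝ) * Real.exp (-v)) (n * Real.exp v)).indicator (fun _ => (1 : ℝ)) x) := by
        refine setLIntegral_mono' measurableSet_Icc fun x hx => ?_
        rw [← ENNReal.ofReal_sum_of_nonneg (fun n _ => hnn n x), ← ENNReal.ofReal_mul h4]
        exact ENNReal.ofReal_le_ofReal (hpt x hx)
    _ = ENNReal.ofReal (1 + 4 * T * v) * ∑ n ∈ Finset.Icc 1 N,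
        ∫⁻ x in Icc T (2 * T), ENNReal.ofReal (D.f n ^ 2 *
        (Icc ((n : ℝ) * Real.exp (-v)) (n * Real.exp v)).indicator (fun _ => (1 : ℝ)) x) := by
        rw [lintegral_const_mul _ (Finset.measurable_fun_sum _ fun n _ => hfm n),
          lintegral_finsetSum _ fun n _ => hfm n]
    _ ≤ ENNReal.ofReal (1 + 4 * T * v) * ∑ n ∈ Finset.Icc 1 N,
        ENNReal.ofReal (D.f n ^ 2 * (4 * 6 * T * v)) := by
        gcongr with n hn
        exact hmeas n hn
    _ = ENNReal.ofReal ((1 + 4 * T * v) * ((∑ n ∈ Finset.Icc 1 N, D.f n ^ 2) * (4 * 6 * T * v))) := by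
        rw [← ENNReal.ofReal_sum_of_nonneg (fun n _ => by positivity), ← ENNReal.ofReal_mul h4,
          Finset.sum_mul]
    _ ≤ ENNReal.ofReal (4 * (4 * 6) * (|C| * 6) * T * (T * v) * (1 + T * v)) := by
        refine ENNReal.ofReal_le_ofReal ?_
        have hNT : (N : ℝ) ≤ 6 * T := Nat.floor_le (by positivity)
        have hs : ∑ n ∈ Finset.Icc 1 N, D.f n ^ 2 ≤ |C| * (6 * T) :=
          (hC N).trans (mul_le_mul (le_abs_self C) hNT (Nat.cast_nonneg _) (abs_nonneg _))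
        have h14 : 1 + 4 * T * v ≤ 4 * (1 + T * v) := by nlinarith [mul_nonneg hT0.le hv0]
        calc (1 + 4 * T * v) * ((∑ n ∈ Finset.Icc 1 N, D.f n ^ 2) * (4 * 6 * T * v))
            ≤ (4 * (1 + T * v)) * ((|C| * (6 * T)) * (4 * 6 * T * v)) := by
              refine mul_le_mul h14 (mul_le_mul_of_nonneg_right hs (by positivity)) ?_ (by positivity)
              exact mul_nonneg (Finset.sum_nonneg fun _ _ => sq_nonneg _) (by positivity)
          _ = 4 * (4 * 6) * (|C| * 6) * T * (T * v) * (1 + T * v) := by ring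

end Pool.Agent.H15.SC
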