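import Pool.Agent.H15.SC.Block

/-!
# SC-15  the tail `n > N`  (project SC, MP_be4568_nt)

Triangle inequality in `L²[T,2T]` over the blocks `n ∈ [M,2M)`, `M = N' 2^i` (`N' = N+1`), and `U = 2^j`, `j < J`, `W = 2^J`.
By `block` each norm is `≤ C (a_{ij} + b_{ij})`, `X = T M/U^d`,
`a = T^{1/2} U^{(d-1)/2} M^{(θ-1)/2} min(X^{3/4}, X^{-3/4})`, `b = T^{1/2} U^{(d-2)/2} M^{θ/2} min(X^{3/4}, X^{-3/4})`.
`∑_j a ≤ C T^{1/2} (T M)^{(d-1)/(2d)} M^{(θ-1)/2}` (`two_sided`: `∑_j z_j^a min(z_j^b, z_j^{-b}) ≤ C`, `z_j = 2^j/Y`,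
`Y = (TM)^{1/d}`, `|a| < b = 3d/4`), then the sum over `i` is geometric: `≤ C T^{1-1/(2d)} N^{-1/(2d)+θ/2}`
(`θ < 1/d`; for larger `θ` the claim is weaker than for a smaller one).
`b`: `min(X^{3/4}, X^{-3/4}) ≤ X^{-θ}` (for `θ ≤ 3/4`), so `b ≤ T^{1/2-θ} U^{(d-2)/2 + dθ} M^{-θ/2}`, both sums geometric:
`≤ C T^{1/2} W^{(d-2)/2 + dθ}`.
-/

set_option autoImplicit false

open Complex Filter Topology MeasureTheory Set
open scoped ComplexConjugate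

namespace Pool.Agent.H15.SC

variable {D : SelData}

theorem ts_ge {a b : ℝ} (h : |a| < b) {z : ℝ} {k : ℕ} (hz : (2 : ℝ) ^ k ≤ z) :
    z ^ a * min (z ^ b) (z ^ (-b)) ≤ ((2 : ℝ) ^ (-(b - |a|))) ^ k := by
  have h2 : (0 : ℝ) < 2 ^ k := by positivity
  have hz1 : 1 ≤ z := (one_le_pow₀ (by norm_num)).trans hz
  have hz0 : 0 < z := by linarith
  calc z ^ a * min (z ^ b) (z ^ (-b)) ≤ z ^ |a| * z ^ (-b) := by
        refine mul_le_mul (Real.rpow_le_rpow_of_exponent_le hz1 (le_abs_self a)) (min_le_right _ _)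
          (le_min (by positivity) (by positivity)) (by positivity)
    _ = z ^ (-(b - |a|)) := by
        rw [← Real.rpow_add hz0]
        congr 1
        ring
    _ ≤ ((2 : ℝ) ^ k) ^ (-(b - |a|)) := Real.rpow_le_rpow_of_nonpos h2 hz (by linarith)
    _ = ((2 : ℝ) ^ (-(b - |a|))) ^ k := by
        rw [← Real.rpow_natCast, ← Real.rpow_mul (by norm_num), ← Real.rpow_natCast, ← Real.rpow_mul (by norm_num),
          mul_comm]

theorem ts_le {a b : ℝ} (h : |a| < b) {z : ℝ} (hz0 : 0 < z) {k : ℕ} (hz : z * (2 : ℝ) ^ k ≤ 1) :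
    z ^ a * min (z ^ b) (z ^ (-b)) ≤ ((2 : ℝ) ^ (-(b - |a|))) ^ k := by
  have h1 : |-a| < b := by rwa [abs_neg]
  have h2 : (2 : ℝ) ^ k ≤ z⁻¹ := by
    rw [le_inv_comm₀ (by positivity) hz0, ← one_div, le_div_iff₀ (by positivity)]
    exact hz
  have h3 := ts_ge h1 h2
  rw [abs_neg, Real.inv_rpow hz0.le, Real.inv_rpow hz0.le, Real.inv_rpow hz0.le, ← Real.rpow_neg hz0.le,
    ← Real.rpow_neg hz0.le, ← Real.rpow_neg hz0.le, neg_neg, neg_neg, min_comm] at h3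
  exact h3

theorem tl_geom {r : ℝ} (h0 : 0 ≤ r) (h1 : r < 1) (K : ℕ) : ∑ i ∈ Finset.range K, r ^ i ≤ (1 - r)⁻¹ := by
  rw [← tsum_geometric_of_lt_one h0 h1]
  exact (summable_geometric_of_lt_one h0 h1).sum_le_tsum _ fun i _ => pow_nonneg h0 i

theorem tl_geom' {r : ℝ} (h1 : 1 < r) (J : ℕ) : ∑ j ∈ Finset.range J, r ^ j ≤ (r - 1)⁻¹ * r ^ J := by
  have h0 : 0 < r - 1 := by linarith
  rw [geom_sum_eq h1.ne', div_eq_inv_mul]
  refine mul_le_mul_of_nonneg_left (by linarith) (by positivity)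

theorem two_sided (a b : ℝ) (h : |a| < b) : ∃ C : ℝ, 0 ≤ C ∧ ∀ Y : ℝ, 0 < Y → ∀ J : ℕ,
    ∑ j ∈ Finset.range J, ((2 : ℝ) ^ j / Y) ^ a * min (((2 : ℝ) ^ j / Y) ^ b) (((2 : ℝ) ^ j / Y) ^ (-b)) ≤ C := by
  set r : ℝ := (2 : ℝ) ^ (-(b - |a|)) with hr
  have hr0 : 0 < r := by positivity
  have hr1 : r < 1 := Real.rpow_lt_one_of_one_lt_of_neg (by norm_num) (by linarith)
  have hC : 0 < (1 - r)⁻¹ := inv_pos.2 (by linarith)
  refine ⟨(1 - r)⁻¹ + (1 - r)⁻¹, by positivity, fun Y hY J => ?_⟩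
  have hex : ∃ j : ℕ, Y ≤ (2 : ℝ) ^ j :=
    (pow_unbounded_of_one_lt Y (by norm_num : (1 : ℝ) < 2)).imp fun _ h => h.le
  classical
  set j1 : ℕ := Nat.find hex with hj1
  have hf : Y ≤ (2 : ℝ) ^ j1 := Nat.find_spec hex
  have hg : ∀ j, j < j1 → (2 : ℝ) ^ j < Y := fun j hj => by
    have := Nat.find_min hex hj
    push Not at this
    exact this
  set f : ℕ → ℝ := fun j => ((2 : ℝ) ^ j / Y) ^ a * min (((2 : ℝ) ^ j / Y) ^ b) (((2 : ℝ) ^ j / Y) ^ (-b)) with hfd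
  have hf0 : ∀ j, 0 ≤ f j := fun j => by
    rw [hfd]
    exact mul_nonneg (by positivity) (le_min (by positivity) (by positivity))
  have s1 : ∑ j ∈ Finset.range J, f j ≤ ∑ j ∈ Finset.range (j1 + J), f j :=
    Finset.sum_le_sum_of_subset_of_nonneg (Finset.range_subset_range.2 (by omega)) fun j _ _ => hf0 j
  refine s1.trans ?_
  rw [Finset.sum_range_add]
  refine add_le_add ?_ ?_
  · have s2 : ∀ j ∈ Finset.range j1, f j ≤ r ^ (j1 - 1 - j) := by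
      intro j hj
      rw [Finset.mem_range] at hj
      refine ts_le h (by positivity) ?_
      have e1 : (2 : ℝ) ^ j * 2 ^ (j1 - 1 - j) = 2 ^ (j1 - 1) := by
        rw [← pow_add]
        congr 1
        omega
      have e2 : (2 : ℝ) ^ j / Y * 2 ^ (j1 - 1 - j) = 2 ^ (j1 - 1) / Y := by
        rw [← e1]
        ring
      rw [e2, div_le_one hY]
      exact (hg (j1 - 1) (by omega)).le
    refine (Finset.sum_le_sum s2).trans ?_
    rw [Finset.sum_range_reflect (fun k => r ^ k) j1]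
    exact tl_geom hr0.le hr1 j1
  · have s2 : ∀ j ∈ Finset.range J, f (j1 + j) ≤ r ^ j := by
      intro j _
      refine ts_ge h ?_
      rw [le_div_iff₀ hY, pow_add, mul_comm]
      exact mul_le_mul_of_nonneg_right hf (by positivity)
    exact (Finset.sum_le_sum s2).trans (tl_geom hr0.le hr1 J)

theorem tl_minkowski {ι : Type*} (s : Finset ι) (g : ι → ℝ → ℂ) (A : ι → ℝ) {a b : ℝ} (hab : a ≤ b)
    (hg : ∀ k ∈ s, ContinuousOn (g k) (uIcc a b)) (hA : ∀ k ∈ s, 0 < A k)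
    (h : ∀ k ∈ s, ∫ x in a..b, ‖g k x‖ ^ 2 ≤ A k ^ 2) :
    ∫ x in a..b, ‖∑ k ∈ s, g k x‖ ^ 2 ≤ (∑ k ∈ s, A k) ^ 2 := by
  have hi : ∀ k ∈ s, IntervalIntegrable (fun x => ‖g k x‖ ^ 2 / A k) volume a b := fun k hk =>
    (((hg k hk).norm.pow 2).div_const (A k)).intervalIntegrable
  have h1 : ∫ x in a..b, ‖∑ k ∈ s, g k x‖ ^ 2 ≤ ∫ x in a..b, (∑ k ∈ s, A k) * ∑ k ∈ s, ‖g k x‖ ^ 2 / A k := by
    refine intervalIntegral.integral_mono_on hab ?_ ?_ fun x _ => ?_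
    · exact ((continuousOn_finsetSum s fun k hk => hg k hk).norm.pow 2).intervalIntegrable
    · exact (continuousOn_const.mul (continuousOn_finsetSum s fun k hk =>
        ((hg k hk).norm.pow 2).div_const (A k))).intervalIntegrable
    · calc ‖∑ k ∈ s, g k x‖ ^ 2 ≤ (∑ k ∈ s, ‖g k x‖) ^ 2 := by
            gcongr
            exact norm_sum_le _ _
        _ ≤ _ := Finset.sum_sq_le_sum_mul_sum_of_sq_le_mul s (fun k hk => (hA k hk).le)
            (fun k hk => div_nonneg (sq_nonneg _) (hA k hk).le) fun k hk => le_of_eq <| by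
              have := (hA k hk).ne'
              field_simp
  refine h1.trans ?_
  rw [intervalIntegral.integral_const_mul, intervalIntegral.integral_finsetSum hi, sq]
  have hA0 : 0 ≤ ∑ k ∈ s, A k := Finset.sum_nonneg fun k hk => (hA k hk).le
  refine mul_le_mul_of_nonneg_left (Finset.sum_le_sum fun k hk => ?_) hA0
  rw [intervalIntegral.integral_div, div_le_iff₀ (hA k hk), ← sq]
  exact h k hk

theorem tl_sq {x : ℝ} (hx : 0 ≤ x) (e : ℝ) : (x ^ (e / 2)) ^ 2 = x ^ e := by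
  rw [← Real.rpow_natCast, ← Real.rpow_mul hx]
  congr 1
  push_cast
  ring

/-- one block -/
theorem tl_block {d : ℕ} (hd : d = 2 ∨ d = 3) (h : IsSel D d) (θ : ℝ) (hθ : 0 < θ) : ∃ B : ℝ, 0 < B ∧
    ∀ M : ℕ, 1 ≤ M → ∀ j : ℕ, ∀ T : ℝ, 1 ≤ T → ∀ S ⊆ Finset.Ico M (2 * M),
    ∫ x in T..(2 * T), ‖∑ n ∈ S, ((D.f n / n : ℝ) : ℂ) * cB D (2 ^ j) (n * x)‖ ^ 2 ≤
      (B * T ^ (1 / 2 : ℝ) * ((((2 : ℝ) ^ j) ^ (((d : ℝ) - 1) / 2) * (M : ℝ) ^ ((θ - 1) / 2) +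
        ((2 : ℝ) ^ j) ^ (((d : ℝ) - 2) / 2) * (M : ℝ) ^ (θ / 2)) *
        min ((T * M / (2 ^ j) ^ d) ^ (3/4 : ℝ)) ((T * M / (2 ^ j) ^ d) ^ (-(3/4) : ℝ)))) ^ 2 := by
  obtain ⟨C, hC, hb⟩ := block hd h θ hθ
  refine ⟨(C + 1) ^ (1/2 : ℝ), by positivity, fun M hM1 j T hT S hS => ?_⟩
  have hT0 : 0 < T := by linarith
  have hU1 : (1 : ℝ) ≤ 2 ^ j := one_le_pow₀ (by norm_num)
  set U : ℝ := 2 ^ j with hU
  have hU0 : 0 < U := by linarith
  have hM0 : (0 : ℝ) < M := by exact_mod_cast hM1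
  set X : ℝ := T * M / U ^ d with hX
  have hX0 : 0 < X := by positivity
  set u : ℝ := U ^ (((d : ℝ) - 1) / 2) * (M : ℝ) ^ ((θ - 1) / 2) with hu
  set v : ℝ := U ^ (((d : ℝ) - 2) / 2) * (M : ℝ) ^ (θ / 2) with hv
  have hu0 : 0 < u := by positivity
  have hv0 : 0 < v := by positivity
  have key : ∀ σ : ℝ, (σ = 3/4 ∨ σ = -(3/4)) →
      ∫ x in T..(2 * T), ‖∑ n ∈ S, ((D.f n / n : ℝ) : ℂ) * cB D U (n * x)‖ ^ 2 ≤
      ((C + 1) ^ (1/2 : ℝ) * T ^ (1/2 : ℝ) * ((u + v) * X ^ σ)) ^ 2 := by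
    intro σ hσ
    have h1 := hb M hM1 U hU1 T hT S hS σ hσ
    refine h1.trans ?_
    have e1 : ((C + 1) ^ (1/2 : ℝ)) ^ 2 = C + 1 := by
      rw [tl_sq (by linarith), Real.rpow_one]
    have e2 : (T ^ (1/2 : ℝ)) ^ 2 = T := by
      rw [tl_sq hT0.le, Real.rpow_one]
    have e3 : u ^ 2 = U ^ ((d : ℝ) - 1) * (M : ℝ) ^ (θ - 1) := by
      rw [hu, mul_pow, tl_sq hU0.le, tl_sq hM0.le]
    have e4 : v ^ 2 = U ^ ((d : ℝ) - 2) * (M : ℝ) ^ θ := by
      rw [hv, mul_pow, tl_sq hU0.le, tl_sq hM0.le]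
    have e5 : (X ^ σ) ^ 2 = X ^ (2 * σ) := by
      rw [← Real.rpow_natCast, ← Real.rpow_mul hX0.le]
      congr 1
      push_cast
      ring
    have e6 : U ^ ((d : ℝ) - 2) * (U + M) * (M : ℝ) ^ (θ - 1) ≤ (u + v) ^ 2 := by
      have a1 : U ^ ((d : ℝ) - 1) = U ^ ((d : ℝ) - 2) * U := by
        nth_rewrite 3 [← Real.rpow_one U]
        rw [← Real.rpow_add hU0]
        congr 1
        ring
      have a2 : (M : ℝ) ^ θ = (M : ℝ) ^ (θ - 1) * M := by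
        nth_rewrite 3 [← Real.rpow_one (M : ℝ)]
        rw [← Real.rpow_add hM0]
        congr 1
        ring
      have a3 : (u + v) ^ 2 = u ^ 2 + v ^ 2 + 2 * (u * v) := by ring
      have a4 : 0 ≤ 2 * (u * v) := by positivity
      rw [a3, e3, e4, a1, a2]
      have a5 : U ^ ((d : ℝ) - 2) * (U + M) * (M : ℝ) ^ (θ - 1) = U ^ ((d : ℝ) - 2) * U * (M : ℝ) ^ (θ - 1) +
          U ^ ((d : ℝ) - 2) * ((M : ℝ) ^ (θ - 1) * M) := by ring
      linarith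
    calc C * T * U ^ ((d : ℝ) - 2) * (U + M) * (M : ℝ) ^ (θ - 1) * X ^ (2 * σ) =
        C * T * (U ^ ((d : ℝ) - 2) * (U + M) * (M : ℝ) ^ (θ - 1)) * X ^ (2 * σ) := by ring
      _ ≤ (C + 1) * T * (u + v) ^ 2 * X ^ (2 * σ) := by
          have : C ≤ C + 1 := by linarith
          gcongr
      _ = _ := by
          rw [mul_pow, mul_pow, mul_pow, e1, e2, e5]
          ring
  rcases min_choice (X ^ (3/4 : ℝ)) (X ^ (-(3/4) : ℝ)) with h2 | h2
  · rw [h2]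
    exact key _ (Or.inl rfl)
  · rw [h2]
    exact key _ (Or.inr rfl)

/-- the sum over `U = 2^j` for fixed `M` -/
theorem tl_sumU {d : ℕ} (hd : d = 2 ∨ d = 3) : ∃ C : ℝ, 0 ≤ C ∧ ∀ T M : ℝ, 0 < T → 0 < M → ∀ J : ℕ,
    ∑ j ∈ Finset.range J, ((2 : ℝ) ^ j) ^ (((d : ℝ) - 1) / 2) *
      min ((T * M / (2 ^ j) ^ d) ^ (3/4 : ℝ)) ((T * M / (2 ^ j) ^ d) ^ (-(3/4) : ℝ)) ≤
      C * (T * M) ^ (1 / 2 - 1 / (2 * (d : ℝ))) := by
  have hd0 : (0 : ℝ) < d := by rcases hd with rfl | rfl <;> norm_num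
  obtain ⟨C, hC, h2⟩ := two_sided (((d : ℝ) - 1) / 2) (3 / 4 * d) (by
    rcases hd with rfl | rfl <;> norm_num [abs_of_pos])
  refine ⟨C, hC, fun T M hT hM J => ?_⟩
  set Y : ℝ := (T * M) ^ (1 / (d : ℝ)) with hY
  have hY0 : 0 < Y := by positivity
  have hYd : T * M = Y ^ d := by
    rw [hY, ← Real.rpow_natCast, ← Real.rpow_mul (by positivity), one_div_mul_cancel hd0.ne', Real.rpow_one]
  have h3 := h2 Y hY0 J
  have h4 : ∀ j ∈ Finset.range J, ((2 : ℝ) ^ j) ^ (((d : ℝ) - 1) / 2) *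
      min ((T * M / (2 ^ j) ^ d) ^ (3/4 : ℝ)) ((T * M / (2 ^ j) ^ d) ^ (-(3/4) : ℝ)) =
      Y ^ (((d : ℝ) - 1) / 2) * (((2 : ℝ) ^ j / Y) ^ (((d : ℝ) - 1) / 2) *
        min (((2 : ℝ) ^ j / Y) ^ (3 / 4 * (d : ℝ))) (((2 : ℝ) ^ j / Y) ^ (-(3 / 4 * (d : ℝ))))) := by
    intro j _
    have hz : (0 : ℝ) < 2 ^ j / Y := by positivity
    have e1 : T * M / (2 ^ j) ^ d = ((2 : ℝ) ^ j / Y) ^ (-(d : ℝ)) := by
      rw [Real.rpow_neg hz.le, hYd, Real.rpow_natCast, div_pow, inv_div]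
    have e0 : Y ^ (((d : ℝ) - 1) / 2) * (((2 : ℝ) ^ j / Y) ^ (((d : ℝ) - 1) / 2)) =
        ((2 : ℝ) ^ j) ^ (((d : ℝ) - 1) / 2) := by
      rw [← Real.mul_rpow hY0.le hz.le]
      congr 1
      field_simp
    rw [← mul_assoc, e0, e1, ← Real.rpow_mul hz.le, ← Real.rpow_mul hz.le, min_comm]
    have e2 : -(d : ℝ) * (3/4) = -(3 / 4 * (d : ℝ)) := by ring
    have e3 : -(d : ℝ) * (-(3/4)) = 3 / 4 * (d : ℝ) := by ring
    rw [e2, e3]
  have e5 : Y ^ (((d : ℝ) - 1) / 2) = (T * M) ^ (1 / 2 - 1 / (2 * (d : ℝ))) := by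
    rw [hY, ← Real.rpow_mul (by positivity)]
    congr 1
    field_simp
  rw [Finset.sum_congr rfl h4, ← Finset.mul_sum, mul_comm C, ← e5]
  exact mul_le_mul_of_nonneg_left h3 (by positivity)

theorem tl_min {X θ : ℝ} (hX : 0 < X) (h0 : 0 ≤ θ) (h1 : θ ≤ 3/4) :
    min (X ^ (3/4 : ℝ)) (X ^ (-(3/4) : ℝ)) ≤ X ^ (-θ) := by
  rcases le_total X 1 with h | h
  · refine (min_le_left _ _).trans ?_
    exact Real.rpow_le_rpow_of_exponent_ge hX h (by linarith)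
  · refine (min_le_right _ _).trans ?_
    exact Real.rpow_le_rpow_of_exponent_le h (by linarith)

theorem tl_pow_rpow (e : ℝ) (i : ℕ) : ((2 : ℝ) ^ i) ^ e = ((2 : ℝ) ^ e) ^ i := by
  rw [← Real.rpow_natCast, ← Real.rpow_mul (by norm_num), ← Real.rpow_natCast, ← Real.rpow_mul (by norm_num), mul_comm]

/-- the tail for small `θ` -/
theorem tail_aux {d : ℕ} (hd : d = 2 ∨ d = 3) (h : IsSel D d) (θ : ℝ) (hθ : 0 < θ) (hθ1 : θ < 1 / (d : ℝ)) :
    ∃ C : ℝ, 0 ≤ C ∧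
    ∀ T : ℝ, 1 ≤ T → ∀ N : ℕ, ∀ J : ℕ, ∀ S : Finset ℕ, (∀ n ∈ S, N < n) →
    ∫ x in T..(2 * T), ‖∑ n ∈ S, ((D.f n / n : ℝ) : ℂ) * cW D (2 ^ J) (n * x)‖ ^ 2 ≤
      C * (T ^ (2 - 1 / (d : ℝ)) * ((N : ℝ) + 1) ^ (-(1 / (d : ℝ)) + θ) +
        T * ((2 : ℝ) ^ J) ^ ((d : ℝ) - 2 + 2 * (d * θ))) := by
  have hd2 : (2 : ℝ) ≤ d := by rcases hd with rfl | rfl <;> norm_num
  have hd0 : (0 : ℝ) < d := by linarith
  have hθ34 : θ ≤ 3/4 := by
    have : 1 / (d : ℝ) ≤ 1 / 2 := one_div_le_one_div_of_le (by norm_num) hd2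
    linarith
  obtain ⟨B, hB, hb⟩ := tl_block hd h θ hθ
  obtain ⟨C1, hC1, h1⟩ := tl_sumU hd
  set ρ : ℝ := (2 : ℝ) ^ ((-(1 / (d : ℝ)) + θ) / 2) with hρ
  have hρ0 : 0 ≤ ρ := by positivity
  have hρ1 : ρ < 1 := by
    rw [hρ]
    exact Real.rpow_lt_one_of_one_lt_of_neg (by norm_num) (by linarith)
  set τ : ℝ := (2 : ℝ) ^ (-θ / 2) with hτ
  have hτ0 : 0 ≤ τ := by positivity
  have hτ1 : τ < 1 := by
    rw [hτ]
    exact Real.rpow_lt_one_of_one_lt_of_neg (by norm_num) (by linarith)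
  set e : ℝ := ((d : ℝ) - 2 + 2 * (d * θ)) / 2 with he
  have he0 : 0 < e := by
    have : 0 < (d : ℝ) * θ := by positivity
    rw [he]
    linarith
  set r : ℝ := (2 : ℝ) ^ e with hr
  have hr1 : 1 < r := by
    rw [hr]
    exact Real.one_lt_rpow (by norm_num) he0
  have hρi : 0 < (1 - ρ)⁻¹ := inv_pos.2 (by linarith)
  have hτi : 0 < (1 - τ)⁻¹ := inv_pos.2 (by linarith)
  have hri : 0 < (r - 1)⁻¹ := inv_pos.2 (by linarith)
  set P : ℝ := C1 * (1 - ρ)⁻¹ with hP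
  set Q : ℝ := (1 - τ)⁻¹ * (r - 1)⁻¹ with hQ
  refine ⟨2 * B ^ 2 * (P ^ 2 + Q ^ 2), by positivity, fun T hT N J S hS => ?_⟩
  have hT0 : 0 < T := by linarith
  have hTT : T ≤ 2 * T := by linarith
  have hN1 : (1 : ℝ) ≤ (N : ℝ) + 1 := by
    have : (0 : ℝ) ≤ N := Nat.cast_nonneg N
    linarith
  have hN0 : (0 : ℝ) < (N : ℝ) + 1 := by linarith
  set K : ℕ := S.sup id + 1 with hK
  set A : ℕ × ℕ → ℝ := fun p => B * T ^ (1 / 2 : ℝ) * ((((2 : ℝ) ^ p.2) ^ (((d : ℝ) - 1) / 2) *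
      (((N : ℝ) + 1) * 2 ^ p.1) ^ ((θ - 1) / 2) +
        ((2 : ℝ) ^ p.2) ^ (((d : ℝ) - 2) / 2) * (((N : ℝ) + 1) * 2 ^ p.1) ^ (θ / 2)) *
        min ((T * (((N : ℝ) + 1) * 2 ^ p.1) / (2 ^ p.2) ^ d) ^ (3/4 : ℝ))
          ((T * (((N : ℝ) + 1) * 2 ^ p.1) / (2 ^ p.2) ^ d) ^ (-(3/4) : ℝ))) with hA
  set g : ℕ × ℕ → ℝ → ℂ := fun p x => ∑ n ∈ S.filter (fun n => Nat.log 2 (n / (N + 1)) = p.1),
      ((D.f n / n : ℝ) : ℂ) * cB D (2 ^ p.2) (n * x) with hg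
  have hS1 : ∀ n ∈ S, (0 : ℝ) < n := fun n hn => by
    have := hS n hn
    exact_mod_cast (by omega : 0 < n)
  have hgc : ∀ p ∈ Finset.range K ×ˢ Finset.range J, ContinuousOn (g p) (uIcc T (2 * T)) := by
    intro p _
    refine continuousOn_finsetSum _ fun n hn => continuousOn_const.mul ?_
    have hn1 : (0 : ℝ) < n := hS1 n (Finset.mem_of_mem_filter n hn)
    refine (cB_continuousOn h (one_le_pow₀ (by norm_num : (1:ℝ) ≤ 2))).comp (by fun_prop) fun x hx => ?_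
    rw [uIcc_of_le hTT] at hx
    exact mul_pos hn1 (lt_of_lt_of_le hT0 hx.1)
  have hmin : ∀ X : ℝ, 0 < X → 0 < min (X ^ (3/4 : ℝ)) (X ^ (-(3/4) : ℝ)) := fun X hX =>
    lt_min (by positivity) (by positivity)
  have hApos : ∀ p ∈ Finset.range K ×ˢ Finset.range J, 0 < A p := by
    intro p _
    rw [hA]
    have := hmin (T * (((N : ℝ) + 1) * 2 ^ p.1) / (2 ^ p.2) ^ d) (by positivity)
    positivity
  have hgA : ∀ p ∈ Finset.range K ×ˢ Finset.range J, ∫ x in T..(2 * T), ‖g p x‖ ^ 2 ≤ A p ^ 2 := by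
    intro p _
    have hM1 : 1 ≤ (N + 1) * 2 ^ p.1 := Nat.one_le_iff_ne_zero.2 (by positivity)
    have h5 := hb ((N + 1) * 2 ^ p.1) hM1 p.2 T hT (S.filter (fun n => Nat.log 2 (n / (N + 1)) = p.1)) ?_
    · have hMc : (((N + 1) * 2 ^ p.1 : ℕ) : ℝ) = ((N : ℝ) + 1) * 2 ^ p.1 := by push_cast; rfl
      rw [hMc] at h5
      exact h5
    · intro n hn
      rw [Finset.mem_filter] at hn
      have hn1 : N < n := hS n hn.1
      have hq0 : n / (N + 1) ≠ 0 := by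
        have := (Nat.div_pos_iff (a := n) (b := N + 1)).2 ⟨by omega, by omega⟩
        omega
      have b1 := Nat.pow_log_le_self 2 hq0
      have b2 := Nat.lt_pow_succ_log_self (b := 2) (by norm_num) (n / (N + 1))
      rw [hn.2] at b1 b2
      rw [Finset.mem_Ico]
      constructor
      · have := (Nat.le_div_iff_mul_le (by omega : 0 < N + 1)).1 b1
        rw [mul_comm]
        exact this
      · have := (Nat.div_lt_iff_lt_mul (by omega : 0 < N + 1)).1 b2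
        rw [pow_succ] at this
        calc n < 2 ^ p.1 * 2 * (N + 1) := this
          _ = 2 * ((N + 1) * 2 ^ p.1) := by ring
  have hsum : ∀ x ∈ uIcc T (2 * T), ‖∑ n ∈ S, ((D.f n / n : ℝ) : ℂ) * cW D (2 ^ J) (n * x)‖ ^ 2 =
      ‖∑ p ∈ Finset.range K ×ˢ Finset.range J, g p x‖ ^ 2 := by
    intro x hx
    rw [uIcc_of_le hTT] at hx
    have hx0 : 0 < x := lt_of_lt_of_le hT0 hx.1
    congr 2
    have hmap : ∀ n ∈ S, Nat.log 2 (n / (N + 1)) ∈ Finset.range K := by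
      intro n hn
      rw [Finset.mem_range, hK]
      have a1 : Nat.log 2 (n / (N + 1)) ≤ n / (N + 1) := Nat.log_le_self 2 _
      have a2 : n ≤ S.sup id := Finset.le_sup (f := id) hn
      have a3 : n / (N + 1) ≤ n := Nat.div_le_self _ _
      omega
    rw [← Finset.sum_fiberwise_of_maps_to hmap, Finset.sum_product]
    refine Finset.sum_congr rfl fun i _ => ?_
    simp only [hg]
    rw [Finset.sum_comm]
    refine Finset.sum_congr rfl fun n hn => ?_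
    have hn1 : (0 : ℝ) < n := hS1 n (Finset.mem_of_mem_filter n hn)
    rw [cW_eq_sum h J (mul_pos hn1 hx0), Finset.mul_sum]
  rw [intervalIntegral.integral_congr hsum]
  refine (tl_minkowski _ g A hTT hgc hApos hgA).trans ?_
  set u : ℝ := T ^ ((1 - 1 / (d : ℝ)) / 2) * ((N : ℝ) + 1) ^ ((-(1 / (d : ℝ)) + θ) / 2) with hu
  set w : ℝ := ((2 : ℝ) ^ J) ^ e with hw
  have hu0 : 0 < u := by positivity
  have hw0 : 0 < w := by positivity
  have hAsum : ∑ p ∈ Finset.range K ×ˢ Finset.range J, A p ≤ B * T ^ (1/2 : ℝ) * (P * u + Q * w) := by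
    have e1 : ∀ i ∈ Finset.range K, ∑ j ∈ Finset.range J, A (i, j) ≤ B * T ^ (1/2 : ℝ) *
        (C1 * u * ρ ^ i + (r - 1)⁻¹ * w * τ ^ i) := by
      intro i _
      set M : ℝ := ((N : ℝ) + 1) * 2 ^ i with hM
      have hM0 : 0 < M := by positivity
      have f1 : ∑ j ∈ Finset.range J, A (i, j) = B * T ^ (1/2 : ℝ) *
          (M ^ ((θ - 1) / 2) * (∑ j ∈ Finset.range J, ((2 : ℝ) ^ j) ^ (((d : ℝ) - 1) / 2) *
            min ((T * M / (2 ^ j) ^ d) ^ (3/4 : ℝ)) ((T * M / (2 ^ j) ^ d) ^ (-(3/4) : ℝ))) +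
          ∑ j ∈ Finset.range J, ((2 : ℝ) ^ j) ^ (((d : ℝ) - 2) / 2) * M ^ (θ / 2) *
            min ((T * M / (2 ^ j) ^ d) ^ (3/4 : ℝ)) ((T * M / (2 ^ j) ^ d) ^ (-(3/4) : ℝ))) := by
        rw [Finset.mul_sum, ← Finset.sum_add_distrib, Finset.mul_sum]
        refine Finset.sum_congr rfl fun j _ => ?_
        simp only [hA]
        ring
      rw [f1]
      refine mul_le_mul_of_nonneg_left (add_le_add ?_ ?_) (by positivity)
      · refine (mul_le_mul_of_nonneg_left (h1 T M hT0 hM0 J) (by positivity)).trans (le_of_eq ?_)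
        have g1 : (T * M) ^ (1 / 2 - 1 / (2 * (d : ℝ))) =
            T ^ ((1 - 1 / (d : ℝ)) / 2) * M ^ ((1 - 1 / (d : ℝ)) / 2) := by
          rw [← Real.mul_rpow hT0.le hM0.le]
          congr 1
          field_simp
        have g2 : M ^ ((θ - 1) / 2) * M ^ ((1 - 1 / (d : ℝ)) / 2) =
            ((N : ℝ) + 1) ^ ((-(1 / (d : ℝ)) + θ) / 2) * ρ ^ i := by
          rw [hρ, ← tl_pow_rpow, ← Real.mul_rpow hN0.le (by positivity), ← Real.rpow_add hM0]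
          congr 1
          ring
        calc M ^ ((θ - 1) / 2) * (C1 * (T * M) ^ (1 / 2 - 1 / (2 * (d : ℝ)))) =
            C1 * (T ^ ((1 - 1 / (d : ℝ)) / 2)) * (M ^ ((θ - 1) / 2) * M ^ ((1 - 1 / (d : ℝ)) / 2)) := by
              rw [g1]; ring
          _ = C1 * u * ρ ^ i := by
              rw [g2, hu]; ring
      · have g3 : ∀ j ∈ Finset.range J, ((2 : ℝ) ^ j) ^ (((d : ℝ) - 2) / 2) * M ^ (θ / 2) *
            min ((T * M / (2 ^ j) ^ d) ^ (3/4 : ℝ)) ((T * M / (2 ^ j) ^ d) ^ (-(3/4) : ℝ)) ≤ τ ^ i * r ^ j := by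
          intro j _
          have hU0 : (0 : ℝ) < 2 ^ j := by positivity
          have k1 := tl_min (X := T * M / (2 ^ j) ^ d) (θ := θ) (by positivity) hθ.le hθ34
          have k2 : (T * M / (2 ^ j) ^ d) ^ (-θ) = T ^ (-θ) * M ^ (-θ) * ((2 : ℝ) ^ j) ^ ((d : ℝ) * θ) := by
            rw [Real.div_rpow (by positivity) (by positivity), Real.mul_rpow hT0.le hM0.le,
              ← Real.rpow_natCast ((2 : ℝ) ^ j) d, ← Real.rpow_mul hU0.le, div_eq_mul_inv,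
              ← Real.rpow_neg hU0.le]
            congr 2
            ring
          have k3 : T ^ (-θ) ≤ 1 := Real.rpow_le_one_of_one_le_of_nonpos hT (by linarith)
          have k4 : M ^ (θ / 2) * M ^ (-θ) = M ^ (-θ / 2) := by
            rw [← Real.rpow_add hM0]
            congr 1
            ring
          have k5 : M ^ (-θ / 2) ≤ τ ^ i := by
            rw [hτ, ← tl_pow_rpow]
            refine Real.rpow_le_rpow_of_nonpos (by positivity) ?_ (by linarith)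
            rw [hM]
            have : (0 : ℝ) < 2 ^ i := by positivity
            nlinarith
          have k6 : ((2 : ℝ) ^ j) ^ (((d : ℝ) - 2) / 2) * ((2 : ℝ) ^ j) ^ ((d : ℝ) * θ) = r ^ j := by
            rw [hr, ← tl_pow_rpow, ← Real.rpow_add hU0]
            congr 1
            rw [he]
            ring
          calc ((2 : ℝ) ^ j) ^ (((d : ℝ) - 2) / 2) * M ^ (θ / 2) *
              min ((T * M / (2 ^ j) ^ d) ^ (3/4 : ℝ)) ((T * M / (2 ^ j) ^ d) ^ (-(3/4) : ℝ)) ≤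
              ((2 : ℝ) ^ j) ^ (((d : ℝ) - 2) / 2) * M ^ (θ / 2) *
                (T ^ (-θ) * M ^ (-θ) * ((2 : ℝ) ^ j) ^ ((d : ℝ) * θ)) := by
                rw [← k2]
                exact mul_le_mul_of_nonneg_left k1 (by positivity)
            _ = T ^ (-θ) * (M ^ (θ / 2) * M ^ (-θ)) *
                (((2 : ℝ) ^ j) ^ (((d : ℝ) - 2) / 2) * ((2 : ℝ) ^ j) ^ ((d : ℝ) * θ)) := by ring
            _ = T ^ (-θ) * M ^ (-θ / 2) * r ^ j := by rw [k4, k6]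
            _ ≤ 1 * τ ^ i * r ^ j := by gcongr
            _ = τ ^ i * r ^ j := by ring
        refine (Finset.sum_le_sum g3).trans ?_
        rw [← Finset.mul_sum]
        refine (mul_le_mul_of_nonneg_left (tl_geom' hr1 J) (by positivity)).trans (le_of_eq ?_)
        rw [hw, tl_pow_rpow]
        ring
    rw [Finset.sum_product]
    refine (Finset.sum_le_sum e1).trans ?_
    rw [← Finset.mul_sum, Finset.sum_add_distrib, ← Finset.mul_sum, ← Finset.mul_sum]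
    refine mul_le_mul_of_nonneg_left (add_le_add ?_ ?_) (by positivity)
    · refine (mul_le_mul_of_nonneg_left (tl_geom hρ0 hρ1 K) (by positivity)).trans (le_of_eq ?_)
      rw [hP]
      ring
    · refine (mul_le_mul_of_nonneg_left (tl_geom hτ0 hτ1 K) (by positivity)).trans (le_of_eq ?_)
      rw [hQ]
      ring
  have hA0 : 0 ≤ ∑ p ∈ Finset.range K ×ˢ Finset.range J, A p := Finset.sum_nonneg fun p hp => (hApos p hp).le
  have e4 : (T ^ (1/2 : ℝ)) ^ 2 = T := by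
    rw [tl_sq hT0.le, Real.rpow_one]
  have e5 : T * u ^ 2 = T ^ (2 - 1 / (d : ℝ)) * ((N : ℝ) + 1) ^ (-(1 / (d : ℝ)) + θ) := by
    rw [hu, mul_pow, tl_sq hT0.le, tl_sq hN0.le, ← mul_assoc]
    congr 1
    nth_rewrite 1 [← Real.rpow_one T]
    rw [← Real.rpow_add hT0]
    congr 1
    ring
  have e6 : w ^ 2 = ((2 : ℝ) ^ J) ^ ((d : ℝ) - 2 + 2 * (d * θ)) := by
    rw [hw, he, tl_sq (by positivity)]
  have hP0 : 0 ≤ P := by positivity
  have hQ0 : 0 ≤ Q := by positivity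
  calc (∑ p ∈ Finset.range K ×ˢ Finset.range J, A p) ^ 2 ≤ (B * T ^ (1/2 : ℝ) * (P * u + Q * w)) ^ 2 := by
        gcongr
    _ = B ^ 2 * (T ^ (1/2 : ℝ)) ^ 2 * (P * u + Q * w) ^ 2 := by ring
    _ ≤ B ^ 2 * (T ^ (1/2 : ℝ)) ^ 2 * (2 * ((P ^ 2 + Q ^ 2) * (u ^ 2 + w ^ 2))) := by
        refine mul_le_mul_of_nonneg_left ?_ (by positivity)
        nlinarith [sq_nonneg (P * u - Q * w), sq_nonneg (P * w), sq_nonneg (Q * u)]
    _ = 2 * B ^ 2 * (P ^ 2 + Q ^ 2) * (T * u ^ 2 + T * w ^ 2) := by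
        rw [e4]
        ring
    _ = _ := by
        rw [e5, e6]

theorem tail {d : ℕ} (hd : d = 2 ∨ d = 3) (h : IsSel D d) (θ : ℝ) (hθ : 0 < θ) : ∃ C : ℝ, 0 ≤ C ∧
    ∀ T : ℝ, 1 ≤ T → ∀ N : ℕ, ∀ J : ℕ, ∀ S : Finset ℕ, (∀ n ∈ S, N < n) →
    ∫ x in T..(2 * T), ‖∑ n ∈ S, ((D.f n / n : ℝ) : ℂ) * cW D (2 ^ J) (n * x)‖ ^ 2 ≤
      C * (T ^ (2 - 1 / (d : ℝ)) * ((N : ℝ) + 1) ^ (-(1 / (d : ℝ)) + θ) + T * ((2 : ℝ) ^ J) ^ ((d : ℝ) - 2 + θ)) := by
  have hd2 : (2 : ℝ) ≤ d := by rcases hd with rfl | rfl <;> norm_num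
  have hd0 : (0 : ℝ) < d := by linarith
  set η : ℝ := min θ 1 / (2 * d) with hη
  have hm0 : 0 < min θ 1 := lt_min hθ one_pos
  have hη0 : 0 < η := by positivity
  have hη1 : 2 * (d * η) = min θ 1 := by
    rw [hη]
    field_simp
  have hη2 : η < 1 / (d : ℝ) := by
    rw [lt_div_iff₀ hd0]
    have : min θ 1 ≤ 1 := min_le_right _ _
    nlinarith
  have hη3 : η ≤ θ := by
    have a1 : min θ 1 ≤ θ := min_le_left _ _
    have a2 : η ≤ d * η := by nlinarith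
    nlinarith
  obtain ⟨C, hC, hb⟩ := tail_aux hd h η hη0 hη2
  refine ⟨C, hC, fun T hT N J S hS => (hb T hT N J S hS).trans ?_⟩
  have hT0 : 0 < T := by linarith
  have hN1 : (1 : ℝ) ≤ (N : ℝ) + 1 := by
    have : (0 : ℝ) ≤ N := Nat.cast_nonneg N
    linarith
  have hW1 : (1 : ℝ) ≤ 2 ^ J := one_le_pow₀ (by norm_num)
  refine mul_le_mul_of_nonneg_left (add_le_add ?_ ?_) hC
  · refine mul_le_mul_of_nonneg_left (Real.rpow_le_rpow_of_exponent_le hN1 (by linarith)) (by positivity)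
  · refine mul_le_mul_of_nonneg_left (Real.rpow_le_rpow_of_exponent_le hW1 ?_) hT0.le
    rw [hη1]
    have : min θ 1 ≤ θ := min_le_left _ _
    linarith

end Pool.Agent.H15.SC
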