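import Pool.Agent.H15.SC.RBlock
import Pool.Agent.H15.SC.Tail

/-!
# R-02  the dual sum without loss  (project SC, MP_be4568_nt)

Same method as `tail` (SC-15; `two_sided` is there) with `block_rs`, no `θ`.  Triangle inequality in `L²[T,2T]` over the
blocks `n ∈ [M,2M)`, `M = 2^i`, `i ≥ 0`, and `U = 2^j`, `j < J` (`cW_eq_sum`).  With `X = T M/U³` each norm is `≤ C (a + b)`,
`a = T^{1/2} U M^{-1/2} min(X^{3/4}, X^{-3/4})`, `b = T^{1/2} U^{1/2} min(X^{3/4}, X^{-3/4})`.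
`∑_j a ≤ C T^{1/2} (T M)^{1/3} M^{-1/2} = C T^{5/6} M^{-1/6}` (`two_sided`, `U = Y z`, `Y = (TM)^{1/3}`, `X = z^{-3}`), then the sum
over `M = 2^i` is geometric: `≤ C T^{5/6}`.
`b`: for fixed `U` the sum over `M = 2^i` of `min(X^{3/4}, X^{-3/4})` is `≤ C` (geometric on both sides), so `≤ C T^{1/2} U^{1/2}`; the
sum over `U = 2^j`, `j < J` is `≤ C T^{1/2} 2^{J/2}`.  Square: `C (T^{5/3} + T 2^J)`.
-/

set_option autoImplicit false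

open Complex Filter Topology MeasureTheory Set
open scoped ComplexConjugate

namespace Pool.Agent.H15.SC

variable {D : SelData}

theorem rt_minkowski {ι : Type*} (s : Finset ι) (g : ι → ℝ → ℂ) (A : ι → ℝ) {a b : ℝ} (hab : a ≤ b)
    (hg : ∀ k ∈ s, ContinuousOn (g k) (uIcc a b)) (hA : ∀ k ∈ s, 0 < A k)
    (h : ∀ k ∈ s, ∫ x in a..b, ‖g k x‖ ^ 2 ≤ A k ^ 2) :
    ∫ x in a..b, ‖∑ k ∈ s, g k x‖ ^ 2 ≤ (∑ k ∈ s, A k) ^ 2 := by
  have hi : ∀ k ∈ s, IntervalIntegrable (fun x => ‖g k x‖ ^ 2 / A k) volume a b := fun k hk =>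
    (((hg k hk).norm.pow 2).div_const (A k)).intervalIntegrable
  have h1 : ∫ x in a..b, ‖∑ k ∈ s, g k x‖ ^ 2 ≤ ∫ x in a..b, (∑ k ∈ s, A k) * ∑ k ∈ s, ‖g k x‖ ^ 2 / A k := by
    refine intervalIntegral.integral_mono_on hab ?_ ?_ fun x _ => ?_
    · exact ((continuousOn_finsetSum s fun k hk => hg k hk).norm.pow 2).intervalIntegrable
    · exact (continuousOn_const.mul (continuousOn_finsetSum s fun k hk =>
        ((hg k hk).norm.pow 2).div_const (A k))).intervalIntegrable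
    · calc ‖∑ k ∈ s, g k x‖ ^ 2 ≤ (∑ k ∈ s, ‖g k x‖) ^ 2 := by
            gcongr
            exact norm_sum_le _ _
        _ ≤ _ := Finset.sum_sq_le_sum_mul_sum_of_sq_le_mul s (fun k hk => (hA k hk).le)
            (fun k hk => div_nonneg (sq_nonneg _) (hA k hk).le) fun k hk => le_of_eq <| by
              have := (hA k hk).ne'
              field_simp
  refine h1.trans ?_
  rw [intervalIntegral.integral_const_mul, intervalIntegral.integral_finsetSum hi, sq]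
  have hA0 : 0 ≤ ∑ k ∈ s, A k := Finset.sum_nonneg fun k hk => (hA k hk).le
  refine mul_le_mul_of_nonneg_left (Finset.sum_le_sum fun k hk => ?_) hA0
  rw [intervalIntegral.integral_div, div_le_iff₀ (hA k hk), ← sq]
  exact h k hk

/-- one block -/
theorem rt_block (h : IsSel D ((3 : ℕ) : ℝ)) (hR : RS D) : ∃ B : ℝ, 0 < B ∧
    ∀ i : ℕ, ∀ j : ℕ, ∀ T : ℝ, 1 ≤ T → ∀ S ⊆ Finset.Ico (2 ^ i) (2 * 2 ^ i),
    ∫ x in T..(2 * T), ‖∑ n ∈ S, ((D.f n / n : ℝ) : ℂ) * cB D (2 ^ j) (n * x)‖ ^ 2 ≤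
      (B * T ^ (1/2 : ℝ) * (((2 : ℝ) ^ j * ((2 : ℝ) ^ i) ^ (-(1/2) : ℝ) + ((2 : ℝ) ^ j) ^ (1/2 : ℝ)) *
        min ((T * 2 ^ i / (2 ^ j) ^ 3) ^ (3/4 : ℝ)) ((T * 2 ^ i / (2 ^ j) ^ 3) ^ (-(3/4) : ℝ)))) ^ 2 := by
  obtain ⟨C, hC, hb⟩ := block_rs h hR
  refine ⟨(C + 1) ^ (1/2 : ℝ), by positivity, fun i j T hT S hS => ?_⟩
  have hT0 : 0 < T := by linarith
  have hU1 : (1 : ℝ) ≤ 2 ^ j := one_le_pow₀ (by norm_num)
  have hM1 : 1 ≤ 2 ^ i := Nat.one_le_two_pow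
  set U : ℝ := 2 ^ j with hU
  set M : ℝ := 2 ^ i with hM
  have hU0 : 0 < U := by linarith
  have hM0 : 0 < M := by positivity
  have hMc : ((2 ^ i : ℕ) : ℝ) = M := by rw [hM]; push_cast; rfl
  set X : ℝ := T * M / U ^ 3 with hX
  have hX0 : 0 < X := by positivity
  have key : ∀ σ : ℝ, (σ = 3/4 ∨ σ = -(3/4)) →
      ∫ x in T..(2 * T), ‖∑ n ∈ S, ((D.f n / n : ℝ) : ℂ) * cB D U (n * x)‖ ^ 2 ≤
      ((C + 1) ^ (1/2 : ℝ) * T ^ (1/2 : ℝ) * ((U * M ^ (-(1/2) : ℝ) + U ^ (1/2 : ℝ)) * X ^ σ)) ^ 2 := by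
    intro σ hσ
    have h1 := hb (2 ^ i) hM1 U hU1 T hT S hS σ hσ
    rw [hMc] at h1
    refine h1.trans ?_
    have e1 : ((C + 1) ^ (1/2 : ℝ)) ^ 2 = C + 1 := by
      rw [← Real.rpow_natCast, ← Real.rpow_mul (by linarith)]
      norm_num
    have e2 : (T ^ (1/2 : ℝ)) ^ 2 = T := by
      rw [← Real.rpow_natCast, ← Real.rpow_mul hT0.le]
      norm_num
    have e3 : (M ^ (-(1/2) : ℝ)) ^ 2 = M⁻¹ := by
      rw [← Real.rpow_natCast, ← Real.rpow_mul hM0.le, ← Real.rpow_neg_one]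
      norm_num
    have e4 : (U ^ (1/2 : ℝ)) ^ 2 = U := by
      rw [← Real.rpow_natCast, ← Real.rpow_mul hU0.le]
      norm_num
    have e5 : (X ^ σ) ^ 2 = X ^ (2 * σ) := by
      rw [← Real.rpow_natCast, ← Real.rpow_mul hX0.le]
      congr 1
      push_cast
      ring
    have e6 : U * ((U + M) / M) ≤ (U * M ^ (-(1/2) : ℝ) + U ^ (1/2 : ℝ)) ^ 2 := by
      have a1 : (U * M ^ (-(1/2) : ℝ) + U ^ (1/2 : ℝ)) ^ 2 =
          U ^ 2 * (M ^ (-(1/2) : ℝ)) ^ 2 + (U ^ (1/2 : ℝ)) ^ 2 + 2 * (U * M ^ (-(1/2) : ℝ) * U ^ (1/2 : ℝ)) := by ring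
      rw [a1, e3, e4]
      have a2 : 0 ≤ 2 * (U * M ^ (-(1/2) : ℝ) * U ^ (1/2 : ℝ)) := by positivity
      have a3 : U * ((U + M) / M) = U ^ 2 * M⁻¹ + U := by
        field_simp
      linarith
    calc C * T * U * ((U + M) / M) * X ^ (2 * σ) = C * T * (U * ((U + M) / M)) * X ^ (2 * σ) := by ring
      _ ≤ (C + 1) * T * (U * M ^ (-(1/2) : ℝ) + U ^ (1/2 : ℝ)) ^ 2 * X ^ (2 * σ) := by
          have : C ≤ C + 1 := by linarith
          gcongr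
      _ = _ := by
          rw [mul_pow, mul_pow, mul_pow, e1, e2, e5]
          ring
  rcases min_choice (X ^ (3/4 : ℝ)) (X ^ (-(3/4) : ℝ)) with h2 | h2
  · rw [h2]
    exact key _ (Or.inl rfl)
  · rw [h2]
    exact key _ (Or.inr rfl)

theorem rt_geom {r : ℝ} (h0 : 0 ≤ r) (h1 : r < 1) (K : ℕ) : ∑ i ∈ Finset.range K, r ^ i ≤ (1 - r)⁻¹ := by
  rw [← tsum_geometric_of_lt_one h0 h1]
  exact (summable_geometric_of_lt_one h0 h1).sum_le_tsum _ fun i _ => pow_nonneg h0 i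

theorem rt_geom' {r : ℝ} (h1 : 1 < r) (J : ℕ) : ∑ j ∈ Finset.range J, r ^ j ≤ (r - 1)⁻¹ * r ^ J := by
  have h0 : 0 < r - 1 := by linarith
  rw [geom_sum_eq h1.ne', div_eq_inv_mul]
  refine mul_le_mul_of_nonneg_left (by linarith) (by positivity)

/-- the sum over `U = 2^j` for fixed `M` -/
theorem rt_sumU : ∃ C : ℝ, 0 ≤ C ∧ ∀ T M : ℝ, 0 < T → 0 < M → ∀ J : ℕ,
    ∑ j ∈ Finset.range J, (2 : ℝ) ^ j * min ((T * M / (2 ^ j) ^ 3) ^ (3/4 : ℝ)) ((T * M / (2 ^ j) ^ 3) ^ (-(3/4) : ℝ)) ≤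
      C * (T * M) ^ (1/3 : ℝ) := by
  obtain ⟨C, hC, h2⟩ := two_sided 1 (9/4) (by norm_num)
  refine ⟨C, hC, fun T M hT hM J => ?_⟩
  set Y : ℝ := (T * M) ^ (1/3 : ℝ) with hY
  have hY0 : 0 < Y := by positivity
  have hY3 : T * M = Y ^ 3 := by
    rw [hY, ← Real.rpow_natCast, ← Real.rpow_mul (by positivity)]
    norm_num
  have h3 := h2 Y hY0 J
  have h4 : ∀ j ∈ Finset.range J, (2 : ℝ) ^ j *
      min ((T * M / (2 ^ j) ^ 3) ^ (3/4 : ℝ)) ((T * M / (2 ^ j) ^ 3) ^ (-(3/4) : ℝ)) =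
      Y * (((2 : ℝ) ^ j / Y) ^ (1 : ℝ) * min (((2 : ℝ) ^ j / Y) ^ (9/4 : ℝ)) (((2 : ℝ) ^ j / Y) ^ (-(9/4) : ℝ))) := by
    intro j _
    have hz : (0 : ℝ) < 2 ^ j / Y := by positivity
    have e1 : T * M / (2 ^ j) ^ 3 = ((2 : ℝ) ^ j / Y) ^ (-3 : ℝ) := by
      rw [Real.rpow_neg hz.le, hY3]
      have : ((2 : ℝ) ^ j / Y) ^ (3 : ℝ) = ((2 : ℝ) ^ j / Y) ^ 3 := by
        rw [← Real.rpow_natCast]
        norm_num
      rw [this, div_pow, inv_div]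
    rw [e1, ← Real.rpow_mul hz.le, ← Real.rpow_mul hz.le, Real.rpow_one]
    have e2 : (-3 : ℝ) * (3/4) = -(9/4) := by norm_num
    have e3 : (-3 : ℝ) * (-(3/4)) = 9/4 := by norm_num
    rw [e2, e3, min_comm]
    field_simp
  rw [Finset.sum_congr rfl h4, ← Finset.mul_sum, mul_comm C]
  exact mul_le_mul_of_nonneg_left h3 hY0.le

/-- the sum over `M = 2^i` for fixed `U` -/
theorem rt_sumM : ∃ C : ℝ, 0 ≤ C ∧ ∀ T V : ℝ, 0 < T → 0 < V → ∀ K : ℕ,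
    ∑ i ∈ Finset.range K, min ((T * 2 ^ i / V) ^ (3/4 : ℝ)) ((T * 2 ^ i / V) ^ (-(3/4) : ℝ)) ≤ C := by
  obtain ⟨C, hC, h2⟩ := two_sided 0 (3/4) (by norm_num)
  refine ⟨C, hC, fun T V hT hV K => ?_⟩
  have h3 := h2 (V / T) (by positivity) K
  refine le_trans (le_of_eq (Finset.sum_congr rfl fun i _ => ?_)) h3
  have e1 : T * 2 ^ i / V = (2 : ℝ) ^ i / (V / T) := by
    field_simp
  rw [e1, Real.rpow_zero, one_mul]

theorem tail_rs (h : IsSel D ((3 : ℕ) : ℝ)) (hR : RS D) : ∃ C : ℝ, 0 ≤ C ∧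
    ∀ T : ℝ, 1 ≤ T → ∀ J : ℕ, ∀ S : Finset ℕ, (∀ n ∈ S, 1 ≤ n) →
    ∫ x in T..(2 * T), ‖∑ n ∈ S, ((D.f n / n : ℝ) : ℂ) * cW D (2 ^ J) (n * x)‖ ^ 2 ≤
      C * (T ^ ((5 : ℝ) / 3) + T * (2 : ℝ) ^ J) := by
  obtain ⟨B, hB, hb⟩ := rt_block h hR
  obtain ⟨C1, hC1, h1⟩ := rt_sumU
  obtain ⟨C2, hC2, h2⟩ := rt_sumM
  set ρ : ℝ := (2 : ℝ) ^ (-(1/6) : ℝ) with hρ
  have hρ0 : 0 ≤ ρ := by positivity
  have hρ1 : ρ < 1 := by
    rw [hρ]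
    exact Real.rpow_lt_one_of_one_lt_of_neg (by norm_num) (by norm_num)
  set r : ℝ := (2 : ℝ) ^ (1/2 : ℝ) with hr
  have hr1 : 1 < r := by
    rw [hr]
    exact Real.one_lt_rpow (by norm_num) (by norm_num)
  set P : ℝ := C1 * (1 - ρ)⁻¹ with hP
  set Q : ℝ := C2 * (r - 1)⁻¹ with hQ
  refine ⟨2 * B ^ 2 * (P ^ 2 + Q ^ 2), by positivity, fun T hT J S hS => ?_⟩
  have hT0 : 0 < T := by linarith
  have hTT : T ≤ 2 * T := by linarith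
  set K : ℕ := S.sup id + 1 with hK
  set A : ℕ × ℕ → ℝ := fun p => B * T ^ (1/2 : ℝ) * (((2 : ℝ) ^ p.2 * ((2 : ℝ) ^ p.1) ^ (-(1/2) : ℝ) +
      ((2 : ℝ) ^ p.2) ^ (1/2 : ℝ)) *
      min ((T * 2 ^ p.1 / (2 ^ p.2) ^ 3) ^ (3/4 : ℝ)) ((T * 2 ^ p.1 / (2 ^ p.2) ^ 3) ^ (-(3/4) : ℝ))) with hA
  set g : ℕ × ℕ → ℝ → ℂ := fun p x => ∑ n ∈ S.filter (fun n => Nat.log 2 n = p.1),
      ((D.f n / n : ℝ) : ℂ) * cB D (2 ^ p.2) (n * x) with hg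
  have hgc : ∀ p ∈ Finset.range K ×ˢ Finset.range J, ContinuousOn (g p) (uIcc T (2 * T)) := by
    intro p _
    refine continuousOn_finsetSum _ fun n hn => continuousOn_const.mul ?_
    have hn1 : (0 : ℝ) < n := by exact_mod_cast hS n (Finset.mem_of_mem_filter n hn)
    refine (cB_continuousOn h (one_le_pow₀ (by norm_num : (1:ℝ) ≤ 2))).comp (by fun_prop) fun x hx => ?_
    rw [uIcc_of_le hTT] at hx
    exact mul_pos hn1 (lt_of_lt_of_le hT0 hx.1)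
  have hApos : ∀ p ∈ Finset.range K ×ˢ Finset.range J, 0 < A p := by
    intro p _
    rw [hA]
    have : 0 < min ((T * 2 ^ p.1 / (2 ^ p.2) ^ 3) ^ (3/4 : ℝ)) ((T * 2 ^ p.1 / (2 ^ p.2) ^ 3) ^ (-(3/4) : ℝ)) :=
      lt_min (by positivity) (by positivity)
    positivity
  have hgA : ∀ p ∈ Finset.range K ×ˢ Finset.range J, ∫ x in T..(2 * T), ‖g p x‖ ^ 2 ≤ A p ^ 2 := by
    intro p _
    refine hb p.1 p.2 T hT _ fun n hn => ?_
    rw [Finset.mem_filter] at hn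
    have hn1 : n ≠ 0 := by
      have := hS n hn.1
      omega
    rw [Finset.mem_Ico, ← hn.2]
    refine ⟨Nat.pow_log_le_self 2 hn1, ?_⟩
    have := Nat.lt_pow_succ_log_self (b := 2) (by norm_num) n
    rw [pow_succ] at this
    omega
  have hsum : ∀ x ∈ uIcc T (2 * T), ‖∑ n ∈ S, ((D.f n / n : ℝ) : ℂ) * cW D (2 ^ J) (n * x)‖ ^ 2 =
      ‖∑ p ∈ Finset.range K ×ˢ Finset.range J, g p x‖ ^ 2 := by
    intro x hx
    rw [uIcc_of_le hTT] at hx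
    have hx0 : 0 < x := lt_of_lt_of_le hT0 hx.1
    congr 2
    have hmap : ∀ n ∈ S, Nat.log 2 n ∈ Finset.range K := by
      intro n hn
      rw [Finset.mem_range, hK]
      have a1 : Nat.log 2 n ≤ n := Nat.log_le_self 2 n
      have a2 : n ≤ S.sup id := Finset.le_sup (f := id) hn
      omega
    rw [← Finset.sum_fiberwise_of_maps_to hmap, Finset.sum_product]
    refine Finset.sum_congr rfl fun i _ => ?_
    simp only [hg]
    rw [Finset.sum_comm]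
    refine Finset.sum_congr rfl fun n hn => ?_
    have hn1 : (0 : ℝ) < n := by exact_mod_cast hS n (Finset.mem_of_mem_filter n hn)
    rw [cW_eq_sum h J (mul_pos hn1 hx0), Finset.mul_sum]
  rw [intervalIntegral.integral_congr hsum]
  refine (rt_minkowski _ g A hTT hgc hApos hgA).trans ?_
  have hw0 : 0 ≤ ((2 : ℝ) ^ J) ^ (1/2 : ℝ) := by positivity
  have hAsum : ∑ p ∈ Finset.range K ×ˢ Finset.range J, A p ≤
      B * T ^ (1/2 : ℝ) * (P * T ^ (1/3 : ℝ) + Q * ((2 : ℝ) ^ J) ^ (1/2 : ℝ)) := by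
    have e1 : ∑ p ∈ Finset.range K ×ˢ Finset.range J, A p = B * T ^ (1/2 : ℝ) *
        (∑ i ∈ Finset.range K, ((2 : ℝ) ^ i) ^ (-(1/2) : ℝ) * (∑ j ∈ Finset.range J, (2 : ℝ) ^ j *
          min ((T * 2 ^ i / (2 ^ j) ^ 3) ^ (3/4 : ℝ)) ((T * 2 ^ i / (2 ^ j) ^ 3) ^ (-(3/4) : ℝ))) +
        ∑ j ∈ Finset.range J, ((2 : ℝ) ^ j) ^ (1/2 : ℝ) * (∑ i ∈ Finset.range K,
          min ((T * 2 ^ i / (2 ^ j) ^ 3) ^ (3/4 : ℝ)) ((T * 2 ^ i / (2 ^ j) ^ 3) ^ (-(3/4) : ℝ)))) := by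
      have a1 : ∑ j ∈ Finset.range J, ((2 : ℝ) ^ j) ^ (1/2 : ℝ) * (∑ i ∈ Finset.range K,
          min ((T * 2 ^ i / (2 ^ j) ^ 3) ^ (3/4 : ℝ)) ((T * 2 ^ i / (2 ^ j) ^ 3) ^ (-(3/4) : ℝ))) =
          ∑ i ∈ Finset.range K, ∑ j ∈ Finset.range J, ((2 : ℝ) ^ j) ^ (1/2 : ℝ) *
          min ((T * 2 ^ i / (2 ^ j) ^ 3) ^ (3/4 : ℝ)) ((T * 2 ^ i / (2 ^ j) ^ 3) ^ (-(3/4) : ℝ)) := by
        rw [Finset.sum_comm]
        exact Finset.sum_congr rfl fun j _ => Finset.mul_sum _ _ _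
      rw [a1, ← Finset.sum_add_distrib, Finset.sum_product, Finset.mul_sum]
      refine Finset.sum_congr rfl fun i _ => ?_
      rw [Finset.mul_sum, ← Finset.sum_add_distrib, Finset.mul_sum]
      refine Finset.sum_congr rfl fun j _ => ?_
      rw [hA]
      ring
    have e2 : ∑ i ∈ Finset.range K, ((2 : ℝ) ^ i) ^ (-(1/2) : ℝ) * (∑ j ∈ Finset.range J, (2 : ℝ) ^ j *
          min ((T * 2 ^ i / (2 ^ j) ^ 3) ^ (3/4 : ℝ)) ((T * 2 ^ i / (2 ^ j) ^ 3) ^ (-(3/4) : ℝ))) ≤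
        P * T ^ (1/3 : ℝ) := by
      have a1 : ∀ i ∈ Finset.range K, ((2 : ℝ) ^ i) ^ (-(1/2) : ℝ) * (∑ j ∈ Finset.range J, (2 : ℝ) ^ j *
          min ((T * 2 ^ i / (2 ^ j) ^ 3) ^ (3/4 : ℝ)) ((T * 2 ^ i / (2 ^ j) ^ 3) ^ (-(3/4) : ℝ))) ≤
          C1 * T ^ (1/3 : ℝ) * ρ ^ i := by
        intro i _
        refine (mul_le_mul_of_nonneg_left (h1 T (2 ^ i) hT0 (by positivity) J) (by positivity)).trans (le_of_eq ?_)
        have hM0 : (0 : ℝ) < 2 ^ i := by positivity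
        have a2 : ρ ^ i = ((2 : ℝ) ^ i) ^ (-(1/2) : ℝ) * ((2 : ℝ) ^ i) ^ (1/3 : ℝ) := by
          rw [← Real.rpow_add hM0, hρ, ← Real.rpow_natCast, ← Real.rpow_mul (by norm_num), ← Real.rpow_natCast,
            ← Real.rpow_mul (by norm_num)]
          congr 1
          ring
        rw [a2, Real.mul_rpow hT0.le hM0.le]
        ring
      refine (Finset.sum_le_sum a1).trans ?_
      rw [← Finset.mul_sum]
      refine (mul_le_mul_of_nonneg_left (rt_geom hρ0 hρ1 K) (by positivity)).trans (le_of_eq ?_)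
      rw [hP]
      ring
    have e3 : ∑ j ∈ Finset.range J, ((2 : ℝ) ^ j) ^ (1/2 : ℝ) * (∑ i ∈ Finset.range K,
          min ((T * 2 ^ i / (2 ^ j) ^ 3) ^ (3/4 : ℝ)) ((T * 2 ^ i / (2 ^ j) ^ 3) ^ (-(3/4) : ℝ))) ≤
        Q * ((2 : ℝ) ^ J) ^ (1/2 : ℝ) := by
      have a0 : ∀ j : ℕ, ((2 : ℝ) ^ j) ^ (1/2 : ℝ) = r ^ j := by
        intro j
        rw [hr, ← Real.rpow_natCast, ← Real.rpow_mul (by norm_num), ← Real.rpow_natCast,
          ← Real.rpow_mul (by norm_num), mul_comm]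
      have a1 : ∀ j ∈ Finset.range J, ((2 : ℝ) ^ j) ^ (1/2 : ℝ) * (∑ i ∈ Finset.range K,
          min ((T * 2 ^ i / (2 ^ j) ^ 3) ^ (3/4 : ℝ)) ((T * 2 ^ i / (2 ^ j) ^ 3) ^ (-(3/4) : ℝ))) ≤ C2 * r ^ j := by
        intro j _
        rw [a0, mul_comm]
        exact mul_le_mul_of_nonneg_right (h2 T ((2 ^ j) ^ 3) hT0 (by positivity) K) (by positivity)
      refine (Finset.sum_le_sum a1).trans ?_
      rw [← Finset.mul_sum, a0]
      refine (mul_le_mul_of_nonneg_left (rt_geom' hr1 J) hC2).trans (le_of_eq ?_)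
      rw [hQ]
      ring
    rw [e1]
    exact mul_le_mul_of_nonneg_left (add_le_add e2 e3) (by positivity)
  have hA0 : 0 ≤ ∑ p ∈ Finset.range K ×ˢ Finset.range J, A p := Finset.sum_nonneg fun p hp => (hApos p hp).le
  have e4 : (T ^ (1/2 : ℝ)) ^ 2 = T := by
    rw [← Real.rpow_natCast, ← Real.rpow_mul hT0.le]
    norm_num
  have e5 : T * (T ^ (1/3 : ℝ)) ^ 2 = T ^ ((5 : ℝ) / 3) := by
    rw [← Real.rpow_natCast, ← Real.rpow_mul hT0.le]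
    nth_rewrite 1 [← Real.rpow_one T]
    rw [← Real.rpow_add hT0]
    norm_num
  have e6 : (((2 : ℝ) ^ J) ^ (1/2 : ℝ)) ^ 2 = 2 ^ J := by
    rw [← Real.rpow_natCast (((2 : ℝ) ^ J) ^ (1/2 : ℝ)), ← Real.rpow_mul (by positivity)]
    norm_num
  set u : ℝ := T ^ (1/3 : ℝ) with hu
  set w : ℝ := ((2 : ℝ) ^ J) ^ (1/2 : ℝ) with hw
  calc (∑ p ∈ Finset.range K ×ˢ Finset.range J, A p) ^ 2 ≤ (B * T ^ (1/2 : ℝ) * (P * u + Q * w)) ^ 2 := by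
        gcongr
    _ = B ^ 2 * (T ^ (1/2 : ℝ)) ^ 2 * (P * u + Q * w) ^ 2 := by ring
    _ ≤ B ^ 2 * (T ^ (1/2 : ℝ)) ^ 2 * (2 * ((P ^ 2 + Q ^ 2) * (u ^ 2 + w ^ 2))) := by
        refine mul_le_mul_of_nonneg_left ?_ (by positivity)
        nlinarith [sq_nonneg (P * u - Q * w), sq_nonneg (P * w), sq_nonneg (Q * u)]
    _ = 2 * B ^ 2 * (P ^ 2 + Q ^ 2) * (T * u ^ 2 + T * w ^ 2) := by
        rw [e4]
        ring
    _ = _ := by
        rw [e5, e6]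

end Pool.Agent.H15.SC
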