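import Pool.Agent.H15.SC.KL
import Pool.Agent.H10.RP.Carry

/-!
# SC-23  the third difference test (discrete)  (project SC, MP_be4568_nt)

van der Corput inequality (`Pool.Agent.H10.RP.vdc_family` in `Pool/Agent/H10/RP/Carry.lean` with a singleton `M` may be
imported or copied): for `1 ≤ H ≤ N`
`|S|² ≤ (2N/H) (N + 2 ∑_{1≤r<H} |∑_{n<N-r} e(x (n+r) - x n)|)`.  The second differences of `y n = x (n+r) - x n` are sums of
`r` third differences of `x`, hence in `[r l, r h l]`: `second_test` gives `≤ C h (N (r l)^{1/2} + (r l)^{-1/2})`.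
`∑_{r<H} r^{1/2} ≤ H^{3/2}`, `∑_{1≤r<H} r^{-1/2} ≤ 2 H^{1/2}`; take `H = ⌊l^{-1/3}⌋` (`≥ 1` as `l ≤ 1`); if `l^{-1/3} > N` the
claim is trivial (`N² ≤ N l^{-1/3}`).
-/

set_option autoImplicit false

open Complex Filter Topology Set

namespace Pool.Agent.H15.SC

theorem norm_ee' (x : ℝ) : ‖ee x‖ = 1 := by
  rw [ee, show (2 * Real.pi * I * x : ℂ) = ((2 * Real.pi * x : ℝ) : ℂ) * I by push_cast; ring]
  exact Complex.norm_exp_ofReal_mul_I _

theorem ee_mul_conj (x y : ℝ) : ee x * (starRingEnd ℂ) (ee y) = ee (x - y) := by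
  rw [ee, ee, ee, ← Complex.exp_conj, ← Complex.exp_add]
  congr 1
  simp only [map_mul, Complex.conj_ofReal, Complex.conj_I, map_ofNat]
  push_cast
  ring

theorem sum_inv_sqrt_le (n : ℕ) : ∑ r ∈ Finset.Ico 1 (n + 1), 1 / Real.sqrt r ≤ 2 * Real.sqrt n := by
  induction n with
  | zero => simp
  | succ n ih =>
    rw [Finset.sum_Ico_succ_top (by omega)]
    have h1 : 0 < Real.sqrt ((n + 1 : ℕ) : ℝ) := Real.sqrt_pos.mpr (by positivity)
    have h0 : 0 ≤ Real.sqrt (n : ℝ) := Real.sqrt_nonneg _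
    have h2 : Real.sqrt (n : ℝ) ≤ Real.sqrt ((n + 1 : ℕ) : ℝ) := Real.sqrt_le_sqrt (by push_cast; linarith)
    have h3 : Real.sqrt ((n + 1 : ℕ) : ℝ) ^ 2 - Real.sqrt (n : ℝ) ^ 2 = 1 := by
      rw [Real.sq_sqrt (by positivity), Real.sq_sqrt (by positivity)]
      push_cast
      ring
    have h4 : 1 / Real.sqrt ((n + 1 : ℕ) : ℝ) ≤ 2 * (Real.sqrt ((n + 1 : ℕ) : ℝ) - Real.sqrt (n : ℝ)) := by
      rw [div_le_iff₀ h1]
      nlinarith
    linarith

/-- the inner sums of van der Corput's inequality -/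
theorem third_inner {C : ℝ} (hS : ∀ (x : ℕ → ℝ) (N : ℕ) (l h : ℝ), 0 < l → 1 ≤ h →
    (∀ n, n + 2 < N → l ≤ x (n + 2) - 2 * x (n + 1) + x n ∧ x (n + 2) - 2 * x (n + 1) + x n ≤ h * l) →
    ‖∑ n ∈ Finset.range N, ee (x n)‖ ≤ C * h * (N * l ^ ((1 : ℝ) / 2) + l ^ (-(1 / 2 : ℝ))))
    (hC : 1 ≤ C) (x : ℕ → ℝ) (N : ℕ) (l h : ℝ) (hl : 0 < l) (hh : 1 ≤ h)
    (hx : ∀ n, n + 3 < N → l ≤ x (n + 3) - 3 * x (n + 2) + 3 * x (n + 1) - x n ∧
      x (n + 3) - 3 * x (n + 2) + 3 * x (n + 1) - x n ≤ h * l) (r : ℕ) (hr : 1 ≤ r) :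
    ‖∑ n ∈ Finset.range (N - r), ee (x (n + r)) * (starRingEnd ℂ) (ee (x n))‖ ≤
      C * h * (N * Real.sqrt l * Real.sqrt r + 1 / Real.sqrt l * (1 / Real.sqrt r)) := by
  have hr0 : (0 : ℝ) < r := by exact_mod_cast hr
  have e1 : ∑ n ∈ Finset.range (N - r), ee (x (n + r)) * (starRingEnd ℂ) (ee (x n)) =
      ∑ n ∈ Finset.range (N - r), ee ((fun n => x (n + r) - x n) n) :=
    Finset.sum_congr rfl (fun n _ => ee_mul_conj _ _)
  -- second differences as sums of third differences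
  have e2 : ∀ (m n : ℕ), (x (n + m + 2) - x (n + 2)) - 2 * (x (n + m + 1) - x (n + 1)) + (x (n + m) - x n) =
      ∑ i ∈ Finset.range m, (x (n + i + 3) - 3 * x (n + i + 2) + 3 * x (n + i + 1) - x (n + i)) := by
    intro m n
    induction m with
    | zero => simp
    | succ m ih =>
      rw [Finset.sum_range_succ, ← ih]
      rw [show n + (m + 1) + 2 = n + m + 3 by ring, show n + (m + 1) + 1 = n + m + 2 by ring,
        show n + (m + 1) = n + m + 1 by ring]
      ring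
  have h1 := hS (fun n => x (n + r) - x n) (N - r) (r * l) h (by positivity) hh (by
    intro n hn
    have e3 : (x (n + 2 + r) - x (n + 2)) - 2 * (x (n + 1 + r) - x (n + 1)) + (x (n + r) - x n) =
        ∑ i ∈ Finset.range r, (x (n + i + 3) - 3 * x (n + i + 2) + 3 * x (n + i + 1) - x (n + i)) := by
      rw [← e2 r n]
      rw [show n + 2 + r = n + r + 2 by ring, show n + 1 + r = n + r + 1 by ring]
    rw [e3]
    constructor
    · have : ∑ i ∈ Finset.range r, l ≤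
          ∑ i ∈ Finset.range r, (x (n + i + 3) - 3 * x (n + i + 2) + 3 * x (n + i + 1) - x (n + i)) := by
        refine Finset.sum_le_sum (fun i hi => (hx (n + i) ?_).1)
        rw [Finset.mem_range] at hi
        omega
      rw [Finset.sum_const, Finset.card_range, nsmul_eq_mul] at this
      exact this
    · have : ∑ i ∈ Finset.range r, (x (n + i + 3) - 3 * x (n + i + 2) + 3 * x (n + i + 1) - x (n + i)) ≤
          ∑ i ∈ Finset.range r, h * l := by
        refine Finset.sum_le_sum (fun i hi => (hx (n + i) ?_).2)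
        rw [Finset.mem_range] at hi
        omega
      rw [Finset.sum_const, Finset.card_range, nsmul_eq_mul] at this
      linarith)
  rw [e1]
  refine h1.trans ?_
  have e4 : ((r : ℝ) * l) ^ ((1 : ℝ) / 2) = Real.sqrt l * Real.sqrt r := by
    rw [← Real.sqrt_eq_rpow, mul_comm, Real.sqrt_mul hl.le]
  have e5 : ((r : ℝ) * l) ^ (-(1 / 2 : ℝ)) = 1 / Real.sqrt l * (1 / Real.sqrt r) := by
    rw [Real.rpow_neg (by positivity), e4]
    rw [one_div, one_div, ← mul_inv]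
  rw [e4, e5]
  have h2 : ((N - r : ℕ) : ℝ) ≤ N := by exact_mod_cast Nat.sub_le _ _
  have h3 : 0 ≤ Real.sqrt l * Real.sqrt r := by positivity
  have h4 : 0 ≤ C * h := by positivity
  refine mul_le_mul_of_nonneg_left ?_ h4
  have := mul_le_mul_of_nonneg_right h2 h3
  linarith

theorem third_test : ∃ C : ℝ, 1 ≤ C ∧ ∀ (x : ℕ → ℝ) (N : ℕ) (l h : ℝ), 0 < l → l ≤ 1 → 1 ≤ h →
    (∀ n, n + 3 < N → l ≤ x (n + 3) - 3 * x (n + 2) + 3 * x (n + 1) - x n ∧
      x (n + 3) - 3 * x (n + 2) + 3 * x (n + 1) - x n ≤ h * l) →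
    ‖∑ n ∈ Finset.range N, ee (x n)‖ ^ 2 ≤ C * h * ((N : ℝ) ^ 2 * l ^ ((1 : ℝ) / 3) + N * l ^ (-(1 / 3 : ℝ))) := by
  obtain ⟨C, hC, hS⟩ := second_test
  refine ⟨20 * C, by linarith, fun x N l h hl hl1 hh hx => ?_⟩
  -- the trivial bound
  have htriv : ‖∑ n ∈ Finset.range N, ee (x n)‖ ≤ N := by
    refine (norm_sum_le _ _).trans ?_
    simp [norm_ee']
  -- the sixth root
  set a : ℝ := l ^ ((1 : ℝ) / 6) with ha
  have hap : 0 < a := by positivity
  have hsl : Real.sqrt l = a ^ 3 := by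
    rw [Real.sqrt_eq_rpow, ha, ← Real.rpow_natCast, ← Real.rpow_mul hl.le]
    norm_num
  have hl3 : l ^ ((1 : ℝ) / 3) = a ^ 2 := by
    rw [ha, ← Real.rpow_natCast, ← Real.rpow_mul hl.le]
    norm_num
  have hl3' : l ^ (-(1 / 3 : ℝ)) = 1 / a ^ 2 := by
    rw [Real.rpow_neg hl.le, hl3, one_div]
  have ha1 : a ≤ 1 := Real.rpow_le_one hl.le hl1 (by norm_num)
  have hN0 : (0 : ℝ) ≤ N := Nat.cast_nonneg N
  have hCh : 1 ≤ C * h := one_le_mul_of_one_le_of_one_le hC hh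
  rw [hl3, hl3']
  set H : ℕ := ⌊1 / a ^ 2⌋₊ with hH
  have h1a : 1 ≤ 1 / a ^ 2 := by
    rw [le_div_iff₀ (by positivity)]
    nlinarith
  have hH1 : 1 ≤ H := by
    rw [hH, Nat.one_le_floor_iff]
    exact h1a
  have hHle : (H : ℝ) ≤ 1 / a ^ 2 := Nat.floor_le (by positivity)
  have hHlt : 1 / a ^ 2 < (H : ℝ) + 1 := Nat.lt_floor_add_one _
  have hH1' : (1 : ℝ) ≤ H := by exact_mod_cast hH1
  rcases lt_or_ge N H with hNH | hNH
  · -- trivial case
    have h1 : (N : ℝ) ≤ 1 / a ^ 2 := by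
      have : (N : ℝ) < H := by exact_mod_cast hNH
      linarith
    have h2 : ‖∑ n ∈ Finset.range N, ee (x n)‖ ^ 2 ≤ (N : ℝ) ^ 2 := pow_le_pow_left₀ (norm_nonneg _) htriv 2
    have h3 : (N : ℝ) ^ 2 ≤ N * (1 / a ^ 2) := by
      rw [sq]
      exact mul_le_mul_of_nonneg_left h1 hN0
    have h4 : 0 ≤ (N : ℝ) ^ 2 * a ^ 2 := by positivity
    have h5 : 0 ≤ N * (1 / a ^ 2) := by positivity
    nlinarith
  · have hNH' : (H : ℝ) ≤ N := by exact_mod_cast hNH
    have hv := Pool.Agent.H10.RP.vdc_family ({()} : Finset Unit) (fun _ n => ee (x n)) N H hH1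
    simp only [Finset.sum_singleton] at hv
    have hz : ∑ n ∈ Finset.range N, ‖ee (x n)‖ ^ 2 = N := by simp [norm_ee']
    rw [hz] at hv
    set s : ℝ := Real.sqrt H with hs
    have hs2 : s ^ 2 = H := Real.sq_sqrt (by positivity)
    have hs0 : 0 < s := Real.sqrt_pos.mpr (by linarith)
    -- the sum of the inner sums
    have hin : ∑ r ∈ Finset.Ico 1 H, ‖∑ n ∈ Finset.range (N - r), ee (x (n + r)) * (starRingEnd ℂ) (ee (x n))‖ ≤
        C * h * (N * a ^ 3 * (s ^ 2 * s) + 1 / a ^ 3 * (2 * s)) := by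
      calc _ ≤ ∑ r ∈ Finset.Ico 1 H, C * h * (N * Real.sqrt l * Real.sqrt r + 1 / Real.sqrt l * (1 / Real.sqrt r)) :=
            Finset.sum_le_sum (fun r hr => third_inner hS hC x N l h hl hh hx r (Finset.mem_Ico.mp hr).1)
        _ = C * h * (N * Real.sqrt l * ∑ r ∈ Finset.Ico 1 H, Real.sqrt r
              + 1 / Real.sqrt l * ∑ r ∈ Finset.Ico 1 H, 1 / Real.sqrt r) := by
            rw [← Finset.mul_sum, Finset.sum_add_distrib, Finset.mul_sum, Finset.mul_sum]
        _ ≤ C * h * (N * a ^ 3 * (s ^ 2 * s) + 1 / a ^ 3 * (2 * s)) := by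
            rw [hsl]
            have k1 : ∑ r ∈ Finset.Ico 1 H, Real.sqrt r ≤ s ^ 2 * s := by
              calc ∑ r ∈ Finset.Ico 1 H, Real.sqrt r ≤ ∑ r ∈ Finset.Ico 1 H, s := by
                    refine Finset.sum_le_sum (fun r hr => ?_)
                    rw [Finset.mem_Ico] at hr
                    exact Real.sqrt_le_sqrt (by exact_mod_cast hr.2.le)
                _ = ((H - 1 : ℕ) : ℝ) * s := by rw [Finset.sum_const, Nat.card_Ico, nsmul_eq_mul]
                _ ≤ s ^ 2 * s := by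
                    rw [hs2]
                    gcongr
                    omega
            have k2 : ∑ r ∈ Finset.Ico 1 H, 1 / Real.sqrt r ≤ 2 * s := by
              obtain ⟨m, hm⟩ : ∃ m, H = m + 1 := ⟨H - 1, by omega⟩
              have := sum_inv_sqrt_le m
              rw [← hm] at this
              refine this.trans ?_
              have : Real.sqrt m ≤ s := Real.sqrt_le_sqrt (by rw [hm]; push_cast; linarith)
              linarith
            gcongr
    have hsa : s * a ≤ 1 := by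
      have h1 : (s * a) ^ 2 ≤ 1 := by
        rw [mul_pow, hs2]
        calc (H : ℝ) * a ^ 2 ≤ 1 / a ^ 2 * a ^ 2 := by gcongr
          _ = 1 := by field_simp
      nlinarith [mul_pos hs0 hap]
    have hsa2 : 1 ≤ 2 * a * s := by
      have h1 : 1 ≤ 2 * (s ^ 2 * a ^ 2) := by
        rw [hs2]
        have h2 : 1 / a ^ 2 ≤ 2 * H := by linarith
        rw [div_le_iff₀ (by positivity)] at h2
        linarith
      nlinarith [mul_pos hs0 hap]
    have hinv : 1 / s ≤ 2 * a := by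
      rw [div_le_iff₀ hs0]
      linarith
    have hinv2 : 1 / s ^ 2 ≤ 2 * a ^ 2 := by
      have h2 : 1 / a ^ 2 ≤ 2 * s ^ 2 := by rw [hs2]; linarith
      rw [div_le_iff₀ (by positivity)] at h2 ⊢
      linarith
    have hfac : ((N : ℝ) + H) / H ≤ 2 * N * (1 / s ^ 2) := by
      rw [hs2, mul_one_div]
      gcongr
      linarith
    calc ‖∑ n ∈ Finset.range N, ee (x n)‖ ^ 2 ≤ ((N : ℝ) + H) / H * (N + 2 *
          ∑ r ∈ Finset.Ico 1 H, ‖∑ n ∈ Finset.range (N - r), ee (x (n + r)) * (starRingEnd ℂ) (ee (x n))‖) := hv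
      _ ≤ 2 * N * (1 / s ^ 2) * (N + 2 * (C * h * (N * a ^ 3 * (s ^ 2 * s) + 1 / a ^ 3 * (2 * s)))) := by
          gcongr
      _ = 2 * N ^ 2 * (1 / s ^ 2) + 4 * (C * h) * (N ^ 2 * a ^ 2) * (s * a)
            + 8 * (C * h) * N * (1 / a ^ 3) * (1 / s) := by
          field_simp
          ring
      _ ≤ 2 * N ^ 2 * (2 * a ^ 2) + 4 * (C * h) * (N ^ 2 * a ^ 2) * 1
            + 8 * (C * h) * N * (1 / a ^ 3) * (2 * a) := by
          gcongr
      _ = 4 * (N ^ 2 * a ^ 2) + 4 * (C * h) * (N ^ 2 * a ^ 2) + 16 * (C * h) * (N * (1 / a ^ 2)) := by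
          field_simp
          ring
      _ ≤ 20 * C * h * ((N : ℝ) ^ 2 * a ^ 2 + N * (1 / a ^ 2)) := by
          have k1 : 0 ≤ (N : ℝ) ^ 2 * a ^ 2 := by positivity
          have k2 : 0 ≤ (N : ℝ) * (1 / a ^ 2) := by positivity
          have k3 : 0 ≤ (C * h - 1) * ((N : ℝ) ^ 2 * a ^ 2) := mul_nonneg (by linarith) k1
          have k4 : 0 ≤ (C * h) * ((N : ℝ) ^ 2 * a ^ 2) := by positivity
          have k5 : 0 ≤ (C * h) * ((N : ℝ) * (1 / a ^ 2)) := by positivity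
          nlinarith

end Pool.Agent.H15.SC
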